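import Mathlib
import Pool.Agent.Work.MP_8da9ea_nt.Der

/-! Bundle of small proof modules (one section per former module). -/

section

/-!
# The flat connection attached to `g₂, g₃` and points of the elliptic curve
-/

set_option autoImplicit false

namespace Pool.Agent.Work.MP_8da9ea_nt

open Matrix

section mats

variable {C M : Type*} [Field C] [Field M] [Algebra C M]

lemma mmap_mul (X : Derivation C M M) (A B : Matrix (Fin 2) (Fin 2) M) :
    (A * B).map X = A.map X * B + A * B.map X := by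
  ext i j
  simp only [Matrix.map_apply, Matrix.mul_apply, Matrix.add_apply, Fin.sum_univ_two, map_add,
    Derivation.leibniz, smul_eq_mul]
  ring

lemma mmap_sub (X : Derivation C M M) (A B : Matrix (Fin 2) (Fin 2) M) :
    (A - B).map X = A.map X - B.map X := by
  ext i j
  simp

lemma mmap_vec (X : Derivation C M M) (A : Matrix (Fin 2) (Fin 2) M) (v : Fin 2 → M) :
    (fun k => X ((A *ᵥ v) k)) = (A.map X) *ᵥ v + A *ᵥ (fun k => X (v k)) := by
  funext i
  simp only [Matrix.mulVec, dotProduct, Fin.sum_univ_two, map_add, Derivation.leibniz, smul_eq_mul,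
    Pi.add_apply, Matrix.map_apply]
  ring

/-- gauge transformation of a flat connection is flat -/
lemma gauge_flat (𝒜 : Derivation C M M → Matrix (Fin 2) (Fin 2) M)
    (hA : ∀ X Y : Derivation C M M,
      𝒜 ⁅X, Y⁆ = (𝒜 Y).map X - (𝒜 X).map Y - (𝒜 X * 𝒜 Y - 𝒜 Y * 𝒜 X))
    (A0 B0 : Matrix (Fin 2) (Fin 2) M) (hAB : A0 * B0 = 1) (hBA : B0 * A0 = 1)
    (Θ : Derivation C M M → Matrix (Fin 2) (Fin 2) M)
    (hΘ : ∀ X, Θ X = B0 * (A0.map X - 𝒜 X * A0)) (X Y : Derivation C M M) :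
    Θ ⁅X, Y⁆ = (Θ Y).map X - (Θ X).map Y + (Θ X * Θ Y - Θ Y * Θ X) := by
  have h1 : ∀ X, A0 * Θ X = A0.map X - 𝒜 X * A0 := by
    intro X
    rw [hΘ, ← mul_assoc, hAB, one_mul]
  have hinj : ∀ U V : Matrix (Fin 2) (Fin 2) M, A0 * U = A0 * V → U = V := by
    intro U V h
    have h2 := congrArg (fun W => B0 * W) h
    simpa only [← mul_assoc, hBA, one_mul] using h2
  have h2 : ∀ X Y : Derivation C M M, A0 * (Θ Y).map X =
      (A0.map Y).map X - ((𝒜 Y).map X * A0 + 𝒜 Y * A0.map X) - A0.map X * Θ Y := by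
    intro X Y
    have h3 := mmap_mul X A0 (Θ Y)
    rw [h1 Y, mmap_sub, mmap_mul] at h3
    rw [h3]
    abel
  have h4 : ∀ X : Derivation C M M, A0.map X = 𝒜 X * A0 + A0 * Θ X := by
    intro X
    rw [h1 X]; abel
  have h5 : A0.map (⁅X, Y⁆ : Derivation C M M) = (A0.map Y).map X - (A0.map X).map Y := by
    ext i j
    simp [Derivation.commutator_apply]
  apply hinj
  rw [h1, h5, hA, mul_add, mul_sub, h2, h2, mul_sub]
  have h6 : A0 * (Θ X * Θ Y) = (A0.map X - 𝒜 X * A0) * Θ Y := by rw [← mul_assoc, h1]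
  have h7 : A0 * (Θ Y * Θ X) = (A0.map Y - 𝒜 Y * A0) * Θ X := by rw [← mul_assoc, h1]
  rw [h6, h7]
  have h8 : 𝒜 X * A0 * Θ Y = 𝒜 X * (A0.map Y - 𝒜 Y * A0) := by rw [mul_assoc, h1]
  have h9 : 𝒜 Y * A0 * Θ X = 𝒜 Y * (A0.map X - 𝒜 X * A0) := by rw [mul_assoc, h1]
  rw [sub_mul (A0.map X), sub_mul (A0.map Y), h8, h9]
  simp only [sub_mul, mul_sub, ← mul_assoc]
  abel

/-- flatness of the transformed section -/
lemma gauge_vec (𝒜 : Derivation C M M → Matrix (Fin 2) (Fin 2) M)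
    (hA : ∀ X Y : Derivation C M M,
      𝒜 ⁅X, Y⁆ = (𝒜 Y).map X - (𝒜 X).map Y - (𝒜 X * 𝒜 Y - 𝒜 Y * 𝒜 X))
    (β : Derivation C M M → Fin 2 → M)
    (hβ : ∀ X Y : Derivation C M M,
      β ⁅X, Y⁆ = (fun k => X (β Y k)) - (fun k => Y (β X k)) - (𝒜 X *ᵥ β Y - 𝒜 Y *ᵥ β X))
    (A0 B0 : Matrix (Fin 2) (Fin 2) M) (hAB : A0 * B0 = 1) (hBA : B0 * A0 = 1)
    (Θ : Derivation C M M → Matrix (Fin 2) (Fin 2) M)
    (hΘ : ∀ X, Θ X = B0 * (A0.map X - 𝒜 X * A0)) (ξ : Fin 2 → M)
    (v : Derivation C M M → Fin 2 → M)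
    (hv : ∀ X : Derivation C M M, v X = B0 *ᵥ ((fun k => X (ξ k)) - 𝒜 X *ᵥ ξ - β X))
    (X Y : Derivation C M M) :
    v ⁅X, Y⁆ = (fun k => X (v Y k)) - (fun k => Y (v X k)) + (Θ X) *ᵥ (v Y) - (Θ Y) *ᵥ (v X) := by
  have h1 : ∀ X : Derivation C M M, A0 *ᵥ v X = (fun k => X (ξ k)) - 𝒜 X *ᵥ ξ - β X := by
    intro X
    rw [hv, Matrix.mulVec_mulVec, hAB, Matrix.one_mulVec]
  have hinj : ∀ U V : Fin 2 → M, A0 *ᵥ U = A0 *ᵥ V → U = V := by
    intro U V h
    have h2 := congrArg (fun W => B0 *ᵥ W) h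
    simpa only [Matrix.mulVec_mulVec, hBA, Matrix.one_mulVec] using h2
  have hT : ∀ X, A0 * Θ X = A0.map X - 𝒜 X * A0 := by
    intro X
    rw [hΘ, ← mul_assoc, hAB, one_mul]
  have h2 : ∀ X Y : Derivation C M M, A0 *ᵥ (fun k => X (v Y k)) =
      (fun k => X (Y (ξ k))) - ((𝒜 Y).map X *ᵥ ξ + 𝒜 Y *ᵥ (fun k => X (ξ k))) -
        (fun k => X (β Y k)) - A0.map X *ᵥ v Y := by
    intro X Y
    have h3 := mmap_vec X A0 (v Y)
    rw [h1 Y] at h3
    have h4 : (fun k => X (((fun k => Y (ξ k)) - 𝒜 Y *ᵥ ξ - β Y) k)) =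
        (fun k => X (Y (ξ k))) - (fun k => X ((𝒜 Y *ᵥ ξ) k)) - (fun k => X (β Y k)) := by
      funext k
      simp only [Pi.sub_apply, map_sub]
    rw [h4, mmap_vec] at h3
    rw [h3]
    abel
  have h5 : (fun k => (⁅X, Y⁆ : Derivation C M M) (ξ k)) =
      (fun k => X (Y (ξ k))) - (fun k => Y (X (ξ k))) := by
    funext k
    simp [Derivation.commutator_apply]
  apply hinj
  rw [h1, h5, hA, hβ, Matrix.mulVec_sub, Matrix.mulVec_add, Matrix.mulVec_sub, h2, h2,
    Matrix.mulVec_mulVec, Matrix.mulVec_mulVec, hT, hT]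
  have h8 : (𝒜 X * A0) *ᵥ v Y = 𝒜 X *ᵥ ((fun k => Y (ξ k)) - 𝒜 Y *ᵥ ξ - β Y) := by
    rw [← Matrix.mulVec_mulVec, h1]
  have h9 : (𝒜 Y * A0) *ᵥ v X = 𝒜 Y *ᵥ ((fun k => X (ξ k)) - 𝒜 X *ᵥ ξ - β X) := by
    rw [← Matrix.mulVec_mulVec, h1]
  rw [Matrix.sub_mulVec (A0.map X), Matrix.sub_mulVec (A0.map Y), h8, h9]
  simp only [Matrix.sub_mulVec, Matrix.mulVec_sub, Matrix.mulVec_mulVec]
  abel

end mats

section conn

variable {C M : Type*} [Field C] [Field M] [Algebra C M]

/-- the `(1,1)` entry of the connection -/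
def cA (g2 g3 : M) (X : Derivation C M M) : M :=
  (-(g2 ^ 2 / 3) * X g2 + 6 * g3 * X g3) / (4 / 3 * (g2 ^ 3 - 27 * g3 ^ 2))

/-- the `(1,2)` entry of the connection -/
def cB (g2 g3 : M) (X : Derivation C M M) : M :=
  (-4 * g2 * X g3 + 6 * g3 * X g2) / (4 / 3 * (g2 ^ 3 - 27 * g3 ^ 2))

/-- the connection matrix -/
def cM (g2 g3 : M) (X : Derivation C M M) : Matrix (Fin 2) (Fin 2) M :=
  !![cA g2 g3 X, cB g2 g3 X; -(g2 / 12) * cB g2 g3 X, -cA g2 g3 X]

variable [CharZero M] {g2 g3 : M}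

lemma cAB2 (hΔ : g2 ^ 3 - 27 * g3 ^ 2 ≠ 0) (X : Derivation C M M) :
    X g2 = -4 * g2 * cA g2 g3 X - 6 * g3 * cB g2 g3 X := by
  have hd : (4 / 3 : M) * (g2 ^ 3 - 27 * g3 ^ 2) ≠ 0 := mul_ne_zero (by norm_num) hΔ
  rw [cA, cB, ← mul_div_assoc, ← mul_div_assoc, ← sub_div, eq_div_iff hd]
  ring

lemma cAB3 (hΔ : g2 ^ 3 - 27 * g3 ^ 2 ≠ 0) (X : Derivation C M M) :
    X g3 = -6 * g3 * cA g2 g3 X - g2 ^ 2 / 3 * cB g2 g3 X := by
  have hd : (4 / 3 : M) * (g2 ^ 3 - 27 * g3 ^ 2) ≠ 0 := mul_ne_zero (by norm_num) hΔ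
  rw [cA, cB, ← mul_div_assoc, ← mul_div_assoc, ← sub_div, eq_div_iff hd]
  ring

lemma cAB_unique (hΔ : g2 ^ 3 - 27 * g3 ^ 2 ≠ 0) {a b : M}
    (h2 : -4 * g2 * a - 6 * g3 * b = 0) (h3 : -6 * g3 * a - g2 ^ 2 / 3 * b = 0) :
    a = 0 ∧ b = 0 := by
  constructor
  · have h : (g2 ^ 3 - 27 * g3 ^ 2) * a = 0 := by
      linear_combination (-(g2 ^ 2 / 4)) * h2 + (9 / 2 * g3) * h3
    exact (mul_eq_zero.1 h).resolve_left hΔ
  · have h : (g2 ^ 3 - 27 * g3 ^ 2) * b = 0 := by
      linear_combination (9 / 2 * g3) * h2 + (-3 * g2) * h3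
    exact (mul_eq_zero.1 h).resolve_left hΔ

lemma cAB_flat (hΔ : g2 ^ 3 - 27 * g3 ^ 2 ≠ 0) (X Y : Derivation C M M) :
    cA g2 g3 ⁅X, Y⁆ = X (cA g2 g3 Y) - Y (cA g2 g3 X) ∧
    cB g2 g3 ⁅X, Y⁆ = X (cB g2 g3 Y) - Y (cB g2 g3 X) -
      2 * (cA g2 g3 X * cB g2 g3 Y - cA g2 g3 Y * cB g2 g3 X) := by
  have e1 := cAB2 hΔ ⁅X, Y⁆
  have e2 := cAB3 hΔ ⁅X, Y⁆
  have e3 := congrArg X (cAB2 hΔ Y)
  have e4 := congrArg Y (cAB2 hΔ X)
  have e5 := congrArg X (cAB3 hΔ Y)
  have e6 := congrArg Y (cAB3 hΔ X)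
  have hX2 := cAB2 hΔ X
  have hX3 := cAB3 hΔ X
  have hY2 := cAB2 hΔ Y
  have hY3 := cAB3 hΔ Y
  have h3 : ∀ Z : Derivation C M M, Z (3 : M) = 0 := fun Z => by
    have := Z.map_natCast 3
    simpa using this
  have h4 : ∀ Z : Derivation C M M, Z (4 : M) = 0 := fun Z => by
    have := Z.map_natCast 4
    simpa using this
  have h6 : ∀ Z : Derivation C M M, Z (6 : M) = 0 := fun Z => by
    have := Z.map_natCast 6
    simpa using this
  have hneg4 : ∀ Z : Derivation C M M, ∀ u : M, Z (-4 * g2 * u) = -4 * (g2 * Z u + u * Z g2) := by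
    intro Z u
    have : (-4 : M) * g2 * u = -(4 * (g2 * u)) := by ring
    rw [this, map_neg, Derivation.leibniz, h4, Derivation.leibniz]
    simp only [smul_eq_mul]
    ring
  have hneg6 : ∀ Z : Derivation C M M, ∀ u : M, Z (-6 * g3 * u) = -6 * (g3 * Z u + u * Z g3) := by
    intro Z u
    have : (-6 : M) * g3 * u = -(6 * (g3 * u)) := by ring
    rw [this, map_neg, Derivation.leibniz, h6, Derivation.leibniz]
    simp only [smul_eq_mul]
    ring
  have h6' : ∀ Z : Derivation C M M, ∀ u : M, Z (6 * g3 * u) = 6 * (g3 * Z u + u * Z g3) := by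
    intro Z u
    have : (6 : M) * g3 * u = (6 * (g3 * u)) := by ring
    rw [this, Derivation.leibniz, h6, Derivation.leibniz]
    simp only [smul_eq_mul]
    ring
  have h33 : ∀ Z : Derivation C M M, ∀ u : M, Z (g2 ^ 2 / 3 * u) =
      (g2 ^ 2 * Z u + 2 * g2 * u * Z g2) / 3 := by
    intro Z u
    have h7 : Z (3 * (g2 ^ 2 / 3 * u)) = g2 ^ 2 * Z u + 2 * g2 * u * Z g2 := by
      have : (3 : M) * (g2 ^ 2 / 3 * u) = g2 * (g2 * u) := by field_simp
      rw [this, Derivation.leibniz, Derivation.leibniz]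
      simp only [smul_eq_mul]
      ring
    rw [Derivation.leibniz, h3] at h7
    simp only [smul_eq_mul] at h7
    rw [← h7]
    ring
  rw [map_sub, hneg4, h6'] at e3 e4
  rw [map_sub, hneg6, h33] at e5 e6
  rw [Derivation.commutator_apply] at e1 e2
  have k2 : -4 * g2 * (cA g2 g3 ⁅X, Y⁆ - (X (cA g2 g3 Y) - Y (cA g2 g3 X))) -
      6 * g3 * (cB g2 g3 ⁅X, Y⁆ - (X (cB g2 g3 Y) - Y (cB g2 g3 X) -
        2 * (cA g2 g3 X * cB g2 g3 Y - cA g2 g3 Y * cB g2 g3 X))) = 0 := by
    rw [e3, e4] at e1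
    linear_combination (-1) * e1 - (4 * cA g2 g3 Y) * hX2 + (4 * cA g2 g3 X) * hY2 -
      (6 * cB g2 g3 Y) * hX3 + (6 * cB g2 g3 X) * hY3
  have k3 : -6 * g3 * (cA g2 g3 ⁅X, Y⁆ - (X (cA g2 g3 Y) - Y (cA g2 g3 X))) -
      g2 ^ 2 / 3 * (cB g2 g3 ⁅X, Y⁆ - (X (cB g2 g3 Y) - Y (cB g2 g3 X) -
        2 * (cA g2 g3 X * cB g2 g3 Y - cA g2 g3 Y * cB g2 g3 X))) = 0 := by
    rw [e5, e6] at e2
    linear_combination (-1) * e2 - (6 * cA g2 g3 Y) * hX3 + (6 * cA g2 g3 X) * hY3 -
      (2 / 3 * g2 * cB g2 g3 Y) * hX2 + (2 / 3 * g2 * cB g2 g3 X) * hY2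
  obtain ⟨l1, l2⟩ := cAB_unique hΔ k2 k3
  exact ⟨sub_eq_zero.1 l1, sub_eq_zero.1 l2⟩

omit [CharZero M] in
lemma der2 (X : Derivation C M M) : X (2 : M) = 0 := by
  have h : ((2 : ℕ) : M) = 2 := by norm_num
  rw [← h]
  exact X.map_natCast 2

omit [CharZero M] in
lemma der3 (X : Derivation C M M) : X (3 : M) = 0 := by
  have h : ((3 : ℕ) : M) = 3 := by norm_num
  rw [← h]
  exact X.map_natCast 3

omit [CharZero M] in
lemma der4 (X : Derivation C M M) : X (4 : M) = 0 := by
  have h : ((4 : ℕ) : M) = 4 := by norm_num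
  rw [← h]
  exact X.map_natCast 4

omit [CharZero M] in
lemma der12 (X : Derivation C M M) : X (12 : M) = 0 := by
  have h : ((12 : ℕ) : M) = 12 := by norm_num
  rw [← h]
  exact X.map_natCast 12

lemma cM_flat (hΔ : g2 ^ 3 - 27 * g3 ^ 2 ≠ 0) (X Y : Derivation C M M) :
    cM g2 g3 ⁅X, Y⁆ = (cM g2 g3 Y).map X - (cM g2 g3 X).map Y -
      (cM g2 g3 X * cM g2 g3 Y - cM g2 g3 Y * cM g2 g3 X) := by
  obtain ⟨h1, h2⟩ := cAB_flat hΔ X Y
  have hX2 := cAB2 hΔ X
  have hY2 := cAB2 hΔ Y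
  ext i j
  fin_cases i <;> fin_cases j
  · simp [cM, h1]
    ring
  · simp [cM, h2]
    ring
  · simp only [cM, h2, Matrix.mul_apply, Fin.sum_univ_two, Matrix.map_apply, Matrix.sub_apply,
      Matrix.of_apply, Matrix.cons_val', Matrix.cons_val_zero, Matrix.cons_val_one,
      Matrix.cons_val_fin_one, Fin.zero_eta, Fin.mk_one, div_eq_mul_inv, Derivation.leibniz,
      Derivation.leibniz_inv, der12, smul_eq_mul, map_neg, hX2, hY2]
    ring
  · simp [cM, h1]
    ring

/-- first component of the inhomogeneous term attached to a point `(x, y)` of the curve -/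
def cb1 (g2 g3 x y : M) (X : Derivation C M M) : M :=
  (X x + 2 * cA g2 g3 X * x + cB g2 g3 X * (2 * x ^ 2 - g2 / 3)) / y

/-- second component of the inhomogeneous term attached to a point `(x, y)` of the curve -/
def cb2 (g2 g3 x y : M) (X : Derivation C M M) : M :=
  -x * cb1 g2 g3 x y X + cB g2 g3 X * y / 2

variable {x y : M}

omit [CharZero M] in
lemma der_x (hy : y ≠ 0) (X : Derivation C M M) :
    X x = y * cb1 g2 g3 x y X - 2 * cA g2 g3 X * x - cB g2 g3 X * (2 * x ^ 2 - g2 / 3) := by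
  rw [cb1, mul_div_cancel₀ _ hy]
  ring

lemma der_y (hΔ : g2 ^ 3 - 27 * g3 ^ 2 ≠ 0) (hy : y ≠ 0)
    (hxy : y ^ 2 = 4 * x ^ 3 - g2 * x - g3) (X : Derivation C M M) :
    X y = (6 * x ^ 2 - g2 / 2) * cb1 g2 g3 x y X - 3 * cA g2 g3 X * y -
      3 * cB g2 g3 X * x * y := by
  have h1 := congrArg X hxy
  simp only [Derivation.leibniz, Derivation.leibniz_pow, der4, smul_eq_mul, map_sub,
    nsmul_eq_mul] at h1
  have hx := der_x (g2 := g2) (g3 := g3) (x := x) hy X
  have h2 := cAB2 hΔ X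
  have h3 := cAB3 hΔ X
  apply mul_left_cancel₀ (mul_ne_zero (two_ne_zero (α := M)) hy)
  push_cast at h1
  linear_combination h1 + (12 * x ^ 2 - g2) * hx - x * h2 - h3 +
    (6 * cA g2 g3 X + 6 * x * cB g2 g3 X) * hxy

lemma cb_flat (hΔ : g2 ^ 3 - 27 * g3 ^ 2 ≠ 0) (hy : y ≠ 0)
    (hxy : y ^ 2 = 4 * x ^ 3 - g2 * x - g3) (X Y : Derivation C M M) :
    cb1 g2 g3 x y ⁅X, Y⁆ = X (cb1 g2 g3 x y Y) - Y (cb1 g2 g3 x y X) -
      (cA g2 g3 X * cb1 g2 g3 x y Y + cB g2 g3 X * cb2 g2 g3 x y Y -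
        (cA g2 g3 Y * cb1 g2 g3 x y X + cB g2 g3 Y * cb2 g2 g3 x y X)) ∧
    cb2 g2 g3 x y ⁅X, Y⁆ = X (cb2 g2 g3 x y Y) - Y (cb2 g2 g3 x y X) -
      (-(g2 / 12) * cB g2 g3 X * cb1 g2 g3 x y Y - cA g2 g3 X * cb2 g2 g3 x y Y -
        (-(g2 / 12) * cB g2 g3 Y * cb1 g2 g3 x y X - cA g2 g3 Y * cb2 g2 g3 x y X)) := by
  obtain ⟨h1, h2⟩ := cAB_flat hΔ X Y
  have hX2 := cAB2 hΔ X
  have hY2 := cAB2 hΔ Y
  have hXx := der_x (g2 := g2) (g3 := g3) (x := x) hy X
  have hYx := der_x (g2 := g2) (g3 := g3) (x := x) hy Y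
  have hXy := der_y hΔ hy hxy X
  have hYy := der_y hΔ hy hxy Y
  have hXYx := der_x (g2 := g2) (g3 := g3) (x := x) hy ⁅X, Y⁆
  have e1 := congrArg X hYx
  have e2 := congrArg Y hXx
  simp only [div_eq_mul_inv, Derivation.leibniz, Derivation.leibniz_pow, Derivation.leibniz_inv,
    der2, der3, smul_eq_mul, map_sub, nsmul_eq_mul] at e1 e2
  push_cast at e1 e2
  rw [Derivation.commutator_apply, h1, h2, e1, e2] at hXYx
  have key : cb1 g2 g3 x y ⁅X, Y⁆ = X (cb1 g2 g3 x y Y) - Y (cb1 g2 g3 x y X) -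
      (cA g2 g3 X * cb1 g2 g3 x y Y + cB g2 g3 X * cb2 g2 g3 x y Y -
        (cA g2 g3 Y * cb1 g2 g3 x y X + cB g2 g3 Y * cb2 g2 g3 x y X)) := by
    apply mul_left_cancel₀ hy
    rw [hX2, hY2, hXx, hYx, hXy, hYy] at hXYx
    simp only [cb2]
    linear_combination (-1) * hXYx
  refine ⟨key, ?_⟩
  have h3 : ∀ Z : Derivation C M M, cb2 g2 g3 x y Z =
      -x * cb1 g2 g3 x y Z + cB g2 g3 Z * y / 2 := fun Z => rfl
  have e3 := congrArg X (h3 Y)
  have e4 := congrArg Y (h3 X)
  simp only [div_eq_mul_inv, Derivation.leibniz, Derivation.leibniz_inv,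
    der2, smul_eq_mul, map_add, map_neg] at e3 e4
  rw [e3, e4, h3 ⁅X, Y⁆, key, h2, hXx, hYx, hXy, hYy, h3 X, h3 Y]
  linear_combination (0 : M) * hxy

end conn

end Pool.Agent.Work.MP_8da9ea_nt

end

section

/-!
The dichotomy for flat forms with values in the semidirect product of the traceless
two by two matrices with copies of the standard module and of the trivial module.
-/

namespace Pool.Agent.ED

open Matrix

section Sep

variable {C M : Type*} [Field C] [Field M] [Algebra C M]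

/-- A vector over the big field killed by all functionals over the small field killing a subspace
over the small field lies in the span of the subspace. -/
theorem mem_span_of_functionals {σ : Type*} [Fintype σ] [DecidableEq σ]
    (W : Submodule C (σ → C)) (x : σ → M)
    (h : ∀ f : σ → C, (∀ w ∈ W, ∑ s, f s * w s = 0) → ∑ s, algebraMap C M (f s) * x s = 0) :
    x ∈ Submodule.span M {u : σ → M | ∃ w ∈ W, u = fun s => algebraMap C M (w s)} := by
  obtain ⟨g, hg⟩ := W.subtype.exists_leftInverse_of_injective (Submodule.ker_subtype W)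
  have hg' : ∀ w ∈ W, (g w : σ → C) = w := by
    intro w hw
    have := LinearMap.congr_fun hg ⟨w, hw⟩
    simp only [LinearMap.comp_apply, Submodule.subtype_apply, LinearMap.id_apply] at this
    rw [this]
  have hexp : ∀ w : σ → C, ∀ i, (g w : σ → C) i = ∑ j, w j * (g (Pi.single j 1) : σ → C) i := by
    intro w i
    have h1 : w = ∑ j, w j • (Pi.single j (1 : C) : σ → C) := by
      funext k
      simp [Finset.sum_apply, Pi.single_apply]
    conv_lhs => rw [h1]
    simp [map_sum, Finset.sum_apply]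
  have hx : x = ∑ j, x j • (fun s => algebraMap C M ((g (Pi.single j 1) : σ → C) s)) := by
    funext i
    have h1 := h (fun j => (if j = i then 1 else 0) - (g (Pi.single j 1) : σ → C) i) (by
      intro w hw
      have h2 := hexp w i
      rw [hg' w hw] at h2
      simp only [sub_mul, Finset.sum_sub_distrib, ite_mul, one_mul, zero_mul,
        Finset.sum_ite_eq', Finset.mem_univ, if_true]
      rw [sub_eq_zero]
      rw [h2]
      exact Finset.sum_congr rfl fun j _ => mul_comm _ _)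
    simp only [map_sub, sub_mul, Finset.sum_sub_distrib] at h1
    have h3 : ∑ s, (algebraMap C M (if s = i then 1 else 0)) * x s = x i := by
      rw [Finset.sum_eq_single i]
      · simp
      · intro b _ hb
        simp [hb]
      · intro hb
        exact absurd (Finset.mem_univ i) hb
    rw [h3, sub_eq_zero] at h1
    rw [h1]
    simp only [Finset.sum_apply, Pi.smul_apply, smul_eq_mul]
    exact Finset.sum_congr rfl fun j _ => mul_comm _ _
  rw [hx]
  refine Submodule.sum_mem _ fun j _ => Submodule.smul_mem _ _ (Submodule.subset_span ?_)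
  exact ⟨_, (g (Pi.single j 1)).2, rfl⟩

end Sep

section Lie

variable {C M : Type*} [Field C] [CharZero C] [Field M] [Algebra C M]
variable {ι κ : Type*} [Fintype ι] [Fintype κ]

/-- The constants of the image. -/
def GG (Θ : Derivation C M M →ₗ[M] Matrix (Fin 2) (Fin 2) M)
    (v : ι → Derivation C M M →ₗ[M] (Fin 2 → M)) (θ : κ → Derivation C M M →ₗ[M] M)
    (A : Matrix (Fin 2) (Fin 2) C) (u : ι → Fin 2 → C) (r : κ → C) : Prop :=
  ∃ X : Derivation C M M, Θ X = A.map (algebraMap C M) ∧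
    (∀ i, v i X = fun k => algebraMap C M (u i k)) ∧ ∀ l, θ l X = algebraMap C M (r l)

variable {Θ : Derivation C M M →ₗ[M] Matrix (Fin 2) (Fin 2) M}
    {v : ι → Derivation C M M →ₗ[M] (Fin 2 → M)} {θ : κ → Derivation C M M →ₗ[M] M}

theorem GG_bracket
    (hΘ : ∀ X Y : Derivation C M M,
      Θ ⁅X, Y⁆ = (Θ Y).map X - (Θ X).map Y + (Θ X * Θ Y - Θ Y * Θ X))
    (hv : ∀ i, ∀ X Y : Derivation C M M, v i ⁅X, Y⁆ = (fun k => X (v i Y k))
      - (fun k => Y (v i X k)) + (Θ X) *ᵥ (v i Y) - (Θ Y) *ᵥ (v i X))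
    (hθ : ∀ l, ∀ X Y : Derivation C M M, θ l ⁅X, Y⁆ = X (θ l Y) - Y (θ l X))
    {A B : Matrix (Fin 2) (Fin 2) C} {u w : ι → Fin 2 → C} {r s : κ → C}
    (h1 : GG Θ v θ A u r) (h2 : GG Θ v θ B w s) :
    GG Θ v θ (A * B - B * A) (fun i => A *ᵥ w i - B *ᵥ u i) 0 := by
  obtain ⟨X, hX1, hX2, hX3⟩ := h1
  obtain ⟨Y, hY1, hY2, hY3⟩ := h2
  refine ⟨⁅X, Y⁆, ?_, ?_, ?_⟩
  · rw [hΘ, hX1, hY1]
    ext a b
    simp [Matrix.mul_apply, Matrix.map_apply]
  · intro i
    rw [hv, hX1, hY1, hX2, hY2]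
    funext k
    fin_cases k <;> simp
  · intro l
    rw [hθ, hX3, hY3]
    simp

/-- The total image map. -/
noncomputable def PhiL (Θ : Derivation C M M →ₗ[M] Matrix (Fin 2) (Fin 2) M)
    (v : ι → Derivation C M M →ₗ[M] (Fin 2 → M)) (θ : κ → Derivation C M M →ₗ[M] M) :
    Derivation C M M →ₗ[M] ((Fin 2 × Fin 2) ⊕ (ι × Fin 2) ⊕ κ → M) where
  toFun X := fun s => match s with
    | Sum.inl p => Θ X p.1 p.2
    | Sum.inr (Sum.inl p) => v p.1 X p.2
    | Sum.inr (Sum.inr l) => θ l X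
  map_add' X Y := by
    funext s
    rcases s with p | p | l <;> simp
  map_smul' c X := by
    funext s
    rcases s with p | p | l <;> simp

theorem PhiL_stable (D : Derivation C M M)
    (hΘ : ∀ X Y : Derivation C M M,
      Θ ⁅X, Y⁆ = (Θ Y).map X - (Θ X).map Y + (Θ X * Θ Y - Θ Y * Θ X))
    (hv : ∀ i, ∀ X Y : Derivation C M M, v i ⁅X, Y⁆ = (fun k => X (v i Y k))
      - (fun k => Y (v i X k)) + (Θ X) *ᵥ (v i Y) - (Θ Y) *ᵥ (v i X))
    (hθ : ∀ l, ∀ X Y : Derivation C M M, θ l ⁅X, Y⁆ = X (θ l Y) - Y (θ l X))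
    (hDΘ : Θ D = 0) (hDv : ∀ i, v i D = 0) (hDθ : ∀ l, θ l D = 0) (X : Derivation C M M) :
    (fun s => D (PhiL Θ v θ X s)) = PhiL Θ v θ ⁅D, X⁆ := by
  funext s
  rcases s with p | p | l
  · change D (Θ X p.1 p.2) = (Θ ⁅D, X⁆) p.1 p.2
    rw [hΘ, hDΘ]
    simp
  · change D (v p.1 X p.2) = v p.1 ⁅D, X⁆ p.2
    rw [hv, hDΘ, hDv]
    simp
  · change D (θ l X) = θ l ⁅D, X⁆
    rw [hθ, hDθ]
    simp

/-- Pairing with coefficients in the small field. -/
theorem pair_sum (L : Fin 2 → Fin 2 → M) (c : ι → Fin 2 → M) (e : κ → M)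
    (y : (Fin 2 × Fin 2) ⊕ (ι × Fin 2) ⊕ κ → M) :
    ∑ s, (match s with
      | Sum.inl p => L p.1 p.2
      | Sum.inr (Sum.inl p) => c p.1 p.2
      | Sum.inr (Sum.inr l) => e l : M) * y s
    = ∑ a, ∑ b, L a b * y (Sum.inl (a, b)) + ∑ i, ∑ k, c i k * y (Sum.inr (Sum.inl (i, k)))
      + ∑ l, e l * y (Sum.inr (Sum.inr l)) := by
  rw [Fintype.sum_sum_type, Fintype.sum_sum_type, Fintype.sum_prod_type, Fintype.sum_prod_type,
    add_assoc]

/-- Functionals killing the constants kill everything, and they detect the image. -/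
theorem functional_facts (D : Derivation C M M)
    (hD : ∀ m, D m = 0 → m ∈ Set.range (algebraMap C M))
    (hΘ : ∀ X Y : Derivation C M M,
      Θ ⁅X, Y⁆ = (Θ Y).map X - (Θ X).map Y + (Θ X * Θ Y - Θ Y * Θ X))
    (hv : ∀ i, ∀ X Y : Derivation C M M, v i ⁅X, Y⁆ = (fun k => X (v i Y k))
      - (fun k => Y (v i X k)) + (Θ X) *ᵥ (v i Y) - (Θ Y) *ᵥ (v i X))
    (hθ : ∀ l, ∀ X Y : Derivation C M M, θ l ⁅X, Y⁆ = X (θ l Y) - Y (θ l X))
    (hDΘ : Θ D = 0) (hDv : ∀ i, v i D = 0) (hDθ : ∀ l, θ l D = 0) :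
    (∀ (L : Fin 2 → Fin 2 → C) (c : ι → Fin 2 → C) (e : κ → C),
      (∀ A u r, GG Θ v θ A u r →
        ∑ a, ∑ b, L a b * A a b + ∑ i, ∑ k, c i k * u i k + ∑ l, e l * r l = 0) →
      ∀ X, ∑ a, ∑ b, algebraMap C M (L a b) * Θ X a b
        + ∑ i, ∑ k, algebraMap C M (c i k) * v i X k + ∑ l, algebraMap C M (e l) * θ l X = 0) ∧
    (∀ (A : Matrix (Fin 2) (Fin 2) M) (u : ι → Fin 2 → M) (r : κ → M),
      (∀ (L : Fin 2 → Fin 2 → C) (c : ι → Fin 2 → C) (e : κ → C),
        (∀ A u r, GG Θ v θ A u r →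
          ∑ a, ∑ b, L a b * A a b + ∑ i, ∑ k, c i k * u i k + ∑ l, e l * r l = 0) →
        ∑ a, ∑ b, algebraMap C M (L a b) * A a b
        + ∑ i, ∑ k, algebraMap C M (c i k) * u i k + ∑ l, algebraMap C M (e l) * r l = 0) →
      ∃ X, Θ X = A ∧ (∀ i, v i X = u i) ∧ ∀ l, θ l X = r l) := by
  classical
  let σ := (Fin 2 × Fin 2) ⊕ (ι × Fin 2) ⊕ κ
  let U : Submodule M (σ → M) := LinearMap.range (PhiL Θ v θ)
  have hUst : ∀ u ∈ U, (fun i => D (u i)) ∈ U := by
    rintro _ ⟨X, rfl⟩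
    exact ⟨⁅D, X⁆, (PhiL_stable D hΘ hv hθ hDΘ hDv hDθ X).symm⟩
  have hspan := dstable D hD U hUst
  let toM : (σ → C) →ₗ[C] (σ → M) := (Algebra.linearMap C M).compLeft σ
  let W : Submodule C (σ → C) := (U.restrictScalars C).comap toM
  have hW : ∀ w : σ → C, w ∈ W ↔ (fun s => algebraMap C M (w s)) ∈ U := fun w => Iff.rfl
  have hWG : ∀ w : σ → C, w ∈ W → GG Θ v θ (fun a b => w (Sum.inl (a, b)))
      (fun i k => w (Sum.inr (Sum.inl (i, k)))) (fun l => w (Sum.inr (Sum.inr l))) := by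
    intro w hw
    obtain ⟨X, hX⟩ := (hW w).1 hw
    refine ⟨X, ?_, ?_, ?_⟩
    · ext a b
      exact congrFun hX (Sum.inl (a, b))
    · intro i
      funext k
      exact congrFun hX (Sum.inr (Sum.inl (i, k)))
    · intro l
      exact congrFun hX (Sum.inr (Sum.inr l))
  have hGW : ∀ A u r, GG Θ v θ A u r → (fun s : σ => (match s with
      | Sum.inl p => A p.1 p.2
      | Sum.inr (Sum.inl p) => u p.1 p.2
      | Sum.inr (Sum.inr l) => r l : C)) ∈ W := by
    rintro A u r ⟨X, h1, h2, h3⟩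
    rw [hW]
    refine ⟨X, ?_⟩
    funext s
    rcases s with p | p | l
    · change Θ X p.1 p.2 = _
      rw [h1]; rfl
    · change v p.1 X p.2 = _
      rw [h2]
    · change θ l X = _
      rw [h3]
  have hUW : U = Submodule.span M {u : σ → M | ∃ w ∈ W, u = fun s => algebraMap C M (w s)} := by
    conv_lhs => rw [hspan]
    congr 1
    ext u
    constructor
    · rintro ⟨hu, c, rfl⟩
      exact ⟨c, (hW c).2 hu, rfl⟩
    · rintro ⟨w, hw, rfl⟩
      exact ⟨(hW w).1 hw, w, rfl⟩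
  refine ⟨?_, ?_⟩
  · intro L c e hk X
    let f : σ → C := fun s => match s with
      | Sum.inl p => L p.1 p.2
      | Sum.inr (Sum.inl p) => c p.1 p.2
      | Sum.inr (Sum.inr l) => e l
    have h1 : ∀ u ∈ U, ∑ s, algebraMap C M (f s) * u s = 0 := by
      intro u hu
      rw [hUW] at hu
      induction hu using Submodule.span_induction with
      | mem x hx =>
        obtain ⟨w, hw, rfl⟩ := hx
        have h2 := hk _ _ _ (hWG w hw)
        have h3 := pair_sum (M := C) L c e w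
        rw [h2] at h3
        have h4 : ∑ s, algebraMap C M (f s) * algebraMap C M (w s)
            = algebraMap C M (∑ s, f s * w s) := by simp [map_sum]
        rw [h4]
        have h5 : ∑ s, f s * w s = 0 := h3
        rw [h5, map_zero]
      | zero => simp
      | add x y _ _ hx hy => simp [mul_add, Finset.sum_add_distrib, hx, hy]
      | smul a x _ hx =>
        have : ∑ s, algebraMap C M (f s) * (a • x) s = a * ∑ s, algebraMap C M (f s) * x s := by
          rw [Finset.mul_sum]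
          refine Finset.sum_congr rfl fun s _ => ?_
          simp only [Pi.smul_apply, smul_eq_mul]
          ring
        rw [this, hx, mul_zero]
    have h2 := h1 (PhiL Θ v θ X) ⟨X, rfl⟩
    rw [Fintype.sum_sum_type, Fintype.sum_sum_type, Fintype.sum_prod_type,
            Fintype.sum_prod_type, ← add_assoc] at h2
    exact h2
  · intro A u r hk
    let x : σ → M := fun s => match s with
      | Sum.inl p => A p.1 p.2
      | Sum.inr (Sum.inl p) => u p.1 p.2
      | Sum.inr (Sum.inr l) => r l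
    have hx : x ∈ U := by
      rw [hUW]
      apply mem_span_of_functionals
      intro f hf
      have h1 := hk (fun a b => f (Sum.inl (a, b))) (fun i k => f (Sum.inr (Sum.inl (i, k))))
        (fun l => f (Sum.inr (Sum.inr l))) (by
          intro A u r hG
          have h2 := hf _ (hGW A u r hG)
          rw [Fintype.sum_sum_type, Fintype.sum_sum_type, Fintype.sum_prod_type,
            Fintype.sum_prod_type, ← add_assoc] at h2
          exact h2)
      rw [Fintype.sum_sum_type, Fintype.sum_sum_type, Fintype.sum_prod_type,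
            Fintype.sum_prod_type, ← add_assoc]
      exact h1
    obtain ⟨X, hX⟩ := hx
    refine ⟨X, ?_, ?_, ?_⟩
    · ext a b
      exact congrFun hX (Sum.inl (a, b))
    · intro i
      funext k
      exact congrFun hX (Sum.inr (Sum.inl (i, k)))
    · intro l
      exact congrFun hX (Sum.inr (Sum.inr l))

/-- Every traceless constant matrix is a value. -/
theorem GG_surj
    (hF : ∀ (L : Fin 2 → Fin 2 → C) (c : ι → Fin 2 → C) (e : κ → C),
      (∀ A u r, GG Θ v θ A u r →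
        ∑ a, ∑ b, L a b * A a b + ∑ i, ∑ k, c i k * u i k + ∑ l, e l * r l = 0) →
      ∀ X, ∑ a, ∑ b, algebraMap C M (L a b) * Θ X a b
        + ∑ i, ∑ k, algebraMap C M (c i k) * v i X k + ∑ l, algebraMap C M (e l) * θ l X = 0)
    (hsurj : ∀ A : Matrix (Fin 2) (Fin 2) M, A.trace = 0 → ∃ X, Θ X = A)
    (A : Matrix (Fin 2) (Fin 2) C) (hA : A.trace = 0) : ∃ u r, GG Θ v θ A u r := by
  classical
  let P : Submodule C (Matrix (Fin 2) (Fin 2) C) :=
    { carrier := {A | ∃ u r, GG Θ v θ A u r}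
      add_mem' := by
        rintro A B ⟨u, r, X, h1, h2, h3⟩ ⟨w, s, Y, h4, h5, h6⟩
        refine ⟨u + w, r + s, X + Y, ?_, ?_, ?_⟩
        · rw [map_add, h1, h4]; ext a b; simp
        · intro i; rw [map_add, h2, h5]; funext k; simp
        · intro l; rw [map_add, h3, h6]; simp
      zero_mem' := by
        refine ⟨0, 0, 0, ?_, ?_, ?_⟩
        · rw [map_zero]; ext a b; simp
        · intro i; rw [map_zero]; funext k; simp
        · intro l; rw [map_zero]; simp
      smul_mem' := by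
        rintro c A ⟨u, r, X, h1, h2, h3⟩
        refine ⟨c • u, c • r, algebraMap C M c • X, ?_, ?_, ?_⟩
        · rw [map_smul, h1]; ext a b; simp
        · intro i; rw [map_smul, h2]; funext k; simp
        · intro l; rw [map_smul, h3]; simp }
  by_contra hcon
  have hAP : A ∉ P := hcon
  obtain ⟨f, hfA, hfP⟩ := Submodule.exists_le_ker_of_notMem hAP
  let L : Fin 2 → Fin 2 → C := fun a b => f (Matrix.single a b 1)
  have hf : ∀ B : Matrix (Fin 2) (Fin 2) C, f B = ∑ a, ∑ b, L a b * B a b := by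
    intro B
    conv_lhs => rw [Matrix.matrix_eq_sum_single B]
    rw [map_sum]
    refine Finset.sum_congr rfl fun a _ => ?_
    rw [map_sum]
    refine Finset.sum_congr rfl fun b _ => ?_
    have : Matrix.single a b (B a b) = (B a b) • Matrix.single a b (1 : C) := by
      rw [Matrix.smul_single, smul_eq_mul, mul_one]
    rw [this, map_smul, smul_eq_mul, mul_comm]
  have h1 := hF L 0 0 (by
    intro B u r hG
    have hB : B ∈ P := ⟨u, r, hG⟩
    have h2 := hfP hB
    rw [LinearMap.mem_ker, hf] at h2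
    simpa using h2)
  obtain ⟨X, hX⟩ := hsurj (A.map (algebraMap C M)) (by
    rw [Matrix.trace_fin_two] at hA ⊢
    simp only [Matrix.map_apply]
    rw [← map_add, hA, map_zero])
  have h3 := h1 X
  rw [hX] at h3
  have h4 : algebraMap C M (f A) = 0 := by
    rw [hf, map_sum]
    simp only [map_sum, map_mul]
    simpa using h3
  exact hfA ((map_eq_zero _).1 h4)

/-- Functionals on the constants. -/
def NN (Θ : Derivation C M M →ₗ[M] Matrix (Fin 2) (Fin 2) M)
    (v : ι → Derivation C M M →ₗ[M] (Fin 2 → M)) (θ : κ → Derivation C M M →ₗ[M] M)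
    (ℓ : Matrix (Fin 2) (Fin 2) C →ₗ[C] C) (c : ι → Fin 2 → C) (e : κ → C) : Prop :=
  ∀ A u r, GG Θ v θ A u r → ℓ A + ∑ i, c i ⬝ᵥ u i + ∑ l, e l * r l = 0

theorem NN_coad
    (hbr : ∀ (A B : Matrix (Fin 2) (Fin 2) C) (u w : ι → Fin 2 → C) (r s : κ → C),
      GG Θ v θ A u r → GG Θ v θ B w s →
      GG Θ v θ (A * B - B * A) (fun i => A *ᵥ w i - B *ᵥ u i) 0)
    {ℓ : Matrix (Fin 2) (Fin 2) C →ₗ[C] C} {c : ι → Fin 2 → C} {e : κ → C}
    (hN : NN Θ v θ ℓ c e) {B : Matrix (Fin 2) (Fin 2) C} {w : ι → Fin 2 → C} {s : κ → C}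
    (hB : GG Θ v θ B w s) : ∃ ℓ', NN Θ v θ ℓ' (fun i => c i ᵥ* B) 0 := by
  classical
  refine ⟨ℓ.comp (LinearMap.mulLeft C B - LinearMap.mulRight C B)
    - ∑ i, (LinearMap.toSpanSingleton C C 1).comp
        ({ toFun := fun A => c i ⬝ᵥ (A *ᵥ w i)
           map_add' := fun A A' => by rw [Matrix.add_mulVec, dotProduct_add]
           map_smul' := fun a A => by
             rw [Matrix.smul_mulVec, dotProduct_smul, RingHom.id_apply] } :
          Matrix (Fin 2) (Fin 2) C →ₗ[C] C), ?_⟩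
  intro A u r hA
  have h1 := hN _ _ _ (hbr _ _ _ _ _ _ hB hA)
  simp only [Pi.zero_apply, mul_zero, Finset.sum_const_zero, add_zero] at h1 ⊢
  simp only [LinearMap.sub_apply, LinearMap.comp_apply, LinearMap.sum_apply,
    LinearMap.mulLeft_apply, LinearMap.mulRight_apply, LinearMap.toSpanSingleton_apply,
    LinearMap.coe_mk, AddHom.coe_mk, smul_eq_mul, mul_one, zero_mul, Finset.sum_const_zero,
    add_zero]
  simp only [dotProduct_sub, Finset.sum_sub_distrib] at h1
  simp only [← Matrix.dotProduct_mulVec]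
  rw [← h1]
  ring

theorem sl2_vec {c : ι → C}
    (hbr : ∀ (A B : Matrix (Fin 2) (Fin 2) C) (u w : ι → Fin 2 → C) (r s : κ → C),
      GG Θ v θ A u r → GG Θ v θ B w s →
      GG Θ v θ (A * B - B * A) (fun i => A *ᵥ w i - B *ᵥ u i) 0)
    (htr : ∀ A u r, GG Θ v θ A u r → A.trace = 0)
    (hs : ∀ A : Matrix (Fin 2) (Fin 2) C, A.trace = 0 → ∃ u r, GG Θ v θ A u r)
    (φ : Fin 2 → Matrix (Fin 2) (Fin 2) C →ₗ[C] C)
    (hφ : ∀ A u r, GG Θ v θ A u r → ∀ k, ∑ i, c i * u i k = φ k A) :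
    ∃ w : Fin 2 → C, ∀ A u r, GG Θ v θ A u r → ∀ k, ∑ i, c i * u i k = (A *ᵥ w) k := by
  obtain ⟨uH, rH, hH⟩ := hs !![1, 0; 0, -1] (by simp [Matrix.trace_fin_two])
  obtain ⟨uE, rE, hE⟩ := hs !![0, 1; 0, 0] (by simp [Matrix.trace_fin_two])
  obtain ⟨uF, rF, hF⟩ := hs !![0, 0; 1, 0] (by simp [Matrix.trace_fin_two])
  have hH' := hφ _ _ _ hH
  have hE' := hφ _ _ _ hE
  have hF' := hφ _ _ _ hF
  have hHE := hφ _ _ _ (hbr _ _ _ _ _ _ hH hE)
  have hHF := hφ _ _ _ (hbr _ _ _ _ _ _ hH hF)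
  have e1 : (!![1, 0; 0, -1] * !![0, 1; 0, 0] - !![0, 1; 0, 0] * !![1, 0; 0, -1] :
      Matrix (Fin 2) (Fin 2) C) = (2 : C) • !![0, 1; 0, 0] := by
    ext i j; fin_cases i <;> fin_cases j <;> simp <;> norm_num
  have e2 : (!![1, 0; 0, -1] * !![0, 0; 1, 0] - !![0, 0; 1, 0] * !![1, 0; 0, -1] :
      Matrix (Fin 2) (Fin 2) C) = (-2 : C) • !![0, 0; 1, 0] := by
    ext i j; fin_cases i <;> fin_cases j <;> simp <;> norm_num
  rw [e1] at hHE
  rw [e2] at hHF
  simp only [map_smul, smul_eq_mul] at hHE hHF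
  have a0 := hHE 0
  have a1 := hHE 1
  have b0 := hHF 0
  have b1 := hHF 1
  simp only [Matrix.mulVec, dotProduct, Fin.sum_univ_two, Matrix.of_apply, Matrix.cons_val',
    Matrix.cons_val_zero, Matrix.cons_val_one, Matrix.cons_val_fin_one, Pi.sub_apply, one_mul,
    zero_mul, add_zero, zero_add, neg_mul, mul_sub, mul_neg, Finset.sum_sub_distrib,
    Finset.sum_neg_distrib, sub_zero, mul_zero, Finset.sum_const_zero, zero_sub] at a0 a1 b0 b1
  rw [hE', hH'] at a0
  rw [hE'] at a1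
  rw [hF'] at b0
  rw [hF', hH'] at b1
  refine ⟨![φ 0 !![1, 0; 0, -1], - φ 1 !![1, 0; 0, -1]], ?_⟩
  intro A u r hA k
  have htA := htr _ _ _ hA
  rw [Matrix.trace_fin_two] at htA
  have hdec : A = A 0 0 • !![1, 0; 0, -1] + A 0 1 • !![0, 1; 0, 0] + A 1 0 • !![0, 0; 1, 0] := by
    ext i j
    fin_cases i <;> fin_cases j <;> simp
    linear_combination htA
  rw [hφ _ _ _ hA k]
  have hlin : φ k A = A 0 0 * φ k !![1, 0; 0, -1] + A 0 1 * φ k !![0, 1; 0, 0]
      + A 1 0 * φ k !![0, 0; 1, 0] := by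
    conv_lhs => rw [hdec]
    simp only [map_add, map_smul, smul_eq_mul]
  rw [hlin]
  have two : (2 : C) ≠ 0 := two_ne_zero
  have three : (3 : C) ≠ 0 := three_ne_zero
  have hE0 : φ 0 !![0, 1; 0, 0] = - φ 1 !![1, 0; 0, -1] := by linear_combination -a0
  have hE1 : φ 1 !![0, 1; 0, 0] = 0 := by
    have : 3 * φ 1 !![0, 1; 0, 0] = 0 := by linear_combination -a1
    exact (mul_eq_zero.1 this).resolve_left three
  have hF0 : φ 0 !![0, 0; 1, 0] = 0 := by
    have : 3 * φ 0 !![0, 0; 1, 0] = 0 := by linear_combination b0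
    exact (mul_eq_zero.1 this).resolve_left three
  have hF1 : φ 1 !![0, 0; 1, 0] = φ 0 !![1, 0; 0, -1] := by linear_combination b1
  have h11 : A 1 1 = - A 0 0 := by linear_combination htA
  fin_cases k
  · simp only [Matrix.mulVec, dotProduct, Fin.sum_univ_two, Matrix.cons_val_zero,
      Matrix.cons_val_one, Fin.zero_eta, Fin.mk_one, Matrix.cons_val_fin_one]
    rw [hE0, hF0]; ring
  · simp only [Matrix.mulVec, dotProduct, Fin.sum_univ_two, Matrix.cons_val_zero,
      Matrix.cons_val_one, Fin.zero_eta, Fin.mk_one, Matrix.cons_val_fin_one]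
    rw [hE1, hF1, h11]; ring

/-- **A5.** -/
theorem lie_dichotomy (D : Derivation C M M)
    (hD : ∀ m, D m = 0 → m ∈ Set.range (algebraMap C M))
    (Θ : Derivation C M M →ₗ[M] Matrix (Fin 2) (Fin 2) M)
    (v : ι → Derivation C M M →ₗ[M] (Fin 2 → M)) (θ : κ → Derivation C M M →ₗ[M] M)
    (htr : ∀ X, (Θ X).trace = 0)
    (hΘ : ∀ X Y : Derivation C M M,
      Θ ⁅X, Y⁆ = (Θ Y).map X - (Θ X).map Y + (Θ X * Θ Y - Θ Y * Θ X))
    (hv : ∀ i, ∀ X Y : Derivation C M M, v i ⁅X, Y⁆ = (fun k => X (v i Y k))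
      - (fun k => Y (v i X k)) + (Θ X) *ᵥ (v i Y) - (Θ Y) *ᵥ (v i X))
    (hθ : ∀ l, ∀ X Y : Derivation C M M, θ l ⁅X, Y⁆ = X (θ l Y) - Y (θ l X))
    (hDΘ : Θ D = 0) (hDv : ∀ i, v i D = 0) (hDθ : ∀ l, θ l D = 0)
    (hsurj : ∀ A : Matrix (Fin 2) (Fin 2) M, A.trace = 0 → ∃ X, Θ X = A) :
    (∀ (A : Matrix (Fin 2) (Fin 2) M) (u : ι → Fin 2 → M) (r : κ → M), A.trace = 0 →
      ∃ X, Θ X = A ∧ (∀ i, v i X = u i) ∧ ∀ l, θ l X = r l) ∨
    (∃ c : ι → C, c ≠ 0 ∧ ∃ w : Fin 2 → C,
      ∀ X, ∑ i, algebraMap C M (c i) • v i X = Θ X *ᵥ (fun k => algebraMap C M (w k))) ∨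
    (∃ e : κ → C, e ≠ 0 ∧ ∀ X, ∑ l, algebraMap C M (e l) * θ l X = 0) := by
  classical
  obtain ⟨hF3, hF2⟩ := functional_facts D hD hΘ hv hθ hDΘ hDv hDθ
  have hsj := fun A hA => GG_surj (v := v) (θ := θ) hF3 hsurj A hA
  have hbr : ∀ (A B : Matrix (Fin 2) (Fin 2) C) (u w : ι → Fin 2 → C) (r s : κ → C),
      GG Θ v θ A u r → GG Θ v θ B w s →
      GG Θ v θ (A * B - B * A) (fun i => A *ᵥ w i - B *ᵥ u i) 0 :=
    fun A B u w r s h1 h2 => GG_bracket hΘ hv hθ h1 h2
  have htG : ∀ A u r, GG Θ v θ A u r → A.trace = 0 := by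
    rintro A u r ⟨X, h1, _⟩
    have h2 := htr X
    rw [h1, Matrix.trace_fin_two] at h2
    rw [Matrix.trace_fin_two]
    simp only [Matrix.map_apply] at h2
    rw [← map_add] at h2
    exact (map_eq_zero _).1 h2
  by_cases hc : ∃ ℓ c e, NN Θ v θ ℓ c e ∧ c ≠ 0
  · -- second alternative
    right; left
    obtain ⟨ℓ, c, e, hN, hc0⟩ := hc
    obtain ⟨uE, rE, hE⟩ := hsj !![0, 1; 0, 0] (by simp [Matrix.trace_fin_two])
    obtain ⟨uF, rF, hF⟩ := hsj !![0, 0; 1, 0] (by simp [Matrix.trace_fin_two])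
    have hrE : ∀ x : Fin 2 → C, x ᵥ* !![0, 1; 0, 0] = ![0, x 0] := by
      intro x; funext k; fin_cases k <;> simp [Matrix.vecMul, dotProduct]
    have hrF : ∀ x : Fin 2 → C, x ᵥ* !![0, 0; 1, 0] = ![x 1, 0] := by
      intro x; funext k; fin_cases k <;> simp [Matrix.vecMul, dotProduct]
    obtain ⟨d, hd0, ℓ0, ℓ1, hN0, hN1⟩ : ∃ d : ι → C, d ≠ 0 ∧ ∃ ℓ0 ℓ1,
        NN Θ v θ ℓ0 (fun i => ![d i, 0]) 0 ∧ NN Θ v θ ℓ1 (fun i => ![0, d i]) 0 := by
      by_cases h0 : (fun i => c i 0) = 0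
      · have h1 : (fun i => c i 1) ≠ 0 := by
          intro h1
          apply hc0
          funext i k
          fin_cases k
          · exact congrFun h0 i
          · exact congrFun h1 i
        obtain ⟨ℓ0, hN0⟩ := NN_coad hbr hN hF
        obtain ⟨ℓ1, hN1⟩ := NN_coad hbr hN0 hE
        refine ⟨fun i => c i 1, h1, ℓ0, ℓ1, ?_, ?_⟩
        · simpa only [hrF] using hN0
        · simpa only [hrF, hrE, Matrix.cons_val_zero] using hN1
      · obtain ⟨ℓ1, hN1⟩ := NN_coad hbr hN hE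
        obtain ⟨ℓ0, hN0⟩ := NN_coad hbr hN1 hF
        refine ⟨fun i => c i 0, h0, ℓ0, ℓ1, ?_, ?_⟩
        · simpa only [hrF, hrE, Matrix.cons_val_one, Matrix.cons_val_fin_one] using hN0
        · simpa only [hrE] using hN1
    obtain ⟨w, hw⟩ := sl2_vec (c := d) hbr htG hsj ![-ℓ0, -ℓ1] (by
      intro A u r hG k
      fin_cases k
      · have h1 := hN0 A u r hG
        simp only [dotProduct, Fin.sum_univ_two, Matrix.cons_val_zero, Matrix.cons_val_one,
          Matrix.cons_val_fin_one, zero_mul, add_zero, Pi.zero_apply,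
          Finset.sum_const_zero] at h1
        simp only [Fin.zero_eta, Matrix.cons_val_zero, LinearMap.neg_apply]
        linear_combination h1
      · have h1 := hN1 A u r hG
        simp only [dotProduct, Fin.sum_univ_two, Matrix.cons_val_zero, Matrix.cons_val_one,
          Matrix.cons_val_fin_one, zero_mul, zero_add, add_zero, Pi.zero_apply,
          Finset.sum_const_zero] at h1
        simp only [Fin.mk_one, Matrix.cons_val_one, Matrix.cons_val_fin_one, LinearMap.neg_apply]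
        linear_combination h1)
    refine ⟨d, hd0, w, fun X => ?_⟩
    funext k
    have h1 := hF3 (fun a b => if a = k then - w b else 0) (fun i j => if j = k then d i else 0) 0
      (by
        intro A u r hG
        have h2 := hw A u r hG k
        simp only [Matrix.mulVec, dotProduct] at h2
        simp only [Pi.zero_apply, zero_mul, Finset.sum_const_zero, add_zero, ite_mul]
        have h3 : ∑ a, ∑ b, (if a = k then - w b * A a b else 0) = ∑ b, - w b * A k b := by
          rw [Finset.sum_eq_single k]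
          · simp
          · intro a _ ha
            simp [ha]
          · intro h; exact absurd (Finset.mem_univ k) h
        have h4 : ∀ i, ∑ j, (if j = k then d i * u i j else 0) = d i * u i k := by
          intro i; simp
        rw [h3]
        simp_rw [h4]
        rw [h2, ← Finset.sum_add_distrib]
        apply Finset.sum_eq_zero
        intro b _
        ring) X
    simp only [Pi.zero_apply, map_zero, zero_mul, Finset.sum_const_zero, add_zero] at h1
    have h3 : ∑ a, ∑ b, algebraMap C M (if a = k then - w b else 0) * Θ X a b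
        = ∑ b, - algebraMap C M (w b) * Θ X k b := by
      rw [Finset.sum_eq_single k]
      · simp
      · intro a _ ha
        simp [ha]
      · intro h; exact absurd (Finset.mem_univ k) h
    have h4 : ∀ i, ∑ j, algebraMap C M (if j = k then d i else 0) * v i X j
        = algebraMap C M (d i) * v i X k := by
      intro i
      rw [Finset.sum_eq_single k]
      · simp
      · intro a _ ha
        simp [ha]
      · intro h; exact absurd (Finset.mem_univ k) h
    rw [h3] at h1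
    simp_rw [h4] at h1
    simp only [Finset.sum_apply, Pi.smul_apply, smul_eq_mul, Matrix.mulVec, dotProduct]
    have h5 : ∑ b, Θ X k b * algebraMap C M (w b) = - ∑ b, - algebraMap C M (w b) * Θ X k b := by
      rw [← Finset.sum_neg_distrib]
      refine Finset.sum_congr rfl fun b _ => ?_
      ring
    rw [h5]
    linear_combination h1
  · push Not at hc
    by_cases hfull : ∀ (A : Matrix (Fin 2) (Fin 2) M) (u : ι → Fin 2 → M) (r : κ → M),
        A.trace = 0 → ∃ X, Θ X = A ∧ (∀ i, v i X = u i) ∧ ∀ l, θ l X = r l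
    · exact Or.inl hfull
    right; right
    push Not at hfull
    obtain ⟨A, u, r, hA, hno⟩ := hfull
    have h1 : ¬ (∀ (L : Fin 2 → Fin 2 → C) (c : ι → Fin 2 → C) (e : κ → C),
        (∀ A u r, GG Θ v θ A u r →
          ∑ a, ∑ b, L a b * A a b + ∑ i, ∑ k, c i k * u i k + ∑ l, e l * r l = 0) →
        ∑ a, ∑ b, algebraMap C M (L a b) * A a b
        + ∑ i, ∑ k, algebraMap C M (c i k) * u i k + ∑ l, algebraMap C M (e l) * r l = 0) := by
      intro hh
      obtain ⟨X, hX1, hX2, hX3⟩ := hF2 A u r hh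
      obtain ⟨l, hl⟩ := hno X hX1 hX2
      exact hl (hX3 l)
    push Not at h1
    obtain ⟨L, c, e, hL, hne⟩ := h1
    let ℓ : Matrix (Fin 2) (Fin 2) C →ₗ[C] C :=
      { toFun := fun A => ∑ a, ∑ b, L a b * A a b
        map_add' := fun A B => by simp [mul_add, Finset.sum_add_distrib]
        map_smul' := fun t A => by
          simp only [Matrix.smul_apply, smul_eq_mul, RingHom.id_apply, Finset.mul_sum]
          exact Finset.sum_congr rfl fun a _ => Finset.sum_congr rfl fun b _ => by ring }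
    have hN : NN Θ v θ ℓ c e := fun A u r hG => hL A u r hG
    have hc0 : c = 0 := hc ℓ c e hN
    -- the matrix part kills everything
    have hL0 : ∀ B : Matrix (Fin 2) (Fin 2) C, B.trace = 0 → ℓ B = 0 := by
      obtain ⟨uH, rH, hH⟩ := hsj !![1, 0; 0, -1] (by simp [Matrix.trace_fin_two])
      obtain ⟨uE, rE, hE⟩ := hsj !![0, 1; 0, 0] (by simp [Matrix.trace_fin_two])
      obtain ⟨uF, rF, hF⟩ := hsj !![0, 0; 1, 0] (by simp [Matrix.trace_fin_two])
      have k1 := hN _ _ _ (hbr _ _ _ _ _ _ hH hE)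
      have k2 := hN _ _ _ (hbr _ _ _ _ _ _ hH hF)
      have k3 := hN _ _ _ (hbr _ _ _ _ _ _ hE hF)
      rw [hc0] at k1 k2 k3
      have e1 : (!![1, 0; 0, -1] * !![0, 1; 0, 0] - !![0, 1; 0, 0] * !![1, 0; 0, -1] :
          Matrix (Fin 2) (Fin 2) C) = (2 : C) • !![0, 1; 0, 0] := by
        ext i j; fin_cases i <;> fin_cases j <;> simp <;> norm_num
      have e2 : (!![1, 0; 0, -1] * !![0, 0; 1, 0] - !![0, 0; 1, 0] * !![1, 0; 0, -1] :
          Matrix (Fin 2) (Fin 2) C) = (-2 : C) • !![0, 0; 1, 0] := by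
        ext i j; fin_cases i <;> fin_cases j <;> simp <;> norm_num
      have e3 : (!![0, 1; 0, 0] * !![0, 0; 1, 0] - !![0, 0; 1, 0] * !![0, 1; 0, 0] :
          Matrix (Fin 2) (Fin 2) C) = !![1, 0; 0, -1] := by
        ext i j; fin_cases i <;> fin_cases j <;> simp
      rw [e1] at k1
      rw [e2] at k2
      rw [e3] at k3
      simp only [map_smul, smul_eq_mul, Pi.zero_apply, zero_dotProduct, Finset.sum_const_zero,
        mul_zero, add_zero] at k1 k2 k3
      have two : (2 : C) ≠ 0 := two_ne_zero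
      have k1' := (mul_eq_zero.1 k1).resolve_left two
      have k2' := (mul_eq_zero.1 k2).resolve_left (neg_ne_zero.2 two)
      intro B hB
      rw [Matrix.trace_fin_two] at hB
      have hdec : B = B 0 0 • !![1, 0; 0, -1] + B 0 1 • !![0, 1; 0, 0]
          + B 1 0 • !![0, 0; 1, 0] := by
        ext i j
        fin_cases i <;> fin_cases j <;> simp
        linear_combination hB
      rw [hdec]
      simp only [map_add, map_smul, smul_eq_mul, k1', k2', k3, mul_zero, add_zero]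
    have he : ∀ A u r, GG Θ v θ A u r → ∑ l, e l * r l = 0 := by
      intro A u r hG
      have k := hN A u r hG
      rw [hL0 A (htG A u r hG), hc0] at k
      simpa using k
    have he3 := hF3 0 0 e (by
      intro A u r hG
      have := he A u r hG
      simpa using this)
    refine ⟨e, ?_, fun X => by simpa using he3 X⟩
    intro he0
    obtain ⟨X, hX⟩ := hsurj A hA
    have hL3 := hF3 L 0 0 (by
      intro A u r hG
      have := hL0 A (htG A u r hG)
      have h2 : ∑ a, ∑ b, L a b * A a b = 0 := this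
      rw [h2]
      simp) X
    apply hne
    rw [hc0, he0]
    rw [hX] at hL3
    simpa using hL3

end Lie

end Pool.Agent.ED

end

section

/-!
A relation between logarithmic derivatives with coefficients linearly independent over the
rationals and an exact derivative is trivial.
-/

namespace Pool.Agent.ED

open MvPolynomial

section Res

variable {C M σ : Type*} [Field C] [CharZero C] [Field M] [Algebra C M]

/-- The local ring of the divisor given by the vanishing of one of the variables. -/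
def OO (C : Type*) {M σ : Type*} [Field C] [Field M] [Algebra C M] (v : σ → M) (i0 : σ) :
    Set M :=
  {f | ∃ a b : MvPolynomial σ C, ¬ X i0 ∣ b ∧ f = aeval v a / aeval v b}

theorem aeval_ne {v : σ → M} (hv : AlgebraicIndependent C v) {b : MvPolynomial σ C} (hb : b ≠ 0) :
    aeval v b ≠ 0 := by
  intro h
  exact hb (hv.eq_zero_of_aeval_eq_zero b h)

theorem OO_poly (v : σ → M) (i0 : σ) (a : MvPolynomial σ C) : aeval v a ∈ OO C v i0 :=
  ⟨a, 1, (X_prime (R := C)).not_dvd_one, by simp⟩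

theorem OO_alg (v : σ → M) (i0 : σ) (c : C) : algebraMap C M c ∈ OO C v i0 := by
  have := OO_poly v i0 (MvPolynomial.C c : MvPolynomial σ C)
  simpa using this

theorem OO_var (v : σ → M) (i0 : σ) : v i0 ∈ OO C v i0 := by
  have := OO_poly v i0 (X i0 : MvPolynomial σ C)
  simpa using this

theorem OO_mul {v : σ → M} {i0 : σ} {f g : M} (hf : f ∈ OO C v i0) (hg : g ∈ OO C v i0) :
    f * g ∈ OO C v i0 := by
  obtain ⟨a, b, hb, rfl⟩ := hf
  obtain ⟨c, d, hd, rfl⟩ := hg
  refine ⟨a * c, b * d, fun h => ((X_prime (R := C)).dvd_or_dvd h).elim hb hd, ?_⟩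
  rw [map_mul, map_mul, div_mul_div_comm]

theorem OO_add {v : σ → M} (hv : AlgebraicIndependent C v) {i0 : σ} {f g : M}
    (hf : f ∈ OO C v i0) (hg : g ∈ OO C v i0) : f + g ∈ OO C v i0 := by
  obtain ⟨a, b, hb, rfl⟩ := hf
  obtain ⟨c, d, hd, rfl⟩ := hg
  refine ⟨a * d + b * c, b * d, fun h => ((X_prime (R := C)).dvd_or_dvd h).elim hb hd, ?_⟩
  have hb0 : b ≠ 0 := by rintro rfl; exact hb (dvd_zero _)
  have hd0 : d ≠ 0 := by rintro rfl; exact hd (dvd_zero _)
  rw [map_add, map_mul, map_mul, map_mul, div_add_div _ _ (aeval_ne hv hb0) (aeval_ne hv hd0)]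

theorem OO_neg {v : σ → M} {i0 : σ} {f : M} (hf : f ∈ OO C v i0) : -f ∈ OO C v i0 := by
  obtain ⟨a, b, hb, rfl⟩ := hf
  exact ⟨-a, b, hb, by rw [map_neg, neg_div]⟩

theorem OO_sub {v : σ → M} (hv : AlgebraicIndependent C v) {i0 : σ} {f g : M}
    (hf : f ∈ OO C v i0) (hg : g ∈ OO C v i0) : f - g ∈ OO C v i0 := by
  rw [sub_eq_add_neg]
  exact OO_add hv hf (OO_neg hg)

theorem OO_sum {v : σ → M} (hv : AlgebraicIndependent C v) {i0 : σ} {κ : Type*} (s : Finset κ)
    (f : κ → M) (hf : ∀ k ∈ s, f k ∈ OO C v i0) : ∑ k ∈ s, f k ∈ OO C v i0 := by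
  classical
  induction s using Finset.induction_on with
  | empty =>
    have := OO_alg (C := C) v i0 0
    simpa using this
  | insert k s hk ih =>
    rw [Finset.sum_insert hk]
    exact OO_add hv (hf k (Finset.mem_insert_self k s))
      (ih fun j hj => hf j (Finset.mem_insert_of_mem hj))

theorem OO_pow {v : σ → M} {i0 : σ} {f : M} (hf : f ∈ OO C v i0) (n : ℕ) :
    f ^ n ∈ OO C v i0 := by
  induction n with
  | zero =>
    have := OO_alg (C := C) v i0 1
    simpa using this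
  | succ n ih => rw [pow_succ]; exact OO_mul ih hf

theorem der_aeval {v : σ → M} {i0 : σ} {X0 : Derivation C M M} (hX : X0 (v i0) = 1)
    (hX' : ∀ j, j ≠ i0 → X0 (v j) = 0) (p : MvPolynomial σ C) :
    X0 (aeval v p) = aeval v (pderiv i0 p) := by
  induction p using MvPolynomial.induction_on with
  | C a => simp
  | add p q hp hq => rw [map_add, map_add, hp, hq, map_add, map_add]
  | mul_X p j hp =>
    rw [map_mul, Derivation.leibniz, hp, pderiv_mul, map_add, map_mul, map_mul, aeval_X]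
    by_cases hj : j = i0
    · subst hj
      rw [hX, pderiv_X_self, map_one]
      simp only [smul_eq_mul]
      ring
    · rw [hX' j hj, pderiv_X_of_ne hj, map_zero]
      simp only [smul_eq_mul]
      ring

theorem OO_der {v : σ → M} {i0 : σ} {X0 : Derivation C M M} (hX : X0 (v i0) = 1)
    (hX' : ∀ j, j ≠ i0 → X0 (v j) = 0) {f : M} (hf : f ∈ OO C v i0) : X0 f ∈ OO C v i0 := by
  obtain ⟨a, b, hb, rfl⟩ := hf
  refine ⟨b * pderiv i0 a - a * pderiv i0 b, b * b,
    fun h => ((X_prime (R := C)).dvd_or_dvd h).elim hb hb, ?_⟩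
  rw [Derivation.leibniz_div, der_aeval hX hX', der_aeval hX hX', map_sub, map_mul, map_mul,
    map_mul]
  simp only [smul_eq_mul]
  rw [inv_pow, div_eq_inv_mul, sq]

theorem inv_var_notMem {v : σ → M} (hv : AlgebraicIndependent C v) (i0 : σ) :
    (v i0)⁻¹ ∉ OO C v i0 := by
  rintro ⟨a, b, hb, h⟩
  have hb0 : b ≠ 0 := by rintro rfl; exact hb (dvd_zero _)
  have hv0 : v i0 ≠ 0 := hv.ne_zero i0
  have h1 : aeval v b = aeval v (X i0 * a) := by
    rw [map_mul, aeval_X]
    have h2 := aeval_ne hv hb0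
    field_simp at h
    rw [h]
  have h2 : b = X i0 * a := by
    have h3 : aeval v (b - X i0 * a) = 0 := by rw [map_sub, h1, sub_self]
    exact sub_eq_zero.1 (hv.eq_zero_of_aeval_eq_zero _ h3)
  exact hb ⟨a, h2⟩

/-- Order decomposition. -/
theorem exists_ord {v : σ → M} (hv : AlgebraicIndependent C v) (i0 : σ) {N : M} (hN : N ≠ 0)
    (hNF : N ∈ IntermediateField.adjoin C (Set.range v)) :
    ∃ (m : ℤ) (u : M), N = (v i0) ^ m * u ∧ u ≠ 0 ∧ u ∈ OO C v i0 ∧ u⁻¹ ∈ OO C v i0 := by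
  classical
  obtain ⟨r, s, rfl⟩ := (IntermediateField.mem_adjoin_range_iff C v N).1 hNF
  have hr : r ≠ 0 := by rintro rfl; simp at hN
  have hs : s ≠ 0 := by rintro rfl; simp at hN
  have hirr : Irreducible (X i0 : MvPolynomial σ C) := (X_prime (R := C)).irreducible
  obtain ⟨i, a, ha, rfl⟩ := WfDvdMonoid.max_power_factor hr hirr
  obtain ⟨j, b, hb, rfl⟩ := WfDvdMonoid.max_power_factor hs hirr
  have ha0 : a ≠ 0 := by rintro rfl; exact ha (dvd_zero _)
  have hb0 : b ≠ 0 := by rintro rfl; exact hb (dvd_zero _)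
  have hv0 : v i0 ≠ 0 := hv.ne_zero i0
  have ha1 := aeval_ne hv ha0
  have hb1 := aeval_ne hv hb0
  refine ⟨(i : ℤ) - j, aeval v a / aeval v b, ?_, div_ne_zero ha1 hb1, ⟨a, b, hb, rfl⟩,
    ⟨b, a, ha, by rw [inv_div]⟩⟩
  rw [map_mul, map_mul, map_pow, map_pow, aeval_X, zpow_sub₀ hv0, zpow_natCast, zpow_natCast,
    div_mul_div_comm]

theorem der_zpow_mul {v : σ → M} (hv0 : ∀ i0, v i0 ≠ 0) {i0 : σ} {X0 : Derivation C M M}
    (hX : X0 (v i0) = 1) (m : ℤ) (u : M) :
    X0 (v i0 ^ m * u) = v i0 ^ (m - 1) * (m * u + v i0 * X0 u) := by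
  rw [Derivation.leibniz, Derivation.leibniz_zpow, hX, zpow_sub_one₀ (hv0 i0)]
  simp only [smul_eq_mul, zsmul_eq_mul, mul_one]
  have := hv0 i0
  field_simp
  ring

/-- The residue argument. -/
theorem residue_core {v : σ → M} (hv : AlgebraicIndependent C v) {i0 : σ}
    {X0 : Derivation C M M} (hX : X0 (v i0) = 1) (hX' : ∀ j, j ≠ i0 → X0 (v j) = 0) {h : ℕ}
    (ε : Fin h → C) (N : Fin h → M) (hN : ∀ k, N k ≠ 0)
    (hNF : ∀ k, N k ∈ IntermediateField.adjoin C (Set.range v)) (τ : M)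
    (hτ : τ ∈ IntermediateField.adjoin C (Set.range v))
    (H : ∑ k, algebraMap C M (ε k) * (X0 (N k) / N k) = X0 τ) :
    ∃ m : Fin h → ℤ, (∀ k, ∃ u : M, N k = (v i0) ^ (m k) * u ∧ u ≠ 0 ∧ u ∈ OO C v i0 ∧
      u⁻¹ ∈ OO C v i0) ∧ ∑ k, ε k * m k = 0 := by
  classical
  have hv0 : ∀ i, v i ≠ 0 := fun i => hv.ne_zero i
  choose m u hm hu0 hu hui using fun k => exists_ord hv i0 (hN k) (hNF k)
  refine ⟨m, fun k => ⟨u k, hm k, hu0 k, hu k, hui k⟩, ?_⟩
  set c : C := ∑ k, ε k * m k with hc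
  set x : M := v i0 with hx
  have hx0 : x ≠ 0 := hv0 i0
  set w : M := ∑ k, algebraMap C M (ε k) * (X0 (u k) * (u k)⁻¹) with hw
  have hwO : w ∈ OO C v i0 := by
    apply OO_sum hv
    intro k _
    exact OO_mul (OO_alg v i0 _) (OO_mul (OO_der hX hX' (hu k)) (hui k))
  have hlog : ∀ k, X0 (N k) / N k = (m k : M) * x⁻¹ + X0 (u k) * (u k)⁻¹ := by
    intro k
    rw [hm k, der_zpow_mul hv0 hX, zpow_sub_one₀ hx0, ← hx]
    have h1 : x ^ m k ≠ 0 := zpow_ne_zero _ hx0
    have h2 := hu0 k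
    field_simp
  have hsum : X0 τ = algebraMap C M c * x⁻¹ + w := by
    rw [← H, hw, hc, map_sum, Finset.sum_mul, ← Finset.sum_add_distrib]
    refine Finset.sum_congr rfl fun k _ => ?_
    rw [hlog k, map_mul, map_intCast]
    ring
  -- if the derivative is regular then c = 0
  have hreg : X0 τ ∈ OO C v i0 → c = 0 := by
    intro h1
    by_contra hc0
    have h2 : algebraMap C M c * x⁻¹ ∈ OO C v i0 := by
      have h3 : algebraMap C M c * x⁻¹ = X0 τ - w := by rw [hsum]; ring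
      rw [h3]; exact OO_sub hv h1 hwO
    have h3 : x⁻¹ ∈ OO C v i0 := by
      have h4 : x⁻¹ = algebraMap C M c⁻¹ * (algebraMap C M c * x⁻¹) := by
        rw [← mul_assoc, ← map_mul, inv_mul_cancel₀ hc0, map_one, one_mul]
      rw [h4]; exact OO_mul (OO_alg v i0 _) h2
    exact inv_var_notMem hv i0 h3
  by_cases hτ0 : τ = 0
  · apply hreg
    rw [hτ0, map_zero]
    have := OO_alg (C := C) v i0 0
    simpa using this
  obtain ⟨n, t, hnt, ht0, ht, hti⟩ := exists_ord hv i0 hτ0 hτ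
  by_cases hn : 0 ≤ n
  · apply hreg
    apply OO_der hX hX'
    obtain ⟨n', rfl⟩ := Int.eq_ofNat_of_zero_le hn
    rw [hnt, zpow_natCast]
    exact OO_mul (OO_pow (OO_var v i0) n') ht
  · exfalso
    push Not at hn
    obtain ⟨j, hj⟩ : ∃ j : ℕ, n = -((j : ℤ) + 1) := ⟨(-n - 1).toNat, by omega⟩
    have h1 := hsum
    rw [hnt, der_zpow_mul hv0 hX, ← hx] at h1
    -- n t = x^{j+1} (c + x w) - x X0 t
    have h2 : (n : M) * t = x ^ (j + 1) * (algebraMap C M c + x * w) - x * X0 t := by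
      have h3 : x ^ (n - 1) = x⁻¹ * (x ^ (j + 1))⁻¹ := by
        rw [hj, zpow_sub_one₀ hx0, zpow_neg, mul_comm]
        congr 2
        exact_mod_cast rfl
      rw [h3] at h1
      have h4 : x ^ (j + 1) ≠ 0 := pow_ne_zero _ hx0
      have h5 : (n : M) * t + x * X0 t = x ^ (j + 1) * (algebraMap C M c + x * w) := by
        have h6 : x * (x ^ (j + 1)) * (x⁻¹ * (x ^ (j + 1))⁻¹ * ((n : M) * t + x * X0 t))
            = x * (x ^ (j + 1)) * (algebraMap C M c * x⁻¹ + w) := by rw [h1]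
        have h7 : x * (x ^ (j + 1)) * (x⁻¹ * (x ^ (j + 1))⁻¹ * ((n : M) * t + x * X0 t))
            = (n : M) * t + x * X0 t := by field_simp
        have h8 : x * (x ^ (j + 1)) * (algebraMap C M c * x⁻¹ + w)
            = x ^ (j + 1) * (algebraMap C M c + x * w) := by field_simp
        rw [h7, h8] at h6
        exact h6
      rw [← h5]; ring
    have hn0 : (n : C) ≠ 0 := by
      rw [Ne, Int.cast_eq_zero]; omega
    have hn0' : (n : M) ≠ 0 := by
      have : (n : M) = algebraMap C M (n : C) := by simp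
      rw [this]
      exact (map_ne_zero _).2 hn0
    -- hence x⁻¹ = n⁻¹ t⁻¹ (x^j (c + x w) - X0 t) is regular
    have h3 : x⁻¹ = algebraMap C M ((n : C)⁻¹) * (t⁻¹ * (x ^ j * (algebraMap C M c + x * w)
        - X0 t)) := by
      have h4 : (n : M) * t * x⁻¹ = x ^ j * (algebraMap C M c + x * w) - X0 t := by
        rw [h2, pow_succ]
        field_simp
      rw [← h4, map_inv₀, map_intCast]
      field_simp
    apply inv_var_notMem hv i0 (C := C)
    change x⁻¹ ∈ _
    rw [h3]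
    refine OO_mul (OO_alg v i0 _) (OO_mul hti (OO_sub hv (OO_mul (OO_pow (OO_var v i0) j)
      (OO_add hv (OO_alg v i0 _) (OO_mul (OO_var v i0) hwO))) (OO_der hX hX' ht)))

theorem ord_unique {v : σ → M} (hv : AlgebraicIndependent C v) {i0 : σ} {m n : ℤ} {u : M}
    (h : v i0 ^ n = v i0 ^ m * u) (hu : u ∈ OO C v i0) (hui : u⁻¹ ∈ OO C v i0) : m = n := by
  have hx0 : v i0 ≠ 0 := hv.ne_zero i0
  have hu' : u = v i0 ^ (n - m) := by
    rw [zpow_sub₀ hx0, h]
    have := zpow_ne_zero m hx0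
    field_simp
  have key : ∀ k : ℤ, 0 < k → v i0 ^ (-k) ∉ OO C v i0 := by
    intro k hk hmem
    obtain ⟨j, rfl⟩ : ∃ j : ℕ, k = (j : ℤ) + 1 := ⟨(k - 1).toNat, by omega⟩
    apply inv_var_notMem hv i0 (C := C)
    have h1 : (v i0)⁻¹ = v i0 ^ j * v i0 ^ (-((j : ℤ) + 1)) := by
      rw [← zpow_natCast, ← zpow_add₀ hx0, ← zpow_neg_one]
      congr 1
      ring
    rw [h1]
    exact OO_mul (OO_pow (OO_var v i0) j) hmem
  rcases lt_trichotomy m n with hlt | heq | hgt
  · exfalso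
    apply key (n - m) (by omega)
    rw [zpow_neg, ← hu']; exact hui
  · exact heq
  · exfalso
    apply key (m - n) (by omega)
    rw [neg_sub, ← hu']; exact hu

end Res

section Main

variable {C M : Type*} [Field C] [CharZero C] [Field M] [Algebra C M]

/-- The relation for embeddings of a finite extension, from the relation for all derivations. -/
theorem rel_embedding [IsAlgClosed M] (F : IntermediateField C M) [Algebra.IsAlgebraic F M]
    (L : IntermediateField F M) {h : ℕ} (ε : Fin h → C)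
    (g : Fin h → L) (T : L)
    (H : ∀ X : Derivation C M M,
      ∑ k, algebraMap C M (ε k) * (X (g k : M) / (g k : M)) = X (T : M))
    (σ : L →ₐ[F] M) (X : Derivation C M M) :
    ∑ k, algebraMap C M (ε k) * (X (σ (g k)) / σ (g k)) = X (σ T) := by
  have hnorm : Normal F M := by
    have : IsAlgClosure F M := ⟨inferInstance, inferInstance⟩
    exact IsAlgClosure.normal F M
  let s0 : M →ₐ[F] M := σ.liftNormal M
  have hs0 : ∀ x : L, s0 (x : M) = σ x := by
    intro x
    have := σ.liftNormal_commutes M x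
    simpa using this
  let s : M ≃ₐ[F] M := AlgEquiv.ofBijective s0 (Algebra.IsAlgebraic.algHom_bijective s0)
  have hs : ∀ x : L, s (x : M) = σ x := hs0
  have hsC : ∀ c : C, s (algebraMap C M c) = algebraMap C M c := by
    intro c
    have : algebraMap C M c = algebraMap F M (algebraMap C F c) := rfl
    rw [this]
    exact s.commutes _
  have hsC' : ∀ c : C, s.symm (algebraMap C M c) = algebraMap C M c := by
    intro c
    rw [AlgEquiv.symm_apply_eq, hsC]
  let X' : Derivation C M M := Derivation.mk'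
    ({ toFun := fun a => s.symm (X (s a))
       map_add' := fun a b => by simp
       map_smul' := fun c a => by
        rw [Algebra.smul_def, map_mul, hsC, Derivation.leibniz, Derivation.map_algebraMap,
          smul_zero, add_zero, smul_eq_mul, map_mul, hsC', RingHom.id_apply, Algebra.smul_def] } :
      M →ₗ[C] M) (fun a b => by
        change s.symm (X (s (a * b))) = a • s.symm (X (s b)) + b • s.symm (X (s a))
        rw [map_mul, Derivation.leibniz]
        simp)
  have hX' : ∀ a, X' a = s.symm (X (s a)) := fun a => rfl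
  have h1 := H X'
  have h2 := congrArg s h1
  rw [map_sum] at h2
  simp only [map_mul, map_div₀, hX', AlgEquiv.apply_symm_apply, hsC, hs] at h2
  exact h2

theorem der_prod {κ : Type*} (s : Finset κ) (y : κ → M) (hy : ∀ i, y i ≠ 0)
    (X : Derivation C M M) :
    ∑ i ∈ s, X (y i) / y i = X (∏ i ∈ s, y i) / ∏ i ∈ s, y i := by
  classical
  induction s using Finset.induction_on with
  | empty => simp
  | insert i s hi ih =>
    rw [Finset.sum_insert hi, Finset.prod_insert hi, ih, Derivation.leibniz]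
    have h1 := hy i
    have h2 : ∏ j ∈ s, y j ≠ 0 := Finset.prod_ne_zero_iff.2 fun j _ => hy j
    simp only [smul_eq_mul]
    field_simp
    ring

theorem mem_range_of_algebraic [IsAlgClosed C] {x : M} (hx : IsAlgebraic C x) :
    x ∈ Set.range (algebraMap C M) := by
  have hint := hx.isIntegral
  have hdeg := IsAlgClosed.degree_eq_one_of_irreducible C (minpoly.irreducible hint)
  exact minpoly.mem_range_of_degree_eq_one C x hdeg

/-- The torus lemma over an algebraically closed big field. -/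
theorem tor_res_closed [IsAlgClosed C] [IsAlgClosed M] {h : ℕ} (ε : Fin h → C)
    (hε : LinearIndependent ℚ ε) (g : Fin h → M) (hg : ∀ k, g k ≠ 0) (T : M)
    (H : ∀ X : Derivation C M M, ∑ k, algebraMap C M (ε k) * (X (g k) / g k) = X T) :
    ∀ k, g k ∈ Set.range (algebraMap C M) := by
  classical
  intro k0
  by_contra hk0
  have htr : Transcendental C (g k0) := fun hal => hk0 (mem_range_of_algebraic hal)
  have hsing : AlgebraicIndepOn C id ({g k0} : Set M) := by
    have h1 : AlgebraicIndependent C (fun i : ({g k0} : Set M) => (i : M)) := by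
      rw [algebraicIndependent_unique_type_iff]
      exact htr
    exact h1
  obtain ⟨s, hs, hbas⟩ := exists_isTranscendenceBasis_superset hsing
  let v : s → M := Subtype.val
  have hv : AlgebraicIndependent C v := hbas.1
  let i0 : s := ⟨g k0, hs rfl⟩
  have hvi0 : v i0 = g k0 := rfl
  obtain ⟨X0, hX0⟩ := exists_derivation_basis hbas (fun i => if i = i0 then 1 else 0)
  have hX1 : X0 (v i0) = 1 := by
    have := hX0 i0
    simpa using this
  have hX2 : ∀ j, j ≠ i0 → X0 (v j) = 0 := by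
    intro j hj
    have := hX0 j
    rw [if_neg hj] at this
    exact this
  let F : IntermediateField C M := IntermediateField.adjoin C (Set.range v)
  have halg : Algebra.IsAlgebraic F M := hbas.isAlgebraic_field
  let S : Set M := Set.range g ∪ {T}
  have hSfin : S.Finite := (Set.finite_range g).union (Set.finite_singleton T)
  let L : IntermediateField F M := IntermediateField.adjoin F S
  have hfd : FiniteDimensional F L := by
    have : Finite S := hSfin
    exact IntermediateField.finiteDimensional_adjoin fun x _ =>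
      (halg.isAlgebraic x).isIntegral
  have hgL : ∀ k, g k ∈ L := fun k => IntermediateField.subset_adjoin F S (Or.inl ⟨k, rfl⟩)
  have hTL : T ∈ L := IntermediateField.subset_adjoin F S (Or.inr rfl)
  let g' : Fin h → L := fun k => ⟨g k, hgL k⟩
  let T' : L := ⟨T, hTL⟩
  have hg' : ∀ k, g' k ≠ 0 := fun k hk => hg k (congrArg Subtype.val hk)
  have hrel : ∀ σ : L →ₐ[F] M, ∑ k, algebraMap C M (ε k) * (X0 (σ (g' k)) / σ (g' k))
      = X0 (σ T') := fun σ => rel_embedding F L ε g' T' H σ X0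
  have hsum : ∑ k, algebraMap C M (ε k) * (X0 (∏ σ : L →ₐ[F] M, σ (g' k))
      / ∏ σ : L →ₐ[F] M, σ (g' k)) = X0 (∑ σ : L →ₐ[F] M, σ T') := by
    rw [map_sum, ← Finset.sum_congr rfl fun σ _ => hrel σ, Finset.sum_comm]
    refine Finset.sum_congr rfl fun k _ => ?_
    rw [← Finset.mul_sum, der_prod Finset.univ (fun σ : L →ₐ[F] M => σ (g' k))
      (fun σ => (map_ne_zero σ).2 (hg' k)) X0]
  have hNF : ∀ k, (∏ σ : L →ₐ[F] M, σ (g' k)) ∈ IntermediateField.adjoin C (Set.range v) := by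
    intro k
    rw [← Algebra.norm_eq_prod_embeddings F M (g' k)]
    exact (Algebra.norm F (g' k)).2
  have hτF : (∑ σ : L →ₐ[F] M, σ T') ∈ IntermediateField.adjoin C (Set.range v) := by
    rw [← trace_eq_sum_embeddings (K := F) M (x := T')]
    exact (Algebra.trace F L T').2
  obtain ⟨m, hm, hm0⟩ := residue_core hv hX1 hX2 ε _
    (fun k => Finset.prod_ne_zero_iff.2 fun σ _ => (map_ne_zero σ).2 (hg' k)) hNF _ hτF hsum
  -- the order of the norm of the zeroth function
  have hN0 : (∏ σ : L →ₐ[F] M, σ (g' k0)) = v i0 ^ ((Fintype.card (L →ₐ[F] M) : ℕ) : ℤ) := by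
    have h1 : ∀ σ : L →ₐ[F] M, σ (g' k0) = v i0 := by
      intro σ
      have hmem : g k0 ∈ F := IntermediateField.subset_adjoin C (Set.range v) ⟨i0, rfl⟩
      have h2 : g' k0 = algebraMap F L ⟨g k0, hmem⟩ := by
        apply Subtype.ext; rfl
      rw [h2, σ.commutes]; rfl
    rw [Finset.prod_congr rfl fun σ _ => h1 σ, Finset.prod_const, zpow_natCast]
    rfl
  obtain ⟨u, hu1, _, hu2, hu3⟩ := hm k0
  have hmk0 := ord_unique hv (hN0.symm.trans hu1) hu2 hu3
  have hne : Nonempty (L →ₐ[F] M) := ⟨L.val⟩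
  have hpos : 0 < Fintype.card (L →ₐ[F] M) := Fintype.card_pos
  have hlin := Fintype.linearIndependent_iff.1 hε (fun k => (m k : ℚ)) (by
    rw [← hm0]
    refine Finset.sum_congr rfl fun k _ => ?_
    rw [Rat.smul_def, Rat.cast_intCast, mul_comm]) k0
  have : m k0 = 0 := by exact_mod_cast hlin
  omega

/-- **A6.** -/
theorem tor_res {C M : Type*} [Field C] [CharZero C] [IsAlgClosed C] [Field M] [Algebra C M]
    {h : ℕ} (ε : Fin h → C) (hε : LinearIndependent ℚ ε) (g : Fin h → M) (hg : ∀ k, g k ≠ 0)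
    (T : M)
    (H : ∀ X : Derivation C M M, ∑ k, algebraMap C M (ε k) * (X (g k) / g k) = X T) :
    ∀ k, g k ∈ Set.range (algebraMap C M) := by
  let Mb := AlgebraicClosure M
  let ι : M →+* Mb := algebraMap M Mb
  have hH : ∀ X : Derivation C Mb Mb,
      ∑ k, algebraMap C Mb (ε k) * (X (ι (g k)) / ι (g k)) = X (ι T) := by
    intro X
    rw [← sub_eq_zero, ← Module.forall_dual_apply_eq_zero_iff M]
    intro φ
    have h1 := H (φ.compDer (X.compAlgebraMap M))
    have h2 : ∀ y : M, (φ.compDer (X.compAlgebraMap M)) y = φ (X (ι y)) := fun y => rfl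
    rw [map_sub, map_sum, ← h2, ← h1, sub_eq_zero]
    refine Finset.sum_congr rfl fun k _ => ?_
    have h3 : algebraMap C Mb (ε k) * (X (ι (g k)) / ι (g k))
        = (algebraMap C M (ε k) * (g k)⁻¹) • X (ι (g k)) := by
      rw [Algebra.smul_def, map_mul, map_inv₀, IsScalarTower.algebraMap_apply C M Mb]
      rw [div_eq_mul_inv]; ring
    rw [h3, map_smul, h2, smul_eq_mul]
    rw [div_eq_mul_inv]; ring
  have hfin := tor_res_closed ε hε (fun k => ι (g k)) (fun k => (map_ne_zero ι).2 (hg k)) (ι T) hH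
  intro k
  obtain ⟨c, hc⟩ := hfin k
  refine ⟨c, ?_⟩
  apply ι.injective
  change ι (algebraMap C M c) = ι (g k)
  rw [← hc]
  exact (IsScalarTower.algebraMap_apply C M Mb c).symm

end Main

end Pool.Agent.ED

end

section

/-!
# The linear maps entering the Lie algebra dichotomy
-/

set_option autoImplicit false

namespace Pool.Agent.Work.MP_8da9ea_nt

open Matrix

variable {C M : Type*} [Field C] [Field M] [Algebra C M]

/-- fundamental matrix of periods and quasi-periods -/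
def P0 (κ τ e : M) : Matrix (Fin 2) (Fin 2) M := !![1, τ; e, τ * e - κ]

/-- its inverse -/
def P1 (κ τ e : M) : Matrix (Fin 2) (Fin 2) M := !![(κ - τ * e) / κ, τ / κ; e / κ, -1 / κ]

variable {κ τ e g2 g3 : M}

lemma P0_mul_P1 (hκ : κ ≠ 0) : P0 κ τ e * P1 κ τ e = 1 := by
  ext i j
  fin_cases i <;> fin_cases j <;>
    simp [P0, P1, Matrix.mul_apply, Fin.sum_univ_two] <;> field_simp <;> ring

lemma P1_mul_P0 (hκ : κ ≠ 0) : P1 κ τ e * P0 κ τ e = 1 := by
  ext i j
  fin_cases i <;> fin_cases j <;>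
    simp [P0, P1, Matrix.mul_apply, Fin.sum_univ_two] <;> field_simp <;> ring

lemma cA_add (X Y : Derivation C M M) : cA g2 g3 (X + Y) = cA g2 g3 X + cA g2 g3 Y := by
  simp only [cA, Derivation.add_apply, ← add_div]
  ring

lemma cA_smul (m : M) (X : Derivation C M M) : cA g2 g3 (m • X) = m * cA g2 g3 X := by
  simp only [cA, Derivation.smul_apply, smul_eq_mul, ← mul_div_assoc]
  ring

lemma cB_add (X Y : Derivation C M M) : cB g2 g3 (X + Y) = cB g2 g3 X + cB g2 g3 Y := by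
  simp only [cB, Derivation.add_apply, ← add_div]
  ring

lemma cB_smul (m : M) (X : Derivation C M M) : cB g2 g3 (m • X) = m * cB g2 g3 X := by
  simp only [cB, Derivation.smul_apply, smul_eq_mul, ← mul_div_assoc]
  ring

lemma cb1_add (x y : M) (X Y : Derivation C M M) :
    cb1 g2 g3 x y (X + Y) = cb1 g2 g3 x y X + cb1 g2 g3 x y Y := by
  simp only [cb1, cA_add, cB_add, Derivation.add_apply, ← add_div]
  ring

lemma cb1_smul (x y m : M) (X : Derivation C M M) :
    cb1 g2 g3 x y (m • X) = m * cb1 g2 g3 x y X := by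
  simp only [cb1, cA_smul, cB_smul, Derivation.smul_apply, smul_eq_mul, ← mul_div_assoc]
  ring

lemma cb2_add (x y : M) (X Y : Derivation C M M) :
    cb2 g2 g3 x y (X + Y) = cb2 g2 g3 x y X + cb2 g2 g3 x y Y := by
  simp only [cb2, cb1_add, cB_add]
  ring

lemma cb2_smul (x y m : M) (X : Derivation C M M) :
    cb2 g2 g3 x y (m • X) = m * cb2 g2 g3 x y X := by
  simp only [cb2, cb1_smul, cB_smul]
  ring

lemma cM_add (X Y : Derivation C M M) : cM g2 g3 (X + Y) = cM g2 g3 X + cM g2 g3 Y := by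
  ext i j
  fin_cases i <;> fin_cases j <;> simp [cM, cA_add, cB_add] <;> ring

lemma cM_smul (m : M) (X : Derivation C M M) : cM g2 g3 (m • X) = m • cM g2 g3 X := by
  ext i j
  fin_cases i <;> fin_cases j <;> simp [cM, cA_smul, cB_smul]
  ring

/-- the form `Θ` -/
noncomputable def ThL (C : Type*) [Field C] [Algebra C M] (κ τ e g2 g3 : M) :
    Derivation C M M →ₗ[M] Matrix (Fin 2) (Fin 2) M where
  toFun X := P1 κ τ e * ((P0 κ τ e).map X - cM g2 g3 X * P0 κ τ e)
  map_add' X Y := by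
    rw [← mul_add, cM_add, add_mul]
    congr 1
    have h : (P0 κ τ e).map (X + Y : Derivation C M M) = (P0 κ τ e).map X + (P0 κ τ e).map Y := by
      ext i j
      simp
    rw [h]
    abel
  map_smul' m X := by
    rw [RingHom.id_apply, cM_smul, ← Matrix.mul_smul]
    congr 1
    have h : (P0 κ τ e).map (m • X : Derivation C M M) = m • (P0 κ τ e).map X := by
      ext i j
      simp
    rw [h, smul_sub, Matrix.smul_mul]

/-- the inhomogeneous term as a vector -/
def bV (g2 g3 x y : M) (X : Derivation C M M) : Fin 2 → M := ![cb1 g2 g3 x y X, cb2 g2 g3 x y X]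

/-- the form `v` attached to a point -/
noncomputable def vL (C : Type*) [Field C] [Algebra C M] (κ τ e g2 g3 z x y ζ : M) :
    Derivation C M M →ₗ[M] (Fin 2 → M) where
  toFun X := P1 κ τ e *ᵥ ((fun k => X (![z, ζ] k)) - cM g2 g3 X *ᵥ ![z, ζ] - bV g2 g3 x y X)
  map_add' X Y := by
    rw [← Matrix.mulVec_add, cM_add, Matrix.add_mulVec]
    congr 1
    have h : bV g2 g3 x y (X + Y) = bV g2 g3 x y X + bV g2 g3 x y Y := by
      ext i
      fin_cases i <;> simp [bV, cb1_add, cb2_add]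
    rw [h]
    ext i
    simp only [Pi.sub_apply, Pi.add_apply, Derivation.add_apply]
    ring
  map_smul' m X := by
    rw [RingHom.id_apply, ← Matrix.mulVec_smul, cM_smul, Matrix.smul_mulVec]
    congr 1
    have h : bV g2 g3 x y (m • X) = m • bV g2 g3 x y X := by
      ext i
      fin_cases i <;> simp [bV, cb1_smul, cb2_smul]
    rw [h]
    ext i
    simp only [Pi.sub_apply, Pi.smul_apply, Derivation.smul_apply, smul_eq_mul]
    ring

/-- the form `θ` attached to an exponential -/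
noncomputable def thL (C : Type*) [Field C] [Algebra C M] (t E : M) :
    Derivation C M M →ₗ[M] M where
  toFun X := X t - X E / E
  map_add' X Y := by
    simp only [Derivation.add_apply]
    ring
  map_smul' m X := by
    simp only [Derivation.smul_apply, smul_eq_mul, RingHom.id_apply]
    ring

lemma thL_flat (t E : M) (hE : E ≠ 0) (X Y : Derivation C M M) :
    thL C t E ⁅X, Y⁆ = X (thL C t E Y) - Y (thL C t E X) := by
  have h1 : X (Y E / E) - Y (X E / E) = (X (Y E) - Y (X E)) / E := by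
    simp only [div_eq_mul_inv, Derivation.leibniz, Derivation.leibniz_inv, smul_eq_mul]
    field_simp
    ring
  have h2 : ∀ Z W : Derivation C M M, Z (thL C t E W) = Z (W t) - Z (W E / E) :=
    fun Z W => map_sub Z _ _
  have h3 : thL C t E ⁅X, Y⁆ = (X (Y t) - Y (X t)) - (X (Y E) - Y (X E)) / E := by
    simp only [thL, LinearMap.coe_mk, AddHom.coe_mk, Derivation.commutator_apply]
  rw [h3, ← h1, h2, h2]
  ring

variable [CharZero M]

lemma ThL_flat (hκ : κ ≠ 0) (hΔ : g2 ^ 3 - 27 * g3 ^ 2 ≠ 0) (X Y : Derivation C M M) :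
    ThL C κ τ e g2 g3 ⁅X, Y⁆ = (ThL C κ τ e g2 g3 Y).map X - (ThL C κ τ e g2 g3 X).map Y +
      (ThL C κ τ e g2 g3 X * ThL C κ τ e g2 g3 Y - ThL C κ τ e g2 g3 Y * ThL C κ τ e g2 g3 X) :=
  gauge_flat (cM g2 g3) (cM_flat hΔ) (P0 κ τ e) (P1 κ τ e) (P0_mul_P1 hκ) (P1_mul_P0 hκ) _
    (fun _ => rfl) X Y

lemma bV_flat {x y : M} (hΔ : g2 ^ 3 - 27 * g3 ^ 2 ≠ 0) (hy : y ≠ 0)
    (hxy : y ^ 2 = 4 * x ^ 3 - g2 * x - g3) (X Y : Derivation C M M) :
    bV g2 g3 x y ⁅X, Y⁆ = (fun k => X (bV g2 g3 x y Y k)) - (fun k => Y (bV g2 g3 x y X k)) -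
      (cM g2 g3 X *ᵥ bV g2 g3 x y Y - cM g2 g3 Y *ᵥ bV g2 g3 x y X) := by
  obtain ⟨h1, h2⟩ := cb_flat hΔ hy hxy X Y
  ext i
  fin_cases i
  · simp only [bV, cM, Matrix.cons_mulVec, Matrix.cons_dotProduct, Matrix.dotProduct_of_isEmpty,
      Matrix.empty_mulVec, Fin.zero_eta, Matrix.cons_val_zero, Pi.sub_apply, h1, Matrix.head_cons,
      Matrix.tail_cons]
    ring
  · simp only [bV, cM, Matrix.cons_mulVec, Matrix.cons_dotProduct, Matrix.dotProduct_of_isEmpty,
      Matrix.empty_mulVec, Fin.mk_one, Matrix.cons_val_one,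
      Matrix.cons_val_fin_one, Pi.sub_apply, h2, Matrix.head_cons, Matrix.tail_cons]
    ring

lemma vL_flat {z x y ζ : M} (hκ : κ ≠ 0) (hΔ : g2 ^ 3 - 27 * g3 ^ 2 ≠ 0) (hy : y ≠ 0)
    (hxy : y ^ 2 = 4 * x ^ 3 - g2 * x - g3) (X Y : Derivation C M M) :
    vL C κ τ e g2 g3 z x y ζ ⁅X, Y⁆ =
      (fun k => X (vL C κ τ e g2 g3 z x y ζ Y k)) - (fun k => Y (vL C κ τ e g2 g3 z x y ζ X k)) +
      (ThL C κ τ e g2 g3 X) *ᵥ (vL C κ τ e g2 g3 z x y ζ Y) -
      (ThL C κ τ e g2 g3 Y) *ᵥ (vL C κ τ e g2 g3 z x y ζ X) :=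
  gauge_vec (cM g2 g3) (cM_flat hΔ) (bV g2 g3 x y) (bV_flat hΔ hy hxy) (P0 κ τ e) (P1 κ τ e)
    (P0_mul_P1 hκ) (P1_mul_P0 hκ) _ (fun _ => rfl) ![z, ζ] _ (fun _ => rfl) X Y

omit [CharZero M] in
lemma ThL_apply (X : Derivation C M M) : ThL C κ τ e g2 g3 X =
    P1 κ τ e * ((P0 κ τ e).map X - cM g2 g3 X * P0 κ τ e) := rfl

omit [CharZero M] in
lemma P0_ThL (hκ : κ ≠ 0) (X : Derivation C M M) : P0 κ τ e * ThL C κ τ e g2 g3 X =
    (P0 κ τ e).map X - cM g2 g3 X * P0 κ τ e := by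
  rw [ThL_apply, ← mul_assoc, P0_mul_P1 hκ, one_mul]

omit [CharZero M] in
lemma P0_vL (hκ : κ ≠ 0) (z x y ζ : M) (X : Derivation C M M) :
    P0 κ τ e *ᵥ vL C κ τ e g2 g3 z x y ζ X =
    (fun k => X (![z, ζ] k)) - cM g2 g3 X *ᵥ ![z, ζ] - bV g2 g3 x y X := by
  change P0 κ τ e *ᵥ (P1 κ τ e *ᵥ _) = _
  rw [Matrix.mulVec_mulVec, P0_mul_P1 hκ, Matrix.one_mulVec]

lemma ThL_trace (hκ : κ ≠ 0) (X : Derivation C M M) (hX : X κ = 0) :
    (ThL C κ τ e g2 g3 X).trace = 0 := by
  have h1 : X (1 : M) = 0 := by simp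
  simp only [ThL_apply, P0, P1, cM, Matrix.trace, Matrix.diag, Matrix.mul_apply, Fin.sum_univ_two,
    Matrix.sub_apply, Matrix.map_apply, Matrix.of_apply, Matrix.cons_val', Matrix.cons_val_zero,
    Matrix.cons_val_one, Matrix.cons_val_fin_one, map_sub, Derivation.leibniz, smul_eq_mul, hX, h1]
  field_simp
  ring

end Pool.Agent.Work.MP_8da9ea_nt

end

section

/-!
# Vanishing at the distinguished derivation, surjectivity, and the torus case
-/

set_option autoImplicit false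

namespace Pool.Agent.Work.MP_8da9ea_nt

open Matrix Pool.Agent.ED

section one

variable {C M : Type*} [Field C] [Field M] [Algebra C M] [CharZero M]
variable {κ τ e g2 g3 : M}

lemma cAB_D (hκ : κ ≠ 0) (hΔ : g2 ^ 3 - 27 * g3 ^ 2 ≠ 0) (D : Derivation C M M)
    (h2 : κ * D g2 = -4 * e * g2 + 6 * g3) (h3 : κ * D g3 = -6 * e * g3 + g2 ^ 2 / 3) :
    cA g2 g3 D = e / κ ∧ cB g2 g3 D = -1 / κ := by
  have e2 := cAB2 hΔ D
  have e3 := cAB3 hΔ D
  have k2 : -4 * g2 * (κ * cA g2 g3 D - e) - 6 * g3 * (κ * cB g2 g3 D + 1) = 0 := by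
    linear_combination (-κ) * e2 + h2
  have k3 : -6 * g3 * (κ * cA g2 g3 D - e) - g2 ^ 2 / 3 * (κ * cB g2 g3 D + 1) = 0 := by
    linear_combination (-κ) * e3 + h3
  obtain ⟨l1, l2⟩ := cAB_unique hΔ k2 k3
  constructor
  · rw [eq_div_iff hκ]
    linear_combination l1
  · rw [eq_div_iff hκ]
    linear_combination l2

lemma ThL_D (hκ : κ ≠ 0) (hΔ : g2 ^ 3 - 27 * g3 ^ 2 ≠ 0) (D : Derivation C M M)
    (hDκ : D κ = 0) (hτ : D τ = 1) (he : κ * D e = -e ^ 2 + g2 / 12)
    (h2 : κ * D g2 = -4 * e * g2 + 6 * g3) (h3 : κ * D g3 = -6 * e * g3 + g2 ^ 2 / 3) :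
    ThL C κ τ e g2 g3 D = 0 := by
  obtain ⟨ha, hb⟩ := cAB_D hκ hΔ D h2 h3
  have he' : D e = (-e ^ 2 + g2 / 12) / κ := by
    rw [eq_div_iff hκ]
    linear_combination he
  have h1 : (P0 κ τ e).map D - cM g2 g3 D * P0 κ τ e = 0 := by
    have h11 : D (1 : M) = 0 := by simp
    ext i j
    fin_cases i <;> fin_cases j <;>
      simp only [P0, cM, Matrix.mul_apply, Fin.sum_univ_two,
        Matrix.sub_apply, Matrix.map_apply, Matrix.of_apply, Matrix.cons_val', Matrix.cons_val_zero,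
        Matrix.cons_val_one, Matrix.cons_val_fin_one, map_sub, Derivation.leibniz, smul_eq_mul,
        hDκ, h11, hτ, he', ha, hb, Fin.zero_eta, Fin.mk_one, Matrix.zero_apply] <;>
      field_simp <;> ring
  rw [ThL_apply, h1, mul_zero]

lemma vL_D {z x y ζ : M} (hκ : κ ≠ 0) (hΔ : g2 ^ 3 - 27 * g3 ^ 2 ≠ 0) (hy : y ≠ 0)
    (D : Derivation C M M)
    (h2 : κ * D g2 = -4 * e * g2 + 6 * g3) (h3 : κ * D g3 = -6 * e * g3 + g2 ^ 2 / 3)
    (hx : κ * (D x - y * D z) = (ζ - e * z) * y + 2 * x ^ 2 - 2 * e * x - g2 / 3)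
    (hζ : κ * (D ζ + x * D z) = -(ζ - e * z) * x - y / 2 - e * ζ + g2 * z / 12) :
    vL C κ τ e g2 g3 z x y ζ D = 0 := by
  obtain ⟨ha, hb⟩ := cAB_D hκ hΔ D h2 h3
  have hx' : D x = y * D z + ((ζ - e * z) * y + 2 * x ^ 2 - 2 * e * x - g2 / 3) / κ := by
    rw [← sub_eq_iff_eq_add', eq_div_iff hκ]
    linear_combination hx
  have hζ' : D ζ = -x * D z + (-(ζ - e * z) * x - y / 2 - e * ζ + g2 * z / 12) / κ := by
    rw [← sub_eq_iff_eq_add', eq_div_iff hκ]
    linear_combination hζ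
  have hβ : cb1 g2 g3 x y D = D z + (ζ - e * z) / κ := by
    rw [cb1, ha, hb, hx', div_eq_iff hy]
    field_simp
    ring
  have h1 : ((fun k => D (![z, ζ] k)) - cM g2 g3 D *ᵥ ![z, ζ] - bV g2 g3 x y D) = 0 := by
    ext i
    fin_cases i
    · simp only [bV, cM, Matrix.cons_mulVec, Matrix.cons_dotProduct, Matrix.dotProduct_of_isEmpty,
        Matrix.empty_mulVec, Fin.zero_eta, Matrix.cons_val_zero, Pi.sub_apply,
        Pi.zero_apply, ha, hb, hβ, Matrix.head_cons, Matrix.tail_cons]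
      field_simp
      ring
    · simp only [bV, cM, Matrix.cons_mulVec, Matrix.cons_dotProduct, Matrix.dotProduct_of_isEmpty,
        Matrix.empty_mulVec, Fin.mk_one, Matrix.cons_val_one,
        Matrix.cons_val_fin_one, Pi.sub_apply,
        Pi.zero_apply, ha, hb, hβ, cb2, hζ', Matrix.head_cons, Matrix.tail_cons]
      field_simp
      ring
  change P1 κ τ e *ᵥ _ = 0
  rw [h1, Matrix.mulVec_zero]

end one

section surj

variable {C M : Type*} [Field C] [CharZero C] [Field M] [Algebra C M]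
variable {κ τ e g2 g3 : M}

lemma ThL_surj [CharZero M] (hκ : κ ≠ 0) (hΔ : g2 ^ 3 - 27 * g3 ^ 2 ≠ 0)
    (hκC : κ ∈ Set.range (algebraMap C M))
    (hind : AlgebraicIndependent C ![τ, e, g2, g3])
    (A : Matrix (Fin 2) (Fin 2) M) (hA : A.trace = 0) :
    ∃ X : Derivation C M M, ThL C κ τ e g2 g3 X = A := by
  set a : M := -(A 0 0 + τ * A 1 0) with ha
  obtain ⟨X, hX⟩ := exists_derivation hind ![a * τ + (A 0 1 + τ * A 1 1),
    -a * e + (e * A 0 0 + (τ * e - κ) * A 1 0), -4 * g2 * a, -6 * g3 * a]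
  have hτ : X τ = a * τ + (A 0 1 + τ * A 1 1) := hX 0
  have he : X e = -a * e + (e * A 0 0 + (τ * e - κ) * A 1 0) := hX 1
  have h2 : X g2 = -4 * g2 * a := hX 2
  have h3 : X g3 = -6 * g3 * a := hX 3
  have hXκ : X κ = 0 := by
    obtain ⟨c, rfl⟩ := hκC
    exact X.map_algebraMap c
  have hab : cA g2 g3 X = a ∧ cB g2 g3 X = 0 := by
    have e2 := cAB2 hΔ X
    have e3 := cAB3 hΔ X
    have k2 : -4 * g2 * (cA g2 g3 X - a) - 6 * g3 * cB g2 g3 X = 0 := by
      linear_combination h2 - e2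
    have k3 : -6 * g3 * (cA g2 g3 X - a) - g2 ^ 2 / 3 * cB g2 g3 X = 0 := by
      linear_combination h3 - e3
    obtain ⟨l1, l2⟩ := cAB_unique hΔ k2 k3
    exact ⟨sub_eq_zero.1 l1, l2⟩
  refine ⟨X, ?_⟩
  have hA' : A 1 1 = -A 0 0 := by
    rw [Matrix.trace, Fin.sum_univ_two] at hA
    simp only [Matrix.diag] at hA
    linear_combination hA
  have h1 : (P0 κ τ e).map X - cM g2 g3 X * P0 κ τ e = P0 κ τ e * A := by
    have h11 : X (1 : M) = 0 := by simp
    ext i j
    fin_cases i <;> fin_cases j <;>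
      simp only [P0, cM, Matrix.mul_apply, Fin.sum_univ_two,
        Matrix.sub_apply, Matrix.map_apply, Matrix.of_apply, Matrix.cons_val', Matrix.cons_val_zero,
        Matrix.cons_val_one, Matrix.cons_val_fin_one, map_sub, Derivation.leibniz, smul_eq_mul,
        hXκ, h11, hτ, he, hab.1, hab.2, Fin.zero_eta, Fin.mk_one, hA', ha] <;>
      ring
  rw [ThL_apply, h1, ← mul_assoc, P1_mul_P0 hκ, one_mul]

end surj

end Pool.Agent.Work.MP_8da9ea_nt

end

section

/-!
# The algebraic form of the Ax–Schanuel theorem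
-/

set_option autoImplicit false

namespace Pool.Agent.Work.MP_8da9ea_nt

open Matrix Pool.Agent.ED

section basis

/-- finitely many elements are integral combinations of `ℚ`-independent elements -/
lemma int_basis {C κ' : Type*} [Field C] [CharZero C] [Fintype κ'] (e : κ' → C) :
    ∃ (h : ℕ) (ε : Fin h → C) (m : κ' → Fin h → ℤ), LinearIndependent ℚ ε ∧
      ∀ l, e l = ∑ k, (m l k : C) * ε k := by
  classical
  set S : Submodule ℚ C := Submodule.span ℚ (Set.range e) with hS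
  have hfd : FiniteDimensional ℚ S := FiniteDimensional.span_of_finite ℚ (Set.finite_range e)
  set b := Module.finBasis ℚ S with hb
  have hmem : ∀ l, e l ∈ S := fun l => Submodule.subset_span ⟨l, rfl⟩
  set q : κ' → Fin (Module.finrank ℚ S) → ℚ := fun l k => b.repr ⟨e l, hmem l⟩ k with hq
  set N : ℕ := ∏ l, ∏ k, (q l k).den with hN
  have hN0 : N ≠ 0 := Finset.prod_ne_zero_iff.2 fun l _ => Finset.prod_ne_zero_iff.2
    fun k _ => (q l k).den_nz
  have hdvd : ∀ l k, (q l k).den ∣ N := fun l k =>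
    (Finset.dvd_prod_of_mem (fun k => (q l k).den) (Finset.mem_univ k)).trans
      (Finset.dvd_prod_of_mem (fun l => ∏ k, (q l k).den) (Finset.mem_univ l))
  have hint : ∀ l k, ∃ m : ℤ, (m : ℚ) = N * q l k := by
    intro l k
    obtain ⟨d, hd⟩ := hdvd l k
    refine ⟨d * (q l k).num, ?_⟩
    have h1 : ((q l k).den : ℚ) * q l k = (q l k).num := Rat.den_mul_eq_num _
    rw [hd]
    push_cast
    linear_combination (-(d : ℚ)) * h1
  choose m hm using hint
  refine ⟨_, fun k => (N : ℚ)⁻¹ • (b k : C), m, ?_, ?_⟩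
  · have h1 : LinearIndependent ℚ (fun k => (b k : C)) :=
      b.linearIndependent.map' S.subtype (Submodule.ker_subtype S)
    have h2 := h1.units_smul (fun _ => Units.mk0 ((N : ℚ)⁻¹) (inv_ne_zero (by exact_mod_cast hN0)))
    exact h2
  · intro l
    have h1 := congrArg (Subtype.val) (b.sum_repr ⟨e l, hmem l⟩)
    simp only at h1
    rw [← h1]
    rw [Submodule.coe_sum]
    refine Finset.sum_congr rfl fun k _ => ?_
    rw [Submodule.coe_smul]
    have h2 : (m l k : C) = ((m l k : ℚ) : C) := by push_cast; rfl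
    have h3 : ((m l k : ℚ) : C) = (N : C) * (q l k : C) := by
      rw [hm]; push_cast; rfl
    have h4 : (N : C) ≠ 0 := by exact_mod_cast hN0
    change (q l k) • (b k : C) = _ * ((N : ℚ)⁻¹ • (b k : C))
    rw [h2, h3, Rat.smul_def, Rat.smul_def]
    push_cast
    field_simp

end basis

section torus

variable {C M : Type*} [Field C] [CharZero C] [IsAlgClosed C] [Field M] [Algebra C M]

omit [CharZero C] [IsAlgClosed C] in
lemma der_prod_zpow {κ' : Type*} (s : Finset κ') (E : κ' → M) (hE : ∀ l, E l ≠ 0) (m : κ' → ℤ)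
    (X : Derivation C M M) :
    X (∏ l ∈ s, E l ^ m l) / (∏ l ∈ s, E l ^ m l) = ∑ l ∈ s, (m l : M) * (X (E l) / E l) := by
  classical
  induction s using Finset.induction_on with
  | empty => simp
  | insert a s ha ih =>
    have h1 : (∏ l ∈ s, E l ^ m l) ≠ 0 := Finset.prod_ne_zero_iff.2 fun l _ => zpow_ne_zero _ (hE l)
    have h2 : E a ^ m a ≠ 0 := zpow_ne_zero _ (hE a)
    rw [Finset.prod_insert ha, Finset.sum_insert ha, ← ih, Derivation.leibniz,
      Derivation.leibniz_zpow]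
    simp only [smul_eq_mul, zsmul_eq_mul]
    rw [zpow_sub_one₀ (hE a)]
    have h3 := hE a
    field_simp
    ring

lemma tor_case (D : Derivation C M M) (hD : ∀ m, D m = 0 → m ∈ Set.range (algebraMap C M))
    {κ' : Type*} [Fintype κ'] (t E : κ' → M) (hE : ∀ l, E l ≠ 0)
    (hDE : ∀ l, D (E l) = E l * D (t l))
    (ht : ∀ m : κ' → ℤ, ∑ l, (m l : M) * t l ∈ Set.range (algebraMap C M) → m = 0)
    (e : κ' → C) (he : e ≠ 0)
    (H : ∀ X : Derivation C M M, ∑ l, algebraMap C M (e l) * (X (t l) - X (E l) / E l) = 0) :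
    False := by
  obtain ⟨h, ε, m, hε, hem⟩ := int_basis e
  set g : Fin h → M := fun k => ∏ l, E l ^ m l k with hg
  have hg0 : ∀ k, g k ≠ 0 := fun k => Finset.prod_ne_zero_iff.2 fun l _ => zpow_ne_zero _ (hE l)
  have hgX : ∀ (X : Derivation C M M) k, X (g k) / g k = ∑ l, (m l k : M) * (X (E l) / E l) :=
    fun X k => der_prod_zpow Finset.univ E hE (fun l => m l k) X
  have h1 := tor_res ε hε g hg0 (∑ l, algebraMap C M (e l) * t l) (by
    intro X
    have h2 : X (∑ l, algebraMap C M (e l) * t l) = ∑ l, algebraMap C M (e l) * X (t l) := by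
      rw [map_sum]
      refine Finset.sum_congr rfl fun l _ => ?_
      rw [Derivation.leibniz, X.map_algebraMap]
      simp
    have h3 := H X
    simp only [mul_sub, Finset.sum_sub_distrib] at h3
    rw [h2, sub_eq_zero.1 h3]
    simp only [hgX, Finset.mul_sum]
    rw [Finset.sum_comm]
    refine Finset.sum_congr rfl fun l _ => ?_
    rw [hem l, map_sum, Finset.sum_mul]
    refine Finset.sum_congr rfl fun k _ => ?_
    rw [map_mul, map_intCast]
    ring)
  apply he
  have h4 : ∀ k, (fun l => m l k) = 0 := by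
    intro k
    apply ht
    apply hD
    obtain ⟨c, hc⟩ := h1 k
    have h5 : D (g k) = 0 := by rw [← hc]; exact D.map_algebraMap c
    have h6 := hgX D k
    rw [h5, zero_div] at h6
    rw [map_sum, h6]
    refine Finset.sum_congr rfl fun l _ => ?_
    rw [Derivation.leibniz, hDE l, mul_div_cancel_left₀ _ (hE l)]
    have h7 : D ((m l k : ℤ) : M) = 0 := D.map_intCast _
    rw [h7]
    simp
  funext l
  rw [hem l]
  apply Finset.sum_eq_zero
  intro k _
  have h5 := congrFun (h4 k) l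
  simp only [Pi.zero_apply] at h5
  rw [h5]
  simp

end torus

section final

variable {C M : Type*} [Field C] [CharZero C] [Field M] [Algebra C M]

/-- the functions whose transcendence degree is bounded from below -/
def asF {ι κ' : Type*} (τ e g2 g3 : M) (z x ζ : ι → M) (t E : κ' → M) :
    Fin 4 ⊕ ((Fin 3 × ι) ⊕ (Fin 2 × κ')) → M
  | Sum.inl k => ![τ, e, g2, g3] k
  | Sum.inr (Sum.inl (k, i)) => ![z i, x i, ζ i] k
  | Sum.inr (Sum.inr (k, l)) => ![t l, E l] k

omit [CharZero C] in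
lemma disc_ne_zero [CharZero C] {τ e g2 g3 : M} (hind : AlgebraicIndependent C ![τ, e, g2, g3]) :
    g2 ^ 3 - 27 * g3 ^ 2 ≠ 0 := by
  intro h
  have h1 : MvPolynomial.aeval ![τ, e, g2, g3]
      ((MvPolynomial.X 2 ^ 3 - 27 * MvPolynomial.X 3 ^ 2 : MvPolynomial (Fin 4) C)) = 0 := by
    simpa using h
  have h2 := (algebraicIndependent_iff.1 hind) _ h1
  have h3 := congrArg (MvPolynomial.eval ![(0 : C), 0, 1, 0]) h2
  simp at h3

omit [CharZero C] in
lemma ThL_zero_of {κ τ e g2 g3 : M} (X : Derivation C M M) (hκ : X κ = 0) (hτ : X τ = 0)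
    (he : X e = 0) (h2 : X g2 = 0) (h3 : X g3 = 0) : ThL C κ τ e g2 g3 X = 0 := by
  have ha : cA g2 g3 X = 0 := by simp [cA, h2, h3]
  have hb : cB g2 g3 X = 0 := by simp [cB, h2, h3]
  have h1 : (P0 κ τ e).map X = 0 := by
    ext i j
    fin_cases i <;> fin_cases j <;> simp [P0, hκ, hτ, he]
  have h4 : cM g2 g3 X = 0 := by
    ext i j
    fin_cases i <;> fin_cases j <;> simp [cM, ha, hb]
  rw [ThL_apply, h1, h4]
  simp

omit [CharZero C] in
lemma vL_zero_of {κ τ e g2 g3 z x y ζ : M} (X : Derivation C M M)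
    (h2 : X g2 = 0) (h3 : X g3 = 0) (hz : X z = 0) (hx : X x = 0) (hζ : X ζ = 0) :
    vL C κ τ e g2 g3 z x y ζ X = 0 := by
  have ha : cA g2 g3 X = 0 := by simp [cA, h2, h3]
  have hb : cB g2 g3 X = 0 := by simp [cB, h2, h3]
  have h4 : cM g2 g3 X = 0 := by
    ext i j
    fin_cases i <;> fin_cases j <;> simp [cM, ha, hb]
  have h5 : bV g2 g3 x y X = 0 := by
    ext i
    fin_cases i <;> simp [bV, cb1, cb2, ha, hb, hx]
  have h6 : (fun k => X (![z, ζ] k)) = 0 := by
    ext i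
    fin_cases i <;> simp [hz, hζ]
  change P1 κ τ e *ᵥ _ = 0
  rw [h4, h5, h6]
  simp

/-- **The algebraic form of the theorem.** Either the functions have the maximal transcendence
degree over the constants or there is a linear relation between the forms attached to the points. -/
theorem AS_alg [IsAlgClosed C] (D : Derivation C M M)
    (hD : ∀ m, D m = 0 → m ∈ Set.range (algebraMap C M))
    {ι κ' : Type*} [Fintype ι] [Fintype κ'] [DecidableEq ι] [DecidableEq κ']
    {κ τ e g2 g3 : M} (hκ : κ ≠ 0) (hκC : κ ∈ Set.range (algebraMap C M))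
    (hind : AlgebraicIndependent C ![τ, e, g2, g3])
    (hτ : D τ = 1) (he : κ * D e = -e ^ 2 + g2 / 12)
    (h2 : κ * D g2 = -4 * e * g2 + 6 * g3) (h3 : κ * D g3 = -6 * e * g3 + g2 ^ 2 / 3)
    (z x y ζ : ι → M) (hy : ∀ i, y i ≠ 0)
    (hxy : ∀ i, y i ^ 2 = 4 * x i ^ 3 - g2 * x i - g3)
    (hx : ∀ i, κ * (D (x i) - y i * D (z i)) =
      (ζ i - e * z i) * y i + 2 * x i ^ 2 - 2 * e * x i - g2 / 3)
    (hζ : ∀ i, κ * (D (ζ i) + x i * D (z i)) =
      -(ζ i - e * z i) * x i - y i / 2 - e * ζ i + g2 * z i / 12)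
    (t E : κ' → M) (hE : ∀ l, E l ≠ 0) (hDE : ∀ l, D (E l) = E l * D (t l))
    (ht : ∀ m : κ' → ℤ, ∑ l, (m l : M) * t l ∈ Set.range (algebraMap C M) → m = 0) :
    (∃ s : Finset (Fin 4 ⊕ ((Fin 3 × ι) ⊕ (Fin 2 × κ'))),
      AlgebraicIndependent C (fun i : s => asF τ e g2 g3 z x ζ t E i) ∧
      4 + 2 * Fintype.card ι + Fintype.card κ' ≤ s.card) ∨
    (∃ c : ι → C, c ≠ 0 ∧ ∃ w : Fin 2 → C, ∀ X : Derivation C M M,
      ∑ i, algebraMap C M (c i) • vL C κ τ e g2 g3 (z i) (x i) (y i) (ζ i) X =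
        ThL C κ τ e g2 g3 X *ᵥ (fun k => algebraMap C M (w k))) := by
  have hM : CharZero M := charZero_of_injective_algebraMap (algebraMap C M).injective
  have hΔ := disc_ne_zero hind
  have hκX : ∀ X : Derivation C M M, X κ = 0 := by
    intro X
    obtain ⟨c, rfl⟩ := hκC
    exact X.map_algebraMap c
  rcases lie_dichotomy D hD (ThL C κ τ e g2 g3)
    (fun i => vL C κ τ e g2 g3 (z i) (x i) (y i) (ζ i)) (fun l => thL C (t l) (E l))
    (fun X => ThL_trace hκ X (hκX X)) (fun X Y => ThL_flat hκ hΔ X Y)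
    (fun i X Y => vL_flat hκ hΔ (hy i) (hxy i) X Y) (fun l X Y => thL_flat _ _ (hE l) X Y)
    (ThL_D hκ hΔ D (hκX D) hτ he h2 h3)
    (fun i => vL_D hκ hΔ (hy i) D h2 h3 (hx i) (hζ i))
    (fun l => by
      change D (t l) - D (E l) / E l = 0
      rw [hDE l, mul_div_cancel_left₀ _ (hE l), sub_self])
    (fun A hA => ThL_surj hκ hΔ hκC hind A hA) with h | h | h
  · left
    set F := asF τ e g2 g3 z x ζ t E with hF
    obtain ⟨s, hs, hcard⟩ := exists_finset_rank (K := C) F
    refine ⟨s, hs, ?_⟩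
    rw [← hcard]
    -- the evaluation map
    let evL : Derivation C M M →ₗ[M] (Fin 4 ⊕ ((Fin 3 × ι) ⊕ (Fin 2 × κ')) → M) :=
      { toFun := fun X i => X (F i)
        map_add' := fun X Y => rfl
        map_smul' := fun m X => rfl }
    have hspan : Submodule.span M (Set.range fun X : Derivation C M M => fun i => X (F i)) =
        LinearMap.range evL := by
      have h4 : (Set.range fun X : Derivation C M M => fun i => X (F i)) =
          (LinearMap.range evL : Set _) := rfl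
      rw [h4, Submodule.span_eq]
    rw [hspan]
    let Φ : Derivation C M M →ₗ[M] ((Fin 4 → M) × ((ι × Fin 2) → M) × (κ' → M)) :=
      { toFun := fun X => (![X τ, ThL C κ τ e g2 g3 X 0 0, ThL C κ τ e g2 g3 X 0 1,
          ThL C κ τ e g2 g3 X 1 0],
          fun p => vL C κ τ e g2 g3 (z p.1) (x p.1) (y p.1) (ζ p.1) X p.2,
          fun l => thL C (t l) (E l) X)
        map_add' := fun X Y => by
          ext i
          · fin_cases i <;> simp
          · simp
          · simp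
        map_smul' := fun m X => by
          ext i
          · fin_cases i <;> simp
          · simp
          · simp }
    have hΦ : Function.Surjective Φ := by
      rintro ⟨a, u, r⟩
      obtain ⟨X, hX1, hX2, hX3⟩ := h !![a 1, a 2; a 3, -a 1] (fun i k => u (i, k)) r
        (by simp [Matrix.trace_fin_two])
      refine ⟨X + (a 0 - X τ) • D, ?_⟩
      have k1 : ThL C κ τ e g2 g3 (X + (a 0 - X τ) • D) = !![a 1, a 2; a 3, -a 1] := by
        rw [map_add, map_smul, ThL_D hκ hΔ D (hκX D) hτ he h2 h3, smul_zero, add_zero, hX1]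
      have k2 : ∀ i, vL C κ τ e g2 g3 (z i) (x i) (y i) (ζ i) (X + (a 0 - X τ) • D) =
          fun k => u (i, k) := by
        intro i
        rw [map_add, map_smul, vL_D hκ hΔ (hy i) D h2 h3 (hx i) (hζ i), smul_zero, add_zero]
        exact hX2 i
      have k3 : ∀ l, thL C (t l) (E l) (X + (a 0 - X τ) • D) = r l := by
        intro l
        have h0 : thL C (t l) (E l) D = 0 := by
          change D (t l) - D (E l) / E l = 0
          rw [hDE l, mul_div_cancel_left₀ _ (hE l), sub_self]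
        rw [map_add, map_smul, h0, smul_zero, add_zero]
        exact hX3 l
      have k4 : (X + (a 0 - X τ) • D) τ = a 0 := by
        simp [hτ]
      change (![_, _, _, _], _, _) = _
      ext i
      · fin_cases i
        · exact k4
        · simp [k1]
        · simp [k1]
        · simp [k1]
      · simp [k2]
      · simp [k3]
    have hker : LinearMap.ker evL ≤ LinearMap.ker Φ := by
      intro X hX
      have hX' : ∀ i, X (F i) = 0 := fun i => congrFun (LinearMap.mem_ker.1 hX) i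
      have x1 : X τ = 0 := hX' (Sum.inl 0)
      have x2 : X e = 0 := hX' (Sum.inl 1)
      have x3 : X g2 = 0 := hX' (Sum.inl 2)
      have x4 : X g3 = 0 := hX' (Sum.inl 3)
      have x5 : ∀ i, X (z i) = 0 := fun i => hX' (Sum.inr (Sum.inl (0, i)))
      have x6 : ∀ i, X (x i) = 0 := fun i => hX' (Sum.inr (Sum.inl (1, i)))
      have x7 : ∀ i, X (ζ i) = 0 := fun i => hX' (Sum.inr (Sum.inl (2, i)))
      have x8 : ∀ l, X (t l) = 0 := fun l => hX' (Sum.inr (Sum.inr (0, l)))
      have x9 : ∀ l, X (E l) = 0 := fun l => hX' (Sum.inr (Sum.inr (1, l)))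
      rw [LinearMap.mem_ker]
      change (![_, _, _, _], _, _) = _
      rw [ThL_zero_of X (hκX X) x1 x2 x3 x4]
      ext i
      · fin_cases i <;> simp [x1]
      · obtain ⟨i, k⟩ := i
        simp only
        rw [vL_zero_of X x3 x4 (x5 i) (x6 i) (x7 i)]
        rfl
      · change X (t i) - X (E i) / E i = 0
        rw [x8, x9]
        simp
    let g : (LinearMap.range evL) →ₗ[M] ((Fin 4 → M) × ((ι × Fin 2) → M) × (κ' → M)) :=
      ((LinearMap.ker evL).liftQ Φ hker).comp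
        (evL.quotKerEquivRange.symm : LinearMap.range evL →ₗ[M] _)
    have hg : Function.Surjective g := by
      intro q
      obtain ⟨X, hX⟩ := hΦ q
      refine ⟨evL.quotKerEquivRange (Submodule.Quotient.mk X), ?_⟩
      simp only [g, LinearMap.comp_apply, LinearEquiv.coe_coe, LinearEquiv.symm_apply_apply]
      exact hX
    have h5 := LinearMap.finrank_le_finrank_of_surjective (f := g) hg
    refine le_trans (le_of_eq ?_) h5
    rw [Module.finrank_prod, Module.finrank_prod, Module.finrank_fintype_fun_eq_card,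
      Module.finrank_fintype_fun_eq_card, Module.finrank_fintype_fun_eq_card, Fintype.card_prod,
      Fintype.card_fin, Fintype.card_fin]
    ring
  · exact Or.inr h
  · obtain ⟨ev, hev, H⟩ := h
    exact (tor_case D hD t E hE hDE ht ev hev H).elim

end final

end Pool.Agent.Work.MP_8da9ea_nt

end
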