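import Mathlib
import Pool.Agent.Work.MP_8da9ea_nt.Arc
import Pool.Agent.Work.MP_8da9ea_nt.Stmt
import Pool.Agent.Work.LW.LW
import Pool.Agent.Work.MP_8da9ea_nt.Der
import Pool.Agent.Work.MP_8da9ea_nt.Spec
import Pool.Agent.Work.MP_8da9ea_nt.Bd.B03

/-! Bundle of small proof modules (one section per former module). -/

section

/-!
# Kronecker's approximation theorem
-/

set_option autoImplicit false

namespace Pool.Agent.Work.MP_8da9ea_nt

open Complex Filter Topology

/-- `e(x) = exp(2 π i x)` -/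
noncomputable def ee (x : ℝ) : ℂ := Complex.exp (2 * Real.pi * I * x)

lemma ee_add (x y : ℝ) : ee (x + y) = ee x * ee y := by
  unfold ee; rw [← Complex.exp_add]; congr 1; push_cast; ring

lemma ee_zero : ee 0 = 1 := by simp [ee]

lemma ee_int (n : ℤ) : ee n = 1 := by
  unfold ee
  rw [Complex.exp_eq_one_iff]
  exact ⟨n, by push_cast; ring⟩

lemma ee_eq_one {x : ℝ} (h : ee x = 1) : ∃ n : ℤ, x = n := by
  unfold ee at h
  rw [Complex.exp_eq_one_iff] at h
  obtain ⟨n, hn⟩ := h
  refine ⟨n, ?_⟩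
  have h2 : (2 * Real.pi * I : ℂ) ≠ 0 := Complex.two_pi_I_ne_zero
  have h3 : (2 * Real.pi * I : ℂ) * x = 2 * Real.pi * I * n := by rw [hn]; ring
  have h4 := mul_left_cancel₀ h2 h3
  exact_mod_cast h4

lemma ee_natMul (n : ℕ) (x : ℝ) : ee (n * x) = ee x ^ n := by
  unfold ee; rw [← Complex.exp_nat_mul]; congr 1; push_cast; ring

lemma norm_ee (x : ℝ) : ‖ee x‖ = 1 := by
  unfold ee
  have : (2 * Real.pi * I * x : ℂ) = ((2 * Real.pi * x : ℝ) : ℂ) * I := by push_cast; ring
  rw [this, Complex.norm_exp_ofReal_mul_I]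

lemma ee_sum {ι : Type*} (s : Finset ι) (f : ι → ℝ) : ee (∑ i ∈ s, f i) = ∏ i ∈ s, ee (f i) := by
  classical
  induction s using Finset.induction_on with
  | empty => simp [ee_zero]
  | insert a s ha ih => rw [Finset.sum_insert ha, Finset.prod_insert ha, ee_add, ih]

/-- averages of exponentials -/
lemma avg_tendsto (α : ℝ) (c : ℂ) (hc : ee α = 1 → c = 1) :
    Tendsto (fun M : ℕ => (M : ℂ)⁻¹ * ∑ d ∈ Finset.range M, ee (d * α)) atTop
      (𝓝 (if ee α = 1 then c else 0)) := by
  split_ifs with h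
  · rw [hc h]
    refine (tendsto_const_nhds (x := (1 : ℂ))).congr' ?_
    filter_upwards [eventually_gt_atTop 0] with M hM
    have : ∀ d ∈ Finset.range M, ee (d * α) = 1 := fun d _ => by rw [ee_natMul, h, one_pow]
    rw [Finset.sum_congr rfl this, Finset.sum_const, Finset.card_range, nsmul_eq_mul, mul_one,
      inv_mul_cancel₀ (by exact_mod_cast hM.ne')]
  · have hb : ∀ M : ℕ, ‖(M : ℂ)⁻¹ * ∑ d ∈ Finset.range M, ee (d * α)‖ ≤
        (M : ℝ)⁻¹ * (2 / ‖ee α - 1‖) := by
      intro M
      rw [norm_mul, norm_inv, Complex.norm_natCast]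
      gcongr
      have h1 : ∑ d ∈ Finset.range M, ee (d * α) = (ee α ^ M - 1) / (ee α - 1) := by
        rw [← geom_sum_eq h]
        exact Finset.sum_congr rfl fun d _ => ee_natMul d α
      rw [h1, norm_div]
      gcongr
      calc ‖ee α ^ M - 1‖ ≤ ‖ee α ^ M‖ + ‖(1 : ℂ)‖ := norm_sub_le _ _
        _ = 2 := by rw [norm_pow, norm_ee, one_pow, norm_one]; norm_num
    refine squeeze_zero_norm hb ?_
    have := (tendsto_inv_atTop_nhds_zero_nat (𝕜 := ℝ)).mul_const (2 / ‖ee α - 1‖)
    rwa [zero_mul] at this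

/-- the kernel -/
lemma kernel (K : ℕ) (x : ℝ) : ((Real.cos (Real.pi * x) ^ (2 * K) : ℝ) : ℂ) =
    ∑ j ∈ Finset.range (2 * K + 1), ((((2 * K).choose j : ℝ) / 4 ^ K : ℝ) : ℂ) *
      ee (((j : ℤ) - K : ℤ) * x) := by
  have h1 : (Real.cos (Real.pi * x) : ℂ) = (ee (x / 2) + ee (-(x / 2))) / 2 := by
    have e1 : ee (x / 2) = Complex.exp (((Real.pi * x : ℝ) : ℂ) * I) := by
      unfold ee; congr 1; push_cast; ring
    have e2 : ee (-(x / 2)) = Complex.exp (-((Real.pi * x : ℝ) : ℂ) * I) := by
      unfold ee; congr 1; push_cast; ring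
    rw [Complex.ofReal_cos, Complex.cos, e1, e2]
  rw [Complex.ofReal_pow, h1, div_pow, add_pow, Finset.sum_div]
  refine Finset.sum_congr rfl fun j hj => ?_
  rw [Finset.mem_range] at hj
  have h2 : ee (x / 2) ^ j * ee (-(x / 2)) ^ (2 * K - j) = ee (((j : ℤ) - K : ℤ) * x) := by
    rw [← ee_natMul, ← ee_natMul, ← ee_add]
    congr 1
    rw [Nat.cast_sub (by omega)]
    push_cast
    ring
  have h4 : (2 : ℂ) ^ (2 * K) = 4 ^ K := by rw [pow_mul]; norm_num
  rw [h2, h4]
  push_cast
  ring

lemma cos_sq_le {x ε : ℝ} (h : ∀ a : ℤ, ε ≤ |x - a|) (hε : 0 < ε) :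
    Real.cos (Real.pi * x) ^ 2 ≤ 1 - 4 * ε ^ 2 := by
  set y := x - round x with hy
  have h1 : ε ≤ |y| := h (round x)
  have h2 : |y| ≤ 1 / 2 := abs_sub_round x
  have h3 : Real.cos (Real.pi * x) ^ 2 = Real.cos (Real.pi * |y|) ^ 2 := by
    have e1 : Real.cos (Real.pi * |y|) = Real.cos (Real.pi * y) := by
      rw [← Real.cos_abs (Real.pi * y), abs_mul, abs_of_pos Real.pi_pos]
    have e2 : Real.pi * y = Real.pi * x - round x * Real.pi := by rw [hy]; ring
    rw [e1, e2, Real.cos_sub_int_mul_pi, mul_pow]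
    have : (((-1 : ℝ) ^ (round x))) ^ 2 = 1 := by
      rw [← zpow_natCast, ← zpow_mul, mul_comm, zpow_mul]
      norm_num
    rw [this, one_mul]
  have h4 := Real.mul_le_sin (x := Real.pi * |y|) (by positivity) (by nlinarith [Real.pi_pos])
  have h5 : 2 / Real.pi * (Real.pi * |y|) = 2 * |y| := by
    field_simp
  rw [h5] at h4
  have h6 := Real.sin_sq_add_cos_sq (Real.pi * |y|)
  rw [h3]
  nlinarith

theorem kron {ι : Type*} [Fintype ι] (θ r : ι → ℝ)
    (h : ∀ (k : ι → ℤ) (l : ℤ), ∑ i, (k i : ℝ) * θ i = l → ∃ l' : ℤ, ∑ i, (k i : ℝ) * r i = l')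
    (ε : ℝ) (hε : 0 < ε) (N : ℕ) :
    ∃ d : ℕ, N ≤ d ∧ ∃ a : ι → ℤ, ∀ i, |d * θ i - r i - a i| < ε := by
  classical
  by_contra hcon
  push Not at hcon
  -- a far coordinate for each d
  have hfar : ∀ d : ℕ, N ≤ d → ∃ i, ∀ a : ℤ, ε ≤ |(d * θ i - r i) - a| := by
    intro d hd
    by_contra hno
    push Not at hno
    choose a ha using hno
    obtain ⟨i, hi⟩ := hcon d hd a
    exact absurd (ha i) (not_lt.2 hi)
  set ρ : ℝ := 1 - 4 * ε ^ 2 with hρ
  have hρ1 : ρ < 1 := by rw [hρ]; nlinarith
  have hρ0 : 0 ≤ ρ := by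
    obtain ⟨i, hi⟩ := hfar N le_rfl
    exact (sq_nonneg _).trans (cos_sq_le hi hε)
  set m := Fintype.card ι with hm
  -- the kernel function
  let F : ℕ → ℕ → ℝ := fun K d => ∏ i, Real.cos (Real.pi * (d * θ i - r i)) ^ (2 * K)
  have hF1 : ∀ K d, 0 ≤ F K d ∧ F K d ≤ 1 := by
    intro K d
    constructor
    · exact Finset.prod_nonneg fun i _ => by rw [pow_mul]; positivity
    · refine Finset.prod_le_one (fun i _ => by rw [pow_mul]; positivity) fun i _ => ?_
      rw [pow_mul]
      exact pow_le_one₀ (sq_nonneg _) (Real.cos_sq_le_one _)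
  have hF2 : ∀ K d, N ≤ d → F K d ≤ ρ ^ K := by
    intro K d hd
    obtain ⟨i, hi⟩ := hfar d hd
    have h1 : Real.cos (Real.pi * (d * θ i - r i)) ^ (2 * K) ≤ ρ ^ K := by
      rw [pow_mul]
      exact pow_le_pow_left₀ (sq_nonneg _) (cos_sq_le hi hε) K
    calc F K d = Real.cos (Real.pi * (d * θ i - r i)) ^ (2 * K) *
          ∏ j ∈ Finset.univ.erase i, Real.cos (Real.pi * (d * θ j - r j)) ^ (2 * K) :=
          (Finset.mul_prod_erase _ _ (Finset.mem_univ i)).symm
      _ ≤ ρ ^ K * 1 := by
          refine mul_le_mul h1 ?_ ?_ (by positivity)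
          · refine Finset.prod_le_one (fun j _ => by rw [pow_mul]; positivity) fun j _ => ?_
            rw [pow_mul]
            exact pow_le_one₀ (sq_nonneg _) (Real.cos_sq_le_one _)
          · exact Finset.prod_nonneg fun j _ => by rw [pow_mul]; positivity
      _ = ρ ^ K := mul_one _
  -- expansion of the kernel
  let Jset : ℕ → Finset (ι → ℕ) := fun K => Fintype.piFinset fun _ => Finset.range (2 * K + 1)
  let W : ℕ → (ι → ℕ) → ℝ := fun K J => ∏ i, (((2 * K).choose (J i) : ℝ) / 4 ^ K)
  let A : ℕ → (ι → ℕ) → ℝ := fun K J => ∑ i, (((J i : ℤ) - K : ℤ) : ℝ) * θ i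
  let C : ℕ → (ι → ℕ) → ℝ := fun K J => ∑ i, (((J i : ℤ) - K : ℤ) : ℝ) * r i
  have hexp : ∀ K d, ((F K d : ℝ) : ℂ) =
      ∑ J ∈ Jset K, (W K J : ℂ) * (ee (d * A K J) * ee (-(C K J))) := by
    intro K d
    have h1 : ((F K d : ℝ) : ℂ) = ∏ i, ∑ j ∈ Finset.range (2 * K + 1),
        ((((2 * K).choose j : ℝ) / 4 ^ K : ℝ) : ℂ) * ee (((j : ℤ) - K : ℤ) * (d * θ i - r i)) := by
      simp only [F]
      rw [Complex.ofReal_prod]
      exact Finset.prod_congr rfl fun i _ => kernel K _
    rw [h1, Finset.prod_univ_sum]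
    refine Finset.sum_congr rfl fun J _ => ?_
    rw [Finset.prod_mul_distrib]
    congr 1
    · simp only [W]; rw [Complex.ofReal_prod]
    · rw [← ee_sum, ← ee_add]
      congr 1
      simp only [A, C]
      rw [Finset.mul_sum, ← Finset.sum_neg_distrib, ← Finset.sum_add_distrib]
      refine Finset.sum_congr rfl fun i _ => ?_
      ring
  -- limit of the averages
  have hlim : ∀ K, Tendsto (fun M : ℕ => (M : ℂ)⁻¹ * ∑ d ∈ Finset.range M, ((F K d : ℝ) : ℂ)) atTop
      (𝓝 (∑ J ∈ Jset K, (W K J : ℂ) * (if ee (A K J) = 1 then 1 else 0))) := by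
    intro K
    have h1 : ∀ M : ℕ, (M : ℂ)⁻¹ * ∑ d ∈ Finset.range M, ((F K d : ℝ) : ℂ) =
        ∑ J ∈ Jset K, (W K J : ℂ) * (((M : ℂ)⁻¹ * ∑ d ∈ Finset.range M, ee (d * A K J)) *
          ee (-(C K J))) := by
      intro M
      rw [Finset.sum_congr rfl fun d _ => hexp K d, Finset.sum_comm, Finset.mul_sum]
      refine Finset.sum_congr rfl fun J _ => ?_
      rw [← Finset.mul_sum, ← Finset.sum_mul]
      ring
    simp_rw [h1]
    refine tendsto_finsetSum _ fun J _ => ?_
    refine Tendsto.const_mul _ ?_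
    by_cases hJ : ee (A K J) = 1
    · have h2 := (avg_tendsto (A K J) 1 (fun _ => rfl)).mul_const (ee (-(C K J)))
      rw [if_pos hJ] at h2 ⊢
      obtain ⟨l, hl⟩ := ee_eq_one hJ
      obtain ⟨l', hl'⟩ := h (fun i => (J i : ℤ) - K) l hl
      have h3 : ee (-(C K J)) = 1 := by
        have : -(C K J) = ((-l' : ℤ) : ℝ) := by
          simp only [C]; rw [hl']; push_cast; ring
        rw [this, ee_int]
      rw [h3, mul_one] at h2
      simpa [h3] using h2
    · have h2 := (avg_tendsto (A K J) 1 (fun _ => rfl)).mul_const (ee (-(C K J)))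
      rw [if_neg hJ] at h2 ⊢
      simpa using h2
  -- lower bound for the limit
  have hW : ∀ K J, 0 ≤ W K J := fun K J => Finset.prod_nonneg fun i _ => by positivity
  have hlow : ∀ K : ℕ, 0 < K → (1 / (2 * K : ℝ)) ^ m ≤
      ‖∑ J ∈ Jset K, (W K J : ℂ) * (if ee (A K J) = 1 then 1 else 0)‖ := by
    intro K hK
    have h1 : ∑ J ∈ Jset K, (W K J : ℂ) * (if ee (A K J) = 1 then 1 else 0) =
        ((∑ J ∈ Jset K, W K J * (if ee (A K J) = 1 then 1 else 0) : ℝ) : ℂ) := by
      push_cast
      refine Finset.sum_congr rfl fun J _ => ?_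
      split_ifs <;> simp
    rw [h1, Complex.norm_real]
    refine le_trans ?_ (le_abs_self _)
    have hcen : (fun _ : ι => K) ∈ Jset K := by
      simp only [Jset, Fintype.mem_piFinset, Finset.mem_range]
      intro _; omega
    refine le_trans ?_ (Finset.single_le_sum (f := fun J => W K J * (if ee (A K J) = 1 then 1 else 0))
      (fun J _ => mul_nonneg (hW K J) (by split_ifs <;> norm_num)) hcen)
    have h2 : A K (fun _ => K) = 0 := by simp [A]
    simp only [h2, ee_zero, if_true, mul_one, W, Finset.prod_const, Finset.card_univ, ← hm]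
    refine pow_le_pow_left₀ (by positivity) ?_ m
    rw [div_le_div_iff₀ (by positivity) (by positivity), one_mul]
    have := Nat.four_pow_le_two_mul_self_mul_centralBinom K hK
    rw [Nat.centralBinom] at this
    have h3 : ((4 ^ K : ℕ) : ℝ) ≤ ((2 * K * (2 * K).choose K : ℕ) : ℝ) := by exact_mod_cast this
    push_cast at h3
    linarith
  -- upper bound for the limit
  have hup : ∀ K, ‖∑ J ∈ Jset K, (W K J : ℂ) * (if ee (A K J) = 1 then 1 else 0)‖ ≤ ρ ^ K := by
    intro K
    have h1 := (hlim K).norm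
    have h2 : Tendsto (fun M : ℕ => (M : ℝ)⁻¹ * N + ρ ^ K) atTop (𝓝 (0 * N + ρ ^ K)) :=
      ((tendsto_inv_atTop_nhds_zero_nat (𝕜 := ℝ)).mul_const _).add_const _
    rw [zero_mul, zero_add] at h2
    refine le_of_tendsto_of_tendsto h1 h2 ?_
    filter_upwards [eventually_gt_atTop 0] with M hM
    have hM' : (0 : ℝ) < M := by exact_mod_cast hM
    rw [norm_mul, norm_inv, Complex.norm_natCast]
    have h3 : ‖∑ d ∈ Finset.range M, ((F K d : ℝ) : ℂ)‖ ≤ N + M * ρ ^ K := by
      refine (norm_sum_le _ _).trans ?_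
      have h4 : ∀ d ∈ Finset.range M, ‖((F K d : ℝ) : ℂ)‖ ≤ (if d < N then 1 else 0) + ρ ^ K := by
        intro d _
        rw [Complex.norm_real, Real.norm_of_nonneg (hF1 K d).1]
        split_ifs with hd
        · have := (hF1 K d).2
          have : 0 ≤ ρ ^ K := by positivity
          linarith
        · rw [zero_add]; exact hF2 K d (not_lt.1 hd)
      refine (Finset.sum_le_sum h4).trans ?_
      rw [Finset.sum_add_distrib, Finset.sum_const, Finset.card_range, nsmul_eq_mul]
      refine add_le_add ?_ le_rfl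
      rw [Finset.sum_ite, Finset.sum_const_zero, add_zero, Finset.sum_const, nsmul_eq_mul, mul_one]
      have : ((Finset.range M).filter (fun d => d < N)).card ≤ (Finset.range N).card :=
        Finset.card_le_card fun d hd => by
          simp only [Finset.mem_filter, Finset.mem_range] at hd ⊢
          exact hd.2
      rw [Finset.card_range] at this
      exact_mod_cast this
    calc (M : ℝ)⁻¹ * ‖∑ d ∈ Finset.range M, ((F K d : ℝ) : ℂ)‖ ≤ (M : ℝ)⁻¹ * (N + M * ρ ^ K) := by
          gcongr
      _ = (M : ℝ)⁻¹ * N + ρ ^ K := by field_simp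
  -- contradiction
  have hfin := tendsto_pow_const_mul_const_pow_of_abs_lt_one m (r := ρ)
    (by rw [abs_of_nonneg hρ0]; exact hρ1)
  have hev : ∀ᶠ K : ℕ in atTop, (K : ℝ) ^ m * ρ ^ K < (1 / 2) ^ m :=
    hfin.eventually_lt_const (by positivity)
  obtain ⟨K, hK1, hK2⟩ := (hev.and (eventually_gt_atTop 0)).exists
  have h1 := (hlow K hK2).trans (hup K)
  have hK' : (0 : ℝ) < K := by exact_mod_cast hK2
  have h2 : (1 / (2 * K : ℝ)) ^ m = (1 / 2) ^ m / (K : ℝ) ^ m := by
    rw [← div_pow]; congr 1; field_simp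
  rw [h2, div_le_iff₀ (by positivity)] at h1
  linarith

end Pool.Agent.Work.MP_8da9ea_nt

end

section

/-!
# Linear algebra and transcendence degree bookkeeping
-/

set_option autoImplicit false

namespace Pool.Agent.Work.MP_8da9ea_nt

open Submodule

/-- extending a linearly independent family by members of a finite family to a basis of the span -/
lemma exists_rel_basis {V : Type*} [AddCommGroup V] [Module ℚ V] {k n : ℕ} (a : Fin k → V)
    (ha : LinearIndependent ℚ a) (p : Fin n → V) :
    ∃ J : Finset (Fin n), LinearIndependent ℚ (Sum.elim a (fun j : J => p j)) ∧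
      J.card + k = Module.finrank ℚ (span ℚ (Set.range p ∪ Set.range a)) := by
  classical
  set v : Fin k ⊕ Fin n → V := Sum.elim a p with hv
  have hs : LinearIndepOn ℚ v (Set.range (Sum.inl : Fin k → Fin k ⊕ Fin n)) := by
    rw [linearIndepOn_range_iff Sum.inl_injective]
    exact ha
  obtain ⟨b, -, hsb, htb, hli⟩ := exists_linearIndepOn_extension hs (Set.subset_univ _)
  set J : Finset (Fin n) := Finset.univ.filter fun j => Sum.inr j ∈ b with hJ
  let e : Fin k ⊕ J ≃ b :=
    { toFun := fun x => match x with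
        | Sum.inl i => ⟨Sum.inl i, hsb ⟨i, rfl⟩⟩
        | Sum.inr j => ⟨Sum.inr j, (Finset.mem_filter.1 j.2).2⟩
      invFun := fun x => match x with
        | ⟨Sum.inl i, _⟩ => Sum.inl i
        | ⟨Sum.inr j, h⟩ => Sum.inr ⟨j, Finset.mem_filter.2 ⟨Finset.mem_univ _, h⟩⟩
      left_inv := by rintro (i | j) <;> rfl
      right_inv := by rintro ⟨i | j, h⟩ <;> rfl }
  have he : (Sum.elim a (fun j : J => p j)) = (fun x : b => v x) ∘ e := by
    funext x
    rcases x with i | j <;> rfl
  refine ⟨J, ?_, ?_⟩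
  · rw [he]
    exact hli.linearIndependent_restrict.comp _ e.injective
  · have hspan : span ℚ (Set.range p ∪ Set.range a) = span ℚ (v '' b) := by
      apply le_antisymm
      · rw [span_le]
        rintro x (⟨j, rfl⟩ | ⟨i, rfl⟩)
        · exact htb ⟨Sum.inr j, trivial, rfl⟩
        · exact htb ⟨Sum.inl i, trivial, rfl⟩
      · rw [span_le]
        rintro x ⟨y, -, rfl⟩
        rcases y with i | j
        · exact subset_span (Or.inr ⟨i, rfl⟩)
        · exact subset_span (Or.inl ⟨j, rfl⟩)
    have hr : v '' b = Set.range (fun x : b => v x) := by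
      ext y; simp
    have hf : Module.finrank ℚ (span ℚ (Set.range fun x : b => v x)) = Fintype.card b :=
      finrank_span_eq_card hli.linearIndependent_restrict
    rw [hspan, hr, hf, ← Fintype.card_congr e]
    simp [add_comm]

lemma finrank_insert {V : Type*} [AddCommGroup V] [Module ℚ V] (S : Set V) (hS : S.Finite) {v : V}
    (hv : v ∉ span ℚ S) :
    Module.finrank ℚ (span ℚ (insert v S)) = Module.finrank ℚ (span ℚ S) + 1 := by
  have : FiniteDimensional ℚ (span ℚ S) := FiniteDimensional.span_of_finite ℚ hS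
  have h0 : v ≠ 0 := by
    rintro rfl; exact hv (zero_mem _)
  have h1 := Submodule.finrank_sup_add_finrank_inf_eq (span ℚ S) (span ℚ {v})
  have h2 : span ℚ S ⊓ span ℚ {v} = ⊥ :=
    (Submodule.disjoint_span_singleton_of_notMem hv).eq_bot
  rw [h2, finrank_bot, add_zero, finrank_span_singleton h0] at h1
  rw [Set.insert_eq, span_union, sup_comm]
  exact h1

/-- transcendence degree bookkeeping -/
lemma exists_indep_of_tower {κ : Type*} [Fintype κ] (K : IntermediateField ℚ ℂ) (y : κ → ℂ)
    (hy : AlgebraicIndependent K y) {d : ℕ} (u : Fin d → ℂ) (huK : ∀ j, u j ∈ K)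
    (hu : AlgebraicIndependent ℚ u)
    (L : Set ℂ) (hKL : (K : Set ℂ) ⊆ L) (hyL : ∀ j, y j ∈ L) :
    ∃ x : Fin (d + Fintype.card κ) → ℂ, (∀ j, x j ∈ L) ∧ AlgebraicIndependent ℚ x := by
  classical
  have hs : AlgebraicIndependent ℚ (Sum.elim y u) := by
    refine hu.sumElim_of_tower (S := K) ?_ hy
    rintro _ ⟨j, rfl⟩
    exact ⟨⟨u j, huK j⟩, rfl⟩
  let e : Fin (d + Fintype.card κ) ≃ κ ⊕ Fin d :=
    finSumFinEquiv.symm.trans ((Equiv.sumComm _ _).trans
      (Equiv.sumCongr (Fintype.equivFin κ).symm (Equiv.refl _)))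
  refine ⟨Sum.elim y u ∘ e, ?_, hs.comp _ e.injective⟩
  intro j
  simp only [Function.comp_apply]
  rcases e j with i | i
  · exact hyL i
  · exact hKL (huK i)

/-- adjoining countably many elements gives a countable field -/
lemma countable_adjoin (S : Set ℂ) (hS : S.Countable) : Countable (IntermediateField.adjoin ℚ S) := by
  have : Countable S := hS
  have h1 : ((IntermediateField.adjoin ℚ S : IntermediateField ℚ ℂ) : Set ℂ) ⊆
      Set.range (fun q : MvPolynomial S ℚ × MvPolynomial S ℚ =>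
        (MvPolynomial.aeval (Subtype.val : S → ℂ) q.1 / MvPolynomial.aeval Subtype.val q.2 : ℂ)) := by
    intro x hx
    obtain ⟨r, s, h⟩ := (IntermediateField.mem_adjoin_iff ℚ x).1 hx
    exact ⟨(r, s), h.symm⟩
  have hc : Countable (MvPolynomial S ℚ) := by
    rw [← Cardinal.mk_le_aleph0_iff]
    refine (MvPolynomial.cardinalMk_le_max_lift (σ := S) (R := ℚ)).trans ?_
    simp only [max_le_iff, Cardinal.lift_le_aleph0, Cardinal.mk_le_aleph0_iff, le_refl]
    exact ⟨⟨inferInstance, inferInstance⟩, trivial⟩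
  exact Set.countable_coe_iff.2 ((Set.countable_range _).mono h1)

end Pool.Agent.Work.MP_8da9ea_nt

end

section

/-!
# Arcs in a generic direction
-/

set_option autoImplicit false

namespace Pool.Agent.Work.MP_8da9ea_nt

open Complex Filter Topology MvPolynomial

section chart

variable {E W : Type*} [NormedAddCommGroup E] [NormedSpace ℂ E] [CompleteSpace E]
  [NormedAddCommGroup W] [NormedSpace ℂ W]

/-- a chart straightening a submersion, tangent to the identity -/
theorem subm_chart' (G : E → W) (L : E →L[ℂ] W) (R : W →L[ℂ] E) (hLR : ∀ w, L (R w) = w) (x : E)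
    (hG : ContDiffAt ℂ 1 G x) (hL : HasFDerivAt G L x) :
    ∃ (Θ : E → E) (r : ℝ), 0 < r ∧ Θ x = x ∧ DifferentiableOn ℂ Θ (Metric.ball x r) ∧
      (∀ w ∈ Metric.ball x r, G (Θ w) = G x + L (w - x)) ∧
      HasFDerivAt Θ (ContinuousLinearMap.id ℂ E) x := by
  set Ψ : E → E := fun y => y + R (G y - G x - L (y - x)) with hΨ
  have hΨx : Ψ x = x := by simp [hΨ]
  have hcd : ContDiffAt ℂ 1 Ψ x := by
    apply contDiffAt_id.add
    exact R.contDiff.contDiffAt.comp x
      ((hG.sub contDiffAt_const).sub (L.contDiff.contDiffAt.comp x (contDiffAt_id.sub contDiffAt_const)))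
  have hfd : HasFDerivAt Ψ ((ContinuousLinearEquiv.refl ℂ E : E ≃L[ℂ] E) : E →L[ℂ] E) x := by
    have h1 : HasFDerivAt Ψ (ContinuousLinearMap.id ℂ E +
        R.comp (L - L.comp (ContinuousLinearMap.id ℂ E))) x := by
      apply (hasFDerivAt_id x).add
      apply R.hasFDerivAt.comp x
      exact (hL.sub_const (G x)).sub
        (L.hasFDerivAt.comp x ((hasFDerivAt_id x).sub_const x))
    convert! h1 using 1
    ext v
    simp
  set e := hcd.toOpenPartialHomeomorph Ψ hfd one_ne_zero with he
  have hec : (e : E → E) = Ψ := hcd.toOpenPartialHomeomorph_coe hfd one_ne_zero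
  have hxs : x ∈ e.source := hcd.mem_toOpenPartialHomeomorph_source hfd one_ne_zero
  have hxt : x ∈ e.target := by
    have := hcd.image_mem_toOpenPartialHomeomorph_target hfd one_ne_zero
    rwa [hΨx] at this
  have hinv : ContDiffAt ℂ 1 e.symm x := by
    have := hcd.to_localInverse hfd one_ne_zero
    rw [hΨx] at this
    exact this
  have hsx : e.symm x = x := by
    have h1 := e.left_inv hxs
    rw [hec, hΨx] at h1
    exact h1
  have hev : ∀ᶠ w in 𝓝 x, w ∈ e.target ∧ ContDiffAt ℂ 1 e.symm w :=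
    (show ∀ᶠ w in 𝓝 x, w ∈ e.target from e.open_target.mem_nhds hxt).and
      (hinv.eventually (by simp))
  obtain ⟨r, hr, hball⟩ := Metric.eventually_nhds_iff_ball.1 hev
  refine ⟨e.symm, r, hr, hsx, ?_, ?_, ?_⟩
  · intro w hw
    exact ((hball w hw).2.differentiableAt one_ne_zero).differentiableWithinAt
  · intro w hw
    have h1 : Ψ (e.symm w) = w := by
      rw [← hec]
      exact e.right_inv (hball w hw).1
    have h2 : w - x = (e.symm w - x) + R (G (e.symm w) - G x - L (e.symm w - x)) := by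
      have h3 : e.symm w + R (G (e.symm w) - G x - L (e.symm w - x)) = w := h1
      rw [sub_add_eq_add_sub, h3]
    rw [h2, map_add, hLR]
    abel
  · have h1 : HasFDerivAt e.symm (((ContinuousLinearEquiv.refl ℂ E).symm : E ≃L[ℂ] E) : E →L[ℂ] E)
        x := by
      apply e.hasFDerivAt_symm hxt
      rw [hec, hsx]
      exact hfd
    exact h1

end chart

section main

variable {k : Type*} [Field k] [Algebra k ℂ] {N σ : Type*} [Fintype N]
variable {F : (N → ℂ) → σ → ℂ} {Pd : N → σ → MvPolynomial σ k} {D : Set (N → ℂ)}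

/-- an arc in a given tangent direction -/
theorem arc_dir (hD : IsOpen D)
    (hF : ∀ x ∈ D, ∀ s, HasFDerivAt (fun y => F y s) (∑ a, aeval (F x) (Pd a s) •
      ContinuousLinearMap.proj (R := ℂ) (φ := fun _ : N => ℂ) a) x)
    {x : N → ℂ} (hx : x ∈ D) {m : ℕ} (p : Fin m → MvPolynomial σ k)
    (hp0 : ∀ j, ev F (p j) x = 0)
    (hpi : LinearIndependent ℂ (fun j => fun a => ev F (pder Pd a (p j)) x))
    (hps : ∀ P, ev F P x = 0 → (fun a => ev F (pder Pd a P) x) ∈
        Submodule.span ℂ (Set.range fun j => fun a => ev F (pder Pd a (p j)) x))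
    (v : N → ℂ) (hv : ∀ j, ∑ a, ev F (pder Pd a (p j)) x * v a = 0) :
    ∃ γ : ℂ → N → ℂ, AnalyticAt ℂ γ 0 ∧ γ 0 = x ∧ HasDerivAt γ v 0 ∧
      ∀ P : MvPolynomial σ k, ev F P x = 0 → ∀ᶠ s in 𝓝 0, ev F P (γ s) = 0 := by
  set g : Fin m → N → ℂ := fun j a => ev F (pder Pd a (p j)) x with hg
  obtain ⟨R, hR⟩ := exists_right_inv g hpi
  set L : (N → ℂ) →L[ℂ] (Fin m → ℂ) := ContinuousLinearMap.pi fun i => ∑ a, g i a •
      ContinuousLinearMap.proj (R := ℂ) (φ := fun _ : N => ℂ) a with hL
  have hLa : ∀ v i, L v i = ∑ a, g i a * v a := by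
    intro v i
    simp [hL]
  obtain ⟨Θ, r, hr, h1, h2, h3, h4⟩ := subm_chart' (fun y i => ev F (p i) y) L
    (LinearMap.toContinuousLinearMap R)
    (fun c => by ext i; rw [hLa]; exact hR c i) x (contDiffAt_pi.2 fun j => contDiffAt_ev hD hF hx (p j))
    (hasFDerivAt_pi.2 fun j => hasFDerivAt_ev (hF x hx) (p j))
  set ψ : ℂ → N → ℂ := fun s => x + s • v with hψ
  have hψ0 : ψ 0 = x := by simp [hψ]
  have hψd : Differentiable ℂ ψ := by
    intro s
    exact (differentiableAt_const x).add (differentiableAt_id.smul_const v)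
  have hψ' : HasDerivAt ψ v 0 := by
    have := ((hasDerivAt_id (0 : ℂ)).smul_const v).const_add x
    rw [one_smul] at this
    exact this
  have hball : ∀ᶠ s in 𝓝 (0 : ℂ), ψ s ∈ Metric.ball x r := by
    have h1 : ContinuousAt ψ 0 := (hψd _).continuousAt
    apply h1
    rw [hψ0]
    exact Metric.ball_mem_nhds x hr
  have hγan : AnalyticAt ℂ (fun s => Θ (ψ s)) 0 := by
    rw [Complex.analyticAt_iff_eventually_differentiableAt]
    filter_upwards [hball] with s hs
    have h1 : DifferentiableAt ℂ Θ (ψ s) := (h2 _ hs).differentiableAt (Metric.isOpen_ball.mem_nhds hs)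
    exact h1.comp s (hψd s)
  have hval : ∀ᶠ s in 𝓝 (0 : ℂ), ∀ j, ev F (p j) (Θ (ψ s)) = 0 := by
    filter_upwards [hball] with s hs j
    have h5 := congrFun (h3 _ hs) j
    simp only [Pi.add_apply, hLa, Pi.sub_apply, hp0 j, zero_add] at h5
    rw [h5]
    have h6 : ∑ a, g j a * (ψ s a - x a) = s * ∑ a, g j a * v a := by
      rw [Finset.mul_sum]
      refine Finset.sum_congr rfl fun a _ => ?_
      simp [hψ]
      ring
    rw [h6, hv j, mul_zero]
  refine ⟨fun s => Θ (ψ s), hγan, ?_, ?_, ?_⟩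
  · simp only [hψ0, h1]
  · have h5 : HasFDerivAt Θ (ContinuousLinearMap.id ℂ (N → ℂ)) (ψ 0) := by
      rw [hψ0]
      exact h4
    exact h5.comp_hasDerivAt 0 hψ'
  · intro P hP
    refine jlem (D := D) (Pd := Pd) hD hF hx p ?_ hγan (by simp only [hψ0, h1])
      (fun j => hval.mono fun s hs => hs j) hP
    intro P hP
    exact span_descent x (fun j a => pder Pd a (p j)) (fun a => pder Pd a P) (hps P hP)

/-- an arc in a given tangent direction, parametrised by the coordinate `o` -/
theorem arc_dir_o [DecidableEq N] (hD : IsOpen D)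
    (hF : ∀ x ∈ D, ∀ s, HasFDerivAt (fun y => F y s) (∑ a, aeval (F x) (Pd a s) •
      ContinuousLinearMap.proj (R := ℂ) (φ := fun _ : N => ℂ) a) x)
    (o : N) {x : N → ℂ} (hx : x ∈ D) {m : ℕ} (p : Fin m → MvPolynomial σ k)
    (hp0 : ∀ j, ev F (p j) x = 0)
    (hpi : LinearIndependent ℂ (fun j => fun a => ev F (pder Pd a (p j)) x))
    (hps : ∀ P, ev F P x = 0 → (fun a => ev F (pder Pd a P) x) ∈
        Submodule.span ℂ (Set.range fun j => fun a => ev F (pder Pd a (p j)) x))
    (ho : (Pi.single o 1 : N → ℂ) ∉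
        Submodule.span ℂ (Set.range fun j => fun a => ev F (pder Pd a (p j)) x))
    (v : N → ℂ) (hv : ∀ j, ∑ a, ev F (pder Pd a (p j)) x * v a = 0) (hvo : v o = 1) :
    ∃ γ : ℂ → N → ℂ, AnalyticAt ℂ γ (x o) ∧ γ (x o) = x ∧ HasDerivAt γ v (x o) ∧
      (∀ᶠ τ in 𝓝 (x o), γ τ o = τ) ∧
      ∀ P : MvPolynomial σ k, ev F P x = 0 → ∀ᶠ τ in 𝓝 (x o), ev F P (γ τ) = 0 := by
  set G : Option (Fin m) → (N → ℂ) → ℂ := fun i => i.elim (fun y => y o) (fun j => ev F (p j))
    with hG
  set g : Option (Fin m) → N → ℂ := fun i => i.elim (Pi.single o 1)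
    (fun j => fun a => ev F (pder Pd a (p j)) x) with hg
  have hli : LinearIndependent ℂ g := by
    rw [linearIndependent_option]
    exact ⟨hpi, ho⟩
  obtain ⟨R, hR⟩ := exists_right_inv g hli
  set L : (N → ℂ) →L[ℂ] (Option (Fin m) → ℂ) := ContinuousLinearMap.pi fun i => ∑ a, g i a •
      ContinuousLinearMap.proj (R := ℂ) (φ := fun _ : N => ℂ) a with hL
  have hLa : ∀ v i, L v i = ∑ a, g i a * v a := by
    intro v i
    simp [hL]
  have hgo : ∀ w : N → ℂ, ∑ a, g none a * w a = w o := by
    intro w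
    rw [Finset.sum_eq_single o]
    · simp [hg]
    · intro a _ ha
      simp [hg, ha]
    · intro h
      exact absurd (Finset.mem_univ o) h
  obtain ⟨Θ, r, hr, h1, h2, h3, h4⟩ := subm_chart' (fun y i => G i y) L
    (LinearMap.toContinuousLinearMap R)
    (fun c => by ext i; rw [hLa]; exact hR c i) x (contDiffAt_pi.2 (by
      rintro (_ | j)
      · exact (ContinuousLinearMap.proj (R := ℂ) (φ := fun _ : N => ℂ) o).contDiff.contDiffAt
      · exact contDiffAt_ev hD hF hx (p j))) (hasFDerivAt_pi.2 (by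
      rintro (_ | j)
      · have h1 : (∑ a, g none a • ContinuousLinearMap.proj (R := ℂ) (φ := fun _ : N => ℂ) a) =
            ContinuousLinearMap.proj (R := ℂ) (φ := fun _ : N => ℂ) o := by
          ext v
          rw [sum_apply, Finset.sum_eq_single o]
          · simp [hg]
          · intro a _ ha
            simp [hg, ha]
          · simp
        rw [h1]
        exact (ContinuousLinearMap.proj (R := ℂ) (φ := fun _ : N => ℂ) o).hasFDerivAt
      · exact hasFDerivAt_ev (hF x hx) (p j)))
  set ψ : ℂ → N → ℂ := fun s => x + (s - x o) • v with hψ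
  have hψ0 : ψ (x o) = x := by simp [hψ]
  have hψd : Differentiable ℂ ψ := by
    intro s
    exact (differentiableAt_const x).add ((differentiableAt_id.sub_const _).smul_const v)
  have hψ' : HasDerivAt ψ v (x o) := by
    have := (((hasDerivAt_id (x o)).sub_const (x o)).smul_const v).const_add x
    rw [one_smul] at this
    exact this
  have hball : ∀ᶠ s in 𝓝 (x o), ψ s ∈ Metric.ball x r := by
    have h1 : ContinuousAt ψ (x o) := (hψd _).continuousAt
    apply h1
    rw [hψ0]
    exact Metric.ball_mem_nhds x hr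
  have hγan : AnalyticAt ℂ (fun s => Θ (ψ s)) (x o) := by
    rw [Complex.analyticAt_iff_eventually_differentiableAt]
    filter_upwards [hball] with s hs
    have h1 : DifferentiableAt ℂ Θ (ψ s) := (h2 _ hs).differentiableAt (Metric.isOpen_ball.mem_nhds hs)
    exact h1.comp s (hψd s)
  have hval : ∀ᶠ s in 𝓝 (x o), ∀ j, ev F (p j) (Θ (ψ s)) = 0 := by
    filter_upwards [hball] with s hs j
    have h5 := congrFun (h3 _ hs) (some j)
    simp only [Pi.add_apply, hLa, Pi.sub_apply, hG, Option.elim_some, hp0 j, zero_add] at h5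
    rw [h5]
    have h6 : ∑ a, g (some j) a * (ψ s a - x a) = (s - x o) * ∑ a, g (some j) a * v a := by
      rw [Finset.mul_sum]
      refine Finset.sum_congr rfl fun a _ => ?_
      simp [hψ]
      ring
    have h7 : ∑ a, g (some j) a * v a = 0 := hv j
    rw [h6, h7, mul_zero]
  refine ⟨fun s => Θ (ψ s), hγan, ?_, ?_, ?_, ?_⟩
  · simp only [hψ0, h1]
  · have h5 : HasFDerivAt Θ (ContinuousLinearMap.id ℂ (N → ℂ)) (ψ (x o)) := by
      rw [hψ0]
      exact h4
    exact h5.comp_hasDerivAt (x o) hψ'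
  · filter_upwards [hball] with s hs
    have h5 := congrFun (h3 _ hs) none
    simp only [Pi.add_apply, hLa, hG, Option.elim_none, hgo] at h5
    rw [h5]
    simp [hψ, hvo]
  · intro P hP
    refine jlem (D := D) (Pd := Pd) hD hF hx p ?_ hγan (by simp only [hψ0, h1])
      (fun j => hval.mono fun s hs => hs j) hP
    intro P hP
    exact span_descent x (fun j a => pder Pd a (p j)) (fun a => pder Pd a P) (hps P hP)

/-- a linear functional in the span of the differentials is locally constant on the common zero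
set -/
theorem const_lin (hD : IsOpen D)
    (hF : ∀ x ∈ D, ∀ s, HasFDerivAt (fun y => F y s) (∑ a, aeval (F x) (Pd a s) •
      ContinuousLinearMap.proj (R := ℂ) (φ := fun _ : N => ℂ) a) x)
    (lam : N → k) {x : N → ℂ} (hx : x ∈ D) {m : ℕ} (p : Fin m → MvPolynomial σ k)
    (hp0 : ∀ j, ev F (p j) x = 0)
    (hpi : LinearIndependent ℂ (fun j => fun a => ev F (pder Pd a (p j)) x))
    (hps : ∀ P, ev F P x = 0 → (fun a => ev F (pder Pd a P) x) ∈
        Submodule.span ℂ (Set.range fun j => fun a => ev F (pder Pd a (p j)) x))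
    (ho : (fun a => algebraMap k ℂ (lam a)) ∈
        Submodule.span ℂ (Set.range fun j => fun a => ev F (pder Pd a (p j)) x)) :
    ∀ᶠ y in 𝓝 x, (∀ j, ev F (p j) y = 0) →
      ∑ a, algebraMap k ℂ (lam a) * y a = ∑ a, algebraMap k ℂ (lam a) * x a := by
  obtain ⟨R, Θ, r, hR, hr, hΘx, hΘd, hΘ, hsurj⟩ := chart_of_indep (x := x)
    (fun j => ev F (p j)) (fun j => fun a => ev F (pder Pd a (p j)) x)
    (fun j => contDiffAt_ev hD hF hx (p j)) (fun j => hasFDerivAt_ev (hF x hx) (p j)) hpi
  filter_upwards [hsurj] with y hy hyz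
  obtain ⟨w, hw, rfl⟩ := hy
  set V : Set ℂ := {s : ℂ | x + s • (w - x) ∈ Metric.ball x r} with hV
  have hlc : Continuous fun s : ℂ => x + s • (w - x) := by fun_prop
  have hld : Differentiable ℂ fun s : ℂ => x + s • (w - x) := by fun_prop
  have hVo : IsOpen V := Metric.isOpen_ball.preimage hlc
  have hVc : Convex ℝ V := by
    intro a ha b hb t u ht hu htu
    have h1 : x + (t • a + u • b) • (w - x) =
        t • (x + a • (w - x)) + u • (x + b • (w - x)) := by
      have h2 : t • (x + a • (w - x)) + u • (x + b • (w - x)) =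
        (t + u) • x + (t • a + u • b) • (w - x) := by
        simp only [smul_add, add_smul, smul_assoc]
        abel
      rw [h2, htu, one_smul]
    change _ ∈ Metric.ball x r
    rw [h1]
    exact convex_ball x r ha hb ht hu htu
  have h0V : (0 : ℂ) ∈ V := by
    simp [hV, hr]
  have h1V : (1 : ℂ) ∈ V := by
    have h1 : x + (1 : ℂ) • (w - x) = w := by simp
    change _ ∈ Metric.ball x r
    rw [h1]
    exact hw
  set φ : ℂ → N → ℂ := fun s => Θ (x + s • (w - x)) with hφ
  have hφd : DifferentiableOn ℂ φ V := by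
    intro s hs
    have h1 : DifferentiableAt ℂ Θ (x + s • (w - x)) :=
      (hΘd _ hs).differentiableAt (Metric.isOpen_ball.mem_nhds hs)
    exact (h1.comp s (hld s)).differentiableWithinAt
  have hφan : AnalyticOnNhd ℂ φ V := hφd.analyticOnNhd hVo
  have hφ0 : φ 0 = x := by simp [hφ, hΘx]
  have hφ1 : φ 1 = Θ w := by simp [hφ]
  have hzero : ∀ s ∈ V, ∀ j, ev F (p j) (φ s) = 0 := by
    intro s hs j
    have h1 := hΘ _ hs j
    have h2 := hΘ _ hw j
    rw [hyz j, hp0 j, zero_add] at h2
    rw [hφ]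
    simp only
    rw [h1, hp0 j, zero_add]
    have h3 : ∑ a, ev F (pder Pd a (p j)) x * ((x + s • (w - x)) a - x a) =
        s * ∑ a, ev F (pder Pd a (p j)) x * (w a - x a) := by
      rw [Finset.mul_sum]
      refine Finset.sum_congr rfl fun a _ => ?_
      simp
      ring
    rw [h3, ← h2, mul_zero]
  -- the relations persist near `0`
  have hrel : ∀ P : MvPolynomial σ k, ev F P x = 0 → ∀ᶠ s in 𝓝 (0 : ℂ), ev F P (φ s) = 0 := by
    intro P hP
    refine jlem (D := D) (Pd := Pd) hD hF hx p ?_ (hφan 0 h0V) hφ0 ?_ hP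
    · intro P hP
      exact span_descent x (fun j a => pder Pd a (p j)) (fun a => pder Pd a P) (hps P hP)
    · intro j
      filter_upwards [hVo.mem_nhds h0V] with s hs
      exact hzero s hs j
  have hevC : ∀ (c : k) (y : N → ℂ), ev F (C c : MvPolynomial σ k) y = algebraMap k ℂ c := by
    intro c y
    simp [ev]
  obtain ⟨C0, C', hC0, hC⟩ := span_descent x (fun j a => pder Pd a (p j))
    (fun a => (C (lam a) : MvPolynomial σ k)) (by
      convert ho using 1
      funext a
      exact hevC _ _)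
  have hmem : ∀ᶠ s in 𝓝 (0 : ℂ), φ s ∈ D := by
    have h1 := (hφan 0 h0V).continuousAt
    apply h1
    rw [hφ0]
    exact hD.mem_nhds hx
  have hne : ∀ᶠ s in 𝓝 (0 : ℂ), ev F C0 (φ s) ≠ 0 := by
    have h1 : ContinuousAt (fun s => ev F C0 (φ s)) 0 :=
      (analyticAt_ev_comp hD hF (hφan 0 h0V) (by rw [hφ0]; exact hx) C0).continuousAt
    apply h1.eventually_ne
    rw [hφ0]
    exact hC0
  set lf' : ℂ → ℂ := fun s => ∑ a, algebraMap k ℂ (lam a) * φ s a with hlf
  have hcomp : ∀ s ∈ V, ∀ a, DifferentiableAt ℂ (fun s => φ s a) s := by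
    intro s hs a
    exact ((ContinuousLinearMap.proj (R := ℂ) (φ := fun _ : N => ℂ) a).analyticAt _ |>.fun_comp
      (hφan s hs)).differentiableAt
  have hder : ∀ᶠ s in 𝓝 (0 : ℂ), deriv lf' s = 0 := by
    have hall : ∀ᶠ s in 𝓝 (0 : ℂ), ∀ a,
        ev F (C0 * (C (lam a)) - ∑ j, C' j * pder Pd a (p j))
          (φ s) = 0 := by
      rw [eventually_all]
      intro a
      exact hrel _ (hC a)
    filter_upwards [hall, hmem, hne, hVo.mem_nhds h0V] with s h1 h2 h3 h4
    have hd : DifferentiableAt ℂ φ s := (hφan s h4).differentiableAt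
    have h5 : ∀ j, (∑ a, ev F (pder Pd a (p j)) (φ s) * deriv φ s a) = 0 := by
      intro j
      have h6 := (hasDerivAt_ev_comp hF hd h2 (p j)).deriv
      rw [← h6]
      have h7 : (fun s => ev F (p j) (φ s)) =ᶠ[𝓝 s] fun _ => (0 : ℂ) := by
        filter_upwards [hVo.mem_nhds h4] with s' hs'
        exact hzero s' hs' j
      rw [h7.deriv_eq]
      simp
    have h6 : ∑ a, deriv φ s a * ev F (C0 * (C (lam a)) -
        ∑ j, C' j * pder Pd a (p j)) (φ s) = 0 := by
      apply Finset.sum_eq_zero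
      intro a _
      rw [h1 a, mul_zero]
    simp only [ev_sub, ev_mul, ev_sum, mul_sub, Finset.sum_sub_distrib, hevC] at h6
    have h7 : ∑ a, deriv φ s a * ∑ j, ev F (C' j) (φ s) * ev F (pder Pd a (p j)) (φ s) = 0 := by
      simp only [Finset.mul_sum]
      rw [Finset.sum_comm]
      apply Finset.sum_eq_zero
      intro j _
      have h8 : ∑ a, deriv φ s a * (ev F (C' j) (φ s) * ev F (pder Pd a (p j)) (φ s)) =
          ev F (C' j) (φ s) * ∑ a, ev F (pder Pd a (p j)) (φ s) * deriv φ s a := by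
        rw [Finset.mul_sum]
        exact Finset.sum_congr rfl fun a _ => by ring
      rw [h8, h5 j, mul_zero]
    rw [h7, sub_zero] at h6
    have h8 : ∑ a, deriv φ s a * (ev F C0 (φ s) * algebraMap k ℂ (lam a)) =
        (∑ a, algebraMap k ℂ (lam a) * deriv φ s a) * ev F C0 (φ s) := by
      rw [Finset.sum_mul]
      exact Finset.sum_congr rfl fun a _ => by ring
    rw [h8] at h6
    have h9 : deriv lf' s = ∑ a, algebraMap k ℂ (lam a) * deriv φ s a := by
      have h10 : HasDerivAt lf' (∑ a, algebraMap k ℂ (lam a) * deriv φ s a) s := by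
        have := HasDerivAt.fun_sum (u := Finset.univ) (A := fun a s => algebraMap k ℂ (lam a) * φ s a)
          (A' := fun a => algebraMap k ℂ (lam a) * deriv φ s a) (x := s) (fun a _ =>
            ((hasDerivAt_pi.1 hd.hasDerivAt) a).const_mul _)
        exact this
      exact h10.deriv
    rw [h9]
    exact (mul_eq_zero.1 h6).resolve_right h3
  -- the functional is constant
  have hcoord : AnalyticOnNhd ℂ lf' V := by
    intro s hs
    exact Finset.analyticAt_fun_sum _ fun a _ => analyticAt_const.mul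
      ((ContinuousLinearMap.proj (R := ℂ) (φ := fun _ : N => ℂ) a).analyticAt _ |>.fun_comp
        (hφan s hs))
  have hconst : Set.EqOn lf' (fun _ => lf' 0) V := by
    refine hcoord.eqOn_of_preconnected_of_eventuallyEq (fun _ _ => analyticAt_const)
      hVc.isPreconnected h0V ?_
    have h1 : AnalyticAt ℂ lf' 0 := hcoord 0 h0V
    have h2 : analyticOrderAt (deriv lf') 0 = ⊤ := analyticOrderAt_eq_top.2 hder
    have h3 := h1.analyticOrderAt_deriv_add_one
    rw [h2, top_add] at h3
    have h4 := analyticOrderAt_eq_top.1 h3.symm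
    filter_upwards [h4] with s hs
    exact sub_eq_zero.1 hs
  have h1 := hconst h1V
  simp only [hlf, hφ1, hφ0] at h1
  exact h1

end main

/-- a set of points on which a function is locally constant has countably many values -/
lemma countable_values' {N : Type*} [Finite N] (f : (N → ℂ) → ℂ) (Z : Set (N → ℂ))
    (hZ : ∀ x ∈ Z, ∀ᶠ y in 𝓝 x, y ∈ Z → f y = f x) : (f '' Z).Countable := by
  obtain ⟨t, htZ, htc, hcov⟩ := TopologicalSpace.countable_cover_nhdsWithin
    (f := fun x => {y | f y = f x}) (s := Z) (fun x hx => by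
      rw [mem_nhdsWithin_iff_eventually]
      exact hZ x hx)
  refine (htc.image f).mono ?_
  rintro _ ⟨x, hx, rfl⟩
  have h1 := hcov hx
  simp only [Set.mem_iUnion, Set.mem_ofPred_eq] at h1
  obtain ⟨y, hy, hxy⟩ := h1
  exact ⟨y, hy, hxy.symm⟩

/-- a direction annihilated by the given functionals and by no other one of a countable family -/
lemma exists_dir {N ι Λ : Type*} [Fintype N] [Fintype ι] [Countable Λ] (g : ι → N → ℂ)
    (hg : LinearIndependent ℂ g) (lam : Λ → N → ℂ) :
    ∃ v : N → ℂ, (∀ j, ∑ a, g j a * v a = 0) ∧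
      ∀ q, lam q ∉ Submodule.span ℂ (Set.range g) → ∑ a, lam q a * v a ≠ 0 := by
  classical
  obtain ⟨R, hR⟩ := exists_right_inv g hg
  -- the projections of the basis vectors
  set b : N → N → ℂ := fun a => Pi.single a 1 - R (fun j => g j a) with hb
  have hgb : ∀ j a, ∑ c, g j c * b a c = 0 := by
    intro j a
    have h1 : ∑ c, g j c * b a c = ∑ c, g j c * (Pi.single a (1 : ℂ) : N → ℂ) c -
        ∑ c, g j c * R (fun j => g j a) c := by
      rw [← Finset.sum_sub_distrib]
      exact Finset.sum_congr rfl fun c _ => by simp [hb]; ring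
    rw [h1, hR, Finset.sum_eq_single a]
    · simp
    · intro c _ hc
      simp [hc]
    · intro h
      exact absurd (Finset.mem_univ a) h
  have hlb : ∀ q, lam q ∉ Submodule.span ℂ (Set.range g) → ∃ a, ∑ c, lam q c * b a c ≠ 0 := by
    intro q hq
    by_contra hcon
    push Not at hcon
    apply hq
    rw [Submodule.mem_span_range_iff_exists_fun]
    refine ⟨fun j => ∑ c, lam q c * R (Pi.single j 1) c, ?_⟩
    funext a
    have h1 := hcon a
    have h2 : ∑ c, lam q c * b a c = lam q a - ∑ c, lam q c * R (fun j => g j a) c := by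
      have h3 : ∑ c, lam q c * b a c = ∑ c, lam q c * (Pi.single a (1 : ℂ) : N → ℂ) c -
          ∑ c, lam q c * R (fun j => g j a) c := by
        rw [← Finset.sum_sub_distrib]
        exact Finset.sum_congr rfl fun c _ => by simp [hb]; ring
      rw [h3, Finset.sum_eq_single a]
      · simp
      · intro c _ hc
        simp [hc]
      · intro h
        exact absurd (Finset.mem_univ a) h
    rw [h2, sub_eq_zero] at h1
    rw [h1]
    have h4 : R (fun j => g j a) = ∑ j, g j a • R (Pi.single j 1) := by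
      conv_lhs => rw [← Finset.univ_sum_single (fun j => g j a)]
      rw [map_sum]
      refine Finset.sum_congr rfl fun j _ => ?_
      rw [← map_smul]
      congr 1
      rw [← Pi.single_smul]
      simp
    rw [h4]
    simp only [Finset.sum_apply, Pi.smul_apply, smul_eq_mul, Finset.mul_sum, Finset.sum_mul]
    rw [Finset.sum_comm]
    exact Finset.sum_congr rfl fun j _ => Finset.sum_congr rfl fun c _ => by ring
  set e := Fintype.equivFin N with he
  set pol : Λ → Polynomial ℂ := fun q => ∑ a, Polynomial.C (∑ c, lam q c * b a c) *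
    Polynomial.X ^ (e a : ℕ) with hpol
  have hpol0 : ∀ q, lam q ∉ Submodule.span ℂ (Set.range g) → pol q ≠ 0 := by
    intro q hq h0
    obtain ⟨a, ha⟩ := hlb q hq
    apply ha
    have h1 := congrArg (fun p => Polynomial.coeff p (e a : ℕ)) h0
    simp only [hpol, Polynomial.finsetSum_coeff, Polynomial.coeff_C_mul, Polynomial.coeff_X_pow,
      Polynomial.coeff_zero] at h1
    rw [Finset.sum_eq_single a] at h1
    · simpa using h1
    · intro c _ hc
      have : (e a : ℕ) ≠ (e c : ℕ) := by
        intro h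
        exact hc (e.injective (Fin.ext h)).symm
      simp [this]
    · intro h
      exact absurd (Finset.mem_univ a) h
  have hcount : (⋃ q ∈ {q | lam q ∉ Submodule.span ℂ (Set.range g)},
      ((pol q).roots.toFinset : Set ℂ)).Countable := by
    apply Set.Countable.biUnion (Set.to_countable _)
    intro q _
    exact (Finset.finite_toSet _).countable
  obtain ⟨s, hs⟩ : ∃ s : ℂ, s ∉ (⋃ q ∈ {q | lam q ∉ Submodule.span ℂ (Set.range g)},
      ((pol q).roots.toFinset : Set ℂ)) := by
    by_contra hcon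
    push Not at hcon
    have h1 : (Set.univ : Set ℂ).Countable := hcount.mono fun s _ => hcon s
    exact not_countable_complex h1
  refine ⟨fun c => ∑ a, s ^ (e a : ℕ) * b a c, ?_, ?_⟩
  · intro j
    simp only [Finset.mul_sum]
    rw [Finset.sum_comm]
    apply Finset.sum_eq_zero
    intro a _
    have h1 : ∑ c, g j c * (s ^ (e a : ℕ) * b a c) = s ^ (e a : ℕ) * ∑ c, g j c * b a c := by
      rw [Finset.mul_sum]
      exact Finset.sum_congr rfl fun c _ => by ring
    rw [h1, hgb, mul_zero]
  · intro q hq h0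
    apply hs
    rw [Set.mem_iUnion₂]
    refine ⟨q, hq, ?_⟩
    rw [Finset.mem_coe, Multiset.mem_toFinset, Polynomial.mem_roots (hpol0 q hq)]
    change Polynomial.eval s (pol q) = 0
    rw [← h0]
    simp only [hpol, Polynomial.eval_finsetSum, Polynomial.eval_mul, Polynomial.eval_C,
      Polynomial.eval_pow, Polynomial.eval_X, Finset.mul_sum]
    rw [Finset.sum_comm]
    refine Finset.sum_congr rfl fun a _ => ?_
    rw [Finset.sum_mul]
    exact Finset.sum_congr rfl fun c _ => by ring

/-- **Arcs in a generic direction.** -/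
theorem exists_arcs_dir {k : Type} [Field k] [Countable k] [Algebra k ℂ] {N σ : Type} [Fintype N]
    [Countable σ] (D : Set (N → ℂ)) (hD : IsOpen D)
    (F : (N → ℂ) → σ → ℂ) (Pd : N → σ → MvPolynomial σ k)
    (hF : ∀ x ∈ D, ∀ s, HasFDerivAt (fun y => F y s) (∑ a, aeval (F x) (Pd a s) •
      ContinuousLinearMap.proj (R := ℂ) (φ := fun _ : N => ℂ) a) x) :
    ∃ E : Set ℂ, E.Countable ∧ ∀ x ∈ D,
      ∃ γ : ℂ → N → ℂ, AnalyticAt ℂ γ 0 ∧ γ 0 = x ∧
        (∀ P : MvPolynomial σ k, aeval (F x) P = 0 → ∀ᶠ s in 𝓝 0, aeval (F (γ s)) P = 0) ∧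
        ∀ lam : N → k, ∑ a, algebraMap k ℂ (lam a) * x a ∉ E →
          ∀ C : ℂ, ¬ ∀ᶠ s in 𝓝 0, ∑ a, algebraMap k ℂ (lam a) * γ s a = C := by
  classical
  have hcount : Countable (MvPolynomial σ k) := by
    rw [← Cardinal.mk_le_aleph0_iff]
    refine (MvPolynomial.cardinalMk_le_max_lift (σ := σ) (R := k)).trans ?_
    simp only [max_le_iff, Cardinal.lift_le_aleph0, Cardinal.mk_le_aleph0_iff, le_refl]
    exact ⟨⟨inferInstance, inferInstance⟩, trivial⟩
  set Z : (N → k) × (Σ m : ℕ, Fin m → MvPolynomial σ k) → Set (N → ℂ) := fun q =>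
    {x | x ∈ D ∧ (∀ j, ev F (q.2.2 j) x = 0) ∧
      ∀ᶠ y in 𝓝 x, (∀ j, ev F (q.2.2 j) y = 0) →
        ∑ a, algebraMap k ℂ (q.1 a) * y a = ∑ a, algebraMap k ℂ (q.1 a) * x a} with hZ
  refine ⟨⋃ q, (fun x => ∑ a, algebraMap k ℂ (q.1 a) * x a) '' Z q, ?_, ?_⟩
  · apply Set.countable_iUnion
    intro q
    apply countable_values'
    intro x hx
    filter_upwards [hx.2.2] with y hy hyZ
    exact hy hyZ.2.1
  · intro x hx
    obtain ⟨m, p, hp0, hpi, hps⟩ := exists_basis_rel Pd F x
    obtain ⟨v, hv, hvl⟩ := exists_dir (fun j => fun a => ev F (pder Pd a (p j)) x) hpi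
      (fun (lam : N → k) a => algebraMap k ℂ (lam a))
    obtain ⟨γ, hγ, hγ0, hγv, hγP⟩ := arc_dir hD hF hx p hp0 hpi hps v hv
    refine ⟨γ, hγ, hγ0, hγP, ?_⟩
    intro lam hlam C hC
    have h1 : (fun a => algebraMap k ℂ (lam a)) ∉ Submodule.span ℂ
        (Set.range fun j => fun a => ev F (pder Pd a (p j)) x) := by
      intro h
      apply hlam
      rw [Set.mem_iUnion]
      exact ⟨(lam, ⟨m, p⟩), x, ⟨hx, hp0, const_lin hD hF lam hx p hp0 hpi hps h⟩, rfl⟩
    apply hvl lam h1
    have h2 : HasDerivAt (fun s => ∑ a, algebraMap k ℂ (lam a) * γ s a)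
        (∑ a, algebraMap k ℂ (lam a) * v a) 0 := by
      have := HasDerivAt.fun_sum (u := Finset.univ) (A := fun a s => algebraMap k ℂ (lam a) * γ s a)
        (A' := fun a => algebraMap k ℂ (lam a) * v a) (x := (0 : ℂ)) (fun a _ =>
          ((hasDerivAt_pi.1 hγv) a).const_mul _)
      exact this
    have h3 : (fun s => ∑ a, algebraMap k ℂ (lam a) * γ s a) =ᶠ[𝓝 0] fun _ => C := hC
    have h4 := h2.deriv
    rw [h3.deriv_eq] at h4
    rw [← h4]
    simp

/-- **Arcs in a generic direction, parametrised by a coordinate.** -/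
theorem exists_arcs_o {k : Type} [Field k] [Countable k] [Algebra k ℂ] {N σ : Type} [Fintype N]
    [DecidableEq N] [Countable σ] (o : N) (D : Set (N → ℂ)) (hD : IsOpen D)
    (F : (N → ℂ) → σ → ℂ) (Pd : N → σ → MvPolynomial σ k)
    (hF : ∀ x ∈ D, ∀ s, HasFDerivAt (fun y => F y s) (∑ a, aeval (F x) (Pd a s) •
      ContinuousLinearMap.proj (R := ℂ) (φ := fun _ : N => ℂ) a) x) :
    ∃ E : Set ℂ, E.Countable ∧ ∀ x ∈ D, x o ∉ E →
      ∃ γ : ℂ → N → ℂ, AnalyticAt ℂ γ (x o) ∧ γ (x o) = x ∧ (∀ᶠ τ in 𝓝 (x o), γ τ o = τ) ∧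
        (∀ P : MvPolynomial σ k, aeval (F x) P = 0 → ∀ᶠ τ in 𝓝 (x o), aeval (F (γ τ)) P = 0) ∧
        ∀ lam : N → k, ∑ a, algebraMap k ℂ (lam a) * x a ∉ E →
          ∀ C : ℂ, ¬ ∀ᶠ τ in 𝓝 (x o), ∑ a, algebraMap k ℂ (lam a) * γ τ a = C := by
  classical
  have hcount : Countable (MvPolynomial σ k) := by
    rw [← Cardinal.mk_le_aleph0_iff]
    refine (MvPolynomial.cardinalMk_le_max_lift (σ := σ) (R := k)).trans ?_
    simp only [max_le_iff, Cardinal.lift_le_aleph0, Cardinal.mk_le_aleph0_iff, le_refl]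
    exact ⟨⟨inferInstance, inferInstance⟩, trivial⟩
  set Z : (N → k) × (Σ m : ℕ, Fin m → MvPolynomial σ k) → Set (N → ℂ) := fun q =>
    {x | x ∈ D ∧ (∀ j, ev F (q.2.2 j) x = 0) ∧
      ∀ᶠ y in 𝓝 x, (∀ j, ev F (q.2.2 j) y = 0) →
        ∑ a, algebraMap k ℂ (q.1 a) * y a = ∑ a, algebraMap k ℂ (q.1 a) * x a} with hZ
  refine ⟨⋃ q, (fun x => ∑ a, algebraMap k ℂ (q.1 a) * x a) '' Z q, ?_, ?_⟩
  · apply Set.countable_iUnion
    intro q
    apply countable_values'
    intro x hx
    filter_upwards [hx.2.2] with y hy hyZ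
    exact hy hyZ.2.1
  · intro x hx hxo
    obtain ⟨m, p, hp0, hpi, hps⟩ := exists_basis_rel Pd F x
    obtain ⟨v, hv, hvl⟩ := exists_dir (fun j => fun a => ev F (pder Pd a (p j)) x) hpi
      (fun (lam : N → k) a => algebraMap k ℂ (lam a))
    have hmem : ∀ lam : N → k, ∑ a, algebraMap k ℂ (lam a) * x a ∉
        (⋃ q, (fun x => ∑ a, algebraMap k ℂ (q.1 a) * x a) '' Z q) →
        (fun a => algebraMap k ℂ (lam a)) ∉ Submodule.span ℂ
          (Set.range fun j => fun a => ev F (pder Pd a (p j)) x) := by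
      intro lam hlam h
      apply hlam
      rw [Set.mem_iUnion]
      exact ⟨(lam, ⟨m, p⟩), x, ⟨hx, hp0, const_lin hD hF lam hx p hp0 hpi hps h⟩, rfl⟩
    have hso : (fun a => algebraMap k ℂ ((Pi.single o 1 : N → k) a)) = Pi.single o 1 := by
      funext a
      by_cases h : a = o
      · subst h; simp
      · simp [h]
    have hsum : ∀ w : N → ℂ, ∑ a, algebraMap k ℂ ((Pi.single o 1 : N → k) a) * w a = w o := by
      intro w
      rw [Finset.sum_eq_single o]
      · simp
      · intro a _ ha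
        simp [ha]
      · intro h
        exact absurd (Finset.mem_univ o) h
    have ho := hmem (Pi.single o 1) (by rw [hsum]; exact hxo)
    have hvo : v o ≠ 0 := by
      have := hvl (Pi.single o 1) ho
      rwa [hsum] at this
    rw [hso] at ho
    obtain ⟨γ, hγ, hγ0, hγv, hγo, hγP⟩ := arc_dir_o hD hF o hx p hp0 hpi hps ho ((v o)⁻¹ • v) (by
      intro j
      simp only [Pi.smul_apply, smul_eq_mul]
      have h1 : ∑ a, ev F (pder Pd a (p j)) x * ((v o)⁻¹ * v a) =
          (v o)⁻¹ * ∑ a, ev F (pder Pd a (p j)) x * v a := by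
        rw [Finset.mul_sum]
        exact Finset.sum_congr rfl fun a _ => by ring
      rw [h1, hv j, mul_zero]) (by
      simp only [Pi.smul_apply, smul_eq_mul]
      exact inv_mul_cancel₀ hvo)
    refine ⟨γ, hγ, hγ0, hγo, hγP, ?_⟩
    intro lam hlam C hC
    apply hvl lam (hmem lam hlam)
    have h2 : HasDerivAt (fun s => ∑ a, algebraMap k ℂ (lam a) * γ s a)
        (∑ a, algebraMap k ℂ (lam a) * ((v o)⁻¹ • v) a) (x o) := by
      have := HasDerivAt.fun_sum (u := Finset.univ) (A := fun a s => algebraMap k ℂ (lam a) * γ s a)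
        (A' := fun a => algebraMap k ℂ (lam a) * ((v o)⁻¹ • v) a) (x := x o) (fun a _ =>
          ((hasDerivAt_pi.1 hγv) a).const_mul _)
      exact this
    have h3 : (fun s => ∑ a, algebraMap k ℂ (lam a) * γ s a) =ᶠ[𝓝 (x o)] fun _ => C := hC
    have h4 := h2.deriv
    rw [h3.deriv_eq] at h4
    simp only [deriv_const, Pi.smul_apply, smul_eq_mul] at h4
    have h5 : ∑ a, algebraMap k ℂ (lam a) * ((v o)⁻¹ * v a) =
        (v o)⁻¹ * ∑ a, algebraMap k ℂ (lam a) * v a := by
      rw [Finset.mul_sum]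
      exact Finset.sum_congr rfl fun a _ => by ring
    rw [h5] at h4
    exact (mul_eq_zero.1 h4.symm).resolve_left (inv_ne_zero hvo)

end Pool.Agent.Work.MP_8da9ea_nt

end

section

/-!
# Countable fields closed under a countable operation
-/

set_option autoImplicit false

namespace Pool.Agent.Work.MP_8da9ea_nt

open Submodule

/-- the closure step -/
noncomputable def stepF (E : IntermediateField ℚ ℂ → Set ℂ) (k : IntermediateField ℚ ℂ) :
    IntermediateField ℚ ℂ :=
  IntermediateField.adjoin ℚ ((k : Set ℂ) ∪ E k ∪ {x | IsAlgebraic k x})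

/-- the chain of fields -/
noncomputable def chainF (E : IntermediateField ℚ ℂ → Set ℂ) (S : Set ℂ) :
    ℕ → IntermediateField ℚ ℂ
  | 0 => IntermediateField.adjoin ℚ S
  | j + 1 => stepF E (chainF E S j)

variable {E : IntermediateField ℚ ℂ → Set ℂ} {S : Set ℂ}

lemma chainF_le_succ (j : ℕ) : chainF E S j ≤ chainF E S (j + 1) := fun _ hx =>
  IntermediateField.subset_adjoin _ _ (Or.inl (Or.inl hx))

lemma chainF_mono : Monotone (chainF E S) := monotone_nat_of_le_succ chainF_le_succ

lemma chainF_E (j : ℕ) : E (chainF E S j) ⊆ chainF E S (j + 1) := fun _ hx =>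
  IntermediateField.subset_adjoin _ _ (Or.inl (Or.inr hx))

lemma chainF_alg (j : ℕ) {x : ℂ} (hx : IsAlgebraic (chainF E S j) x) : x ∈ chainF E S (j + 1) :=
  IntermediateField.subset_adjoin _ _ (Or.inr hx)

lemma chainF_countable (hE : ∀ k : IntermediateField ℚ ℂ, Countable k → (E k).Countable)
    (hS : S.Countable) (j : ℕ) : Countable (chainF E S j) := by
  induction j with
  | zero => exact countable_adjoin S hS
  | succ j ih =>
    refine countable_adjoin _ ((?_ : Set.Countable _).union ?_)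
    · exact (Set.to_countable _ : ((chainF E S j : IntermediateField ℚ ℂ) : Set ℂ).Countable).union
        (hE _ ih)
    · exact Algebraic.countable (chainF E S j) ℂ

/-- the union of the chain -/
noncomputable def unionF (E : IntermediateField ℚ ℂ → Set ℂ) (S : Set ℂ) :
    IntermediateField ℚ ℂ := ⨆ j, chainF E S j

lemma mem_unionF {x : ℂ} : x ∈ unionF E S ↔ ∃ j, x ∈ chainF E S j := by
  have h1 : ((unionF E S : IntermediateField ℚ ℂ) : Set ℂ) = ⋃ j, (chainF E S j : Set ℂ) :=
    IntermediateField.coe_iSup_of_directed chainF_mono.directed_le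
  have h2 : x ∈ ((unionF E S : IntermediateField ℚ ℂ) : Set ℂ) ↔ ∃ j, x ∈ chainF E S j := by
    rw [h1, Set.mem_iUnion]
    rfl
  exact h2

lemma unionF_countable (hE : ∀ k : IntermediateField ℚ ℂ, Countable k → (E k).Countable)
    (hS : S.Countable) : Countable (unionF E S) := by
  have h1 : ((unionF E S : IntermediateField ℚ ℂ) : Set ℂ) = ⋃ j, (chainF E S j : Set ℂ) :=
    IntermediateField.coe_iSup_of_directed chainF_mono.directed_le
  have h2 : ((unionF E S : IntermediateField ℚ ℂ) : Set ℂ).Countable := by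
    rw [h1]
    refine Set.countable_iUnion fun j => ?_
    have := chainF_countable hE hS j
    exact Set.to_countable _
  exact h2.to_subtype

lemma subset_unionF : S ⊆ unionF E S := fun _ hx =>
  mem_unionF.2 ⟨0, IntermediateField.subset_adjoin _ _ hx⟩

/-- finitely many elements of the union lie in one member of the chain -/
lemma exists_chain_of_finset (s : Finset ℂ) (hs : ∀ x ∈ s, x ∈ unionF E S) :
    ∃ j, ∀ x ∈ s, x ∈ chainF E S j := by
  classical
  induction s using Finset.induction_on with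
  | empty => exact ⟨0, by simp⟩
  | insert a s _ ih =>
    obtain ⟨j, hj⟩ := ih fun x hx => hs x (Finset.mem_insert_of_mem hx)
    obtain ⟨i, hi⟩ := mem_unionF.1 (hs a (Finset.mem_insert_self a s))
    refine ⟨max i j, fun x hx => ?_⟩
    rcases Finset.mem_insert.1 hx with rfl | h
    · exact chainF_mono (le_max_left i j) hi
    · exact chainF_mono (le_max_right i j) (hj x h)

/-- a polynomial over the union comes from a member of the chain -/
lemma exists_poly_chain {σ : Type*} (P : MvPolynomial σ (unionF E S)) :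
    ∃ j, ∃ Q : MvPolynomial σ (chainF E S j), ∀ y : σ → ℂ, MvPolynomial.aeval y Q =
      MvPolynomial.aeval y P ∧ (Q = 0 → P = 0) := by
  classical
  obtain ⟨j, hj⟩ := exists_chain_of_finset (E := E) (S := S)
    (P.coeffs.image (fun c : unionF E S => (c : ℂ))) (by
      intro x hx
      obtain ⟨c, -, rfl⟩ := Finset.mem_image.1 hx
      exact c.2)
  have hle : chainF E S j ≤ unionF E S := fun x hx => mem_unionF.2 ⟨j, hx⟩
  have hmem : P ∈ Set.range (MvPolynomial.map
      (IntermediateField.inclusion hle : chainF E S j →+* unionF E S)) := by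
    rw [MvPolynomial.mem_range_map_iff_coeffs_subset]
    intro c hc
    exact ⟨⟨c, hj _ (Finset.mem_image_of_mem _ hc)⟩, rfl⟩
  obtain ⟨Q, hQ⟩ := hmem
  refine ⟨j, Q, fun y => ⟨?_, fun h => ?_⟩⟩
  · rw [← hQ, MvPolynomial.aeval_def, MvPolynomial.aeval_def, MvPolynomial.eval₂_map]
    rfl
  · rw [← hQ, h, map_zero]

lemma indep_unionF {σ : Type*} (y : σ → ℂ)
    (h : ∀ i, ∃ j, i ≤ j ∧ AlgebraicIndependent (chainF E S j) y) :
    AlgebraicIndependent (unionF E S) y := by
  rw [algebraicIndependent_iff]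
  intro P hP
  obtain ⟨i, Q, hQ⟩ := exists_poly_chain P
  obtain ⟨j, hij, hj⟩ := h i
  have hle := chainF_mono (E := E) (S := S) hij
  apply (hQ y).2
  have h1 : MvPolynomial.aeval y (MvPolynomial.map
      (IntermediateField.inclusion hle : chainF E S i →+* chainF E S j) Q) = 0 := by
    rw [MvPolynomial.aeval_def, MvPolynomial.eval₂_map]
    exact ((hQ y).1).trans hP
  have h2 := (algebraicIndependent_iff.1 hj) _ h1
  exact (map_eq_zero_iff _ (MvPolynomial.map_injective _
    (IntermediateField.inclusion hle : chainF E S i →+* chainF E S j).injective)).1 h2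

/-- the union is algebraically closed in `ℂ` -/
lemma unionF_alg {x : ℂ} (hx : IsAlgebraic (unionF E S) x) : x ∈ unionF E S := by
  classical
  obtain ⟨p, hp0, hp⟩ := hx
  obtain ⟨j, hj⟩ := exists_chain_of_finset (E := E) (S := S)
    (p.coeffs.image (fun c : unionF E S => (c : ℂ))) (by
      intro x hx
      obtain ⟨c, -, rfl⟩ := Finset.mem_image.1 hx
      exact c.2)
  have hle : chainF E S j ≤ unionF E S := fun x hx => mem_unionF.2 ⟨j, hx⟩
  have hmem : p ∈ Polynomial.lifts
      (IntermediateField.inclusion hle : chainF E S j →+* unionF E S) := by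
    rw [Polynomial.lifts_iff_coeffs_subset_range]
    intro c hc
    exact ⟨⟨c, hj _ (Finset.mem_image_of_mem _ hc)⟩, rfl⟩
  obtain ⟨q, hq⟩ := (Polynomial.mem_lifts p).1 hmem
  refine mem_unionF.2 ⟨j + 1, chainF_alg j ⟨q, ?_, ?_⟩⟩
  · rintro rfl
    apply hp0
    rw [← hq, Polynomial.map_zero]
  · rw [← hp, ← hq, Polynomial.aeval_def, Polynomial.aeval_def, Polynomial.eval₂_map]
    rfl

/-- pigeonhole: a finite family of antitone properties -/
lemma exists_of_finite {α : Type*} [Finite α] (P : ℕ → α → Prop)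
    (h : ∀ j, ∃ a, P j a) : ∃ a, ∀ i, ∃ j, i ≤ j ∧ P j a := by
  choose f hf using h
  obtain ⟨a, ha⟩ := Finite.exists_infinite_fiber f
  refine ⟨a, fun i => ?_⟩
  have h1 : (f ⁻¹' {a}).Infinite := Set.infinite_coe_iff.1 ha
  obtain ⟨j, hj, hij⟩ := h1.exists_gt i
  refine ⟨j, hij.le, ?_⟩
  have : f j = a := hj
  rw [← this]
  exact hf j

end Pool.Agent.Work.MP_8da9ea_nt

end

section

/-!
# The toric part: unconditional lower bounds
-/

set_option autoImplicit false

namespace Pool.Agent.Work.MP_8da9ea_nt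

open Submodule

variable {s n : ℕ}

/-- the rank of the `t` modulo `2 π i` -/
noncomputable def tRank (t : Fin s → ℂ) : ℕ :=
  Module.finrank ℚ (Submodule.span ℚ (Set.range t ∪ {2 * (Real.pi : ℂ) * Complex.I})) - 1

lemma cf_pi (ω₁ : ℂ) (t : Fin s → ℂ) (p : Fin n → ℂ) :
    2 * (Real.pi : ℂ) * Complex.I ∈ constField ω₁ t p :=
  IntermediateField.subset_adjoin _ _ (by simp)

lemma cf_exp (ω₁ : ℂ) (t : Fin s → ℂ) (p : Fin n → ℂ) (l : Fin s) :
    Complex.exp (t l) ∈ constField ω₁ t p :=
  IntermediateField.subset_adjoin _ _ (by simp)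

lemma algInd_pi : AlgebraicIndependent ℚ (fun _ : Fin 1 => 2 * (Real.pi : ℂ) * Complex.I) := by
  rw [algebraicIndependent_unique_type_iff]
  exact Pool.Agent.Work.LW.transcendental_two_pi_I

lemma tbound (ω₁ : ℂ) (t : Fin s → ℂ) (p : Fin n → ℂ)
    (ht : (∀ l, IsAlgebraic ℚ (t l)) ∨ tRank t ≤ 1) :
    ∃ u : Fin (tRank t) → ℂ, (∀ j, u j ∈ constField ω₁ t p) ∧ AlgebraicIndependent ℚ u := by
  classical
  rcases ht with ht | ht
  · -- algebraic numbers
    obtain ⟨J, hJ, hJc⟩ := exists_rel_basis (V := ℂ) (k := 0) ![] (linearIndependent_empty_type) t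
    have hJ' : LinearIndependent ℚ (fun j : J => t j) := hJ.comp Sum.inr Sum.inr_injective
    have hai := Pool.Agent.Work.LW.algebraicIndependent_exp (fun j : J => t j)
      (fun j => ht j) hJ'
    have hle : tRank t ≤ Fintype.card J := by
      have h0 : Set.range t ∪ Set.range (![] : Fin 0 → ℂ) = Set.range t := by simp
      rw [h0, add_zero] at hJc
      unfold tRank
      rw [Fintype.card_coe, hJc]
      by_cases hv : 2 * (Real.pi : ℂ) * Complex.I ∈ span ℚ (Set.range t)
      · have : span ℚ (Set.range t ∪ {2 * (Real.pi : ℂ) * Complex.I}) = span ℚ (Set.range t) := by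
          apply le_antisymm
          · rw [span_le]
            rintro x (h | h)
            · exact subset_span h
            · rw [Set.mem_singleton_iff] at h
              subst h
              exact hv
          · exact span_mono Set.subset_union_left
        rw [this]
        omega
      · have h1 : (Set.range t ∪ {2 * (Real.pi : ℂ) * Complex.I} : Set ℂ) =
            insert (2 * (Real.pi : ℂ) * Complex.I) (Set.range t) := by
          rw [Set.union_singleton]
        rw [h1, finrank_insert _ (Set.finite_range t) hv]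
        omega
    obtain ⟨f⟩ : Nonempty (Fin (tRank t) ↪ J) :=
      Function.Embedding.nonempty_of_card_le (by simpa using hle)
    refine ⟨fun j => Complex.exp (t (f j)), fun j => cf_exp _ _ _ _, ?_⟩
    exact hai.comp _ f.injective
  · refine ⟨fun _ => 2 * (Real.pi : ℂ) * Complex.I, fun _ => cf_pi _ _ _, ?_⟩
    have h1 : tRank t = 0 ∨ tRank t = 1 := by omega
    rcases h1 with h1 | h1
    · rw [h1]
      exact algInd_pi.comp (Fin.castLE (by omega)) (Fin.castLE_injective _)
    · rw [h1]
      exact algInd_pi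

end Pool.Agent.Work.MP_8da9ea_nt

end

section

/-!
# K1, algebraic preparations: transcendence bases, constants, finite extensions
-/

set_option autoImplicit false

namespace Pool.Agent.Work.MP_8da9ea_nt

open Pool.Agent.ED

section basis

variable {K M : Type*} [Field K] [Field M] [Algebra K M]

/-- a maximal algebraically independent subfamily containing a given one -/
lemma exists_max_indep {σ : Type*} [Fintype σ] [DecidableEq σ] (F : σ → M) (s0 : Finset σ)
    (hs0 : AlgebraicIndependent K (fun i : s0 => F i)) :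
    ∃ s : Finset σ, s0 ⊆ s ∧ AlgebraicIndependent K (fun i : s => F i) ∧
      ∀ j, IsAlgebraic (IntermediateField.adjoin K (Set.range fun i : s => F i)) (F j) := by
  classical
  obtain ⟨s, hs, hmax⟩ : ∃ s : Finset σ, (s0 ⊆ s ∧ AlgebraicIndependent K (fun i : s => F i)) ∧
      ∀ t : Finset σ, (s0 ⊆ t ∧ AlgebraicIndependent K (fun i : t => F i)) → t.card ≤ s.card := by
    have hne : ((Finset.univ : Finset (Finset σ)).filter
        (fun s : Finset σ => s0 ⊆ s ∧ AlgebraicIndependent K (fun i : s => F i))).Nonempty := by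
      refine ⟨s0, ?_⟩
      rw [Finset.mem_filter]
      exact ⟨Finset.mem_univ _, subset_rfl, hs0⟩
    obtain ⟨s, hs, hm⟩ := Finset.exists_max_image _ Finset.card hne
    rw [Finset.mem_filter] at hs
    exact ⟨s, hs.2, fun t ht => hm t (by rw [Finset.mem_filter]; exact ⟨Finset.mem_univ _, ht⟩)⟩
  refine ⟨s, hs.1, hs.2, ?_⟩
  intro j
  have hr : (Set.range fun i : s => F i) = F '' (s : Set σ) := by
    ext y
    simp
  rw [hr]
  by_contra hj
  have hj1 : Transcendental (Algebra.adjoin K (F '' (s : Set σ))) (F j) := by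
    intro h
    exact hj (IntermediateField.isAlgebraic_adjoin_iff.2 h)
  have hjs : j ∉ s := by
    intro hmem
    apply hj1
    exact isAlgebraic_algebraMap
      (⟨F j, Algebra.subset_adjoin ⟨j, hmem, rfl⟩⟩ : Algebra.adjoin K (F '' (s : Set σ)))
  have hs' : AlgebraicIndepOn K F (s : Set σ) := hs.2
  have h2 := hs'.insert hj1
  have h3 : AlgebraicIndependent K (fun i : (insert j s : Finset σ) => F i) := by
    have h4 : ((insert j s : Finset σ) : Set σ) = insert j (s : Set σ) := Finset.coe_insert j s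
    have h5 : AlgebraicIndepOn K F ((insert j s : Finset σ) : Set σ) := by rw [h4]; exact h2
    exact h5
  have h6 := hmax _ ⟨hs.1.trans (Finset.subset_insert j s), h3⟩
  rw [Finset.card_insert_of_notMem hjs] at h6
  omega

/-- passage to the ratio of two independent elements -/
lemma indep_ratio {g2 g3 : M} (h : AlgebraicIndependent K ![g2, g3]) :
    AlgebraicIndependent K ![g3 / g2, g2] := by
  have e1 : ∀ u v : M, AlgebraicIndependent K ![u, v] ↔
      AlgebraicIndependent K (fun o : Option Unit => o.elim u (fun _ => v)) := by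
    intro u v
    let e : Option Unit ≃ Fin 2 :=
      { toFun := fun o => o.elim 0 (fun _ => 1)
        invFun := ![none, some ()]
        left_inv := by rintro (_ | _) <;> rfl
        right_inv := by intro i; fin_cases i <;> rfl }
    have h1 : (fun o : Option Unit => o.elim u (fun _ => v)) = ![u, v] ∘ e := by
      funext o
      rcases o with _ | _ <;> rfl
    rw [h1, algebraicIndependent_equiv]
  have h' : AlgebraicIndependent K ![g3, g2] := by
    have h1 := h.comp ![1, 0] (by
      intro i j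
      fin_cases i <;> fin_cases j <;> simp)
    have h2 : (![g2, g3] ∘ ![1, 0]) = ![g3, g2] := by
      funext i
      fin_cases i <;> rfl
    rwa [h2] at h1
  have hg2 : g2 ≠ 0 := h.ne_zero 0
  rw [e1, AlgebraicIndependent.option_iff] at h' ⊢
  refine ⟨h'.1, fun h1 => h'.2 ?_⟩
  rw [Set.range_const] at h1 ⊢
  rw [← IntermediateField.isAlgebraic_adjoin_iff] at h1 ⊢
  have h2 : IsAlgebraic (IntermediateField.adjoin K {g2}) g2 :=
    isAlgebraic_algebraMap (⟨g2, IntermediateField.mem_adjoin_simple_self K g2⟩ :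
      IntermediateField.adjoin K {g2})
  have h3 := h1.mul h2
  rwa [div_mul_cancel₀ _ hg2] at h3

end basis

section const

variable {M : Type*} [Field M] [Algebra ℂ M]

/-- a countable field of definition for finitely many algebraic relations -/
lemma exists_countable_field {B T ι : Type*} [Finite T] [Finite ι] {b : B → M} (v : T → M)
    (hv : ∀ t, IsAlgebraic (IntermediateField.adjoin ℂ (Set.range b)) (v t)) (c : ι → ℂ) :
    ∃ C0 : IntermediateField ℚ ℂ, Countable C0 ∧ (∀ i, c i ∈ C0) ∧
      ∀ t, ¬ AlgebraicIndependent C0 (fun o : Option B => o.elim (v t) b) := by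
  classical
  have h1 : ∀ t, ∃ P : MvPolynomial (Option B) ℂ, P ≠ 0 ∧
      MvPolynomial.aeval (fun o : Option B => o.elim (v t) b) P = 0 := by
    intro t
    have h2 : ¬ AlgebraicIndependent ℂ (fun o : Option B => o.elim (v t) b) := by
      rw [AlgebraicIndependent.option_iff]
      rintro ⟨-, h3⟩
      exact h3 (IntermediateField.isAlgebraic_adjoin_iff.1 (hv t))
    rw [algebraicIndependent_iff] at h2
    push Not at h2
    obtain ⟨P, h3, h4⟩ := h2
    exact ⟨P, h4, h3⟩
  choose P hP0 hP using h1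
  set S : Set ℂ := Set.range c ∪ ⋃ t, ((P t).coeffs : Set ℂ) with hS
  have hSc : S.Countable := by
    refine (Set.finite_range c).countable.union ?_
    exact Set.countable_iUnion fun t => ((P t).coeffs.finite_toSet).countable
  refine ⟨IntermediateField.adjoin ℚ S, countable_adjoin S hSc, fun i =>
    IntermediateField.subset_adjoin _ _ (Or.inl ⟨i, rfl⟩), ?_⟩
  intro t hind
  have h2 : P t ∈ Set.range (MvPolynomial.map
      (algebraMap (IntermediateField.adjoin ℚ S) ℂ)) := by
    rw [MvPolynomial.mem_range_map_iff_coeffs_subset]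
    intro x hx
    exact ⟨⟨x, IntermediateField.subset_adjoin _ _ (Or.inr (Set.mem_iUnion.2 ⟨t, hx⟩))⟩, rfl⟩
  obtain ⟨P', hP'⟩ := h2
  have h3 := hP t
  rw [← hP', MvPolynomial.aeval_map_algebraMap] at h3
  have h4 := (algebraicIndependent_iff.1 hind) P' h3
  apply hP0 t
  rw [← hP', h4, map_zero]

end const

section fin

variable {K M : Type*} [Field K] [Field M] [Algebra K M]

/-- the family inside the field generated by a larger family -/
lemma fin_setup {B T : Type*} [Finite T] {b : B → M} (hb : AlgebraicIndependent K b) (v : T → M)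
    (hv : ∀ t, ¬ AlgebraicIndependent K (fun o : Option B => o.elim (v t) b))
    (hbv : ∀ s, b s ∈ IntermediateField.adjoin K (Set.range v)) :
    AlgebraicIndependent K
      (fun s => (⟨b s, hbv s⟩ : IntermediateField.adjoin K (Set.range v))) ∧
    FiniteDimensional (IntermediateField.adjoin K
      (Set.range (fun s => (⟨b s, hbv s⟩ : IntermediateField.adjoin K (Set.range v)))))
      (IntermediateField.adjoin K (Set.range v)) := by
  set L := IntermediateField.adjoin K (Set.range v) with hL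
  set b' : B → L := fun s => ⟨b s, hbv s⟩ with hb'
  have hind : AlgebraicIndependent K b' := AlgebraicIndependent.of_comp L.val hb
  refine ⟨hind, ?_⟩
  have hmem : ∀ t, v t ∈ L := fun t => IntermediateField.subset_adjoin K _ ⟨t, rfl⟩
  set v' : T → L := fun t => ⟨v t, hmem t⟩ with hv'
  set F := IntermediateField.adjoin K (Set.range b') with hF
  have halg : ∀ t, IsIntegral F (v' t) := by
    intro t
    have h1 : ¬ AlgebraicIndependent K (fun o : Option B => o.elim (v' t) b') := by
      intro h2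
      apply hv t
      have h3 := h2.map' (f := L.val) L.val.injective
      have h4 : (L.val ∘ fun o : Option B => o.elim (v' t) b') =
          (fun o : Option B => o.elim (v t) b) := by
        funext o
        rcases o with _ | _ <;> rfl
      rwa [h4] at h3
    rw [AlgebraicIndependent.option_iff] at h1
    have h2 : IsAlgebraic (Algebra.adjoin K (Set.range b')) (v' t) := by
      by_contra h3
      exact h1 ⟨hind, h3⟩
    exact (IntermediateField.isAlgebraic_adjoin_iff.2 h2).isIntegral
  have htop : IntermediateField.adjoin K (Set.range v') = ⊤ := by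
    apply IntermediateField.map_injective L.val
    rw [IntermediateField.adjoin_map]
    have h1 : L.val '' (Set.range v') = Set.range v := by
      rw [← Set.range_comp]
      rfl
    rw [h1, ← hL]
    have h2 : IntermediateField.map L.val ⊤ = L.val.fieldRange :=
      (AlgHom.fieldRange_eq_map L.val).symm
    rw [h2, IntermediateField.fieldRange_val]
  have hfd : FiniteDimensional F (IntermediateField.adjoin F (Set.range v')) := by
    apply IntermediateField.finiteDimensional_adjoin
    rintro _ ⟨t, rfl⟩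
    exact halg t
  have htop2 : IntermediateField.adjoin F (Set.range v') = ⊤ := by
    rw [eq_top_iff]
    intro x _
    have h1 : x ∈ IntermediateField.adjoin K (Set.range v') := by
      rw [htop]
      exact IntermediateField.mem_top
    have h2 : IntermediateField.adjoin K (Set.range v') ≤
        (IntermediateField.adjoin F (Set.range v')).restrictScalars K := by
      rw [IntermediateField.adjoin_le_iff]
      intro y hy
      exact IntermediateField.subset_adjoin F _ hy
    exact h2 h1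
  rw [htop2] at hfd
  exact Module.Finite.equiv (IntermediateField.topEquiv (F := F) (E := L)).toLinearEquiv

end fin

section der

variable {K : Type} [Field K] [CharZero K] {τ₀ : ℂ} [Algebra K (MG τ₀)]

/-- restriction of a derivation to an algebraic extension of a stable field -/
lemma der_restrict {B : Type} (L : IntermediateField K (MG τ₀)) (b : B → L)
    (hb : AlgebraicIndependent K b)
    [FiniteDimensional (IntermediateField.adjoin K (Set.range b)) L]
    (X : Derivation K (MG τ₀) (MG τ₀)) (m : B → L) (hX : ∀ s, X (b s) = m s) :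
    ∃ X' : Derivation K L L, (∀ s, X' (b s) = m s) ∧ ∀ u : L, X u = (X' u : MG τ₀) := by
  obtain ⟨X', hX'⟩ := exists_derivation hb m
  refine ⟨X', hX', ?_⟩
  set E : L → MG τ₀ := fun u => X u - (X' u : MG τ₀) with hE
  have hadd : ∀ u v, E (u + v) = E u + E v := by
    intro u v
    simp only [hE, map_add]
    push_cast
    rw [map_add]
    ring
  have hmul : ∀ u v, E (u * v) = L.val.toRingHom u * E v + L.val.toRingHom v * E u := by
    intro u v
    simp only [hE, Derivation.leibniz, smul_eq_mul]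
    push_cast
    rw [Derivation.leibniz]
    simp only [smul_eq_mul]
    change _ = (u : MG τ₀) * _ + (v : MG τ₀) * _
    ring
  have hF : ∀ u ∈ IntermediateField.adjoin K (Set.range b), E u = 0 := by
    intro u hu
    induction hu using IntermediateField.adjoin_induction with
    | mem x hx =>
      obtain ⟨s, rfl⟩ := hx
      simp only [hE, hX, hX', sub_self]
    | algebraMap x =>
      simp only [hE, Derivation.map_algebraMap]
      have h1 : ((algebraMap K L x : L) : MG τ₀) = algebraMap K (MG τ₀) x := rfl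
      rw [h1, Derivation.map_algebraMap]
      simp
    | add x y _ _ h1 h2 => rw [hadd, h1, h2, add_zero]
    | inv x _ h =>
      by_cases hx : x = 0
      · rw [hx, inv_zero]
        rw [hx] at h
        exact h
      · have h1 : E (x * x⁻¹) = 0 := by
          rw [mul_inv_cancel₀ hx]
          simp [hE]
        rw [hmul, h, mul_zero, add_zero] at h1
        exact (mul_eq_zero.1 h1).resolve_left (by
          change (x : MG τ₀) ≠ 0
          exact_mod_cast hx)
    | mul x y _ _ h1 h2 => rw [hmul, h1, h2, mul_zero, mul_zero, add_zero]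
  intro u
  exact sub_eq_zero.1 (SpecAux.der_zero _ L.val.toRingHom E hadd hmul hF u)

end der

section alg

variable {K L M R : Type*} [Field K] [Field L] [Algebra K L] [Field R] [Field M] [Algebra R M]

/-- images of algebraic elements are algebraic -/
lemma alg_image (F : IntermediateField K L) [FiniteDimensional F L] (Φ : L →+* M)
    (E : IntermediateField R M) (h : ∀ u ∈ F, Φ u ∈ E) (u : L) : IsAlgebraic E (Φ u) := by
  obtain ⟨p, hp0, hp⟩ := Algebra.IsAlgebraic.isAlgebraic (R := F) u
  let φ : F →+* E :=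
    { toFun := fun x => ⟨Φ x, h x x.2⟩
      map_one' := Subtype.ext (by simp)
      map_mul' := fun x y => Subtype.ext (by simp)
      map_zero' := Subtype.ext (by simp)
      map_add' := fun x y => Subtype.ext (by simp) }
  refine ⟨p.map φ, (Polynomial.map_ne_zero_iff φ.injective).2 hp0, ?_⟩
  have h1 := congrArg Φ hp
  rw [map_zero] at h1
  rw [← h1, Polynomial.aeval_def, Polynomial.aeval_def, Polynomial.eval₂_map,
    Polynomial.hom_eval₂]
  rfl

end alg

end Pool.Agent.Work.MP_8da9ea_nt

end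

section

/-!
# K1, algebraic part: the combination of sections and the change of weight
-/

set_option autoImplicit false

namespace Pool.Agent.Work.MP_8da9ea_nt

open Matrix

section comb

variable {C M : Type*} [Field C] [Field M] [Algebra C M] {κ τ e g2 g3 : M}
variable {ι : Type*} [Fintype ι]

/-- the vector of the combination -/
def FV (κ τ e : M) (z ζ : ι → M) (c : ι → C) (w : Fin 2 → C) : Fin 2 → M :=
  ∑ i, algebraMap C M (c i) • ![z i, ζ i] - P0 κ τ e *ᵥ (fun k => algebraMap C M (w k))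

lemma FV_der (hκ : κ ≠ 0) (z x y ζ : ι → M) (c : ι → C) (w : Fin 2 → C) (X : Derivation C M M)
    (H : ∑ i, algebraMap C M (c i) • vL C κ τ e g2 g3 (z i) (x i) (y i) (ζ i) X =
      ThL C κ τ e g2 g3 X *ᵥ (fun k => algebraMap C M (w k))) :
    (fun k => X (FV κ τ e z ζ c w k)) = cM g2 g3 X *ᵥ FV κ τ e z ζ c w +
      ∑ i, algebraMap C M (c i) • bV g2 g3 (x i) (y i) X := by
  have h1 : P0 κ τ e *ᵥ (∑ i, algebraMap C M (c i) •
      vL C κ τ e g2 g3 (z i) (x i) (y i) (ζ i) X) =
      P0 κ τ e *ᵥ (ThL C κ τ e g2 g3 X *ᵥ (fun k => algebraMap C M (w k))) := by rw [H]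
  rw [Matrix.mulVec_sum, Matrix.mulVec_mulVec, P0_ThL hκ, Matrix.sub_mulVec] at h1
  simp only [Matrix.mulVec_smul, P0_vL hκ] at h1
  have h2 : (fun k => X (FV κ τ e z ζ c w k)) =
      ∑ i, algebraMap C M (c i) • (fun k => X (![z i, ζ i] k))
        - ((P0 κ τ e).map X) *ᵥ (fun k => algebraMap C M (w k)) := by
    have h3 := mmap_vec X (P0 κ τ e) (fun k => algebraMap C M (w k))
    have h4 : (fun k => X ((fun k => algebraMap C M (w k)) k)) = (0 : Fin 2 → M) := by
      funext k; simp
    rw [h4, Matrix.mulVec_zero, add_zero] at h3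
    rw [← h3]
    funext k
    fin_cases k <;> simp [FV, Finset.sum_apply, map_sum]
  rw [h2, FV, Matrix.mulVec_sub, Matrix.mulVec_sum]
  simp only [Matrix.mulVec_smul]
  simp only [smul_sub, Finset.sum_sub_distrib] at h1
  rw [Matrix.mulVec_mulVec]
  rw [sub_eq_iff_eq_add] at h1 ⊢
  have h5 : ∑ i, algebraMap C M (c i) • (fun k => X (![z i, ζ i] k)) =
      ∑ i, algebraMap C M (c i) • cM g2 g3 X *ᵥ ![z i, ζ i]
      + (((P0 κ τ e).map X *ᵥ (fun k => algebraMap C M (w k)) -
        (cM g2 g3 X * P0 κ τ e) *ᵥ fun k => algebraMap C M (w k)) +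
        ∑ i, algebraMap C M (c i) • bV g2 g3 (x i) (y i) X) := by
    rw [← h1]; abel
  rw [h5]
  abel

variable [CharZero M]

omit [CharZero M] in
lemma bV_zero {x y : M} (X : Derivation C M M) (h2 : X g2 = 0)
    (h3 : X g3 = 0) (hx : X x = 0) : bV g2 g3 x y X = 0 := by
  have ha : cA g2 g3 X = 0 := by simp [cA, h2, h3]
  have hb : cB g2 g3 X = 0 := by simp [cB, h2, h3]
  ext k
  fin_cases k <;> simp [bV, cb2, cb1, ha, hb, hx]

omit [CharZero M] in
lemma FV_der_zero (hκ : κ ≠ 0) (z x y ζ : ι → M) (c : ι → C) (w : Fin 2 → C)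
    (X : Derivation C M M)
    (H : ∑ i, algebraMap C M (c i) • vL C κ τ e g2 g3 (z i) (x i) (y i) (ζ i) X =
      ThL C κ τ e g2 g3 X *ᵥ (fun k => algebraMap C M (w k)))
    (h2 : X g2 = 0) (h3 : X g3 = 0) (hx : ∀ i, X (x i) = 0) (k : Fin 2) :
    X (FV κ τ e z ζ c w k) = 0 := by
  have h := congrFun (FV_der hκ z x y ζ c w X H) k
  have ha : cA g2 g3 X = 0 := by simp [cA, h2, h3]
  have hb : cB g2 g3 X = 0 := by simp [cB, h2, h3]
  have hM : cM g2 g3 X = 0 := by
    ext i j
    fin_cases i <;> fin_cases j <;> simp [cM, ha, hb]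
  have hbV : ∀ i, bV g2 g3 (x i) (y i) X = 0 := fun i => bV_zero X h2 h3 (hx i)
  rw [hM, Matrix.zero_mulVec] at h
  simp only [hbV, smul_zero, Finset.sum_const_zero, add_zero, Pi.zero_apply] at h
  exact h

end comb

section transport

variable {C L C' M : Type*} [Field C] [Field L] [Algebra C L] [Field C'] [Field M] [Algebra C' M]

variable {g2 g3 : L}

lemma cA_transport (Φ : L →+* M) (X : Derivation C L L) (D : Derivation C' M M) (h : M)
    (h2 : D (Φ g2) = h * Φ (X g2)) (h3 : D (Φ g3) = h * Φ (X g3)) :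
    cA (Φ g2) (Φ g3) D = h * Φ (cA g2 g3 X) := by
  simp only [cA, h2, h3, map_div₀, map_add, map_mul, map_neg, map_sub, map_pow, map_ofNat]
  rw [← mul_div_assoc]
  congr 1
  ring

lemma cB_transport (Φ : L →+* M) (X : Derivation C L L) (D : Derivation C' M M) (h : M)
    (h2 : D (Φ g2) = h * Φ (X g2)) (h3 : D (Φ g3) = h * Φ (X g3)) :
    cB (Φ g2) (Φ g3) D = h * Φ (cB g2 g3 X) := by
  simp only [cB, h2, h3, map_div₀, map_add, map_mul, map_neg, map_sub, map_pow, map_ofNat]
  rw [← mul_div_assoc]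
  congr 1
  ring

lemma bV_transport (Φ : L →+* M) (X : Derivation C L L) (D : Derivation C' M M) (h : M)
    (h2 : D (Φ g2) = h * Φ (X g2)) (h3 : D (Φ g3) = h * Φ (X g3)) {x y : L}
    (hx : D (Φ x) = h * Φ (X x)) (k : Fin 2) :
    bV (Φ g2) (Φ g3) (Φ x) (Φ y) D k = h * Φ (bV g2 g3 x y X k) := by
  have ha := cA_transport Φ X D h h2 h3
  have hb := cB_transport Φ X D h h2 h3
  have h1 : cb1 (Φ g2) (Φ g3) (Φ x) (Φ y) D = h * Φ (cb1 g2 g3 x y X) := by
    simp only [cb1, ha, hb, hx, map_div₀, map_add, map_mul, map_sub, map_pow, map_ofNat]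
    rw [← mul_div_assoc]
    congr 1
    ring
  fin_cases k
  · simpa [bV] using h1
  · simp only [bV, cb2, h1, hb, Fin.mk_one, Matrix.cons_val_one, Matrix.cons_val_fin_one,
      map_add, map_mul, map_neg, map_div₀, map_ofNat]
    ring

lemma cM_transport (Φ : L →+* M) (X : Derivation C L L) (D : Derivation C' M M) (h : M)
    (h2 : D (Φ g2) = h * Φ (X g2)) (h3 : D (Φ g3) = h * Φ (X g3)) (F : Fin 2 → L) (k : Fin 2) :
    (cM (Φ g2) (Φ g3) D *ᵥ (fun k => Φ (F k))) k = h * Φ ((cM g2 g3 X *ᵥ F) k) := by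
  have ha := cA_transport Φ X D h h2 h3
  have hb := cB_transport Φ X D h h2 h3
  fin_cases k
  · simp only [cM, ha, hb, Matrix.mulVec, dotProduct, Fin.sum_univ_two, Matrix.of_apply,
      Matrix.cons_val', Matrix.cons_val_zero, Matrix.cons_val_one, Matrix.cons_val_fin_one,
      Fin.zero_eta, map_add, map_mul]
    ring
  · simp only [cM, ha, hb, Matrix.mulVec, dotProduct, Fin.sum_univ_two, Matrix.of_apply,
      Matrix.cons_val', Matrix.cons_val_zero, Matrix.cons_val_one, Matrix.cons_val_fin_one,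
      Fin.mk_one, map_add, map_mul, map_neg, map_div₀, map_ofNat]
    ring

end transport

section gauge

variable {C M : Type*} [Field C] [Field M] [Algebra C M] [CharZero M]
variable {g2 g3 G2 G3 lam : M}

lemma gauge_cAB (hl : lam ≠ 0) (e2 : g2 = lam ^ 4 * G2) (e3 : g3 = lam ^ 6 * G3)
    (hΔ : G2 ^ 3 - 27 * G3 ^ 2 ≠ 0) (D : Derivation C M M) :
    cA G2 G3 D = cA g2 g3 D + D lam / lam ∧ cB G2 G3 D = lam ^ 2 * cB g2 g3 D := by
  have hΔ' : g2 ^ 3 - 27 * g3 ^ 2 ≠ 0 := by
    have : g2 ^ 3 - 27 * g3 ^ 2 = lam ^ 12 * (G2 ^ 3 - 27 * G3 ^ 2) := by rw [e2, e3]; ring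
    rw [this]
    exact mul_ne_zero (pow_ne_zero _ hl) hΔ
  have a2 := cAB2 hΔ D
  have a3 := cAB3 hΔ D
  have b2 := cAB2 hΔ' D
  have b3 := cAB3 hΔ' D
  have d2 : D g2 = 4 * lam ^ 3 * D lam * G2 + lam ^ 4 * D G2 := by
    rw [e2, Derivation.leibniz, Derivation.leibniz_pow]
    simp only [smul_eq_mul, nsmul_eq_mul]
    push_cast
    ring
  have d3 : D g3 = 6 * lam ^ 5 * D lam * G3 + lam ^ 6 * D G3 := by
    rw [e3, Derivation.leibniz, Derivation.leibniz_pow]
    simp only [smul_eq_mul, nsmul_eq_mul]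
    push_cast
    ring
  rw [d2, a2] at b2
  rw [d3, a3] at b3
  have e2' := e2
  have e3' := e3
  set A := cA g2 g3 D with hA
  set B := cB g2 g3 D with hB
  rw [e2, e3] at b2 b3
  have k2 : -4 * G2 * (cA G2 G3 D - (A + D lam / lam)) - 6 * G3 * (cB G2 G3 D - lam ^ 2 * B)
      = 0 := by
    apply mul_left_cancel₀ (pow_ne_zero 4 hl)
    have h5 : lam ^ 4 * (D lam / lam) = lam ^ 3 * D lam := by field_simp
    linear_combination b2 + (4 * G2) * h5
  have k3 : -6 * G3 * (cA G2 G3 D - (A + D lam / lam)) - G2 ^ 2 / 3 * (cB G2 G3 D - lam ^ 2 * B)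
      = 0 := by
    apply mul_left_cancel₀ (pow_ne_zero 6 hl)
    have h5 : lam ^ 6 * (D lam / lam) = lam ^ 5 * D lam := by field_simp
    linear_combination b3 + (6 * G3) * h5
  obtain ⟨l1, l2⟩ := cAB_unique hΔ k2 k3
  exact ⟨sub_eq_zero.1 l1, sub_eq_zero.1 l2⟩

/-- the gauge matrix -/
def Lm (lam : M) : Matrix (Fin 2) (Fin 2) M := !![lam, 0; 0, lam⁻¹]

lemma gauge_bV (hl : lam ≠ 0) (e2 : g2 = lam ^ 4 * G2) (e3 : g3 = lam ^ 6 * G3)
    (hΔ : G2 ^ 3 - 27 * G3 ^ 2 ≠ 0) (D : Derivation C M M) {x y X Y : M} (hy : y ≠ 0)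
    (ex : x = lam ^ 2 * X) (ey : y = lam ^ 3 * Y) :
    bV G2 G3 X Y D = Lm lam *ᵥ bV g2 g3 x y D := by
  obtain ⟨ha, hb⟩ := gauge_cAB hl e2 e3 hΔ D
  have hY : Y ≠ 0 := by
    rintro rfl
    rw [mul_zero] at ey
    exact hy ey
  have dx : D x = 2 * lam * D lam * X + lam ^ 2 * D X := by
    rw [ex, Derivation.leibniz, Derivation.leibniz_pow]
    simp only [smul_eq_mul, nsmul_eq_mul]
    push_cast
    ring
  have h1 : cb1 G2 G3 X Y D = lam * cb1 g2 g3 x y D := by
    rw [cb1, cb1, div_eq_iff hY, dx, ha, hb]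
    rw [ex, ey, e2]
    field_simp
    ring
  ext k
  fin_cases k
  · simp [bV, Lm, h1, mul_comm]
  · simp only [bV, Lm, cb2, h1, hb, ex, ey, Matrix.mulVec, dotProduct, Fin.sum_univ_two,
      Matrix.of_apply, Matrix.cons_val', Matrix.cons_val_zero, Matrix.cons_val_one,
      Matrix.cons_val_fin_one, Fin.mk_one, zero_mul, zero_add]
    field_simp

/-- change of gauge for a solution of the inhomogeneous equation -/
lemma gauge_sol (hl : lam ≠ 0) (e2 : g2 = lam ^ 4 * G2) (e3 : g3 = lam ^ 6 * G3)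
    (hΔ : G2 ^ 3 - 27 * G3 ^ 2 ≠ 0) (D : Derivation C M M) (v b : Fin 2 → M)
    (hv : (fun k => D (v k)) = cM g2 g3 D *ᵥ v + b) :
    (fun k => D ((Lm lam *ᵥ v) k)) = cM G2 G3 D *ᵥ (Lm lam *ᵥ v) + Lm lam *ᵥ b := by
  obtain ⟨ha, hb⟩ := gauge_cAB hl e2 e3 hΔ D
  have v0 := congrFun hv 0
  have v1 := congrFun hv 1
  simp only [cM, Matrix.mulVec, dotProduct, Fin.sum_univ_two, Matrix.of_apply,
      Matrix.cons_val', Matrix.cons_val_zero, Matrix.cons_val_one, Matrix.cons_val_fin_one,
      Pi.add_apply] at v0 v1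
  ext k
  fin_cases k
  · simp only [cM, Lm, Matrix.mulVec, dotProduct, Fin.sum_univ_two, Matrix.of_apply,
      Matrix.cons_val', Matrix.cons_val_zero, Matrix.cons_val_one, Matrix.cons_val_fin_one,
      Pi.add_apply, Fin.zero_eta, zero_mul, add_zero, zero_add, Derivation.leibniz, smul_eq_mul,
      v0, ha, hb]
    field_simp
    ring
  · simp only [cM, Lm, Matrix.mulVec, dotProduct, Fin.sum_univ_two, Matrix.of_apply,
      Matrix.cons_val', Matrix.cons_val_zero, Matrix.cons_val_one, Matrix.cons_val_fin_one,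
      Pi.add_apply, Fin.mk_one, zero_mul, add_zero, zero_add, Derivation.leibniz,
      Derivation.leibniz_inv, smul_eq_mul, v1, ha, hb, e2]
    field_simp
    ring

omit [CharZero M] in
/-- two solutions differ by a constant combination of the periods -/
lemma const_comb (D : Derivation C M M) (hD : ∀ m, D m = 0 → m ∈ Set.range (algebraMap C M))
    (A : Matrix (Fin 2) (Fin 2) M) (Pm Pi' : Matrix (Fin 2) (Fin 2) M)
    (hP : Pm.map D = A * Pm) (h1 : Pm * Pi' = 1) (h2 : Pi' * Pm = 1) (v : Fin 2 → M)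
    (hv : (fun k => D (v k)) = A *ᵥ v) :
    ∃ w : Fin 2 → C, v = Pm *ᵥ (fun k => algebraMap C M (w k)) := by
  set u := Pi' *ᵥ v with hu
  have hvu : v = Pm *ᵥ u := by rw [hu, Matrix.mulVec_mulVec, h1, Matrix.one_mulVec]
  have h3 := mmap_vec D Pm u
  rw [← hvu, hv, hP, ← Matrix.mulVec_mulVec, ← hvu] at h3
  have h4 : Pm *ᵥ (fun k => D (u k)) = 0 := by
    have := h3.symm
    rwa [add_eq_left] at this
  have h5 : (fun k => D (u k)) = 0 := by
    have h6 := congrArg (fun x => Pi' *ᵥ x) h4
    simp only [Matrix.mulVec_mulVec, h2, Matrix.one_mulVec, Matrix.mulVec_zero] at h6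
    exact h6
  have h6 : ∀ k, ∃ c : C, algebraMap C M c = u k := fun k => hD _ (congrFun h5 k)
  choose w hw using h6
  exact ⟨w, by rw [hvu]; congr 1; funext k; exact (hw k).symm⟩

end gauge

end Pool.Agent.Work.MP_8da9ea_nt

end
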