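import Pool.Agent.Work.MP_8da9ea_nt.Lim
import Pool.Agent.Work.MP_8da9ea_nt.ZDeis
import Pool.Agent.Work.MP_8da9ea_nt.Stmt
import Pool.Agent.Work.MP_8da9ea_nt.OdeD
import Pool.Agent.Work.MP_8da9ea_nt.MG
import Pool.Agent.Work.MP_8da9ea_nt.Bd.B03
import Pool.Agent.Work.MP_8da9ea_nt.Ode
import Pool.Agent.Work.MP_8da9ea_nt.Arc
import Pool.Agent.Work.MP_8da9ea_nt.Bd.B02

/-! Bundle of small proof modules (one section per former module). -/

section

/-!
# Generic points are dense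
-/

set_option autoImplicit false

namespace Pool.Agent.Work.MP_8da9ea_nt

open Complex Filter Topology

variable {ι : Type*} [Fintype ι]

lemma gen_of {z : ι → ℂ}
    (hz : ∀ (m : ι → ℤ) (l : ℤ), ∑ i, (m i : ℂ) * z i = l → m = 0) {u v : ℝ} (hv : 0 < v)
    (hu : ∀ m k : ι → ℤ, u ≠ (∑ i, (k i : ℝ) * (z i).im) / (∑ i, (m i : ℝ) * (z i).im))
    (hv' : ∀ (m k : ι → ℤ) (l : ℤ), v ≠ (u * (∑ i, (m i : ℝ) * (z i).im) -
      (∑ i, (k i : ℝ) * (z i).im)) / ((∑ i, (m i : ℝ) * (z i).re) - l)) :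
    Gen z ⟨u, v⟩ := by
  intro m k l h
  set A1 := ∑ i, (m i : ℝ) * (z i).re with hA1
  set A2 := ∑ i, (m i : ℝ) * (z i).im with hA2
  set B2 := ∑ i, (k i : ℝ) * (z i).im with hB2
  have h1 : ∑ i, (m i : ℝ) * xa ⟨u, v⟩ (z i) = A1 - A2 * (u / v) := by
    rw [hA1, hA2, Finset.sum_mul, ← Finset.sum_sub_distrib]
    refine Finset.sum_congr rfl fun i _ => ?_
    simp only [xa]
    ring
  have h2 : ∑ i, (k i : ℝ) * ya ⟨u, v⟩ (z i) = B2 / v := by
    rw [hB2, Finset.sum_div]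
    refine Finset.sum_congr rfl fun i _ => ?_
    simp only [ya]
    ring
  rw [h1, h2] at h
  have h3 : v * (A1 - l) = u * A2 - B2 := by
    field_simp at h
    linarith
  by_cases hA : A1 - l = 0
  · rw [hA, mul_zero] at h3
    by_cases hA' : A2 = 0
    · refine hz m l ?_
      apply Complex.ext
      · rw [Complex.re_sum]
        simp only [mul_re, intCast_re, intCast_im, zero_mul, sub_zero]
        linarith
      · rw [Complex.im_sum]
        simp only [mul_im, intCast_re, intCast_im, zero_mul, add_zero]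
        exact hA'
    · exfalso
      refine hu m k ?_
      rw [eq_div_iff hA']
      linarith
  · exfalso
    refine hv' m k l ?_
    rw [eq_div_iff hA]
    exact h3

theorem gen_dense {z : ι → ℂ}
    (hz : ∀ (m : ι → ℤ) (l : ℤ), ∑ i, (m i : ℂ) * z i = l → m = 0) {τ₀ : ℂ} (hτ : 0 < τ₀.im) :
    τ₀ ∈ closure {τ | 0 < τ.im ∧ Gen z τ} := by
  rw [Metric.mem_closure_iff]
  intro ε hε
  have hc1 : (Set.range fun p : (ι → ℤ) × (ι → ℤ) =>
      (∑ i, (p.2 i : ℝ) * (z i).im) / (∑ i, (p.1 i : ℝ) * (z i).im)).Countable :=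
    Set.countable_range _
  obtain ⟨u, hu1, hu2⟩ := (hc1.dense_compl ℝ).exists_mem_open (Metric.isOpen_ball (x := τ₀.re)
    (ε := ε / 2)) ⟨τ₀.re, Metric.mem_ball_self (by positivity)⟩
  have hc2 : (Set.range fun p : (ι → ℤ) × (ι → ℤ) × ℤ =>
      (u * (∑ i, (p.1 i : ℝ) * (z i).im) - (∑ i, (p.2.1 i : ℝ) * (z i).im)) /
        ((∑ i, (p.1 i : ℝ) * (z i).re) - p.2.2)).Countable := Set.countable_range _
  obtain ⟨v, hv1, hv2⟩ := (hc2.dense_compl ℝ).exists_mem_open (Metric.isOpen_ball (x := τ₀.im)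
    (ε := min (ε / 2) τ₀.im)) ⟨τ₀.im, Metric.mem_ball_self (by positivity)⟩
  rw [Metric.mem_ball, Real.dist_eq] at hu2 hv2
  have hv3 : 0 < v := by
    have := (abs_lt.1 (hv2.trans_le (min_le_right _ _))).1
    linarith
  refine ⟨⟨u, v⟩, ⟨hv3, ?_⟩, ?_⟩
  · refine gen_of hz hv3 (fun m k h => hu1 ⟨(m, k), h.symm⟩)
      (fun m k l h => hv1 ⟨(m, k, l), h.symm⟩)
  · rw [Complex.dist_eq]
    have h1 : ‖τ₀ - ⟨u, v⟩‖ ≤ |(τ₀ - ⟨u, v⟩).re| + |(τ₀ - ⟨u, v⟩).im| :=
      Complex.norm_le_abs_re_add_abs_im _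
    simp only [sub_re, sub_im] at h1
    rw [abs_sub_comm τ₀.re, abs_sub_comm τ₀.im] at h1
    have h2 := hv2.trans_le (min_le_left _ _)
    linarith

end Pool.Agent.Work.MP_8da9ea_nt

end

section

/-!
# Functional independence
-/

set_option autoImplicit false

namespace Pool.Agent.Work.MP_8da9ea_nt

open Complex Filter Topology

variable {ι : Type*}

/-- the values of the functions -/
noncomputable def fpt (x τ : ℂ) (z : ι → ℂ) : Fin 4 ⊕ (ι ⊕ ι) → ℂ :=
  pt x (et τ) (gk 4 1 τ) (gk 6 1 τ) (fun i => wp 1 τ (z i)) (fun i => zt 1 τ (z i))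

lemma wp_T' (τ z : ℂ) (d : ℤ) : wp 1 (τ + d) z = wp 1 τ z := by
  have := wp_T 1 τ z d
  rwa [mul_one] at this

lemma zt_T' (τ z : ℂ) (d : ℤ) : zt 1 (τ + d) z = zt 1 τ z := by
  have := zt_T 1 τ z d
  rwa [mul_one] at this

lemma gk_T' (k : ℕ) (τ : ℂ) (d : ℤ) : gk k 1 (τ + d) = gk k 1 τ := by
  have := gk_T k 1 τ d
  rwa [mul_one] at this

lemma Lam_T (τ : ℂ) (d : ℤ) : Lam (τ + d) = Lam τ := by
  ext w
  rw [mem_Lam, mem_Lam]
  constructor
  · rintro ⟨m, n, rfl⟩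
    exact ⟨m + n * d, n, by push_cast; ring⟩
  · rintro ⟨m, n, rfl⟩
    exact ⟨m - n * d, n, by push_cast; ring⟩

lemma fpt_T (x τ : ℂ) (z : ι → ℂ) (d : ℤ) : fpt x (τ + d) z = fpt x τ z := by
  unfold fpt
  rw [et_T, gk_T', gk_T']
  simp only [wp_T', zt_T']

lemma mem_Lam_inv {lam w : ℂ} (hl : lam ≠ 0) (h : w ∈ Lam (-1 / lam)) : lam * w ∈ Lam lam := by
  rw [mem_Lam] at h ⊢
  obtain ⟨m, n, rfl⟩ := h
  refine ⟨-n, m, ?_⟩
  push_cast
  field_simp
  ring

lemma fpt_inv {lam : ℂ} (hl : 0 < lam.im) (x : ℂ) (z : ι → ℂ) :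
    fpt x (-1 / lam) z = pt x (lam ^ 2 * et lam - 2 * Real.pi * I * lam) (lam ^ 4 * gk 4 1 lam)
      (lam ^ 6 * gk 6 1 lam) (fun i => lam ^ 2 * wp 1 lam (lam * z i))
      (fun i => lam * zt 1 lam (lam * z i)) := by
  have h0 := ne_zero_of_im hl
  unfold fpt
  rw [et_inv hl, gk_inv 4 h0, gk_inv 6 h0]
  simp only [wp_inv h0, zt_inv h0]

open MvPolynomial in
/-- first slot -/
lemma stepA {z : ι → ℂ} (P : MvPolynomial (Fin 4 ⊕ (ι ⊕ ι)) ℂ)
    (hP : ∀ τ, 0 < τ.im → (∀ i, z i ∉ Lam τ) → eval (fpt τ τ z) P = 0) :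
    ∀ τ, 0 < τ.im → (∀ i, z i ∉ Lam τ) → ∀ x, eval (fpt x τ z) P = 0 := by
  intro τ hτ hz x
  let g : Fin 4 ⊕ (ι ⊕ ι) → Polynomial ℂ :=
    Sum.elim ![Polynomial.X, Polynomial.C (et τ), Polynomial.C (gk 4 1 τ), Polynomial.C (gk 6 1 τ)]
      (Sum.elim (fun i => Polynomial.C (wp 1 τ (z i))) (fun i => Polynomial.C (zt 1 τ (z i))))
  have hg : ∀ y, (fun i => (g i).eval y) = fpt y τ z := by
    intro y
    funext s
    rcases s with s | s | s
    · fin_cases s <;> simp [g, fpt, pt]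
    · simp [g, fpt, pt]
    · simp [g, fpt, pt]
  have hS : (Set.range fun d : ℤ => τ + d).Infinite := by
    refine Set.infinite_range_of_injective ?_
    intro a b hab
    have : (a : ℂ) = b := add_left_cancel hab
    exact_mod_cast this
  have key := poly_line P g hS (by
    rintro _ ⟨d, rfl⟩
    rw [hg]
    have h1 := hP (τ + d) (by simpa using hτ) (by rw [Lam_T]; exact hz)
    rwa [fpt_T] at h1) x
  rwa [hg] at key

variable [Fintype ι]

open MvPolynomial in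
lemma stepC {z : ι → ℂ} (P : MvPolynomial (Fin 4 ⊕ (ι ⊕ ι)) ℂ)
    (hP : ∀ τ, 0 < τ.im → (∀ i, z i ∉ Lam τ) → eval (fpt τ τ z) P = 0)
    {τ : ℂ} (hτ : 0 < τ.im) (hgen : Gen z τ) (x lam : ℂ) (hl : lam ≠ 0) (u v : ι → ℂ) :
    eval (pt x (lam ^ 2 * et τ - 2 * Real.pi * I * lam) (lam ^ 4 * gk 4 1 τ)
      (lam ^ 6 * gk 6 1 τ) u v) P = 0 := by
  have hA := stepA P hP
  have hrel : ∀ d : ℕ, (∀ i, (τ + d) * z i ∉ Lam τ) →
      eval (pt x ((τ + d) ^ 2 * et τ - 2 * Real.pi * I * (τ + d)) ((τ + d) ^ 4 * gk 4 1 τ)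
        ((τ + d) ^ 6 * gk 6 1 τ) (fun i => (τ + d) ^ 2 * wp 1 τ ((τ + d) * z i))
        (fun i => (τ + d) * zt 1 τ ((τ + d) * z i))) P = 0 := by
    intro d hd
    have hd' : (τ + d : ℂ) = τ + ((d : ℤ) : ℂ) := by push_cast; ring
    have him : 0 < (τ + ((d : ℤ) : ℂ)).im := by simpa using hτ
    have h0 := ne_zero_of_im him
    have h1 := hA (-1 / (τ + ((d : ℤ) : ℂ))) (inv_im him) (by
      intro i hi
      have h2 := mem_Lam_inv h0 hi
      rw [Lam_T] at h2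
      apply hd i
      rw [hd']
      exact h2) x
    rw [fpt_inv him, et_T, gk_T', gk_T'] at h1
    simp only [wp_T', zt_T'] at h1
    rw [hd']
    exact h1
  have h := step_BC hτ hgen P x (gk 4 1 τ) (gk 6 1 τ) hrel (lam - τ) (fun i => u i / lam ^ 2)
    (fun i => v i / lam - et τ * z i * lam + 2 * Real.pi * I * ya τ (z i) * (lam - τ))
  have hpt : cpt x (et τ) (gk 4 1 τ) (gk 6 1 τ) τ (2 * Real.pi * I) z (fun i => ya τ (z i))
      (lam - τ) (fun i => u i / lam ^ 2)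
      (fun i => v i / lam - et τ * z i * lam + 2 * Real.pi * I * ya τ (z i) * (lam - τ)) =
      pt x (lam ^ 2 * et τ - 2 * Real.pi * I * lam) (lam ^ 4 * gk 4 1 τ)
      (lam ^ 6 * gk 6 1 τ) u v := by
    unfold cpt
    have e1 : τ + (lam - τ) = lam := by ring
    rw [e1]
    congr 1
    · funext i
      field_simp
    · funext i
      have : v i / lam - et τ * z i * lam + 2 * Real.pi * I * ya τ (z i) * (lam - τ) +
          et τ * z i * lam - 2 * Real.pi * I * ya τ (z i) * (lam - τ) = v i / lam := by ring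
      rw [this]
      field_simp
  rw [hpt] at h
  exact h

open MvPolynomial in
lemma stepC' {z : ι → ℂ} (hz : ∀ (m : ι → ℤ) (l : ℤ), ∑ i, (m i : ℂ) * z i = l → m = 0)
    (P : MvPolynomial (Fin 4 ⊕ (ι ⊕ ι)) ℂ)
    (hP : ∀ τ, 0 < τ.im → (∀ i, z i ∉ Lam τ) → eval (fpt τ τ z) P = 0)
    {τ : ℂ} (hτ : 0 < τ.im) (x lam : ℂ) (hl : lam ≠ 0) (u v : ι → ℂ) :
    eval (pt x (lam ^ 2 * et τ - 2 * Real.pi * I * lam) (lam ^ 4 * gk 4 1 τ)
      (lam ^ 6 * gk 6 1 τ) u v) P = 0 := by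
  set F : ℂ → ℂ := fun τ => eval (pt x (lam ^ 2 * et τ - 2 * Real.pi * I * lam)
    (lam ^ 4 * gk 4 1 τ) (lam ^ 6 * gk 6 1 τ) u v) P with hF
  have hcont : ContinuousAt F τ := by
    have h1 : ContinuousAt (fun τ => (pt x (lam ^ 2 * et τ - 2 * Real.pi * I * lam)
        (lam ^ 4 * gk 4 1 τ) (lam ^ 6 * gk 6 1 τ) u v : Fin 4 ⊕ (ι ⊕ ι) → ℂ)) τ := by
      have c1 : ContinuousAt et τ := (analytic_et (τ := fun x => x) analyticAt_id hτ).continuousAt
      have c2 : ContinuousAt (gk 4 1) τ :=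
        (analytic_gk (τ := fun x => x) (by norm_num) analyticAt_id hτ).continuousAt
      have c3 : ContinuousAt (gk 6 1) τ :=
        (analytic_gk (τ := fun x => x) (by norm_num) analyticAt_id hτ).continuousAt
      refine continuousAt_pi.2 fun s => ?_
      rcases s with s | s | s
      · fin_cases s
        · exact continuousAt_const
        · exact (continuousAt_const.mul c1).sub continuousAt_const
        · exact continuousAt_const.mul c2
        · exact continuousAt_const.mul c3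
      · exact continuousAt_const
      · exact continuousAt_const
    exact (MvPolynomial.continuous_eval P).continuousAt.comp h1
  have hmem := mem_closure_image hcont (gen_dense hz hτ)
  have hsub : F '' {τ | 0 < τ.im ∧ Gen z τ} ⊆ {0} := by
    rintro _ ⟨t, ⟨ht, hg⟩, rfl⟩
    exact stepC P hP ht hg x lam hl u v
  have := closure_mono hsub hmem
  rw [closure_singleton] at this
  exact this

open MvPolynomial in
lemma stepD {z : ι → ℂ} (hz : ∀ (m : ι → ℤ) (l : ℤ), ∑ i, (m i : ℂ) * z i = l → m = 0)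
    (P : MvPolynomial (Fin 4 ⊕ (ι ⊕ ι)) ℂ)
    (hP : ∀ τ, 0 < τ.im → (∀ i, z i ∉ Lam τ) → eval (fpt τ τ z) P = 0)
    {τ : ℂ} (hτ : 0 < τ.im) (x e μ : ℂ) (hμ : μ ≠ 0) (hμ' : μ ≠ -1) (u v : ι → ℂ) :
    eval (pt x e (μ ^ 4 * gk 4 1 τ) (μ ^ 6 * gk 6 1 τ) u v) P = 0 := by
  let g : Fin 4 ⊕ (ι ⊕ ι) → Polynomial ℂ :=
    Sum.elim ![Polynomial.C x, Polynomial.X, Polynomial.C (μ ^ 4 * gk 4 1 τ),
      Polynomial.C (μ ^ 6 * gk 6 1 τ)]
      (Sum.elim (fun i => Polynomial.C (u i)) (fun i => Polynomial.C (v i)))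
  have hg : ∀ y, (fun i => (g i).eval y) =
      pt x y (μ ^ 4 * gk 4 1 τ) (μ ^ 6 * gk 6 1 τ) u v := by
    intro y
    funext s
    rcases s with s | s | s
    · fin_cases s
      · exact Polynomial.eval_C
      · exact Polynomial.eval_X
      · exact Polynomial.eval_C
      · exact Polynomial.eval_C
    · exact Polynomial.eval_C
    · exact Polynomial.eval_C
  have hS : (Set.range fun d : ℤ =>
      μ ^ 2 * et τ - 2 * Real.pi * I * (μ ^ 2 + μ) / (τ + d)).Infinite := by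
    refine Set.infinite_range_of_injective ?_
    intro a b hab
    simp only at hab
    have ha0 : τ + (a : ℂ) ≠ 0 := ne_zero_of_im (by simpa using hτ)
    have hb0 : τ + (b : ℂ) ≠ 0 := ne_zero_of_im (by simpa using hτ)
    have hk : 2 * Real.pi * I * (μ ^ 2 + μ) ≠ 0 := by
      refine mul_ne_zero Complex.two_pi_I_ne_zero ?_
      rw [show μ ^ 2 + μ = μ * (μ + 1) by ring]
      exact mul_ne_zero hμ (fun h => hμ' (eq_neg_of_add_eq_zero_left h))
    have h1 : 2 * Real.pi * I * (μ ^ 2 + μ) / (τ + a) =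
        2 * Real.pi * I * (μ ^ 2 + μ) / (τ + b) := by linear_combination -hab
    rw [div_eq_div_iff ha0 hb0] at h1
    have h2 := mul_left_cancel₀ hk h1
    have h3 : (b : ℂ) = a := add_left_cancel h2
    exact_mod_cast h3.symm
  have key := poly_line P g hS (by
    rintro _ ⟨d, rfl⟩
    rw [hg]
    have him : 0 < (τ + (d : ℂ)).im := by simpa using hτ
    have h0 := ne_zero_of_im him
    have h1 := stepC' hz P hP (inv_im him) x (μ / (τ + d)) (div_ne_zero hμ h0) u v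
    rw [et_inv him, gk_inv 4 h0, gk_inv 6 h0, et_T, gk_T', gk_T'] at h1
    have e1 : (μ / (τ + d)) ^ 2 * ((τ + d) ^ 2 * et τ - 2 * Real.pi * I * (τ + d)) -
        2 * Real.pi * I * (μ / (τ + d)) =
        μ ^ 2 * et τ - 2 * Real.pi * I * (μ ^ 2 + μ) / (τ + d) := by
      field_simp
      ring
    have e2 : (μ / (τ + d)) ^ 4 * ((τ + d) ^ 4 * gk 4 1 τ) = μ ^ 4 * gk 4 1 τ := by
      field_simp
    have e3 : (μ / (τ + d)) ^ 6 * ((τ + d) ^ 6 * gk 6 1 τ) = μ ^ 6 * gk 6 1 τ := by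
      field_simp
    rw [e1, e2, e3] at h1
    exact h1) e
  rwa [hg] at key

open MvPolynomial in
/-- **Functional independence.** For complex numbers `z_i` which are linearly independent over `ℚ`
together with `1`, the functions `τ, η₁(τ), G₄(τ), G₆(τ), ℘(z_i; τ), ζ(z_i; τ)` are algebraically
independent over `ℂ`. -/
theorem func_indep {z : ι → ℂ}
    (hz : ∀ (m : ι → ℤ) (l : ℤ), ∑ i, (m i : ℂ) * z i = l → m = 0)
    (P : MvPolynomial (Fin 4 ⊕ (ι ⊕ ι)) ℂ)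
    (hP : ∀ τ, 0 < τ.im → (∀ i, z i ∉ Lam τ) → eval (fpt τ τ z) P = 0) : P = 0 := by
  refine MvPolynomial.funext fun X => ?_
  rw [map_zero]
  set x := X (Sum.inl 0) with hx
  set e := X (Sum.inl 1) with he
  set u : ι → ℂ := fun i => X (Sum.inr (Sum.inl i)) with hu
  set v : ι → ℂ := fun i => X (Sum.inr (Sum.inr i)) with hv
  let g : Fin 4 ⊕ (ι ⊕ ι) → MvPolynomial (Fin 2) ℂ :=
    Sum.elim ![C x, C e, MvPolynomial.X 0, MvPolynomial.X 1]
      (Sum.elim (fun i => C (u i)) (fun i => C (v i)))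
  have hg : ∀ s : ℂ × ℂ, eval ![s.1, s.2] (aeval g P) = eval (pt x e s.1 s.2 u v) P := by
    intro s
    rw [MvPolynomial.aeval_def, MvPolynomial.hom_eval₂, MvPolynomial.eval,
      MvPolynomial.coe_eval₂Hom, MvPolynomial.eval, MvPolynomial.coe_eval₂Hom]
    congr 1
    · ext z; simp
    · funext i
      rcases i with i | i | i
      · fin_cases i <;> simp [g, pt]
      · simp [g, pt]
      · simp [g, pt]
  have h0 : (aeval g P : MvPolynomial (Fin 2) ℂ) = 0 := by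
    refine ZD_eis _ ?_
    rintro _ ⟨μ, τ, hμ, hμ', hτ, rfl⟩
    rw [hg]
    exact stepD hz P hP hτ x e μ hμ hμ' u v
  have h1 := hg (X (Sum.inl 2), X (Sum.inl 3))
  rw [h0, map_zero] at h1
  have hX : pt x e (X (Sum.inl 2)) (X (Sum.inl 3)) u v = X := by
    funext s
    rcases s with s | s | s
    · fin_cases s <;> rfl
    · rfl
    · rfl
  simp only at h1
  rw [hX] at h1
  exact h1.symm

end Pool.Agent.Work.MP_8da9ea_nt

end

section

/-!
# Exceptional sets are countable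
-/

set_option autoImplicit false

namespace Pool.Agent.Work.MP_8da9ea_nt

open Complex Filter Topology

/-- a parametrisation of the upper half plane by the plane -/
noncomputable def hmap (w : ℂ) : ℂ := ⟨w.re, Real.exp w.im⟩

lemma hmap_continuous : Continuous hmap := by
  have h : hmap = fun w : ℂ => (w.re : ℂ) + (Real.exp w.im : ℂ) * I := by
    funext w
    apply Complex.ext
    · simp only [hmap, Complex.add_re, Complex.ofReal_re, Complex.mul_re, Complex.I_re, mul_zero,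
        Complex.ofReal_im, Complex.I_im, zero_mul, sub_zero, add_zero]
    · simp only [hmap, Complex.add_im, Complex.ofReal_im, Complex.mul_im, Complex.I_im, mul_one,
        Complex.ofReal_re, Complex.I_re, mul_zero, zero_add, add_zero]
  rw [h]
  have h1 : Continuous fun w : ℂ => (w.re : ℂ) := Complex.continuous_ofReal.comp Complex.continuous_re
  have h2 : Continuous fun w : ℂ => ((Real.exp w.im : ℝ) : ℂ) :=
    Complex.continuous_ofReal.comp (Real.continuous_exp.comp Complex.continuous_im)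
  exact h1.add (h2.mul continuous_const)

lemma hmap_injective : Function.Injective hmap := by
  intro a b h
  have h1 := congrArg Complex.re h
  have h2 := congrArg Complex.im h
  simp only [hmap] at h1 h2
  exact Complex.ext h1 (Real.exp_injective h2)

lemma hmap_im_pos (w : ℂ) : 0 < (hmap w).im := Real.exp_pos _

lemma exists_hmap {τ : ℂ} (h : 0 < τ.im) : ∃ w, hmap w = τ :=
  ⟨⟨τ.re, Real.log τ.im⟩, by apply Complex.ext <;> simp [hmap, Real.exp_log h]⟩

lemma preconnected_half {S : Set ℂ} (hS : S.Countable) :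
    IsPreconnected {τ : ℂ | 0 < τ.im ∧ τ ∉ S} := by
  have h : {τ : ℂ | 0 < τ.im ∧ τ ∉ S} = hmap '' (hmap ⁻¹' S)ᶜ := by
    ext τ
    constructor
    · rintro ⟨h1, h2⟩
      obtain ⟨w, rfl⟩ := exists_hmap h1
      exact ⟨w, h2, rfl⟩
    · rintro ⟨w, h1, rfl⟩
      exact ⟨hmap_im_pos w, h1⟩
  rw [h]
  have hr : 1 < Module.rank ℝ ℂ := by
    rw [Complex.rank_real_complex]; norm_num
  have hc : (hmap ⁻¹' S).Countable := hS.preimage hmap_injective
  exact (hc.isConnected_compl_of_one_lt_rank hr).isPreconnected.image _ hmap_continuous.continuousOn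

/-- the zeros of a non-zero analytic function on a connected set are countable -/
lemma zeros_countable {U : Set ℂ} (hU : IsPreconnected U) {f : ℂ → ℂ} (hf : AnalyticOnNhd ℂ f U)
    (hne : ∃ x ∈ U, f x ≠ 0) : {x | x ∈ U ∧ f x = 0}.Countable := by
  set Z : Set ℂ := {x | x ∈ U ∧ f x = 0} with hZ
  have hd : DiscreteTopology Z := by
    rw [discreteTopology_subtype_iff]
    intro x hx
    rcases hf.eqOn_zero_or_eventually_ne_zero_of_preconnected hU with h | h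
    · obtain ⟨y, hy, hy'⟩ := hne
      exact absurd (h hy) hy'
    · have h1 := (hf x hx.1).eventually_eq_zero_or_eventually_ne_zero
      rcases h1 with h1 | h1
      · exfalso
        have h2 := hf.eqOn_zero_of_preconnected_of_eventuallyEq_zero hU hx.1 h1
        obtain ⟨y, hy, hy'⟩ := hne
        exact hy' (h2 hy)
      · rw [Filter.inf_principal_eq_bot]
        filter_upwards [h1] with y hy hy2
        exact hy hy2.2
  have : Countable Z := countable_of_Lindelof_of_discrete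
  exact Set.countable_coe_iff.1 this

variable {ι : Type*} [Fintype ι]

lemma not_int_of_indep {z : ι → ℂ}
    (hz : ∀ (m : ι → ℤ) (l : ℤ), ∑ i, (m i : ℂ) * z i = l → m = 0) (i : ι) (l : ℤ) :
    z i ≠ l := by
  classical
  intro h
  have h1 := hz (Pi.single i 1) l (by
    rw [Finset.sum_eq_single i]
    · simp [h]
    · intro j _ hj; simp [hj]
    · simp)
  have := congrFun h1 i
  simp at this

lemma bad_countable {z : ι → ℂ} (hz : ∀ i, ∀ l : ℤ, z i ≠ l) :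
    {τ : ℂ | ∃ i, z i ∈ Lam τ}.Countable := by
  refine (Set.countable_range (fun p : ι × ℤ × ℤ => (z p.1 - p.2.1) / p.2.2)).mono ?_
  rintro τ ⟨i, hi⟩
  rw [mem_Lam] at hi
  obtain ⟨m, n, h⟩ := hi
  have hn : (n : ℂ) ≠ 0 := by
    intro h0
    rw [h0, zero_mul, add_zero] at h
    exact hz i m h
  refine ⟨(i, m, n), ?_⟩
  simp only
  rw [h]
  field_simp
  ring

omit [Fintype ι] in
lemma analytic_fpt {z : ι → ℂ} {τ : ℂ} (hτ : 0 < τ.im) (hz : ∀ i, z i ∉ Lam τ)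
    (s : Fin 4 ⊕ (ι ⊕ ι)) : AnalyticAt ℂ (fun τ => fpt τ τ z s) τ := by
  rcases s with s | s | s
  · fin_cases s
    · exact analyticAt_id
    · exact analytic_et (τ := fun x => x) analyticAt_id hτ
    · exact analytic_gk (τ := fun x => x) (by norm_num) analyticAt_id hτ
    · exact analytic_gk (τ := fun x => x) (by norm_num) analyticAt_id hτ
  · exact analytic_wp (z := fun _ => z s) (τ := fun x => x) analyticAt_const analyticAt_id hτ
      (notMem_Lam_iff.1 (hz s))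
  · exact analytic_zt (z := fun _ => z s) (τ := fun x => x) analyticAt_const analyticAt_id hτ
      (notMem_Lam_iff.1 (hz s))

lemma countable_mvPolynomial (σ K : Type*) [Countable σ] [Field K] [Countable K] :
    Countable (MvPolynomial σ K) := by
  rw [← Cardinal.mk_le_aleph0_iff]
  refine (MvPolynomial.cardinalMk_le_max_lift (σ := σ) (R := K)).trans ?_
  simp only [max_le_iff, Cardinal.lift_le_aleph0, Cardinal.mk_le_aleph0_iff, le_refl]
  exact ⟨⟨inferInstance, inferInstance⟩, trivial⟩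

/-- **Exceptional set.** For numbers `z_i` which are linearly independent over `ℚ` together with
`1`, and a countable field `K`, the values at `τ` are algebraically independent over `K` for all
but countably many `τ`. -/
theorem exc_countable {z : ι → ℂ}
    (hz : ∀ (m : ι → ℤ) (l : ℤ), ∑ i, (m i : ℂ) * z i = l → m = 0)
    (K : Type*) [Field K] [Countable K] [Algebra K ℂ] :
    {τ : ℂ | 0 < τ.im ∧ ((∃ i, z i ∈ Lam τ) ∨ ¬ AlgebraicIndependent K (fpt τ τ z))}.Countable := by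
  classical
  set B : Set ℂ := {τ : ℂ | ∃ i, z i ∈ Lam τ} with hB
  have hBc : B.Countable := bad_countable (not_int_of_indep hz)
  set U : Set ℂ := {τ : ℂ | 0 < τ.im ∧ τ ∉ B} with hU
  have hUc : IsPreconnected U := preconnected_half hBc
  have hUz : ∀ τ ∈ U, 0 < τ.im ∧ ∀ i, z i ∉ Lam τ := by
    rintro τ ⟨h1, h2⟩
    refine ⟨h1, fun i hi => h2 ⟨i, hi⟩⟩
  have hcm := countable_mvPolynomial (Fin 4 ⊕ (ι ⊕ ι)) K
  have hZ : ∀ p : MvPolynomial (Fin 4 ⊕ (ι ⊕ ι)) K, p ≠ 0 →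
      {τ | τ ∈ U ∧ MvPolynomial.aeval (fpt τ τ z) p = (0 : ℂ)}.Countable := by
    intro p hp
    refine zeros_countable hUc (f := fun τ => MvPolynomial.aeval (fpt τ τ z) p) ?_ ?_
    · intro τ hτ
      obtain ⟨h1, h2⟩ := hUz τ hτ
      exact AnalyticAt.aeval_mvPolynomial (fun s => analytic_fpt h1 h2 s) p
    · by_contra hcon
      push Not at hcon
      apply hp
      have h3 := func_indep hz (MvPolynomial.map (algebraMap K ℂ) p) (by
        intro τ hτ hzτ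
        rw [MvPolynomial.eval_map, ← MvPolynomial.aeval_def]
        exact hcon τ ⟨hτ, fun ⟨i, hi⟩ => hzτ i hi⟩)
      exact (map_eq_zero_iff _ (MvPolynomial.map_injective _ (algebraMap K ℂ).injective)).1 h3
  refine (hBc.union (Set.countable_iUnion fun p : MvPolynomial (Fin 4 ⊕ (ι ⊕ ι)) K =>
    Set.countable_iUnion fun hp : p ≠ 0 => hZ p hp)).mono ?_
  rintro τ ⟨hτ, h⟩
  by_cases hb : τ ∈ B
  · exact Or.inl hb
  right
  rcases h with h | h
  · exact absurd h hb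
  rw [algebraicIndependent_iff] at h
  push Not at h
  obtain ⟨p, hp, hp0⟩ := h
  simp only [Set.mem_iUnion]
  exact ⟨p, hp0, ⟨hτ, hb⟩, hp⟩

end Pool.Agent.Work.MP_8da9ea_nt

end

section

/-!
# Bookkeeping: from normalised values to the field of the problem
-/

set_option autoImplicit false

namespace Pool.Agent.Work.MP_8da9ea_nt

open Complex Filter Topology

variable {s n : ℕ}

section gens

variable (ω₁ ω₂ : ℂ) (t : Fin s → ℂ) (p : Fin n → ℂ)

lemma big_t (l : Fin s) : t l ∈ bigField ω₁ ω₂ t p :=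
  IntermediateField.subset_adjoin _ _ (by simp)

lemma big_exp (l : Fin s) : Complex.exp (t l) ∈ bigField ω₁ ω₂ t p :=
  IntermediateField.subset_adjoin _ _ (by simp)

lemma big_p (i : Fin n) : p i ∈ bigField ω₁ ω₂ t p :=
  IntermediateField.subset_adjoin _ _ (by simp)

lemma big_o1 : ω₁ ∈ bigField ω₁ ω₂ t p :=
  IntermediateField.subset_adjoin _ _ (by simp)

lemma big_o2 : ω₂ ∈ bigField ω₁ ω₂ t p :=
  IntermediateField.subset_adjoin _ _ (by simp)

lemma big_g2 : 60 * gk 4 ω₁ ω₂ ∈ bigField ω₁ ω₂ t p := by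
  refine IntermediateField.subset_adjoin _ _ ?_
  have : 60 * gk 4 ω₁ ω₂ = 60 * ∑' q : ℤ × ℤ, 1 / ((q.1 : ℂ) * ω₁ + (q.2 : ℂ) * ω₂) ^ 4 := rfl
  rw [this]
  simp

lemma big_g3 : 140 * gk 6 ω₁ ω₂ ∈ bigField ω₁ ω₂ t p := by
  refine IntermediateField.subset_adjoin _ _ ?_
  have : 140 * gk 6 ω₁ ω₂ = 140 * ∑' q : ℤ × ℤ, 1 / ((q.1 : ℂ) * ω₁ + (q.2 : ℂ) * ω₂) ^ 6 := rfl
  rw [this]
  simp

lemma big_wp (i : Fin n) : wp ω₁ ω₂ (p i) ∈ bigField ω₁ ω₂ t p := by
  refine IntermediateField.subset_adjoin _ _ ?_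
  refine Or.inl (Or.inl (Or.inr ⟨i, rfl⟩))

lemma big_zt (i : Fin n) : zt ω₁ ω₂ (p i) ∈ bigField ω₁ ω₂ t p := by
  refine IntermediateField.subset_adjoin _ _ ?_
  refine Or.inl (Or.inr ⟨i, rfl⟩)

lemma big_e1 : 2 * zt ω₁ ω₂ (ω₁ / 2) ∈ bigField ω₁ ω₂ t p := by
  refine IntermediateField.subset_adjoin _ _ ?_
  exact Or.inr (Or.inr (Or.inr (Or.inl rfl)))

lemma big_e2 : 2 * zt ω₁ ω₂ (ω₂ / 2) ∈ bigField ω₁ ω₂ t p := by
  refine IntermediateField.subset_adjoin _ _ ?_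
  exact Or.inr (Or.inr (Or.inr (Or.inr rfl)))

/-- the universal property of the field -/
lemma big_le {L : IntermediateField ℚ ℂ} (h1 : ∀ l, t l ∈ L) (h2 : ∀ l, Complex.exp (t l) ∈ L)
    (h3 : 60 * gk 4 ω₁ ω₂ ∈ L) (h4 : 140 * gk 6 ω₁ ω₂ ∈ L) (h5 : ∀ i, p i ∈ L)
    (h6 : ∀ i, wp ω₁ ω₂ (p i) ∈ L) (h7 : ∀ i, zt ω₁ ω₂ (p i) ∈ L) (h8 : ω₁ ∈ L) (h9 : ω₂ ∈ L)
    (h10 : 2 * zt ω₁ ω₂ (ω₁ / 2) ∈ L) (h11 : 2 * zt ω₁ ω₂ (ω₂ / 2) ∈ L) :
    bigField ω₁ ω₂ t p ≤ L := by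
  unfold bigField
  rw [IntermediateField.adjoin_le_iff]
  rintro x ((((((⟨l, rfl⟩ | ⟨l, rfl⟩) | h) | ⟨i, rfl⟩) | ⟨i, rfl⟩) | ⟨i, rfl⟩) | h)
  · exact h1 l
  · exact h2 l
  · rcases h with rfl | rfl
    · exact h3
    · exact h4
  · exact h5 i
  · exact h6 i
  · exact h7 i
  · rcases h with rfl | rfl | rfl | rfl
    · exact h8
    · exact h9
    · exact h10
    · exact h11

end gens

lemma zt_neg_arg (a b z : ℂ) : zt a b (-z) = - zt a b z := by
  unfold zt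
  rw [← tsum_neg, ← (Equiv.neg (ℤ × ℤ)).tsum_eq]
  refine tsum_congr fun q => ?_
  have h : lp a b (Equiv.neg (ℤ × ℤ) q) = - lp a b q := by
    simp [lp]; ring
  simp only [ztT, h]
  rw [show -z - -lp a b q = -(z - lp a b q) by ring]
  simp only [div_eq_mul_inv, inv_neg, neg_sq]
  ring

lemma bigField_neg_le (ω₁ ω₂ : ℂ) (t : Fin s → ℂ) (p : Fin n → ℂ) :
    bigField ω₁ (-ω₂) t p ≤ bigField ω₁ ω₂ t p := by
  refine big_le ω₁ (-ω₂) t p (big_t _ _ _ _) (big_exp _ _ _ _) ?_ ?_ (big_p _ _ _ _) ?_ ?_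
    (big_o1 _ _ _ _) (neg_mem (big_o2 _ _ _ _)) ?_ ?_
  · rw [gk_N]; exact big_g2 _ _ _ _
  · rw [gk_N]; exact big_g3 _ _ _ _
  · intro i; rw [wp_N]; exact big_wp _ _ _ _ i
  · intro i; rw [zt_N]; exact big_zt _ _ _ _ i
  · rw [zt_N]; exact big_e1 _ _ _ _
  · rw [zt_N, neg_div, zt_neg_arg, mul_neg]; exact neg_mem (big_e2 _ _ _ _)

lemma bigField_neg (ω₁ ω₂ : ℂ) (t : Fin s → ℂ) (p : Fin n → ℂ) :
    bigField ω₁ (-ω₂) t p = bigField ω₁ ω₂ t p := by
  refine le_antisymm (bigField_neg_le _ _ _ _) ?_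
  have := bigField_neg_le ω₁ (-ω₂) t p
  rwa [neg_neg] at this

section upper

variable {ω₁ τ : ℂ} (t : Fin s → ℂ) (p : Fin n → ℂ)

lemma wp_norm (h1 : ω₁ ≠ 0) (z : ℂ) :
    wp 1 τ (z / ω₁) = ω₁ ^ 2 * wp ω₁ (ω₁ * τ) z := by
  have h := wp_smul h1 1 τ (z / ω₁)
  rw [mul_one, mul_div_cancel₀ z h1] at h
  rw [h]
  field_simp

lemma zt_norm (h1 : ω₁ ≠ 0) (z : ℂ) :
    zt 1 τ (z / ω₁) = ω₁ * zt ω₁ (ω₁ * τ) z := by
  have h := zt_smul h1 1 τ (z / ω₁)
  rw [mul_one, mul_div_cancel₀ z h1] at h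
  rw [h]
  field_simp

lemma gk_norm (h1 : ω₁ ≠ 0) (k : ℕ) :
    gk k 1 τ = ω₁ ^ k * gk k ω₁ (ω₁ * τ) := by
  have h := gk_smul k ω₁ 1 τ
  rw [mul_one] at h
  rw [h]
  field_simp

lemma et_norm (h1 : ω₁ ≠ 0) : et τ = ω₁ * (2 * zt ω₁ (ω₁ * τ) (ω₁ / 2)) := by
  have h := zt_norm (τ := τ) h1 (ω₁ / 2)
  rw [show ω₁ / 2 / ω₁ = 1 / 2 by field_simp] at h
  unfold et
  rw [h]
  ring

lemma big_tau (h1 : ω₁ ≠ 0) : τ ∈ bigField ω₁ (ω₁ * τ) t p := by
  have h := div_mem (big_o2 ω₁ (ω₁ * τ) t p) (big_o1 ω₁ (ω₁ * τ) t p)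
  rwa [mul_div_cancel_left₀ _ h1] at h

lemma big_et (h1 : ω₁ ≠ 0) : et τ ∈ bigField ω₁ (ω₁ * τ) t p := by
  rw [et_norm h1]
  exact mul_mem (big_o1 _ _ _ _) (big_e1 _ _ _ _)

lemma big_gk4 (h1 : ω₁ ≠ 0) : gk 4 1 τ ∈ bigField ω₁ (ω₁ * τ) t p := by
  rw [gk_norm h1]
  refine mul_mem (pow_mem (big_o1 _ _ _ _) _) ?_
  have h := div_mem (big_g2 ω₁ (ω₁ * τ) t p) (ofNat_mem (bigField ω₁ (ω₁ * τ) t p) 60)
  rwa [mul_div_cancel_left₀ _ (by norm_num : (60 : ℂ) ≠ 0)] at h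

lemma big_gk6 (h1 : ω₁ ≠ 0) : gk 6 1 τ ∈ bigField ω₁ (ω₁ * τ) t p := by
  rw [gk_norm h1]
  refine mul_mem (pow_mem (big_o1 _ _ _ _) _) ?_
  have h := div_mem (big_g3 ω₁ (ω₁ * τ) t p) (ofNat_mem (bigField ω₁ (ω₁ * τ) t p) 140)
  rwa [mul_div_cancel_left₀ _ (by norm_num : (140 : ℂ) ≠ 0)] at h

lemma big_wp' (h1 : ω₁ ≠ 0) (i : Fin n) : wp 1 τ (p i / ω₁) ∈ bigField ω₁ (ω₁ * τ) t p := by
  rw [wp_norm h1]
  exact mul_mem (pow_mem (big_o1 _ _ _ _) _) (big_wp _ _ _ _ i)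

lemma big_zt' (h1 : ω₁ ≠ 0) (i : Fin n) : zt 1 τ (p i / ω₁) ∈ bigField ω₁ (ω₁ * τ) t p := by
  rw [zt_norm h1]
  exact mul_mem (big_o1 _ _ _ _) (big_zt _ _ _ _ i)

lemma big_pi (h1 : ω₁ ≠ 0) (hτ : 0 < τ.im) : 2 * (Real.pi : ℂ) * I ∈ bigField ω₁ (ω₁ * τ) t p := by
  have h := zt_half_tau hτ
  have h2 : 2 * zt 1 τ (τ / 2) ∈ bigField ω₁ (ω₁ * τ) t p := by
    have h3 := zt_norm (τ := τ) h1 (ω₁ * τ / 2)
    rw [show ω₁ * τ / 2 / ω₁ = τ / 2 by field_simp] at h3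
    rw [h3, mul_left_comm]
    exact mul_mem (big_o1 _ _ _ _) (big_e2 _ _ _ _)
  have h3 : 2 * (Real.pi : ℂ) * I = τ * et τ - 2 * zt 1 τ (τ / 2) := by
    rw [h]; ring
  rw [h3]
  exact sub_mem (mul_mem (big_tau t p h1) (big_et t p h1)) h2

end upper

end Pool.Agent.Work.MP_8da9ea_nt

end

section

/-!
# The zeros of the derivative of the Weierstrass function
-/

set_option autoImplicit false

namespace Pool.Agent.Work.MP_8da9ea_nt

open Complex Filter Topology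

/-- uniqueness for a linear second order equation -/
lemma order_zero_of_ode {w w' a : ℂ → ℂ} (hw : AnalyticAt ℂ w 0) (ha : AnalyticAt ℂ a 0)
    (h1 : ∀ᶠ t in 𝓝 (0 : ℂ), HasDerivAt w (w' t) t)
    (h2 : ∀ᶠ t in 𝓝 (0 : ℂ), HasDerivAt w' (a t * w t) t) (h0 : w 0 = 0) (h0' : w' 0 = 0) :
    ∀ᶠ t in 𝓝 (0 : ℂ), w t = 0 := by
  have e1 : w' =ᶠ[𝓝 0] deriv w := by
    filter_upwards [h1] with t ht
    exact ht.deriv.symm
  have hw' : AnalyticAt ℂ w' 0 := hw.deriv.congr e1.symm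
  have e2 : deriv w' =ᶠ[𝓝 0] a * w := by
    filter_upwards [h2] with t ht
    exact ht.deriv
  have o1 := hw.analyticOrderAt_deriv_add_one
  have o2 := hw'.analyticOrderAt_deriv_add_one
  rw [h0] at o1
  rw [h0'] at o2
  simp only [sub_zero] at o1 o2
  rw [← analyticOrderAt_congr e1] at o1
  rw [analyticOrderAt_congr e2, analyticOrderAt_mul ha hw] at o2
  rw [← analyticOrderAt_eq_top]
  rw [← o2] at o1
  by_contra hne
  obtain ⟨n, hn⟩ := ENat.ne_top_iff_exists.1 hne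
  rw [← hn] at o1
  cases hm : analyticOrderAt a 0 with
  | top => rw [hm] at o1; simp at o1
  | coe m =>
    rw [hm] at o1
    norm_cast at o1
    omega

/-- **the zeros of `℘'`**: they are half periods -/
theorem wpd_zero {τ z : ℂ} (hτ : 0 < τ.im) (hz : z ∉ Lam τ) (h : wpd τ z = 0) :
    2 * z ∈ Lam τ := by
  by_contra h2z
  set S : Set ℂ := {t | z + t ∉ Lam τ ∧ z - t ∉ Lam τ} with hS
  have hSo : IsOpen S := by
    have h1 : IsOpen ((fun t => z + t) ⁻¹' (Lam τ)ᶜ) := (Lam_compl_open hτ).preimage (by fun_prop)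
    have h2 : IsOpen ((fun t => z - t) ⁻¹' (Lam τ)ᶜ) := (Lam_compl_open hτ).preimage (by fun_prop)
    exact h1.inter h2
  have hSc : IsPreconnected S := by
    have h1 : ((fun t => z + t) ⁻¹' (Lam τ)).Countable :=
      (Lam_countable τ).preimage (add_right_injective z)
    have h2 : ((fun t => z - t) ⁻¹' (Lam τ)).Countable :=
      (Lam_countable τ).preimage sub_right_injective
    have h3 := (Set.Countable.isConnected_compl_of_one_lt_rank (E := ℂ) (by simp) (h1.union h2)).2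
    convert h3 using 1
    ext t
    simp [hS]
  have h0 : (0 : ℂ) ∈ S := by
    simp only [hS, Set.mem_ofPred_eq, add_zero, sub_zero]
    exact ⟨hz, hz⟩
  set w : ℂ → ℂ := fun t => wp 1 τ (z + t) - wp 1 τ (z - t) with hw
  set w' : ℂ → ℂ := fun t => wpd τ (z + t) + wpd τ (z - t) with hw'
  set a : ℂ → ℂ := fun t => 6 * (wp 1 τ (z + t) + wp 1 τ (z - t)) with ha
  have hd1 : ∀ t ∈ S, HasDerivAt (fun t => wp 1 τ (z + t)) (wpd τ (z + t)) t := by
    intro t ht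
    exact (hasDerivAt_wp_z hτ ht.1).comp_const_add z t
  have hd2 : ∀ t ∈ S, HasDerivAt (fun t => wp 1 τ (z - t)) (-wpd τ (z - t)) t := by
    intro t ht
    exact (hasDerivAt_wp_z hτ ht.2).comp_const_sub z t
  have hd3 : ∀ t ∈ S, HasDerivAt (fun t => wpd τ (z + t)) (wpdd τ (z + t)) t := by
    intro t ht
    exact (hasDerivAt_wpd_z hτ ht.1).comp_const_add z t
  have hd4 : ∀ t ∈ S, HasDerivAt (fun t => wpd τ (z - t)) (-wpdd τ (z - t)) t := by
    intro t ht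
    exact (hasDerivAt_wpd_z hτ ht.2).comp_const_sub z t
  have hwd : ∀ t ∈ S, HasDerivAt w (w' t) t := by
    intro t ht
    have := (hd1 t ht).sub (hd2 t ht)
    rw [sub_neg_eq_add] at this
    exact this
  have hwd' : ∀ t ∈ S, HasDerivAt w' (a t * w t) t := by
    intro t ht
    have h5 := (hd3 t ht).add (hd4 t ht)
    have h6 : a t * w t = wpdd τ (z + t) + -wpdd τ (z - t) := by
      change 6 * (wp 1 τ (z + t) + wp 1 τ (z - t)) * (wp 1 τ (z + t) - wp 1 τ (z - t)) = _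
      rw [wpdd_eq hτ ht.1, wpdd_eq hτ ht.2]
      ring
    rw [h6]
    exact h5
  have hwa : AnalyticOnNhd ℂ w S := by
    have : DifferentiableOn ℂ w S := fun t ht => (hwd t ht).differentiableAt.differentiableWithinAt
    exact this.analyticOnNhd hSo
  have haa : AnalyticAt ℂ a 0 := by
    have : DifferentiableOn ℂ a S := fun t ht =>
      (((hd1 t ht).add (hd2 t ht)).const_mul 6).differentiableAt.differentiableWithinAt
    exact this.analyticOnNhd hSo 0 h0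
  have hSn : S ∈ 𝓝 (0 : ℂ) := hSo.mem_nhds h0
  have key := order_zero_of_ode (hwa 0 h0) haa (by filter_upwards [hSn] with t ht using hwd t ht)
    (by filter_upwards [hSn] with t ht using hwd' t ht) (by simp [hw]) (by simp [hw', h])
  have hall := hwa.eqOn_of_preconnected_of_eventuallyEq (g := fun _ => 0)
        analyticOnNhd_const hSc h0 key
  -- behaviour at `z`
  have hev : ∀ᶠ t in 𝓝[≠] z, t ∈ S := by
    have h1 : ∀ᶠ t in 𝓝 z, z + t ∉ Lam τ := by
      have h3 : IsOpen ((fun t => z + t) ⁻¹' (Lam τ)ᶜ) :=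
        (Lam_compl_open hτ).preimage (by fun_prop)
      apply h3.mem_nhds
      simp only [Set.mem_preimage, Set.mem_compl_iff]
      rwa [← two_mul]
    have h4 : Tendsto (fun t => z - t) (𝓝[≠] z) (𝓝[≠] 0) := by
      apply tendsto_nhdsWithin_of_tendsto_nhds_of_eventually_within
      · have : Tendsto (fun t => z - t) (𝓝 z) (𝓝 (z - z)) := by
          apply Continuous.tendsto; fun_prop
        rw [sub_self] at this
        exact this.mono_left nhdsWithin_le_nhds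
      · filter_upwards [self_mem_nhdsWithin] with t ht
        intro h5
        exact ht (sub_eq_zero.1 h5).symm
    filter_upwards [h1.filter_mono nhdsWithin_le_nhds, h4.eventually (eventually_notMem hτ)]
      with t t1 t2
    exact ⟨t1, t2⟩
  have h4 : Tendsto (fun t => z - t) (𝓝[≠] z) (𝓝[≠] 0) := by
    apply tendsto_nhdsWithin_of_tendsto_nhds_of_eventually_within
    · have : Tendsto (fun t => z - t) (𝓝 z) (𝓝 (z - z)) := by
        apply Continuous.tendsto; fun_prop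
      rw [sub_self] at this
      exact this.mono_left nhdsWithin_le_nhds
    · filter_upwards [self_mem_nhdsWithin] with t ht
      intro h5
      exact ht (sub_eq_zero.1 h5).symm
  have l1 : Tendsto (fun t => (z - t) ^ 2 * wp 1 τ (z - t)) (𝓝[≠] z) (𝓝 1) :=
    (lim_sq_wp hτ).comp h4
  have l2 : Tendsto (fun t => (z - t) ^ 2 * wp 1 τ (z + t)) (𝓝[≠] z) (𝓝 0) := by
    have h5 : ContinuousAt (fun t => (z - t) ^ 2 * wp 1 τ (z + t)) z := by
      have h6 : ContinuousAt (fun t => wp 1 τ (z + t)) z := by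
        have h7 : z + z ∉ Lam τ := by rwa [← two_mul]
        have := (hasDerivAt_wp_z hτ h7).continuousAt
        exact ContinuousAt.comp (f := fun t => z + t) this (by fun_prop)
      exact ContinuousAt.mul (by fun_prop) h6
    have h8 := h5.tendsto
    simp only [sub_self] at h8
    rw [zero_pow two_ne_zero, zero_mul] at h8
    exact h8.mono_left nhdsWithin_le_nhds
  have l3 : Tendsto (fun t => (z - t) ^ 2 * wp 1 τ (z + t)) (𝓝[≠] z) (𝓝 1) := by
    refine l1.congr' ?_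
    filter_upwards [hev] with t ht
    have := hall ht
    simp only [hw] at this
    rw [sub_eq_zero.1 this]
  exact zero_ne_one (tendsto_nhds_unique l2 l3)

end Pool.Agent.Work.MP_8da9ea_nt

end

section

/-!
# Germs of the elliptic functions along an arc
-/

set_option autoImplicit false

namespace Pool.Agent.Work.MP_8da9ea_nt

open Complex Filter Topology

open Classical in
/-- the germ of a function (zero if the function is not meromorphic) -/
noncomputable def gm (τ₀ : ℂ) (f : ℂ → ℂ) : MG τ₀ :=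
  if hf : MeromorphicAt f τ₀ then MG.mk f hf else 0

variable {τ₀ : ℂ}

lemma gm_mk {f : ℂ → ℂ} (hf : MeromorphicAt f τ₀) : gm τ₀ f = MG.mk f hf := by
  rw [gm, dif_pos hf]

lemma gm_eq_of {f g : ℂ → ℂ} (hf : AnalyticAt ℂ f τ₀) (h : f =ᶠ[𝓝 τ₀] g) : gm τ₀ f = gm τ₀ g := by
  have hg : AnalyticAt ℂ g τ₀ := hf.congr h
  rw [gm_mk hf.meromorphicAt, gm_mk hg.meromorphicAt]
  exact MG.mk_eq_of_eq _ _ h

lemma gm_eq_iff {f g : ℂ → ℂ} (hf : AnalyticAt ℂ f τ₀) (hg : AnalyticAt ℂ g τ₀) :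
    gm τ₀ f = gm τ₀ g ↔ f =ᶠ[𝓝 τ₀] g := by
  refine ⟨fun h => ?_, gm_eq_of hf⟩
  rw [gm_mk hf.meromorphicAt, gm_mk hg.meromorphicAt] at h
  exact MG.eq_of_mk_eq hf hg h

lemma gm_const (c : ℂ) : gm τ₀ (fun _ => c) = algebraMap ℂ (MG τ₀) c := by
  rw [gm_mk (MeromorphicAt.const c τ₀)]
  rfl

lemma gm_add {f g : ℂ → ℂ} (hf : MeromorphicAt f τ₀) (hg : MeromorphicAt g τ₀) :
    gm τ₀ f + gm τ₀ g = gm τ₀ (fun x => f x + g x) := by
  rw [gm_mk hf, gm_mk hg, gm_mk (hf.fun_add hg)]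
  exact MG.mk_add hf hg

lemma gm_sub {f g : ℂ → ℂ} (hf : MeromorphicAt f τ₀) (hg : MeromorphicAt g τ₀) :
    gm τ₀ f - gm τ₀ g = gm τ₀ (fun x => f x - g x) := by
  rw [gm_mk hf, gm_mk hg, gm_mk (hf.fun_sub hg)]
  exact MG.mk_sub hf hg

lemma gm_mul {f g : ℂ → ℂ} (hf : MeromorphicAt f τ₀) (hg : MeromorphicAt g τ₀) :
    gm τ₀ f * gm τ₀ g = gm τ₀ (fun x => f x * g x) := by
  rw [gm_mk hf, gm_mk hg, gm_mk (hf.fun_mul hg)]
  exact MG.mk_mul hf hg

lemma gm_neg {f : ℂ → ℂ} (hf : MeromorphicAt f τ₀) : -gm τ₀ f = gm τ₀ (fun x => -f x) := by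
  rw [gm_mk hf, gm_mk hf.fun_neg]
  exact MG.mk_neg hf

lemma gm_pow {f : ℂ → ℂ} (hf : MeromorphicAt f τ₀) (n : ℕ) :
    gm τ₀ f ^ n = gm τ₀ (fun x => f x ^ n) := by
  rw [gm_mk hf, gm_mk (hf.fun_pow n)]
  exact MG.mk_pow hf n

lemma gm_inv {f : ℂ → ℂ} (hf : MeromorphicAt f τ₀) : (gm τ₀ f)⁻¹ = gm τ₀ (fun x => (f x)⁻¹) := by
  rw [gm_mk hf, gm_mk hf.fun_inv]
  exact MG.mk_inv hf

lemma gm_div {f g : ℂ → ℂ} (hf : MeromorphicAt f τ₀) (hg : MeromorphicAt g τ₀) :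
    gm τ₀ f / gm τ₀ g = gm τ₀ (fun x => f x / g x) := by
  rw [gm_mk hf, gm_mk hg, gm_mk (hf.fun_div hg)]
  exact MG.mk_div hf hg

lemma DD_gm {f : ℂ → ℂ} (hf : MeromorphicAt f τ₀) : MG.DD (gm τ₀ f) = gm τ₀ (deriv f) := by
  rw [gm_mk hf, gm_mk hf.deriv]
  exact MG.DD_mk hf

lemma DD_gm_of {f f' : ℂ → ℂ} (hf : AnalyticAt ℂ f τ₀) (h : ∀ᶠ τ in 𝓝 τ₀, HasDerivAt f (f' τ) τ) :
    MG.DD (gm τ₀ f) = gm τ₀ f' := by
  rw [DD_gm hf.meromorphicAt]
  apply gm_eq_of hf.deriv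
  filter_upwards [h] with τ hτ
  exact hτ.deriv

/-! analyticity along an arc -/

lemma analyticAt_et (hτ₀ : 0 < τ₀.im) : AnalyticAt ℂ et τ₀ :=
  analytic_et (τ := fun τ => τ) analyticAt_id hτ₀

lemma analyticAt_gg2 (hτ₀ : 0 < τ₀.im) : AnalyticAt ℂ gg2 τ₀ :=
  analyticAt_const.mul (analytic_gk (k := 4) (by norm_num) (τ := fun τ => τ) analyticAt_id hτ₀)

lemma analyticAt_gg3 (hτ₀ : 0 < τ₀.im) : AnalyticAt ℂ gg3 τ₀ :=
  analyticAt_const.mul (analytic_gk (k := 6) (by norm_num) (τ := fun τ => τ) analyticAt_id hτ₀)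

/-- an arc stays in the domain -/
lemma eventually_Dom {z : ℂ → ℂ} (hz : AnalyticAt ℂ z τ₀) (hτ₀ : 0 < τ₀.im) (hzL : z τ₀ ∉ Lam τ₀) :
    ∀ᶠ τ in 𝓝 τ₀, 0 < τ.im ∧ z τ ∉ Lam τ := by
  have h1 : ContinuousAt (fun τ => (τ, z τ)) τ₀ := continuousAt_id.prodMk hz.continuousAt
  exact h1 (Dom_nhds hτ₀ hzL)

lemma analyticAt_comp_of {F : ℂ × ℂ → ℂ} {z : ℂ → ℂ} (hz : AnalyticAt ℂ z τ₀) (hτ₀ : 0 < τ₀.im)
    (hzL : z τ₀ ∉ Lam τ₀)
    (hF : ∀ τ z : ℂ, 0 < τ.im → z ∉ Lam τ → DifferentiableAt ℂ F (τ, z)) :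
    AnalyticAt ℂ (fun τ => F (τ, z τ)) τ₀ := by
  rw [Complex.analyticAt_iff_eventually_differentiableAt]
  filter_upwards [eventually_Dom hz hτ₀ hzL, hz.eventually_analyticAt] with τ h1 h2
  exact (hF τ (z τ) h1.1 h1.2).comp τ (differentiableAt_id.prodMk h2.differentiableAt)

lemma analyticAt_wp_arc {z : ℂ → ℂ} (hz : AnalyticAt ℂ z τ₀) (hτ₀ : 0 < τ₀.im)
    (hzL : z τ₀ ∉ Lam τ₀) : AnalyticAt ℂ (fun τ => wp 1 τ (z τ)) τ₀ :=
  analyticAt_comp_of (F := fun p => wp 1 p.1 p.2) hz hτ₀ hzL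
    (fun _ _ h1 h2 => (hasStrictFDerivAt_wp h1 h2).hasFDerivAt.differentiableAt)

lemma analyticAt_wpd_arc {z : ℂ → ℂ} (hz : AnalyticAt ℂ z τ₀) (hτ₀ : 0 < τ₀.im)
    (hzL : z τ₀ ∉ Lam τ₀) : AnalyticAt ℂ (fun τ => wpd τ (z τ)) τ₀ :=
  analyticAt_comp_of (F := fun p => wpd p.1 p.2) hz hτ₀ hzL
    (fun _ _ h1 h2 => (hasStrictFDerivAt_wpd h1 h2).hasFDerivAt.differentiableAt)

lemma analyticAt_zt_arc {z : ℂ → ℂ} (hz : AnalyticAt ℂ z τ₀) (hτ₀ : 0 < τ₀.im)
    (hzL : z τ₀ ∉ Lam τ₀) : AnalyticAt ℂ (fun τ => zt 1 τ (z τ)) τ₀ :=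
  analyticAt_comp_of (F := fun p => zt 1 p.1 p.2) hz hτ₀ hzL
    (fun _ _ h1 h2 => (hasStrictFDerivAt_zt h1 h2).hasFDerivAt.differentiableAt)

end Pool.Agent.Work.MP_8da9ea_nt

end

section

/-!
# Negative weight

A holomorphic function on the upper half plane with the transformation laws of a modular form of
negative weight which is bounded at the cusp vanishes.
-/

set_option autoImplicit false

namespace Pool.Agent.Work.MP_8da9ea_nt

open Complex Filter Topology UpperHalfPlane ModularForm MatrixGroups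

theorem neg_weight_zero {G : ℂ → ℂ} {m : ℕ} (hm : 0 < m)
    (hG : ∀ τ ∈ HH, DifferentiableAt ℂ G τ) (hT : ∀ τ ∈ HH, G (τ + 1) = G τ)
    (hS : ∀ τ ∈ HH, τ ^ m * G (-1 / τ) = G τ)
    (hb : ∃ K T : ℝ, ∀ τ : ℂ, T ≤ τ.im → ‖G τ‖ ≤ K) : ∀ τ ∈ HH, G τ = 0 := by
  set f : ℍ → ℂ := fun z => G z with hf
  have h1 : f ∣[(-(m : ℤ))] ModularGroup.S = f := by
    funext z
    rw [SL_slash_apply, ModularGroup.denom_S, modular_S_smul, neg_neg, zpow_natCast]
    simp only [hf]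
    have := hS z z.im_pos
    rw [← this, mul_comm]
    congr 2
    change (-(z : ℂ))⁻¹ = -1 / z
    rw [neg_div, one_div, inv_neg]
  have h2 : f ∣[(-(m : ℤ))] ModularGroup.T = f := by
    funext z
    rw [SL_slash_apply, modular_T_smul]
    have hd : denom (ModularGroup.T : SL(2, ℤ)) z = 1 := by
      rw [ModularGroup.denom_apply]
      simp [ModularGroup.T]
    rw [hd, one_zpow, mul_one]
    simp only [hf]
    rw [coe_vadd, ofReal_one, add_comm]
    exact hT z z.im_pos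
  have h3 := SlashInvariantForm.slash_action_generators_SL2Z h1 h2
  have hbd : IsBoundedAtImInfty f := by
    obtain ⟨K, T, h⟩ := hb
    rw [isBoundedAtImInfty_iff]
    exact ⟨K, T, fun z hz => h z hz⟩
  let F : ModularForm 𝒮ℒ (-(m : ℤ)) :=
    { toFun := f
      slash_action_eq' := by
        rintro _ ⟨γ, rfl⟩
        exact h3 γ
      holo' := by
        rw [UpperHalfPlane.mdifferentiable_iff]
        intro z hz
        have h4 := hG z hz
        refine DifferentiableAt.differentiableWithinAt (h4.congr_of_eventuallyEq ?_)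
        filter_upwards [isOpen_upperHalfPlaneSet.mem_nhds hz] with w hw
        simp only [Function.comp_apply, SlashInvariantForm.coe_mk, hf]
        rw [ofComplex_apply_of_im_pos hw]
      bdd_at_cusps' := by
        intro c hc
        rw [OnePoint.isBoundedAt_iff_forall_SL2Z hc]
        intro γ _
        have := h3 γ
        change IsBoundedAtImInfty (f ∣[(-(m : ℤ))] γ)
        rw [this]
        exact hbd }
  have h5 := ModularFormClass.levelOne_neg_weight_eq_zero (k := -(m : ℤ)) (by omega) F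
  intro τ hτ
  have h6 := congrFun h5 ⟨τ, hτ⟩
  exact h6

end Pool.Agent.Work.MP_8da9ea_nt

end

section

/-!
# Arcs for the elliptic functions
-/

set_option autoImplicit false

namespace Pool.Agent.Work.MP_8da9ea_nt

open Complex Filter Topology MvPolynomial

/-- the field `ℚ(2πi)` -/
noncomputable def kF : IntermediateField ℚ ℂ := IntermediateField.adjoin ℚ {kap}

lemma kap_mem_kF : kap ∈ kF := IntermediateField.subset_adjoin _ _ rfl

instance : Countable kF := countable_adjoin {kap} (Set.countable_singleton _)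

/-- `1/(2πi)` as an element of the field -/
noncomputable def kinv : kF := ⟨kap⁻¹, inv_mem kap_mem_kF⟩

variable {ι κ' : Type}

/-- the coordinates: the modulus, the logarithms, the exponents -/
abbrev NN (ι κ' : Type) := Option (ι ⊕ κ')

/-- the functions -/
abbrev SSa (ι κ' : Type) := Fin 4 ⊕ ((Fin 4 × ι) ⊕ (Fin 2 × κ'))

/-- the values of the functions -/
noncomputable def FFa (y : NN ι κ' → ℂ) : SSa ι κ' → ℂ
  | Sum.inl k => ![y none, et (y none), gg2 (y none), gg3 (y none)] k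
  | Sum.inr (Sum.inl (k, i)) => ![y (some (Sum.inl i)), wp 1 (y none) (y (some (Sum.inl i))),
      wpd (y none) (y (some (Sum.inl i))), zt 1 (y none) (y (some (Sum.inl i)))] k
  | Sum.inr (Sum.inr (k, l)) => ![y (some (Sum.inr l)), exp (y (some (Sum.inr l)))] k

section polys

/-- variables -/
noncomputable abbrev vE : MvPolynomial (SSa ι κ') kF := X (Sum.inl 1)
/-- variables -/
noncomputable abbrev vG2 : MvPolynomial (SSa ι κ') kF := X (Sum.inl 2)
/-- variables -/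
noncomputable abbrev vG3 : MvPolynomial (SSa ι κ') kF := X (Sum.inl 3)
/-- variables -/
noncomputable abbrev vZ (i : ι) : MvPolynomial (SSa ι κ') kF := X (Sum.inr (Sum.inl (0, i)))
/-- variables -/
noncomputable abbrev vX (i : ι) : MvPolynomial (SSa ι κ') kF := X (Sum.inr (Sum.inl (1, i)))
/-- variables -/
noncomputable abbrev vY (i : ι) : MvPolynomial (SSa ι κ') kF := X (Sum.inr (Sum.inl (2, i)))
/-- variables -/
noncomputable abbrev vW (i : ι) : MvPolynomial (SSa ι κ') kF := X (Sum.inr (Sum.inl (3, i)))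
/-- variables -/
noncomputable abbrev vX1 (l : κ') : MvPolynomial (SSa ι κ') kF := X (Sum.inr (Sum.inr (1, l)))

variable [DecidableEq ι] [DecidableEq κ']

/-- the partial derivatives as polynomials in the functions -/
noncomputable def PPd : NN ι κ' → SSa ι κ' → MvPolynomial (SSa ι κ') kF
  | none, Sum.inl k => ![1, C kinv * (-vE ^ 2 + C (1 / 12) * vG2),
      C kinv * (-4 * vE * vG2 + 6 * vG3), C kinv * (-6 * vE * vG3 + C (1 / 3) * vG2 ^ 2)] k
  | none, Sum.inr (Sum.inl (k, i)) => ![0,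
      C kinv * ((vW i - vZ i * vE) * vY i + 2 * vX i ^ 2 - 2 * vE * vX i - C (1 / 3) * vG2),
      C kinv * ((vW i - vZ i * vE) * (6 * vX i ^ 2 - C (1 / 2) * vG2) + 3 * vX i * vY i -
        3 * vE * vY i),
      C kinv * (-(vW i - vZ i * vE) * vX i - C (1 / 2) * vY i - vE * vW i +
        C (1 / 12) * vG2 * vZ i)] k
  | none, Sum.inr (Sum.inr _) => 0
  | some (Sum.inl j), Sum.inr (Sum.inl (k, i)) =>
      if j = i then ![1, vY i, 6 * vX i ^ 2 - C (1 / 2) * vG2, -vX i] k else 0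
  | some (Sum.inr j), Sum.inr (Sum.inr (k, l)) => if j = l then ![1, vX1 l] k else 0
  | _, _ => 0

end polys

/-- the domain -/
def DD' (ι κ' : Type) : Set (NN ι κ' → ℂ) :=
  {y | 0 < (y none).im ∧ ∀ i : ι, y (some (Sum.inl i)) ∉ Lam (y none)}

lemma DD'_open [Finite ι] : IsOpen (DD' ι κ') := by
  have h : DD' ι κ' = {y | 0 < (y none).im} ∩
      ⋂ i : ι, {y | (y none, y (some (Sum.inl i))) ∈ Dom} := by
    ext y
    simp only [DD', Dom, Set.mem_ofPred_eq, Set.mem_inter_iff, Set.mem_iInter]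
    constructor
    · rintro ⟨h1, h2⟩
      exact ⟨h1, fun i => ⟨h1, h2 i⟩⟩
    · rintro ⟨h1, h2⟩
      exact ⟨h1, fun i => (h2 i).2⟩
  rw [h]
  refine IsOpen.inter ?_ (isOpen_iInter_of_finite fun i => ?_)
  · exact isOpen_lt continuous_const (Complex.continuous_im.comp (continuous_apply none))
  · exact Dom_open.preimage ((continuous_apply none).prodMk (continuous_apply (some (Sum.inl i))))

variable [Fintype ι] [Fintype κ']

/-- coordinate projections -/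
noncomputable abbrev pj (a : NN ι κ') : (NN ι κ' → ℂ) →L[ℂ] ℂ :=
  ContinuousLinearMap.proj (R := ℂ) (φ := fun _ : NN ι κ' => ℂ) a

lemma sum_pj_z [DecidableEq ι] (c : NN ι κ' → ℂ) (i : ι) (A B : ℂ) (h0 : c none = A)
    (h1 : ∀ j, c (some (Sum.inl j)) = if j = i then B else 0) (h2 : ∀ l, c (some (Sum.inr l)) = 0) :
    ∑ a, c a • pj a = A • pj none + B • pj (some (Sum.inl i)) := by
  ext v
  rw [sum_apply, Fintype.sum_option, Fintype.sum_sum_type, h0, Finset.sum_eq_single i]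
  · simp [h1, h2]
  · intro j _ hj
    simp [h1, hj]
  · simp

lemma sum_pj_t [DecidableEq κ'] (c : NN ι κ' → ℂ) (l : κ') (B : ℂ) (h0 : c none = 0)
    (h1 : ∀ j, c (some (Sum.inl j)) = 0) (h2 : ∀ j, c (some (Sum.inr j)) = if j = l then B else 0) :
    ∑ a, c a • pj a = B • pj (some (Sum.inr l)) := by
  ext v
  rw [sum_apply, Fintype.sum_option, Fintype.sum_sum_type, h0, Finset.sum_eq_single l
    (f := fun x => (c (some (Sum.inr x)) • pj (some (Sum.inr x))) v)]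
  · simp [h1, h2]
  · intro j _ hj
    simp [h2, hj]
  · simp

lemma hasFDerivAt_two {y : NN ι κ' → ℂ} (i : ι) {H : ℂ × ℂ → ℂ} {A B : ℂ}
    (hH : HasFDerivAt H (lf A B) (y none, y (some (Sum.inl i)))) :
    HasFDerivAt (fun y : NN ι κ' → ℂ => H (y none, y (some (Sum.inl i))))
      (A • pj none + B • pj (some (Sum.inl i))) y := by
  have h1 : HasFDerivAt (fun y : NN ι κ' → ℂ => (y none, y (some (Sum.inl i))))
      ((pj none).prod (pj (some (Sum.inl i)))) y :=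
    (pj (none : NN ι κ')).hasFDerivAt.prodMk (pj (some (Sum.inl i) : NN ι κ')).hasFDerivAt
  have h2 := hH.comp y h1
  refine h2.congr_fderiv ?_
  ext v
  simp [lf]

lemma hasFDerivAt_one {y : NN ι κ' → ℂ} (a : NN ι κ') {H : ℂ → ℂ} {A : ℂ}
    (hH : HasDerivAt H A (y a)) :
    HasFDerivAt (fun y : NN ι κ' → ℂ => H (y a)) (A • pj a) y := by
  have h2 := hH.hasFDerivAt.comp y (pj a).hasFDerivAt
  refine h2.congr_fderiv ?_
  ext v
  simp [mul_comm]

set_option linter.unusedSimpArgs false in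
theorem hasFDerivAt_FF [DecidableEq ι] [DecidableEq κ'] {y : NN ι κ' → ℂ} (hy : y ∈ DD' ι κ') (s : SSa ι κ') :
    HasFDerivAt (fun y => FFa y s) (∑ a, aeval (FFa y) (PPd a s) • pj a) y := by
  have hτ := hy.1
  have hk : algebraMap kF ℂ kinv = kap⁻¹ := rfl
  have c2 : ((2 : kF) : ℂ) = 2 := rfl
  have c3 : ((3 : kF) : ℂ) = 3 := rfl
  have c12 : ((12 : kF) : ℂ) = 12 := rfl
  rcases s with k | ⟨k, i⟩ | ⟨k, l⟩
  · -- functions of `τ` only
    have key : ∀ (H : ℂ → ℂ) (A : ℂ), HasDerivAt H A (y none) →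
        (∀ y' : NN ι κ' → ℂ, FFa y' (Sum.inl k) = H (y' none)) →
        aeval (FFa y) (PPd none (Sum.inl k) : MvPolynomial (SSa ι κ') kF) = A →
        HasFDerivAt (fun y : NN ι κ' → ℂ => FFa y (Sum.inl k))
          (∑ a, aeval (FFa y) (PPd a (Sum.inl k) : MvPolynomial (SSa ι κ') kF) • pj a) y := by
      intro H A h1 h2 h3
      have h4 : (∑ a, aeval (FFa y) (PPd a (Sum.inl k) : MvPolynomial (SSa ι κ') kF) • pj a) =
          A • pj none := by
        ext v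
        rw [sum_apply, Fintype.sum_option, Fintype.sum_sum_type, h3]
        simp [PPd]
      rw [h4]
      simp only [h2]
      exact hasFDerivAt_one none h1
    fin_cases k
    · refine key (fun τ => τ) 1 (hasDerivAt_id _) (fun _ => rfl) ?_
      simp [PPd]
    · refine key et _ (ode_et hτ) (fun _ => rfl) ?_
      simp [PPd, FFa, hk, c2, c3, c12]
      field_simp
    · refine key gg2 _ (ode_gg2 hτ) (fun _ => rfl) ?_
      simp [PPd, FFa, hk, c2, c3, c12]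
      field_simp
    · refine key gg3 _ (ode_gg3 hτ) (fun _ => rfl) ?_
      simp [PPd, FFa, hk, c2, c3, c12]
      field_simp
  · have hz := hy.2 i
    have key : ∀ (H : ℂ × ℂ → ℂ) (A B : ℂ),
        HasFDerivAt H (lf A B) (y none, y (some (Sum.inl i))) →
        (∀ y' : NN ι κ' → ℂ, FFa y' (Sum.inr (Sum.inl (k, i))) =
          H (y' none, y' (some (Sum.inl i)))) →
        aeval (FFa y) (PPd none (Sum.inr (Sum.inl (k, i))) : MvPolynomial (SSa ι κ') kF) = A →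
        aeval (FFa y) (PPd (some (Sum.inl i)) (Sum.inr (Sum.inl (k, i))) :
          MvPolynomial (SSa ι κ') kF) = B →
        HasFDerivAt (fun y : NN ι κ' → ℂ => FFa y (Sum.inr (Sum.inl (k, i))))
          (∑ a, aeval (FFa y) (PPd a (Sum.inr (Sum.inl (k, i))) :
            MvPolynomial (SSa ι κ') kF) • pj a) y := by
      intro H A B h1 h2 h3 h4
      rw [sum_pj_z _ i A B h3 (fun j => by
        by_cases hj : j = i
        · subst hj; simp [h4]
        · simp [PPd, hj]) (fun l => by simp [PPd])]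
      simp only [h2]
      exact hasFDerivAt_two i h1
    fin_cases k
    · refine key (fun p => p.2) 0 1 ?_ (fun _ => rfl) ?_ ?_
      · have h5 : lf 0 1 = ContinuousLinearMap.snd ℂ ℂ ℂ := by ext <;> simp [lf]
        rw [h5]
        exact hasFDerivAt_snd
      · simp [PPd]
      · simp [PPd]
    · refine key (fun p => wp 1 p.1 p.2) _ _ (hasFDerivAt_wp hτ hz) (fun _ => rfl) ?_ ?_
      · rw [wpt_eq' hτ hz]
        simp [PPd, FFa, hk, c2, c3, c12]
        field_simp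
      · simp [PPd, FFa]
    · refine key (fun p => wpd p.1 p.2) _ _ (hasFDerivAt_wpd hτ hz) (fun _ => rfl) ?_ ?_
      · rw [wpdt_eq' hτ hz, wpdd_eq hτ hz]
        simp [PPd, FFa, hk, c2, c3, c12]
        field_simp
      · rw [wpdd_eq hτ hz]
        simp [PPd, FFa, c2]
        ring
    · refine key (fun p => zt 1 p.1 p.2) _ _ (hasFDerivAt_zt hτ hz) (fun _ => rfl) ?_ ?_
      · rw [ztt_eq' hτ hz]
        simp [PPd, FFa, hk, c2, c3, c12]
        field_simp
      · simp [PPd, FFa]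
  · have key : ∀ (H : ℂ → ℂ) (A : ℂ), HasDerivAt H A (y (some (Sum.inr l))) →
        (∀ y' : NN ι κ' → ℂ, FFa y' (Sum.inr (Sum.inr (k, l))) = H (y' (some (Sum.inr l)))) →
        aeval (FFa y) (PPd (some (Sum.inr l)) (Sum.inr (Sum.inr (k, l))) :
          MvPolynomial (SSa ι κ') kF) = A →
        HasFDerivAt (fun y : NN ι κ' → ℂ => FFa y (Sum.inr (Sum.inr (k, l))))
          (∑ a, aeval (FFa y) (PPd a (Sum.inr (Sum.inr (k, l))) :
            MvPolynomial (SSa ι κ') kF) • pj a) y := by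
      intro H A h1 h2 h3
      rw [sum_pj_t _ l A (by simp [PPd]) (fun j => by simp [PPd]) (fun j => by
        by_cases hj : j = l
        · subst hj; simp [h3]
        · simp [PPd, hj])]
      simp only [h2]
      exact hasFDerivAt_one _ h1
    fin_cases k
    · refine key (fun t => t) 1 (hasDerivAt_id _) (fun _ => rfl) ?_
      simp [PPd]
    · refine key exp _ (Complex.hasDerivAt_exp _) (fun _ => rfl) ?_
      simp [PPd, FFa]

/-- **Arcs.** For all moduli outside a countable set there is, through every choice of the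
logarithms and exponents, an arc along which all relations over `ℚ(2πi)` persist. -/
theorem exists_arcs_FF (ι κ' : Type) [Fintype ι] [Fintype κ'] :
    ∃ E : Set ℂ, E.Countable ∧ ∀ x ∈ DD' ι κ', x none ∉ E →
      ∃ γ : ℂ → NN ι κ' → ℂ, AnalyticAt ℂ γ (x none) ∧ γ (x none) = x ∧
        (∀ᶠ τ in 𝓝 (x none), γ τ none = τ) ∧
        ∀ P : MvPolynomial (SSa ι κ') kF, aeval (FFa x) P = 0 →
          ∀ᶠ τ in 𝓝 (x none), aeval (FFa (γ τ)) P = 0 := by
  classical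
  exact exists_arcs (k := kF) (N := NN ι κ') (σ := SSa ι κ') none (DD' ι κ') DD'_open FFa PPd
    (fun x hx s => hasFDerivAt_FF hx s)

end Pool.Agent.Work.MP_8da9ea_nt

end

section

/-!
# The Ax–Schanuel theorem for germs
-/

set_option autoImplicit false

namespace Pool.Agent.Work.MP_8da9ea_nt

open Complex Filter Topology MvPolynomial

variable {τ₀ : ℂ}

/-- polynomials in germs -/
lemma gm_aeval {R : Type*} [CommSemiring R] [Algebra R ℂ] [Algebra R (MG τ₀)]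
    [IsScalarTower R ℂ (MG τ₀)] {σ : Type*} (f : σ → ℂ → ℂ) (hf : ∀ s, AnalyticAt ℂ (f s) τ₀)
    (P : MvPolynomial σ R) :
    AnalyticAt ℂ (fun τ => aeval (fun s => f s τ) P) τ₀ ∧
      aeval (fun s => gm τ₀ (f s)) P = gm τ₀ (fun τ => aeval (fun s => f s τ) P) := by
  induction P using MvPolynomial.induction_on with
  | C c =>
    simp only [MvPolynomial.algHom_C]
    refine ⟨analyticAt_const, ?_⟩
    rw [gm_const, ← IsScalarTower.algebraMap_apply]
  | add p q hp hq =>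
    simp only [map_add]
    refine ⟨hp.1.add hq.1, ?_⟩
    rw [hp.2, hq.2, gm_add hp.1.meromorphicAt hq.1.meromorphicAt]
  | mul_X p s hp =>
    simp only [map_mul, aeval_X]
    refine ⟨hp.1.mul (hf s), ?_⟩
    rw [hp.2, gm_mul hp.1.meromorphicAt (hf s).meromorphicAt]

/-- the four modular functions are algebraically independent germs -/
theorem hindep (hτ₀ : 0 < τ₀.im) :
    AlgebraicIndependent ℂ ![gm τ₀ (fun τ => τ), gm τ₀ et, gm τ₀ gg2, gm τ₀ gg3] := by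
  rw [algebraicIndependent_iff]
  intro P hP
  set f : Fin 4 → ℂ → ℂ := ![fun τ => τ, et, gg2, gg3] with hf
  have hfan : ∀ {τ : ℂ}, 0 < τ.im → ∀ s, AnalyticAt ℂ (f s) τ := by
    intro τ hτ s
    fin_cases s
    · exact analyticAt_id
    · exact analyticAt_et hτ
    · exact analyticAt_gg2 hτ
    · exact analyticAt_gg3 hτ
  have h1 : (![gm τ₀ (fun τ => τ), gm τ₀ et, gm τ₀ gg2, gm τ₀ gg3] : Fin 4 → MG τ₀) =
      fun s => gm τ₀ (f s) := by
    funext s
    fin_cases s <;> rfl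
  obtain ⟨h2, h3⟩ := gm_aeval f (hfan hτ₀) P
  rw [h1, h3] at hP
  have h4 : (fun τ => aeval (fun s => f s τ) P) =ᶠ[𝓝 τ₀] fun _ => 0 := by
    rw [← gm_eq_iff h2 analyticAt_const, hP, gm_const, map_zero]
  have h5 : IsPreconnected {τ : ℂ | 0 < τ.im} := by
    have := preconnected_half (S := ∅) Set.countable_empty
    simpa using this
  have h6 : Set.EqOn (fun τ => aeval (fun s => f s τ) P) (fun _ => 0) {τ : ℂ | 0 < τ.im} := by
    have h7 : AnalyticOnNhd ℂ (fun τ => aeval (fun s => f s τ) P) {τ : ℂ | 0 < τ.im} :=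
      fun τ hτ => (gm_aeval f (hfan hτ) P).1
    exact h7.eqOn_of_preconnected_of_eventuallyEq (fun _ _ => analyticAt_const) h5 hτ₀ h4
  -- reduce to the functional independence
  set c : Fin 4 → ℂ := ![1, 1, 60, 140] with hc
  have hc0 : ∀ s, c s ≠ 0 := by
    intro s
    fin_cases s <;> simp [hc]
  set Q : MvPolynomial (Fin 4 ⊕ (Empty ⊕ Empty)) ℂ :=
    aeval (fun s => C (c s) * X (Sum.inl s)) P with hQ
  have hQ0 : Q = 0 := by
    refine func_indep (z := fun i : Empty => i.elim) (fun m l _ => Subsingleton.elim _ _) Q ?_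
    intro τ hτ _
    rw [hQ, ← MvPolynomial.coe_aeval_eq_eval]
    have h7 := h6 hτ
    simp only at h7
    rw [← h7]
    change (aeval _) ((aeval _) P) = _
    rw [← AlgHom.comp_apply, MvPolynomial.comp_aeval]
    congr 2
    funext s
    fin_cases s
    · simp [fpt, pt, hc, hf]
    · simp [fpt, pt, hc, hf]
    · simp [fpt, pt, hc, hf, gg2]
    · simp [fpt, pt, hc, hf, gg3]
  refine MvPolynomial.funext fun v => ?_
  rw [map_zero]
  have h8 := congrArg (MvPolynomial.eval (Sum.elim (fun s => v s / c s) (fun i => 0))) hQ0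
  rw [map_zero, hQ, ← MvPolynomial.coe_aeval_eq_eval] at h8
  change (aeval _) ((aeval _) P) = _ at h8
  rw [← AlgHom.comp_apply, MvPolynomial.comp_aeval] at h8
  rw [← MvPolynomial.coe_aeval_eq_eval]
  change (aeval v) P = 0
  rw [← h8]
  congr 2
  funext s
  simp [mul_div_cancel₀ _ (hc0 s)]

/-- functions analytic at `τ₀` -/
def anS (τ₀ : ℂ) : Subalgebra ℂ (ℂ → ℂ) where
  carrier := {f | AnalyticAt ℂ f τ₀}
  mul_mem' := fun hf hg => AnalyticAt.mul hf hg
  add_mem' := fun hf hg => AnalyticAt.add hf hg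
  algebraMap_mem' := fun c => analyticAt_const (v := c)

/-- the germ map as an algebra homomorphism -/
noncomputable def gmH (τ₀ : ℂ) : anS τ₀ →ₐ[ℂ] MG τ₀ where
  toFun f := gm τ₀ f
  map_one' := gm_const 1
  map_mul' f g := (gm_mul f.2.meromorphicAt g.2.meromorphicAt).symm
  map_zero' := (gm_const 0).trans (map_zero _)
  map_add' f g := (gm_add f.2.meromorphicAt g.2.meromorphicAt).symm
  commutes' c := gm_const c

lemma gmH_apply {f : ℂ → ℂ} (hf : AnalyticAt ℂ f τ₀) : gm τ₀ f = gmH τ₀ ⟨f, hf⟩ := rfl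

lemma kap_eq (c : ℂ) : algebraMap ℂ (MG τ₀) c = gmH τ₀ (algebraMap ℂ (anS τ₀) c) :=
  ((gmH τ₀).commutes c).symm

section rels

lemma rel_tau : MG.DD (gm τ₀ fun τ => τ) = 1 := by
  rw [DD_gm_of (f := fun τ => τ) (f' := fun _ => 1) analyticAt_id (Eventually.of_forall fun τ => hasDerivAt_id τ),
    gm_const, map_one]

lemma rel_et (hτ₀ : 0 < τ₀.im) : algebraMap ℂ (MG τ₀) kap * MG.DD (gm τ₀ et) =
    -(gm τ₀ et) ^ 2 + gm τ₀ gg2 / 12 := by
  have hE := analyticAt_et hτ₀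
  have hG := analyticAt_gg2 hτ₀
  have h1 : AnalyticAt ℂ (fun τ => (-(et τ) ^ 2 + gg2 τ / 12) / kap) τ₀ :=
    ((hE.pow 2).neg.add (hG.div_const)).div_const
  rw [DD_gm_of hE ((eventually_im hτ₀).mono fun τ h => ode_et h), gmH_apply hE, gmH_apply hG,
    gmH_apply h1, kap_eq]
  have h2 : algebraMap ℂ (anS τ₀) kap * ⟨_, h1⟩ =
      -(⟨et, hE⟩ : anS τ₀) ^ 2 + algebraMap ℂ (anS τ₀) (1 / 12) * ⟨gg2, hG⟩ := by
    apply Subtype.ext
    funext τ
    change kap * ((-(et τ) ^ 2 + gg2 τ / 12) / kap) = -(et τ) ^ 2 + 1 / 12 * gg2 τ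
    have := kap_ne_zero
    field_simp
  rw [← map_mul, h2, map_add, map_neg, map_pow, map_mul, AlgHom.commutes]
  simp only [map_div₀, map_one, map_ofNat]
  ring

lemma rel_gg2 (hτ₀ : 0 < τ₀.im) : algebraMap ℂ (MG τ₀) kap * MG.DD (gm τ₀ gg2) =
    -4 * gm τ₀ et * gm τ₀ gg2 + 6 * gm τ₀ gg3 := by
  have hE := analyticAt_et hτ₀
  have hG := analyticAt_gg2 hτ₀
  have hG3 := analyticAt_gg3 hτ₀
  have h1 : AnalyticAt ℂ (fun τ => (-4 * et τ * gg2 τ + 6 * gg3 τ) / kap) τ₀ :=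
    (((analyticAt_const.mul hE).mul hG).add (analyticAt_const.mul hG3)).div_const
  rw [DD_gm_of hG ((eventually_im hτ₀).mono fun τ h => ode_gg2 h), gmH_apply hE, gmH_apply hG,
    gmH_apply hG3, gmH_apply h1, kap_eq]
  have h2 : algebraMap ℂ (anS τ₀) kap * ⟨_, h1⟩ =
      algebraMap ℂ (anS τ₀) (-4) * (⟨et, hE⟩ : anS τ₀) * ⟨gg2, hG⟩ +
        algebraMap ℂ (anS τ₀) 6 * ⟨gg3, hG3⟩ := by
    apply Subtype.ext
    funext τ
    change kap * ((-4 * et τ * gg2 τ + 6 * gg3 τ) / kap) = -4 * et τ * gg2 τ + 6 * gg3 τ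
    have := kap_ne_zero
    field_simp
  rw [← map_mul, h2, map_add, map_mul, map_mul, map_mul, AlgHom.commutes, AlgHom.commutes]
  simp only [map_neg, map_ofNat]

lemma rel_gg3 (hτ₀ : 0 < τ₀.im) : algebraMap ℂ (MG τ₀) kap * MG.DD (gm τ₀ gg3) =
    -6 * gm τ₀ et * gm τ₀ gg3 + gm τ₀ gg2 ^ 2 / 3 := by
  have hE := analyticAt_et hτ₀
  have hG := analyticAt_gg2 hτ₀
  have hG3 := analyticAt_gg3 hτ₀
  have h1 : AnalyticAt ℂ (fun τ => (-6 * et τ * gg3 τ + gg2 τ ^ 2 / 3) / kap) τ₀ :=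
    (((analyticAt_const.mul hE).mul hG3).add (hG.pow 2).div_const).div_const
  rw [DD_gm_of hG3 ((eventually_im hτ₀).mono fun τ h => ode_gg3 h), gmH_apply hE, gmH_apply hG,
    gmH_apply hG3, gmH_apply h1, kap_eq]
  have h2 : algebraMap ℂ (anS τ₀) kap * ⟨_, h1⟩ =
      algebraMap ℂ (anS τ₀) (-6) * (⟨et, hE⟩ : anS τ₀) * ⟨gg3, hG3⟩ +
        algebraMap ℂ (anS τ₀) (1 / 3) * ⟨gg2, hG⟩ ^ 2 := by
    apply Subtype.ext
    funext τ
    change kap * ((-6 * et τ * gg3 τ + gg2 τ ^ 2 / 3) / kap) = -6 * et τ * gg3 τ + 1 / 3 * gg2 τ ^ 2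
    have := kap_ne_zero
    field_simp
  rw [← map_mul, h2, map_add, map_mul, map_mul, map_mul, map_pow, AlgHom.commutes, AlgHom.commutes]
  simp only [map_neg, map_ofNat, map_div₀, map_one]
  ring

variable {z : ℂ → ℂ}

lemma rel_y (hz : AnalyticAt ℂ z τ₀) (hτ₀ : 0 < τ₀.im) (hzL : z τ₀ ∉ Lam τ₀) :
    (gm τ₀ fun τ => wpd τ (z τ)) ^ 2 = 4 * (gm τ₀ fun τ => wp 1 τ (z τ)) ^ 3 -
      gm τ₀ gg2 * (gm τ₀ fun τ => wp 1 τ (z τ)) - gm τ₀ gg3 := by
  have hx := analyticAt_wp_arc hz hτ₀ hzL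
  have hy := analyticAt_wpd_arc hz hτ₀ hzL
  have hG := analyticAt_gg2 hτ₀
  have hG3 := analyticAt_gg3 hτ₀
  have h1 : AnalyticAt ℂ (fun τ => wpd τ (z τ) ^ 2) τ₀ := hy.pow 2
  have h2 : AnalyticAt ℂ (fun τ => 4 * wp 1 τ (z τ) ^ 3 - gg2 τ * wp 1 τ (z τ) - gg3 τ) τ₀ :=
    ((analyticAt_const.mul (hx.pow 3)).sub (hG.mul hx)).sub hG3
  have h3 := gm_eq_of h1 (g := fun τ => 4 * wp 1 τ (z τ) ^ 3 - gg2 τ * wp 1 τ (z τ) - gg3 τ) (by
    filter_upwards [eventually_Dom hz hτ₀ hzL] with τ h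
    exact wpd_sq h.1 h.2)
  rw [gmH_apply h1, gmH_apply h2] at h3
  have h4 : (⟨_, h1⟩ : anS τ₀) = ⟨_, hy⟩ ^ 2 := rfl
  have h5 : (⟨_, h2⟩ : anS τ₀) = algebraMap ℂ (anS τ₀) 4 * ⟨_, hx⟩ ^ 3 - ⟨_, hG⟩ * ⟨_, hx⟩ -
      ⟨_, hG3⟩ := rfl
  rw [h4, h5] at h3
  simp only [map_sub, map_mul, map_pow, AlgHom.commutes] at h3
  rw [map_ofNat] at h3
  exact h3

lemma rel_x (hz : AnalyticAt ℂ z τ₀) (hτ₀ : 0 < τ₀.im) (hzL : z τ₀ ∉ Lam τ₀) :
    algebraMap ℂ (MG τ₀) kap * (MG.DD (gm τ₀ fun τ => wp 1 τ (z τ)) -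
      (gm τ₀ fun τ => wpd τ (z τ)) * MG.DD (gm τ₀ z)) =
    ((gm τ₀ fun τ => zt 1 τ (z τ)) - gm τ₀ et * gm τ₀ z) * (gm τ₀ fun τ => wpd τ (z τ)) +
      2 * (gm τ₀ fun τ => wp 1 τ (z τ)) ^ 2 - 2 * gm τ₀ et * (gm τ₀ fun τ => wp 1 τ (z τ)) -
      gm τ₀ gg2 / 3 := by
  have hx := analyticAt_wp_arc hz hτ₀ hzL
  have hy := analyticAt_wpd_arc hz hτ₀ hzL
  have hw := analyticAt_zt_arc hz hτ₀ hzL
  have hE := analyticAt_et hτ₀
  have hG := analyticAt_gg2 hτ₀
  have h1 : AnalyticAt ℂ (fun τ => ((zt 1 τ (z τ) - z τ * et τ) * wpd τ (z τ) +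
      2 * wp 1 τ (z τ) ^ 2 - 2 * et τ * wp 1 τ (z τ) - gg2 τ / 3) / kap +
        wpd τ (z τ) * deriv z τ) τ₀ := by
    refine AnalyticAt.add (AnalyticAt.div_const ?_) (hy.mul hz.deriv)
    exact ((((hw.sub (hz.mul hE)).mul hy).add (analyticAt_const.mul (hx.pow 2))).sub
      ((analyticAt_const.mul hE).mul hx)).sub hG.div_const
  have h2 := DD_gm_of hx (f' := fun τ => ((zt 1 τ (z τ) - z τ * et τ) * wpd τ (z τ) +
      2 * wp 1 τ (z τ) ^ 2 - 2 * et τ * wp 1 τ (z τ) - gg2 τ / 3) / kap +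
        wpd τ (z τ) * deriv z τ) (by
    filter_upwards [eventually_Dom hz hτ₀ hzL, hz.eventually_analyticAt] with τ h h'
    have h3 := hasDerivAt_arc (τ := fun τ => τ) (z := z) (x := τ) (hasFDerivAt_wp h.1 h.2)
      (hasDerivAt_id τ) h'.differentiableAt.hasDerivAt
    rw [wpt_eq' h.1 h.2, mul_one] at h3
    exact h3)
  rw [h2, DD_gm hz.meromorphicAt, gmH_apply h1, gmH_apply hx, gmH_apply hy, gmH_apply hw,
    gmH_apply hE, gmH_apply hG, gmH_apply hz, gmH_apply hz.deriv, kap_eq]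
  have h4 : algebraMap ℂ (anS τ₀) kap * ((⟨_, h1⟩ : anS τ₀) - ⟨_, hy⟩ * ⟨_, hz.deriv⟩) =
      (⟨_, hw⟩ - ⟨_, hE⟩ * ⟨_, hz⟩) * ⟨_, hy⟩ + algebraMap ℂ (anS τ₀) 2 * ⟨_, hx⟩ ^ 2 -
      algebraMap ℂ (anS τ₀) 2 * ⟨_, hE⟩ * ⟨_, hx⟩ - algebraMap ℂ (anS τ₀) (1 / 3) * ⟨_, hG⟩ := by
    apply Subtype.ext
    funext τ
    change kap * ((((zt 1 τ (z τ) - z τ * et τ) * wpd τ (z τ) +
      2 * wp 1 τ (z τ) ^ 2 - 2 * et τ * wp 1 τ (z τ) - gg2 τ / 3) / kap +
        wpd τ (z τ) * deriv z τ) - wpd τ (z τ) * deriv z τ) =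
      (zt 1 τ (z τ) - et τ * z τ) * wpd τ (z τ) + 2 * wp 1 τ (z τ) ^ 2 -
        2 * et τ * wp 1 τ (z τ) - 1 / 3 * gg2 τ
    have := kap_ne_zero
    field_simp
    ring
  rw [← map_mul (gmH τ₀) ⟨_, hy⟩, ← map_sub, ← map_mul, h4]
  simp only [map_sub, map_mul, map_pow, AlgHom.commutes, map_add, map_ofNat, map_div₀, map_one]
  ring

lemma rel_w (hz : AnalyticAt ℂ z τ₀) (hτ₀ : 0 < τ₀.im) (hzL : z τ₀ ∉ Lam τ₀) :
    algebraMap ℂ (MG τ₀) kap * (MG.DD (gm τ₀ fun τ => zt 1 τ (z τ)) +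
      (gm τ₀ fun τ => wp 1 τ (z τ)) * MG.DD (gm τ₀ z)) =
    -((gm τ₀ fun τ => zt 1 τ (z τ)) - gm τ₀ et * gm τ₀ z) * (gm τ₀ fun τ => wp 1 τ (z τ)) -
      (gm τ₀ fun τ => wpd τ (z τ)) / 2 - gm τ₀ et * (gm τ₀ fun τ => zt 1 τ (z τ)) +
      gm τ₀ gg2 * gm τ₀ z / 12 := by
  have hx := analyticAt_wp_arc hz hτ₀ hzL
  have hy := analyticAt_wpd_arc hz hτ₀ hzL
  have hw := analyticAt_zt_arc hz hτ₀ hzL
  have hE := analyticAt_et hτ₀
  have hG := analyticAt_gg2 hτ₀
  have h1 : AnalyticAt ℂ (fun τ => (-(zt 1 τ (z τ) - z τ * et τ) * wp 1 τ (z τ) -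
      wpd τ (z τ) / 2 - et τ * zt 1 τ (z τ) + gg2 τ * z τ / 12) / kap +
        -wp 1 τ (z τ) * deriv z τ) τ₀ := by
    refine AnalyticAt.add (AnalyticAt.div_const ?_) (hx.neg.mul hz.deriv)
    exact ((((hw.sub (hz.mul hE)).neg.mul hx).sub hy.div_const).sub
      (hE.mul hw)).add (hG.mul hz).div_const
  have h2 := DD_gm_of hw (f' := fun τ => (-(zt 1 τ (z τ) - z τ * et τ) * wp 1 τ (z τ) -
      wpd τ (z τ) / 2 - et τ * zt 1 τ (z τ) + gg2 τ * z τ / 12) / kap +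
        -wp 1 τ (z τ) * deriv z τ) (by
    filter_upwards [eventually_Dom hz hτ₀ hzL, hz.eventually_analyticAt] with τ h h'
    have h3 := hasDerivAt_arc (τ := fun τ => τ) (z := z) (x := τ) (hasFDerivAt_zt h.1 h.2)
      (hasDerivAt_id τ) h'.differentiableAt.hasDerivAt
    rw [ztt_eq' h.1 h.2, mul_one] at h3
    exact h3)
  rw [h2, DD_gm hz.meromorphicAt, gmH_apply h1, gmH_apply hx, gmH_apply hy, gmH_apply hw,
    gmH_apply hE, gmH_apply hG, gmH_apply hz, gmH_apply hz.deriv, kap_eq]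
  have h4 : algebraMap ℂ (anS τ₀) kap * ((⟨_, h1⟩ : anS τ₀) + ⟨_, hx⟩ * ⟨_, hz.deriv⟩) =
      -(⟨_, hw⟩ - ⟨_, hE⟩ * ⟨_, hz⟩) * ⟨_, hx⟩ - algebraMap ℂ (anS τ₀) (1 / 2) * ⟨_, hy⟩ -
      ⟨_, hE⟩ * ⟨_, hw⟩ + algebraMap ℂ (anS τ₀) (1 / 12) * ⟨_, hG⟩ * ⟨_, hz⟩ := by
    apply Subtype.ext
    funext τ
    change kap * (((-(zt 1 τ (z τ) - z τ * et τ) * wp 1 τ (z τ) -
      wpd τ (z τ) / 2 - et τ * zt 1 τ (z τ) + gg2 τ * z τ / 12) / kap +
        -wp 1 τ (z τ) * deriv z τ) + wp 1 τ (z τ) * deriv z τ) =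
      -(zt 1 τ (z τ) - et τ * z τ) * wp 1 τ (z τ) - 1 / 2 * wpd τ (z τ) - et τ * zt 1 τ (z τ) +
        1 / 12 * gg2 τ * z τ
    have := kap_ne_zero
    field_simp
    ring
  rw [← map_mul (gmH τ₀) ⟨_, hx⟩, ← map_add, ← map_mul, h4]
  simp only [map_sub, map_mul, AlgHom.commutes, map_add, map_neg, map_ofNat, map_div₀, map_one]
  ring

lemma rel_exp {t : ℂ → ℂ} (ht : AnalyticAt ℂ t τ₀) :
    MG.DD (gm τ₀ fun τ => exp (t τ)) = (gm τ₀ fun τ => exp (t τ)) * MG.DD (gm τ₀ t) := by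
  have hE : AnalyticAt ℂ (fun τ => exp (t τ)) τ₀ := ht.cexp
  rw [DD_gm_of hE (f' := fun τ => exp (t τ) * deriv t τ) (by
    filter_upwards [ht.eventually_analyticAt] with τ h
    exact h.differentiableAt.hasDerivAt.cexp), DD_gm ht.meromorphicAt,
    gm_mul hE.meromorphicAt ht.deriv.meromorphicAt]

lemma gm_ne_zero {f : ℂ → ℂ} (hf : AnalyticAt ℂ f τ₀) (h : f τ₀ ≠ 0) : gm τ₀ f ≠ 0 := by
  intro h0
  have h1 : gm τ₀ f = gm τ₀ (fun _ => 0) := by rw [h0, gm_const, map_zero]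
  have h2 := (gm_eq_iff hf analyticAt_const).1 h1
  exact h h2.self_of_nhds

end rels

section core

open Matrix

/-- clearing denominators -/
lemma clear_rat {ι : Type*} [Finite ι] (q : ι → ℚ) :
    ∃ (N : ℕ) (m : ι → ℤ), N ≠ 0 ∧ ∀ i, (m i : ℚ) = N * q i := by
  classical
  have := Fintype.ofFinite ι
  have hint : ∀ i, ∃ m : ℤ, (m : ℚ) = (∏ j, (q j).den : ℕ) * q i := by
    intro i
    obtain ⟨d, hd⟩ := Finset.dvd_prod_of_mem (fun j => (q j).den) (Finset.mem_univ i)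
    refine ⟨d * (q i).num, ?_⟩
    have h1 : ((q i).den : ℚ) * q i = (q i).num := Rat.den_mul_eq_num _
    rw [hd]
    push_cast
    linear_combination (-(d : ℚ)) * h1
  choose m hm using hint
  exact ⟨_, m, Finset.prod_ne_zero_iff.2 fun j _ => (q j).den_nz, hm⟩

/-- **Core theorem.** Along an arc, if the logarithms `z i` have no integral relation modulo the
lattice at `τ₀` and the exponents `t l` have no constant integral combination, then the functions
have the maximal transcendence degree over `ℂ`. -/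
theorem core_arc {ι κ' : Type} [Fintype ι] [Fintype κ'] [DecidableEq ι] [DecidableEq κ']
    (hτ₀ : 0 < τ₀.im) (z : ι → ℂ → ℂ) (hz : ∀ i, AnalyticAt ℂ (z i) τ₀)
    (hzL : ∀ i, z i τ₀ ∉ Lam τ₀ ∧ wpd τ₀ (z i τ₀) ≠ 0)
    (hzi : ∀ (m : ι → ℤ) (a b : ℤ), ∑ i, (m i : ℂ) * z i τ₀ = a + b * τ₀ → m = 0)
    (t : κ' → ℂ → ℂ) (ht : ∀ l, AnalyticAt ℂ (t l) τ₀)
    (hti : ∀ (m : κ' → ℤ) (c : ℂ), (∀ᶠ τ in 𝓝 τ₀, ∑ l, (m l : ℂ) * t l τ = c) → m = 0)
    (hK1 : ∀ (c : ι → ℂ) (w : Fin 2 → ℂ), (∀ X : Derivation ℂ (MG τ₀) (MG τ₀),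
      ∑ i, algebraMap ℂ (MG τ₀) (c i) • vL ℂ (algebraMap ℂ (MG τ₀) kap) (gm τ₀ fun τ => τ)
        (gm τ₀ et) (gm τ₀ gg2) (gm τ₀ gg3) (gm τ₀ (z i)) (gm τ₀ fun τ => wp 1 τ (z i τ))
        (gm τ₀ fun τ => wpd τ (z i τ)) (gm τ₀ fun τ => zt 1 τ (z i τ)) X =
      ThL ℂ (algebraMap ℂ (MG τ₀) kap) (gm τ₀ fun τ => τ) (gm τ₀ et) (gm τ₀ gg2) (gm τ₀ gg3) X *ᵥ
        (fun k => algebraMap ℂ (MG τ₀) (w k))) → ∀ ρ : ℂ →ₗ[ℚ] ℚ, ∃ r s : ℚ,
        ∀ᶠ τ in 𝓝 τ₀, ∑ i, (ρ (c i) : ℂ) * z i τ = r + s * τ) :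
    ∃ s : Finset (Fin 4 ⊕ ((Fin 3 × ι) ⊕ (Fin 2 × κ'))),
      AlgebraicIndependent ℂ (fun i : s => asF (gm τ₀ fun τ => τ) (gm τ₀ et) (gm τ₀ gg2)
        (gm τ₀ gg3) (fun i => gm τ₀ (z i)) (fun i => gm τ₀ fun τ => wp 1 τ (z i τ))
        (fun i => gm τ₀ fun τ => zt 1 τ (z i τ)) (fun l => gm τ₀ (t l))
        (fun l => gm τ₀ fun τ => exp (t l τ)) i) ∧
      4 + 2 * Fintype.card ι + Fintype.card κ' ≤ s.card := by
  rcases AS_alg (C := ℂ) MG.DD MG.DD_ker (κ := algebraMap ℂ (MG τ₀) kap)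
    (τ := gm τ₀ fun τ => τ) (e := gm τ₀ et) (g2 := gm τ₀ gg2) (g3 := gm τ₀ gg3)
    ((map_ne_zero _).2 kap_ne_zero) ⟨_, rfl⟩ (hindep hτ₀) rel_tau (rel_et hτ₀) (rel_gg2 hτ₀)
    (rel_gg3 hτ₀) (fun i => gm τ₀ (z i)) (fun i => gm τ₀ fun τ => wp 1 τ (z i τ))
    (fun i => gm τ₀ fun τ => wpd τ (z i τ)) (fun i => gm τ₀ fun τ => zt 1 τ (z i τ))
    (fun i => gm_ne_zero (analyticAt_wpd_arc (hz i) hτ₀ (hzL i).1) (hzL i).2)
    (fun i => rel_y (hz i) hτ₀ (hzL i).1)
    (fun i => rel_x (hz i) hτ₀ (hzL i).1)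
    (fun i => rel_w (hz i) hτ₀ (hzL i).1)
    (fun l => gm τ₀ (t l)) (fun l => gm τ₀ fun τ => exp (t l τ))
    (fun l => gm_ne_zero (ht l).cexp (Complex.exp_ne_zero _))
    (fun l => rel_exp (ht l)) (by
      rintro m ⟨c, hc⟩
      refine hti m c ?_
      set P : MvPolynomial κ' ℂ := ∑ l, C (m l : ℂ) * X l with hP
      obtain ⟨h1, h2⟩ := gm_aeval (τ₀ := τ₀) t ht P
      have h3 : aeval (fun l => gm τ₀ (t l)) P = ∑ l, (m l : MG τ₀) * gm τ₀ (t l) := by
        simp [hP]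
      have h4 : (fun τ => aeval (fun l => t l τ) P) = fun τ => ∑ l, (m l : ℂ) * t l τ := by
        funext τ
        simp [hP]
      rw [h4] at h1 h2
      rw [h3] at h2
      rw [h2, ← gm_const, gm_eq_iff analyticAt_const h1] at hc
      exact hc.symm) with h | h
  · exact h
  · exfalso
    obtain ⟨c, hc0, w, hw⟩ := h
    obtain ⟨i₀, hi₀⟩ := Function.ne_iff.1 hc0
    have h1 : ∃ ρ : ℂ →ₗ[ℚ] ℚ, ρ (c i₀) ≠ 0 := by
      by_contra hcon
      push Not at hcon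
      exact hi₀ ((Module.forall_dual_apply_eq_zero_iff ℚ (c i₀)).1 hcon)
    obtain ⟨ρ, hρ⟩ := h1
    obtain ⟨r, s, hrs⟩ := hK1 c w hw ρ
    have h2 := hrs.self_of_nhds
    obtain ⟨N, m, hN, hm⟩ := clear_rat (fun o : Option (Option ι) =>
      o.elim r (fun o => o.elim s (fun i => ρ (c i))))
    have h3 : ∀ i, (m (some (some i)) : ℂ) = N * (ρ (c i) : ℂ) := by
      intro i
      have := hm (some (some i))
      simp only [Option.elim_some] at this
      exact_mod_cast this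
    have h4 : (m none : ℂ) = N * (r : ℂ) := by
      have := hm none
      simp only [Option.elim_none] at this
      exact_mod_cast this
    have h5 : (m (some none) : ℂ) = N * (s : ℂ) := by
      have := hm (some none)
      simp only [Option.elim_some, Option.elim_none] at this
      exact_mod_cast this
    have h6 := hzi (fun i => m (some (some i))) (m none) (m (some none)) (by
      simp only [h3, h4, h5]
      have h7 : ∑ i, (N : ℂ) * (ρ (c i) : ℂ) * z i τ₀ = N * ∑ i, (ρ (c i) : ℂ) * z i τ₀ := by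
        rw [Finset.mul_sum]
        exact Finset.sum_congr rfl fun i _ => by ring
      rw [h7, h2]
      ring)
    have h7 := congrFun h6 i₀
    simp only [Pi.zero_apply] at h7
    have h8 := hm (some (some i₀))
    simp only [Option.elim_some, h7, Int.cast_zero] at h8
    rcases mul_eq_zero.1 h8.symm with h9 | h9
    · exact hN (by exact_mod_cast h9)
    · exact hρ h9

end core

end Pool.Agent.Work.MP_8da9ea_nt

end

section

/-!
# The differential equations as identities between germs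
-/

set_option autoImplicit false
set_option linter.unusedSimpArgs false

namespace Pool.Agent.Work.MP_8da9ea_nt

open Complex Filter Topology Matrix

variable {τ₁ : ℂ}

lemma gD_tau : MG.DD (gm τ₁ fun τ => τ) = 1 := by
  rw [DD_gm_of (f := fun τ => τ) (f' := fun _ => 1) analyticAt_id
    (Eventually.of_forall fun τ => hasDerivAt_id τ), gm_const, map_one]

lemma gm_ofNat (n : ℕ) [n.AtLeastTwo] :
    (OfNat.ofNat n : MG τ₁) = gm τ₁ (fun _ => (OfNat.ofNat n : ℂ)) := by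
  rw [gm_const, map_ofNat]

lemma gm_one : (1 : MG τ₁) = gm τ₁ (fun _ => (1 : ℂ)) := by
  rw [gm_const, map_one]

lemma ev_im (hτ : 0 < τ₁.im) : ∀ᶠ τ in 𝓝 τ₁, 0 < τ.im :=
  (Complex.continuous_im.isOpen_preimage _ isOpen_Ioi).mem_nhds hτ

lemma gD_et (hτ : 0 < τ₁.im) : algebraMap ℂ (MG τ₁) kap * MG.DD (gm τ₁ et) =
    -(gm τ₁ et) ^ 2 + gm τ₁ gg2 / 12 := by
  have h1 := (analyticAt_et hτ).meromorphicAt
  have h2 := (analyticAt_gg2 hτ).meromorphicAt
  rw [DD_gm_of (f' := fun τ => (-(et τ) ^ 2 + gg2 τ / 12) / kap) (analyticAt_et hτ) (by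
    filter_upwards [ev_im hτ] with τ h
    exact ode_et h), ← gm_const, gm_ofNat]
  simp (disch := fun_prop) only [gm_mul, gm_pow, gm_neg, gm_add, gm_div]
  congr 1
  funext τ
  have := kap_ne_zero
  field_simp

lemma gD_gg2 (hτ : 0 < τ₁.im) : algebraMap ℂ (MG τ₁) kap * MG.DD (gm τ₁ gg2) =
    -4 * gm τ₁ et * gm τ₁ gg2 + 6 * gm τ₁ gg3 := by
  have h1 := (analyticAt_et hτ).meromorphicAt
  have h2 := (analyticAt_gg2 hτ).meromorphicAt
  have h3 := (analyticAt_gg3 hτ).meromorphicAt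
  rw [DD_gm_of (f' := fun τ => (-4 * et τ * gg2 τ + 6 * gg3 τ) / kap) (analyticAt_gg2 hτ) (by
    filter_upwards [ev_im hτ] with τ h
    exact ode_gg2 h), ← gm_const, gm_ofNat, gm_ofNat]
  simp (disch := fun_prop) only [gm_mul, gm_pow, gm_neg, gm_add, gm_div]
  congr 1
  funext τ
  have := kap_ne_zero
  field_simp

lemma gD_gg3 (hτ : 0 < τ₁.im) : algebraMap ℂ (MG τ₁) kap * MG.DD (gm τ₁ gg3) =
    -6 * gm τ₁ et * gm τ₁ gg3 + gm τ₁ gg2 ^ 2 / 3 := by
  have h1 := (analyticAt_et hτ).meromorphicAt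
  have h2 := (analyticAt_gg2 hτ).meromorphicAt
  have h3 := (analyticAt_gg3 hτ).meromorphicAt
  rw [DD_gm_of (f' := fun τ => (-6 * et τ * gg3 τ + gg2 τ ^ 2 / 3) / kap) (analyticAt_gg3 hτ) (by
    filter_upwards [ev_im hτ] with τ h
    exact ode_gg3 h), ← gm_const, gm_ofNat, gm_ofNat]
  simp (disch := fun_prop) only [gm_mul, gm_pow, gm_neg, gm_add, gm_div]
  congr 1
  funext τ
  have := kap_ne_zero
  field_simp

section pt

variable {z : ℂ → ℂ}

lemma gD_x (hz : AnalyticAt ℂ z τ₁) (hτ : 0 < τ₁.im) (hzL : z τ₁ ∉ Lam τ₁) :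
    algebraMap ℂ (MG τ₁) kap * (MG.DD (gm τ₁ fun τ => wp 1 τ (z τ)) -
      gm τ₁ (fun τ => wpd τ (z τ)) * MG.DD (gm τ₁ z)) =
    (gm τ₁ (fun τ => zt 1 τ (z τ)) - gm τ₁ et * gm τ₁ z) * gm τ₁ (fun τ => wpd τ (z τ)) +
      2 * gm τ₁ (fun τ => wp 1 τ (z τ)) ^ 2 - 2 * gm τ₁ et * gm τ₁ (fun τ => wp 1 τ (z τ)) -
      gm τ₁ gg2 / 3 := by
  have h1 := (analyticAt_et hτ).meromorphicAt
  have h2 := (analyticAt_gg2 hτ).meromorphicAt
  have h4 := hz.meromorphicAt
  have h5 := (analyticAt_wp_arc hz hτ hzL).meromorphicAt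
  have h6 := (analyticAt_wpd_arc hz hτ hzL).meromorphicAt
  have h7 := (analyticAt_zt_arc hz hτ hzL).meromorphicAt
  have h8 := hz.deriv.meromorphicAt
  rw [DD_gm_of (f := fun τ => wp 1 τ (z τ)) (f' := fun τ =>
      ((zt 1 τ (z τ) - z τ * et τ) * wpd τ (z τ) + 2 * wp 1 τ (z τ) ^ 2 -
      2 * et τ * wp 1 τ (z τ) - gg2 τ / 3) / kap * 1 + wpd τ (z τ) * deriv z τ)
      (analyticAt_wp_arc hz hτ hzL) (by
    filter_upwards [eventually_Dom hz hτ hzL, hz.eventually_analyticAt] with τ h h'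
    rw [← wpt_eq' h.1 h.2]
    exact hasDerivAt_arc (F := fun p : ℂ × ℂ => wp 1 p.1 p.2) (τ := fun τ => τ) (z := z)
      (hasFDerivAt_wp h.1 h.2) (hasDerivAt_id τ) h'.differentiableAt.hasDerivAt),
    DD_gm h4, ← gm_const, gm_ofNat, gm_ofNat]
  simp (disch := fun_prop) only [gm_mul, gm_pow, gm_neg, gm_add, gm_sub, gm_div]
  congr 1
  funext τ
  have := kap_ne_zero
  field_simp
  ring

lemma gD_zt (hz : AnalyticAt ℂ z τ₁) (hτ : 0 < τ₁.im) (hzL : z τ₁ ∉ Lam τ₁) :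
    algebraMap ℂ (MG τ₁) kap * (MG.DD (gm τ₁ fun τ => zt 1 τ (z τ)) +
      gm τ₁ (fun τ => wp 1 τ (z τ)) * MG.DD (gm τ₁ z)) =
    -(gm τ₁ (fun τ => zt 1 τ (z τ)) - gm τ₁ et * gm τ₁ z) * gm τ₁ (fun τ => wp 1 τ (z τ)) -
      gm τ₁ (fun τ => wpd τ (z τ)) / 2 - gm τ₁ et * gm τ₁ (fun τ => zt 1 τ (z τ)) +
      gm τ₁ gg2 * gm τ₁ z / 12 := by
  have h1 := (analyticAt_et hτ).meromorphicAt
  have h2 := (analyticAt_gg2 hτ).meromorphicAt
  have h4 := hz.meromorphicAt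
  have h5 := (analyticAt_wp_arc hz hτ hzL).meromorphicAt
  have h6 := (analyticAt_wpd_arc hz hτ hzL).meromorphicAt
  have h7 := (analyticAt_zt_arc hz hτ hzL).meromorphicAt
  have h8 := hz.deriv.meromorphicAt
  rw [DD_gm_of (f := fun τ => zt 1 τ (z τ)) (f' := fun τ =>
      (-(zt 1 τ (z τ) - z τ * et τ) * wp 1 τ (z τ) - wpd τ (z τ) / 2 - et τ * zt 1 τ (z τ) +
      gg2 τ * z τ / 12) / kap * 1 + -wp 1 τ (z τ) * deriv z τ)
      (analyticAt_zt_arc hz hτ hzL) (by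
    filter_upwards [eventually_Dom hz hτ hzL, hz.eventually_analyticAt] with τ h h'
    rw [← ztt_eq' h.1 h.2]
    exact hasDerivAt_arc (F := fun p : ℂ × ℂ => zt 1 p.1 p.2) (τ := fun τ => τ) (z := z)
      (hasFDerivAt_zt h.1 h.2) (hasDerivAt_id τ) h'.differentiableAt.hasDerivAt),
    DD_gm h4, ← gm_const, gm_ofNat, gm_ofNat]
  simp (disch := fun_prop) only [gm_mul, gm_pow, gm_neg, gm_add, gm_sub, gm_div]
  congr 1
  funext τ
  have := kap_ne_zero
  field_simp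
  ring

lemma g_wpd_sq (hz : AnalyticAt ℂ z τ₁) (hτ : 0 < τ₁.im) (hzL : z τ₁ ∉ Lam τ₁) :
    gm τ₁ (fun τ => wpd τ (z τ)) ^ 2 = 4 * gm τ₁ (fun τ => wp 1 τ (z τ)) ^ 3 -
      gm τ₁ gg2 * gm τ₁ (fun τ => wp 1 τ (z τ)) - gm τ₁ gg3 := by
  have h2 := (analyticAt_gg2 hτ)
  have h3 := (analyticAt_gg3 hτ)
  have h5 := (analyticAt_wp_arc hz hτ hzL)
  have h6 := (analyticAt_wpd_arc hz hτ hzL)
  have h2' := h2.meromorphicAt
  have h3' := h3.meromorphicAt
  have h5' := h5.meromorphicAt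
  have h6' := h6.meromorphicAt
  rw [gm_ofNat]
  simp (disch := fun_prop) only [gm_mul, gm_pow, gm_neg, gm_add, gm_sub, gm_div]
  refine gm_eq_of (by fun_prop) ?_
  filter_upwards [eventually_Dom hz hτ hzL] with τ h
  have := wpd_sq h.1 h.2
  rw [this]

lemma gmz_ne {f : ℂ → ℂ} (hf : AnalyticAt ℂ f τ₁) (h : f τ₁ ≠ 0) : gm τ₁ f ≠ 0 := by
  intro h1
  rw [← map_zero (algebraMap ℂ (MG τ₁)), ← gm_const] at h1
  have h2 := (gm_eq_iff hf analyticAt_const).1 h1
  exact h h2.self_of_nhds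

end pt

end Pool.Agent.Work.MP_8da9ea_nt

end

section

/-!
# Evaluation of fields of germs at generic points
-/

set_option autoImplicit false

namespace Pool.Agent.Work.MP_8da9ea_nt

open Complex Filter Topology

variable {T : Type} {C0 : IntermediateField ℚ ℂ} {τ₀ : ℂ}

/-- analyticity of polynomial expressions -/
lemma analyticAt_aeval (f : T → ℂ → ℂ) (P : MvPolynomial T C0) {τ : ℂ}
    (hf : ∀ t, AnalyticAt ℂ (f t) τ) :
    AnalyticAt ℂ (fun τ => MvPolynomial.aeval (fun t => f t τ) P) τ := by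
  induction P using MvPolynomial.induction_on with
  | C a =>
    simp only [MvPolynomial.aeval_C]
    exact analyticAt_const
  | add p q hp hq =>
    simp only [map_add]
    exact hp.add hq
  | mul_X p i hp =>
    simp only [map_mul, MvPolynomial.aeval_X]
    exact hp.mul (hf i)

lemma aeval_gm (f : T → ℂ → ℂ) (P : MvPolynomial T C0) (hf : ∀ t, AnalyticAt ℂ (f t) τ₀) :
    MvPolynomial.aeval (fun t => gm τ₀ (f t)) P =
      gm τ₀ (fun τ => MvPolynomial.aeval (fun t => f t τ) P) := by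
  induction P using MvPolynomial.induction_on with
  | C a =>
    simp only [MvPolynomial.aeval_C]
    rw [gm_const]
    rfl
  | add p q hp hq =>
    simp only [map_add]
    rw [hp, hq, gm_add (analyticAt_aeval f p hf).meromorphicAt
      (analyticAt_aeval f q hf).meromorphicAt]
  | mul_X p i hp =>
    simp only [map_mul, MvPolynomial.aeval_X]
    rw [hp, gm_mul (analyticAt_aeval f p hf).meromorphicAt (hf i).meromorphicAt]

/-- L4 -/
theorem exists_ev {T : Type} [Finite T] (C0 : IntermediateField ℚ ℂ) [Countable C0] {τ₀ : ℂ}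
    {U : Set ℂ} (hUo : IsOpen U) (hUc : IsPreconnected U) (hU : τ₀ ∈ U) (f : T → ℂ → ℂ)
    (hf : ∀ t, AnalyticOnNhd ℂ (f t) U) :
    ∃ E : Set ℂ, E.Countable ∧ ∀ τ₁ ∈ U, τ₁ ∉ E →
      ∃ ev : IntermediateField.adjoin C0 (Set.range fun t => gm τ₀ (f t)) →ₐ[C0] ℂ,
        ∀ t (h : gm τ₀ (f t) ∈ IntermediateField.adjoin C0 (Set.range fun t => gm τ₀ (f t))),
          ev ⟨gm τ₀ (f t), h⟩ = f t τ₁ := by
  classical
  have hcount : Countable (MvPolynomial T C0) := countable_mvPolynomial T C0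
  set F : MvPolynomial T C0 → ℂ → ℂ := fun P τ => MvPolynomial.aeval (fun t => f t τ) P with hF
  have hFa : ∀ P, AnalyticOnNhd ℂ (F P) U := fun P τ hτ =>
    analyticAt_aeval f P fun t => hf t τ hτ
  refine ⟨⋃ P : {P : MvPolynomial T C0 // ∃ x ∈ U, F P x ≠ 0}, {x | x ∈ U ∧ F P x = 0},
    Set.countable_iUnion fun P => zeros_countable hUc (hFa P) P.2, fun τ₁ h1 h2 => ?_⟩
  have key : ∀ P : MvPolynomial T C0, F P τ₁ = 0 ↔
      MvPolynomial.aeval (fun t => gm τ₀ (f t)) P = 0 := by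
    intro P
    have h0 : (0 : MG τ₀) = gm τ₀ (fun _ => 0) := by rw [gm_const, map_zero]
    rw [aeval_gm f P fun t => hf t τ₀ hU, h0, gm_eq_iff (hFa P τ₀ hU) analyticAt_const]
    constructor
    · intro h3
      by_contra h4
      apply h2
      rw [Set.mem_iUnion]
      refine ⟨⟨P, ?_⟩, h1, h3⟩
      by_contra h5
      push Not at h5
      apply h4
      filter_upwards [hUo.mem_nhds hU] with x hx
      exact h5 x hx
    · intro h3
      have := (hFa P).eqOn_of_preconnected_of_eventuallyEq (g := fun _ => 0)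
        analyticOnNhd_const hUc hU h3
      exact this h1
  set g : T → MG τ₀ := fun t => gm τ₀ (f t) with hg
  set A := Algebra.adjoin C0 (Set.range g) with hA
  set K := IntermediateField.adjoin C0 (Set.range g) with hK
  -- the evaluation on the algebra
  have hex : ∃ φ : A →ₐ[C0] ℂ, Function.Injective φ ∧
      ∀ t (h : g t ∈ A), φ ⟨g t, h⟩ = f t τ₁ := by
    have hAr : A = (MvPolynomial.aeval (R := C0) g).range := by
      rw [hA, Algebra.adjoin_range_eq_range_aeval]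
    have hmem : ∀ a : A, ∃ P : MvPolynomial T C0, MvPolynomial.aeval g P = (a : MG τ₀) := by
      intro a
      exact (SetLike.ext_iff.1 hAr _).1 a.2
    choose P hP using hmem
    have hw : ∀ (a : A) (Q : MvPolynomial T C0), MvPolynomial.aeval g Q = (a : MG τ₀) →
        F (P a) τ₁ = F Q τ₁ := by
      intro a Q hQ
      have h3 : MvPolynomial.aeval g (P a - Q) = 0 := by rw [map_sub, hP, hQ, sub_self]
      have h4 := (key _).2 h3
      simp only [hF, map_sub] at h4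
      exact sub_eq_zero.1 h4
    refine ⟨{ toFun := fun a => F (P a) τ₁
              map_one' := ?_, map_mul' := ?_, map_zero' := ?_, map_add' := ?_
              commutes' := ?_ }, ?_, ?_⟩
    · rw [hw 1 1 (by simp)]
      simp [hF]
    · intro a b
      rw [hw (a * b) (P a * P b) (by rw [map_mul, hP, hP]; rfl)]
      simp [hF]
    · rw [hw 0 0 (by simp)]
      simp [hF]
    · intro a b
      rw [hw (a + b) (P a + P b) (by rw [map_add, hP, hP]; rfl)]
      simp [hF]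
    · intro c
      rw [hw (algebraMap C0 A c) (MvPolynomial.C c) (by rw [MvPolynomial.aeval_C]; rfl)]
      simp [hF]
    · rw [injective_iff_map_eq_zero]
      intro a ha
      have h3 := (key (P a)).1 ha
      apply Subtype.ext
      rw [← hP a]
      exact h3
    · intro t h
      change F (P ⟨g t, h⟩) τ₁ = _
      rw [hw ⟨g t, h⟩ (MvPolynomial.X t) (by rw [MvPolynomial.aeval_X])]
      simp [hF]
  obtain ⟨φ, hφ, hφt⟩ := hex
  open IntermediateField.algebraAdjoinAdjoin in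
  refine ⟨IsFractionRing.liftAlgHom (K := K) hφ, fun t h => ?_⟩
  open IntermediateField.algebraAdjoinAdjoin in
  have h3 : g t ∈ A := Algebra.subset_adjoin (Set.mem_range_self t)
  open IntermediateField.algebraAdjoinAdjoin in
  have h4 : (⟨g t, h⟩ : K) = algebraMap A K ⟨g t, h3⟩ := rfl
  open IntermediateField.algebraAdjoinAdjoin in
  rw [IsFractionRing.liftAlgHom_apply, h4, IsFractionRing.lift_algebraMap]
  exact hφt t h3

end Pool.Agent.Work.MP_8da9ea_nt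

end

section

/-!
# Arcs for the elliptic functions over a countable field
-/

set_option autoImplicit false

namespace Pool.Agent.Work.MP_8da9ea_nt

open Complex Filter Topology MvPolynomial

lemma kF_le {k : IntermediateField ℚ ℂ} (hk : kap ∈ k) : kF ≤ k := by
  unfold kF
  rw [IntermediateField.adjoin_le_iff]
  rintro x hx
  rw [Set.mem_singleton_iff] at hx
  rw [hx]
  exact hk

lemma aeval_incl {σ : Type*} {k : IntermediateField ℚ ℂ} (h : kF ≤ k) (F : σ → ℂ)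
    (P : MvPolynomial σ kF) :
    aeval F (MvPolynomial.map (IntermediateField.inclusion h : kF →+* k) P) = aeval F P := by
  rw [aeval_def, aeval_def, MvPolynomial.eval₂_map]
  rfl

/-- **Arcs.** The base field is any countable field containing `2πi`. -/
theorem exists_arcs_mov (k : IntermediateField ℚ ℂ) [Countable k] (hk : kap ∈ k)
    (ι κ' : Type) [Fintype ι] [Fintype κ'] :
    ∃ E : Set ℂ, E.Countable ∧ ∀ x ∈ DD' ι κ', x none ∉ E →
      ∃ γ : ℂ → NN ι κ' → ℂ, AnalyticAt ℂ γ (x none) ∧ γ (x none) = x ∧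
        (∀ᶠ τ in 𝓝 (x none), γ τ none = τ) ∧
        (∀ P : MvPolynomial (SSa ι κ') k, aeval (FFa x) P = 0 →
          ∀ᶠ τ in 𝓝 (x none), aeval (FFa (γ τ)) P = 0) ∧
        ∀ lam : NN ι κ' → k, ∑ a, (lam a : ℂ) * x a ∉ E →
          ∀ C : ℂ, ¬ ∀ᶠ τ in 𝓝 (x none), ∑ a, (lam a : ℂ) * γ τ a = C := by
  classical
  exact exists_arcs_o (k := k) (N := NN ι κ') (σ := SSa ι κ') none (DD' ι κ') DD'_open FFa
    (fun a s => MvPolynomial.map (IntermediateField.inclusion (kF_le hk) : kF →+* k) (PPd a s))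
    (fun x hx s => by
      simp only [aeval_incl]
      exact hasFDerivAt_FF hx s)

end Pool.Agent.Work.MP_8da9ea_nt

end
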