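import Mathlib
import Pool.Agent.Work.MP_8da9ea_nt.Der
import Pool.Agent.Work.MP_8da9ea_nt.Dens
import Pool.Agent.Work.MP_8da9ea_nt.OdeD
import Pool.Agent.Work.MP_8da9ea_nt.Eis
import Pool.Agent.Work.MP_8da9ea_nt.Bd.B06
import Pool.Agent.Work.MP_8da9ea_nt.Bd.B02

/-! Bundle of small proof modules (one section per former module). -/

section

/-!
# Germs of analytic functions of several variables, algebraic dependence
-/

set_option autoImplicit false

namespace Pool.Agent.Work.MP_8da9ea_nt.Fx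

open Filter Topology MvPolynomial

section Mat

/-- more algebraic elements than generators are algebraically dependent -/
theorem not_indep_of_alg {R A ν μ : Type} [Field R] [CommRing A] [IsDomain A] [Algebra R A]
    [Fintype ν] [Fintype μ] (c : ν → A) (h : μ → A) (hcard : Fintype.card ν < Fintype.card μ)
    (halg : ∀ k, IsAlgebraic (Algebra.adjoin R (Set.range c)) (h k)) :
    ¬ AlgebraicIndependent R h := by
  intro hind
  have hinj := hind.injective
  have h1 : (AlgebraicIndependent.matroid R A).Indep (Set.range h) := by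
    rw [AlgebraicIndependent.matroid_indep_iff]
    exact hind.coe_range
  have h2 : Set.range h ⊆ (AlgebraicIndependent.matroid R A).closure (Set.range c) := by
    rw [AlgebraicIndependent.matroid_closure_eq]
    rintro _ ⟨k, rfl⟩
    exact halg k
  have h3 := h1.encard_le_eRk_of_subset h2
  rw [Matroid.eRk_closure_eq] at h3
  have h4 := h3.trans ((AlgebraicIndependent.matroid R A).eRk_le_encard _)
  have h5 : (Set.range h).encard = Fintype.card μ := by
    rw [← Set.image_univ, hinj.encard_image, Set.encard_univ]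
    simp
  have h6 : (Set.range c).encard ≤ Fintype.card ν := by
    rw [← Set.image_univ]
    refine (Set.encard_image_le _ _).trans ?_
    rw [Set.encard_univ]
    simp
  rw [h5] at h4
  have h7 := h4.trans h6
  have h8 : Fintype.card μ ≤ Fintype.card ν := by exact_mod_cast h7
  omega

end Mat

variable {ν : Type} [Fintype ν]

lemma mul_zero_nhds {f g : (ν → ℂ) → ℂ} {s : ν → ℂ} (hf : AnalyticAt ℂ f s)
    (hg : AnalyticAt ℂ g s) (h : ∀ᶠ x in 𝓝 s, f x * g x = 0) :
    (∀ᶠ x in 𝓝 s, f x = 0) ∨ ∀ᶠ x in 𝓝 s, g x = 0 := by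
  obtain ⟨r, hr, hB⟩ := Metric.eventually_nhds_iff_ball.1
    ((hf.eventually_analyticAt.and hg.eventually_analyticAt).and h)
  have hpre : IsPreconnected (Metric.ball s r) := (convex_ball s r).isPreconnected
  by_cases hex : ∃ x ∈ Metric.ball s r, f x ≠ 0
  · right
    obtain ⟨x, hx, hfx⟩ := hex
    have h1 : ∀ᶠ y in 𝓝 x, g y = 0 := by
      filter_upwards [(hB x hx).1.1.continuousAt.eventually_ne hfx,
        Metric.isOpen_ball.mem_nhds hx] with y hy hyB
      exact (mul_eq_zero.1 (hB y hyB).2).resolve_left hy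
    have h2 : AnalyticOnNhd ℂ g (Metric.ball s r) := fun y hy => (hB y hy).1.2
    have h3 := h2.eqOn_zero_of_preconnected_of_eventuallyEq_zero hpre hx h1
    filter_upwards [Metric.ball_mem_nhds s hr] with y hy
    exact h3 hy
  · left
    push Not at hex
    filter_upwards [Metric.ball_mem_nhds s hr] with y hy
    exact hex y hy

/-- the algebra of functions of several variables analytic at `s₀` -/
def AN (s₀ : ν → ℂ) : Subalgebra ℂ ((ν → ℂ) → ℂ) where
  carrier := {f | AnalyticAt ℂ f s₀}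
  mul_mem' := fun hf hg => AnalyticAt.mul hf hg
  add_mem' := fun hf hg => AnalyticAt.add hf hg
  algebraMap_mem' := fun _ => analyticAt_const

/-- functions vanishing near `s₀` -/
def zeroI (s₀ : ν → ℂ) : Ideal (AN s₀) where
  carrier := {f | ∀ᶠ x in 𝓝 s₀, (f : (ν → ℂ) → ℂ) x = 0}
  add_mem' := by
    intro f g hf hg
    filter_upwards [hf, hg] with x h1 h2
    change (f : (ν → ℂ) → ℂ) x + (g : (ν → ℂ) → ℂ) x = 0
    rw [h1, h2, add_zero]
  zero_mem' := Eventually.of_forall fun _ => rfl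
  smul_mem' := by
    intro f g hg
    filter_upwards [hg] with x h1
    change (f : (ν → ℂ) → ℂ) x * (g : (ν → ℂ) → ℂ) x = 0
    rw [h1, mul_zero]

instance zeroI_prime (s₀ : ν → ℂ) : (zeroI s₀).IsPrime where
  ne_top' := by
    intro h
    have h1 : (1 : AN s₀) ∈ zeroI s₀ := by rw [h]; trivial
    have h2 : ∀ᶠ x in 𝓝 s₀, (1 : ℂ) = 0 := h1
    exact one_ne_zero h2.self_of_nhds
  mem_or_mem' := by
    intro f g hfg
    exact mul_zero_nhds f.2 g.2 hfg

/-- the domain of germs of analytic functions at `s₀` -/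
def OG (s₀ : ν → ℂ) : Type := AN s₀ ⧸ zeroI s₀

noncomputable instance (s₀ : ν → ℂ) : CommRing (OG s₀) :=
  inferInstanceAs (CommRing (AN s₀ ⧸ zeroI s₀))

instance (s₀ : ν → ℂ) : IsDomain (OG s₀) :=
  inferInstanceAs (IsDomain (AN s₀ ⧸ zeroI s₀))

noncomputable instance (s₀ : ν → ℂ) : Algebra ℂ (OG s₀) :=
  inferInstanceAs (Algebra ℂ (AN s₀ ⧸ zeroI s₀))

/-- the germ of an analytic function -/
noncomputable def og (s₀ : ν → ℂ) : AN s₀ →ₐ[ℂ] OG s₀ := Ideal.Quotient.mkₐ ℂ (zeroI s₀)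

lemma og_eq_zero {s₀ : ν → ℂ} (f : AN s₀) :
    og s₀ f = 0 ↔ ∀ᶠ x in 𝓝 s₀, (f : (ν → ℂ) → ℂ) x = 0 :=
  Ideal.Quotient.eq_zero_iff_mem

lemma AN_aeval {s₀ : ν → ℂ} {σ : Type} (F : σ → AN s₀) (P : MvPolynomial σ ℂ) (x : ν → ℂ) :
    ((aeval F P : AN s₀) : (ν → ℂ) → ℂ) x = aeval (fun i => (F i : (ν → ℂ) → ℂ) x) P := by
  have h := MvPolynomial.comp_aeval_apply F ((Pi.evalAlgHom ℂ (fun _ : ν → ℂ => ℂ) x).comp
    (AN s₀).val) P
  exact h

/-- the coordinate functions -/
def co (s₀ : ν → ℂ) (i : ν) : AN s₀ := ⟨fun x => x i, by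
  exact (ContinuousLinearMap.proj (R := ℂ) (φ := fun _ : ν => ℂ) i).analyticAt s₀⟩

/-- a function is algebraic over the coordinate functions -/
def Alg (s₀ : ν → ℂ) (f : AN s₀) : Prop :=
  IsAlgebraic (Algebra.adjoin ℂ (Set.range fun i => og s₀ (co s₀ i))) (og s₀ f)

theorem alg_dep (s₀ : ν → ℂ) {μ : Type} [Fintype μ] (hcard : Fintype.card ν < Fintype.card μ)
    (h : μ → AN s₀) (halg : ∀ k, Alg s₀ (h k)) :
    ∃ P : MvPolynomial μ ℂ, P ≠ 0 ∧
      ∀ᶠ x in 𝓝 s₀, aeval (fun k => (h k : (ν → ℂ) → ℂ) x) P = 0 := by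
  have h1 := not_indep_of_alg (R := ℂ) (fun i => og s₀ (co s₀ i)) (fun k => og s₀ (h k)) hcard halg
  rw [algebraicIndependent_iff] at h1
  push Not at h1
  obtain ⟨P, hP, hP0⟩ := h1
  refine ⟨P, hP0, ?_⟩
  have h2 : og s₀ (aeval h P) = 0 := by
    rw [← hP]
    exact MvPolynomial.comp_aeval_apply h (og s₀) P
  rw [og_eq_zero] at h2
  filter_upwards [h2] with x hx
  rw [← AN_aeval]
  exact hx

end Pool.Agent.Work.MP_8da9ea_nt.Fx

end

section

/-!
# The algebraic form of the Ax–Schanuel theorem for a fixed curve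
-/

set_option autoImplicit false

namespace Pool.Agent.Work.MP_8da9ea_nt

open Pool.Agent.ED

section

variable {C M : Type*} [Field C] [Field M] [Algebra C M] {ι κ' : Type*}

/-- the functions for a fixed curve -/
def fxF (z x ζ : ι → M) (t E : κ' → M) : (Fin 3 × ι) ⊕ (Fin 2 × κ') → M
  | Sum.inl (k, i) => ![z i, x i, ζ i] k
  | Sum.inr (k, l) => ![t l, E l] k

/-- the closed forms -/
noncomputable def fxW (z x y ζ : ι → M) (t E : κ' → M) (X : Derivation C M M) :
    (Fin 2 × ι) ⊕ κ' → M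
  | Sum.inl (k, i) => ![X (z i) - X (x i) / y i, X (ζ i) + x i * (X (x i) / y i)] k
  | Sum.inr l => X (t l) - X (E l) / E l

lemma fxW_D (D : Derivation C M M) (z x y ζ : ι → M) (t E : κ' → M) (hy : ∀ i, y i ≠ 0)
    (hE : ∀ l, E l ≠ 0) (hx : ∀ i, D (x i) = y i * D (z i)) (hζ : ∀ i, D (ζ i) = -x i * D (z i))
    (hDE : ∀ l, D (E l) = E l * D (t l)) : fxW z x y ζ t E D = 0 := by
  funext i
  rcases i with ⟨k, i⟩ | l
  · fin_cases k
    · simp [fxW, hx, mul_div_cancel_left₀ _ (hy i)]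
    · simp [fxW, hx, hζ, mul_div_cancel_left₀ _ (hy i)]
  · simp [fxW, hDE, mul_div_cancel_left₀ _ (hE l)]

/-- derivative of the square of `y` -/
lemma der_yy (g2 g3 : C) (x y : M) (hxy : y ^ 2 = 4 * x ^ 3 - algebraMap C M g2 * x - algebraMap C M g3)
    (X : Derivation C M M) : 2 * y * X y = (12 * x ^ 2 - algebraMap C M g2) * X x := by
  have h1 := congrArg X hxy
  have h4 : X (4 : M) = 0 := by
    have := X.map_natCast 4
    simpa using this
  simp only [map_sub, Derivation.leibniz, Derivation.leibniz_pow, Derivation.map_algebraMap, h4,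
    smul_eq_mul, nsmul_eq_mul] at h1
  push_cast at h1
  linear_combination h1

lemma fxW_bracket [CharZero C] (D : Derivation C M M) (g2 g3 : C) (z x y ζ : ι → M) (t E : κ' → M)
    (hy : ∀ i, y i ≠ 0) (hE : ∀ l, E l ≠ 0)
    (hxy : ∀ i, y i ^ 2 = 4 * x i ^ 3 - algebraMap C M g2 * x i - algebraMap C M g3)
    (hx : ∀ i, D (x i) = y i * D (z i)) (hζ : ∀ i, D (ζ i) = -x i * D (z i))
    (hDE : ∀ l, D (E l) = E l * D (t l)) (X : Derivation C M M) (j : (Fin 2 × ι) ⊕ κ') :
    fxW z x y ζ t E ⁅D, X⁆ j = D (fxW z x y ζ t E X j) := by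
  have hM : CharZero M := charZero_of_injective_algebraMap (algebraMap C M).injective
  rcases j with ⟨k, i⟩ | l
  · have h1 := der_yy g2 g3 (x i) (y i) (hxy i) X
    have h2 := der_yy g2 g3 (x i) (y i) (hxy i) D
    have h3 : X (D (x i)) = X (y i) * D (z i) + y i * X (D (z i)) := by
      rw [hx, Derivation.leibniz, smul_eq_mul, smul_eq_mul]
      ring
    have h4 : X (D (ζ i)) = -(X (x i) * D (z i) + x i * X (D (z i))) := by
      rw [hζ, Derivation.leibniz, smul_eq_mul, smul_eq_mul, map_neg]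
      ring
    have hyi := hy i
    have h5 : X (y i) = (12 * x i ^ 2 - algebraMap C M g2) * X (x i) / (2 * y i) := by
      field_simp
      linear_combination h1
    have h6 : D (y i) = (12 * x i ^ 2 - algebraMap C M g2) * D (z i) / 2 := by
      have h7 : 2 * y i * D (y i) = 2 * y i * ((12 * x i ^ 2 - algebraMap C M g2) * D (z i) / 2) := by
        rw [h2, hx]
        ring
      exact mul_left_cancel₀ (mul_ne_zero two_ne_zero hyi) h7
    have h8 : D (X (x i) / y i) = D (X (x i)) / y i - X (x i) * D (y i) / y i ^ 2 := by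
      rw [Derivation.leibniz_div, smul_eq_mul, smul_eq_mul, smul_eq_mul]
      field_simp
    fin_cases k
    · simp only [fxW, Derivation.commutator_apply, Fin.zero_eta, Matrix.cons_val_zero, map_sub, h8,
        h3]
      rw [h5, h6]
      field_simp
      ring
    · simp only [fxW, Derivation.commutator_apply, Fin.mk_one, Matrix.cons_val_one,
        Matrix.cons_val_zero, map_add, Derivation.leibniz, smul_eq_mul, h8, h3, h4]
      rw [h5, h6, hx]
      field_simp
      ring
  · have h3 : X (E l * D (t l)) = X (E l) * D (t l) + E l * X (D (t l)) := by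
      rw [Derivation.leibniz, smul_eq_mul, smul_eq_mul]
      ring
    have hEl := hE l
    simp only [fxW, Derivation.commutator_apply, map_sub, Derivation.leibniz_div, smul_eq_mul, hDE,
      h3]
    field_simp
    ring

theorem AS_fix [CharZero C] (D : Derivation C M M) (hD : ∀ m, D m = 0 → m ∈ Set.range (algebraMap C M))
    [Fintype ι] [Fintype κ'] [DecidableEq ι] [DecidableEq κ'] (g2 g3 : C)
    (z x y ζ : ι → M) (hy : ∀ i, y i ≠ 0)
    (hxy : ∀ i, y i ^ 2 = 4 * x i ^ 3 - algebraMap C M g2 * x i - algebraMap C M g3)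
    (hx : ∀ i, D (x i) = y i * D (z i)) (hζ : ∀ i, D (ζ i) = -x i * D (z i))
    (t E : κ' → M) (hE : ∀ l, E l ≠ 0) (hDE : ∀ l, D (E l) = E l * D (t l))
    (hne : (∃ i, D (z i) ≠ 0) ∨ ∃ l, D (t l) ≠ 0) :
    (∃ s : Finset ((Fin 3 × ι) ⊕ (Fin 2 × κ')),
      AlgebraicIndependent C (fun i : s => fxF z x ζ t E i) ∧
      2 * Fintype.card ι + Fintype.card κ' + 1 ≤ s.card) ∨
    (∃ (c d : ι → C) (e : κ' → C), ¬ (c = 0 ∧ d = 0 ∧ e = 0) ∧ ∃ T : M, ∀ X : Derivation C M M,
      ∑ i, (algebraMap C M (c i) + algebraMap C M (d i) * x i) * (X (x i) / y i) +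
        ∑ l, algebraMap C M (e l) * (X (E l) / E l) = X T) := by
  classical
  have hM : CharZero M := charZero_of_injective_algebraMap (algebraMap C M).injective
  let W : Derivation C M M →ₗ[M] ((Fin 2 × ι) ⊕ κ' → M) :=
    { toFun := fun X => fxW z x y ζ t E X
      map_add' := fun X Y => by
        funext j
        rcases j with ⟨k, i⟩ | l
        · fin_cases k
          · simp [fxW]; ring
          · simp [fxW]; ring
        · simp [fxW]; ring
      map_smul' := fun m X => by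
        funext j
        rcases j with ⟨k, i⟩ | l
        · fin_cases k
          · simp [fxW]; ring
          · simp [fxW]; ring
        · simp [fxW]; ring }
  have hWD : ∀ X : Derivation C M M, ∀ j, D (W X j) = W ⁅D, X⁆ j := fun X j =>
    (fxW_bracket D g2 g3 z x y ζ t E hy hE hxy hx hζ hDE X j).symm
  by_cases htop : LinearMap.range W = ⊤
  · left
    set F := fxF z x ζ t E with hF
    obtain ⟨s, hs, hcard⟩ := exists_finset_rank (K := C) F
    refine ⟨s, hs, ?_⟩
    rw [← hcard]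
    have hspan : Submodule.span M (Set.range fun X : Derivation C M M => fun i => X (F i)) =
        LinearMap.range (evDer (K := C) F) := by
      have h4 : (Set.range fun X : Derivation C M M => fun i => X (F i)) =
          (LinearMap.range (evDer (K := C) F) : Set _) := rfl
      rw [h4, Submodule.span_eq]
    rw [hspan]
    set V := LinearMap.range (evDer (K := C) F) with hV
    let Φ : ((Fin 3 × ι) ⊕ (Fin 2 × κ') → M) →ₗ[M] ((Fin 2 × ι) ⊕ κ' → M) :=
      { toFun := fun f j => match j with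
          | Sum.inl (k, i) => ![f (Sum.inl (0, i)) - f (Sum.inl (1, i)) / y i,
              f (Sum.inl (2, i)) + x i * (f (Sum.inl (1, i)) / y i)] k
          | Sum.inr l => f (Sum.inr (0, l)) - f (Sum.inr (1, l)) / E l
        map_add' := fun X Y => by
          funext j
          rcases j with ⟨k, i⟩ | l
          · fin_cases k
            · simp; ring
            · simp; ring
          · simp; ring
        map_smul' := fun m X => by
          funext j
          rcases j with ⟨k, i⟩ | l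
          · fin_cases k
            · simp; ring
            · simp; ring
          · simp; ring }
    have hΦ : ∀ X : Derivation C M M, Φ (evDer (K := C) F X) = W X := by
      intro X
      funext j
      rcases j with ⟨k, i⟩ | l
      · fin_cases k <;> rfl
      · rfl
    let ρ := Φ.domRestrict V
    have hρ : LinearMap.range ρ = ⊤ := by
      rw [eq_top_iff, ← htop]
      rintro _ ⟨X, rfl⟩
      exact ⟨⟨evDer (K := C) F X, X, rfl⟩, hΦ X⟩
    have hWD0 : W D = 0 := fxW_D D z x y ζ t E hy hE hx hζ hDE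
    have hker : 1 ≤ Module.finrank M (LinearMap.ker ρ) := by
      rw [Nat.one_le_iff_ne_zero]
      intro h0
      have h1 : LinearMap.ker ρ = ⊥ := Submodule.finrank_eq_zero.1 h0
      have h2 : (⟨evDer (K := C) F D, D, rfl⟩ : V) ∈ LinearMap.ker ρ := by
        rw [LinearMap.mem_ker]
        exact (hΦ D).trans hWD0
      rw [h1, Submodule.mem_bot] at h2
      have h3 : evDer (K := C) F D = 0 := congrArg Subtype.val h2
      rcases hne with ⟨i, hi⟩ | ⟨l, hl⟩
      · exact hi (congrFun h3 (Sum.inl (0, i)))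
      · exact hl (congrFun h3 (Sum.inr (0, l)))
    have h1 := LinearMap.finrank_range_add_finrank_ker ρ
    rw [hρ, finrank_top, Module.finrank_fintype_fun_eq_card] at h1
    simp only [Fintype.card_sum, Fintype.card_prod, Fintype.card_fin] at h1
    omega
  · right
    -- the space of relations
    let R : Submodule M ((Fin 2 × ι) ⊕ κ' → M) :=
      { carrier := {r | ∀ X : Derivation C M M, ∑ j, r j * W X j = 0}
        add_mem' := fun {a b} ha hb X => by
          simp only [Pi.add_apply, add_mul, Finset.sum_add_distrib]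
          rw [ha X, hb X, add_zero]
        zero_mem' := fun X => by simp
        smul_mem' := fun m a ha X => by
          simp only [Pi.smul_apply, smul_eq_mul, mul_assoc]
          rw [← Finset.mul_sum, ha X, mul_zero] }
    have hRD : ∀ r ∈ R, (fun j => D (r j)) ∈ R := by
      intro r hr X
      have h1 := congrArg D (hr X)
      rw [map_sum, map_zero] at h1
      have h2 : ∀ j, D (r j * W X j) = r j * W ⁅D, X⁆ j + D (r j) * W X j := by
        intro j
        rw [Derivation.leibniz, smul_eq_mul, smul_eq_mul, hWD]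
        ring
      simp only [h2, Finset.sum_add_distrib] at h1
      rw [hr ⁅D, X⁆, zero_add] at h1
      exact h1
    have hR0 : R ≠ ⊥ := by
      obtain ⟨f, hf0, hf⟩ := Submodule.exists_le_ker_of_lt_top _ (lt_top_iff_ne_top.2 htop)
      intro hbot
      apply hf0
      have h1 : (fun j => f (Pi.single j 1)) ∈ R := by
        intro X
        have h2 : f (W X) = 0 := hf ⟨X, rfl⟩
        rw [LinearMap.pi_apply_eq_sum_univ f (W X)] at h2
        rw [← h2]
        refine Finset.sum_congr rfl fun j _ => ?_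
        rw [smul_eq_mul, mul_comm]
        congr 1
        change f (Pi.single j 1) = _
        congr 1
        funext i
        simp [Pi.single_apply, eq_comm]
      rw [hbot, Submodule.mem_bot] at h1
      refine LinearMap.pi_ext' fun j => ?_
      ext
      exact congrFun h1 j
    have hRc := dstable D hD R hRD
    obtain ⟨r, hr, hr0, c, hc⟩ : ∃ r ∈ R, r ≠ 0 ∧ ∃ c : (Fin 2 × ι) ⊕ κ' → C,
        r = fun i => algebraMap C M (c i) := by
      by_contra hcon
      push Not at hcon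
      apply hR0
      rw [hRc, Submodule.span_eq_bot]
      rintro u ⟨hu, c, hc⟩
      by_contra hu0
      exact hcon u hu hu0 c hc
    refine ⟨fun i => c (Sum.inl (0, i)), fun i => -c (Sum.inl (1, i)), fun l => c (Sum.inr l), ?_,
      ∑ i, (algebraMap C M (c (Sum.inl (0, i))) * z i + algebraMap C M (c (Sum.inl (1, i))) * ζ i) +
        ∑ l, algebraMap C M (c (Sum.inr l)) * t l, ?_⟩
    · rintro ⟨h1, h2, h3⟩
      apply hr0
      rw [hc]
      funext j
      rcases j with ⟨k, i⟩ | l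
      · fin_cases k
        · have := congrFun h1 i
          simp only [Pi.zero_apply] at this
          simp [this]
        · have := congrFun h2 i
          simp only [Pi.zero_apply, neg_eq_zero] at this
          simp [this]
      · have := congrFun h3 l
        simp only [Pi.zero_apply] at this
        simp [this]
    · intro X
      have h1 : ∑ j, r j * W X j = 0 := hr X
      have h2 : ∑ j, r j * W X j =
          ∑ i, (algebraMap C M (c (Sum.inl (0, i))) * (X (z i) - X (x i) / y i) +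
            algebraMap C M (c (Sum.inl (1, i))) * (X (ζ i) + x i * (X (x i) / y i))) +
          ∑ l, algebraMap C M (c (Sum.inr l)) * (X (t l) - X (E l) / E l) := by
        rw [hc, Fintype.sum_sum_type, Fintype.sum_prod_type, Fin.sum_univ_two,
          ← Finset.sum_add_distrib]
        rfl
      rw [h2] at h1
      simp only [map_add, map_sum, Derivation.leibniz, Derivation.map_algebraMap, smul_eq_mul,
        mul_zero, add_zero, map_neg]
      rw [← sub_eq_zero]
      rw [← neg_eq_zero, ← h1]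
      rw [← sub_eq_zero]
      simp only [mul_sub, mul_add, add_mul, neg_mul, Finset.sum_add_distrib, Finset.sum_sub_distrib,
        Finset.sum_neg_distrib, mul_assoc]
      ring

end

end Pool.Agent.Work.MP_8da9ea_nt

end

section

/-!
# The endomorphism field of a lattice
-/

set_option autoImplicit false

namespace Pool.Agent.Work.MP_8da9ea_nt

/-- elements of the endomorphism field of `ℤ + ℤτ` -/
def IsEnd (τ g : ℂ) : Prop := ∃ N : ℤ, N ≠ 0 ∧ (N : ℂ) * g ∈ Lam τ ∧ (N : ℂ) * g * τ ∈ Lam τ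

end Pool.Agent.Work.MP_8da9ea_nt

end

section

/-!
# Addition formulas for the Weierstrass functions, in polynomial form
-/

set_option autoImplicit false

namespace Pool.Agent.Work.MP_8da9ea_nt.Fx

open Complex Filter Topology

/-- the difference of the two sides of the addition formula -/
noncomputable def addQ (τ b z : ℂ) : ℂ :=
  (zt 1 τ (z + b) - zt 1 τ z - zt 1 τ b) ^ 2 - wp 1 τ z - wp 1 τ b - wp 1 τ (z + b)

lemma lim_addQ {τ b : ℂ} (hτ : 0 < τ.im) (hb : b ∉ Lam τ) :
    Tendsto (fun z => addQ τ b z) (𝓝[≠] 0) (𝓝 0) := by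
  have hp := lim_wpE hτ
  have hr := lim_ztE hτ
  have hz : Tendsto (fun z : ℂ => z) (𝓝[≠] 0) (𝓝 0) :=
    (continuous_id.tendsto (0 : ℂ)).mono_left nhdsWithin_le_nhds
  have hA : Tendsto (fun z : ℂ => z⁻¹ * (zt 1 τ (b + z) - zt 1 τ b)) (𝓝[≠] 0) (𝓝 (-wp 1 τ b)) := by
    have h := hasDerivAt_iff_tendsto_slope_zero.1 (hasDerivAt_zt_z hτ hb)
    simpa [smul_eq_mul] using h
  have hw : Tendsto (fun z : ℂ => wp 1 τ (z + b)) (𝓝[≠] 0) (𝓝 (wp 1 τ b)) := by
    have h := (hasDerivAt_wp_z hτ hb).continuousAt.tendsto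
    have h2 : Tendsto (fun z : ℂ => z + b) (𝓝 0) (𝓝 b) := by
      have : Tendsto (fun z : ℂ => z + b) (𝓝 0) (𝓝 (0 + b)) := by
        apply Continuous.tendsto; fun_prop
      rwa [zero_add] at this
    exact (h.comp h2).mono_left nhdsWithin_le_nhds
  -- `B / z` with `B = A - z ^ 3 r`
  have hB := hA.sub ((hz.pow 2).mul hr)
  have hB2 := (hz.pow 2).mul (hB.pow 2)
  have key := (((hB2.sub (hB.const_mul 2)).sub ((hz.pow 2).mul hp)).sub_const (wp 1 τ b)).sub hw
  have e : 0 ^ 2 * (-wp 1 τ b - 0 ^ 2 * -gk 4 1 τ) ^ 2 - 2 * (-wp 1 τ b - 0 ^ 2 * -gk 4 1 τ) -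
      0 ^ 2 * (3 * gk 4 1 τ) - wp 1 τ b - wp 1 τ b = 0 := by ring
  rw [e] at key
  refine key.congr' ?_
  filter_upwards [self_mem_nhdsWithin] with z hz
  have hz0 : z ≠ 0 := hz
  unfold addQ
  rw [wp_eq_E hτ z, zt_eq_E hτ z, add_comm b z]
  field_simp
  ring

lemma Lam_add {τ a b : ℂ} (ha : a ∈ Lam τ) (hb : b ∈ Lam τ) : a + b ∈ Lam τ := by
  obtain ⟨m, n, rfl⟩ := mem_Lam.1 ha
  rwa [add_comm, add_mem_Lam_iff]

lemma addQ_symm {τ b v l : ℂ} (hτ : 0 < τ.im) (hl : l ∈ Lam τ) :
    addQ τ b (l - b + v) = addQ τ b (-v) := by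
  obtain ⟨m, n, rfl⟩ := mem_Lam.1 hl
  unfold addQ
  have e1 : (m : ℂ) + n * τ - b + v + b = v + (m + n * τ) := by ring
  have e2 : (m : ℂ) + n * τ - b + v = -(-v + b) + (m + n * τ) := by ring
  rw [e1, e2, wp_add_lp hτ, wp_add_lp hτ, zt_add_lp hτ, zt_add_lp hτ, wp_neg, wp_neg, zt_neg, zt_neg]
  ring

open scoped Classical in
/-- **Addition formula for the zeta function.** -/
theorem zt_add_sq {τ a b : ℂ} (hτ : 0 < τ.im) (ha : a ∉ Lam τ) (hb : b ∉ Lam τ)
    (hab : a + b ∉ Lam τ) : (zt 1 τ (a + b) - zt 1 τ a - zt 1 τ b) ^ 2 =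
      wp 1 τ a + wp 1 τ b + wp 1 τ (a + b) := by
  set D : ℂ → ℂ := fun z => if z + b ∈ Lam τ then 0 else addQ τ b z with hD
  have hQ1 : ∀ z, addQ τ b (z + 1) = addQ τ b z := by
    intro z
    unfold addQ
    rw [show z + 1 + b = z + b + 1 by ring, zt_add_one' hτ, zt_add_one' hτ, wp_add_one hτ,
      wp_add_one hτ]
    ring
  have hQ2 : ∀ z, addQ τ b (z + τ) = addQ τ b z := by
    intro z
    unfold addQ
    rw [show z + τ + b = z + b + τ by ring, zt_add_tau hτ, zt_add_tau hτ, wp_add_tau hτ,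
      wp_add_tau hτ]
    ring
  have hQd : ∀ z, z ∉ Lam τ → z + b ∉ Lam τ → DifferentiableAt ℂ (fun z => addQ τ b z) z := by
    intro z hz hzb
    have h1 := (hasDerivAt_zt_z hτ hz).differentiableAt
    have h2 := (hasDerivAt_wp_z hτ hz).differentiableAt
    have h3 : DifferentiableAt ℂ (fun z => zt 1 τ (z + b)) z :=
      ((hasDerivAt_zt_z hτ hzb).comp_add_const z b).differentiableAt
    have h4 : DifferentiableAt ℂ (fun z => wp 1 τ (z + b)) z :=
      ((hasDerivAt_wp_z hτ hzb).comp_add_const z b).differentiableAt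
    unfold addQ
    fun_prop
  have hDd1 : ∀ z, z ∉ Lam τ → z + b ∉ Lam τ → DifferentiableAt ℂ D z := by
    intro z hz hzb
    refine (hQd z hz hzb).congr_of_eventuallyEq ?_
    have hc : Tendsto (fun w : ℂ => w + b) (𝓝 z) (𝓝 (z + b)) := by
      apply Continuous.tendsto; fun_prop
    filter_upwards [hc.eventually ((Lam_compl_open hτ).mem_nhds hzb)] with w hw
    have hw' : w + b ∉ Lam τ := hw
    simp [hD, hw']
  have hlim0 := lim_addQ hτ hb
  have h := elliptic_zero hτ (D := D) ?_ ?_ ?_ ?_ a ha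
  · simp only [hD, hab, if_false] at h
    unfold addQ at h
    linear_combination h
  · intro z _
    have e : z + 1 + b ∈ Lam τ ↔ z + b ∈ Lam τ := by
      rw [show z + 1 + b = z + b + 1 by ring, add_one_mem]
    simp only [hD, e, hQ1]
  · intro z _
    have e : z + τ + b ∈ Lam τ ↔ z + b ∈ Lam τ := by
      rw [show z + τ + b = z + b + τ by ring, add_tau_mem]
    simp only [hD, e, hQ2]
  · intro z hz
    by_cases hzb : z + b ∈ Lam τ
    · -- removable singularity
      have hs : Tendsto (fun w : ℂ => w - z) (𝓝[≠] z) (𝓝[≠] 0) := by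
        rw [tendsto_nhdsWithin_iff]
        constructor
        · have : Tendsto (fun w : ℂ => w - z) (𝓝 z) (𝓝 (z - z)) := by
            apply Continuous.tendsto; fun_prop
          rw [sub_self] at this
          exact this.mono_left nhdsWithin_le_nhds
        · filter_upwards [self_mem_nhdsWithin] with w hw
          exact sub_ne_zero.2 hw
      have hs2 : Tendsto (fun w : ℂ => -(w - z)) (𝓝[≠] z) (𝓝[≠] 0) := by
        rw [tendsto_nhdsWithin_iff]
        constructor
        · have : Tendsto (fun w : ℂ => -(w - z)) (𝓝 z) (𝓝 (-(z - z))) := by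
            apply Continuous.tendsto; fun_prop
          rw [sub_self, neg_zero] at this
          exact this.mono_left nhdsWithin_le_nhds
        · filter_upwards [self_mem_nhdsWithin] with w hw
          exact neg_ne_zero.2 (sub_ne_zero.2 hw)
      have hev : ∀ᶠ w in 𝓝[≠] z, w ∉ Lam τ ∧ w + b ∉ Lam τ := by
        have h1 : ∀ᶠ w in 𝓝[≠] z, w ∉ Lam τ :=
          nhdsWithin_le_nhds ((Lam_compl_open hτ).mem_nhds hz)
        filter_upwards [h1, hs.eventually (eventually_notMem hτ)] with w hw1 hw2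
        refine ⟨hw1, fun hw => hw2 ?_⟩
        have : w - z = (w + b) + -(z + b) := by ring
        rw [this]
        exact Lam_add hw (neg_mem_Lam.2 hzb)
      refine (Complex.analyticAt_of_differentiable_on_punctured_nhds_of_continuousAt ?_ ?_).differentiableAt
      · filter_upwards [hev] with w hw
        exact hDd1 w hw.1 hw.2
      · rw [continuousAt_iff_punctured_nhds]
        have e0 : D z = 0 := by simp [hD, hzb]
        rw [e0]
        refine (hlim0.comp hs2).congr' ?_
        filter_upwards [hev] with w hw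
        have e1 : D w = addQ τ b w := by simp [hD, hw.2]
        rw [e1, Function.comp_apply]
        have e2 : w = (z + b) - b + (w - z) := by ring
        conv_rhs => rw [e2]
        rw [addQ_symm hτ hzb]
    · exact hDd1 z hz hzb
  · refine hlim0.congr' ?_
    have hc : Tendsto (fun w : ℂ => w + b) (𝓝[≠] 0) (𝓝 b) := by
      have : Tendsto (fun w : ℂ => w + b) (𝓝 0) (𝓝 (0 + b)) := by
        apply Continuous.tendsto; fun_prop
      rw [zero_add] at this
      exact this.mono_left nhdsWithin_le_nhds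
    filter_upwards [hc.eventually ((Lam_compl_open hτ).mem_nhds hb)] with w hw
    have hw' : w + b ∉ Lam τ := hw
    simp [hD, hw']

lemma ev_add {τ a b : ℂ} (hτ : 0 < τ.im) (ha : a ∉ Lam τ) (hab : a + b ∉ Lam τ) :
    ∀ᶠ z in 𝓝 a, z ∉ Lam τ ∧ z + b ∉ Lam τ := by
  have hc : Tendsto (fun w : ℂ => w + b) (𝓝 a) (𝓝 (a + b)) := by
    apply Continuous.tendsto; fun_prop
  filter_upwards [(Lam_compl_open hτ).mem_nhds ha,
    hc.eventually ((Lam_compl_open hτ).mem_nhds hab)] with z h1 h2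
  exact ⟨h1, h2⟩

theorem zt_add_lin {τ a b : ℂ} (hτ : 0 < τ.im) (ha : a ∉ Lam τ) (hb : b ∉ Lam τ)
    (hab : a + b ∉ Lam τ) : 2 * (zt 1 τ (a + b) - zt 1 τ a - zt 1 τ b) *
      (wp 1 τ a - wp 1 τ (a + b)) = wpd τ a + wpd τ (a + b) := by
  have h1 := (((((hasDerivAt_zt_z hτ hab).comp_add_const a b).sub (hasDerivAt_zt_z hτ ha)).sub_const
    (zt 1 τ b)).pow 2)
  have h2 := (((hasDerivAt_wp_z hτ ha).add_const (wp 1 τ b)).add
    ((hasDerivAt_wp_z hτ hab).comp_add_const a b))
  have h3 : (fun z => (zt 1 τ (z + b) - zt 1 τ z - zt 1 τ b) ^ 2) =ᶠ[𝓝 a]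
      fun z => wp 1 τ z + wp 1 τ b + wp 1 τ (z + b) := by
    filter_upwards [ev_add hτ ha hab] with z hz
    exact zt_add_sq hτ hz.1 hb hz.2
  have h4 := (h1.congr_of_eventuallyEq (f₁ := fun z => (zt 1 τ (z + b) - zt 1 τ z - zt 1 τ b) ^ 2)
    (Eventually.of_forall fun _ => rfl)).unique (h2.congr_of_eventuallyEq h3)
  simp only [Nat.cast_ofNat] at h4
  norm_num at h4
  linear_combination h4

theorem zt_add_quad {τ a b : ℂ} (hτ : 0 < τ.im) (ha : a ∉ Lam τ) (hb : b ∉ Lam τ)
    (hab : a + b ∉ Lam τ) : 2 * (zt 1 τ (a + b) - zt 1 τ a - zt 1 τ b) *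
      (wpd τ a - wpd τ (a + b)) = 4 * (wp 1 τ a ^ 2 + wp 1 τ a * wp 1 τ (a + b) +
        wp 1 τ (a + b) ^ 2) - gg2 τ := by
  have h1 := ((((hasDerivAt_zt_z hτ hab).comp_add_const a b).sub (hasDerivAt_zt_z hτ ha)).sub_const
    (zt 1 τ b)).const_mul 2 |>.mul
    ((hasDerivAt_wp_z hτ ha).sub ((hasDerivAt_wp_z hτ hab).comp_add_const a b))
  have h2 := ((hasDerivAt_wpd_z hτ ha).add
    ((hasDerivAt_wpd_z hτ hab).comp_add_const a b))
  have h3 : (fun z => 2 * (zt 1 τ (z + b) - zt 1 τ z - zt 1 τ b) * (wp 1 τ z - wp 1 τ (z + b)))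
      =ᶠ[𝓝 a] fun z => wpd τ z + wpd τ (z + b) := by
    filter_upwards [ev_add hτ ha hab] with z hz
    exact zt_add_lin hτ hz.1 hb hz.2
  have h4 := (h1.congr_of_eventuallyEq (f₁ := fun z => 2 * (zt 1 τ (z + b) - zt 1 τ z - zt 1 τ b) *
    (wp 1 τ z - wp 1 τ (z + b)))
    (Eventually.of_forall fun _ => rfl)).unique (h2.congr_of_eventuallyEq h3)
  rw [wpdd_eq hτ ha, wpdd_eq hτ hab] at h4
  simp only [Pi.sub_apply] at h4
  linear_combination h4

/-- **Addition formula for the Weierstrass function**, in polynomial form. -/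
theorem wp_add_rel {τ a b : ℂ} (hτ : 0 < τ.im) (ha : a ∉ Lam τ) (hb : b ∉ Lam τ)
    (hab : a + b ∉ Lam τ) :
    (wp 1 τ a + wp 1 τ b + wp 1 τ (a + b)) * (4 * wp 1 τ a * wp 1 τ b * wp 1 τ (a + b) - gg3 τ) =
      (wp 1 τ a * wp 1 τ b + wp 1 τ b * wp 1 τ (a + b) + wp 1 τ (a + b) * wp 1 τ a +
        gg2 τ / 4) ^ 2 := by
  have h1 := zt_add_sq hτ ha hb hab
  have h2 := zt_add_lin hτ ha hb hab
  have h3 := zt_add_quad hτ ha hb hab
  have h4 := wpd_sq hτ ha
  set s := zt 1 τ (a + b) - zt 1 τ a - zt 1 τ b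
  set x := wp 1 τ a
  set y := wpd τ a
  set x2 := wp 1 τ b
  set x3 := wp 1 τ (a + b)
  set y3 := wpd τ (a + b)
  -- `4 s y = 4 s ^ 2 (x - x3) + 4 (x ^ 2 + x x3 + x3 ^ 2) - g2`
  have h5 : 4 * s * y = 4 * (x + x2 + x3) * (x - x3) + 4 * (x ^ 2 + x * x3 + x3 ^ 2) - gg2 τ := by
    linear_combination h3 - 2 * s * h2 + 4 * (x - x3) * h1
  have h6 : 16 * (x + x2 + x3) * (4 * x ^ 3 - gg2 τ * x - gg3 τ) =
      (4 * (x + x2 + x3) * (x - x3) + 4 * (x ^ 2 + x * x3 + x3 ^ 2) - gg2 τ) ^ 2 := by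
    rw [← h5, ← h1, ← h4]
    ring
  linear_combination h6 / 16

/-- the discriminant does not vanish -/
theorem disc_ne {τ : ℂ} (hτ : 0 < τ.im) : gg2 τ ^ 3 - 27 * gg3 τ ^ 2 ≠ 0 := by
  intro h0
  have z4 : riemannZeta (4 : ℕ) = (Real.pi : ℂ) ^ 4 / 90 := by
    exact_mod_cast riemannZeta_four
  have z6 : riemannZeta (6 : ℕ) = (Real.pi : ℂ) ^ 6 / 945 := by
    have h := riemannZeta_two_mul_nat (k := 3) (by norm_num)
    have hb : bernoulli 6 = 1 / 42 := by decide +kernel
    rw [show 2 * 3 = 6 by norm_num, hb] at h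
    have h' : riemannZeta ((6 : ℕ) : ℂ) = riemannZeta (2 * ((3 : ℕ) : ℂ)) := by
      congr 1
      norm_num
    rw [h', h]
    norm_num [Nat.factorial]
    ring
  have hpi : (Real.pi : ℂ) ≠ 0 := by exact_mod_cast Real.pi_ne_zero
  have hE4 := gk_eq (k := 4) (by norm_num) hτ
  have hE6 := gk_eq (k := 6) (by norm_num) hτ
  rw [z4] at hE4
  rw [z6] at hE6
  have hd := ModularForm.discriminant_eq_E₄_cube_sub_E₆_sq ⟨τ, hτ⟩
  have hd0 := ModularForm.discriminant_ne_zero ⟨τ, hτ⟩
  apply hd0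
  rw [hd]
  have e1 : ModularForm.E₄ ⟨τ, hτ⟩ = ModularForm.E (k := 4) (by norm_num) ⟨τ, hτ⟩ := rfl
  have e2 : ModularForm.E₆ ⟨τ, hτ⟩ = ModularForm.E (k := 6) (by norm_num) ⟨τ, hτ⟩ := rfl
  rw [e1, e2]
  unfold gg2 gg3 at h0
  rw [hE4, hE6] at h0
  set A : ℂ := ModularForm.E (k := 4) (by norm_num) ⟨τ, hτ⟩
  set B : ℂ := ModularForm.E (k := 6) (by norm_num) ⟨τ, hτ⟩
  have h3 : (64 / 27 * (Real.pi : ℂ) ^ 12) * (A ^ 3 - B ^ 2) = 0 := by
    linear_combination h0
  have h5 := (mul_eq_zero.1 h3).resolve_left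
    (mul_ne_zero (by norm_num) (pow_ne_zero 12 hpi))
  rw [h5, zero_div]

end Pool.Agent.Work.MP_8da9ea_nt.Fx

end

section

/-!
# Algebraic functions of several variables: closure properties
-/

set_option autoImplicit false

namespace Pool.Agent.Work.MP_8da9ea_nt.Fx

open Filter Topology

variable {ν : Type} [Fintype ν]

/-- the algebra generated by the coordinates -/
noncomputable abbrev SA (s₀ : ν → ℂ) : Subalgebra ℂ (OG s₀) :=
  Algebra.adjoin ℂ (Set.range fun i => og s₀ (co s₀ i))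

/-- a function which is analytic at `s₀` and algebraic over the coordinates -/
def AlgF (s₀ : ν → ℂ) (f : (ν → ℂ) → ℂ) : Prop :=
  ∃ h : AnalyticAt ℂ f s₀, IsAlgebraic (SA s₀) (og s₀ ⟨f, h⟩)

variable {s₀ : ν → ℂ} {f g : (ν → ℂ) → ℂ}

lemma AlgF.an (h : AlgF s₀ f) : AnalyticAt ℂ f s₀ := h.1

lemma AlgF.congr (h : AlgF s₀ f) (hfg : f =ᶠ[𝓝 s₀] g) : AlgF s₀ g := by
  obtain ⟨h1, h2⟩ := h
  refine ⟨h1.congr hfg, ?_⟩
  have e : og s₀ ⟨g, h1.congr hfg⟩ = og s₀ ⟨f, h1⟩ := by
    rw [← sub_eq_zero, ← map_sub, og_eq_zero]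
    filter_upwards [hfg] with x hx
    change g x - f x = 0
    rw [hx, sub_self]
  rw [e]
  exact h2

lemma AlgF.add (hf : AlgF s₀ f) (hg : AlgF s₀ g) : AlgF s₀ (fun x => f x + g x) := by
  obtain ⟨h1, h2⟩ := hf
  obtain ⟨h3, h4⟩ := hg
  refine ⟨h1.add h3, ?_⟩
  have e : og s₀ ⟨fun x => f x + g x, h1.add h3⟩ = og s₀ ⟨f, h1⟩ + og s₀ ⟨g, h3⟩ := by
    rw [← map_add]
    rfl
  rw [e]
  exact h2.add h4

lemma AlgF.mul (hf : AlgF s₀ f) (hg : AlgF s₀ g) : AlgF s₀ (fun x => f x * g x) := by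
  obtain ⟨h1, h2⟩ := hf
  obtain ⟨h3, h4⟩ := hg
  refine ⟨h1.mul h3, ?_⟩
  have e : og s₀ ⟨fun x => f x * g x, h1.mul h3⟩ = og s₀ ⟨f, h1⟩ * og s₀ ⟨g, h3⟩ := by
    rw [← map_mul]
    rfl
  rw [e]
  exact h2.mul h4

lemma algF_const (c : ℂ) : AlgF s₀ (fun _ => c) := by
  refine ⟨analyticAt_const, ?_⟩
  have e : og s₀ ⟨fun _ => c, analyticAt_const⟩ = algebraMap ℂ (OG s₀) c := by
    rw [← (og s₀).commutes]
    rfl
  rw [e]
  exact isAlgebraic_algebraMap (R := SA s₀) (algebraMap ℂ (SA s₀) c)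

lemma AlgF.neg (hf : AlgF s₀ f) : AlgF s₀ (fun x => - f x) := by
  refine ((algF_const (-1)).mul hf).congr (Eventually.of_forall fun x => ?_)
  change -1 * f x = - f x
  ring

lemma AlgF.sub (hf : AlgF s₀ f) (hg : AlgF s₀ g) : AlgF s₀ (fun x => f x - g x) := by
  refine (hf.add hg.neg).congr (Eventually.of_forall fun x => ?_)
  change f x + -g x = f x - g x
  ring

lemma AlgF.pow (hf : AlgF s₀ f) (n : ℕ) : AlgF s₀ (fun x => f x ^ n) := by
  induction n with
  | zero =>
    simpa using algF_const (s₀ := s₀) 1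
  | succ n ih =>
    refine (ih.mul hf).congr (Eventually.of_forall fun x => ?_)
    change f x ^ n * f x = f x ^ (n + 1)
    ring

lemma algF_sum {ι : Type*} (s : Finset ι) {F : ι → (ν → ℂ) → ℂ} (h : ∀ i ∈ s, AlgF s₀ (F i)) :
    AlgF s₀ (fun x => ∑ i ∈ s, F i x) := by
  classical
  induction s using Finset.induction_on with
  | empty => simpa using algF_const (s₀ := s₀) 0
  | insert i s hi ih =>
    simp only [Finset.sum_insert hi]
    exact (h i (Finset.mem_insert_self i s)).add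
      (ih fun j hj => h j (Finset.mem_insert_of_mem hj))

/-- roots of nonzero quadratic or linear polynomials with algebraic coefficients -/
lemma algF_root {a b c : (ν → ℂ) → ℂ} (ha : AlgF s₀ a) (hb : AlgF s₀ b) (hc : AlgF s₀ c)
    (hf : AnalyticAt ℂ f s₀) (h : ∀ᶠ x in 𝓝 s₀, a x * f x ^ 2 + b x * f x + c x = 0)
    (hne : ¬ ∀ᶠ x in 𝓝 s₀, a x = 0 ∧ b x = 0) : AlgF s₀ f := by
  obtain ⟨ha1, ha2⟩ := ha
  obtain ⟨hb1, hb2⟩ := hb
  obtain ⟨hc1, hc2⟩ := hc
  refine ⟨hf, ?_⟩
  set A := og s₀ ⟨a, ha1⟩ with hA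
  set B := og s₀ ⟨b, hb1⟩ with hB
  set C := og s₀ ⟨c, hc1⟩ with hC
  set F := og s₀ ⟨f, hf⟩ with hF
  have hrel : A * F ^ 2 + B * F + C = 0 := by
    rw [hA, hB, hC, hF, ← map_pow, ← map_mul, ← map_mul, ← map_add, ← map_add, og_eq_zero]
    exact h
  have hAB : A ≠ 0 ∨ B ≠ 0 := by
    by_contra hcon
    push Not at hcon
    apply hne
    rw [hA, hB, og_eq_zero, og_eq_zero] at hcon
    exact hcon.1.and hcon.2
  set S : Set (OG s₀) := Set.range (fun i => og s₀ (co s₀ i)) ∪ {A, B, C} with hS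
  have hmA : A ∈ Algebra.adjoin ℂ S := Algebra.subset_adjoin (Or.inr (by simp))
  have hmB : B ∈ Algebra.adjoin ℂ S := Algebra.subset_adjoin (Or.inr (by simp))
  have hmC : C ∈ Algebra.adjoin ℂ S := Algebra.subset_adjoin (Or.inr (by simp))
  have h1 : IsAlgebraic (Algebra.adjoin ℂ S) F := by
    set p : Polynomial (Algebra.adjoin ℂ S) := Polynomial.C ⟨A, hmA⟩ * Polynomial.X ^ 2 +
      Polynomial.C ⟨B, hmB⟩ * Polynomial.X + Polynomial.C ⟨C, hmC⟩ with hp
    refine ⟨p, ?_, ?_⟩
    · intro h0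
      have c2 : p.coeff 2 = ⟨A, hmA⟩ := by simp [hp]
      have c1 : p.coeff 1 = ⟨B, hmB⟩ := by
        simp [hp, Polynomial.coeff_X_pow, Polynomial.coeff_C]
      rw [h0, Polynomial.coeff_zero] at c1 c2
      rcases hAB with h2 | h2
      · exact h2 (congrArg Subtype.val c2).symm
      · exact h2 (congrArg Subtype.val c1).symm
    · rw [hp]
      simp only [map_add, map_mul, Polynomial.aeval_C, Polynomial.aeval_X, map_pow]
      exact hrel
  refine IsAlgebraic.adjoin_of_forall_isAlgebraic (s := S) ?_ h1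
  rintro x ⟨hx1 | hx1, hx2⟩
  · exact absurd hx1 hx2
  · simp only [Set.mem_insert_iff, Set.mem_singleton_iff] at hx1
    rcases hx1 with rfl | rfl | rfl
    · exact ha2
    · exact hb2
    · exact hc2

/-- a function of one variable which is algebraic -/
def Alg1 (u₀ : ℂ) (f : ℂ → ℂ) : Prop :=
  AnalyticAt ℂ f u₀ ∧ ∃ P : MvPolynomial (Fin 2) ℂ, P ≠ 0 ∧
    ∀ᶠ u in 𝓝 u₀, MvPolynomial.eval ![u, f u] P = 0

lemma coord_an (s₀ : ν → ℂ) (a : ν) : AnalyticAt ℂ (fun x : ν → ℂ => x a) s₀ := (co s₀ a).2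

lemma comp_coord {f : ℂ → ℂ} (a : ν) (hf : AnalyticAt ℂ f (s₀ a)) :
    AnalyticAt ℂ (fun x : ν → ℂ => f (x a)) s₀ :=
  AnalyticAt.fun_comp hf (coord_an s₀ a)

lemma algF_of_alg1 [DecidableEq ν] {f : ℂ → ℂ} (a : ν) (hf : Alg1 (s₀ a) f) :
    AlgF s₀ (fun x => f (x a)) := by
  obtain ⟨hf1, P, hP0, hP⟩ := hf
  refine ⟨comp_coord a hf1, ?_⟩
  set F := og s₀ ⟨fun x => f (x a), comp_coord a hf1⟩ with hF
  -- the coordinate is transcendental
  have htr : AlgebraicIndependent ℂ (fun _ : Unit => og s₀ (co s₀ a)) := by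
    rw [algebraicIndependent_unique_type_iff]
    rintro ⟨p, hp0, hp⟩
    apply hp0
    have h1 : og s₀ (Polynomial.aeval (co s₀ a) p) = 0 := by
      rw [← hp]
      exact (Polynomial.aeval_algHom_apply (og s₀) (co s₀ a) p).symm
    rw [og_eq_zero] at h1
    have h2 : ∀ x : ν → ℂ, ((Polynomial.aeval (co s₀ a) p : AN s₀) : (ν → ℂ) → ℂ) x =
        p.eval (x a) := by
      intro x
      have h3 := Polynomial.aeval_algHom_apply ((Pi.evalAlgHom ℂ (fun _ : ν → ℂ => ℂ) x).comp
        (AN s₀).val) (co s₀ a) p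
      rw [← Polynomial.coe_aeval_eq_eval]
      exact h3.symm
    have hc : Tendsto (fun v : ℂ => Function.update s₀ a v) (𝓝 (s₀ a)) (𝓝 s₀) := by
      have h4 : Continuous (fun v : ℂ => Function.update s₀ a v) := by fun_prop
      have h5 := h4.tendsto (s₀ a)
      rwa [Function.update_eq_self] at h5
    have h6 : ∀ᶠ v in 𝓝 (s₀ a), p.eval v = 0 := by
      filter_upwards [hc.eventually h1] with v hv
      rw [h2] at hv
      simpa using hv
    exact Polynomial.eq_zero_of_infinite_isRoot p (infinite_of_mem_nhds _ h6)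
  have hdep : ¬ AlgebraicIndependent ℂ
      (fun o : Option Unit => o.elim F (fun _ => og s₀ (co s₀ a))) := by
    intro h1
    let e : Fin 2 ≃ Option Unit :=
      { toFun := ![some (), none]
        invFun := fun o => o.elim 1 (fun _ => 0)
        left_inv := by intro i; fin_cases i <;> rfl
        right_inv := by rintro (_ | _) <;> rfl }
    have h2 := h1.comp e e.injective
    apply hP0
    have h3 := algebraicIndependent_iff.1 h2
    refine h3 P ?_
    have h4 : ((fun o : Option Unit => o.elim F (fun _ => og s₀ (co s₀ a))) ∘ e) =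
        fun i => og s₀ (![co s₀ a, ⟨fun x => f (x a), comp_coord a hf1⟩] i) := by
      funext i
      fin_cases i <;> rfl
    rw [h4]
    have h5 := MvPolynomial.comp_aeval_apply ![co s₀ a, ⟨fun x => f (x a), comp_coord a hf1⟩]
      (og s₀) P
    refine h5.symm.trans ?_
    rw [og_eq_zero]
    have hc : Tendsto (fun x : ν → ℂ => x a) (𝓝 s₀) (𝓝 (s₀ a)) :=
      (continuous_apply a).tendsto s₀
    filter_upwards [hc.eventually hP] with x hx
    rw [AN_aeval, MvPolynomial.aeval_eq_eval, ← hx]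
    congr 2
    funext i
    fin_cases i <;> rfl
  rw [AlgebraicIndependent.option_iff] at hdep
  have h1 : IsAlgebraic (Algebra.adjoin ℂ (Set.range fun _ : Unit => og s₀ (co s₀ a))) F := by
    by_contra h2
    exact hdep ⟨htr, h2⟩
  refine IsAlgebraic.adjoin_of_forall_isAlgebraic ?_ h1
  rintro x ⟨⟨_, rfl⟩, hx2⟩
  exact absurd ⟨a, rfl⟩ hx2

/-- dependence of more algebraic functions than coordinates -/
theorem algF_dep {μ : Type} [Fintype μ] (hcard : Fintype.card ν < Fintype.card μ)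
    (h : μ → (ν → ℂ) → ℂ) (halg : ∀ k, AlgF s₀ (h k)) :
    ∃ P : MvPolynomial μ ℂ, P ≠ 0 ∧
      ∀ᶠ x in 𝓝 s₀, MvPolynomial.aeval (fun k => h k x) P = 0 :=
  alg_dep s₀ hcard (fun k => ⟨h k, (halg k).1⟩) (fun k => (halg k).2)

end Pool.Agent.Work.MP_8da9ea_nt.Fx

end

section

/-!
# The two uniformising functions and their addition formulas
-/

set_option autoImplicit false

namespace Pool.Agent.Work.MP_8da9ea_nt.Fx

open Complex Filter Topology

/-- the Weierstrass function or the exponential function -/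
noncomputable def ef (τ : ℂ) (b : Bool) (z : ℂ) : ℂ := if b then wp 1 τ z else exp z

/-- the derivative of `ef` -/
noncomputable def df (τ : ℂ) (b : Bool) (z : ℂ) : ℂ := if b then wpd τ z else exp z

/-- the zeta function or zero -/
noncomputable def zf (τ : ℂ) (b : Bool) (z : ℂ) : ℂ := if b then zt 1 τ z else 0

/-- the poles of `ef` -/
def pol (τ : ℂ) (b : Bool) : Set ℂ := if b then Lam τ else ∅

/-- the periods of `ef` -/
def per (τ : ℂ) (b : Bool) : Set ℂ := if b then Lam τ else {z | ∃ m : ℤ, z = m * kap}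

variable {τ : ℂ}

lemma pol_countable (b : Bool) : (pol τ b).Countable := by
  cases b
  · exact Set.countable_empty
  · exact Lam_countable τ

lemma pol_closed (hτ : 0 < τ.im) (b : Bool) : IsClosed (pol τ b) := by
  cases b
  · exact isClosed_empty
  · exact Lam_closed hτ

lemma notMem_pol_ev (hτ : 0 < τ.im) (b : Bool) {z : ℂ} (hz : z ∉ pol τ b) :
    ∀ᶠ w in 𝓝 z, w ∉ pol τ b :=
  (pol_closed hτ b).isOpen_compl.mem_nhds hz

lemma hasDerivAt_ef (hτ : 0 < τ.im) (b : Bool) {z : ℂ} (hz : z ∉ pol τ b) :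
    HasDerivAt (ef τ b) (df τ b z) z := by
  cases b
  · exact Complex.hasDerivAt_exp z
  · exact hasDerivAt_wp_z hτ hz

lemma an_of_ev {f : ℂ → ℂ} {S : Set ℂ} (hS : IsClosed S) (h : ∀ z ∉ S, DifferentiableAt ℂ f z)
    {z : ℂ} (hz : z ∉ S) : AnalyticAt ℂ f z := by
  rw [Complex.analyticAt_iff_eventually_differentiableAt]
  filter_upwards [hS.isOpen_compl.mem_nhds hz] with w hw
  exact h w hw

lemma analyticAt_ef (hτ : 0 < τ.im) (b : Bool) {z : ℂ} (hz : z ∉ pol τ b) :
    AnalyticAt ℂ (ef τ b) z :=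
  an_of_ev (pol_closed hτ b) (fun _ h => (hasDerivAt_ef hτ b h).differentiableAt) hz

lemma analyticAt_df (hτ : 0 < τ.im) (b : Bool) {z : ℂ} (hz : z ∉ pol τ b) :
    AnalyticAt ℂ (df τ b) z := by
  refine an_of_ev (pol_closed hτ b) (fun w h => ?_) hz
  cases b
  · exact Complex.differentiableAt_exp
  · exact (hasDerivAt_wpd_z hτ h).differentiableAt

lemma hasDerivAt_zf (hτ : 0 < τ.im) (b : Bool) {z : ℂ} (hz : z ∉ pol τ b) :
    HasDerivAt (zf τ b) (if b then -wp 1 τ z else 0) z := by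
  cases b
  · exact hasDerivAt_const z (0 : ℂ)
  · exact hasDerivAt_zt_z hτ hz

lemma analyticAt_zf (hτ : 0 < τ.im) (b : Bool) {z : ℂ} (hz : z ∉ pol τ b) :
    AnalyticAt ℂ (zf τ b) z :=
  an_of_ev (pol_closed hτ b) (fun _ h => (hasDerivAt_zf hτ b h).differentiableAt) hz

lemma ef_add_per (hτ : 0 < τ.im) (b : Bool) (z : ℂ) {l : ℂ} (hl : l ∈ per τ b) :
    ef τ b (z + l) = ef τ b z := by
  cases b
  · obtain ⟨m, rfl⟩ := hl
    change exp (z + m * kap) = exp z
    rw [exp_add]
    have : exp (m * kap) = 1 := by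
      rw [kap, Complex.exp_int_mul_two_pi_mul_I]
    rw [this, mul_one]
  · obtain ⟨m, n, rfl⟩ := mem_Lam.1 hl
    exact wp_add_lp hτ z m n

lemma pol_add_per (b : Bool) (z : ℂ) {l : ℂ} (hl : l ∈ per τ b) :
    z + l ∈ pol τ b ↔ z ∈ pol τ b := by
  cases b
  · exact Iff.rfl
  · obtain ⟨m, n, rfl⟩ := mem_Lam.1 hl
    exact add_mem_Lam_iff m n

lemma wp_inj (hτ : 0 < τ.im) {a b : ℂ} (ha : a ∉ Lam τ) (hb : b ∉ Lam τ)
    (h : wp 1 τ a = wp 1 τ b) : a - b ∈ Lam τ ∨ a + b ∈ Lam τ := by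
  by_contra hcon
  push Not at hcon
  obtain ⟨h1, h2⟩ := hcon
  have hb' : -b ∉ Lam τ := fun h => hb (neg_mem_Lam.1 h)
  have h1' : a + -b ∉ Lam τ := by rwa [← sub_eq_add_neg]
  have hba : b + a ∉ Lam τ := by rwa [add_comm]
  have hba' : -b + a ∉ Lam τ := by rwa [add_comm]
  have k1 := zt_add_lin hτ ha hb h2
  have k2 := zt_add_lin hτ hb ha hba
  have k3 := zt_add_quad hτ ha hb h2
  have k4 := zt_add_sq hτ ha hb h2
  have m1 := zt_add_lin hτ ha hb' h1'
  have m2 := zt_add_lin hτ hb' ha hba'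
  rw [add_comm b a] at k2
  rw [add_comm (-b) a] at m2
  rw [wp_neg, wpd_neg hτ] at m2
  -- `y1 = y2` and `y1 = - y2`
  have e1 : wpd τ a = wpd τ b := by
    linear_combination k2 - k1 + 2 * (zt 1 τ (a + b) - zt 1 τ a - zt 1 τ b) * h
  have e2 : wpd τ a = -wpd τ b := by
    linear_combination m2 - m1 + 2 * (zt 1 τ (a + -b) - zt 1 τ a - zt 1 τ (-b)) * h
  have e3 : wpd τ a = 0 := by linear_combination (e1 + e2) / 2
  have hy := wpd_sq hτ ha
  rw [e3] at hy k1 k3
  rw [← h] at k4
  set s := zt 1 τ (a + b) - zt 1 τ a - zt 1 τ b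
  set x := wp 1 τ a
  set x3 := wp 1 τ (a + b)
  set y3 := wpd τ (a + b)
  -- `12 x ^ 2 = g2`
  have e4 : 12 * x ^ 2 = gg2 τ := by
    linear_combination (-1) * k3 + 2 * s * k1 - 4 * (x - x3) * k4
  apply disc_ne hτ
  have e5 : gg3 τ = -8 * x ^ 3 := by
    rw [← e4] at hy
    linear_combination hy
  rw [← e4, e5]
  ring

/-- the germ version of: the sum of two points of the curve -/
lemma algF_wp_add {ν : Type} [Fintype ν] {s₀ : ν → ℂ} (hτ : 0 < τ.im) {a b : (ν → ℂ) → ℂ}
    (ha : AnalyticAt ℂ a s₀) (hb : AnalyticAt ℂ b s₀) (ha0 : a s₀ ∉ Lam τ) (hb0 : b s₀ ∉ Lam τ)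
    (hab0 : a s₀ + b s₀ ∉ Lam τ) (hwa : AlgF s₀ fun x => wp 1 τ (a x))
    (hwb : AlgF s₀ fun x => wp 1 τ (b x)) :
    AlgF s₀ (fun x => wp 1 τ (a x + b x)) ∧
    AlgF s₀ (fun x => zt 1 τ (a x + b x) - zt 1 τ (a x) - zt 1 τ (b x)) := by
  have hab : AnalyticAt ℂ (fun x => a x + b x) s₀ := ha.add hb
  have hwab : AnalyticAt ℂ (fun x => wp 1 τ (a x + b x)) s₀ :=
    AnalyticAt.fun_comp (analyticAt_ef hτ true hab0) hab
  have hzab : AnalyticAt ℂ (fun x => zt 1 τ (a x + b x)) s₀ :=
    AnalyticAt.fun_comp (analyticAt_zf hτ true hab0) hab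
  have hza : AnalyticAt ℂ (fun x => zt 1 τ (a x)) s₀ :=
    AnalyticAt.fun_comp (analyticAt_zf hτ true ha0) ha
  have hzb : AnalyticAt ℂ (fun x => zt 1 τ (b x)) s₀ :=
    AnalyticAt.fun_comp (analyticAt_zf hτ true hb0) hb
  have hev : ∀ᶠ x in 𝓝 s₀, a x ∉ Lam τ ∧ b x ∉ Lam τ ∧ a x + b x ∉ Lam τ := by
    have h1 := ha.continuousAt.eventually (notMem_pol_ev hτ true ha0)
    have h2 := hb.continuousAt.eventually (notMem_pol_ev hτ true hb0)
    have h3 := hab.continuousAt.eventually (notMem_pol_ev hτ true hab0)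
    filter_upwards [h1, h2, h3] with x k1 k2 k3
    exact ⟨k1, k2, k3⟩
  have key : AlgF s₀ (fun x => wp 1 τ (a x + b x)) := by
    -- the quadratic equation
    refine algF_root (a := fun x => -(wp 1 τ (a x) - wp 1 τ (b x)) ^ 2)
      (b := fun x => 4 * (wp 1 τ (a x) * wp 1 τ (b x)) * (wp 1 τ (a x) + wp 1 τ (b x)) - gg3 τ -
        2 * ((wp 1 τ (a x) + wp 1 τ (b x)) * (wp 1 τ (a x) * wp 1 τ (b x) + gg2 τ / 4)))
      (c := fun x => -(gg3 τ * (wp 1 τ (a x) + wp 1 τ (b x)) +
        (wp 1 τ (a x) * wp 1 τ (b x) + gg2 τ / 4) ^ 2))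
      ((hwa.sub hwb).pow 2).neg
      (((((algF_const 4).mul (hwa.mul hwb)).mul (hwa.add hwb)).sub (algF_const _)).sub
        ((algF_const 2).mul ((hwa.add hwb).mul ((hwa.mul hwb).add (algF_const _)))))
      (((algF_const _).mul (hwa.add hwb)).add (((hwa.mul hwb).add (algF_const _)).pow 2)).neg
      hwab ?_ ?_
    · filter_upwards [hev] with x hx
      have h := wp_add_rel hτ hx.1 hx.2.1 hx.2.2
      linear_combination h
    · intro hcon
      obtain ⟨h1, h2⟩ := hcon.self_of_nhds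
      have e1 : wp 1 τ (a s₀) = wp 1 τ (b s₀) := by
        have h3 : (wp 1 τ (a s₀) - wp 1 τ (b s₀)) ^ 2 = 0 := by linear_combination -h1
        exact sub_eq_zero.1 (pow_eq_zero_iff two_ne_zero |>.1 h3)
      have e2 : wpd τ (a s₀) = 0 := by
        have h4 := wpd_sq hτ ha0
        have h5 : wpd τ (a s₀) ^ 2 = 0 := by
          rw [h4]
          rw [← e1] at h2
          linear_combination h2
        exact pow_eq_zero_iff two_ne_zero |>.1 h5
      -- then the discriminant vanishes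
      have k1 := zt_add_lin hτ ha0 hb0 hab0
      have k2 := zt_add_lin hτ hb0 ha0 (by rwa [add_comm])
      have k3 := zt_add_quad hτ ha0 hb0 hab0
      have k4 := zt_add_sq hτ ha0 hb0 hab0
      have hy := wpd_sq hτ ha0
      rw [e2] at hy k1 k3
      rw [← e1] at k4
      set s := zt 1 τ (a s₀ + b s₀) - zt 1 τ (a s₀) - zt 1 τ (b s₀)
      set x := wp 1 τ (a s₀)
      set x3 := wp 1 τ (a s₀ + b s₀)
      have e4 : 12 * x ^ 2 = gg2 τ := by
        linear_combination (-1) * k3 + 2 * s * k1 - 4 * (x - x3) * k4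
      apply disc_ne hτ
      have e5 : gg3 τ = -8 * x ^ 3 := by
        rw [← e4] at hy
        linear_combination hy
      rw [← e4, e5]
      ring
  refine ⟨key, ?_⟩
  refine algF_root (a := fun _ => 1) (b := fun _ => 0)
    (c := fun x => -(wp 1 τ (a x) + wp 1 τ (b x) + wp 1 τ (a x + b x))) (algF_const 1)
    (algF_const 0) ((hwa.add hwb).add key).neg ((hzab.sub hza).sub hzb) ?_ ?_
  · filter_upwards [hev] with x hx
    have h := zt_add_sq hτ hx.1 hx.2.1 hx.2.2
    linear_combination h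
  · intro h
    exact one_ne_zero h.self_of_nhds.1

/-- the addition for both functions -/
lemma algF_ef_add {ν : Type} [Fintype ν] {s₀ : ν → ℂ} (hτ : 0 < τ.im) (t : Bool)
    {a b : (ν → ℂ) → ℂ}
    (ha : AnalyticAt ℂ a s₀) (hb : AnalyticAt ℂ b s₀) (ha0 : a s₀ ∉ pol τ t)
    (hb0 : b s₀ ∉ pol τ t)
    (hab0 : a s₀ + b s₀ ∉ pol τ t) (hwa : AlgF s₀ fun x => ef τ t (a x))
    (hwb : AlgF s₀ fun x => ef τ t (b x)) :
    AlgF s₀ (fun x => ef τ t (a x + b x)) ∧
    AlgF s₀ (fun x => zf τ t (a x + b x) - zf τ t (a x) - zf τ t (b x)) := by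
  cases t
  · constructor
    · refine (hwa.mul hwb).congr (Eventually.of_forall fun x => ?_)
      change exp (a x) * exp (b x) = exp (a x + b x)
      rw [exp_add]
    · refine (algF_const 0).congr (Eventually.of_forall fun x => ?_)
      change (0 : ℂ) = 0 - 0 - 0
      ring
  · exact algF_wp_add hτ ha hb ha0 hb0 hab0 hwa hwb

end Pool.Agent.Work.MP_8da9ea_nt.Fx

end

section

/-!
# The Ax–Schanuel theorem for germs, fixed curve
-/

set_option autoImplicit false

namespace Pool.Agent.Work.MP_8da9ea_nt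

open Complex Filter Topology

section rels

variable {τ u₀ : ℂ} {z : ℂ → ℂ}

lemma fx_Dom (hz : AnalyticAt ℂ z u₀) (hτ : 0 < τ.im) (hzL : z u₀ ∉ Lam τ) :
    ∀ᶠ u in 𝓝 u₀, z u ∉ Lam τ := by
  have h1 : ContinuousAt (fun u => (τ, z u)) u₀ := continuousAt_const.prodMk hz.continuousAt
  filter_upwards [h1 (Dom_nhds hτ hzL)] with u hu
  exact hu.2

lemma fx_an (hz : AnalyticAt ℂ z u₀) (hτ : 0 < τ.im) (hzL : z u₀ ∉ Lam τ) {F F' : ℂ → ℂ}
    (hF : ∀ w, w ∉ Lam τ → HasDerivAt F (F' w) w) : AnalyticAt ℂ (fun u => F (z u)) u₀ := by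
  rw [Complex.analyticAt_iff_eventually_differentiableAt]
  filter_upwards [fx_Dom hz hτ hzL, hz.eventually_analyticAt] with u h1 h2
  exact (hF _ h1).differentiableAt.comp u h2.differentiableAt

lemma fx_wp (hz : AnalyticAt ℂ z u₀) (hτ : 0 < τ.im) (hzL : z u₀ ∉ Lam τ) :
    AnalyticAt ℂ (fun u => wp 1 τ (z u)) u₀ :=
  fx_an hz hτ hzL fun _ h => hasDerivAt_wp_z hτ h

lemma fx_wpd (hz : AnalyticAt ℂ z u₀) (hτ : 0 < τ.im) (hzL : z u₀ ∉ Lam τ) :
    AnalyticAt ℂ (fun u => wpd τ (z u)) u₀ :=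
  fx_an hz hτ hzL fun _ h => hasDerivAt_wpd_z hτ h

lemma fx_zt (hz : AnalyticAt ℂ z u₀) (hτ : 0 < τ.im) (hzL : z u₀ ∉ Lam τ) :
    AnalyticAt ℂ (fun u => zt 1 τ (z u)) u₀ :=
  fx_an hz hτ hzL fun _ h => hasDerivAt_zt_z hτ h

lemma fx_rel_x (hz : AnalyticAt ℂ z u₀) (hτ : 0 < τ.im) (hzL : z u₀ ∉ Lam τ) :
    MG.DD (gm u₀ fun u => wp 1 τ (z u)) = (gm u₀ fun u => wpd τ (z u)) * MG.DD (gm u₀ z) := by
  rw [DD_gm_of (fx_wp hz hτ hzL) (f' := fun u => wpd τ (z u) * deriv z u) (by
    filter_upwards [fx_Dom hz hτ hzL, hz.eventually_analyticAt] with u h1 h2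
    exact (hasDerivAt_wp_z hτ h1).comp u h2.differentiableAt.hasDerivAt), DD_gm hz.meromorphicAt,
    gm_mul (fx_wpd hz hτ hzL).meromorphicAt hz.deriv.meromorphicAt]

lemma fx_rel_z (hz : AnalyticAt ℂ z u₀) (hτ : 0 < τ.im) (hzL : z u₀ ∉ Lam τ) :
    MG.DD (gm u₀ fun u => zt 1 τ (z u)) = -(gm u₀ fun u => wp 1 τ (z u)) * MG.DD (gm u₀ z) := by
  rw [DD_gm_of (fx_zt hz hτ hzL) (f' := fun u => -wp 1 τ (z u) * deriv z u) (by
    filter_upwards [fx_Dom hz hτ hzL, hz.eventually_analyticAt] with u h1 h2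
    exact (hasDerivAt_zt_z hτ h1).comp u h2.differentiableAt.hasDerivAt), DD_gm hz.meromorphicAt,
    gm_neg (fx_wp hz hτ hzL).meromorphicAt,
    gm_mul (show AnalyticAt ℂ (fun u => -wp 1 τ (z u)) u₀ from
      (fx_wp hz hτ hzL).neg).meromorphicAt hz.deriv.meromorphicAt]

lemma fx_rel_y (hz : AnalyticAt ℂ z u₀) (hτ : 0 < τ.im) (hzL : z u₀ ∉ Lam τ) :
    (gm u₀ fun u => wpd τ (z u)) ^ 2 = 4 * (gm u₀ fun u => wp 1 τ (z u)) ^ 3 -
      algebraMap ℂ (MG u₀) (gg2 τ) * (gm u₀ fun u => wp 1 τ (z u)) -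
      algebraMap ℂ (MG u₀) (gg3 τ) := by
  have hx := fx_wp hz hτ hzL
  have hy := fx_wpd hz hτ hzL
  have h1 : AnalyticAt ℂ (fun u => wpd τ (z u) ^ 2) u₀ := hy.pow 2
  have h2 : AnalyticAt ℂ (fun u => 4 * wp 1 τ (z u) ^ 3 - gg2 τ * wp 1 τ (z u) - gg3 τ) u₀ :=
    ((analyticAt_const.mul (hx.pow 3)).sub (analyticAt_const.mul hx)).sub analyticAt_const
  have h3 := gm_eq_of h1 (g := fun u => 4 * wp 1 τ (z u) ^ 3 - gg2 τ * wp 1 τ (z u) - gg3 τ) (by
    filter_upwards [fx_Dom hz hτ hzL] with u h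
    exact wpd_sq hτ h)
  rw [gmH_apply h1, gmH_apply h2] at h3
  have h4 : (⟨_, h1⟩ : anS u₀) = ⟨_, hy⟩ ^ 2 := rfl
  have h5 : (⟨_, h2⟩ : anS u₀) = algebraMap ℂ (anS u₀) 4 * ⟨_, hx⟩ ^ 3 -
      algebraMap ℂ (anS u₀) (gg2 τ) * ⟨_, hx⟩ - algebraMap ℂ (anS u₀) (gg3 τ) := rfl
  rw [h4, h5] at h3
  simp only [map_sub, map_mul, map_pow, AlgHom.commutes] at h3
  rw [map_ofNat] at h3
  exact h3

/-- a germ with zero derivative is constant -/
lemma const_of_DD {f : ℂ → ℂ} (hf : AnalyticAt ℂ f u₀) (h : MG.DD (gm u₀ f) = 0) :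
    ∃ C : ℂ, ∀ᶠ u in 𝓝 u₀, f u = C := by
  obtain ⟨c, hc⟩ := MG.DD_ker _ h
  rw [← gm_const, gm_eq_iff analyticAt_const hf] at hc
  exact ⟨c, hc.mono fun u hu => hu.symm⟩

end rels

lemma isEnd_zero (τ : ℂ) : IsEnd τ 0 :=
  ⟨1, one_ne_zero, ⟨(0, 0), by simp [lp]⟩, ⟨(0, 0), by simp [lp]⟩⟩

lemma isEnd_one (τ : ℂ) : IsEnd τ 1 :=
  ⟨1, one_ne_zero, ⟨(1, 0), by simp [lp]⟩, ⟨(0, 1), by simp [lp]⟩⟩

/-- the statement FX -/
def FXprop : Prop := ∀ (ι κ' : Type) [Fintype ι] [Fintype κ'] (τ u₀ : ℂ) (_ : 0 < τ.im)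
    (z : ι → ℂ → ℂ) (_ : ∀ i, AnalyticAt ℂ (z i) u₀)
    (_ : ∀ i, z i u₀ ∉ Lam τ ∧ wpd τ (z i u₀) ≠ 0)
    (t : κ' → ℂ → ℂ) (_ : ∀ l, AnalyticAt ℂ (t l) u₀)
    (c d : ι → ℂ) (e : κ' → ℂ) (_ : ¬ (c = 0 ∧ d = 0 ∧ e = 0)) (T : MG u₀)
    (_ : ∀ X : Derivation ℂ (MG u₀) (MG u₀),
      ∑ i, (algebraMap ℂ (MG u₀) (c i) + algebraMap ℂ (MG u₀) (d i) *
          gm u₀ (fun u => wp 1 τ (z i u))) * (X (gm u₀ fun u => wp 1 τ (z i u)) /
          gm u₀ (fun u => wpd τ (z i u))) +
      ∑ l, algebraMap ℂ (MG u₀) (e l) * (X (gm u₀ fun u => exp (t l u)) /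
          gm u₀ (fun u => exp (t l u))) = X T),
    (∃ g : ι → ℂ, g ≠ 0 ∧ (∀ i, IsEnd τ (g i)) ∧ ∃ C : ℂ, ∀ᶠ u in 𝓝 u₀, ∑ i, g i * z i u = C) ∨
    (∃ m : κ' → ℤ, m ≠ 0 ∧ ∃ C : ℂ, ∀ᶠ u in 𝓝 u₀, ∑ l, (m l : ℂ) * t l u = C)

/-- **The Ax–Schanuel theorem for germs on a fixed curve.** -/
theorem core_fix (FX : FXprop) {ι κ' : Type} [Fintype ι] [Fintype κ'] [DecidableEq ι]
    [DecidableEq κ'] {τ u₀ : ℂ} (hτ : 0 < τ.im)
    (z : ι → ℂ → ℂ) (hz : ∀ i, AnalyticAt ℂ (z i) u₀)
    (hzL : ∀ i, z i u₀ ∉ Lam τ ∧ wpd τ (z i u₀) ≠ 0)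
    (t : κ' → ℂ → ℂ) (ht : ∀ l, AnalyticAt ℂ (t l) u₀)
    (hzi : ∀ g : ι → ℂ, (∀ i, IsEnd τ (g i)) → g ≠ 0 → ∀ C : ℂ,
      ¬ ∀ᶠ u in 𝓝 u₀, ∑ i, g i * z i u = C)
    (hti : ∀ m : κ' → ℤ, m ≠ 0 → ∀ C : ℂ, ¬ ∀ᶠ u in 𝓝 u₀, ∑ l, (m l : ℂ) * t l u = C)
    (hne : Nonempty (ι ⊕ κ')) :
    ∃ s : Finset ((Fin 3 × ι) ⊕ (Fin 2 × κ')),
      AlgebraicIndependent ℂ (fun i : s => fxF (fun i => gm u₀ (z i))
        (fun i => gm u₀ fun u => wp 1 τ (z i u)) (fun i => gm u₀ fun u => zt 1 τ (z i u))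
        (fun l => gm u₀ (t l)) (fun l => gm u₀ fun u => exp (t l u)) i) ∧
      2 * Fintype.card ι + Fintype.card κ' + 1 ≤ s.card := by
  rcases AS_fix (C := ℂ) MG.DD MG.DD_ker (gg2 τ) (gg3 τ) (fun i => gm u₀ (z i))
    (fun i => gm u₀ fun u => wp 1 τ (z i u)) (fun i => gm u₀ fun u => wpd τ (z i u))
    (fun i => gm u₀ fun u => zt 1 τ (z i u))
    (fun i => gm_ne_zero (fx_wpd (hz i) hτ (hzL i).1) (hzL i).2)
    (fun i => fx_rel_y (hz i) hτ (hzL i).1)
    (fun i => fx_rel_x (hz i) hτ (hzL i).1)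
    (fun i => fx_rel_z (hz i) hτ (hzL i).1)
    (fun l => gm u₀ (t l)) (fun l => gm u₀ fun u => exp (t l u))
    (fun l => gm_ne_zero (ht l).cexp (Complex.exp_ne_zero _))
    (fun l => rel_exp (ht l)) (by
      obtain ⟨i | l⟩ := hne
      · left
        refine ⟨i, fun h => ?_⟩
        obtain ⟨C, hC⟩ := const_of_DD (hz i) h
        refine hzi (Pi.single i 1) (fun j => ?_) (by simp) C ?_
        · by_cases hj : j = i
          · subst hj
            rw [Pi.single_eq_same]
            exact isEnd_one τ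
          · rw [Pi.single_eq_of_ne hj]
            exact isEnd_zero τ
        · filter_upwards [hC] with u hu
          rw [Finset.sum_eq_single i]
          · rw [Pi.single_eq_same, one_mul, hu]
          · intro j _ hj
            rw [Pi.single_eq_of_ne hj, zero_mul]
          · intro h
            exact absurd (Finset.mem_univ i) h
      · right
        refine ⟨l, fun h => ?_⟩
        obtain ⟨C, hC⟩ := const_of_DD (ht l) h
        refine hti (Pi.single l 1) (by simp) C ?_
        filter_upwards [hC] with u hu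
        rw [Finset.sum_eq_single l]
        · rw [Pi.single_eq_same, Int.cast_one, one_mul, hu]
        · intro j _ hj
          rw [Pi.single_eq_of_ne hj, Int.cast_zero, zero_mul]
        · intro h
          exact absurd (Finset.mem_univ l) h) with h | h
  · exact h
  · exfalso
    obtain ⟨c, d, e, hne', T, hT⟩ := h
    rcases FX ι κ' τ u₀ hτ z hz hzL t ht c d e hne' T hT with ⟨g, hg, hgE, C, hC⟩ | ⟨m, hm, C, hC⟩
    · exact hzi g hgE hg C hC
    · exact hti m hm C hC

end Pool.Agent.Work.MP_8da9ea_nt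

end

section

/-!
# Adding special curves
-/

set_option autoImplicit false

namespace Pool.Agent.Work.MP_8da9ea_nt.Fx

open Complex Filter Topology

variable {τ : ℂ} {ν : Type} [Fintype ν] [DecidableEq ν] {s₀ : ν → ℂ}

omit [DecidableEq ν] in
/-- a generic shift avoids the poles for all partial sums -/
lemma exists_shift_fx (t : Bool) (v : ν → ℂ) :
    ∃ γ : ℂ, ∀ S : Finset ν, γ + ∑ a ∈ S, v a ∉ pol τ t := by
  have hc : (⋃ S : Finset ν, (fun l => l - ∑ a ∈ S, v a) '' pol τ t).Countable :=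
    Set.countable_iUnion fun S => (pol_countable t).image _
  obtain ⟨γ, hγ⟩ := (hc.dense_compl ℂ).nonempty
  refine ⟨γ, fun S h => hγ ?_⟩
  rw [Set.mem_iUnion]
  exact ⟨S, _, h, by ring⟩

omit [DecidableEq ν] in
lemma an_coord_sum (w : ν → ℂ → ℂ) (hw : ∀ a, AnalyticAt ℂ (w a) (s₀ a)) (γ : ℂ)
    (S : Finset ν) : AnalyticAt ℂ (fun x : ν → ℂ => γ + ∑ a ∈ S, w a (x a)) s₀ :=
  analyticAt_const.add (Finset.analyticAt_fun_sum _ fun a _ => comp_coord a (hw a))

/-- the uniformising functions of the partial sums are algebraic -/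
lemma algF_partial (hτ : 0 < τ.im) (t : Bool) (w : ν → ℂ → ℂ)
    (hw : ∀ a, AnalyticAt ℂ (w a) (s₀ a)) (hwp : ∀ a, w a (s₀ a) ∉ pol τ t)
    (halg : ∀ a, Alg1 (s₀ a) (fun u => ef τ t (w a u))) (γ : ℂ)
    (hγ : ∀ S : Finset ν, γ + ∑ a ∈ S, w a (s₀ a) ∉ pol τ t) (S : Finset ν) :
    AlgF s₀ (fun x => ef τ t (γ + ∑ a ∈ S, w a (x a))) ∧
    AlgF s₀ (fun x => zf τ t (γ + ∑ a ∈ S, w a (x a)) - ∑ a ∈ S, zf τ t (w a (x a))) := by
  induction S using Finset.induction_on with
  | empty =>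
    simp only [Finset.sum_empty, add_zero, sub_zero]
    exact ⟨algF_const _, algF_const _⟩
  | insert a S ha ih =>
    have h1 : ∀ x : ν → ℂ, γ + ∑ a ∈ insert a S, w a (x a) =
        (γ + ∑ a ∈ S, w a (x a)) + w a (x a) := by
      intro x
      rw [Finset.sum_insert ha]
      ring
    have h2 := algF_ef_add hτ t (an_coord_sum w hw γ S) (comp_coord a (hw a)) (hγ S) (hwp a)
      (by
        have := hγ (insert a S)
        rwa [h1 s₀] at this) ih.1 (algF_of_alg1 a (halg a))
    refine ⟨h2.1.congr (Eventually.of_forall fun x => ?_),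
      (h2.2.add ih.2).congr (Eventually.of_forall fun x => ?_)⟩
    · beta_reduce
      rw [h1]
    · beta_reduce
      rw [h1, Finset.sum_insert ha]
      ring

/-- the sum of the curves is a local homeomorphism -/
lemma map_nhds_sum (w : ν → ν → ℂ → ℂ) (hw : ∀ j a, AnalyticAt ℂ (w j a) (s₀ a)) (γ : ν → ℂ)
    (hdet : (Matrix.of fun j a => deriv (w j a) (s₀ a)).det ≠ 0) :
    map (fun (x : ν → ℂ) (j : ν) => γ j + ∑ a, w j a (x a)) (𝓝 s₀) =
      𝓝 (fun j => γ j + ∑ a, w j a (s₀ a)) := by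
  set M : Matrix ν ν ℂ := Matrix.of fun j a => deriv (w j a) (s₀ a) with hM
  have hd : HasStrictFDerivAt (fun (x : ν → ℂ) (j : ν) => γ j + ∑ a, w j a (x a))
      (ContinuousLinearMap.pi fun j => ∑ a, (deriv (w j a) (s₀ a)) •
        ContinuousLinearMap.proj (R := ℂ) (φ := fun _ : ν => ℂ) a) s₀ := by
    rw [hasStrictFDerivAt_pi']
    intro j
    have h1 : HasStrictFDerivAt (fun x : ν → ℂ => ∑ a, w j a (x a))
        (∑ a, (deriv (w j a) (s₀ a)) •
        ContinuousLinearMap.proj (R := ℂ) (φ := fun _ : ν => ℂ) a) s₀ := by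
      refine HasStrictFDerivAt.fun_sum fun a _ => ?_
      have h2 : HasStrictDerivAt (w j a) (deriv (w j a) (s₀ a)) (s₀ a) :=
        (hw j a).hasStrictDerivAt
      have h3 : HasStrictFDerivAt (fun x : ν → ℂ => x a)
        (ContinuousLinearMap.proj (R := ℂ) (φ := fun _ : ν => ℂ) a) s₀ :=
        (ContinuousLinearMap.proj (R := ℂ) (φ := fun _ : ν => ℂ) a).hasStrictFDerivAt
      exact h2.comp_hasStrictFDerivAt s₀ h3
    have h4 := h1.const_add (γ j)
    refine h4.congr_fderiv ?_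
    ext v
    simp
  refine hd.map_nhds_eq_of_surj ?_
  rw [LinearMap.range_eq_top]
  intro v
  refine ⟨M⁻¹.mulVec v, ?_⟩
  have h1 : M.mulVec (M⁻¹.mulVec v) = v := by
    rw [Matrix.mulVec_mulVec, Matrix.mul_nonsing_inv _ (isUnit_iff_ne_zero.2 hdet),
      Matrix.one_mulVec]
  funext j
  have h2 := congrFun h1 j
  rw [← h2]
  simp [Matrix.mulVec, dotProduct, hM]

/-- **Glueing.** -/
theorem glue_core (hτ : 0 < τ.im) (t : ν → Bool) (w : ν → ν → ℂ → ℂ)
    (hw : ∀ j a, AnalyticAt ℂ (w j a) (s₀ a)) (hwp : ∀ j a, w j a (s₀ a) ∉ pol τ (t j))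
    (halg : ∀ j a, Alg1 (s₀ a) (fun u => ef τ (t j) (w j a u)))
    (hdet : (Matrix.of fun j a => deriv (w j a) (s₀ a)).det ≠ 0) (γ : ν → ℂ)
    (hγ : ∀ j, ∀ S : Finset ν, γ j + ∑ a ∈ S, w j a (s₀ a) ∉ pol τ (t j))
    (G : (ν → ℂ) → ℂ) (hG : AlgF s₀ (fun x => G fun j => γ j + ∑ a, w j a (x a))) :
    ∃ P : MvPolynomial (Option ν) ℂ, P ≠ 0 ∧
      ∀ᶠ v in 𝓝 (fun j => γ j + ∑ a, w j a (s₀ a)),
        MvPolynomial.aeval (fun o : Option ν => o.elim (G v) fun j => ef τ (t j) (v j)) P = 0 := by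
  obtain ⟨P, hP0, hP⟩ := algF_dep (s₀ := s₀) (μ := Option ν) (by simp)
    (fun o x => o.elim (G fun j => γ j + ∑ a, w j a (x a))
      (fun j => ef τ (t j) (γ j + ∑ a, w j a (x a)))) (by
      rintro (_ | j)
      · exact hG
      · exact (algF_partial hτ (t j) (w j) (hw j) (hwp j) (halg j) (γ j) (hγ j) Finset.univ).1)
  refine ⟨P, hP0, ?_⟩
  rw [← map_nhds_sum w hw γ hdet, eventually_map]
  exact hP

end Pool.Agent.Work.MP_8da9ea_nt.Fx

end

section

/-!
# Special curves through the points of an arc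
-/

set_option autoImplicit false

namespace Pool.Agent.Work.MP_8da9ea_nt

open Complex Filter Topology Pool.Agent.ED

/-- two derivations along an inclusion which agree on a basis agree -/
lemma der_ext_basis {K : Type} [Field K] [CharZero K] {v₀ : ℂ} [Algebra K (MG v₀)] {B : Type}
    [Fintype B] (L : IntermediateField K (MG v₀)) (b : B → L)
    [FiniteDimensional (IntermediateField.adjoin K (Set.range b)) L]
    (X : Derivation K (MG v₀) (MG v₀)) (D : B → Derivation K L L) [DecidableEq B]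
    (hD : ∀ i j, D i (b j) = if i = j then 1 else 0) (u : L) :
    X u = ∑ j, X (b j) * (D j u : MG v₀) := by
  set E : L → MG v₀ := fun u => X u - ∑ j, X (b j) * (D j u : MG v₀) with hE
  have hadd : ∀ u v, E (u + v) = E u + E v := by
    intro u v
    simp only [hE, map_add]
    push_cast
    simp only [map_add, mul_add, Finset.sum_add_distrib]
    ring
  have hmul : ∀ u v, E (u * v) = L.val.toRingHom u * E v + L.val.toRingHom v * E u := by
    intro u v
    simp only [hE, Derivation.leibniz, smul_eq_mul]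
    push_cast
    rw [Derivation.leibniz]
    simp only [smul_eq_mul]
    change _ = (u : MG v₀) * _ + (v : MG v₀) * _
    rw [mul_sub, mul_sub, Finset.mul_sum, Finset.mul_sum]
    have h1 : ∑ x, X (b x) * ((u : MG v₀) * (D x v : MG v₀) + (v : MG v₀) * (D x u : MG v₀)) =
        ∑ x, (u : MG v₀) * (X (b x) * (D x v : MG v₀)) +
        ∑ x, (v : MG v₀) * (X (b x) * (D x u : MG v₀)) := by
      rw [← Finset.sum_add_distrib]
      exact Finset.sum_congr rfl fun x _ => by ring
    rw [h1]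
    ring
  have hF : ∀ u ∈ IntermediateField.adjoin K (Set.range b), E u = 0 := by
    intro u hu
    induction hu using IntermediateField.adjoin_induction with
    | mem x hx =>
      obtain ⟨s, rfl⟩ := hx
      simp only [hE, hD]
      rw [Finset.sum_eq_single s]
      · simp
      · intro j _ hj
        simp [hj]
      · simp
    | algebraMap x =>
      simp only [hE, Derivation.map_algebraMap]
      have h1 : ((algebraMap K L x : L) : MG v₀) = algebraMap K (MG v₀) x := rfl
      rw [h1, Derivation.map_algebraMap]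
      simp
    | add x y _ _ h1 h2 => rw [hadd, h1, h2, add_zero]
    | inv x _ h =>
      by_cases hx : x = 0
      · rw [hx, inv_zero]
        rw [hx] at h
        exact h
      · have h1 : E (x * x⁻¹) = 0 := by
          rw [mul_inv_cancel₀ hx]
          simp [hE]
        rw [hmul, h, mul_zero, add_zero] at h1
        exact (mul_eq_zero.1 h1).resolve_left (by
          change (x : MG v₀) ≠ 0
          exact_mod_cast hx)
    | mul x y _ _ h1 h2 => rw [hmul, h1, h2, mul_zero, mul_zero, add_zero]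
  exact sub_eq_zero.1 (SpecAux.der_zero _ L.val.toRingHom E hadd hmul hF u)

/-- **Special curves** through the points of an arc. -/
theorem special_curves {T : Type} [Fintype T] [DecidableEq T] {v₀ : ℂ} (f : T → ℂ → ℂ)
    (hf : ∀ t, AnalyticAt ℂ (f t) v₀) {ι : Type} [Finite ι] (c : ι → ℂ) :
    ∃ C0 : IntermediateField ℚ ℂ, Countable C0 ∧ (∀ i, c i ∈ C0) ∧
    ∃ s : Finset T, AlgebraicIndependent ℂ (fun i : s => gm v₀ (f i)) ∧
    ∃ (D : s → Derivation C0 (IntermediateField.adjoin C0 (Set.range fun t => gm v₀ (f t)))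
          (IntermediateField.adjoin C0 (Set.range fun t => gm v₀ (f t))))
      (g : T → IntermediateField.adjoin C0 (Set.range fun t => gm v₀ (f t))),
      (∀ t, (g t : MG v₀) = gm v₀ (f t)) ∧
      (∀ i j : s, D i (g j) = if i = j then 1 else 0) ∧
      (∀ (X : Derivation ℂ (MG v₀) (MG v₀))
        (u : IntermediateField.adjoin C0 (Set.range fun t => gm v₀ (f t))),
        X u = ∑ j : s, X (gm v₀ (f j)) * (D j u : MG v₀)) ∧
      ∃ r > 0, (∀ t, AnalyticOnNhd ℂ (f t) (Metric.ball v₀ r)) ∧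
      ∃ E : Set ℂ, E.Countable ∧ ∀ u₁ ∈ Metric.ball v₀ r, u₁ ∉ E →
        ∃ ev : IntermediateField.adjoin C0 (Set.range fun t => gm v₀ (f t)) →ₐ[C0] ℂ,
          (∀ t, ev (g t) = f t u₁) ∧
          ∀ j : s, ∃ Φ : IntermediateField.adjoin C0 (Set.range fun t => gm v₀ (f t)) →+*
              MG (f j u₁),
            (∀ a : C0, Φ (algebraMap C0 _ a) = algebraMap ℂ (MG (f j u₁)) (a : ℂ)) ∧
            Φ (g j) = gm (f j u₁) (fun s => s) ∧
            (∀ i : s, i ≠ j → Φ (g i) = algebraMap ℂ (MG (f j u₁)) (f i u₁)) ∧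
            (∀ u, SpecAux.IsAn (Φ u) (ev u)) ∧
            (∀ u, MG.DD (Φ u) = Φ (D j u)) ∧
            (∀ u, IsAlgebraic (IntermediateField.adjoin ℂ {gm (f j u₁) (fun s => s)}) (Φ u)) := by
  classical
  obtain ⟨s, -, hs, halg⟩ := exists_max_indep (K := ℂ) (fun t => gm v₀ (f t)) (∅ : Finset T) (by
    rw [algebraicIndependent_empty_type_iff]
    exact (algebraMap ℂ (MG v₀)).injective)
  obtain ⟨C0, hC0, hc, hdep⟩ := exists_countable_field (b := fun i : s => gm v₀ (f i))
    (fun t => gm v₀ (f t)) halg c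
  have hbC0 : AlgebraicIndependent C0 (fun i : s => gm v₀ (f i)) :=
    hs.restrictScalars (algebraMap C0 ℂ).injective
  have hmemL : ∀ t, gm v₀ (f t) ∈
      IntermediateField.adjoin C0 (Set.range fun t => gm v₀ (f t)) := fun t =>
    IntermediateField.subset_adjoin C0 _ ⟨t, rfl⟩
  obtain ⟨hb', hfd⟩ := fin_setup hbC0 (fun t => gm v₀ (f t)) hdep (fun i : s => hmemL i)
  set L := IntermediateField.adjoin C0 (Set.range fun t => gm v₀ (f t)) with hL
  set g : T → L := fun t => ⟨gm v₀ (f t), hmemL t⟩ with hg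
  set b' : s → L := fun i => g i with hb'def
  have hex : ∀ i : s, ∃ D : Derivation C0 L L, ∀ j : s, D (b' j) = if i = j then 1 else 0 :=
    fun i => exists_derivation hb' (fun j => if i = j then (1 : L) else 0)
  choose D hD using hex
  have hall : ∀ᶠ u in 𝓝 v₀, ∀ t, AnalyticAt ℂ (f t) u := by
    rw [Filter.eventually_all]
    exact fun t => (hf t).eventually_analyticAt
  obtain ⟨r, hr, hball⟩ := Metric.eventually_nhds_iff_ball.1 hall
  obtain ⟨E, hE, hev⟩ := exists_ev C0 (U := Metric.ball v₀ r) Metric.isOpen_ball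
    (convex_ball v₀ r).isPreconnected (Metric.mem_ball_self hr) f (fun t u hu => hball u hu t)
  refine ⟨C0, hC0, hc, s, hs, D, g, fun t => rfl, hD, ?_, r, hr, fun t u hu => hball u hu t, E,
    hE, ?_⟩
  · intro X u
    exact der_ext_basis L b' (X.restrictScalars C0) D hD u
  · intro u₁ hu₁ hu₁E
    obtain ⟨ev, hev1⟩ := hev u₁ hu₁ hu₁E
    refine ⟨ev, fun t => hev1 t _, fun j => ?_⟩
    set G : s → ℂ → ℂ := fun i => if i = j then (fun s => s) else (fun _ => f i u₁) with hGdef
    have hG : ∀ i, AnalyticAt ℂ (G i) (f j u₁) := by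
      intro i
      by_cases hij : i = j
      · simp only [hGdef, if_pos hij]
        exact analyticAt_id
      · simp only [hGdef, if_neg hij]
        exact analyticAt_const
    have hG1 : ∀ i, G i (f j u₁) = ev (b' i) := by
      intro i
      have h1 : ev (b' i) = f i u₁ := hev1 i _
      rw [h1]
      by_cases hij : i = j
      · subst hij
        simp only [hGdef, if_true]
      · simp only [hGdef, if_neg hij]
    obtain ⟨Φ, hΦC, hΦb, hΦan, hΦD⟩ := SP b' hb' ev (f j u₁) G hG hG1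
    have hid : MeromorphicAt (fun s : ℂ => s) (f j u₁) := analyticAt_id.meromorphicAt
    have hΦj : Φ (b' j) = gm (f j u₁) (fun s => s) := by
      rw [hΦb, gm_mk hid, MG.mk_eq_iff]
      simp only [hGdef, if_pos rfl]
      exact Eventually.of_forall fun _ => rfl
    have hΦi : ∀ i : s, i ≠ j → Φ (b' i) = algebraMap ℂ (MG (f j u₁)) (f i u₁) := by
      intro i hij
      rw [hΦb, MG.algebraMap_eq, MG.mk_eq_iff]
      simp only [hGdef, if_neg hij]
      exact Eventually.of_forall fun _ => rfl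
    refine ⟨Φ, hΦC, hΦj, hΦi, hΦan, ?_, ?_⟩
    · have h1 := hΦD (D j) 1 (by
        intro i
        by_cases hij : j = i
        · subst hij
          rw [hΦj, hD, if_pos rfl, map_one, one_mul,
            DD_gm_of (f := fun s => s) (f' := fun _ => 1) analyticAt_id
              (Eventually.of_forall fun τ => hasDerivAt_id τ), gm_const, map_one]
        · rw [hΦi i (Ne.symm hij), hD, if_neg hij, map_zero, mul_zero]
          exact MG.DD.map_algebraMap _)
      intro u
      rw [h1 u, one_mul]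
    · intro u
      refine alg_image (IntermediateField.adjoin C0 (Set.range b')) Φ _ ?_ u
      intro u hu
      induction hu using IntermediateField.adjoin_induction with
      | mem u hu =>
        obtain ⟨i, rfl⟩ := hu
        by_cases hij : i = j
        · rw [hij, hΦj]
          exact IntermediateField.mem_adjoin_simple_self ℂ _
        · rw [hΦi i hij]
          exact IntermediateField.algebraMap_mem _ _
      | algebraMap a =>
        rw [hΦC]
        exact IntermediateField.algebraMap_mem _ _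
      | add u v _ _ h1 h2 => rw [map_add]; exact add_mem h1 h2
      | inv u _ h => rw [map_inv₀]; exact inv_mem h
      | mul u v _ _ h1 h2 => rw [map_mul]; exact mul_mem h1 h2

end Pool.Agent.Work.MP_8da9ea_nt

end

section

/-!
# Translation by periods
-/

set_option autoImplicit false

namespace Pool.Agent.Work.MP_8da9ea_nt.Fx

open Complex Filter Topology

variable {τ : ℂ}

lemma ef_nonconst (hτ : 0 < τ.im) (t : Bool) {z : ℂ} (hz : z ∉ pol τ t) :
    ¬ ∀ᶠ w in 𝓝 z, ef τ t w = ef τ t z := by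
  intro h
  cases t
  · have h1 : HasDerivAt (fun _ : ℂ => ef τ false z) (exp z) z :=
      (hasDerivAt_ef hτ false hz).congr_of_eventuallyEq (h.mono fun _ hw => hw.symm)
    have h2 := h1.unique (hasDerivAt_const z _)
    exact Complex.exp_ne_zero z h2
  · have h1 := (analyticOn_wp hτ).eqOn_of_preconnected_of_eventuallyEq
      (g := fun _ => wp 1 τ z) analyticOnNhd_const Lam_compl_conn hz h
    have h2 := linear_zero hτ (A := 1) (B := -wp 1 τ z) (fun w hw => by
      have h3 : wp 1 τ w = wp 1 τ z := h1 hw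
      rw [h3]
      ring)
    exact one_ne_zero h2.1

lemma ef_image_infinite (hτ : 0 < τ.im) (t : Bool) {z : ℂ} (hz : z ∉ pol τ t) {U : Set ℂ}
    (hU : U ∈ 𝓝 z) : (ef τ t '' U).Infinite := by
  rcases (analyticAt_ef hτ t hz).eventually_constant_or_nhds_le_map_nhds with h | h
  · exact absurd h (ef_nonconst hτ t hz)
  · exact infinite_of_mem_nhds (ef τ t z) (h (image_mem_map hU))

variable {ν : Type} [Fintype ν] [DecidableEq ν]

/-- **Translations.** -/
theorem pigeon (hτ : 0 < τ.im) (t : ν → Bool) (P : MvPolynomial (Option ν) ℂ) (hP0 : P ≠ 0)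
    (G : (ν → ℂ) → ℂ) (v₀ : ν → ℂ) (hv₀ : ∀ j, v₀ j ∉ pol τ (t j))
    (hrel : ∀ᶠ v in 𝓝 v₀, MvPolynomial.aeval
      (fun o : Option ν => o.elim (G v) fun j => ef τ (t j) (v j)) P = 0)
    (i : ν) {l : ℂ} (hl : l ∈ per τ (t i)) (C : (ν → ℂ) → Set ℂ) (hCc : ∀ v, (C v).Countable)
    (hCcl : ∀ v, IsClosed (C v)) (hCp : ∀ v, pol τ (t i) ⊆ C v)
    (hCG : ∀ v, ∀ y ∉ C v, AnalyticAt ℂ (fun y => G (Function.update v i y)) y)
    (hCv : ∀ᶠ v in 𝓝 v₀, v i ∉ C v) {W : Set (ν → ℂ)} (hW : W ∈ 𝓝 v₀) :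
    ∃ N : Set (ν → ℂ), IsOpen N ∧ N.Nonempty ∧ N ⊆ W ∧ (∀ v ∈ N, (∀ j, v j ∉ pol τ (t j))) ∧
      ∀ v ∈ N, {y | ∃ m : ℕ, v i + m * l ∉ C v ∧
        y = G (Function.update v i (v i + m * l))}.Finite := by
  classical
  -- an open set where everything holds
  have hpole : ∀ᶠ v in 𝓝 v₀, ∀ j, v j ∉ pol τ (t j) := by
    rw [Filter.eventually_all]
    intro j
    exact ((continuous_apply j).tendsto v₀).eventually (notMem_pol_ev hτ (t j) (hv₀ j))
  obtain ⟨r, hr, hB⟩ := Metric.eventually_nhds_iff_ball.1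
    ((hrel.and hpole).and (hCv.and (eventually_mem_set.2 hW)))
  set B := Metric.ball v₀ r with hBdef
  have hBo : IsOpen B := Metric.isOpen_ball
  -- the identity extends along the line
  have hA : ∀ v ∈ B, ∀ y ∉ C v, MvPolynomial.aeval
      (fun o : Option ν => o.elim (G (Function.update v i y))
        fun j => ef τ (t j) (Function.update v i y j)) P = 0 := by
    intro v hv y hy
    set F : ℂ → ℂ := fun y => MvPolynomial.aeval
      (fun o : Option ν => o.elim (G (Function.update v i y))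
        fun j => ef τ (t j) (Function.update v i y j)) P with hF
    have hFan : AnalyticOnNhd ℂ F (C v)ᶜ := by
      intro y hy
      have h1 : ∀ o : Option ν, AnalyticAt ℂ (fun y => o.elim (G (Function.update v i y))
        fun j => ef τ (t j) (Function.update v i y j)) y := by
        rintro (_ | j)
        · exact hCG v y hy
        · by_cases hj : j = i
          · subst hj
            simp only [Option.elim_some, Function.update_self]
            exact analyticAt_ef hτ (t j) fun h => hy (hCp v h)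
          · simp only [Option.elim_some, Function.update_of_ne hj]
            exact analyticAt_const
      exact AnalyticAt.aeval_mvPolynomial h1 P
    have hpre : IsPreconnected (C v)ᶜ := ((hCc v).isConnected_compl_of_one_lt_rank (by simp)).2
    have hc : Tendsto (fun y : ℂ => Function.update v i y) (𝓝 (v i)) (𝓝 v) := by
      have h4 : Continuous (fun y : ℂ => Function.update v i y) := by fun_prop
      have h5 := h4.tendsto (v i)
      rwa [Function.update_eq_self] at h5
    have hz : ∀ᶠ y in 𝓝 (v i), F y = 0 := by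
      filter_upwards [hc.eventually (hBo.mem_nhds hv)] with y hy
      exact (hB _ hy).1.1
    exact hFan.eqOn_zero_of_preconnected_of_eventuallyEq_zero hpre (hB v hv).2.1 hz hy
  -- the polynomial in the last variable
  set Q := MvPolynomial.optionEquivLeft ℂ ν P with hQ
  have hQ0 : Q ≠ 0 := by
    rw [hQ, Ne, EmbeddingLike.map_eq_zero_iff]
    exact hP0
  obtain ⟨k, hk⟩ : ∃ k, Q.coeff k ≠ 0 := by
    by_contra h
    push Not at h
    exact hQ0 (Polynomial.ext fun k => by rw [h k, Polynomial.coeff_zero])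
  set e : (ν → ℂ) → ν → ℂ := fun v j => ef τ (t j) (v j) with he
  set N : Set (ν → ℂ) := {v | v ∈ B ∧ MvPolynomial.eval (e v) (Q.coeff k) ≠ 0} with hN
  have hcont : ContinuousOn (fun v => MvPolynomial.eval (e v) (Q.coeff k)) B := by
    intro v hv
    have h1 : ContinuousAt e v := by
      rw [continuousAt_pi]
      intro j
      have h2 := (analyticAt_ef hτ (t j) ((hB v hv).1.2 j)).continuousAt
      exact ContinuousAt.comp (f := fun v : ν → ℂ => v j) (g := ef τ (t j)) h2
        (continuous_apply j).continuousAt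
    have h3 : Continuous (fun x : ν → ℂ => MvPolynomial.eval x (Q.coeff k)) :=
      MvPolynomial.continuous_eval _
    exact (ContinuousAt.comp (f := e) h3.continuousAt h1).continuousWithinAt
  refine ⟨N, ?_, ?_, fun v hv => (hB v hv.1).2.2, fun v hv => (hB v hv.1).1.2, ?_⟩
  · exact hcont.isOpen_inter_preimage hBo isOpen_ne
  · by_contra hcon
    rw [Set.not_nonempty_iff_eq_empty] at hcon
    apply hk
    refine MvPolynomial.funext_set (fun j => ef τ (t j) '' Metric.ball (v₀ j) r)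
      (fun j => ef_image_infinite hτ (t j) (hv₀ j) (Metric.ball_mem_nhds _ hr)) ?_
    intro x hx
    choose v hv hvx using fun j => hx j (Set.mem_univ j)
    have hvB : v ∈ B := by
      rw [hBdef, Metric.mem_ball, dist_pi_lt_iff hr]
      exact hv
    have h1 : v ∉ N := by rw [hcon]; simp
    have h2 : MvPolynomial.eval (e v) (Q.coeff k) = 0 := by
      by_contra h3
      exact h1 ⟨hvB, h3⟩
    have h3 : e v = x := funext hvx
    rw [← h3, h2, map_zero]
  · intro v hv
    have hp0 : Q.map (MvPolynomial.eval (e v)) ≠ 0 := by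
      intro h
      have h1 := congrArg (fun p => Polynomial.coeff p k) h
      simp only [Polynomial.coeff_map, Polynomial.coeff_zero] at h1
      exact hv.2 h1
    refine ((Q.map (MvPolynomial.eval (e v))).roots.toFinset.finite_toSet).subset ?_
    rintro y ⟨m, hm, rfl⟩
    simp only [Finset.mem_coe, Multiset.mem_toFinset]
    rw [Polynomial.mem_roots hp0, Polynomial.IsRoot.def, ← MvPolynomial.optionEquivLeft_elim_eval]
    have h1 := hA v hv.1 _ hm
    rw [MvPolynomial.aeval_eq_eval] at h1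
    have h2 : (fun o : Option ν => o.elim (G (Function.update v i (v i + m * l)))
        fun j => ef τ (t j) (Function.update v i (v i + m * l) j)) =
        fun o : Option ν => o.elim (G (Function.update v i (v i + m * l))) (e v) := by
      funext o
      rcases o with _ | j
      · rfl
      · by_cases hj : j = i
        · subst hj
          simp only [Option.elim_some, Function.update_self, he]
          refine ef_add_per hτ (t j) (v j) ?_
          have h5 : ∀ n : ℕ, (n : ℂ) * l ∈ per τ (t j) := by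
            intro n
            revert hl
            cases t j
            · rintro ⟨k, rfl⟩
              exact ⟨n * k, by push_cast; ring⟩
            · intro hl
              obtain ⟨a, b, rfl⟩ := mem_Lam.1 hl
              exact mem_Lam.2 ⟨n * a, n * b, by push_cast; ring⟩
          exact h5 m
        · simp only [Option.elim_some, Function.update_of_ne hj, he]
    rw [h2] at h1
    exact h1

end Pool.Agent.Work.MP_8da9ea_nt.Fx

end

section

/-!
# The two conclusions for families of special curves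
-/

set_option autoImplicit false

namespace Pool.Agent.Work.MP_8da9ea_nt.Fx

open Complex Filter Topology

variable {τ : ℂ}

lemma wp_add_mul (hτ : 0 < τ.im) (z l c : ℂ) (m n : ℤ) (hl : l = m + n * τ)
    (hc : c = m * et τ + n * (τ * et τ - kap)) (k : ℕ) :
    zt 1 τ (z + k * l) = zt 1 τ z + k * c := by
  have e : z + k * l = z + (((k * m : ℤ) : ℂ) + ((k * n : ℤ) : ℂ) * τ) := by
    rw [hl]
    push_cast
    ring
  rw [e, zt_add_lp hτ, hc]
  push_cast
  unfold kap
  ring

variable {ν : Type} [Fintype ν] [DecidableEq ν] {s₀ : ν → ℂ}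

lemma not_finite_line {A c : ℂ} (hc : c ≠ 0) : ¬ {y : ℂ | ∃ m : ℕ, y = A + m * c}.Finite := by
  intro h
  have h1 : Function.Injective (fun m : ℕ => A + m * c) := by
    intro m n hmn
    have h2 : (m : ℂ) * c = n * c := by
      simpa using hmn
    have h3 := mul_right_cancel₀ hc h2
    exact_mod_cast h3
  refine Set.infinite_range_of_injective h1 (h.subset ?_)
  rintro _ ⟨m, rfl⟩
  exact ⟨m, rfl⟩

/-- **First case.** -/
theorem caseA (hτ : 0 < τ.im) (t : ν → Bool) (w : ν → ν → ℂ → ℂ)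
    (hw : ∀ j a, AnalyticAt ℂ (w j a) (s₀ a)) (hwp : ∀ j a, w j a (s₀ a) ∉ pol τ (t j))
    (halg : ∀ j a, Alg1 (s₀ a) (fun u => ef τ (t j) (w j a u)))
    (hdet : (Matrix.of fun j a => deriv (w j a) (s₀ a)).det ≠ 0) (c d : ν → ℂ)
    (hT : ∀ a, Alg1 (s₀ a) (fun u => ∑ j, (c j * w j a u - d j * zf τ (t j) (w j a u)))) :
    (∀ j, c j = 0) ∧ ∀ j, t j = true → d j = 0 := by
  have hsh := fun j => exists_shift_fx (τ := τ) (t j) (fun a => w j a (s₀ a))
  choose γ hγ using hsh
  set G : (ν → ℂ) → ℂ := fun v => ∑ j, (c j * v j - d j * zf τ (t j) (v j)) with hGdef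
  set v₀ : ν → ℂ := fun j => γ j + ∑ a, w j a (s₀ a) with hv₀
  have hv₀p : ∀ j, v₀ j ∉ pol τ (t j) := fun j => hγ j Finset.univ
  have hG : AlgF s₀ (fun x => G fun j => γ j + ∑ a, w j a (x a)) := by
    have h1 : AlgF s₀ (fun x => ∑ j, c j * γ j + ∑ a, ∑ j, (c j * w j a (x a) -
        d j * zf τ (t j) (w j a (x a))) -
        ∑ j, d j * (zf τ (t j) (γ j + ∑ a, w j a (x a)) - ∑ a, zf τ (t j) (w j a (x a)))) := by
      refine ((algF_const _).add (algF_sum _ fun a _ => algF_of_alg1 a (hT a))).sub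
        (algF_sum _ fun j _ => (algF_const _).mul ?_)
      exact (algF_partial hτ (t j) (w j) (hw j) (hwp j) (halg j) (γ j) (hγ j) Finset.univ).2
    refine h1.congr (Eventually.of_forall fun x => ?_)
    simp only [hGdef]
    rw [Finset.sum_comm, ← Finset.sum_add_distrib, ← Finset.sum_sub_distrib]
    refine Finset.sum_congr rfl fun j _ => ?_
    rw [Finset.sum_sub_distrib, ← Finset.mul_sum, ← Finset.mul_sum]
    ring
  obtain ⟨P, hP0, hP⟩ := glue_core hτ t w hw hwp halg hdet γ hγ G hG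
  -- the conclusion for one period
  have key : ∀ i : ν, ∀ l ∈ per τ (t i), ∀ h : ℂ,
      (∀ z (k : ℕ), zf τ (t i) (z + k * l) = zf τ (t i) z + k * h) → c i * l = d i * h := by
    intro i l hl h hh
    obtain ⟨N, -, ⟨v, hv⟩, -, hNp, hN⟩ := pigeon hτ t P hP0 G v₀ hv₀p hP i hl
      (fun _ => pol τ (t i)) (fun _ => pol_countable _) (fun _ => pol_closed hτ _)
      (fun _ => subset_rfl) (by
        intro v y hy
        have h1 : ∀ j, AnalyticAt ℂ (fun y => c j * Function.update v i y j -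
            d j * zf τ (t j) (Function.update v i y j)) y := by
          intro j
          by_cases hj : j = i
          · subst hj
            simp only [Function.update_self]
            exact (analyticAt_const.mul analyticAt_id).sub
              (analyticAt_const.mul (analyticAt_zf hτ (t j) hy))
          · simp only [Function.update_of_ne hj]
            exact analyticAt_const
        exact Finset.analyticAt_fun_sum _ fun j _ => h1 j)
      (((continuous_apply i).tendsto v₀).eventually (notMem_pol_ev hτ (t i) (hv₀p i)))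
      Filter.univ_mem
    by_contra hne
    have hne' : c i * l - d i * h ≠ 0 := sub_ne_zero.2 hne
    refine not_finite_line (A := G v) hne' ((hN v hv).subset ?_)
    rintro _ ⟨m, rfl⟩
    refine ⟨m, ?_, ?_⟩
    · have h1 : (m : ℂ) * l ∈ per τ (t i) := by
        revert hl
        cases t i
        · rintro ⟨k, rfl⟩
          exact ⟨m * k, by push_cast; ring⟩
        · intro hl
          obtain ⟨a, b, rfl⟩ := mem_Lam.1 hl
          exact mem_Lam.2 ⟨m * a, m * b, by push_cast; ring⟩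
      rw [pol_add_per _ _ h1]
      exact hNp v hv i
    · simp only [hGdef]
      rw [← Finset.add_sum_erase _ (fun j => c j * v j - d j * zf τ (t j) (v j))
          (Finset.mem_univ i),
        ← Finset.add_sum_erase _ (fun j => c j * Function.update v i (v i + m * l) j -
          d j * zf τ (t j) (Function.update v i (v i + m * l) j)) (Finset.mem_univ i)]
      have e1 : ∑ j ∈ Finset.univ.erase i, (c j * Function.update v i (v i + m * l) j -
          d j * zf τ (t j) (Function.update v i (v i + m * l) j)) =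
          ∑ j ∈ Finset.univ.erase i, (c j * v j - d j * zf τ (t j) (v j)) := by
        refine Finset.sum_congr rfl fun j hj => ?_
        rw [Function.update_of_ne (Finset.ne_of_mem_erase hj)]
      rw [e1, Function.update_self, hh]
      ring
  have hkap := kap_ne_zero
  have hcd : ∀ i, c i = 0 ∧ (t i = true → d i = 0) := by
    intro i
    cases hti : t i
    · refine ⟨?_, fun h => absurd h (by simp)⟩
      have h1 := key i kap (by rw [hti]; exact ⟨1, by simp⟩) 0 (by
        intro z k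
        rw [hti]
        simp [zf])
      rw [mul_zero] at h1
      exact (mul_eq_zero.1 h1).resolve_right hkap
    · have h1 := key i 1 (by rw [hti]; exact mem_Lam.2 ⟨1, 0, by simp⟩) (et τ) (by
        intro z k
        rw [hti]
        exact wp_add_mul hτ z 1 (et τ) 1 0 (by simp) (by simp) k)
      have h2 := key i τ (by rw [hti]; exact mem_Lam.2 ⟨0, 1, by simp⟩) (τ * et τ - kap) (by
        intro z k
        rw [hti]
        exact wp_add_mul hτ z τ (τ * et τ - kap) 0 1 (by simp) (by simp) k)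
      have h3 : d i * kap = 0 := by linear_combination h2 - τ * h1
      have h4 : d i = 0 := (mul_eq_zero.1 h3).resolve_right hkap
      refine ⟨?_, fun _ => h4⟩
      rw [h4, mul_one, zero_mul] at h1
      exact h1
  exact ⟨fun j => (hcd j).1, fun j => (hcd j).2⟩

/-- **Second case.** -/
theorem caseB (hτ : 0 < τ.im) (t : ν → Bool) (w : ν → ν → ℂ → ℂ)
    (hw : ∀ j a, AnalyticAt ℂ (w j a) (s₀ a)) (hwp : ∀ j a, w j a (s₀ a) ∉ pol τ (t j))
    (halg : ∀ j a, Alg1 (s₀ a) (fun u => ef τ (t j) (w j a u)))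
    (hdet : (Matrix.of fun j a => deriv (w j a) (s₀ a)).det ≠ 0)
    (t0 : Bool) (w0 : ν → ℂ → ℂ) (hw0 : ∀ a, AnalyticAt ℂ (w0 a) (s₀ a))
    (hwp0 : ∀ a, w0 a (s₀ a) ∉ pol τ t0)
    (halg0 : ∀ a, Alg1 (s₀ a) (fun u => ef τ t0 (w0 a u)))
    (u : ν → ℂ) (k : ν → ℂ) (hrel : ∀ a, ∀ᶠ s in 𝓝 (s₀ a), w0 a s = k a - ∑ j, u j * w j a s)
    (i : ν) {l : ℂ} (hl : l ∈ per τ (t i)) : ∃ n : ℤ, n ≠ 0 ∧ (n : ℂ) * (u i * l) ∈ per τ t0 := by
  by_cases hui : u i = 0
  · refine ⟨1, one_ne_zero, ?_⟩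
    rw [hui]
    cases t0
    · exact ⟨0, by simp⟩
    · exact mem_Lam.2 ⟨0, 0, by simp⟩
  have hsh := fun j => exists_shift_fx (τ := τ) (t j) (fun a => w j a (s₀ a))
  choose γ hγ using hsh
  obtain ⟨γ0, hγ0⟩ := exists_shift_fx (τ := τ) t0 (fun a => w0 a (s₀ a))
  set c0 : ℂ := γ0 + ∑ a, k a + ∑ j, u j * γ j with hc0
  set A : (ν → ℂ) → ℂ := fun v => c0 - ∑ j, u j * v j with hA
  set G : (ν → ℂ) → ℂ := fun v => ef τ t0 (A v) with hGdef
  set v₀ : ν → ℂ := fun j => γ j + ∑ a, w j a (s₀ a) with hv₀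
  have hv₀p : ∀ j, v₀ j ∉ pol τ (t j) := fun j => hγ j Finset.univ
  have hAW : ∀ x : ν → ℂ, (∀ a, w0 a (x a) = k a - ∑ j, u j * w j a (x a)) →
      A (fun j => γ j + ∑ a, w j a (x a)) = γ0 + ∑ a, w0 a (x a) := by
    intro x hx
    simp only [hA, hc0, hx]
    have e1 : ∑ j, u j * (γ j + ∑ a, w j a (x a)) = ∑ j, u j * γ j +
        ∑ a, ∑ j, u j * w j a (x a) := by
      rw [Finset.sum_comm, ← Finset.sum_add_distrib]
      refine Finset.sum_congr rfl fun j _ => ?_
      rw [mul_add, Finset.mul_sum]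
    rw [e1, Finset.sum_sub_distrib]
    ring
  have hG : AlgF s₀ (fun x => G fun j => γ j + ∑ a, w j a (x a)) := by
    have h1 := (algF_partial hτ t0 w0 hw0 hwp0 halg0 γ0 hγ0 Finset.univ).1
    refine h1.congr ?_
    have h2 : ∀ᶠ x in 𝓝 s₀, ∀ a, w0 a (x a) = k a - ∑ j, u j * w j a (x a) := by
      rw [Filter.eventually_all]
      intro a
      exact ((continuous_apply a).tendsto s₀).eventually (hrel a)
    filter_upwards [h2] with x hx
    simp only [hGdef]
    rw [hAW x hx]
  obtain ⟨P, hP0, hP⟩ := glue_core hτ t w hw hwp halg hdet γ hγ G hG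
  have hA0 : A v₀ ∉ pol τ t0 := by
    rw [hv₀, hAW s₀ fun a => (hrel a).self_of_nhds]
    exact hγ0 Finset.univ
  have hAcont : Continuous A := by
    simp only [hA]
    fun_prop
  have hAup : ∀ (v : ν → ℂ) (y : ℂ), A (Function.update v i y) = A v - u i * (y - v i) := by
    intro v y
    simp only [hA]
    rw [← Finset.add_sum_erase _ (fun j => u j * v j) (Finset.mem_univ i),
      ← Finset.add_sum_erase _ (fun j => u j * Function.update v i y j) (Finset.mem_univ i)]
    have e1 : ∑ j ∈ Finset.univ.erase i, u j * Function.update v i y j =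
        ∑ j ∈ Finset.univ.erase i, u j * v j := by
      refine Finset.sum_congr rfl fun j hj => ?_
      rw [Function.update_of_ne (Finset.ne_of_mem_erase hj)]
    rw [e1, Function.update_self]
    ring
  have hinj : ∀ v : ν → ℂ, Function.Injective fun y : ℂ => A (Function.update v i y) := by
    intro v y y' h
    simp only [hAup] at h
    have h1 : u i * (y - y') = 0 := by linear_combination -h
    exact sub_eq_zero.1 ((mul_eq_zero.1 h1).resolve_left hui)
  have hcontu : ∀ v : ν → ℂ, Continuous fun y : ℂ => A (Function.update v i y) := by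
    intro v
    simp only [hAup]
    fun_prop
  set C : (ν → ℂ) → Set ℂ := fun v => pol τ (t i) ∪
    (fun y => A (Function.update v i y)) ⁻¹' pol τ t0 with hC
  obtain ⟨N, hNo, ⟨v₁, hv₁⟩, -, hNp, hN⟩ := pigeon hτ t P hP0 G v₀ hv₀p hP i hl C
    (fun v => (pol_countable _).union ((pol_countable _).preimage (hinj v)))
    (fun v => (pol_closed hτ _).union ((pol_closed hτ _).preimage (hcontu v)))
    (fun v => Set.subset_union_left) (by
      intro v y hy
      have h1 : A (Function.update v i y) ∉ pol τ t0 := fun h => hy (Or.inr h)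
      have h2 : AnalyticAt ℂ (fun y : ℂ => A (Function.update v i y)) y := by
        simp only [hAup]
        exact analyticAt_const.sub (analyticAt_const.mul (analyticAt_id.sub analyticAt_const))
      exact AnalyticAt.fun_comp (g := ef τ t0) (f := fun y : ℂ => A (Function.update v i y))
        (analyticAt_ef hτ t0 h1) h2)
    (by
      have h1 := ((continuous_apply i).tendsto v₀).eventually (notMem_pol_ev hτ (t i) (hv₀p i))
      have h2 := (hAcont.tendsto v₀).eventually (notMem_pol_ev hτ t0 hA0)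
      filter_upwards [h1, h2] with v k1 k2
      rintro (h | h)
      · exact k1 h
      · have h3 : A (Function.update v i (v i)) ∈ pol τ t0 := h
        rw [Function.update_eq_self] at h3
        exact k2 h3)
    Filter.univ_mem
  -- a generic point of `N`
  set E : Set ℂ := ⋃ q : ℕ × ℕ, ((fun x => x + q.1 * (u i * l)) '' pol τ t0) ∪
    ((fun x => (x + (q.1 + q.2) * (u i * l)) / 2) '' Lam τ) with hE
  have hEc : E.Countable := Set.countable_iUnion fun q =>
    ((pol_countable _).image _).union ((Lam_countable τ).image _)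
  obtain ⟨v, hvN, hvE⟩ : ∃ v ∈ N, A v ∉ E := by
    have hc : Tendsto (fun y : ℂ => Function.update v₁ i y) (𝓝 (v₁ i)) (𝓝 v₁) := by
      have h4 : Continuous (fun y : ℂ => Function.update v₁ i y) := by fun_prop
      have h5 := h4.tendsto (v₁ i)
      rwa [Function.update_eq_self] at h5
    have h1 : (fun y : ℂ => Function.update v₁ i y) ⁻¹' N ∈ 𝓝 (v₁ i) :=
      hc (hNo.mem_nhds hv₁)
    have h2 := (hEc.preimage (hinj v₁)).dense_compl ℂ
    obtain ⟨y, hy1, hy2⟩ := mem_closure_iff_nhds.1 (h2 (v₁ i)) _ h1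
    exact ⟨_, hy1, hy2⟩
  have hAm : ∀ m : ℕ, A (Function.update v i (v i + m * l)) = A v - m * (u i * l) := by
    intro m
    rw [hAup]
    ring
  have hnotC : ∀ m : ℕ, v i + m * l ∉ C v := by
    intro m h
    rcases h with h | h
    · have h1 : (m : ℂ) * l ∈ per τ (t i) := by
        revert hl
        cases t i
        · rintro ⟨k, rfl⟩
          exact ⟨m * k, by push_cast; ring⟩
        · intro hl
          obtain ⟨a, b, rfl⟩ := mem_Lam.1 hl
          exact mem_Lam.2 ⟨m * a, m * b, by push_cast; ring⟩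
      rw [pol_add_per _ _ h1] at h
      exact hNp v hvN i h
    · have h1 : A (Function.update v i (v i + m * l)) ∈ pol τ t0 := h
      rw [hAm] at h1
      apply hvE
      rw [hE, Set.mem_iUnion]
      exact ⟨(m, 0), Or.inl ⟨_, h1, by ring⟩⟩
  -- pigeonhole
  have hfin : (Set.range fun m : ℕ => G (Function.update v i (v i + m * l))).Finite := by
    refine (hN v hvN).subset ?_
    rintro _ ⟨m, rfl⟩
    exact ⟨m, hnotC m, rfl⟩
  have hninj : ¬ Function.Injective (fun m : ℕ => G (Function.update v i (v i + m * l))) :=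
    fun h => Set.infinite_range_of_injective h hfin
  rw [Function.Injective] at hninj
  push Not at hninj
  obtain ⟨m, m', h1, hne⟩ := hninj
  simp only [hGdef, hAm] at h1
  have hpm : ∀ m : ℕ, A v - m * (u i * l) ∉ pol τ t0 := by
    intro m h
    apply hvE
    rw [hE, Set.mem_iUnion]
    exact ⟨(m, 0), Or.inl ⟨_, h, by ring⟩⟩
  refine ⟨(m' : ℤ) - m, by omega, ?_⟩
  cases t0
  · have h2 := Complex.exp_eq_exp_iff_exists_int.1 h1
    obtain ⟨n, hn⟩ := h2
    refine ⟨n, ?_⟩
    push_cast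
    unfold kap
    linear_combination hn
  · rcases wp_inj hτ (hpm m) (hpm m') h1 with h2 | h2
    · have e : (((m' : ℤ) - m : ℤ) : ℂ) * (u i * l) = A v - m * (u i * l) -
          (A v - m' * (u i * l)) := by
        push_cast
        ring
      rw [e]
      exact h2
    · exfalso
      apply hvE
      rw [hE, Set.mem_iUnion]
      refine ⟨(m, m'), Or.inr ⟨_, h2, ?_⟩⟩
      simp only
      ring

end Pool.Agent.Work.MP_8da9ea_nt.Fx

end
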