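import Mathlib
import Pool.Agent.Work.MP_8da9ea_nt.Der
import Pool.Agent.Work.MP_8da9ea_nt.S.Stmts
import Pool.Agent.Work.MP_327059_nt.Bd.B11
import Pool.Agent.Work.MP_327059_nt.Bd.B09
import Pool.Agent.Work.MP_327059_nt.Bd.B03
import Pool.Agent.Work.MP_327059_nt.Bd.B12
import Pool.Agent.Work.MP_327059_nt.Bd.B10

/-! Bundle of small proof modules (one section per former module). -/

section

/-!
# Jacobian criterion over a subfield and linear algebra of derivations
-/

set_option autoImplicit false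

namespace Pool.Agent.Work.MP_8da9ea_nt.TG

open Pool.Agent.ED

/-- jacobian criterion over a subfield -/
theorem rel_jac {σ : Type} [Fintype σ] [DecidableEq σ] (K : IntermediateField ℚ ℂ) (z : σ → ℂ)
    (δ : σ → Derivation ℚ ℂ ℂ) (hK : ∀ o, ∀ x ∈ K, δ o x = 0)
    (h : (Matrix.of fun o o' => δ o (z o')).det ≠ 0) : AlgebraicIndependent K z := by
  obtain ⟨s, hs, hcard⟩ := exists_finset_rank (K := K) z
  have hli : LinearIndependent ℂ (fun o : σ => fun o' => δ o (z o')) := by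
    have h1 : IsUnit (Matrix.of fun o o' => δ o (z o')) :=
      (Matrix.isUnit_iff_isUnit_det _).2 (isUnit_iff_ne_zero.2 h)
    exact Matrix.linearIndependent_rows_iff_isUnit.2 h1
  have hle : Fintype.card σ ≤ s.card := by
    rw [← hcard]
    have h2 : LinearIndependent ℂ (fun o : σ => (⟨fun o' => δ o (z o'),
        Submodule.subset_span ⟨derL K (δ o) (hK o), rfl⟩⟩ : Submodule.span ℂ
        (Set.range fun X : Derivation K ℂ ℂ => fun i => X (z i)))) := by
      apply LinearIndependent.of_comp (Submodule.subtype _)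
      exact hli
    exact h2.fintype_card_le_finrank
  have hsu : s = Finset.univ := by
    apply Finset.eq_univ_of_card
    exact le_antisymm (Finset.card_le_univ s) hle
  subst hsu
  exact hs.comp (fun o => (⟨o, Finset.mem_univ o⟩ : (Finset.univ : Finset σ)))
    (fun a b hab => congrArg Subtype.val hab)

/-- linear algebra -/
theorem lin_ker {T W Z : Type*} [AddCommGroup T] [Module ℂ T] [AddCommGroup W] [Module ℂ W]
    [FiniteDimensional ℂ W] [AddCommGroup Z] [Module ℂ Z] [FiniteDimensional ℂ Z]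
    (S : Submodule ℂ T) (f : T →ₗ[ℂ] W) (g : T →ₗ[ℂ] Z) (R : ℕ)
    (h : R + Module.finrank ℂ Z ≤ Module.finrank ℂ (S.map f)) :
    ∃ δ : Fin R → T, (∀ s, δ s ∈ S ∧ g (δ s) = 0) ∧ LinearIndependent ℂ (fun s => f (δ s)) := by
  classical
  let f' : S →ₗ[ℂ] S.map f := f.submoduleMap S
  have hsurj : Function.Surjective f' := f.submoduleMap_surjective S
  obtain ⟨sec, hsec⟩ := LinearMap.exists_rightInverse_of_surjective f' (LinearMap.range_eq_top.2 hsurj)
  let g' : S.map f →ₗ[ℂ] Z := g ∘ₗ S.subtype ∘ₗ sec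
  have h1 := LinearMap.finrank_range_add_finrank_ker g'
  have h2 : Module.finrank ℂ (LinearMap.range g') ≤ Module.finrank ℂ Z := Submodule.finrank_le _
  have h3 : R ≤ Module.finrank ℂ (LinearMap.ker g') := by omega
  obtain ⟨u, hu⟩ := exists_linearIndependent_of_le_finrank h3
  refine ⟨fun s => ((sec (u s : S.map f) : S) : T), fun s => ⟨(sec (u s : S.map f)).2, ?_⟩, ?_⟩
  · have := (u s).2
    exact LinearMap.mem_ker.1 this
  · have h4 : (fun s => f ((sec (u s : S.map f) : S) : T)) = fun s => ((u s : S.map f) : W) := by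
      funext s
      have h5 := congrArg (fun φ => φ (u s : S.map f)) hsec
      have h6 : f' (sec (u s : S.map f)) = (u s : S.map f) := h5
      have h7 := congrArg Subtype.val h6
      exact h7
    rw [h4]
    have h8 := hu.map' (LinearMap.ker g').subtype (Submodule.ker_subtype _)
    exact h8.map' (S.map f).subtype (Submodule.ker_subtype _)

end Pool.Agent.Work.MP_8da9ea_nt.TG

end

section

/-!
# X20: the output of the Ax type argument for derivations killing `v` and `b`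
-/

set_option autoImplicit false

namespace Pool.Agent.Work.MP_8da9ea_nt.S

open MvPolynomial Pool.Agent.Work.MP_327059_nt.GL

/-- restriction of exponents -/
def AxOutB_res (n m : ℕ) : (Fin (n + m) → Fin m → ℤ) →+ (Fin n → Fin m → ℤ) where
  toFun ζ := fun i => ζ (Fin.castAdd m i)
  map_zero' := rfl
  map_add' _ _ := rfl

theorem AxOutB_range {n m : ℕ} (v : Fin n → ℂ) (b : Fin m → ℂ) :
    Set.range (Fin.append v b) = Set.range v ∪ Set.range b := by
  ext z
  constructor
  · rintro ⟨i, rfl⟩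
    refine Fin.addCases (fun i => ?_) (fun i => ?_) i
    · rw [Fin.append_left]; exact Or.inl ⟨i, rfl⟩
    · rw [Fin.append_right]; exact Or.inr ⟨i, rfl⟩
  · rintro (⟨i, rfl⟩ | ⟨i, rfl⟩)
    · exact ⟨Fin.castAdd m i, Fin.append_left _ _ _⟩
    · exact ⟨Fin.natAdd n i, Fin.append_right _ _ _⟩

theorem AxOutB_mon {n m : ℕ} (y : Fin n → Fin m → ℂ) (ζ : Fin (n + m) → Fin m → ℤ) :
    mon (Fin.append y (fun (_ : Fin m) (_ : Fin m) => (1 : ℂ))) ζ = mon y (AxOutB_res n m ζ) := by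
  unfold mon
  rw [Fin.prod_univ_add]
  have h1 : ∏ i : Fin m, ∏ j, Fin.append y (fun (_ : Fin m) (_ : Fin m) => (1 : ℂ))
      (Fin.natAdd n i) j ^ ζ (Fin.natAdd n i) j = 1 := by
    refine Finset.prod_eq_one (fun i _ => Finset.prod_eq_one (fun j _ => ?_))
    rw [Fin.append_right, one_zpow]
  rw [h1, mul_one]
  refine Finset.prod_congr rfl (fun i _ => Finset.prod_congr rfl (fun j _ => ?_))
  rw [Fin.append_left]
  rfl

theorem AxOutB_TT {n m : ℕ} (v : Fin n → ℂ) (b : Fin m → ℂ) :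
    TT (Fin.append v b) = TT v ⊓ TT b := by
  ext δ
  rw [Submodule.mem_inf]
  constructor
  · intro h
    refine ⟨fun i => ?_, fun i => ?_⟩
    · have := h (Fin.castAdd m i)
      rwa [Fin.append_left] at this
    · have := h (Fin.natAdd n i)
      rwa [Fin.append_right] at this
  · rintro ⟨h1, h2⟩ i
    refine Fin.addCases (fun i => ?_) (fun i => ?_) i
    · rw [Fin.append_left]; exact h1 i
    · rw [Fin.append_right]; exact h2 i

theorem AxOutB_om {n m : ℕ} (x : Fin n → ℂ) (y : Fin n → Fin m → ℂ) (v : Fin n → ℂ)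
    (b : Fin m → ℂ) :
    om (Fin.append x (fun _ : Fin m => (0 : ℂ)))
      (Fin.append y (fun (_ : Fin m) (_ : Fin m) => (1 : ℂ))) (Fin.append v b) = om x y v := by
  refine LinearMap.ext (fun δ => ?_)
  funext o
  cases o with
  | none =>
    change ∑ i, Fin.append v b i * δ (Fin.append x (fun _ : Fin m => (0 : ℂ)) i) =
      ∑ i, v i * δ (x i)
    rw [Fin.sum_univ_add]
    have h1 : ∑ i : Fin m, Fin.append v b (Fin.natAdd n i) *
        δ (Fin.append x (fun _ : Fin m => (0 : ℂ)) (Fin.natAdd n i)) = 0 := by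
      refine Finset.sum_eq_zero (fun i _ => ?_)
      rw [Fin.append_right, Fin.append_right, map_zero, mul_zero]
    rw [h1, add_zero]
    refine Finset.sum_congr rfl (fun i _ => ?_)
    rw [Fin.append_left, Fin.append_left]
  | some j =>
    change ∑ i, Fin.append v b i * (δ (Fin.append y (fun (_ : Fin m) (_ : Fin m) => (1 : ℂ)) i j) /
      Fin.append y (fun (_ : Fin m) (_ : Fin m) => (1 : ℂ)) i j) =
      ∑ i, v i * (δ (y i j) / y i j)
    rw [Fin.sum_univ_add]
    have h1 : ∑ i : Fin m, Fin.append v b (Fin.natAdd n i) *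
        (δ (Fin.append y (fun (_ : Fin m) (_ : Fin m) => (1 : ℂ)) (Fin.natAdd n i) j) /
          Fin.append y (fun (_ : Fin m) (_ : Fin m) => (1 : ℂ)) (Fin.natAdd n i) j) = 0 := by
      refine Finset.sum_eq_zero (fun i _ => ?_)
      rw [Fin.append_right, Fin.append_right, Derivation.map_one_eq_zero, zero_div, mul_zero]
    rw [h1, add_zero]
    refine Finset.sum_congr rfl (fun i _ => ?_)
    rw [Fin.append_left, Fin.append_left]

theorem AxOutB_rk {n m : ℕ} (x : Fin n → ℂ) (y : Fin n → Fin m → ℂ) (v : Fin n → ℂ)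
    (b : Fin m → ℂ) :
    rk (Fin.append x (fun _ : Fin m => (0 : ℂ)))
      (Fin.append y (fun (_ : Fin m) (_ : Fin m) => (1 : ℂ))) (Fin.append v b) = rkb x y v b := by
  unfold rk rkb
  rw [AxOutB_om, AxOutB_TT]

theorem AxOutB_ug {n m : ℕ} (v : Fin n → ℂ) (b : Fin m → ℂ)
    (Gp : AddSubgroup (Fin (n + m) → Fin m → ℤ)) :
    ug (Gp.map (AxOutB_res n m)) v ≤ ug Gp (Fin.append v b) := by
  unfold ug
  apply Submodule.finrank_mono
  rintro _ ⟨a, ha, rfl⟩
  refine ⟨Fin.append a (fun (_ : Fin m) (_ : Fin m) => (0 : ℂ)), ?_, ?_⟩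
  · intro ζ hζ
    have h1 := ha (AxOutB_res n m ζ) ⟨ζ, hζ, rfl⟩
    rw [Fin.sum_univ_add]
    have h2 : ∑ i : Fin m, ∑ j, (ζ (Fin.natAdd n i) j : ℂ) *
        Fin.append a (fun (_ : Fin m) (_ : Fin m) => (0 : ℂ)) (Fin.natAdd n i) j = 0 := by
      refine Finset.sum_eq_zero (fun i _ => Finset.sum_eq_zero (fun j _ => ?_))
      rw [Fin.append_right, mul_zero]
    rw [h2, add_zero, ← h1]
    refine Finset.sum_congr rfl (fun i _ => Finset.sum_congr rfl (fun j _ => ?_))
    rw [Fin.append_left]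
    rfl
  · funext j
    change ∑ i, Fin.append v b i *
      Fin.append a (fun (_ : Fin m) (_ : Fin m) => (0 : ℂ)) i j = ∑ i, v i * a i j
    rw [Fin.sum_univ_add]
    have h2 : ∑ i : Fin m, Fin.append v b (Fin.natAdd n i) *
        Fin.append a (fun (_ : Fin m) (_ : Fin m) => (0 : ℂ)) (Fin.natAdd n i) j = 0 := by
      refine Finset.sum_eq_zero (fun i _ => ?_)
      rw [Fin.append_right, Fin.append_right, mul_zero]
    rw [h2, add_zero]
    refine Finset.sum_congr rfl (fun i _ => ?_)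
    rw [Fin.append_left, Fin.append_left]

theorem AxOutB_sum {n m : ℕ} (x : Fin n → ℂ) (v : Fin n → ℂ) (b : Fin m → ℂ) :
    ∑ i, Fin.append v b i * Fin.append x (fun _ : Fin m => (0 : ℂ)) i = ∑ i, v i * x i := by
  rw [Fin.sum_univ_add]
  have h1 : ∑ i : Fin m, Fin.append v b (Fin.natAdd n i) *
      Fin.append x (fun _ : Fin m => (0 : ℂ)) (Fin.natAdd n i) = 0 := by
    refine Finset.sum_eq_zero (fun i _ => ?_)
    rw [Fin.append_right, Fin.append_right, mul_zero]
  rw [h1, add_zero]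
  refine Finset.sum_congr rfl (fun i _ => ?_)
  rw [Fin.append_left, Fin.append_left]

theorem pr_AxOutB (h1 : S_AxOut) : S_AxOutB := by
  intro n m x y v b hy
  have hy' : ∀ i j, Fin.append y (fun (_ : Fin m) (_ : Fin m) => (1 : ℂ)) i j ≠ 0 := by
    intro i j
    refine Fin.addCases (fun i => ?_) (fun i => ?_) i
    · rw [Fin.append_left]; exact hy i j
    · rw [Fin.append_right]; exact one_ne_zero
  obtain ⟨Gp, hG⟩ := h1 (n + m) m (Fin.append x (fun _ : Fin m => (0 : ℂ)))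
    (Fin.append y (fun (_ : Fin m) (_ : Fin m) => (1 : ℂ))) (Fin.append v b) hy'
  refine ⟨Gp.map (AxOutB_res n m), ?_⟩
  intro k f hf hind
  have h2 := hG k f
  rw [AxOutB_range, AxOutB_sum, AxOutB_rk] at h2
  have h3 := h2 (by
    intro t
    rcases hf t with h | ⟨ξ, ⟨ζ, hζ, rfl⟩, h⟩
    · exact Or.inl h
    · exact Or.inr ⟨ζ, hζ, by rw [h, AxOutB_mon]⟩) hind
  have h4 := AxOutB_ug v b Gp
  omega

end Pool.Agent.Work.MP_8da9ea_nt.S

end

section

/-!
# Item X19: counting over `ℚ(v)` and `ℚ(v, b)`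
-/

set_option autoImplicit false

namespace Pool.Agent.Work.MP_8da9ea_nt.S

open MvPolynomial Pool.Agent.Work.MP_327059_nt.GL

theorem CntB_ext (V : IntermediateField ℚ ℂ) (B0 F1 : Set ℂ)
    (hF : ∀ x ∈ F1, IsAlgebraic (Algebra.adjoin V B0) x) {ι : Type} (x : ι → ℂ)
    (h : AlgebraicIndependent (Algebra.adjoin V B0) x) :
    AlgebraicIndependent (IntermediateField.adjoin ℚ ((V : Set ℂ) ∪ F1)) x := by
  have hE : ∀ z (hz : z ∈ IntermediateField.adjoin ℚ ((V : Set ℂ) ∪ F1)),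
      IsAlgebraic (Algebra.adjoin V B0) z := by
    intro z hz
    induction hz using IntermediateField.adjoin_induction with
    | mem x hx =>
      rcases hx with hx | hx
      · exact isAlgebraic_algebraMap
          (algebraMap V (Algebra.adjoin V B0) ⟨x, hx⟩ : Algebra.adjoin V B0)
      · exact hF x hx
    | algebraMap q =>
      exact isAlgebraic_algebraMap
          (algebraMap V (Algebra.adjoin V B0) (algebraMap ℚ V q) : Algebra.adjoin V B0)
    | add x y _ _ hx hy => exact hx.add hy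
    | inv x _ hx => exact hx.inv
    | mul x y _ _ hx hy => exact hx.mul hy
  have h1 := h.subalgebraAlgebraicClosure
  let φ : IntermediateField.adjoin ℚ ((V : Set ℂ) ∪ F1) →+*
      Subalgebra.algebraicClosure (Algebra.adjoin V B0) ℂ :=
    { toFun := fun z => ⟨z, hE z z.2⟩
      map_one' := rfl
      map_mul' := fun _ _ => rfl
      map_zero' := rfl
      map_add' := fun _ _ => rfl }
  let _ : Algebra (IntermediateField.adjoin ℚ ((V : Set ℂ) ∪ F1))
    (Subalgebra.algebraicClosure (Algebra.adjoin V B0) ℂ) := φ.toAlgebra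
  have _ : IsScalarTower (IntermediateField.adjoin ℚ ((V : Set ℂ) ∪ F1))
      (Subalgebra.algebraicClosure (Algebra.adjoin V B0) ℂ) ℂ :=
    IsScalarTower.of_algebraMap_eq fun _ => rfl
  exact h1.restrictScalars φ.injective

theorem CntB_fin {K : Type} [Field K] [Algebra K ℂ] (J : Set ℂ) (hJ : J.Finite)
    (h : AlgebraicIndependent K (fun z : J => (z : ℂ))) :
    ∃ f : Fin J.ncard → ℂ, (∀ t, f t ∈ J) ∧ AlgebraicIndependent K f := by
  classical
  have _ := hJ.fintype
  have hc : Fintype.card J = J.ncard := by rw [Set.ncard_eq_toFinset_card', Set.toFinset_card]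
  let e := (Fintype.equivFinOfCardEq hc).symm
  exact ⟨fun t => (e t : ℂ), fun t => (e t).2, h.comp e e.injective⟩

theorem pr_CntB : S_CntB := by
  classical
  intro m κ r V b Z hκ hr k f hf hind
  let M := AlgebraicIndependent.matroid V ℂ
  have hI : M.Indep (Set.range f) := by
    rw [AlgebraicIndependent.matroid_indep_iff]
    exact hind.to_subtype_range
  obtain ⟨B0, hB0⟩ := M.exists_isBasis (Set.range b) (by
    rw [AlgebraicIndependent.matroid_e]; exact Set.subset_univ _)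
  have hB0f : B0.Finite := (Set.finite_range b).subset hB0.subset
  -- size of B0
  have hB0k : B0.ncard ≤ κ := by
    by_contra hlt
    push Not at hlt
    have h1 : AlgebraicIndependent V (fun z : B0 => (z : ℂ)) :=
      AlgebraicIndependent.matroid_indep_iff.1 hB0.indep
    obtain ⟨g, hg, hgi⟩ := CntB_fin B0 hB0f h1
    have hgi' : AlgebraicIndependent ℚ g := hgi.restrictScalars (algebraMap ℚ V).injective
    have h2 : ∀ i : Fin (κ + 1), ∃ j, b j = g ⟨i, lt_of_lt_of_le i.2 hlt⟩ := fun i =>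
      hB0.subset (hg _)
    choose s hs using h2
    refine hκ s ?_
    have h3 : (fun i => b (s i)) = g ∘ (fun i : Fin (κ + 1) =>
        (⟨i, lt_of_lt_of_le i.2 hlt⟩ : Fin B0.ncard)) := by
      funext i
      exact hs i
    rw [h3]
    refine hgi'.comp _ fun i j hij => ?_
    have := congrArg Fin.val hij
    exact Fin.ext this
  -- a basis of everything
  obtain ⟨B, hB, hB0B⟩ := hB0.indep.subset_isBasis_of_subset (X := Set.range b ∪ Set.range f)
    (hB0.subset.trans Set.subset_union_left) (by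
      rw [AlgebraicIndependent.matroid_e]; exact Set.subset_univ _)
  have hBfin : B.Finite := ((Set.finite_range b).union (Set.finite_range f)).subset hB.subset
  have hk : k ≤ B.ncard := by
    have h1 := hI.encard_le_eRk_of_subset (Set.subset_union_right (s := Set.range b))
    rw [← hB.encard_eq_eRk] at h1
    have h2 : (Set.range f).encard = (k : ℕ∞) := by
      rw [← Set.image_univ, hind.injective.encard_image, Set.encard_univ,
        ENat.card_eq_coe_fintype_card, Fintype.card_fin]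
    rw [h2, ← hBfin.cast_ncard_eq] at h1
    exact_mod_cast h1
  set J := B \ B0 with hJ
  have hJfin : J.Finite := hBfin.subset Set.sdiff_subset
  have hJZ : ∀ z ∈ J, z ∈ Z := by
    intro z hz
    have h1 : z ∉ Set.range b := by
      intro hzb
      refine hz.2 (hB0.mem_of_insert_indep hzb (hB.indep.subset ?_))
      exact Set.insert_subset hz.1 hB0B
    rcases hB.subset hz.1 with h2 | ⟨t, ht⟩
    · exact absurd h2 h1
    · rcases hf t with h3 | h3
      · rwa [ht] at h3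
      · rw [ht] at h3; exact absurd h3 h1
  have hcard : B.ncard = J.ncard + B0.ncard := by
    rw [hJ, Set.ncard_sdiff hB0B hB0f]
    have := Set.ncard_le_ncard hB0B hBfin
    omega
  have hJr : J.ncard ≤ r := by
    have h1 : AlgebraicIndependent V (fun z : B => (z : ℂ)) :=
      AlgebraicIndependent.matroid_indep_iff.1 hB.indep
    have h2 := h1.adjoin_of_disjoint (s := {z : B | (z : ℂ) ∈ B0}) (t := {z : B | (z : ℂ) ∉ B0})
      (by rw [Set.disjoint_left]; intro z hz hz'; exact hz' hz)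
    have h3 : ((fun z : B => (z : ℂ)) '' {z : B | (z : ℂ) ∈ B0}) = B0 := by
      ext z
      constructor
      · rintro ⟨w, hw, rfl⟩; exact hw
      · intro hz; exact ⟨⟨z, hB0B hz⟩, hz, rfl⟩
    rw [h3] at h2
    have h4 : AlgebraicIndependent (Algebra.adjoin V B0) (fun z : J => (z : ℂ)) := by
      refine h2.comp (fun z : J => (⟨⟨(z : ℂ), z.2.1⟩, z.2.2⟩ :
        ({w : B | (w : ℂ) ∉ B0} : Set B))) ?_
      intro z z' hzz
      have := congrArg (fun w : ({w : B | (w : ℂ) ∉ B0} : Set B) => ((w : B) : ℂ)) hzz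
      exact Subtype.ext this
    have h5 := CntB_ext V B0 (Set.range b)
      (fun x hx => (AlgebraicIndependent.matroid_isBasis_iff.1 hB0).2.2 x hx) _ h4
    obtain ⟨g, hg, hgi⟩ := CntB_fin J hJfin h5
    exact hr _ g (fun t => hJZ _ (hg t)) hgi
  omega

end Pool.Agent.Work.MP_8da9ea_nt.S

end

section

/-!
# Item CoefLow: lower bound for a non-zero Taylor coefficient
-/

set_option autoImplicit false

namespace Pool.Agent.Work.MP_8da9ea_nt.S

open MvPolynomial Pool.Agent.Work.MP_327059_nt.GL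

/-- the integer polynomial -/
noncomputable def CoefLow_P {m A W : ℕ} (p : Ix m A W → ℤ) (N : ℕ) : MvPolynomial (Fin m) ℤ :=
  ∑ x, C (p x * (N.descFactorial (x.1 : ℕ) : ℤ)) *
    (∑ j, C ((x.2 j : ℕ) : ℤ) * X j) ^ (N - (x.1 : ℕ))

theorem CoefLow_term (a : ℕ) (β : ℂ) (N : ℕ) :
    (N.descFactorial a : ℂ) * β ^ (N - a) = (N.factorial : ℂ) * tc a β N := by
  unfold tc
  by_cases h : a ≤ N
  · rw [if_pos h, ← Nat.factorial_mul_descFactorial h]
    push_cast
    have : ((N - a).factorial : ℂ) ≠ 0 := by exact_mod_cast Nat.factorial_ne_zero _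
    field_simp
  · rw [if_neg h, Nat.descFactorial_eq_zero_iff_lt.2 (by omega)]
    simp

theorem CoefLow_aeval {m A W : ℕ} (b : Fin m → ℂ) (p : Ix m A W → ℤ) (N : ℕ) :
    aeval b (CoefLow_P p N) = (N.factorial : ℂ) * ∑ x, (p x : ℂ) * tc (x.1 : ℕ) (bw b x) N := by
  unfold CoefLow_P
  rw [map_sum, Finset.mul_sum]
  refine Finset.sum_congr rfl fun x _ => ?_
  have e : aeval b (∑ j, C ((x.2 j : ℕ) : ℤ) * X j : MvPolynomial (Fin m) ℤ) = bw b x := by
    rw [map_sum]
    unfold bw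
    refine Finset.sum_congr rfl fun j _ => ?_
    simp
  rw [map_mul, map_pow, e]
  have e2 : aeval b (C (p x * (N.descFactorial (x.1 : ℕ) : ℤ)) : MvPolynomial (Fin m) ℤ) =
      (p x : ℂ) * (N.descFactorial (x.1 : ℕ) : ℂ) := by
    simp
  rw [e2]
  have := CoefLow_term (x.1 : ℕ) (bw b x) N
  calc (p x : ℂ) * (N.descFactorial (x.1 : ℕ) : ℂ) * bw b x ^ (N - (x.1 : ℕ))
      = (p x : ℂ) * ((N.descFactorial (x.1 : ℕ) : ℂ) * bw b x ^ (N - (x.1 : ℕ))) := by ring
    _ = _ := by rw [this]; ring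

theorem CoefLow_deg {m A W : ℕ} (p : Ix m A W → ℤ) (N : ℕ) :
    (CoefLow_P p N).totalDegree ≤ N := by
  unfold CoefLow_P
  refine totalDegree_finsetSum_le fun x _ => ?_
  refine (totalDegree_mul _ _).trans ?_
  rw [totalDegree_C, zero_add]
  refine (totalDegree_pow _ _).trans ?_
  have h1 : (∑ j, C ((x.2 j : ℕ) : ℤ) * X j : MvPolynomial (Fin m) ℤ).totalDegree ≤ 1 := by
    refine totalDegree_finsetSum_le fun j _ => ?_
    refine (totalDegree_mul _ _).trans ?_
    rw [totalDegree_C, zero_add, totalDegree_X]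
  calc (N - (x.1 : ℕ)) * _ ≤ (N - (x.1 : ℕ)) * 1 := Nat.mul_le_mul_left _ h1
    _ ≤ N := by omega

theorem CoefLow_len {m A W : ℕ} (p : Ix m A W → ℤ) (N : ℕ) (h : ℝ)
    (hp : ∀ x, |(p x : ℝ)| ≤ Real.exp h) :
    len (CoefLow_P p N) ≤ ((A : ℝ) * (W : ℝ) ^ m) *
      (Real.exp h * (((N : ℝ) + 1) ^ A * ((m : ℝ) * W + 1) ^ N)) := by
  have key : ∀ x : Ix m A W, len (C (p x * (N.descFactorial (x.1 : ℕ) : ℤ)) *
      (∑ j, C ((x.2 j : ℕ) : ℤ) * X j) ^ (N - (x.1 : ℕ)) : MvPolynomial (Fin m) ℤ) ≤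
      Real.exp h * (((N : ℝ) + 1) ^ A * ((m : ℝ) * W + 1) ^ N) := by
    intro x
    refine (Val_len_mul _ _).trans ?_
    have l1 : len (∑ j, C ((x.2 j : ℕ) : ℤ) * X j : MvPolynomial (Fin m) ℤ) ≤
        (m : ℝ) * W + 1 := by
      refine (Val_len_sum _ _).trans ?_
      have : ∀ j ∈ (Finset.univ : Finset (Fin m)),
          len (C ((x.2 j : ℕ) : ℤ) * X j : MvPolynomial (Fin m) ℤ) ≤ (W : ℝ) := by
        intro j _
        refine (Val_len_mul _ _).trans ?_
        have a1 := Val_len_C (σ := Fin m) ((x.2 j : ℕ) : ℤ)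
        have a2 := Val_len_X (σ := Fin m) j
        have a3 : |((((x.2 j : ℕ) : ℤ)) : ℝ)| ≤ (W : ℝ) := by
          have := (x.2 j).2
          rw [Int.cast_natCast, abs_of_nonneg (by positivity)]
          exact_mod_cast this.le
        calc _ ≤ (W : ℝ) * 1 :=
              mul_le_mul (a1.trans a3) a2 (Val_len_nonneg _) (by positivity)
          _ = W := mul_one _
      refine (Finset.sum_le_sum this).trans ?_
      simp
    have l2 : len ((∑ j, C ((x.2 j : ℕ) : ℤ) * X j) ^ (N - (x.1 : ℕ)) :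
        MvPolynomial (Fin m) ℤ) ≤ ((m : ℝ) * W + 1) ^ N := by
      refine (Val_len_pow _ _).trans ?_
      refine (pow_le_pow_left₀ (Val_len_nonneg _) l1 _).trans ?_
      have hmW : (0 : ℝ) ≤ (m : ℝ) * W := by positivity
      exact pow_le_pow_right₀ (by linarith) (Nat.sub_le _ _)
    have l3 : len (C (p x * (N.descFactorial (x.1 : ℕ) : ℤ)) : MvPolynomial (Fin m) ℤ) ≤
        Real.exp h * ((N : ℝ) + 1) ^ A := by
      refine (Val_len_C _).trans ?_
      rw [Int.cast_mul, abs_mul]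
      refine mul_le_mul (hp x) ?_ (abs_nonneg _) (Real.exp_pos _).le
      rw [Int.cast_natCast, abs_of_nonneg (by positivity)]
      have d1 : N.descFactorial (x.1 : ℕ) ≤ (N + 1) ^ A := by
        refine (Nat.descFactorial_le_pow N (x.1 : ℕ)).trans ?_
        refine (Nat.pow_le_pow_left (Nat.le_succ N) _).trans ?_
        exact Nat.pow_le_pow_right (Nat.succ_pos _) x.1.2.le
      exact_mod_cast d1
    calc _ ≤ (Real.exp h * ((N : ℝ) + 1) ^ A) * ((m : ℝ) * W + 1) ^ N :=
          mul_le_mul l3 l2 (Val_len_nonneg _) (by positivity)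
      _ = _ := by ring
  unfold CoefLow_P
  refine (Val_len_sum _ _).trans ?_
  refine (Finset.sum_le_sum fun x _ => key x).trans ?_
  rw [Finset.sum_const, Finset.card_univ, nsmul_eq_mul]
  refine le_of_eq ?_
  congr 1
  simp [Ix, Fintype.card_prod]

theorem CoefLow_pow_exp (y : ℝ) (hy : 0 ≤ y) (k : ℕ) : y ^ k ≤ Real.exp (k * y) := by
  have h1 : y ≤ Real.exp y := by linarith [Real.add_one_le_exp y]
  calc y ^ k ≤ (Real.exp y) ^ k := pow_le_pow_left₀ hy h1 k
    _ = Real.exp (k * y) := by rw [← Real.exp_nat_mul]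

theorem CoefLow_pow_exp' (y : ℝ) (hy : 0 ≤ y) (k : ℕ) : (y + 1) ^ k ≤ Real.exp (k * y) := by
  calc (y + 1) ^ k ≤ (Real.exp y) ^ k :=
        pow_le_pow_left₀ (by linarith) (Real.add_one_le_exp y) k
    _ = Real.exp (k * y) := by rw [← Real.exp_nat_mul]

theorem pr_CoefLow : S_CoefLow := by
  intro Q m b hb
  obtain ⟨C0, hC0, hFT⟩ := hb
  refine ⟨C0 * ((m : ℝ) + 3) ^ Q + 1, ?_, ?_⟩
  · have : 0 ≤ C0 * ((m : ℝ) + 3) ^ Q := by positivity
    linarith
  intro A W N h p hh hp hne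
  set cN : ℂ := ∑ x, (p x : ℂ) * tc (x.1 : ℕ) (bw b x) N with hcN
  set B : ℝ := ((N : ℝ) + 1) * (A + W + h) with hB
  have hA0 : (0 : ℝ) ≤ A := Nat.cast_nonneg A
  have hW0 : (0 : ℝ) ≤ W := Nat.cast_nonneg W
  have hN0 : (0 : ℝ) ≤ N := Nat.cast_nonneg N
  have hm0 : (0 : ℝ) ≤ m := Nat.cast_nonneg m
  have hB1 : (N : ℝ) + 1 ≤ B := by
    rw [hB]
    nlinarith
  have hB0 : 1 ≤ B := by linarith
  set t : ℝ := ((m : ℝ) + 3) * B with ht
  have hBt : B ≤ t := by
    rw [ht]; nlinarith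
  have hlen : len (CoefLow_P p N) ≤ Real.exp t := by
    refine (CoefLow_len p N h hp).trans ?_
    have e1 : (A : ℝ) ≤ Real.exp A := by linarith [Real.add_one_le_exp (A : ℝ)]
    have e2 : (W : ℝ) ^ m ≤ Real.exp (m * W) := CoefLow_pow_exp _ hW0 m
    have e3 : ((N : ℝ) + 1) ^ A ≤ Real.exp (A * ((N : ℝ) + 1)) :=
      CoefLow_pow_exp _ (by linarith) A
    have e4 : ((m : ℝ) * W + 1) ^ N ≤ Real.exp (N * (m * W)) :=
      CoefLow_pow_exp' _ (by positivity) N
    calc ((A : ℝ) * (W : ℝ) ^ m) * (Real.exp h * (((N : ℝ) + 1) ^ A * ((m : ℝ) * W + 1) ^ N))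
        ≤ (Real.exp A * Real.exp (m * W)) * (Real.exp h * (Real.exp (A * ((N : ℝ) + 1)) *
          Real.exp (N * (m * W)))) := by
          gcongr
      _ = Real.exp (A + m * W + (h + (A * ((N : ℝ) + 1) + N * (m * W)))) := by
          rw [Real.exp_add, Real.exp_add, Real.exp_add, Real.exp_add]
      _ ≤ Real.exp t := by
          refine Real.exp_le_exp.2 ?_
          rw [ht, hB]
          have i1 : 0 ≤ (N : ℝ) * A := by positivity
          have i2 : 0 ≤ (m : ℝ) * A := by positivity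
          have i3 : 0 ≤ (N : ℝ) * W := by positivity
          have i4 : 0 ≤ (m : ℝ) * h := by positivity
          have i5 : 0 ≤ (N : ℝ) * h := by positivity
          have i6 : 0 ≤ (m : ℝ) * N * A := by positivity
          have i7 : 0 ≤ (m : ℝ) * N * h := by positivity
          nlinarith
  have hft := hFT (CoefLow_P p N) t (by linarith)
    (by
      have := CoefLow_deg p N
      calc ((CoefLow_P p N).totalDegree : ℝ) ≤ N := by exact_mod_cast this
        _ ≤ t := by linarith) hlen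
    (by
      rw [CoefLow_aeval]
      exact mul_ne_zero (by exact_mod_cast Nat.factorial_ne_zero N) hne)
  rw [CoefLow_aeval, norm_mul, Complex.norm_natCast] at hft
  have hfac : (N.factorial : ℝ) ≤ Real.exp ((N : ℝ) * N) := by
    have f1 : N.factorial ≤ N ^ N := Nat.factorial_le_pow N
    calc (N.factorial : ℝ) ≤ (N : ℝ) ^ N := by exact_mod_cast f1
      _ ≤ Real.exp (N * N) := CoefLow_pow_exp _ hN0 N
  have hfin : C0 * t ^ Q + (N : ℝ) * N ≤ (C0 * ((m : ℝ) + 3) ^ Q + 1) * B ^ (Q + 2) := by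
    have g1 : t ^ Q = ((m : ℝ) + 3) ^ Q * B ^ Q := by rw [ht, mul_pow]
    have g2 : B ^ Q ≤ B ^ (Q + 2) := pow_le_pow_right₀ hB0 (by omega)
    have g3 : (N : ℝ) * N ≤ B ^ (Q + 2) := by
      calc (N : ℝ) * N ≤ B * B := by nlinarith
        _ = B ^ 2 := by ring
        _ ≤ B ^ (Q + 2) := pow_le_pow_right₀ hB0 (by omega)
    have g4 : C0 * t ^ Q ≤ C0 * ((m : ℝ) + 3) ^ Q * B ^ (Q + 2) := by
      rw [g1]
      calc C0 * (((m : ℝ) + 3) ^ Q * B ^ Q) = C0 * ((m : ℝ) + 3) ^ Q * B ^ Q := by ring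
        _ ≤ C0 * ((m : ℝ) + 3) ^ Q * B ^ (Q + 2) := by gcongr
    linarith
  have hpos : 0 < ‖cN‖ := norm_pos_iff.2 hne
  have h1 : Real.exp (-(C0 * t ^ Q)) ≤ Real.exp ((N : ℝ) * N) * ‖cN‖ :=
    hft.trans (by gcongr)
  calc Real.exp (-((C0 * ((m : ℝ) + 3) ^ Q + 1) * B ^ (Q + 2)))
      ≤ Real.exp (-(C0 * t ^ Q) + -((N : ℝ) * N)) := Real.exp_le_exp.2 (by linarith)
    _ = Real.exp (-(C0 * t ^ Q)) * Real.exp (-((N : ℝ) * N)) := Real.exp_add _ _
    _ ≤ (Real.exp ((N : ℝ) * N) * ‖cN‖) * Real.exp (-((N : ℝ) * N)) := by gcongr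
    _ = ‖cN‖ := by
        rw [mul_comm (Real.exp ((N : ℝ) * N)), mul_assoc, ← Real.exp_add, add_neg_cancel,
          Real.exp_zero, mul_one]

end Pool.Agent.Work.MP_8da9ea_nt.S

end

section

/-!
# Theorem S, item FF: Siegel's lemma over a finitely generated field
-/

set_option autoImplicit false

namespace Pool.Agent.Work.MP_8da9ea_nt.S

open MvPolynomial Pool.Agent.Work.MP_327059_nt.GL

theorem FF_aC {n : Type} (y : n → ℂ) (z : ℤ) :
    aeval y (C z : MvPolynomial n ℤ) = (z : ℂ) := by simp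

theorem FF_den {n : Type} (y : n → ℂ) (P : MvPolynomial n ℚ) :
    ∃ b : ℤ, b ≠ 0 ∧ ∃ Q : MvPolynomial n ℤ, aeval y Q = (b : ℂ) * aeval y P := by
  induction P using MvPolynomial.induction_on with
  | C a =>
    refine ⟨a.den, by exact_mod_cast a.den_ne_zero, C a.num, ?_⟩
    have h : (a : ℂ) = (a.num : ℂ) / (a.den : ℂ) := by
      exact_mod_cast congrArg (Rat.cast : ℚ → ℂ) (Rat.num_div_den a).symm
    have hd : (a.den : ℂ) ≠ 0 := by exact_mod_cast a.den_ne_zero
    have h2 : aeval y (C a : MvPolynomial n ℚ) = (a : ℂ) := by simp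
    rw [h2, h, FF_aC]
    push_cast
    field_simp
  | add p q hp hq =>
    obtain ⟨b, hb, P, hP⟩ := hp
    obtain ⟨c, hc, Q, hQ⟩ := hq
    refine ⟨b * c, mul_ne_zero hb hc, C c * P + C b * Q, ?_⟩
    rw [map_add, map_mul, map_mul, hP, hQ, map_add, FF_aC, FF_aC]
    push_cast
    ring
  | mul_X p i hp =>
    obtain ⟨b, hb, P, hP⟩ := hp
    refine ⟨b, hb, P * X i, ?_⟩
    rw [map_mul, map_mul, hP, aeval_X, aeval_X]
    ring

/-- elements of `ℚ(th)` are quotients of values of integer polynomials -/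
theorem FF_frac {r : ℕ} (th : Fin r → ℂ) (f : ℂ)
    (hf : f ∈ IntermediateField.adjoin ℚ (Set.range th)) :
    ∃ A q : MvPolynomial (Fin r) ℤ, aeval th q ≠ 0 ∧ aeval th q * f = aeval th A := by
  obtain ⟨u, s, h⟩ := (IntermediateField.mem_adjoin_range_iff ℚ th f).1 hf
  by_cases hs : aeval th s = 0
  · refine ⟨0, 1, by simp, ?_⟩
    rw [h, hs]; simp
  · obtain ⟨b, hb, u', hu'⟩ := FF_den th u
    obtain ⟨c, hc, s', hs'⟩ := FF_den th s
    have hCb : aeval th (C b : MvPolynomial (Fin r) ℤ) = (b : ℂ) := by simp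
    have hCc : aeval th (C c : MvPolynomial (Fin r) ℤ) = (c : ℂ) := by simp
    refine ⟨C c * u', C b * s', ?_, ?_⟩
    · rw [map_mul, hs', hCb]
      have h1 : (b : ℂ) ≠ 0 := by exact_mod_cast hb
      have h2 : (c : ℂ) ≠ 0 := by exact_mod_cast hc
      exact mul_ne_zero h1 (mul_ne_zero h2 hs)
    · rw [map_mul, map_mul, hs', hu', h, hCb, hCc]
      field_simp

theorem FF_common {κ : Type} [Fintype κ] {r : ℕ} (th : Fin r → ℂ) (f : κ → ℂ)
    (hf : ∀ t, f t ∈ IntermediateField.adjoin ℚ (Set.range th)) :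
    ∃ q : MvPolynomial (Fin r) ℤ, aeval th q ≠ 0 ∧
      ∀ t, ∃ A : MvPolynomial (Fin r) ℤ, aeval th q * f t = aeval th A := by
  classical
  choose A q hq hA using fun t => FF_frac th (f t) (hf t)
  refine ⟨∏ t, q t, ?_, ?_⟩
  · rw [map_prod]
    exact Finset.prod_ne_zero_iff.2 fun t _ => hq t
  · intro t
    refine ⟨A t * ∏ u ∈ Finset.univ.erase t, q u, ?_⟩
    rw [map_mul, ← hA t, ← Finset.mul_prod_erase Finset.univ q (Finset.mem_univ t), map_mul]
    ring

theorem FF_setup {r : ℕ} {σ : Type} [Fintype σ] (th : Fin r → ℂ) (x : σ → ℂ)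
    (hx : ∀ i, AlgOver th (x i)) :
    ∃ (g : ℕ) (v : Fin g → ℂ) (K : Type) (_ : Field K) (ι : K →+* ℂ)
      (N : K →+* Matrix (Fin g) (Fin g) ℂ), 0 < g ∧ (∀ i, v i ≠ 0) ∧ (∀ i, ∃ y : K, ι y = x i) ∧
      (∀ y i j, N y i j ∈ IntermediateField.adjoin ℚ (Set.range th)) ∧
      ∀ y j, ∑ i, v i * N y i j = ι y * v j := by
  classical
  let F : IntermediateField ℚ ℂ := IntermediateField.adjoin ℚ (Set.range th)
  let E : IntermediateField F ℂ := IntermediateField.adjoin F (Set.range x)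
  have hfin : FiniteDimensional F E := by
    apply IntermediateField.finiteDimensional_adjoin
    rintro _ ⟨i, rfl⟩
    exact (hx i).isIntegral
  let b := Module.finBasis F E
  refine ⟨Module.finrank F E, fun i => (b i : ℂ), E, inferInstance, algebraMap E ℂ,
    ((algebraMap F ℂ).mapMatrix).comp (Algebra.leftMulMatrix b).toRingHom,
    Module.finrank_pos, ?_, ?_, ?_, ?_⟩
  · intro i h
    apply b.ne_zero i
    exact Subtype.ext h
  · intro i
    exact ⟨⟨x i, IntermediateField.subset_adjoin _ _ ⟨i, rfl⟩⟩, rfl⟩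
  · intro y i j
    exact ((Algebra.leftMulMatrix b y) i j).2
  · intro y j
    have h1 : y * b j = ∑ i, (Algebra.leftMulMatrix b y i j) • b i := by
      simp_rw [Algebra.leftMulMatrix_eq_repr_mul]
      exact (b.sum_repr (y * b j)).symm
    have h2 := congrArg (algebraMap E ℂ) h1
    rw [map_mul, map_sum] at h2
    have h3 : algebraMap E ℂ (b j) = (b j : ℂ) := rfl
    rw [h3] at h2
    rw [h2]
    apply Finset.sum_congr rfl
    intro i _
    rw [Algebra.smul_def, map_mul, mul_comm]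
    rfl

/-- the value `ξ` has a matrix of degree `≤ a D` and row length `≤ H c^D` -/
def FF_Val {r g : ℕ} (th : Fin r → ℂ) {K : Type} [Field K] (ι : K →+* ℂ)
    (N : K →+* Matrix (Fin g) (Fin g) ℂ) (q : MvPolynomial (Fin r) ℤ) (a : ℕ) (c : ℝ)
    (D : ℕ) (H : ℝ) (ξ : ℂ) : Prop :=
  0 ≤ H ∧ ∃ y : K, ι y = ξ ∧ ∃ A : Matrix (Fin g) (Fin g) (MvPolynomial (Fin r) ℤ),
    (∀ j k, aeval th q ^ D * N y j k = aeval th (A j k)) ∧
    (∀ j k, (A j k).totalDegree ≤ a * D) ∧ ∀ j, ∑ k, len (A j k) ≤ H * c ^ D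

section

variable {r g : ℕ} (th : Fin r → ℂ) {K : Type} [Field K] (ι : K →+* ℂ)
  (N : K →+* Matrix (Fin g) (Fin g) ℂ) (q : MvPolynomial (Fin r) ℤ) (a : ℕ) (c : ℝ)

theorem FF_len_zero {σ : Type} : len (0 : MvPolynomial σ ℤ) = 0 := by simp [len]

theorem FF_int (n : ℤ) : FF_Val th ι N q a c 0 |(n : ℝ)| (n : ℂ) := by
  classical
  refine ⟨abs_nonneg _, (n : K), by simp, fun j k => if j = k then C n else 0, ?_, ?_, ?_⟩
  · intro j k
    show _ = aeval th (if j = k then C n else 0)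
    rw [map_intCast, pow_zero, one_mul, Matrix.intCast_apply]
    by_cases hjk : j = k
    · rw [if_pos hjk, if_pos hjk]; simp
    · rw [if_neg hjk, if_neg hjk]; simp
  · intro j k
    show (if j = k then C n else (0 : MvPolynomial (Fin r) ℤ)).totalDegree ≤ _
    by_cases hjk : j = k
    · rw [if_pos hjk, totalDegree_C]; exact Nat.zero_le _
    · rw [if_neg hjk]; simp
  · intro j
    show ∑ k, len (if j = k then C n else (0 : MvPolynomial (Fin r) ℤ)) ≤ _
    rw [Finset.sum_eq_single j]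
    · simp only [if_true, pow_zero, mul_one]
      exact Val_len_C n
    · intro k _ hk
      rw [if_neg (Ne.symm hk), FF_len_zero]
    · intro h
      exact absurd (Finset.mem_univ _) h

variable {th ι N q a c}

theorem FF_add {D : ℕ} {H1 H2 : ℝ} {ξ1 ξ2 : ℂ} (ih1 : FF_Val th ι N q a c D H1 ξ1)
    (ih2 : FF_Val th ι N q a c D H2 ξ2) : FF_Val th ι N q a c D (H1 + H2) (ξ1 + ξ2) := by
  obtain ⟨hH1, y1, hy1, A1, h11, h12, h13⟩ := ih1
  obtain ⟨hH2, y2, hy2, A2, h21, h22, h23⟩ := ih2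
  refine ⟨add_nonneg hH1 hH2, y1 + y2, by rw [map_add, hy1, hy2], A1 + A2, ?_, ?_, ?_⟩
  · intro j k
    rw [map_add, Matrix.add_apply, Matrix.add_apply, mul_add, h11, h21, map_add]
  · intro j k
    rw [Matrix.add_apply]
    exact (totalDegree_add _ _).trans (max_le (h12 j k) (h22 j k))
  · intro j
    calc ∑ k, len ((A1 + A2) j k) ≤ ∑ k, (len (A1 j k) + len (A2 j k)) :=
          Finset.sum_le_sum fun k _ => Val_len_add _ _
      _ = ∑ k, len (A1 j k) + ∑ k, len (A2 j k) := Finset.sum_add_distrib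
      _ ≤ _ := by
          have := h13 j
          have := h23 j
          linarith

theorem FF_mul (hc : 1 ≤ c) {D1 D2 : ℕ} {H1 H2 : ℝ} {ξ1 ξ2 : ℂ}
    (ih1 : FF_Val th ι N q a c D1 H1 ξ1) (ih2 : FF_Val th ι N q a c D2 H2 ξ2) :
    FF_Val th ι N q a c (D1 + D2) (H1 * H2) (ξ1 * ξ2) := by
  have hc0 : 0 ≤ c := by linarith
  obtain ⟨hH1, y1, hy1, A1, h11, h12, h13⟩ := ih1
  obtain ⟨hH2, y2, hy2, A2, h21, h22, h23⟩ := ih2
  refine ⟨mul_nonneg hH1 hH2, y1 * y2, by rw [map_mul, hy1, hy2], A1 * A2, ?_, ?_, ?_⟩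
  · intro j k
    rw [map_mul, Matrix.mul_apply, Matrix.mul_apply, map_sum, Finset.mul_sum]
    apply Finset.sum_congr rfl
    intro l _
    rw [map_mul, ← h11, ← h21, pow_add]
    ring
  · intro j k
    rw [Matrix.mul_apply]
    refine totalDegree_finsetSum_le ?_
    intro l _
    refine (totalDegree_mul _ _).trans ?_
    rw [mul_add]
    exact add_le_add (h12 j l) (h22 l k)
  · intro j
    have hcD : 0 ≤ H2 * c ^ D2 := mul_nonneg hH2 (pow_nonneg hc0 _)
    calc ∑ k, len ((A1 * A2) j k) ≤ ∑ k, ∑ l, len (A1 j l) * len (A2 l k) := by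
          apply Finset.sum_le_sum
          intro k _
          rw [Matrix.mul_apply]
          exact (Val_len_sum _ _).trans (Finset.sum_le_sum fun l _ => Val_len_mul _ _)
      _ = ∑ l, len (A1 j l) * ∑ k, len (A2 l k) := by
          rw [Finset.sum_comm]
          exact Finset.sum_congr rfl fun l _ => (Finset.mul_sum _ _ _).symm
      _ ≤ ∑ l, len (A1 j l) * (H2 * c ^ D2) :=
          Finset.sum_le_sum fun l _ => mul_le_mul_of_nonneg_left (h23 l) (Val_len_nonneg _)
      _ = (∑ l, len (A1 j l)) * (H2 * c ^ D2) := (Finset.sum_mul _ _ _).symm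
      _ ≤ (H1 * c ^ D1) * (H2 * c ^ D2) := mul_le_mul_of_nonneg_right (h13 j) hcD
      _ = _ := by rw [pow_add]; ring

theorem FF_mono (hc : 1 ≤ c) (hq : len q ≤ c) (hqa : q.totalDegree ≤ a) {D1 D2 : ℕ} {H : ℝ}
    {ξ : ℂ} (hD : D1 ≤ D2) (ih : FF_Val th ι N q a c D1 H ξ) : FF_Val th ι N q a c D2 H ξ := by
  have hc0 : 0 ≤ c := by linarith
  obtain ⟨hH1, y, hy, A, h1, h2, h3⟩ := ih
  obtain ⟨m, rfl⟩ := Nat.exists_eq_add_of_le hD
  refine ⟨hH1, y, hy, fun j k => q ^ m * A j k, ?_, ?_, ?_⟩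
  · intro j k
    rw [map_mul, ← h1, map_pow, pow_add]
    ring
  · intro j k
    refine (totalDegree_mul _ _).trans ?_
    have h4 : (q ^ m).totalDegree ≤ a * m := by
      refine (totalDegree_pow _ _).trans ?_
      rw [mul_comm]
      exact Nat.mul_le_mul_right _ hqa
    have := h2 j k
    rw [mul_add]
    omega
  · intro j
    have h5 : len (q ^ m) ≤ c ^ m :=
      (Val_len_pow q m).trans (pow_le_pow_left₀ (Val_len_nonneg _) hq _)
    calc ∑ k, len (q ^ m * A j k) ≤ ∑ k, c ^ m * len (A j k) :=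
          Finset.sum_le_sum fun k _ => (Val_len_mul _ _).trans
            (mul_le_mul_of_nonneg_right h5 (Val_len_nonneg _))
      _ = c ^ m * ∑ k, len (A j k) := (Finset.mul_sum _ _ _).symm
      _ ≤ c ^ m * (H * c ^ D1) := mul_le_mul_of_nonneg_left (h3 j) (pow_nonneg hc0 _)
      _ = _ := by rw [pow_add]; ring

theorem FF_one : FF_Val th ι N q a c 0 1 1 := by
  have h := FF_int th ι N q a c 1
  simpa using h

theorem FF_pow (hc : 1 ≤ c) {D : ℕ} {ξ : ℂ} (h : FF_Val th ι N q a c D 1 ξ) (k : ℕ) :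
    FF_Val th ι N q a c (k * D) 1 (ξ ^ k) := by
  induction k with
  | zero => simpa using (FF_one (th := th) (ι := ι) (N := N) (q := q) (a := a) (c := c))
  | succ k ih =>
    have h2 := FF_mul hc ih h
    rw [pow_succ, Nat.succ_mul]
    simpa using h2

theorem FF_prod (hc : 1 ≤ c) {σ : Type} (x : σ → ℂ)
    (hvar : ∀ i, FF_Val th ι N q a c 1 1 (x i)) (m : σ → ℕ) (s : Finset σ) :
    FF_Val th ι N q a c (∑ i ∈ s, m i) 1 (∏ i ∈ s, x i ^ m i) := by
  classical
  induction s using Finset.induction_on with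
  | empty => simpa using (FF_one (th := th) (ι := ι) (N := N) (q := q) (a := a) (c := c))
  | insert i s hi ih =>
    rw [Finset.sum_insert hi, Finset.prod_insert hi]
    have h1 := FF_pow hc (hvar i) (m i)
    rw [mul_one] at h1
    have h2 := FF_mul hc h1 ih
    simpa using h2

theorem FF_sum {κ : Type} {D : ℕ} (H : κ → ℝ) (ξ : κ → ℂ) (s : Finset κ)
    (hc : 1 ≤ c) (hq : len q ≤ c) (hqa : q.totalDegree ≤ a)
    (h : ∀ i ∈ s, FF_Val th ι N q a c D (H i) (ξ i)) :
    FF_Val th ι N q a c D (∑ i ∈ s, H i) (∑ i ∈ s, ξ i) := by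
  classical
  induction s using Finset.induction_on with
  | empty =>
    have h0 := FF_int th ι N q a c 0
    have h1 := FF_mono hc hq hqa (Nat.zero_le D) h0
    simpa using h1
  | insert i s hi ih =>
    rw [Finset.sum_insert hi, Finset.sum_insert hi]
    exact FF_add (h i (Finset.mem_insert_self _ _))
      (ih fun j hj => h j (Finset.mem_insert_of_mem hj))

theorem FF_poly {σ : Type} (x : σ → ℂ) (hc : 1 ≤ c) (hq : len q ≤ c) (hqa : q.totalDegree ≤ a)
    (hvar : ∀ i, FF_Val th ι N q a c 1 1 (x i)) (P : MvPolynomial σ ℤ) {D : ℕ}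
    (hP : P.totalDegree ≤ D) : FF_Val th ι N q a c D (len P) (aeval x P) := by
  have h1 : aeval x P = ∑ m ∈ P.support, ((P.coeff m : ℤ) : ℂ) * ∏ i ∈ m.support, x i ^ m i := by
    rw [MvPolynomial.aeval_def, MvPolynomial.eval₂_eq]
    rfl
  rw [h1]
  unfold len
  refine FF_sum _ _ _ hc hq hqa ?_
  intro m hm
  have h2 := FF_mul hc (FF_int th ι N q a c (P.coeff m))
    (FF_prod hc x hvar m m.support)
  rw [mul_one, zero_add] at h2
  refine FF_mono hc hq hqa ?_ h2
  have h3 := MvPolynomial.le_totalDegree hm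
  exact h3.trans hP

end

theorem FF_coeff {σ : Type} (P : MvPolynomial σ ℤ) (e : σ →₀ ℕ) :
    |((P.coeff e : ℤ) : ℝ)| ≤ len P := by
  classical
  by_cases he : e ∈ P.support
  · exact Finset.single_le_sum (f := fun m => |((P.coeff m : ℤ) : ℝ)|)
      (fun _ _ => abs_nonneg _) he
  · rw [notMem_support_iff.1 he]
    simpa using Val_len_nonneg P

attribute [local instance] Matrix.seminormedAddCommGroup

/-- Siegel's lemma, the exponent is at most `1` -/
theorem FF_siegel {α β : Type} [Fintype α] [Fintype β] (A : Matrix α β ℤ) (B : ℝ) (hB : 1 ≤ B)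
    (hA : ∀ i j, |(A i j : ℝ)| ≤ B) (hm : 0 < Fintype.card α)
    (hn : 2 * Fintype.card α ≤ Fintype.card β) :
    ∃ t : β → ℤ, t ≠ 0 ∧ A.mulVec t = 0 ∧ ∀ j, |(t j : ℝ)| ≤ Fintype.card β * B := by
  classical
  obtain ⟨t, ht0, ht1, ht2⟩ := Int.Matrix.exists_ne_zero_int_vec_norm_le A
    (by omega : Fintype.card α < Fintype.card β) hm
  refine ⟨t, ht0, ht1, ?_⟩
  intro j
  have h1 : |(t j : ℝ)| ≤ ‖t‖ := by
    have := norm_le_pi_norm t j
    rwa [Int.norm_eq_abs] at this
  have hA2 : ‖A‖ ≤ B := by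
    rw [Matrix.norm_le_iff (by linarith)]
    intro i j
    rw [Int.norm_eq_abs]
    exact hA i j
  have hmax : max 1 ‖A‖ ≤ B := max_le hB hA2
  have hmR : (0 : ℝ) < (Fintype.card α : ℝ) := by exact_mod_cast hm
  have hnR : 2 * (Fintype.card α : ℝ) ≤ (Fintype.card β : ℝ) := by exact_mod_cast hn
  have hb : (1 : ℝ) ≤ (Fintype.card β : ℝ) * max 1 ‖A‖ := by
    have h2 : (1 : ℝ) ≤ (Fintype.card β : ℝ) := by
      have : 1 ≤ Fintype.card β := by omega
      exact_mod_cast this
    exact one_le_mul_of_one_le_of_one_le h2 (le_max_left _ _)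
  have he : ((Fintype.card α : ℝ) / ((Fintype.card β : ℝ) - (Fintype.card α : ℝ))) ≤ 1 := by
    rw [div_le_one (by linarith)]
    linarith
  calc |(t j : ℝ)| ≤ ‖t‖ := h1
    _ ≤ _ := ht2
    _ ≤ ((Fintype.card β : ℝ) * max 1 ‖A‖) ^ (1 : ℝ) := Real.rpow_le_rpow_of_exponent_le hb he
    _ = (Fintype.card β : ℝ) * max 1 ‖A‖ := Real.rpow_one _
    _ ≤ _ := mul_le_mul_of_nonneg_left hmax (Nat.cast_nonneg _)

theorem pr_FF : S_FF := by
  classical
  intro σ _ τ θ hθ
  obtain ⟨r, s, hs, halg⟩ := pr_TrBasis σ θ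
  have hr : r ≤ τ := by
    by_contra h
    push Not at h
    exact hθ (fun i => s (Fin.castLE h i)) (hs.comp (Fin.castLE h) (Fin.castLE_injective h))
  set th : Fin r → ℂ := fun i => θ (s i) with hth
  obtain ⟨g, v, K, _, ι, N, hg, hv, hι, hN, hmul⟩ := FF_setup th θ halg
  choose y hy using hι
  obtain ⟨q, hq, hA⟩ := FF_common th (fun t : σ × Fin g × Fin g => N (y t.1) t.2.1 t.2.2)
    (fun t => hN _ _ _)
  choose A hA using hA
  -- constants
  obtain ⟨a, ha1, ha2⟩ : ∃ a : ℕ, q.totalDegree ≤ a ∧ ∀ t, (A t).totalDegree ≤ a := by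
    refine ⟨q.totalDegree + ∑ t, (A t).totalDegree, by omega, fun t => ?_⟩
    have := Finset.single_le_sum (f := fun t => (A t).totalDegree) (fun _ _ => Nat.zero_le _)
      (Finset.mem_univ t)
    omega
  obtain ⟨c, hc1, hc2, hc3⟩ : ∃ c : ℝ, 1 ≤ c ∧ len q ≤ c ∧
      ∀ i j, ∑ k, len (A (i, j, k)) ≤ c := by
    have h0 : 0 ≤ ∑ i, ∑ j, ∑ k, len (A (i, j, k)) :=
      Finset.sum_nonneg fun _ _ => Finset.sum_nonneg fun _ _ => Finset.sum_nonneg fun _ _ =>
        Val_len_nonneg _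
    have h1 := Val_len_nonneg q
    refine ⟨1 + len q + ∑ i, ∑ j, ∑ k, len (A (i, j, k)), by linarith, by linarith, ?_⟩
    intro i j
    have h2 : ∑ k, len (A (i, j, k)) ≤ ∑ j, ∑ k, len (A (i, j, k)) :=
      Finset.single_le_sum (f := fun j => ∑ k, len (A (i, j, k)))
        (fun _ _ => Finset.sum_nonneg fun _ _ => Val_len_nonneg _) (Finset.mem_univ j)
    have h3 : ∑ j, ∑ k, len (A (i, j, k)) ≤ ∑ i, ∑ j, ∑ k, len (A (i, j, k)) :=
      Finset.single_le_sum (f := fun i => ∑ j, ∑ k, len (A (i, j, k)))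
        (fun _ _ => Finset.sum_nonneg fun _ _ => Finset.sum_nonneg fun _ _ => Val_len_nonneg _)
        (Finset.mem_univ i)
    linarith
  have hvar : ∀ i, FF_Val th ι N q a c 1 1 (θ i) := by
    intro i
    refine ⟨zero_le_one, y i, hy i, fun j k => A (i, j, k), fun j k => ?_, fun j k => ?_,
      fun j => ?_⟩
    · rw [pow_one]
      exact hA (i, j, k)
    · rw [mul_one]
      exact ha2 _
    · rw [pow_one, one_mul]
      exact hc3 i j
  obtain ⟨C, hC1, hCc, hCg⟩ : ∃ C : ℕ, 1 ≤ C ∧ c ≤ C ∧ 2 * (g * g * (a + 1) ^ τ) ≤ C := by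
    refine ⟨1 + ⌈c⌉₊ + 2 * (g * g * (a + 1) ^ τ), by omega, ?_, by omega⟩
    have h1 : c ≤ (⌈c⌉₊ : ℝ) := Nat.le_ceil c
    have h2 : (⌈c⌉₊ : ℝ) ≤ ((1 + ⌈c⌉₊ + 2 * (g * g * (a + 1) ^ τ) : ℕ) : ℝ) := by
      exact_mod_cast (by omega : ⌈c⌉₊ ≤ 1 + ⌈c⌉₊ + 2 * (g * g * (a + 1) ^ τ))
    linarith
  refine ⟨C, hC1, ?_⟩
  intro Λ _ D H P hH hPD hPH hcard
  have hval := fun l => FF_poly θ hc1 hc2 ha1 hvar (P l) (hPD l)
  choose hl0 Y hY M hM1 hM2 hM3 using hval
  -- the linear system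
  let B : Matrix (Fin g × Fin g × (Fin r → Fin (a * D + 1))) Λ ℤ :=
    fun t l => (M l t.1 t.2.1).coeff (Finsupp.equivFunOnFinite.symm fun i => (t.2.2 i : ℕ))
  have hBα : Fintype.card (Fin g × Fin g × (Fin r → Fin (a * D + 1))) =
      g * (g * (a * D + 1) ^ r) := by
    simp [Fintype.card_prod]
  have hαpos : 0 < Fintype.card (Fin g × Fin g × (Fin r → Fin (a * D + 1))) := by
    rw [hBα]
    positivity
  have hpow : (a * D + 1) ^ r ≤ (a + 1) ^ τ * (D + 1) ^ τ := by
    rw [← mul_pow]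
    calc (a * D + 1) ^ r ≤ (a * D + 1) ^ τ := Nat.pow_le_pow_right (by omega) hr
      _ ≤ ((a + 1) * (D + 1)) ^ τ := Nat.pow_le_pow_left (by nlinarith) _
  have hcardα : 2 * Fintype.card (Fin g × Fin g × (Fin r → Fin (a * D + 1))) ≤
      Fintype.card Λ := by
    rw [hBα]
    calc 2 * (g * (g * (a * D + 1) ^ r)) ≤ 2 * (g * (g * ((a + 1) ^ τ * (D + 1) ^ τ))) := by
          gcongr
      _ = 2 * (g * g * (a + 1) ^ τ) * (D + 1) ^ τ := by ring
      _ ≤ C * (D + 1) ^ τ := Nat.mul_le_mul_right _ hCg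
      _ ≤ _ := hcard
  have hc0 : 0 ≤ c := by linarith
  have hlenM : ∀ l j k, len (M l j k) ≤ H * c ^ D := by
    intro l j k
    have h1 : len (M l j k) ≤ ∑ k, len (M l j k) :=
      Finset.single_le_sum (f := fun k => len (M l j k)) (fun _ _ => Val_len_nonneg _)
        (Finset.mem_univ k)
    exact h1.trans ((hM3 l j).trans (mul_le_mul_of_nonneg_right (hPH l) (pow_nonneg hc0 _)))
  have hHc : (1 : ℝ) ≤ H * c ^ D := one_le_mul_of_one_le_of_one_le hH (one_le_pow₀ hc1)
  obtain ⟨p, hp0, hp1, hp2⟩ := FF_siegel B (H * c ^ D) hHc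
    (fun t l => (FF_coeff _ _).trans (hlenM l t.1 t.2.1)) hαpos hcardα
  refine ⟨p, hp0, ?_, ?_⟩
  · intro l
    refine (hp2 l).trans ?_
    refine mul_le_mul_of_nonneg_left ?_ (Nat.cast_nonneg _)
    refine mul_le_mul_of_nonneg_left ?_ (by linarith)
    have hC1' : (1 : ℝ) ≤ C := by exact_mod_cast hC1
    calc c ^ D ≤ (C : ℝ) ^ D := pow_le_pow_left₀ hc0 hCc _
      _ ≤ (C : ℝ) ^ (D + 1) := pow_le_pow_right₀ hC1' (Nat.le_succ D)
  · -- the matrix of the sum vanishes
    have hzero : ∀ j k, ∑ l, MvPolynomial.C (p l) * M l j k = 0 := by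
      intro j k
      ext e
      rw [MvPolynomial.coeff_sum, MvPolynomial.coeff_zero]
      simp only [MvPolynomial.coeff_C_mul]
      by_cases he : ∀ i, e i < a * D + 1
      · have h1 := congrFun hp1 (j, k, fun i => ⟨e i, he i⟩)
        have h2 : (Finsupp.equivFunOnFinite.symm
            fun i : Fin r => (((⟨e i, he i⟩ : Fin (a * D + 1)) : ℕ))) = e := by
          ext i
          rfl
        have h3 : (B.mulVec p) (j, k, fun i => ⟨e i, he i⟩) = ∑ l, (M l j k).coeff e * p l := by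
          show ∑ l, B (j, k, fun i => ⟨e i, he i⟩) l * p l = _
          refine Finset.sum_congr rfl ?_
          intro l _
          show (M l j k).coeff _ * p l = _
          rw [h2]
        rw [h3] at h1
        rw [Pi.zero_apply] at h1
        rw [← h1]
        exact Finset.sum_congr rfl fun l _ => mul_comm _ _
      · push Not at he
        obtain ⟨i, hi⟩ := he
        refine Finset.sum_eq_zero ?_
        intro l _
        have h4 : (M l j k).coeff e = 0 := by
          by_contra h5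
          have h6 : e ∈ (M l j k).support := mem_support_iff.2 h5
          have h7 := (MvPolynomial.le_totalDegree h6).trans (hM2 l j k)
          have h8 : e i ≤ e.sum fun _ n => n := by
            by_cases hei : e i = 0
            · rw [hei]; exact Nat.zero_le _
            · exact Finset.single_le_sum (f := fun i => e i) (fun _ _ => Nat.zero_le _)
                (Finsupp.mem_support_iff.2 hei)
          omega
        rw [h4, mul_zero]
    set z : K := ∑ l, (p l : K) * Y l with hz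
    have hNz : N z = 0 := by
      ext j k
      have h1 : aeval th q ^ D * N z j k = 0 := by
        have h2 : N z j k = ∑ l, (p l : ℂ) * N (Y l) j k := by
          rw [hz, map_sum, Matrix.sum_apply]
          refine Finset.sum_congr rfl ?_
          intro l _
          rw [map_mul, map_intCast]
          have h3 : ((p l : ℤ) : Matrix (Fin g) (Fin g) ℂ) * N (Y l) =
              (p l : ℤ) • N (Y l) := by
            rw [zsmul_eq_mul]
          rw [h3, Matrix.smul_apply, zsmul_eq_mul]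
        rw [h2, Finset.mul_sum]
        have h4 : ∀ l ∈ (Finset.univ : Finset Λ), aeval th q ^ D * ((p l : ℂ) * N (Y l) j k) =
            aeval th (MvPolynomial.C (p l) * M l j k) := by
          intro l _
          rw [map_mul, FF_aC, ← hM1 l j k]
          ring
        rw [Finset.sum_congr rfl h4, ← map_sum, hzero, map_zero]
      exact (mul_eq_zero.1 h1).resolve_left (pow_ne_zero _ hq)
    have hιz : ι z = 0 := by
      have h1 := hmul z ⟨0, hg⟩
      rw [hNz] at h1
      simp only [Matrix.zero_apply, mul_zero, Finset.sum_const_zero] at h1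
      exact (mul_eq_zero.1 h1.symm).resolve_right (hv _)
    rw [← hιz, hz, map_sum]
    refine Finset.sum_congr rfl ?_
    intro l _
    rw [map_mul, map_intCast, hY]

end Pool.Agent.Work.MP_8da9ea_nt.S

end

section

/-!
# X02: finite type gives a subexponential measure of linear independence
-/

set_option autoImplicit false

namespace Pool.Agent.Work.MP_8da9ea_nt.S

open MvPolynomial Pool.Agent.Work.MP_327059_nt.GL

/-- the linear form as a polynomial -/
noncomputable def FTLM_P {m : ℕ} (w : Fin m → ℤ) : MvPolynomial (Fin m) ℤ :=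
  ∑ j, C (w j) * X j

theorem FTLM_aeval {m : ℕ} (w : Fin m → ℤ) (b : Fin m → ℂ) :
    aeval b (FTLM_P w) = ∑ j, (w j : ℂ) * b j := by
  rw [FTLM_P, map_sum]
  refine Finset.sum_congr rfl fun j _ => ?_
  rw [map_mul, aeval_X, aeval_C]
  simp

theorem FTLM_deg {m : ℕ} (w : Fin m → ℤ) : (FTLM_P w).totalDegree ≤ 1 := by
  refine totalDegree_finsetSum_le fun j _ => ?_
  refine (totalDegree_mul _ _).trans ?_
  rw [totalDegree_C, totalDegree_X]

theorem FTLM_len {m : ℕ} (w : Fin m → ℤ) (B : ℝ) (hB : ∀ j, |(w j : ℝ)| ≤ B) :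
    len (FTLM_P w) ≤ m * B := by
  have h1 := Val_len_sum Finset.univ (fun j => (C (w j) * X j : MvPolynomial (Fin m) ℤ))
  refine h1.trans ?_
  have h2 : ∀ j ∈ (Finset.univ : Finset (Fin m)),
      len (C (w j) * X j : MvPolynomial (Fin m) ℤ) ≤ B := by
    intro j _
    refine (Val_len_mul _ _).trans ?_
    have e1 := Val_len_C (σ := Fin m) (w j)
    have e2 := Val_len_X (σ := Fin m) j
    have e3 := Val_len_nonneg (X j : MvPolynomial (Fin m) ℤ)
    calc len (C (w j) : MvPolynomial (Fin m) ℤ) * len (X j : MvPolynomial (Fin m) ℤ)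
        ≤ |(w j : ℝ)| * 1 := mul_le_mul e1 e2 e3 (abs_nonneg _)
      _ ≤ B := by rw [mul_one]; exact hB j
  refine (Finset.sum_le_sum h2).trans ?_
  rw [Finset.sum_const, Finset.card_univ, Fintype.card_fin, nsmul_eq_mul]

theorem FTLM_ne {m : ℕ} (w : Fin m → ℤ) (b : Fin m → ℂ) (hb : LinearIndependent ℚ b)
    (hw : w ≠ 0) : ∑ j, (w j : ℂ) * b j ≠ 0 := by
  intro h
  apply hw
  have h2 := Fintype.linearIndependent_iff.mp hb (fun j => (w j : ℚ)) (by
    rw [← h]
    refine Finset.sum_congr rfl fun j _ => ?_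
    rw [Rat.smul_def]
    push_cast
    rfl)
  funext j
  have := h2 j
  exact_mod_cast this

theorem FTLM_lim (Q : ℕ) (C K : ℝ) (hC : 1 ≤ C) (hK : 1 ≤ K) :
    ∃ T₀ : ℕ, ∀ T : ℕ, T₀ ≤ T → C * (K * Real.log T) ^ Q ≤ T := by
  have h1 : (fun x : ℝ => Real.log x ^ Q) =o[Filter.atTop] id := Real.isLittleO_pow_log_id_atTop
  have hpos : 0 < 1 / (C * K ^ Q) := by positivity
  have h2 := (h1.def hpos)
  have h3 := tendsto_natCast_atTop_atTop (R := ℝ) |>.eventually h2
  obtain ⟨T₀, hT₀⟩ := Filter.eventually_atTop.mp h3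
  refine ⟨max T₀ 1, fun T hT => ?_⟩
  have h4 := hT₀ T ((le_max_left _ _).trans hT)
  have hT1 : (1 : ℝ) ≤ T := by exact_mod_cast (le_max_right _ _).trans hT
  have hlog : 0 ≤ Real.log T := Real.log_nonneg hT1
  rw [Real.norm_of_nonneg (pow_nonneg hlog Q)] at h4
  simp only [id_eq] at h4
  rw [Real.norm_of_nonneg (by linarith)] at h4
  calc C * (K * Real.log T) ^ Q = (C * K ^ Q) * Real.log T ^ Q := by rw [mul_pow]; ring
    _ ≤ (C * K ^ Q) * (1 / (C * K ^ Q) * T) := mul_le_mul_of_nonneg_left h4 (by positivity)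
    _ = T := by field_simp

theorem pr_FTLM : S_FTLM := by
  intro Q m b hFT hb c
  obtain ⟨C, hC, h⟩ := hFT
  have hlm : 0 ≤ Real.log ((m : ℝ) + 1) := Real.log_nonneg (by
    have : (0 : ℝ) ≤ m := by positivity
    linarith)
  have hc0 : (0 : ℝ) ≤ c := by positivity
  obtain ⟨T₀, hT₀⟩ := FTLM_lim Q C (1 + Real.log ((m : ℝ) + 1) + c) hC (by linarith)
  refine ⟨max T₀ 3, fun T hT w hw hwb => ?_⟩
  have hT3 : 3 ≤ T := (le_max_right _ _).trans hT
  have hT3' : (3 : ℝ) ≤ T := by exact_mod_cast hT3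
  have hTpos : (0 : ℝ) < T := by linarith
  have hlog1 : 1 ≤ Real.log T := by
    rw [Real.le_log_iff_exp_le hTpos]
    have := Real.exp_one_lt_d9
    linarith
  have hlim := hT₀ T ((le_max_left _ _).trans hT)
  set t : ℝ := 1 + Real.log ((m : ℝ) + 1) + c * Real.log T with ht
  have ht1 : 1 ≤ t := by
    have : 0 ≤ (c : ℝ) * Real.log T := by positivity
    linarith
  have htK : t ≤ (1 + Real.log ((m : ℝ) + 1) + c) * Real.log T := by
    have e1 : 1 + Real.log ((m : ℝ) + 1) ≤ (1 + Real.log ((m : ℝ) + 1)) * Real.log T :=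
      le_mul_of_one_le_right (by linarith) hlog1
    rw [ht]
    nlinarith
  have hne := FTLM_ne w b hb hw
  have key := h (FTLM_P w) t ht1 (by
    have : ((FTLM_P w).totalDegree : ℝ) ≤ 1 := by exact_mod_cast FTLM_deg w
    linarith) (by
    have hl := FTLM_len w ((T : ℝ) ^ c) (fun j => by
      have := hwb j
      have h2 : ((|w j| : ℤ) : ℝ) ≤ (((T ^ c : ℕ) : ℤ) : ℝ) := by exact_mod_cast this
      rw [Int.cast_abs] at h2
      refine h2.trans ?_
      push_cast
      rfl)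
    refine hl.trans ?_
    have hTc : (0 : ℝ) < (T : ℝ) ^ c := by positivity
    have e1 : Real.exp t = Real.exp 1 * ((m : ℝ) + 1) * (T : ℝ) ^ c := by
      rw [ht, Real.exp_add, Real.exp_add, Real.exp_log (by positivity), ← Real.log_pow,
        Real.exp_log hTc]
    rw [e1]
    have e2 : (1 : ℝ) ≤ Real.exp 1 := Real.one_le_exp (by norm_num)
    have e3 : (m : ℝ) ≤ Real.exp 1 * ((m : ℝ) + 1) := by
      have : (0 : ℝ) ≤ m := by positivity
      nlinarith
    exact mul_le_mul_of_nonneg_right e3 hTc.le) (by rw [FTLM_aeval]; exact hne)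
  rw [FTLM_aeval] at key
  refine le_trans ?_ key
  apply Real.exp_le_exp.mpr
  apply neg_le_neg
  refine le_trans ?_ hlim
  apply mul_le_mul_of_nonneg_left _ (by linarith)
  exact pow_le_pow_left₀ (by linarith) htK Q

end Pool.Agent.Work.MP_8da9ea_nt.S

end

section

/-!
# Item X01 (`S_FTalg`): algebraic numbers have finite transcendence type
-/

set_option autoImplicit false

namespace Pool.Agent.Work.MP_8da9ea_nt.S

open MvPolynomial Pool.Agent.Work.MP_327059_nt Pool.Agent.Work.MP_327059_nt.GL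

theorem FTalg_one {m : ℕ} (b : Fin m → ℂ) : AA.IsVal b 0 1 1 := by
  have h := AA.IsVal.int (x := b) 1
  simpa using h

theorem FTalg_pow {m : ℕ} (b : Fin m → ℂ) (i : Fin m) (k : ℕ) : AA.IsVal b k 1 (b i ^ k) := by
  induction k with
  | zero => simpa using FTalg_one b
  | succ k ih =>
    have h := AA.IsVal.mul ih (AA.IsVal.var (x := b) i)
    rw [one_mul, ← pow_succ] at h
    exact h

theorem FTalg_prod {m : ℕ} (b : Fin m → ℂ) (e : Fin m →₀ ℕ) (s : Finset (Fin m)) :
    AA.IsVal b (∑ i ∈ s, e i) 1 (∏ i ∈ s, b i ^ e i) := by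
  classical
  induction s using Finset.induction_on with
  | empty => simpa using FTalg_one b
  | insert a s ha ih =>
    rw [Finset.sum_insert ha, Finset.prod_insert ha]
    have h := AA.IsVal.mul (FTalg_pow b a (e a)) ih
    rw [one_mul] at h
    exact h

theorem FTalg_sum {m : ℕ} (b : Fin m → ℂ) (P : MvPolynomial (Fin m) ℤ) (D : ℕ)
    (s : Finset (Fin m →₀ ℕ)) (hs : ∀ e ∈ s, e.sum (fun _ k => k) ≤ D) :
    AA.IsVal b D (∑ e ∈ s, |((P.coeff e : ℤ) : ℝ)|)
      (∑ e ∈ s, ((P.coeff e : ℤ) : ℂ) * ∏ i ∈ e.support, b i ^ e i) := by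
  classical
  induction s using Finset.induction_on with
  | empty =>
    have h := AA.IsVal.int (x := b) 0
    have h' := AA.IsVal.mono (D' := D) (H' := 0) (Nat.zero_le D) (by simp) h
    simpa using h'
  | insert a s ha ih =>
    rw [Finset.sum_insert ha, Finset.sum_insert ha]
    refine AA.IsVal.add ?_ (ih fun e he => hs e (Finset.mem_insert_of_mem he))
    have h := AA.IsVal.mul (AA.IsVal.int (x := b) (P.coeff a)) (FTalg_prod b a a.support)
    rw [zero_add, mul_one] at h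
    exact AA.IsVal.mono (hs a (Finset.mem_insert_self a s)) le_rfl h

theorem FTalg_isVal {m : ℕ} (b : Fin m → ℂ) (P : MvPolynomial (Fin m) ℤ) :
    AA.IsVal b P.totalDegree (len P) (aeval b P) := by
  have h := FTalg_sum b P P.totalDegree P.support (fun e he => le_totalDegree he)
  have h2 : aeval b P =
      ∑ e ∈ P.support, ((P.coeff e : ℤ) : ℂ) * ∏ i ∈ e.support, b i ^ e i := by
    conv_lhs => rw [P.as_sum, map_sum]
    refine Finset.sum_congr rfl fun e _ => ?_
    rw [aeval_monomial]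
    simp [Finsupp.prod]
  rw [h2]
  exact h

theorem pr_FTalg : S_FTalg := by
  intro m b hb
  obtain ⟨C, hC, hL⟩ := AA.pr_Liou (AA.pr_NL (AA.pr_Cramer AA.pr_DetRow)) m b hb
  refine ⟨3 * C, by linarith, fun P t ht hD hlen h0 => ?_⟩
  have hH : (1 : ℝ) ≤ Real.exp t := Real.one_le_exp (by linarith)
  have h1 := hL P.totalDegree (Real.exp t) _ hH
    (AA.IsVal.mono le_rfl hlen (FTalg_isVal b P)) h0
  rw [Real.log_exp] at h1
  have h2 : C * ((P.totalDegree : ℝ) + 1 + t) ≤ 3 * C * t ^ 1 := by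
    rw [pow_one]
    nlinarith
  have h3 : 1 ≤ ‖aeval b P‖ * Real.exp (3 * C * t ^ 1) :=
    h1.trans (mul_le_mul_of_nonneg_left (Real.exp_le_exp.2 h2) (norm_nonneg _))
  rw [Real.exp_neg, inv_le_iff_one_le_mul₀ (Real.exp_pos _)]
  linarith

end Pool.Agent.Work.MP_8da9ea_nt.S

end

section

/-!
# Item FTdiv: finite type of the normalised tuple
-/

set_option autoImplicit false

namespace Pool.Agent.Work.MP_8da9ea_nt.S

open MvPolynomial Pool.Agent.Work.MP_327059_nt.GL

/-- homogenisation with the variable `j0` -/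
noncomputable def FTdivH {m : ℕ} (j0 : Fin m) (P : MvPolynomial (Fin m) ℤ) :
    MvPolynomial (Fin m) ℤ :=
  ∑ μ ∈ P.support, monomial μ (P.coeff μ) * X j0 ^ (P.totalDegree - μ.sum fun _ e => e)

theorem FTdiv_deg {m : ℕ} (j0 : Fin m) (P : MvPolynomial (Fin m) ℤ) :
    (FTdivH j0 P).totalDegree ≤ P.totalDegree := by
  refine totalDegree_finsetSum_le (fun μ hμ => ?_)
  have h1 : (μ.sum fun _ e => e) ≤ P.totalDegree := le_totalDegree hμ
  have h2 : (monomial μ (P.coeff μ) : MvPolynomial (Fin m) ℤ).totalDegree ≤ μ.sum fun _ e => e :=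
    totalDegree_monomial_le _ _
  have h3 : ((X j0 : MvPolynomial (Fin m) ℤ) ^ (P.totalDegree - μ.sum fun _ e => e)).totalDegree ≤
      P.totalDegree - μ.sum fun _ e => e := by
    rw [totalDegree_X_pow]
  have h4 := totalDegree_mul (monomial μ (P.coeff μ) : MvPolynomial (Fin m) ℤ)
    (X j0 ^ (P.totalDegree - μ.sum fun _ e => e))
  omega

theorem FTdiv_len {m : ℕ} (j0 : Fin m) (P : MvPolynomial (Fin m) ℤ) :
    len (FTdivH j0 P) ≤ len P := by
  refine (Val_len_sum _ _).trans ?_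
  unfold len
  refine Finset.sum_le_sum (fun μ _ => ?_)
  refine (Val_len_mul _ _).trans ?_
  have h1 := Val_len_monomial μ (P.coeff μ)
  have h2 : len ((X j0 : MvPolynomial (Fin m) ℤ) ^ (P.totalDegree - μ.sum fun _ e => e)) ≤ 1 :=
    (Val_len_pow _ _).trans (pow_le_one₀ (Val_len_nonneg _) (Val_len_X j0))
  calc len (monomial μ (P.coeff μ) : MvPolynomial (Fin m) ℤ) *
        len ((X j0 : MvPolynomial (Fin m) ℤ) ^ (P.totalDegree - μ.sum fun _ e => e))
      ≤ |((P.coeff μ : ℤ) : ℝ)| * 1 :=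
        mul_le_mul h1 h2 (Val_len_nonneg _) (abs_nonneg _)
    _ = |((P.coeff μ : ℤ) : ℝ)| := mul_one _

theorem FTdiv_aeval {m : ℕ} (j0 : Fin m) (P : MvPolynomial (Fin m) ℤ) (b : Fin m → ℂ)
    (hb : b j0 ≠ 0) :
    aeval b (FTdivH j0 P) = b j0 ^ P.totalDegree * aeval (fun j => b j / b j0) P := by
  have h0 : aeval (fun j => b j / b j0) P = ∑ μ ∈ P.support,
      aeval (fun j => b j / b j0) (monomial μ (P.coeff μ) : MvPolynomial (Fin m) ℤ) := by
    conv_lhs => rw [P.as_sum]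
    rw [map_sum]
  rw [h0, FTdivH, map_sum, Finset.mul_sum]
  refine Finset.sum_congr rfl (fun μ hμ => ?_)
  have h1 : (μ.sum fun _ e => e) ≤ P.totalDegree := le_totalDegree hμ
  rw [map_mul, aeval_monomial, aeval_monomial, map_pow, aeval_X]
  have h2 : (μ.prod fun i k => (b i / b j0) ^ k) =
      (μ.prod fun i k => b i ^ k) / b j0 ^ (μ.sum fun _ e => e) := by
    simp only [Finsupp.prod, Finsupp.sum, div_pow, Finset.prod_div_distrib,
      Finset.prod_pow_eq_pow_sum]
  have h3 : b j0 ^ P.totalDegree = b j0 ^ (P.totalDegree - μ.sum fun _ e => e) *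
      b j0 ^ (μ.sum fun _ e => e) := by
    rw [← pow_add, Nat.sub_add_cancel h1]
  rw [h2, h3]
  have h4 : b j0 ^ (μ.sum fun _ e => e) ≠ 0 := pow_ne_zero _ hb
  field_simp

theorem pr_FTdiv : S_FTdiv := by
  intro Q m b j0 hb hF
  obtain ⟨C, hC1, hC⟩ := hF
  obtain ⟨M, hM⟩ : ∃ M : ℝ, M = max 1 ‖b j0‖ := ⟨_, rfl⟩
  have hM1 : 1 ≤ M := by rw [hM]; exact le_max_left _ _
  have hbM : ‖b j0‖ ≤ M := by rw [hM]; exact le_max_right _ _
  have hM0 : 0 < M := by linarith
  have hL : 0 ≤ Real.log M := Real.log_nonneg hM1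
  refine ⟨C + Real.log M, by linarith, ?_⟩
  intro P t ht hdeg hlen hne
  have e1 := FTdiv_aeval j0 P b hb
  have hne' : aeval b (FTdivH j0 P) ≠ 0 := by
    rw [e1]
    exact mul_ne_zero (pow_ne_zero _ hb) hne
  have hdeg' : ((FTdivH j0 P).totalDegree : ℝ) ≤ t := by
    have : ((FTdivH j0 P).totalDegree : ℝ) ≤ (P.totalDegree : ℝ) := by
      exact_mod_cast FTdiv_deg j0 P
    linarith
  have h1 := hC (FTdivH j0 P) t ht hdeg' ((FTdiv_len j0 P).trans hlen) hne'
  rw [e1, norm_mul, norm_pow] at h1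
  have h2 : ‖b j0‖ ^ P.totalDegree ≤ Real.exp (Real.log M * t) := by
    calc ‖b j0‖ ^ P.totalDegree ≤ M ^ P.totalDegree :=
          pow_le_pow_left₀ (norm_nonneg _) hbM _
      _ = Real.exp (Real.log M * P.totalDegree) := by
          rw [← Real.rpow_natCast, Real.rpow_def_of_pos hM0]
      _ ≤ Real.exp (Real.log M * t) := by
          rw [Real.exp_le_exp]
          exact mul_le_mul_of_nonneg_left hdeg hL
  have h3 : Real.exp (-(C * t ^ Q)) ≤
      Real.exp (Real.log M * t) * ‖aeval (fun j => b j / b j0) P‖ :=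
    h1.trans (mul_le_mul_of_nonneg_right h2 (norm_nonneg _))
  have h4 : Real.exp (-(C * t ^ Q) - Real.log M * t) ≤ ‖aeval (fun j => b j / b j0) P‖ := by
    rw [Real.exp_sub, div_le_iff₀ (Real.exp_pos _)]
    linarith
  refine le_trans ?_ h4
  rw [Real.exp_le_exp]
  have h5 : t ^ Q ≤ t ^ (Q + 1) := pow_le_pow_right₀ ht (Nat.le_succ Q)
  have h6 : t ≤ t ^ (Q + 1) := by
    calc t = t ^ 1 := (pow_one t).symm
      _ ≤ t ^ (Q + 1) := pow_le_pow_right₀ ht (by omega)
  have h7 : C * t ^ Q ≤ C * t ^ (Q + 1) := mul_le_mul_of_nonneg_left h5 (by linarith)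
  have h8 : Real.log M * t ≤ Real.log M * t ^ (Q + 1) := mul_le_mul_of_nonneg_left h6 hL
  nlinarith

end Pool.Agent.Work.MP_8da9ea_nt.S

end

section

/-!
# Item FTlin: rational combinations of numbers of finite type
-/

set_option autoImplicit false

namespace Pool.Agent.Work.MP_8da9ea_nt.S

open MvPolynomial Pool.Agent.Work.MP_327059_nt.GL

theorem FTlin_clear {k m : ℕ} (c : Fin k → Fin m → ℚ) :
    ∃ (N : ℕ) (n : Fin k → Fin m → ℤ), 1 ≤ N ∧ ∀ t j, (N : ℚ) * c t j = n t j := by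
  refine ⟨∏ t, ∏ j, (c t j).den, fun t j =>
    ((∏ t, ∏ j, (c t j).den) / (c t j).den : ℕ) * (c t j).num, ?_, ?_⟩
  · exact Nat.one_le_iff_ne_zero.2
      (Finset.prod_ne_zero_iff.2 fun t _ => Finset.prod_ne_zero_iff.2 fun j _ => (c t j).den_nz)
  · intro t j
    have hdvd : (c t j).den ∣ ∏ t, ∏ j, (c t j).den :=
      (Finset.dvd_prod_of_mem (fun j => (c t j).den) (Finset.mem_univ j)).trans
        (Finset.dvd_prod_of_mem (fun t => ∏ j, (c t j).den) (Finset.mem_univ t))
    obtain ⟨q, hq⟩ := hdvd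
    have hden : (c t j).den ≠ 0 := (c t j).den_nz
    have h1 : (∏ t, ∏ j, (c t j).den) / (c t j).den = q := by
      rw [hq]; exact Nat.mul_div_cancel_left _ (Nat.pos_of_ne_zero hden)
    simp only []
    rw [h1, hq]
    have h2 : ((c t j).den : ℚ) * c t j = (c t j).num := Rat.den_mul_eq_num _
    push_cast
    rw [mul_comm ((c t j).den : ℚ) (q : ℚ), mul_assoc, h2]

/-- the cleared polynomial -/
noncomputable def FTlin_P {k m : ℕ} (n : Fin k → Fin m → ℤ) (N : ℕ) (P : MvPolynomial (Fin k) ℤ) :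
    MvPolynomial (Fin m) ℤ :=
  ∑ μ ∈ P.support, C (P.coeff μ) * C ((N : ℤ) ^ (P.totalDegree - ∑ t, μ t)) *
    ∏ t, (∑ j, C (n t j) * X j) ^ (μ t)

theorem FTlin_deg {k : ℕ} (P : MvPolynomial (Fin k) ℤ) (μ : Fin k →₀ ℕ) (hμ : μ ∈ P.support) :
    ∑ t, μ t ≤ P.totalDegree := by
  have := le_totalDegree hμ
  rwa [Finsupp.sum_fintype _ _ (fun _ => rfl)] at this

theorem FTlin_aeval {k m : ℕ} (c : Fin k → Fin m → ℚ) (N : ℕ) (n : Fin k → Fin m → ℤ)
    (hN : ∀ t j, (N : ℚ) * c t j = n t j) (b : Fin m → ℂ) (P : MvPolynomial (Fin k) ℤ) :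
    aeval b (FTlin_P n N P) = (N : ℂ) ^ P.totalDegree *
      aeval (fun t => ∑ j, (c t j : ℂ) * b j) P := by
  have hb : ∀ t, ∑ j, ((n t j : ℤ) : ℂ) * b j = (N : ℂ) * ∑ j, (c t j : ℂ) * b j := by
    intro t
    rw [Finset.mul_sum]
    refine Finset.sum_congr rfl fun j _ => ?_
    rw [← mul_assoc]
    congr 1
    have := hN t j
    have h2 : ((N : ℚ) : ℂ) * ((c t j : ℚ) : ℂ) = (((n t j : ℤ) : ℚ) : ℂ) := by
      rw [← this]; push_cast; ring
    simpa using h2.symm
  rw [FTlin_P, map_sum]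
  conv_rhs => rw [aeval_def, eval₂_eq', Finset.mul_sum]
  refine Finset.sum_congr rfl fun μ hμ => ?_
  rw [map_mul, map_mul, map_prod]
  have h1 : ∀ t, aeval b ((∑ j, C (n t j) * X j : MvPolynomial (Fin m) ℤ) ^ (μ t)) =
      (N : ℂ) ^ (μ t) * (∑ j, (c t j : ℂ) * b j) ^ (μ t) := by
    intro t
    rw [map_pow, map_sum, ← mul_pow, ← hb]
    congr 1
    refine Finset.sum_congr rfl fun j _ => ?_
    rw [map_mul, aeval_X, aeval_C]
    simp
  rw [Finset.prod_congr rfl fun t _ => h1 t, Finset.prod_mul_distrib, Finset.prod_pow_eq_pow_sum]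
  rw [aeval_C, aeval_C]
  have h2 : (N : ℂ) ^ P.totalDegree =
      (N : ℂ) ^ (P.totalDegree - ∑ t, μ t) * (N : ℂ) ^ (∑ t, μ t) := by
    rw [← pow_add]; congr 1; have := FTlin_deg P μ hμ; omega
  rw [h2]
  simp only [algebraMap_int_eq, eq_intCast, Int.cast_pow, Int.cast_natCast]
  ring

theorem FTlin_totalDegree {k m : ℕ} (n : Fin k → Fin m → ℤ) (N : ℕ)
    (P : MvPolynomial (Fin k) ℤ) : (FTlin_P n N P).totalDegree ≤ P.totalDegree := by
  refine totalDegree_finsetSum_le fun μ hμ => ?_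
  refine (totalDegree_mul _ _).trans ?_
  have h1 : (C (P.coeff μ) * C ((N : ℤ) ^ (P.totalDegree - ∑ t, μ t)) :
      MvPolynomial (Fin m) ℤ).totalDegree = 0 := by
    rw [← C_mul, totalDegree_C]
  rw [h1, zero_add]
  refine (totalDegree_finsetProd _ _).trans ?_
  refine le_trans ?_ (FTlin_deg P μ hμ)
  refine Finset.sum_le_sum fun t _ => ?_
  refine (totalDegree_pow _ _).trans ?_
  have h2 : (∑ j, C (n t j) * X j : MvPolynomial (Fin m) ℤ).totalDegree ≤ 1 := by
    refine totalDegree_finsetSum_le fun j _ => ?_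
    refine (totalDegree_mul _ _).trans ?_
    rw [totalDegree_C, totalDegree_X]
  calc μ t * _ ≤ μ t * 1 := Nat.mul_le_mul_left _ h2
    _ = μ t := mul_one _

theorem FTlin_len {k m : ℕ} (n : Fin k → Fin m → ℤ) (N : ℕ) (hN : 1 ≤ N)
    (P : MvPolynomial (Fin k) ℤ) :
    len (FTlin_P n N P) ≤ len P * ((N : ℝ) + ∑ t, ∑ j, |((n t j : ℤ) : ℝ)|) ^ P.totalDegree := by
  set E : ℝ := (N : ℝ) + ∑ t, ∑ j, |((n t j : ℤ) : ℝ)| with hE
  have hS : (0 : ℝ) ≤ ∑ t, ∑ j, |((n t j : ℤ) : ℝ)| :=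
    Finset.sum_nonneg fun t _ => Finset.sum_nonneg fun j _ => abs_nonneg _
  have hN1 : (1 : ℝ) ≤ N := by exact_mod_cast hN
  have hE1 : 1 ≤ E := by rw [hE]; linarith
  have hE0 : 0 ≤ E := by linarith
  have hNE : (N : ℝ) ≤ E := by rw [hE]; linarith
  rw [FTlin_P]
  refine (Val_len_sum _ _).trans ?_
  rw [len, Finset.sum_mul]
  refine Finset.sum_le_sum fun μ hμ => ?_
  refine (Val_len_mul _ _).trans ?_
  have h1 : len (C (P.coeff μ) * C ((N : ℤ) ^ (P.totalDegree - ∑ t, μ t)) :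
      MvPolynomial (Fin m) ℤ) ≤ |((P.coeff μ : ℤ) : ℝ)| * E ^ (P.totalDegree - ∑ t, μ t) := by
    rw [← C_mul]
    refine (Val_len_C _).trans ?_
    push_cast
    rw [abs_mul]
    refine mul_le_mul_of_nonneg_left ?_ (abs_nonneg _)
    rw [abs_of_nonneg (by positivity)]
    exact pow_le_pow_left₀ (by positivity) hNE _
  have h2 : len (∏ t, (∑ j, C (n t j) * X j : MvPolynomial (Fin m) ℤ) ^ (μ t)) ≤
      E ^ (∑ t, μ t) := by
    refine (Val_len_prod _ _).trans ?_
    rw [← Finset.prod_pow_eq_pow_sum]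
    refine Finset.prod_le_prod (fun t _ => Val_len_nonneg _) fun t _ => ?_
    refine (Val_len_pow _ _).trans ?_
    refine pow_le_pow_left₀ (Val_len_nonneg _) ?_ _
    refine (Val_len_sum _ _).trans ?_
    have h3 : ∑ j, len (C (n t j) * X j : MvPolynomial (Fin m) ℤ) ≤ ∑ j, |((n t j : ℤ) : ℝ)| := by
      refine Finset.sum_le_sum fun j _ => ?_
      refine (Val_len_mul _ _).trans ?_
      calc len (C (n t j) : MvPolynomial (Fin m) ℤ) * len (X j : MvPolynomial (Fin m) ℤ)
          ≤ |((n t j : ℤ) : ℝ)| * 1 :=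
            mul_le_mul (Val_len_C _) (Val_len_X _) (Val_len_nonneg _) (abs_nonneg _)
        _ = _ := mul_one _
    refine h3.trans ?_
    have h4 : ∑ j, |((n t j : ℤ) : ℝ)| ≤ ∑ t, ∑ j, |((n t j : ℤ) : ℝ)| :=
      Finset.single_le_sum (f := fun t => ∑ j, |((n t j : ℤ) : ℝ)|)
        (fun t _ => Finset.sum_nonneg fun j _ => abs_nonneg _) (Finset.mem_univ t)
    rw [hE]; linarith
  calc _ ≤ (|((P.coeff μ : ℤ) : ℝ)| * E ^ (P.totalDegree - ∑ t, μ t)) * E ^ (∑ t, μ t) :=
        mul_le_mul h1 h2 (Val_len_nonneg _) (by positivity)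
    _ = |((P.coeff μ : ℤ) : ℝ)| * E ^ P.totalDegree := by
        rw [mul_assoc, ← pow_add]
        congr 2
        have := FTlin_deg P μ hμ
        omega

/-- X17: rational combinations -/
theorem pr_FTlin : S_FTlin := by
  intro Q m k b c hFT
  obtain ⟨C, hC1, hC⟩ := hFT
  obtain ⟨N, n, hN, hn⟩ := FTlin_clear c
  set E : ℝ := (N : ℝ) + ∑ t, ∑ j, |((n t j : ℤ) : ℝ)| with hE
  have hS : (0 : ℝ) ≤ ∑ t, ∑ j, |((n t j : ℤ) : ℝ)| :=
    Finset.sum_nonneg fun t _ => Finset.sum_nonneg fun j _ => abs_nonneg _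
  have hN1 : (1 : ℝ) ≤ N := by exact_mod_cast hN
  have hE1 : 1 ≤ E := by rw [hE]; linarith
  have hE0 : 0 < E := by linarith
  have hlE : 0 ≤ Real.log E := Real.log_nonneg hE1
  have hlN : 0 ≤ Real.log N := Real.log_nonneg hN1
  set L : ℝ := 1 + Real.log E with hL
  have hL1 : 1 ≤ L := by rw [hL]; linarith
  have hCL : 1 ≤ C * L ^ Q := by
    have : 1 ≤ L ^ Q := one_le_pow₀ hL1
    nlinarith
  refine ⟨C * L ^ Q + Real.log N, by linarith, ?_⟩
  intro P t ht hdeg hlen hne
  have hd : (P.totalDegree : ℝ) ≤ t := hdeg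
  have hae := FTlin_aeval c N n hn b P
  have hNC : (N : ℂ) ≠ 0 := by
    have : N ≠ 0 := by omega
    exact_mod_cast this
  have hne' : aeval b (FTlin_P n N P) ≠ 0 := by
    rw [hae]; exact mul_ne_zero (pow_ne_zero _ hNC) hne
  have ht0 : 0 ≤ t := by linarith
  have hdeg' : ((FTlin_P n N P).totalDegree : ℝ) ≤ L * t := by
    have h1 : ((FTlin_P n N P).totalDegree : ℝ) ≤ P.totalDegree := by
      exact_mod_cast FTlin_totalDegree n N P
    nlinarith
  have hlen' : len (FTlin_P n N P) ≤ Real.exp (L * t) := by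
    refine (FTlin_len n N hN P).trans ?_
    have h1 : E ^ P.totalDegree ≤ Real.exp (Real.log E * t) := by
      rw [← Real.exp_log hE0, ← Real.exp_nat_mul, Real.log_exp]
      apply Real.exp_le_exp.2
      nlinarith
    calc len P * E ^ P.totalDegree ≤ Real.exp t * Real.exp (Real.log E * t) :=
          mul_le_mul hlen h1 (by positivity) (Real.exp_pos _).le
      _ = Real.exp (L * t) := by rw [← Real.exp_add]; congr 1; rw [hL]; ring
  have h := hC (FTlin_P n N P) (L * t) (by nlinarith) hdeg' hlen' hne'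
  rw [hae, norm_mul, norm_pow] at h
  have hNn : ‖(N : ℂ)‖ = N := by simp
  rw [hNn] at h
  have hNd : (N : ℝ) ^ P.totalDegree ≤ Real.exp (t * Real.log N) := by
    have hN0 : (0 : ℝ) < N := by linarith
    rw [← Real.exp_log hN0, ← Real.exp_nat_mul, Real.log_exp]
    apply Real.exp_le_exp.2
    nlinarith
  have h3 : Real.exp (-(C * (L * t) ^ Q)) ≤ Real.exp (t * Real.log N) *
      ‖aeval (fun t => ∑ j, (c t j : ℂ) * b j) P‖ :=
    h.trans (mul_le_mul_of_nonneg_right hNd (norm_nonneg _))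
  have h4 : Real.exp (-(C * (L * t) ^ Q) - t * Real.log N) ≤
      ‖aeval (fun t => ∑ j, (c t j : ℂ) * b j) P‖ := by
    rw [sub_eq_add_neg, Real.exp_add]
    calc _ ≤ Real.exp (t * Real.log N) * ‖aeval (fun t => ∑ j, (c t j : ℂ) * b j) P‖ *
        Real.exp (-(t * Real.log N)) := mul_le_mul_of_nonneg_right h3 (Real.exp_pos _).le
      _ = (Real.exp (t * Real.log N) * Real.exp (-(t * Real.log N))) *
        ‖aeval (fun t => ∑ j, (c t j : ℂ) * b j) P‖ := by ring
      _ = _ := by rw [← Real.exp_add, add_neg_cancel, Real.exp_zero, one_mul]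
  refine le_trans (Real.exp_le_exp.2 ?_) h4
  have h5 : t ^ Q ≤ t ^ (Q + 1) := pow_le_pow_right₀ ht (by omega)
  have h6 : t ≤ t ^ (Q + 1) := by
    calc t = t ^ 1 := (pow_one t).symm
      _ ≤ t ^ (Q + 1) := pow_le_pow_right₀ ht (by omega)
  have h7 : C * (L * t) ^ Q ≤ C * L ^ Q * t ^ (Q + 1) := by
    rw [mul_pow, ← mul_assoc]
    exact mul_le_mul_of_nonneg_left h5 (by positivity)
  have h8 : t * Real.log N ≤ Real.log N * t ^ (Q + 1) := by
    rw [mul_comm]
    exact mul_le_mul_of_nonneg_left h6 hlN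
  nlinarith

end Pool.Agent.Work.MP_8da9ea_nt.S

end

section

/-!
# Item GCoreX: the rank for arbitrary points
-/

set_option autoImplicit false

namespace Pool.Agent.Work.MP_8da9ea_nt.S

open MvPolynomial Pool.Agent.Work.MP_327059_nt.GL

theorem pr_GCoreX (h1 : S_TIX) (h2 : S_AxOutB) (h3 : S_Cases) (h4 : S_LinAlg) (h5 : S_DenseK)
    (h6 : S_CntB) (h7 : S_FTlin) : S_GCoreX := by
  classical
  intro Qb m
  choose M hM using h1 (Qb + 1)
  refine ⟨m * m + (Finset.range (m + 1)).sup M, ?_⟩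
  intro b hb hbind n hn l hl κ hκ
  set y : Fin n → Fin m → ℂ := fun i j => Complex.exp (b j * l i) with hy
  have hy0 : ∀ i j, y i j ≠ 0 := fun i j => Complex.exp_ne_zero _
  -- the generic point
  set S1 : Set ℂ := Set.range l ∪ Set.range (fun p : Fin n × Fin m => y p.1 p.2) ∪ Set.range b
    with hS1
  have hS1c : S1.Countable :=
    ((Set.countable_range _).union (Set.countable_range _)).union (Set.countable_range _)
  obtain ⟨v, hv, -⟩ := h5 (Fin n) S1 hS1c (fun _ => 0) 1 one_pos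
  refine ⟨v, ?_⟩
  by_contra hne
  have hlt : κ + rkb l y v b < m := not_le.1 hne
  obtain ⟨G, hG⟩ := h2 n m l y v b hy0
  have hu : ug G v ≤ rkb l y v b := by
    have := hG 0 Fin.elim0 (fun t => t.elim0) (by
      rw [algebraicIndependent_empty_type_iff]
      exact (algebraMap (IntermediateField.adjoin ℚ (Set.range v ∪ Set.range b)) ℂ).injective)
    omega
  set Y : Set ℂ := {z | ∃ ξ ∈ G, z = mon y ξ} with hY
  have hK : IntermediateField.adjoin ℚ (Set.range l ∪ (Y ∪ Set.range b)) ≤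
      IntermediateField.adjoin ℚ S1 := by
    rw [IntermediateField.adjoin_le_iff]
    rintro z (⟨i, rfl⟩ | ⟨ξ, -, rfl⟩ | ⟨j, rfl⟩)
    · exact IntermediateField.subset_adjoin ℚ _ (Or.inl (Or.inl ⟨i, rfl⟩))
    · refine prod_mem fun i _ => prod_mem fun j _ => zpow_mem ?_ _
      exact IntermediateField.subset_adjoin ℚ _ (Or.inl (Or.inr ⟨(i, j), rfl⟩))
    · exact IntermediateField.subset_adjoin ℚ _ (Or.inr ⟨j, rfl⟩)
  have hv1 : AlgebraicIndependent
      (IntermediateField.adjoin ℚ (Set.range l ∪ (Y ∪ Set.range b))) v :=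
    gCore_mono hK v hv
  have hvQ : AlgebraicIndependent ℚ v :=
    hv.restrictScalars (K := IntermediateField.adjoin ℚ S1) (algebraMap ℚ _).injective
  have hVb : IntermediateField.adjoin ℚ (Set.range v ∪ Set.range b) ≤
      IntermediateField.adjoin ℚ
        (((IntermediateField.adjoin ℚ (Set.range v) : IntermediateField ℚ ℂ) : Set ℂ) ∪
          Set.range b) := by
    apply IntermediateField.adjoin.mono
    apply Set.union_subset_union_left
    exact IntermediateField.subset_adjoin ℚ _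
  have hcases := h3 n l (Y ∪ Set.range b) v (κ + (rkb l y v b - ug G v)) hv1 (by
    intro k f hf hfi
    refine h6 m κ (rkb l y v b - ug G v) (IntermediateField.adjoin ℚ (Set.range v)) b
      {z | z = ∑ i, v i * l i ∨ ∃ ξ ∈ G, z = mon y ξ} hκ ?_ k f ?_ hfi
    · intro k f hf hfi
      have := hG k f hf (gCore_mono hVb f hfi)
      omega
    · intro t
      rcases hf t with h | h | h
      · exact Or.inl (Or.inl h)
      · exact Or.inl (Or.inr h)
      · exact Or.inr h)
  obtain ⟨Cs, Vs, hCs, hVs, hCV⟩ := h4 n m G v hvQ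
  -- the numbers
  obtain ⟨k, hk⟩ : ∃ k, m = ug G v + k := ⟨m - ug G v, by omega⟩
  have hkC : k ≤ Module.finrank ℚ Cs := by omega
  obtain ⟨c, hc⟩ := exists_linearIndependent_of_le_finrank hkC
  have hc' : LinearIndependent ℚ (fun t => (c t : Fin m → ℚ)) :=
    hc.map' Cs.subtype (Submodule.ker_subtype _)
  obtain ⟨w, hw⟩ := exists_linearIndependent_of_le_finrank (le_refl (Module.finrank ℚ Vs))
  have hw' : LinearIndependent ℚ (fun t => (w t : Fin n → ℚ)) :=
    hw.map' Vs.subtype (Submodule.ker_subtype _)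
  set b' : Fin k → ℂ := fun t => ∑ j, ((c t : Fin m → ℚ) j : ℂ) * b j with hb'
  set l' : Fin (Module.finrank ℚ Vs) → ℂ := fun s => ∑ i, ((w s : Fin n → ℚ) i : ℂ) * l i with hl'
  have hb'ind : LinearIndependent ℚ b' := gCore_lind b hbind _ hc'
  have hl'ind : LinearIndependent ℚ l' := gCore_lind l hl _ hw'
  have hb'FT : FT (Qb + 1) b' := h7 Qb m k b (fun t => (c t : Fin m → ℚ)) hb
  have hn' : M k ≤ Module.finrank ℚ Vs := by
    have h6 : M k ≤ (Finset.range (m + 1)).sup M :=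
      Finset.le_sup (Finset.mem_range.2 (by omega))
    omega
  obtain ⟨⟨s1, hs1⟩, ⟨s2, hs2⟩⟩ := hM k b' hb'FT hb'ind _ hn' l' hl'ind
  -- algebraicity over `ℚ(Y)`
  have hYalg : ∀ s j, IsAlgebraic (IntermediateField.adjoin ℚ (Y ∪ Set.range b))
      (Complex.exp (b' j * l' s)) := by
    intro s t
    obtain ⟨N, hN, ξ, hξ, hξe⟩ := hCV (c t) (c t).2 (w s) (w s).2
    apply IsAlgebraic.of_pow (Nat.pos_of_ne_zero hN)
    have h6 : Complex.exp (b' t * l' s) ^ N = mon y ξ := gCoreB_mon b l _ _ N ξ hξe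
    rw [h6]
    exact isAlgebraic_algebraMap (R := IntermediateField.adjoin ℚ (Y ∪ Set.range b)) (A := ℂ)
      ⟨mon y ξ, IntermediateField.subset_adjoin ℚ _ (Or.inl ⟨ξ, hξ, rfl⟩)⟩
  rcases hcases with hA | hB
  · have := hA (k - 1) _ (fun t => hYalg _ _) hs2
    omega
  · have := hB k _ (fun t => ?_) hs1
    · omega
    · cases h : s1 t with
      | inl s =>
        have h6 : cd b' l' (Sum.inl s) = l' s := rfl
        rw [h6]
        have h7 : l' s ∈ IntermediateField.adjoin ℚ (Set.range l ∪ (Y ∪ Set.range b)) := by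
          refine sum_mem fun i _ => mul_mem ?_ ?_
          · exact (IntermediateField.adjoin ℚ
              (Set.range l ∪ (Y ∪ Set.range b))).algebraMap_mem _
          · exact IntermediateField.subset_adjoin ℚ _ (Or.inl ⟨i, rfl⟩)
        exact isAlgebraic_algebraMap
          (R := IntermediateField.adjoin ℚ (Set.range l ∪ (Y ∪ Set.range b))) (A := ℂ)
          ⟨_, h7⟩
      | inr p =>
        have h6 : cd b' l' (Sum.inr p) = Complex.exp (b' p.2 * l' p.1) := rfl
        rw [h6]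
        have hle2 : IntermediateField.adjoin ℚ (Y ∪ Set.range b) ≤
            IntermediateField.adjoin ℚ (Set.range l ∪ (Y ∪ Set.range b)) :=
          IntermediateField.adjoin.mono _ _ _ Set.subset_union_right
        let _ : Algebra (IntermediateField.adjoin ℚ (Y ∪ Set.range b))
          (IntermediateField.adjoin ℚ (Set.range l ∪ (Y ∪ Set.range b))) :=
          (IntermediateField.inclusion hle2).toRingHom.toAlgebra
        have _ : IsScalarTower (IntermediateField.adjoin ℚ (Y ∪ Set.range b))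
          (IntermediateField.adjoin ℚ (Set.range l ∪ (Y ∪ Set.range b))) ℂ :=
          IsScalarTower.of_algebraMap_eq fun x => rfl
        exact (hYalg p.1 p.2).tower_top _

end Pool.Agent.Work.MP_8da9ea_nt.S

end

section

/-!
# Item GPX: from the rank to rational points
-/

set_option autoImplicit false

namespace Pool.Agent.Work.MP_8da9ea_nt.S

open MvPolynomial Pool.Agent.Work.MP_327059_nt.GL Pool.Agent.ED

/-- A matrix with independent rows has a non-zero maximal minor. -/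
theorem GPX_minor {ρ : ℕ} {τ : Type} [Fintype τ] (U : Fin ρ → τ → ℂ)
    (hU : LinearIndependent ℂ U) :
    ∃ o : Fin ρ → τ, (Matrix.of fun i k => U i (o k)).det ≠ 0 := by
  classical
  have hspan : Submodule.span ℂ (Set.range (fun t : τ => fun i => U i t)) = ⊤ := by
    have h1 : (Matrix.of U).rank = ρ := by
      have h := LinearIndependent.rank_matrix (M := Matrix.of U) hU
      rw [h, Fintype.card_fin]
    apply Submodule.eq_top_of_finrank_eq
    rw [Module.finrank_fintype_fun_eq_card, Fintype.card_fin]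
    rw [Matrix.rank_eq_finrank_span_cols] at h1
    exact h1
  obtain ⟨S, hS1, hS2, hS3⟩ := exists_linearIndependent ℂ
    (Set.range (fun t : τ => fun i => U i t))
  let B : Module.Basis S ℂ (Fin ρ → ℂ) := Module.Basis.mk hS3 (by
    rw [Subtype.range_coe, hS2, hspan])
  let e : S ≃ Fin ρ := B.indexEquiv (Pi.basisFun ℂ (Fin ρ))
  have hex : ∀ k : Fin ρ, ∃ t : τ, (fun i => U i t) = ((e.symm k : S) : Fin ρ → ℂ) := by
    intro k
    exact hS1 (e.symm k).2
  choose o ho using hex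
  refine ⟨o, ?_⟩
  have hli : LinearIndependent ℂ (fun k : Fin ρ => ((e.symm k : S) : Fin ρ → ℂ)) :=
    hS3.comp (fun k : Fin ρ => e.symm k) e.symm.injective
  have hcol : LinearIndependent ℂ (Matrix.of fun i k => U i (o k)).col := by
    have : (Matrix.of fun i k => U i (o k)).col =
        (fun k : Fin ρ => ((e.symm k : S) : Fin ρ → ℂ)) := by
      funext k
      rw [← ho k]
      rfl
    rw [this]
    exact hli
  have hu := Matrix.linearIndependent_cols_iff_isUnit.1 hcol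
  exact ((Matrix.isUnit_iff_isUnit_det _).1 hu).ne_zero

theorem pr_GPX : S_GPX := by
  classical
  intro n m ρ κ x b v hrk hs
  obtain ⟨s, hs⟩ := hs
  obtain ⟨u, hu⟩ := exists_linearIndependent_of_le_finrank hrk
  have hu' : LinearIndependent ℂ (fun i => ((u i : _) : Option (Fin m) → ℂ)) :=
    hu.map' (Submodule.subtype _) (Submodule.ker_subtype _)
  obtain ⟨o, ho⟩ := GPX_minor (fun i => ((u i : _) : Option (Fin m) → ℂ)) hu'
  have hex : ∀ i : Fin ρ, ∃ δ ∈ TT v ⊓ TT b,
      om x (fun i j => Complex.exp (b j * x i)) v δ = (u i : Option (Fin m) → ℂ) := by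
    intro i
    exact Submodule.mem_map.1 (u i).2
  choose δ hδT hδ using hex
  let p : Fin ρ → Fin ρ → MvPolynomial (Fin n) ℂ := fun i k =>
    (o k).elim (∑ l, MvPolynomial.C (δ i (x l)) * MvPolynomial.X l)
      (fun j => ∑ l, MvPolynomial.C (δ i (Complex.exp (b j * x l)) / Complex.exp (b j * x l)) *
        MvPolynomial.X l)
  have hev : ∀ (t : Fin n → ℂ) i k, MvPolynomial.eval t (p i k) =
      om x (fun i j => Complex.exp (b j * x i)) t (δ i) (o k) := by
    intro t i k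
    change MvPolynomial.eval t ((o k).elim (∑ l, MvPolynomial.C (δ i (x l)) * MvPolynomial.X l)
      (fun j => ∑ l, MvPolynomial.C (δ i (Complex.exp (b j * x l)) / Complex.exp (b j * x l)) *
        MvPolynomial.X l)) = _
    cases o k with
    | none =>
      change MvPolynomial.eval t (∑ i_1, MvPolynomial.C (δ i (x i_1)) * MvPolynomial.X i_1) =
        ∑ l, t l * δ i (x l)
      rw [map_sum]
      refine Finset.sum_congr rfl fun l _ => ?_
      simp only [map_mul, MvPolynomial.eval_C, MvPolynomial.eval_X]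
      ring
    | some j =>
      change MvPolynomial.eval t (∑ l, MvPolynomial.C
          (δ i (Complex.exp (b j * x l)) / Complex.exp (b j * x l)) * MvPolynomial.X l) =
        ∑ l, t l * (δ i (Complex.exp (b j * x l)) / Complex.exp (b j * x l))
      rw [map_sum]
      refine Finset.sum_congr rfl fun l _ => ?_
      simp only [map_mul, MvPolynomial.eval_C, MvPolynomial.eval_X]
      ring
  let P : MvPolynomial (Fin n) ℂ := (Matrix.of p).det
  have hPev : ∀ t : Fin n → ℂ, MvPolynomial.eval t P =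
      (Matrix.of fun i k => om x (fun i j => Complex.exp (b j * x i)) t (δ i) (o k)).det := by
    intro t
    change MvPolynomial.eval t (Matrix.of p).det = _
    rw [RingHom.map_det]
    congr 1
    ext i k
    exact hev t i k
  refine ⟨P, ?_, ?_, ?_⟩
  · intro h0
    have h1 := hPev v
    rw [h0, map_zero] at h1
    apply ho
    rw [h1]
    congr 1
    ext i k
    rw [Matrix.of_apply, Matrix.of_apply, hδ i]
  · have h1 := GP_detHom (Matrix.of p) (fun i k => by
      change ((o k).elim (∑ l, MvPolynomial.C (δ i (x l)) * MvPolynomial.X l)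
        (fun j => ∑ l, MvPolynomial.C (δ i (Complex.exp (b j * x l)) / Complex.exp (b j * x l)) *
          MvPolynomial.X l)).IsHomogeneous 1
      cases o k with
      | none =>
        exact MvPolynomial.IsHomogeneous.sum _ _ _ fun i _ =>
          MvPolynomial.isHomogeneous_C_mul_X _ _
      | some j =>
        exact MvPolynomial.IsHomogeneous.sum _ _ _ fun i _ =>
          MvPolynomial.isHomogeneous_C_mul_X _ _)
    rw [Fintype.card_fin] at h1
    exact h1
  · intro w hw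
    rw [hPev] at hw
    refine ⟨s, o, ?_⟩
    let z : Option (Fin m) → ℂ := fun o =>
      o.elim (∑ i, (w i : ℂ) * x i) (fun j => Complex.exp (b j * ∑ i, (w i : ℂ) * x i))
    let c : Option (Fin m) → ℂ := fun o =>
      o.elim 1 (fun j => Complex.exp (b j * ∑ i, (w i : ℂ) * x i))
    have hc : ∀ o, c o ≠ 0 := by
      intro o
      cases o with
      | none => exact one_ne_zero
      | some j => exact Complex.exp_ne_zero _
    have hz : ∀ (i : Fin ρ) (o' : Option (Fin m)), δ i (z o') =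
        om x (fun i j => Complex.exp (b j * x i)) (fun i => (w i : ℂ)) (δ i) o' * c o' := by
      intro i o'
      cases o' with
      | none =>
        change δ i (∑ i, (w i : ℂ) * x i) = (∑ l, (w l : ℂ) * δ i (x l)) * 1
        rw [map_sum, mul_one]
        refine Finset.sum_congr rfl fun l _ => ?_
        rw [Derivation.leibniz]
        have h5 : δ i ((w l : ℚ) : ℂ) = 0 := by
          have := (δ i).map_algebraMap (w l)
          simpa using this
        rw [h5, smul_zero, add_zero, smul_eq_mul]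
      | some j =>
        change δ i (Complex.exp (b j * ∑ i, (w i : ℂ) * x i)) =
          (∑ l, (w l : ℂ) * (δ i (Complex.exp (b j * x l)) / Complex.exp (b j * x l))) *
            Complex.exp (b j * ∑ i, (w i : ℂ) * x i)
        rw [← GP_dlog x (b j) w (δ i)]
        rw [div_mul_cancel₀ _ (Complex.exp_ne_zero _)]
    have hdet : (Matrix.of fun i k => δ i (z (o k))).det ≠ 0 := by
      have h6 : (Matrix.of fun i k => δ i (z (o k))) =
          (Matrix.of fun i k => om x (fun i j => Complex.exp (b j * x i))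
            (fun i => (w i : ℂ)) (δ i) (o k)) * Matrix.diagonal (fun k => c (o k)) := by
        ext i k
        rw [Matrix.mul_diagonal]
        exact hz i (o k)
      rw [h6, Matrix.det_mul, Matrix.det_diagonal]
      exact mul_ne_zero hw (Finset.prod_ne_zero_iff.2 fun k _ => hc (o k))
    -- derivations dual to `b ∘ s`
    have hD : ∀ j : Fin κ, ∃ X : Derivation ℚ ℂ ℂ, ∀ i, X (b (s i)) = if i = j then 1 else 0 :=
      fun j => exists_derivation hs (fun i => if i = j then 1 else 0)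
    choose D hD using hD
    refine GP_jac (σ := Fin κ ⊕ Fin ρ) _ (Sum.elim D δ) ?_
    have h7 : (Matrix.of fun q q' => (Sum.elim D δ) q
        (Sum.elim (fun i => b (s i)) (fun i => (o i).elim (∑ i, (w i : ℂ) * x i)
            (fun j => Complex.exp (b j * ∑ i, (w i : ℂ) * x i))) q')) =
        Matrix.fromBlocks (1 : Matrix (Fin κ) (Fin κ) ℂ) (Matrix.of fun j k => D j (z (o k))) 0
          (Matrix.of fun i k => δ i (z (o k))) := by
      ext q q'
      rcases q with q | q <;> rcases q' with q' | q'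
      · rw [Matrix.fromBlocks_apply₁₁, Matrix.one_apply]
        change D q (b (s q')) = _
        rw [hD q q']
        by_cases h : q' = q
        · rw [if_pos h, if_pos h.symm]
        · rw [if_neg h, if_neg (fun h' => h h'.symm)]
      · rw [Matrix.fromBlocks_apply₁₂]
        rfl
      · rw [Matrix.fromBlocks_apply₂₁, Matrix.zero_apply]
        change δ q (b (s q')) = 0
        exact (hδT q).2 (s q')
      · rw [Matrix.fromBlocks_apply₂₂]
        rfl
    rw [h7, Matrix.det_fromBlocks_zero₂₁, Matrix.det_one, one_mul]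
    exact hdet

end Pool.Agent.Work.MP_8da9ea_nt.S

end

section

/-!
# Theorem S: assembly from the rank and the passage to rational points
-/

set_option autoImplicit false

namespace Pool.Agent.Work.MP_8da9ea_nt.S

open MvPolynomial Pool.Agent.Work.MP_327059_nt.GL

/-- multiplication by a non-zero constant preserves linear independence -/
theorem MainS_li {n : ℕ} {x : Fin n → ℂ} (hx : LinearIndependent ℚ x) {a : ℂ} (ha : a ≠ 0) :
    LinearIndependent ℚ (fun i => a * x i) := by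
  have h := hx.map' (LinearMap.mulLeft ℚ a) (by
    rw [LinearMap.ker_eq_bot]
    intro y z hyz
    exact mul_left_cancel₀ ha hyz)
  exact h

/-- an element of the family is algebraic over the field generated by the basis -/
theorem MainS_alg {r m : ℕ} {b : Fin m → ℂ} {z : ℂ} (hz : z ≠ 0) {j0 : Fin m} (hb0 : b j0 ≠ 0)
    (t : Fin r → Fin m ⊕ Fin m)
    (ht : ∀ j, AlgOver (fun i => Sum.elim (fun j => b j * z) (fun j => Complex.exp (b j * z)) (t i))
      (Sum.elim (fun j => b j * z) (fun j => Complex.exp (b j * z)) j)) :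
    (∀ j, AlgOver (fun i => Sum.elim (fun j => b j * z) (fun j => Complex.exp (b j * z)) (t i))
      (b j / b j0)) ∧
    (∀ o : Option (Fin m),
      AlgOver (fun i => Sum.elim (fun j => b j * z) (fun j => Complex.exp (b j * z)) (t i))
        (o.elim (b j0 * z) (fun j => Complex.exp (b j * z)))) := by
  constructor
  · intro j
    have h1 := ht (Sum.inl j)
    have h2 := ht (Sum.inl j0)
    simp only [Sum.elim_inl] at h1 h2
    have h3 : b j / b j0 = (b j * z) * (b j0 * z)⁻¹ := by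
      field_simp
    unfold AlgOver at *
    rw [h3]
    exact h1.mul h2.inv
  · intro o
    cases o with
    | none => exact ht (Sum.inl j0)
    | some j => exact ht (Sum.inr j)

theorem pr_MainS (h1 : S_GCoreX) (h2 : S_GPX) (h3 : S_FTdiv) : S_MainS := by
  classical
  intro Qb m
  rcases Nat.eq_zero_or_pos m with hm | hm
  · subst hm
    refine ⟨0, fun b _ _ n _ x _ => ⟨1, one_ne_zero, by simp, fun w _ => ?_⟩⟩
    exact ⟨fun i => i.elim0, algebraicIndependent_empty_type⟩
  · obtain ⟨n₀, hn₀⟩ := h1 (Qb + 1) m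
    refine ⟨n₀, fun b hFT hb n hn x hx => ?_⟩
    set j0 : Fin m := ⟨0, hm⟩ with hj0
    have hb0 : b j0 ≠ 0 := hb.ne_zero j0
    set b' : Fin m → ℂ := fun j => b j / b j0 with hb'
    set x' : Fin n → ℂ := fun i => b j0 * x i with hx'
    have hFT' : FT (Qb + 1) b' := h3 Qb m b j0 hb0 hFT
    have hbli : LinearIndependent ℚ b' := by
      have h := MainS_li hb (inv_ne_zero hb0)
      have e : b' = fun i => (b j0)⁻¹ * b i := by
        funext i; exact div_eq_inv_mul _ _
      rw [e]; exact h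
    have hxli : LinearIndependent ℚ x' := MainS_li hx hb0
    obtain ⟨κ, s, hs, hsalg⟩ := pr_TrBasis (Fin m) b'
    have hTr : TrLe κ b' := by
      intro t ht
      have h := pr_TrCount (Fin (κ + 1)) (Fin κ) _ _ ht (fun i => hsalg (t i))
      simp at h
    obtain ⟨v, hv⟩ := hn₀ b' hFT' hbli n hn x' hxli κ hTr
    -- `κ < m`
    have hκm : κ < m := by
      have hinj : Function.Injective s := fun i j hij => hs.injective (by
        show b' (s i) = b' (s j)
        rw [hij])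
      have hle : κ ≤ m := by
        simpa using Fintype.card_le_of_injective s hinj
      rcases hle.lt_or_eq with h | h
      · exact h
      · exfalso
        have hbij : Function.Bijective s :=
          (Fintype.bijective_iff_injective_and_card s).mpr ⟨hinj, by simp [h]⟩
        obtain ⟨i, hi⟩ := hbij.2 j0
        have h4 := hs.transcendental i
        apply h4
        show IsAlgebraic ℚ (b' (s i))
        rw [hi]
        have h5 : b' j0 = algebraMap ℚ ℂ 1 := by
          rw [hb', map_one]; exact div_self hb0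
        rw [h5]
        exact isAlgebraic_algebraMap _
    set ρ : ℕ := m - κ with hρ
    have hρ1 : 1 ≤ ρ := by omega
    obtain ⟨P, hP0, hPh, hP⟩ := h2 n m ρ κ x' b' v (by omega) ⟨s, hs⟩
    refine ⟨P, hP0, le_trans hPh.totalDegree_le (by omega), fun w hw => ?_⟩
    obtain ⟨s', o, hF⟩ := hP w hw
    set z : ℂ := ∑ i, (w i : ℂ) * x i with hz
    have hz' : ∑ i, (w i : ℂ) * x' i = b j0 * z := by
      rw [hz, Finset.mul_sum]
      refine Finset.sum_congr rfl (fun i _ => ?_)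
      rw [hx']; ring
    have hel : ∀ i : Fin ρ, (o i).elim (∑ i, (w i : ℂ) * x' i)
        (fun j => Complex.exp (b' j * ∑ i, (w i : ℂ) * x' i)) =
        (o i).elim (b j0 * z) (fun j => Complex.exp (b j * z)) := by
      intro i
      rw [hz']
      cases o i with
      | none => rfl
      | some j =>
        simp only [Option.elim]
        congr 1
        rw [hb']
        field_simp
    -- `z ≠ 0`
    have hzne : z ≠ 0 := by
      intro h0
      have h4 := hF.transcendental (Sum.inr ⟨0, by omega⟩)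
      apply h4
      simp only [Sum.elim_inr]
      rw [hel]
      cases o ⟨0, by omega⟩ with
      | none =>
        simp only [Option.elim, h0, mul_zero]
        exact isAlgebraic_zero
      | some j =>
        simp only [Option.elim, h0, mul_zero, Complex.exp_zero]
        exact isAlgebraic_one
    obtain ⟨r, t, ht, htalg⟩ := pr_TrBasis (Fin m ⊕ Fin m)
      (Sum.elim (fun j => b j * z) (fun j => Complex.exp (b j * z)))
    obtain ⟨ha1, ha2⟩ := MainS_alg hzne hb0 t htalg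
    have hcard := pr_TrCount (Fin κ ⊕ Fin ρ) (Fin r) _ _ hF (by
      intro i
      rcases i with i | i
      · simp only [Sum.elim_inl]
        exact ha1 (s' i)
      · simp only [Sum.elim_inr]
        rw [hel i]
        exact ha2 (o i))
    have hmr : m ≤ r := by
      simp only [Fintype.card_sum, Fintype.card_fin] at hcard
      omega
    refine ⟨fun i => t (Fin.castLE hmr i), ?_⟩
    exact ht.comp (Fin.castLE hmr) (Fin.castLE_injective hmr)

end Pool.Agent.Work.MP_8da9ea_nt.S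

end

section

/-!
# Item X07: the measure is automatic
-/

set_option autoImplicit false

namespace Pool.Agent.Work.MP_8da9ea_nt.S

open MvPolynomial Pool.Agent.Work.MP_327059_nt.GL

/-- exponents of the monomials -/
def Meas_k {n m W : ℕ} (s : Fin n → ℤ) (w : Fin m → Fin W) (i : Fin n) (j : Fin m) : ℕ :=
  (s i * ((w j : ℕ) : ℤ) + W * |s i|).toNat

theorem Meas_k_int {n m W : ℕ} (s : Fin n → ℤ) (w : Fin m → Fin W) (i : Fin n) (j : Fin m) :
    ((Meas_k s w i j : ℕ) : ℤ) = s i * ((w j : ℕ) : ℤ) + W * |s i| := by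
  unfold Meas_k
  rw [Int.toNat_of_nonneg]
  have h1 : ((w j : ℕ) : ℤ) ≤ W := by exact_mod_cast (w j).2.le
  have h2 : -|s i| ≤ s i := neg_abs_le _
  have h3 : (0 : ℤ) ≤ ((w j : ℕ) : ℤ) := by positivity
  have h4 : 0 ≤ |s i| := abs_nonneg _
  nlinarith [mul_le_mul_of_nonneg_right h2 h3, mul_le_mul_of_nonneg_left h1 h4]

theorem Meas_k_cast {n m W : ℕ} (s : Fin n → ℤ) (w : Fin m → Fin W) (i : Fin n) (j : Fin m) :
    ((Meas_k s w i j : ℕ) : ℂ) = (s i : ℂ) * ((w j : ℕ) : ℂ) + (W : ℂ) * ((|s i| : ℤ) : ℂ) := by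
  have h := congrArg (Int.cast : ℤ → ℂ) (Meas_k_int s w i j)
  push_cast at h
  exact h

theorem Meas_k_le {n m W S' : ℕ} (s : Fin n → ℤ) (w : Fin m → Fin W) (hs : ∀ i, |s i| ≤ (S' : ℤ))
    (i : Fin n) (j : Fin m) : Meas_k s w i j ≤ 2 * W * S' := by
  have h := Meas_k_int s w i j
  have h1 : ((w j : ℕ) : ℤ) ≤ W := by exact_mod_cast (w j).2.le
  have h2 : s i ≤ |s i| := le_abs_self _
  have h3 : (0 : ℤ) ≤ ((w j : ℕ) : ℤ) := by positivity
  have h4 : 0 ≤ |s i| := abs_nonneg _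
  have h5 := hs i
  have hW : (0 : ℤ) ≤ W := by positivity
  have h6 : ((Meas_k s w i j : ℕ) : ℤ) ≤ 2 * W * S' := by
    rw [h]
    nlinarith [mul_le_mul_of_nonneg_right h2 h3, mul_le_mul_of_nonneg_left h1 h4,
      mul_le_mul_of_nonneg_left h5 hW]
  exact_mod_cast h6

theorem Meas_aev {n m W : ℕ} {σ : Type} (b : Fin m → ℂ) (x : Fin n → ℂ) (θ : σ → ℂ)
    (g : Fin n → Fin m → σ) (hg : ∀ i j, θ (g i j) = Complex.exp (b j * x i)) (s : Fin n → ℤ)
    (w : Fin m → Fin W) :
    aeval θ (∏ i, ∏ j, X (g i j) ^ Meas_k s w i j : MvPolynomial σ ℤ) =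
      Complex.exp ((∑ j, ((w j : ℕ) : ℂ) * b j) * ∑ i, (s i : ℂ) * x i) *
        Complex.exp ((W : ℂ) * ∑ i, ∑ j, ((|s i| : ℤ) : ℂ) * (b j * x i)) := by
  rw [map_prod]
  simp_rw [map_prod, map_pow, aeval_X, hg, ← Complex.exp_nat_mul]
  rw [← Complex.exp_add]
  simp_rw [← Complex.exp_sum]
  congr 1
  simp_rw [Meas_k_cast]
  rw [Finset.sum_mul_sum, show (∑ j, ∑ i, ((w j : ℕ) : ℂ) * b j * ((s i : ℂ) * x i)) =
    ∑ i, ∑ j, ((w j : ℕ) : ℂ) * b j * ((s i : ℂ) * x i) from Finset.sum_comm, Finset.mul_sum,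
    ← Finset.sum_add_distrib]
  refine Finset.sum_congr rfl fun i _ => ?_
  rw [Finset.mul_sum, ← Finset.sum_add_distrib]
  refine Finset.sum_congr rfl fun j _ => ?_
  ring

theorem Meas_deg {n m W S' : ℕ} {σ : Type} (g : Fin n → Fin m → σ) (s : Fin n → ℤ)
    (w : Fin m → Fin W) (hs : ∀ i, |s i| ≤ (S' : ℤ)) :
    (∏ i, ∏ j, X (g i j) ^ Meas_k s w i j : MvPolynomial σ ℤ).totalDegree ≤
      n * (m * (2 * W * S')) := by
  refine (totalDegree_finsetProd _ _).trans ?_
  have h2 : ∀ i ∈ (Finset.univ : Finset (Fin n)),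
      (∏ j, X (g i j) ^ Meas_k s w i j : MvPolynomial σ ℤ).totalDegree ≤ m * (2 * W * S') := by
    intro i _
    refine (totalDegree_finsetProd _ _).trans ?_
    have h3 : ∀ j ∈ (Finset.univ : Finset (Fin m)),
        (X (g i j) ^ Meas_k s w i j : MvPolynomial σ ℤ).totalDegree ≤ 2 * W * S' := by
      intro j _
      refine (totalDegree_pow _ _).trans ?_
      rw [totalDegree_X, mul_one]
      exact Meas_k_le s w hs i j
    refine (Finset.sum_le_card_nsmul _ _ _ h3).trans ?_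
    rw [Finset.card_univ, Fintype.card_fin, smul_eq_mul]
  refine (Finset.sum_le_card_nsmul _ _ _ h2).trans ?_
  rw [Finset.card_univ, Fintype.card_fin, smul_eq_mul]

theorem Meas_len {n m W : ℕ} {σ : Type} (g : Fin n → Fin m → σ) (s : Fin n → ℤ)
    (w : Fin m → Fin W) :
    len (∏ i, ∏ j, X (g i j) ^ Meas_k s w i j : MvPolynomial σ ℤ) ≤ 1 := by
  refine (Val_len_prod _ _).trans ?_
  refine Finset.prod_le_one (fun i _ => Val_len_nonneg _) fun i _ => ?_
  refine (Val_len_prod _ _).trans ?_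
  refine Finset.prod_le_one (fun i _ => Val_len_nonneg _) fun j _ => ?_
  refine (Val_len_pow _ _).trans ?_
  exact pow_le_one₀ (Val_len_nonneg _) (Val_len_X _)

theorem Meas_pow_le_exp (y : ℝ) (hy : 0 ≤ y) (k : ℕ) : y ^ k ≤ Real.exp (k * y) := by
  rw [Real.exp_nat_mul]
  exact pow_le_pow_left₀ hy (by linarith [Real.add_one_le_exp y]) k

theorem Meas_core (h1 : S_FF) (h2 : S_Ord) (h3 : S_TayLow) (h4 : S_CoefLow) (Qb m e : ℕ)
    (he : e ≤ 1) (hme : 2 ≤ m + e) (b : Fin m → ℂ) (hb : FT Qb b) (hbl : LinearIndependent ℚ b)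
    (n : ℕ) (x : Fin n → ℂ) (hx : LinearIndependent ℚ x) (σ : Type) [Fintype σ] (θ : σ → ℂ)
    (g : Fin n → Fin m → σ) (hg : ∀ i j, θ (g i j) = Complex.exp (b j * x i))
    (hL : ∀ s : Fin n → ℤ, ∃ L : MvPolynomial σ ℤ, L.totalDegree ≤ 1 ∧
      len L ≤ ∑ i, |(s i : ℝ)| ∧ (e = 1 → aeval θ L = ∑ i, (s i : ℂ) * x i))
    (hTr : TrLe (m + e - 2) θ) : MS ((m + e - 1) * ((m + 2) * (Qb + 2))) x := by
  classical
  obtain ⟨C0, hC0, hFF⟩ := h1 σ (m + e - 2) θ hTr
  obtain ⟨Cc, hCc, hCL⟩ := h4 Qb m b hb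
  set τ := m + e - 2 with hτ
  have hτ1 : m + e - 1 = τ + 1 := by omega
  have hτ2 : m + e = τ + 2 := by omega
  rw [hτ1]
  set K1 : ℕ := 1 + 2 * n * m with hK1
  set K : ℕ := C0 * (K1 + 1) ^ τ with hK
  set C1 : ℕ := τ + 2 + n + (K1 + 1) * C0 with hC1
  set C3 : ℕ := 2 * (2 + C1) with hC3
  set sb : ℝ := ∑ j, ‖b j‖ with hsb
  set E : ℕ := (m + 2) * (Qb + 2) with hE
  set C5 : ℝ := 1 + (τ + 2) + C1 + sb with hC5
  set C4 : ℝ := Cc * (C3 : ℝ) ^ (Qb + 2) + C5 with hC4
  have hsb0 : 0 ≤ sb := Finset.sum_nonneg fun _ _ => norm_nonneg _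
  have hC51 : 1 ≤ C5 := by rw [hC5]; have : (0 : ℝ) ≤ τ := by positivity
                           have : (0 : ℝ) ≤ C1 := by positivity
                           linarith
  have hC41 : 1 ≤ C4 := by
    have : 0 ≤ Cc * (C3 : ℝ) ^ (Qb + 2) := by positivity
    rw [hC4]; linarith
  have hK0 : 1 ≤ K := Nat.mul_pos hC0 (by positivity)
  have hKr : (1 : ℝ) ≤ K := by exact_mod_cast hK0
  refine ⟨C4 * (K : ℝ) ^ E * 2 ^ ((τ + 1) * E), ?_, ?_⟩
  · have h5 : (1 : ℝ) ≤ (K : ℝ) ^ E := one_le_pow₀ hKr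
    have h6 : (1 : ℝ) ≤ 2 ^ ((τ + 1) * E) := one_le_pow₀ (by norm_num)
    have h7 : 1 ≤ C4 * (K : ℝ) ^ E := one_le_mul_of_one_le_of_one_le hC41 h5
    exact one_le_mul_of_one_le_of_one_le h7 h6
  intro s hs S hS hsS
  set z : ℂ := ∑ i, (s i : ℂ) * x i with hz
  obtain ⟨i0, hi0⟩ : ∃ i, s i ≠ 0 := by
    by_contra h
    push Not at h
    exact hs (funext h)
  have hn : 1 ≤ n := Nat.pos_of_ne_zero (by rintro rfl; exact i0.elim0)
  have hz0 : z ≠ 0 := by
    intro h0
    have h5 := Fintype.linearIndependent_iff.1 hx (fun i => (s i : ℚ)) (by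
      rw [← h0, hz]
      refine Finset.sum_congr rfl fun i _ => ?_
      rw [Algebra.smul_def]
      simp)
    have := h5 i0
    simp at this
    exact hi0 this
  set B : ℝ := C4 * (K : ℝ) ^ E * 2 ^ ((τ + 1) * E) with hB
  have hB1 : 1 ≤ B := by
    have h5 : (1 : ℝ) ≤ (K : ℝ) ^ E := one_le_pow₀ hKr
    have h6 : (1 : ℝ) ≤ 2 ^ ((τ + 1) * E) := one_le_pow₀ (by norm_num)
    have h7 : 1 ≤ C4 * (K : ℝ) ^ E := one_le_mul_of_one_le_of_one_le hC41 h5
    exact one_le_mul_of_one_le_of_one_le h7 h6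
  have hSQ : 1 ≤ S ^ ((τ + 1) * E) := one_le_pow₀ hS
  rcases le_or_gt ‖z‖ (1 / 2) with hzs | hzs
  swap
  · refine le_trans ?_ hzs.le
    have h5 : (1 : ℝ) ≤ B * S ^ ((τ + 1) * E) := one_le_mul_of_one_le_of_one_le hB1 hSQ
    have h6 : (2 : ℝ) ≤ Real.exp (B * S ^ ((τ + 1) * E)) := by
      have := Real.add_one_le_exp (B * S ^ ((τ + 1) * E))
      linarith
    rw [Real.exp_neg, one_div]
    exact inv_anti₀ (by norm_num) h6
  -- the integer S'
  set S' : ℕ := ⌈S⌉₊ with hS'
  have hSS' : S ≤ S' := Nat.le_ceil S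
  have hS'1 : 1 ≤ S' := by
    have : (1 : ℝ) ≤ S' := hS.trans hSS'
    exact_mod_cast this
  have hS'2 : (S' : ℝ) ≤ 2 * S := by
    have := Nat.ceil_lt_add_one (by linarith : (0 : ℝ) ≤ S)
    rw [← hS'] at this
    linarith
  have hsS' : ∀ i, |s i| ≤ (S' : ℤ) := by
    intro i
    have h5 : |(s i : ℝ)| ≤ (S' : ℝ) := (hsS i).trans hSS'
    exact_mod_cast h5
  clear_value S'
  set W : ℕ := K * S' ^ τ with hW
  have hW1 : 1 ≤ W := Nat.mul_pos hK0 (by positivity)
  have hWe : W ^ e ≤ W := by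
    rcases Nat.le_one_iff_eq_zero_or_eq_one.1 he with h | h
    · rw [h, pow_zero]; exact hW1
    · rw [h, pow_one]
  obtain ⟨L, hLd, hLl, hLe⟩ := hL s
  have hWS : W ≤ W * S' := Nat.le_mul_of_pos_right _ hS'1
  let P : Ix m (W ^ e) W → MvPolynomial σ ℤ := fun l =>
    L ^ (l.1 : ℕ) * ∏ i, ∏ j, X (g i j) ^ Meas_k s l.2 i j
  have hdeg : ∀ l, (P l).totalDegree ≤ K1 * (W * S') := by
    intro l
    refine (totalDegree_mul _ _).trans ?_
    have h5 := Meas_deg g s l.2 hsS'
    have h6 : (L ^ (l.1 : ℕ)).totalDegree ≤ W := by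
      refine (totalDegree_pow _ _).trans ?_
      calc (l.1 : ℕ) * L.totalDegree ≤ (l.1 : ℕ) * 1 := Nat.mul_le_mul_left _ hLd
        _ ≤ W := by rw [mul_one]; exact l.1.2.le.trans hWe
    calc _ ≤ W * S' + n * (m * (2 * W * S')) := add_le_add (h6.trans hWS) h5
      _ = K1 * (W * S') := by rw [hK1]; ring
  set H : ℝ := ((n : ℝ) * S') ^ W with hH
  have hnr : (1 : ℝ) ≤ n := by exact_mod_cast hn
  have hS'r : (1 : ℝ) ≤ S' := by exact_mod_cast hS'1
  have hnS : (1 : ℝ) ≤ (n : ℝ) * S' := one_le_mul_of_one_le_of_one_le hnr hS'r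
  have hH1 : 1 ≤ H := one_le_pow₀ hnS
  have hlen : ∀ l, len (P l) ≤ H := by
    intro l
    refine (Val_len_mul _ _).trans ?_
    have h5 := Meas_len g s l.2
    have h6 : len (L ^ (l.1 : ℕ)) ≤ H := by
      refine (Val_len_pow _ _).trans ?_
      have h7 : len L ≤ (n : ℝ) * S' := by
        refine hLl.trans ?_
        calc ∑ i, |(s i : ℝ)| ≤ ∑ _i : Fin n, (S' : ℝ) := Finset.sum_le_sum fun i _ => by
              exact_mod_cast hsS' i
          _ = (n : ℝ) * S' := by simp
      refine (pow_le_pow_left₀ (Val_len_nonneg _) h7 _).trans ?_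
      exact pow_le_pow_right₀ hnS (l.1.2.le.trans hWe)
    calc _ ≤ H * 1 := mul_le_mul h6 h5 (Val_len_nonneg _) (by linarith)
      _ = H := mul_one _
  have hcard : Fintype.card (Ix m (W ^ e) W) = W ^ (τ + 2) := by
    rw [Fintype.card_prod, Fintype.card_fun, Fintype.card_fin, Fintype.card_fin, Fintype.card_fin,
      ← pow_add, ← hτ2, add_comm]
  have hcond : C0 * (K1 * (W * S') + 1) ^ τ ≤ W ^ (τ + 2) := by
    have h5 : K1 * (W * S') + 1 ≤ (K1 + 1) * (W * S') := by
      have : 1 ≤ W * S' := Nat.mul_pos hW1 hS'1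
      nlinarith
    calc C0 * (K1 * (W * S') + 1) ^ τ ≤ C0 * ((K1 + 1) * (W * S')) ^ τ :=
          Nat.mul_le_mul_left _ (Nat.pow_le_pow_left h5 _)
      _ = W * W ^ τ := by rw [mul_pow, mul_pow, hW, hK]; ring
      _ ≤ W * (W * W ^ τ) := Nat.mul_le_mul_left _ (Nat.le_mul_of_pos_left _ hW1)
      _ = W ^ (τ + 2) := by ring
  obtain ⟨p, hp0, hpb, hps⟩ := hFF (Ix m (W ^ e) W) (K1 * (W * S')) H P hH1 hdeg hlen
    (by rw [hcard]; exact hcond)
  rw [hcard] at hpb
  set h : ℝ := (C1 : ℝ) * ((W : ℝ) * S') with hh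
  have hWr : (1 : ℝ) ≤ W := by exact_mod_cast hW1
  have hWSr : (1 : ℝ) ≤ (W : ℝ) * S' := one_le_mul_of_one_le_of_one_le hWr hS'r
  have hWWS : (W : ℝ) ≤ (W : ℝ) * S' := le_mul_of_one_le_right (by linarith) hS'r
  have hC11 : (1 : ℝ) ≤ C1 := by
    have : 1 ≤ C1 := by omega
    exact_mod_cast this
  have hh1 : 1 ≤ h := one_le_mul_of_one_le_of_one_le hC11 hWSr
  have hC0r : (1 : ℝ) ≤ C0 := by exact_mod_cast hC0
  have hWpow : ((W ^ (τ + 2) : ℕ) : ℝ) ≤ Real.exp (((τ : ℝ) + 2) * W) := by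
    have := Meas_pow_le_exp (W : ℝ) (by positivity) (τ + 2)
    push_cast at this ⊢
    exact this
  have hph : ∀ l, |(p l : ℝ)| ≤ Real.exp h := by
    intro l
    refine (hpb l).trans ?_
    have e1 := hWpow
    have e2 : H ≤ Real.exp (W * ((n : ℝ) * S')) := Meas_pow_le_exp _ (by linarith) W
    have e3 : (C0 : ℝ) ^ (K1 * (W * S') + 1) ≤ Real.exp (((K1 + 1 : ℕ) : ℝ) * (W * S') * C0) := by
      have e4 := Meas_pow_le_exp (C0 : ℝ) (by positivity) (K1 * (W * S') + 1)
      refine e4.trans (Real.exp_le_exp.2 (mul_le_mul_of_nonneg_right ?_ (by positivity)))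
      push_cast
      linarith
    calc ((W ^ (τ + 2) : ℕ) : ℝ) * (H * (C0 : ℝ) ^ (K1 * (W * S') + 1))
        ≤ Real.exp (((τ : ℝ) + 2) * W) * (Real.exp (W * ((n : ℝ) * S')) *
          Real.exp (((K1 + 1 : ℕ) : ℝ) * (W * S') * C0)) := by
          refine mul_le_mul e1 (mul_le_mul e2 e3 (by positivity) (by positivity)) (by positivity)
            (by positivity)
      _ = Real.exp (((τ : ℝ) + 2) * W + (W * ((n : ℝ) * S') +
          ((K1 + 1 : ℕ) : ℝ) * (W * S') * C0)) := by rw [Real.exp_add, Real.exp_add]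
      _ ≤ Real.exp h := by
          refine Real.exp_le_exp.2 ?_
          rw [hh, hC1]
          push_cast
          have : ((τ : ℝ) + 2) * W ≤ ((τ : ℝ) + 2) * (W * S') :=
            mul_le_mul_of_nonneg_left hWWS (by positivity)
          nlinarith
  -- the linear relation
  have hrel : ∑ l, (p l : ℂ) * (z ^ (l.1 : ℕ) * Complex.exp (bw b l * z)) = 0 := by
    set U : ℂ := Complex.exp ((W : ℂ) * ∑ i, ∑ j, ((|s i| : ℤ) : ℂ) * (b j * x i)) with hU
    have hP : ∀ l, aeval θ (P l) = U * (z ^ (l.1 : ℕ) * Complex.exp (bw b l * z)) := by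
      intro l
      show aeval θ (L ^ (l.1 : ℕ) * ∏ i, ∏ j, X (g i j) ^ Meas_k s l.2 i j) = _
      rw [map_mul, map_pow, Meas_aev b x θ g hg]
      have h5 : (aeval θ L) ^ (l.1 : ℕ) = z ^ (l.1 : ℕ) := by
        rcases Nat.le_one_iff_eq_zero_or_eq_one.1 he with h | h
        · have h6 : (l.1 : ℕ) = 0 := by
            have h7 := l.1.2
            have h8 : W ^ e = 1 := by rw [h, pow_zero]
            omega
          rw [h6, pow_zero, pow_zero]
        · rw [hLe h]
      rw [h5, bw]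
      ring
    have h5 : U * ∑ l, (p l : ℂ) * (z ^ (l.1 : ℕ) * Complex.exp (bw b l * z)) = 0 := by
      rw [← hps, Finset.mul_sum]
      refine Finset.sum_congr rfl fun l _ => ?_
      rw [hP]; ring
    exact (mul_eq_zero.1 h5).resolve_left (Complex.exp_ne_zero _)
  have hp0' : (fun l => (p l : ℂ)) ≠ 0 := by
    intro h5
    apply hp0
    funext l
    have := congrFun h5 l
    simpa using this
  obtain ⟨k, hk, hkne⟩ := h2 m (W ^ e) W b hbl (fun l => (p l : ℂ)) hp0'
  have hex : ∃ k, ∑ l, (p l : ℂ) * tc (l.1 : ℕ) (bw b l) k ≠ 0 := ⟨k, hkne⟩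
  set N := Nat.find hex with hN
  have hNne := Nat.find_spec hex
  rw [← hN] at hNne
  have hNk : N ≤ k := Nat.find_min' hex hkne
  have hNmin : ∀ k < N, ∑ l, (p l : ℂ) * tc (l.1 : ℕ) (bw b l) k = 0 := by
    intro k hk
    by_contra h5
    exact Nat.find_min hex hk h5
  have hNW : N ≤ W ^ (m + 1) := by
    refine hNk.trans (hk.trans ?_)
    calc W ^ e * W ^ m ≤ W * W ^ m := Nat.mul_le_mul_right _ hWe
      _ = W ^ (m + 1) := by ring
  have hT := h3 m (W ^ e) W b (fun l => (p l : ℂ)) N z hz0 hzs hrel hNmin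
  have hCL' := hCL (W ^ e) W N h p hh1 hph hNne
  have hM : ∑ l : Ix m (W ^ e) W, ‖(p l : ℂ)‖ * Real.exp ‖bw b l‖ ≤
      Real.exp (((τ : ℝ) + 2) * W + (h + W * sb)) := by
    have h5 : ∀ l ∈ (Finset.univ : Finset (Ix m (W ^ e) W)),
        ‖(p l : ℂ)‖ * Real.exp ‖bw b l‖ ≤ Real.exp h * Real.exp (W * sb) := by
      intro l _
      refine mul_le_mul ?_ (Real.exp_le_exp.2 ?_) (by positivity) (by positivity)
      · rw [Complex.norm_intCast]; exact hph l
      · rw [bw, hsb, Finset.mul_sum]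
        refine (norm_sum_le _ _).trans (Finset.sum_le_sum fun j _ => ?_)
        rw [norm_mul, Complex.norm_natCast]
        refine mul_le_mul_of_nonneg_right ?_ (norm_nonneg _)
        exact_mod_cast (l.2 j).2.le
    refine (Finset.sum_le_card_nsmul _ _ _ h5).trans ?_
    rw [Finset.card_univ, hcard, nsmul_eq_mul, Real.exp_add, Real.exp_add]
    exact mul_le_mul_of_nonneg_right hWpow (by positivity)
  -- conclusion
  have hN1 : ((N : ℝ) + 1) * (((W ^ e : ℕ) : ℝ) + W + h) ≤ C3 * ((W : ℝ) * S') ^ (m + 2) := by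
    have e1 : (N : ℝ) + 1 ≤ 2 * (W : ℝ) ^ (m + 1) := by
      have e2 : (N : ℝ) ≤ (W : ℝ) ^ (m + 1) := by exact_mod_cast hNW
      have e3 : (1 : ℝ) ≤ (W : ℝ) ^ (m + 1) := one_le_pow₀ hWr
      linarith
    have e2 : ((W ^ e : ℕ) : ℝ) + W + h ≤ (2 + C1) * (W * S') := by
      have e3 : ((W ^ e : ℕ) : ℝ) ≤ W := by exact_mod_cast hWe
      rw [hh]
      nlinarith
    have e4 : (0 : ℝ) ≤ ((W ^ e : ℕ) : ℝ) + W + h := by positivity
    calc ((N : ℝ) + 1) * (((W ^ e : ℕ) : ℝ) + W + h)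
        ≤ 2 * (W : ℝ) ^ (m + 1) * ((2 + C1) * (W * S')) :=
          mul_le_mul e1 e2 e4 (by positivity)
      _ = C3 * ((W : ℝ) ^ (m + 2) * S') := by rw [hC3]; push_cast; ring
      _ ≤ C3 * ((W : ℝ) ^ (m + 2) * (S' : ℝ) ^ (m + 2)) := by
          refine mul_le_mul_of_nonneg_left (mul_le_mul_of_nonneg_left ?_ (by positivity))
            (by positivity)
          exact le_self_pow₀ hS'r (by omega)
      _ = C3 * ((W : ℝ) * S') ^ (m + 2) := by rw [mul_pow]
  have hN2 : Cc * (((N : ℝ) + 1) * (((W ^ e : ℕ) : ℝ) + W + h)) ^ (Qb + 2) ≤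
      Cc * (C3 : ℝ) ^ (Qb + 2) * ((W : ℝ) * S') ^ E := by
    have e1 : (((N : ℝ) + 1) * (((W ^ e : ℕ) : ℝ) + W + h)) ^ (Qb + 2) ≤
        (C3 * ((W : ℝ) * S') ^ (m + 2)) ^ (Qb + 2) :=
      pow_le_pow_left₀ (by positivity) hN1 _
    have e2 : ((C3 : ℝ) * ((W : ℝ) * S') ^ (m + 2)) ^ (Qb + 2) =
        (C3 : ℝ) ^ (Qb + 2) * ((W : ℝ) * S') ^ E := by
      rw [mul_pow ((C3 : ℝ)), ← pow_mul ((W : ℝ) * S'), hE]
    rw [e2] at e1
    calc _ ≤ Cc * ((C3 : ℝ) ^ (Qb + 2) * ((W : ℝ) * S') ^ E) :=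
          mul_le_mul_of_nonneg_left e1 (by linarith)
      _ = _ := by ring
  have hE1 : 1 ≤ E := Nat.mul_pos (by omega) (by omega)
  have hN3 : 1 + (((τ : ℝ) + 2) * W + (h + W * sb)) ≤ C5 * ((W : ℝ) * S') ^ E := by
    have e1 : (W : ℝ) * S' ≤ ((W : ℝ) * S') ^ E := le_self_pow₀ hWSr (by omega)
    have e2 : 1 + (((τ : ℝ) + 2) * W + (h + W * sb)) ≤ C5 * ((W : ℝ) * S') := by
      have e3 : ((τ : ℝ) + 2) * W ≤ ((τ : ℝ) + 2) * (W * S') :=
        mul_le_mul_of_nonneg_left hWWS (by positivity)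
      have e4 : (W : ℝ) * sb ≤ W * S' * sb := mul_le_mul_of_nonneg_right hWWS hsb0
      rw [hC5, hh]
      nlinarith
    exact e2.trans (mul_le_mul_of_nonneg_left e1 (by linarith))
  have hN4 : ((W : ℝ) * S') ^ E ≤ (K : ℝ) ^ E * 2 ^ ((τ + 1) * E) * S ^ ((τ + 1) * E) := by
    have e1 : (W : ℝ) * S' = K * (S' : ℝ) ^ (τ + 1) := by rw [hW]; push_cast; ring
    rw [e1, mul_pow, ← pow_mul, mul_assoc, ← mul_pow]
    exact mul_le_mul_of_nonneg_left (pow_le_pow_left₀ (by positivity) hS'2 _) (by positivity)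
  have hfin : Real.exp (-(Cc * (((N : ℝ) + 1) * (((W ^ e : ℕ) : ℝ) + W + h)) ^ (Qb + 2))) ≤
      Real.exp (1 + (((τ : ℝ) + 2) * W + (h + W * sb))) * ‖z‖ := by
    refine (hCL'.trans hT).trans ?_
    refine mul_le_mul_of_nonneg_right ?_ (norm_nonneg _)
    rw [Real.exp_add]
    refine mul_le_mul ?_ hM (by positivity) (by positivity)
    have := Real.add_one_le_exp (1 : ℝ)
    linarith
  have hfin2 : Real.exp (-(Cc * (((N : ℝ) + 1) * (((W ^ e : ℕ) : ℝ) + W + h)) ^ (Qb + 2)) -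
      (1 + (((τ : ℝ) + 2) * W + (h + W * sb)))) ≤ ‖z‖ := by
    rw [Real.exp_sub, div_le_iff₀ (Real.exp_pos _), mul_comm ‖z‖]
    exact hfin
  refine le_trans (Real.exp_le_exp.2 ?_) hfin2
  have hfin3 : C4 * ((W : ℝ) * S') ^ E ≤ B * S ^ ((τ + 1) * E) := by
    calc C4 * ((W : ℝ) * S') ^ E ≤ C4 * ((K : ℝ) ^ E * 2 ^ ((τ + 1) * E) * S ^ ((τ + 1) * E)) :=
          mul_le_mul_of_nonneg_left hN4 (by linarith)
      _ = B * S ^ ((τ + 1) * E) := by rw [hB]; ring
  have hfin4 : C4 * ((W : ℝ) * S') ^ E = Cc * (C3 : ℝ) ^ (Qb + 2) * ((W : ℝ) * S') ^ E +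
      C5 * ((W : ℝ) * S') ^ E := by rw [hC4]; ring
  linarith

theorem pr_Meas (h1 : S_FF) (h2 : S_Ord) (h3 : S_TayLow) (h4 : S_CoefLow) : S_Meas := by
  classical
  intro Qb m e he hme
  refine ⟨(m + e - 1) * ((m + 2) * (Qb + 2)), fun b hb hbl n x hx => ⟨fun he1 hTr => ?_,
    fun he0 hTr => ?_⟩⟩
  · refine Meas_core h1 h2 h3 h4 Qb m e he hme b hb hbl n x hx _ (cd b x)
      (fun i j => Sum.inr (i, j)) (fun i j => rfl) (fun s => ?_) hTr
    refine ⟨∑ i, C (s i) * X (Sum.inl i), ?_, ?_, fun _ => ?_⟩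
    · refine totalDegree_finsetSum_le fun i _ => ?_
      refine (totalDegree_mul _ _).trans ?_
      rw [totalDegree_C, zero_add, totalDegree_X]
    · refine (Val_len_sum _ _).trans (Finset.sum_le_sum fun i _ => ?_)
      refine (Val_len_mul _ _).trans ?_
      calc _ ≤ |(s i : ℝ)| * 1 := mul_le_mul (Val_len_C _) (Val_len_X _) (Val_len_nonneg _)
            (abs_nonneg _)
        _ = |(s i : ℝ)| := mul_one _
    · rw [map_sum]
      refine Finset.sum_congr rfl fun i _ => ?_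
      rw [map_mul, aeval_X]
      simp [cd]
  · refine Meas_core h1 h2 h3 h4 Qb m e he hme b hb hbl n x hx _ (ce b x)
      (fun i j => (i, j)) (fun i j => rfl) (fun s => ?_) hTr
    refine ⟨0, by simp, ?_, fun h => absurd h (by omega)⟩
    have : len (0 : MvPolynomial (Fin n × Fin m) ℤ) = 0 := by simp [len]
    rw [this]
    exact Finset.sum_nonneg fun _ _ => abs_nonneg _

end Pool.Agent.Work.MP_8da9ea_nt.S

end

section

/-!
# X09: additive relations close to the true point are impossible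
-/

set_option autoImplicit false

namespace Pool.Agent.Work.MP_8da9ea_nt.S

open MvPolynomial Pool.Agent.Work.MP_327059_nt.GL

theorem pr_NoRelLX : S_NoRelLX := by
  intro q c Q
  refine ⟨q * c + 1, ?_⟩
  intro n hn l hMS
  obtain ⟨B, hB, hS⟩ := hMS
  refine ⟨2 ^ c + n + ⌈B⌉₊ + 2, ?_⟩
  intro T hT l' hl'
  by_contra hcon
  rw [not_lt] at hcon
  obtain ⟨u, hu⟩ : ∃ u : ℕ, u = 2 ^ c := ⟨_, rfl⟩
  obtain ⟨f, hf⟩ : ∃ f : ℕ, f = ⌈B⌉₊ := ⟨_, rfl⟩
  rw [← hu, ← hf] at hT
  have hT1 : 2 ^ c ≤ T := by rw [← hu]; omega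
  have hTn : n ≤ T := by omega
  have hT2 : 2 ≤ T := by omega
  have hTB : B + 1 ≤ T := by
    have e1 : B ≤ (⌈B⌉₊ : ℝ) := Nat.le_ceil B
    have e2 : ⌈B⌉₊ + 1 ≤ T := by rw [← hf]; omega
    have e3 : ((⌈B⌉₊ + 1 : ℕ) : ℝ) ≤ (T : ℝ) := by exact_mod_cast e2
    push_cast at e3
    linarith
  have hpow := NoRelL_pow q c n T hn hT1
  have hcnt : 1 < cntL T l' := by
    by_contra hle
    rw [not_lt] at hle
    have : (2 * T ^ q) ^ c * cntL T l' ≤ (2 * T ^ q) ^ c * 1 := Nat.mul_le_mul_left _ hle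
    rw [mul_one] at this
    omega
  obtain ⟨s, hs0, hsT, hs⟩ := NoRelL_exists T l' hcnt
  have hTr : (2 : ℝ) ≤ T := by exact_mod_cast hT2
  have hlow := hS s hs0 (T : ℝ) (by linarith) (fun i => by
    have := hsT i
    have e : ((|s i| : ℤ) : ℝ) ≤ ((T : ℤ) : ℝ) := by exact_mod_cast this
    rw [Int.cast_abs] at e
    simpa using e)
  set κ : ℕ := 2 * Q + 2 with hκ
  have hup : ‖∑ i, (s i : ℂ) * l i‖ ≤ n * (T * Real.exp (-(T : ℝ) ^ κ)) := by
    have e0 : ∑ i, (s i : ℂ) * l i = ∑ i, (s i : ℂ) * (l i - l' i) := by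
      have : ∑ i, (s i : ℂ) * (l i - l' i) = ∑ i, (s i : ℂ) * l i - ∑ i, (s i : ℂ) * l' i := by
        rw [← Finset.sum_sub_distrib]
        exact Finset.sum_congr rfl (fun i _ => by ring)
      rw [this, hs, sub_zero]
    rw [e0]
    calc ‖∑ i, (s i : ℂ) * (l i - l' i)‖ ≤ ∑ i, ‖(s i : ℂ) * (l i - l' i)‖ := norm_sum_le _ _
      _ ≤ ∑ _i : Fin n, ((T : ℝ) * Real.exp (-(T : ℝ) ^ κ)) := by
          refine Finset.sum_le_sum (fun i _ => ?_)
          rw [norm_mul]
          refine mul_le_mul ?_ ?_ (norm_nonneg _) (Nat.cast_nonneg _)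
          · rw [Complex.norm_intCast]
            have e : ((|s i| : ℤ) : ℝ) ≤ ((T : ℤ) : ℝ) := by exact_mod_cast hsT i
            rw [Int.cast_abs] at e
            simpa using e
          · rw [norm_sub_rev]; exact hl' i
      _ = n * (T * Real.exp (-(T : ℝ) ^ κ)) := by simp
  have hnr : (n : ℝ) ≤ T := by exact_mod_cast hTn
  have key : (n : ℝ) * (T * Real.exp (-(T : ℝ) ^ κ)) < Real.exp (-(B * T ^ Q)) := by
    have hTQ : (1 : ℝ) ≤ (T : ℝ) ^ Q := one_le_pow₀ (by linarith)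
    have e1 : (n : ℝ) * T ≤ (T : ℝ) ^ 2 := by nlinarith
    have e2 : (T : ℝ) ^ 2 < Real.exp ((T : ℝ) + 1) := by
      have h1 := Real.quadratic_le_exp_of_nonneg (by linarith : (0 : ℝ) ≤ T)
      have h2 : (2 : ℝ) ≤ Real.exp 1 := by have := Real.add_one_le_exp (1 : ℝ); linarith
      rw [Real.exp_add]
      have h3 : Real.exp T * 2 ≤ Real.exp T * Real.exp 1 :=
        mul_le_mul_of_nonneg_left h2 (Real.exp_pos _).le
      nlinarith
    have e3 : (T : ℝ) + 1 ≤ (T : ℝ) ^ κ - B * T ^ Q := by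
      have h3 : (T : ℝ) ^ (Q + 2) ≤ (T : ℝ) ^ κ :=
        pow_le_pow_right₀ (by linarith) (by rw [hκ]; omega)
      have h4 : (T : ℝ) ^ (Q + 2) = (T : ℝ) ^ Q * (T : ℝ) ^ 2 := pow_add _ _ _
      have h6 : (T : ℝ) + 1 ≤ (T : ℝ) ^ 2 - B := by nlinarith
      have h7 : (T : ℝ) ^ 2 - B ≤ (T : ℝ) ^ Q * ((T : ℝ) ^ 2 - B) :=
        le_mul_of_one_le_left (by linarith) hTQ
      nlinarith
    have e4 : (n : ℝ) * T < Real.exp ((T : ℝ) ^ κ - B * T ^ Q) :=
      lt_of_le_of_lt e1 (lt_of_lt_of_le e2 (Real.exp_le_exp.2 e3))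
    have e5 : Real.exp (-(B * (T : ℝ) ^ Q)) =
        Real.exp ((T : ℝ) ^ κ - B * T ^ Q) * Real.exp (-(T : ℝ) ^ κ) := by
      rw [← Real.exp_add]; congr 1; ring
    rw [e5, ← mul_assoc]
    exact mul_lt_mul_of_pos_right e4 (Real.exp_pos _)
  linarith

end Pool.Agent.Work.MP_8da9ea_nt.S

end

section

/-!
# X10: no polynomial of small degree vanishes on the perturbed points
-/

set_option autoImplicit false

namespace Pool.Agent.Work.MP_8da9ea_nt.S

open MvPolynomial Filter Topology Pool.Agent.Work.MP_327059_nt.GL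

lemma NoZeroX_nonzero (n m κ : ℕ) (hκ : κ ≠ 0) (b : Fin m → ℂ) (l : Fin n → ℂ) :
    ∃ T₀ : ℕ, ∀ T : ℕ, T₀ ≤ T → ∀ i j, Real.exp (-(T : ℝ) ^ κ) < ‖Complex.exp (b j * l i)‖ := by
  have h1 : Tendsto (fun T : ℕ => Real.exp (-(T : ℝ) ^ κ)) atTop (𝓝 0) := by
    refine Real.tendsto_exp_atBot.comp ?_
    refine tendsto_neg_atTop_atBot.comp ?_
    exact (tendsto_pow_atTop hκ).comp tendsto_natCast_atTop_atTop
  have h2 : ∀ᶠ T : ℕ in atTop, ∀ i j, Real.exp (-(T : ℝ) ^ κ) < ‖Complex.exp (b j * l i)‖ := by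
    rw [eventually_all]
    intro i
    rw [eventually_all]
    intro j
    exact h1.eventually_lt_const (norm_pos_iff.2 (Complex.exp_ne_zero _))
  obtain ⟨T₀, hT₀⟩ := eventually_atTop.1 h2
  exact ⟨T₀, hT₀⟩

theorem pr_NoZeroX (h1 : S_ZE) (h2 : S_NoRelYX) (h3 : S_NoRelLX) : S_NoZeroX := by
  intro m q Q
  obtain ⟨c, hc⟩ := h1 m
  obtain ⟨nY, hY⟩ := h2 m q c Q
  obtain ⟨nL, hL⟩ := h3 q c Q
  refine ⟨max nY nL, ?_⟩
  intro b hb n hn l hl
  obtain ⟨TY, hTY⟩ := hY b hb n ((le_max_left _ _).trans hn) l hl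
  obtain ⟨TL, hTL⟩ := hL n ((le_max_right _ _).trans hn) l hl
  obtain ⟨TN, hTN⟩ := NoZeroX_nonzero n m (2 * Q + 2) (by omega) b l
  refine ⟨max (max TY TL) (max TN 1), ?_⟩
  intro T hT l' y' hl' hy' P hP hzero
  have t1 : TY ≤ T := ((le_max_left _ _).trans (le_max_left _ _)).trans hT
  have t2 : TL ≤ T := ((le_max_right _ _).trans (le_max_left _ _)).trans hT
  have t3 : TN ≤ T := ((le_max_left _ _).trans (le_max_right _ _)).trans hT
  have t4 : 1 ≤ T := ((le_max_right _ _).trans (le_max_right _ _)).trans hT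
  have hne : ∀ i j, y' i j ≠ 0 := by
    intro i j h0
    have e1 := hy' i j
    rw [h0, zero_sub, norm_neg] at e1
    exact absurd (hTN T t3 i j) (not_lt.2 e1)
  by_contra hP0
  rcases hc n T (T ^ q) l' y' P hne hP0 (Nat.one_le_pow _ _ t4) hP hzero with
    ⟨w, hw0, hw, hcnt⟩ | hcnt
  · exact absurd (hTY T t1 y' hy' w hw0 hw) (not_lt.2 hcnt)
  · exact absurd (hTL T t2 l' hl') (not_lt.2 hcnt)

end Pool.Agent.Work.MP_8da9ea_nt.S

end

section

/-!
# X13: the transcendence input for arbitrary points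
-/

set_option autoImplicit false

namespace Pool.Agent.Work.MP_8da9ea_nt.S

open MvPolynomial Pool.Agent.Work.MP_327059_nt.GL

theorem pr_TIX (h1 : S_TIeX) : S_TIX := by
  intro Qb m
  rcases Nat.lt_or_ge m 1 with hm | hm
  · refine ⟨0, fun b _ _ n _ l _ => ⟨?_, ?_⟩⟩
    · have hm0 : m = 0 := by omega
      subst hm0
      exact ⟨Fin.elim0, TI_empty rfl _⟩
    · have hm0 : m = 0 := by omega
      subst hm0
      exact ⟨Fin.elim0, TI_empty rfl _⟩
  · obtain ⟨n1, hn1⟩ := h1 Qb m 1 le_rfl (by omega)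
    rcases Nat.lt_or_ge m 2 with hm2 | hm2
    · refine ⟨n1, fun b hb hbi n hn l hl => ⟨?_, ?_⟩⟩
      · exact TI_cast (by omega) _ ((hn1 b hb hbi n hn l hl).1 rfl)
      · have hm0 : m = 1 := by omega
        subst hm0
        exact ⟨Fin.elim0, TI_empty rfl _⟩
    · obtain ⟨n2, hn2⟩ := h1 Qb m 0 (by omega) (by omega)
      refine ⟨max n1 n2, fun b hb hbi n hn l hl => ⟨?_, ?_⟩⟩
      · exact TI_cast (by omega) _
          ((hn1 b hb hbi n (le_trans (le_max_left _ _) hn) l hl).1 rfl)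
      · exact TI_cast (σ := Fin n × Fin m) (by omega)
          (fun q : Fin n × Fin m => Complex.exp (b q.2 * l q.1))
          ((hn2 b hb hbi n (le_trans (le_max_right _ _) hn) l hl).2 rfl)

end Pool.Agent.Work.MP_8da9ea_nt.S

end
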