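import Pool.Agent.Work.MP_8da9ea_nt.NegFam
import Pool.Agent.Work.MP_8da9ea_nt.Bd.B06

/-! Bundle of small proof modules (one section per former module). -/

section

/-!
# Finite families of germs of negative weight vanish: main theorem
-/

set_option autoImplicit false

namespace Pool.Agent.Work.MP_8da9ea_nt

open Complex Filter Topology Metric

/-- A family of germs of weight `-1` with bounds at the punctures and at the cusp. -/
structure WFam (Ω : Set ℂ) (A : (τ : ℂ) → Set ((𝓝 τ).Germ ℂ)) : Prop extends Fam Ω A where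
  sub : Ω ⊆ HH
  punct : ∀ τ ∈ HH, ∀ᶠ t in 𝓝[≠] τ, t ∈ Ω
  memT : ∀ τ ∈ Ω, τ + 1 ∈ Ω
  memT' : ∀ τ ∈ Ω, τ - 1 ∈ Ω
  memS : ∀ τ ∈ Ω, -1 / τ ∈ Ω
  T : ∀ τ ∈ Ω, ∀ τ', τ' = τ + 1 → ∀ φ : ℂ → ℂ, (φ : (𝓝 τ).Germ ℂ) ∈ A τ →
    ((fun t => φ (t - 1) : ℂ → ℂ) : (𝓝 τ').Germ ℂ) ∈ A τ'
  T' : ∀ τ ∈ Ω, ∀ τ', τ' = τ - 1 → ∀ φ : ℂ → ℂ, (φ : (𝓝 τ).Germ ℂ) ∈ A τ →
    ((fun t => φ (t + 1) : ℂ → ℂ) : (𝓝 τ').Germ ℂ) ∈ A τ'
  S : ∀ τ ∈ Ω, ∀ τ', τ' = -1 / τ → ∀ φ : ℂ → ℂ, (φ : (𝓝 τ).Germ ℂ) ∈ A τ →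
    ((fun t => t * φ (-1 / t) : ℂ → ℂ) : (𝓝 τ').Germ ℂ) ∈ A τ'
  bdd : ∀ τ ∈ HH, ∃ K : ℝ, ∀ᶠ t in 𝓝[≠] τ, ∀ g ∈ A t, ‖Germ.value g‖ ≤ K
  cusp : ∃ C T : ℝ, 0 ≤ C ∧ 0 ≤ T ∧ ∀ τ : ℂ, T < τ.im → τ ∈ Ω ∧
    ∀ g ∈ A τ, |(Germ.value g).im| ≤ C * τ.im

variable {Ω : Set ℂ} {A : (τ : ℂ) → Set ((𝓝 τ).Germ ℂ)}

lemma tendsto_shift (τ : ℂ) (a : ℂ) : Tendsto (fun t : ℂ => t + a) (𝓝 τ) (𝓝 (τ + a)) := by
  have : ContinuousAt (fun t : ℂ => t + a) τ := by fun_prop
  exact this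

/-- the germ moved by `T` -/
noncomputable def mvT (τ : ℂ) (g : (𝓝 τ).Germ ℂ) : (𝓝 (τ + 1)).Germ ℂ :=
  g.compTendsto (fun t => t - 1) (by
    have h : ContinuousAt (fun t : ℂ => t - 1) (τ + 1) := by fun_prop
    have h2 := h.tendsto
    rwa [add_sub_cancel_right] at h2)

/-- the germ moved back by `T` -/
noncomputable def mvT' (τ : ℂ) (g : (𝓝 (τ + 1)).Germ ℂ) : (𝓝 τ).Germ ℂ :=
  g.compTendsto (fun t => t + 1) (tendsto_shift τ 1)

lemma mvT_coe (τ : ℂ) (φ : ℂ → ℂ) : mvT τ (φ : (𝓝 τ).Germ ℂ) =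
    ((fun t => φ (t - 1) : ℂ → ℂ) : (𝓝 (τ + 1)).Germ ℂ) := rfl

lemma mvT'_coe (τ : ℂ) (φ : ℂ → ℂ) : mvT' τ (φ : (𝓝 (τ + 1)).Germ ℂ) =
    ((fun t => φ (t + 1) : ℂ → ℂ) : (𝓝 τ).Germ ℂ) := rfl

lemma mvT'_mvT (τ : ℂ) (g : (𝓝 τ).Germ ℂ) : mvT' τ (mvT τ g) = g := by
  induction g using Germ.inductionOn with
  | h φ =>
    rw [mvT_coe, mvT'_coe]
    congr 1
    funext t
    simp

lemma mvT_mvT' (τ : ℂ) (g : (𝓝 (τ + 1)).Germ ℂ) : mvT τ (mvT' τ g) = g := by
  induction g using Germ.inductionOn with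
  | h φ =>
    rw [mvT'_coe, mvT_coe]
    congr 1
    funext t
    simp

lemma value_mvT (τ : ℂ) (g : (𝓝 τ).Germ ℂ) : Germ.value (mvT τ g) = Germ.value g := by
  induction g using Germ.inductionOn with
  | h φ =>
    rw [mvT_coe, Germ.value_ofFun, Germ.value_ofFun]
    simp

lemma WFam.bijT (hA : WFam Ω A) {τ : ℂ} (hτ : τ ∈ Ω) :
    Set.BijOn (mvT τ) (A τ) (A (τ + 1)) := by
  refine ⟨?_, ?_, ?_⟩
  · intro g hg
    induction g using Germ.inductionOn with
    | h φ => exact hA.T τ hτ _ rfl φ hg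
  · intro g _ g' _ h
    rw [← mvT'_mvT τ g, ← mvT'_mvT τ g', h]
  · intro g hg
    refine ⟨mvT' τ g, ?_, mvT_mvT' τ g⟩
    induction g using Germ.inductionOn with
    | h φ => exact hA.T' (τ + 1) (hA.memT τ hτ) τ (by ring) φ hg

lemma WFam.sum_T {E : Type*} [AddCommMonoid E] (hA : WFam Ω A) (ψ : ℂ → E) {τ : ℂ} (hτ : τ ∈ Ω) :
    Sm A ψ (τ + 1) = Sm A ψ τ := by
  unfold Sm
  exact (finsum_mem_eq_of_bijOn (mvT τ) (hA.bijT hτ) (fun g _ => by rw [value_mvT])).symm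

/-- the germ moved by `S` -/
noncomputable def mvS (τ τ' : ℂ) (h : τ = -1 / τ') (h0 : τ' ≠ 0) (g : (𝓝 τ).Germ ℂ) :
    (𝓝 τ').Germ ℂ :=
  ((fun t => t : ℂ → ℂ) : (𝓝 τ').Germ ℂ) * g.compTendsto (fun t => -1 / t) (by
    have h1 : ContinuousAt (fun t : ℂ => -1 / t) τ' := continuousAt_const.div continuousAt_id h0
    have h2 := h1.tendsto
    rwa [← h] at h2)

lemma mvS_coe {τ τ' : ℂ} (h : τ = -1 / τ') (h0 : τ' ≠ 0) (φ : ℂ → ℂ) :
    mvS τ τ' h h0 (φ : (𝓝 τ).Germ ℂ) =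
      ((fun t => t * φ (-1 / t) : ℂ → ℂ) : (𝓝 τ').Germ ℂ) := rfl

lemma value_mvS {τ τ' : ℂ} (h : τ = -1 / τ') (h0 : τ' ≠ 0) (g : (𝓝 τ).Germ ℂ) :
    Germ.value (mvS τ τ' h h0 g) = τ' * Germ.value g := by
  induction g using Germ.inductionOn with
  | h φ =>
    rw [mvS_coe, Germ.value_ofFun, Germ.value_ofFun, ← h]

lemma mvS_inj {τ τ' : ℂ} (h : τ = -1 / τ') (h0 : τ' ≠ 0) (hτ0 : τ ≠ 0) :
    Function.Injective (mvS τ τ' h h0) := by
  have h' : τ' = -1 / τ := by rw [h]; field_simp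
  intro g g' hg
  have key : ∀ g : (𝓝 τ).Germ ℂ, mvS τ' τ h' hτ0 (mvS τ τ' h h0 g) = -g := by
    intro g
    induction g using Germ.inductionOn with
    | h φ =>
      rw [mvS_coe, mvS_coe, ← Germ.coe_neg, germ_eq_iff]
      filter_upwards [isOpen_ne.mem_nhds hτ0] with t ht
      have ht0 : t ≠ 0 := ht
      simp only [Pi.neg_apply]
      have e : -1 / (-1 / t) = t := by field_simp
      rw [e]
      field_simp
  have h1 := congrArg (mvS τ' τ h' hτ0) hg
  rw [key, key] at h1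
  exact neg_injective h1

lemma WFam.bijS (hA : WFam Ω A) {τ τ' : ℂ} (hτ : τ ∈ Ω) (h : τ = -1 / τ') (h0 : τ' ≠ 0) :
    Set.BijOn (mvS τ τ' h h0) (A τ) (A τ') := by
  have hτ0 : τ ≠ 0 := ne_zero_of_im (hA.sub hτ)
  have h' : τ' = -1 / τ := by rw [h]; field_simp
  have hτ' : τ' ∈ Ω := by rw [h']; exact hA.memS τ hτ
  refine bijOn_of_two_inj (hA.fin τ hτ) (hA.fin τ' hτ') (e' := mvS τ' τ h' hτ0) ?_
    (mvS_inj h h0 hτ0).injOn ?_ (mvS_inj h' hτ0 h0).injOn
  · intro g hg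
    induction g using Germ.inductionOn with
    | h φ => exact hA.S τ hτ τ' h' φ hg
  · intro g hg
    induction g using Germ.inductionOn with
    | h φ => exact hA.S τ' hτ' τ h φ hg

lemma WFam.sum_S (hA : WFam Ω A) (m : ℕ) {τ : ℂ} (hτ : τ ∈ Ω) :
    τ ^ (2 * m) * Sm A (fun ζ => ζ ^ (2 * m)) (-1 / τ) = Sm A (fun ζ => ζ ^ (2 * m)) τ := by
  have hτ0 : τ ≠ 0 := ne_zero_of_im (hA.sub hτ)
  have hτ' : -1 / τ ∈ Ω := hA.memS τ hτ
  have h := finsum_mem_eq_of_bijOn (f := fun g => τ ^ (2 * m) * (Germ.value g) ^ (2 * m))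
    (g := fun g => (Germ.value g) ^ (2 * m)) (mvS (-1 / τ) τ rfl hτ0) (hA.bijS hτ' rfl hτ0)
    (fun g _ => by rw [value_mvS, mul_pow])
  unfold Sm
  rw [← h, finsum_mem_eq_finite_toFinset_sum _ (hA.fin _ hτ'),
    finsum_mem_eq_finite_toFinset_sum _ (hA.fin _ hτ'), Finset.mul_sum]

end Pool.Agent.Work.MP_8da9ea_nt

end

section

/-!
# Transfer of algebraic independence from germs to values
-/

set_option autoImplicit false

namespace Pool.Agent.Work.MP_8da9ea_nt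

open Complex Filter Topology MvPolynomial

section phi

open scoped IntermediateField.algebraAdjoinAdjoin in
/-- two families with the same polynomial relations generate isomorphic fields -/
lemma exists_phi {k σ A B : Type*} [Field k] [Field A] [Field B] [Algebra k A] [Algebra k B]
    (a : σ → A) (b : σ → B) (h : ∀ P : MvPolynomial σ k, aeval a P = 0 ↔ aeval b P = 0) :
    ∃ φ : IntermediateField.adjoin k (Set.range a) →ₐ[k] B,
      ∀ s (hs : a s ∈ IntermediateField.adjoin k (Set.range a)), φ ⟨a s, hs⟩ = b s := by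
  classical
  set A0 := Algebra.adjoin k (Set.range a) with hA0
  have hmem : ∀ P : MvPolynomial σ k, aeval a P ∈ A0 := by
    intro P
    rw [hA0, Algebra.adjoin_range_eq_range_aeval]
    exact ⟨P, rfl⟩
  let π : MvPolynomial σ k →ₐ[k] A0 := (aeval a).codRestrict A0 hmem
  have hπ : Function.Surjective π := by
    rintro ⟨u, hu⟩
    rw [hA0, Algebra.adjoin_range_eq_range_aeval] at hu
    obtain ⟨P, hP⟩ := hu
    exact ⟨P, Subtype.ext hP⟩
  have hker : ∀ P, π P = 0 ↔ aeval b P = 0 := by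
    intro P
    rw [← h P]
    exact ⟨fun hh => congrArg Subtype.val hh, fun hh => Subtype.ext hh⟩
  let e := Ideal.quotientKerAlgEquivOfSurjective hπ
  let g0 : (MvPolynomial σ k ⧸ RingHom.ker π) →ₐ[k] B :=
    Ideal.Quotient.liftₐ (RingHom.ker π) (aeval b) (fun P hP => (hker P).1 hP)
  let g : A0 →ₐ[k] B := g0.comp (e.symm : A0 →ₐ[k] _)
  have hg : ∀ P, g (π P) = aeval b P := by
    intro P
    have h1 : e.symm (π P) = Ideal.Quotient.mk (RingHom.ker π) P := by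
      rw [AlgEquiv.symm_apply_eq]
      rfl
    change g0 (e.symm (π P)) = _
    rw [h1]
    rfl
  have hginj : Function.Injective g := by
    rw [injective_iff_map_eq_zero]
    intro u hu
    obtain ⟨P, rfl⟩ := hπ u
    rw [hg] at hu
    exact (hker P).2 hu
  refine ⟨IsFractionRing.liftAlgHom (K := IntermediateField.adjoin k (Set.range a)) hginj, ?_⟩
  intro s hs
  have h1 : (⟨a s, hs⟩ : IntermediateField.adjoin k (Set.range a)) =
      algebraMap A0 (IntermediateField.adjoin k (Set.range a)) (π (X s)) := by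
    apply Subtype.ext
    change a s = aeval a (X s)
    rw [aeval_X]
  rw [h1, IsFractionRing.liftAlgHom_apply, IsFractionRing.lift_algebraMap]
  have := hg (X s)
  rw [aeval_X] at this
  exact this

/-- transfer of algebraic independence over a field of constants -/
lemma transfer {k M S : Type*} [Field k] [Algebra k ℂ] [Field M] [Algebra ℂ M]
    (Kx : IntermediateField k ℂ) (φ : Kx →+* M) (K₀ : IntermediateField ℚ ℂ)
    (hK : ∀ u ∈ K₀, ∃ h : u ∈ Kx, φ ⟨u, h⟩ = algebraMap ℂ M u)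
    (a : S → ℂ) (ha : ∀ i, a i ∈ Kx) (b : S → M) (hb : ∀ i, φ ⟨a i, ha i⟩ = b i)
    (hind : AlgebraicIndependent ℂ b) : AlgebraicIndependent K₀ a := by
  rw [algebraicIndependent_iff]
  intro P hP
  let ψ : K₀ →+* Kx :=
    { toFun := fun u => ⟨u, (hK u u.2).1⟩
      map_one' := rfl
      map_mul' := fun _ _ => rfl
      map_zero' := rfl
      map_add' := fun _ _ => rfl }
  have h1 : MvPolynomial.eval₂ ψ (fun i => (⟨a i, ha i⟩ : Kx)) P = 0 := by
    apply Subtype.ext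
    change Kx.val.toRingHom (MvPolynomial.eval₂ ψ (fun i => (⟨a i, ha i⟩ : Kx)) P) = 0
    rw [MvPolynomial.hom_eval₂]
    exact hP
  have h2 := congrArg φ h1
  rw [map_zero, MvPolynomial.hom_eval₂] at h2
  have h3 : φ.comp ψ = (algebraMap ℂ M).comp (algebraMap K₀ ℂ) := by
    ext u
    exact (hK u u.2).2
  rw [h3] at h2
  have h4 : (fun i => φ ((fun i => (⟨a i, ha i⟩ : Kx)) i)) = b := by
    funext i
    exact hb i
  have h5 : aeval b (MvPolynomial.map (algebraMap K₀ ℂ) P) = 0 := by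
    rw [aeval_def, MvPolynomial.eval₂_map]
    rw [← h2]
    congr 1
    exact h4.symm
  have h6 := (algebraicIndependent_iff.1 hind) _ h5
  exact (map_eq_zero_iff _ (MvPolynomial.map_injective _ (algebraMap K₀ ℂ).injective)).1 h6

/-- a field generated by elements fixed by `φ` is fixed by `φ` -/
lemma fixed_adjoin {k M : Type*} [Field k] [Algebra k ℂ] [Field M] [Algebra ℂ M]
    (Kx : IntermediateField k ℂ) (φ : Kx →+* M) (S : Set ℂ)
    (hS : ∀ u ∈ S, ∃ h : u ∈ Kx, φ ⟨u, h⟩ = algebraMap ℂ M u) :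
    ∀ u ∈ IntermediateField.adjoin ℚ S, ∃ h : u ∈ Kx, φ ⟨u, h⟩ = algebraMap ℂ M u := by
  intro u hu
  induction hu using IntermediateField.adjoin_induction with
  | mem x hx => exact hS x hx
  | algebraMap q =>
    have h : (algebraMap ℚ ℂ q) ∈ Kx := by
      rw [eq_ratCast]
      exact SubfieldClass.ratCast_mem Kx q
    refine ⟨h, ?_⟩
    have h1 : (⟨algebraMap ℚ ℂ q, h⟩ : Kx) = (q : Kx) := by
      apply Subtype.ext
      simp
    rw [h1, map_ratCast, eq_ratCast, map_ratCast]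
  | add x y _ _ hx hy =>
    obtain ⟨h1, h2⟩ := hx
    obtain ⟨h3, h4⟩ := hy
    refine ⟨add_mem h1 h3, ?_⟩
    have h5 : (⟨x + y, add_mem h1 h3⟩ : Kx) = ⟨x, h1⟩ + ⟨y, h3⟩ := rfl
    rw [h5, map_add, map_add, h2, h4]
  | inv x _ hx =>
    obtain ⟨h1, h2⟩ := hx
    refine ⟨inv_mem h1, ?_⟩
    have h5 : (⟨x⁻¹, inv_mem h1⟩ : Kx) = (⟨x, h1⟩ : Kx)⁻¹ := rfl
    rw [h5, map_inv₀, map_inv₀, h2]
  | mul x y _ _ hx hy =>
    obtain ⟨h1, h2⟩ := hx
    obtain ⟨h3, h4⟩ := hy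
    refine ⟨mul_mem h1 h3, ?_⟩
    have h5 : (⟨x * y, mul_mem h1 h3⟩ : Kx) = ⟨x, h1⟩ * ⟨y, h3⟩ := rfl
    rw [h5, map_mul, map_mul, h2, h4]

end phi

section germs

variable {τ₀ : ℂ}

lemma gm_zpow {f : ℂ → ℂ} (hf : MeromorphicAt f τ₀) (n : ℤ) :
    gm τ₀ f ^ n = gm τ₀ (fun x => f x ^ n) := by
  cases n with
  | ofNat n =>
    simp only [Int.ofNat_eq_natCast, zpow_natCast]
    exact gm_pow hf n
  | negSucc n =>
    simp only [zpow_negSucc]
    rw [gm_pow hf, gm_inv (hf.fun_pow _)]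

lemma gm_prod {κ : Type*} (s : Finset κ) (f : κ → ℂ → ℂ) (hf : ∀ l, MeromorphicAt (f l) τ₀) :
    MeromorphicAt (fun x => ∏ l ∈ s, f l x) τ₀ ∧
    ∏ l ∈ s, gm τ₀ (f l) = gm τ₀ (fun x => ∏ l ∈ s, f l x) := by
  classical
  induction s using Finset.induction_on with
  | empty =>
    simp only [Finset.prod_empty]
    exact ⟨MeromorphicAt.const 1 τ₀, by rw [gm_const, map_one]⟩
  | insert a s ha ih =>
    simp only [Finset.prod_insert ha]
    exact ⟨(hf a).fun_mul ih.1, by rw [ih.2, gm_mul (hf a) ih.1]⟩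

lemma gm_sum {κ : Type*} (s : Finset κ) (f : κ → ℂ → ℂ) (hf : ∀ l, MeromorphicAt (f l) τ₀) :
    MeromorphicAt (fun x => ∑ l ∈ s, f l x) τ₀ ∧
    ∑ l ∈ s, gm τ₀ (f l) = gm τ₀ (fun x => ∑ l ∈ s, f l x) := by
  classical
  induction s using Finset.induction_on with
  | empty =>
    simp only [Finset.sum_empty]
    exact ⟨MeromorphicAt.const 0 τ₀, by rw [gm_const, map_zero]⟩
  | insert a s ha ih =>
    simp only [Finset.sum_insert ha]
    exact ⟨(hf a).fun_add ih.1, by rw [ih.2, gm_add (hf a) ih.1]⟩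

lemma gm_intCast (n : ℤ) : ((n : ℤ) : MG τ₀) = gm τ₀ (fun _ => (n : ℂ)) := by
  rw [gm_const, map_intCast]

/-- integral combinations of germs -/
lemma gm_comb {κ : Type*} (s : Finset κ) (m : κ → ℤ) (f : κ → ℂ → ℂ)
    (hf : ∀ l, MeromorphicAt (f l) τ₀) :
    ∑ l ∈ s, (m l : MG τ₀) * gm τ₀ (f l) = gm τ₀ (fun x => ∑ l ∈ s, (m l : ℂ) * f l x) := by
  rw [← (gm_sum s (fun l x => (m l : ℂ) * f l x)
    (fun l => (MeromorphicAt.const _ _).fun_mul (hf l))).2]
  refine Finset.sum_congr rfl fun l _ => ?_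
  rw [gm_intCast, gm_mul (MeromorphicAt.const _ _) (hf l)]

/-- selection of the exponents which are independent modulo constants -/
lemma select {s : ℕ} (t : Fin s → ℂ → ℂ) (ht : ∀ l, AnalyticAt ℂ (t l) τ₀) :
    ∃ J : Finset (Fin s),
      (∀ (m : J → ℤ) (c : ℂ), (∀ᶠ τ in 𝓝 τ₀, ∑ l, (m l : ℂ) * t l τ = c) → m = 0) ∧
      ∀ l, ∃ (N : ℤ) (m : J → ℤ) (c : ℂ), N ≠ 0 ∧
        ∀ᶠ τ in 𝓝 τ₀, (N : ℂ) * t l τ - ∑ j, (m j : ℂ) * t j τ = c := by
  classical
  set W : Submodule ℚ (MG τ₀) :=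
    (LinearMap.range (Algebra.linearMap ℂ (MG τ₀))).restrictScalars ℚ with hW
  set v : Fin s → (MG τ₀ ⧸ W) := fun l => W.mkQ (gm τ₀ (t l)) with hv
  obtain ⟨J, hJ, hJc⟩ := exists_rel_basis (k := 0) ![] (linearIndependent_empty_type) v
  have hJ' : LinearIndependent ℚ (fun j : J => v j) := hJ.comp Sum.inr Sum.inr_injective
  have hW0 : ∀ u : MG τ₀, W.mkQ u = 0 ↔ ∃ c : ℂ, algebraMap ℂ (MG τ₀) c = u := by
    intro u
    rw [Submodule.mkQ_apply, Submodule.Quotient.mk_eq_zero, hW, Submodule.restrictScalars_mem,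
      LinearMap.mem_range]
    rfl
  have hmer : ∀ l, MeromorphicAt (t l) τ₀ := fun l => (ht l).meromorphicAt
  refine ⟨J, ?_, ?_⟩
  · intro m c hc
    have h1 : ∑ j : J, (m j : ℚ) • v j = 0 := by
      have h2 : ∑ j : J, (m j : ℚ) • v j =
          W.mkQ (∑ j : J, (m j : MG τ₀) * gm τ₀ (t j)) := by
        rw [map_sum]
        refine Finset.sum_congr rfl fun j _ => ?_
        rw [hv, ← map_smul, Rat.smul_def]
        push_cast
        rfl
      rw [h2, hW0]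
      refine ⟨c, ?_⟩
      rw [gm_comb Finset.univ m (fun j : J => t j) (fun j => hmer j), ← gm_const]
      refine gm_eq_of analyticAt_const ?_
      filter_upwards [hc] with τ hτ
      exact hτ.symm
    have h3 := (Fintype.linearIndependent_iff.1 hJ') (fun j => (m j : ℚ)) h1
    funext j
    exact_mod_cast h3 j
  · intro l
    have hspan : v l ∈ Submodule.span ℚ (Set.range fun j : J => v j) := by
      have h1 : Submodule.span ℚ (Set.range fun j : J => v j) = Submodule.span ℚ (Set.range v) := by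
        have h0 : Set.range v ∪ Set.range (![] : Fin 0 → (MG τ₀ ⧸ W)) = Set.range v := by simp
        rw [h0, add_zero] at hJc
        have hfd : FiniteDimensional ℚ (Submodule.span ℚ (Set.range v)) :=
          FiniteDimensional.span_of_finite ℚ (Set.finite_range v)
        apply Submodule.eq_of_le_of_finrank_eq
        · apply Submodule.span_mono
          rintro _ ⟨j, rfl⟩
          exact ⟨j, rfl⟩
        · rw [finrank_span_eq_card hJ', Fintype.card_coe, hJc]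
      rw [h1]
      exact Submodule.subset_span ⟨l, rfl⟩
    obtain ⟨q, hq⟩ := (Submodule.mem_span_range_iff_exists_fun ℚ).1 hspan
    obtain ⟨N, m, hN, hm⟩ := clear_rat q
    have h2 : W.mkQ (((N : ℤ) : MG τ₀) * gm τ₀ (t l) - ∑ j : J, (m j : MG τ₀) * gm τ₀ (t j)) = 0 := by
      rw [map_sub, map_sum]
      have h3 : W.mkQ (((N : ℤ) : MG τ₀) * gm τ₀ (t l)) = (N : ℚ) • v l := by
        rw [hv, ← map_smul, Rat.smul_def]
        push_cast
        rfl
      have h4 : ∀ j : J, W.mkQ ((m j : MG τ₀) * gm τ₀ (t j)) = (N : ℚ) • (q j • v j) := by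
        intro j
        rw [smul_smul, ← hm j, hv, ← map_smul, Rat.smul_def]
        push_cast
        rfl
      simp only [h3, h4]
      rw [← Finset.smul_sum, hq, sub_self]
    obtain ⟨c, hc⟩ := (hW0 _).1 h2
    refine ⟨N, m, c, by exact_mod_cast hN, ?_⟩
    have hA : AnalyticAt ℂ (fun τ => ((N : ℤ) : ℂ) * t l τ - ∑ j : J, (m j : ℂ) * t j τ) τ₀ := by
      refine (analyticAt_const.mul (ht l)).sub ?_
      exact Finset.analyticAt_fun_sum _ fun j _ => analyticAt_const.mul (ht j)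
    have hS : MeromorphicAt (fun τ => ∑ j : J, (m j : ℂ) * t j τ) τ₀ :=
      (Finset.analyticAt_fun_sum _ fun (j : J) _ => analyticAt_const.mul (ht j)).meromorphicAt
    rw [gm_comb Finset.univ m (fun j : J => t j) (fun j => hmer j), gm_intCast,
      gm_mul (MeromorphicAt.const _ _) (hmer l),
      gm_sub ((MeromorphicAt.const _ _).fun_mul (hmer l)) hS, ← gm_const,
      gm_eq_iff analyticAt_const hA] at hc
    filter_upwards [hc] with τ hτ
    exact hτ.symm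

end germs

end Pool.Agent.Work.MP_8da9ea_nt

end

section

/-!
# Finite families of germs of negative weight vanish: the cusp
-/

set_option autoImplicit false

namespace Pool.Agent.Work.MP_8da9ea_nt

open Complex Filter Topology Metric

variable {Ω : Set ℂ} {A : (τ : ℂ) → Set ((𝓝 τ).Germ ℂ)}

/-- the difference quotient -/
noncomputable def dq (m : ℕ) (h : ℝ) (ζ : ℂ) : ℂ := ((exp (2 * Real.pi * I * h * ζ) - 1) / h) ^ m

lemma dq_diff (m : ℕ) (h : ℝ) : Differentiable ℂ (dq m h) := by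
  unfold dq
  fun_prop

lemma norm_exp_sub_one_le' (w : ℂ) : ‖exp w - 1‖ ≤ ‖w‖ * Real.exp ‖w‖ := by
  have h := norm_exp_sub_sum_le_norm_mul_exp w 1
  simpa using h

lemma dq_bound (m : ℕ) {h : ℝ} (h0 : 0 < h) (h1 : h ≤ 1) {ζ : ℂ} {R : ℝ} (hR : ‖ζ‖ ≤ R) :
    ‖dq m h ζ‖ ≤ (2 * Real.pi * R * Real.exp (2 * Real.pi * R)) ^ m := by
  unfold dq
  rw [norm_pow]
  have hpi := Real.pi_pos
  have hR0 : 0 ≤ R := (norm_nonneg _).trans hR
  have hn : ‖2 * Real.pi * I * h * ζ‖ = 2 * Real.pi * h * ‖ζ‖ := by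
    simp [abs_of_pos hpi, abs_of_pos h0]
  gcongr
  rw [norm_div, Complex.norm_of_nonneg h0.le, div_le_iff₀ h0]
  calc ‖exp (2 * Real.pi * I * h * ζ) - 1‖ ≤ ‖2 * Real.pi * I * h * ζ‖ *
        Real.exp ‖2 * Real.pi * I * h * ζ‖ := norm_exp_sub_one_le' _
    _ = 2 * Real.pi * h * ‖ζ‖ * Real.exp (2 * Real.pi * h * ‖ζ‖) := by rw [hn]
    _ ≤ 2 * Real.pi * h * R * Real.exp (2 * Real.pi * 1 * R) := by
        gcongr
    _ = 2 * Real.pi * R * Real.exp (2 * Real.pi * R) * h := by rw [mul_one]; ring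

lemma dq_growth (m : ℕ) {h : ℝ} (h0 : 0 < h) {ζ : ℂ} {B : ℝ} (hB0 : 0 ≤ B) (hB : |ζ.im| ≤ B) :
    ‖dq m h ζ‖ ≤ (2 / h) ^ m * Real.exp (2 * Real.pi * h * m * B) := by
  unfold dq
  rw [norm_pow, norm_div, Complex.norm_of_nonneg h0.le]
  have hpi := Real.pi_pos
  have h1 : ‖exp (2 * Real.pi * I * h * ζ)‖ ≤ Real.exp (2 * Real.pi * h * B) := by
    rw [norm_exp]
    apply Real.exp_le_exp.2
    have e : (2 * Real.pi * I * h * ζ).re = -(2 * Real.pi * h * ζ.im) := by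
      simp
    rw [e]
    have := abs_le.1 hB
    have h2 : 0 < 2 * Real.pi * h := by positivity
    nlinarith
  have h2 : ‖exp (2 * Real.pi * I * h * ζ) - 1‖ ≤ 2 * Real.exp (2 * Real.pi * h * B) := by
    calc _ ≤ ‖exp (2 * Real.pi * I * h * ζ)‖ + ‖(1 : ℂ)‖ := norm_sub_le _ _
      _ ≤ Real.exp (2 * Real.pi * h * B) + Real.exp (2 * Real.pi * h * B) := by
          gcongr
          rw [norm_one]
          exact Real.one_le_exp (by positivity)
      _ = _ := by ring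
  calc (‖exp (2 * Real.pi * I * h * ζ) - 1‖ / h) ^ m ≤
        (2 * Real.exp (2 * Real.pi * h * B) / h) ^ m := by gcongr
    _ = (2 / h) ^ m * Real.exp (2 * Real.pi * h * m * B) := by
        rw [show 2 * Real.exp (2 * Real.pi * h * B) / h = 2 / h * Real.exp (2 * Real.pi * h * B) by
          ring, mul_pow, ← Real.exp_nat_mul]
        congr 2
        ring

lemma tendsto_dq (m : ℕ) (ζ : ℂ) :
    Tendsto (fun h : ℝ => dq m h ζ) (𝓝[>] 0) (𝓝 ((2 * Real.pi * I * ζ) ^ m)) := by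
  unfold dq
  apply Tendsto.pow
  have h1 : HasDerivAt (fun h : ℝ => exp (2 * Real.pi * I * h * ζ)) (2 * Real.pi * I * ζ) 0 := by
    have h2 : HasDerivAt (fun h : ℝ => 2 * Real.pi * I * h * ζ) (2 * Real.pi * I * ζ) 0 := by
      have h3 : HasDerivAt (fun h : ℝ => (h : ℂ)) 1 0 := ofRealCLM.hasDerivAt
      have h4 := (h3.const_mul (2 * Real.pi * I)).mul_const ζ
      simpa using h4
    have h5 := h2.cexp
    simpa using h5
  have h6 := h1.tendsto_slope_zero_right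
  refine h6.congr fun h => ?_
  simp only [zero_add, ofReal_zero, mul_zero, zero_mul, exp_zero]
  rw [real_smul, ofReal_inv]
  field_simp

lemma WFam.exists_value_bound (hA : WFam Ω A) {T1 : ℝ} (hT : ∀ τ : ℂ, τ.im = T1 → τ ∈ Ω) :
    ∃ R : ℝ, 0 ≤ R ∧ ∀ τ : ℂ, τ.im = T1 → ∀ g ∈ A τ, ‖Germ.value g‖ ≤ R := by
  set b : ℝ → ℝ := fun x => Sm A (fun ζ => ‖ζ‖) (x + T1 * I) with hb
  have him : ∀ x : ℝ, ((x : ℂ) + T1 * I).im = T1 := fun x => by simp
  have hcont : Continuous b := by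
    rw [continuous_iff_continuousAt]
    intro x
    have h1 := hA.toFam.continuousAt (hT _ (him x)) (ψ := fun ζ : ℂ => ‖ζ‖) continuous_norm
    have h2 : ContinuousAt (fun x : ℝ => (x : ℂ) + T1 * I) x := by fun_prop
    exact ContinuousAt.comp (f := fun x : ℝ => (x : ℂ) + T1 * I) h1 h2
  have hper : Function.Periodic b 1 := by
    intro x
    simp only [hb]
    have := hA.sum_T (fun ζ : ℂ => ‖ζ‖) (hT _ (him x))
    rw [← this]
    congr 1
    push_cast
    ring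
  obtain ⟨x0, -, hx0⟩ := (isCompact_Icc (a := (0 : ℝ)) (b := 1)).exists_isMaxOn
    ⟨0, by simp⟩ hcont.continuousOn
  have hmax : ∀ x, b x ≤ b x0 := by
    intro x
    obtain ⟨y, hy, hxy⟩ := hper.exists_mem_Ico₀ one_pos x
    rw [hxy]
    exact hx0 ⟨hy.1, hy.2.le⟩
  have hval : ∀ τ : ℂ, τ.im = T1 → ∀ g ∈ A τ, ‖Germ.value g‖ ≤ b x0 := by
    intro τ hτ g hg
    have hτΩ := hT τ hτ
    have e : ((τ.re : ℝ) : ℂ) + T1 * I = τ := by
      rw [← hτ, re_add_im]
    have h1 : ‖Germ.value g‖ ≤ b τ.re := by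
      simp only [hb]
      rw [e]
      unfold Sm
      rw [finsum_mem_eq_finite_toFinset_sum _ (hA.fin τ hτΩ)]
      exact Finset.single_le_sum (f := fun g => ‖Germ.value g‖) (fun _ _ => norm_nonneg _)
        ((Set.Finite.mem_toFinset _).2 hg)
    exact h1.trans (hmax _)
  refine ⟨max (b x0) 0, le_max_right _ _, fun τ hτ g hg => (hval τ hτ g hg).trans (le_max_left _ _)⟩

lemma norm_Sm_le (hA : WFam Ω A) {τ : ℂ} (hτ : τ ∈ Ω) {ψ : ℂ → ℂ} {K : ℝ}
    (hK : ∀ g ∈ A τ, ‖ψ (Germ.value g)‖ ≤ K) : ‖Sm A ψ τ‖ ≤ (A τ).ncard * K := by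
  unfold Sm
  rw [finsum_mem_eq_finite_toFinset_sum _ (hA.fin τ hτ)]
  refine (norm_sum_le _ _).trans ?_
  refine (Finset.sum_le_card_nsmul _ _ K fun g hg => hK g ((Set.Finite.mem_toFinset _).1 hg)).trans ?_
  rw [nsmul_eq_mul, Set.ncard_eq_toFinset_card _ (hA.fin τ hτ)]

lemma WFam.ncard_const (hA : WFam Ω A) {s : Set ℂ} (hs : IsPreconnected s) (hsΩ : s ⊆ Ω)
    {τ τ' : ℂ} (hτ : τ ∈ s) (hτ' : τ' ∈ s) : (A τ).ncard = (A τ').ncard := by
  refine hs.constant (f := fun τ => (A τ).ncard) ?_ hτ hτ'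
  intro t ht
  apply ContinuousAt.continuousWithinAt
  obtain ⟨r, hr, hsub, φ, hφa, hbij⟩ := hA.localBij (hsΩ ht)
  have h1 : (fun τ => (A τ).ncard) =ᶠ[𝓝 t] fun _ => (A t).ncard := by
    filter_upwards [ball_mem_nhds t hr] with u hu
    have h2 := hbij u hu
    rw [← h2.image_eq, h2.injOn.ncard_image]
  exact continuousAt_const.congr h1.symm

theorem WFam.pow_bounded (hA : WFam Ω A) (m : ℕ) :
    ∃ K T : ℝ, ∀ τ : ℂ, T ≤ τ.im → ‖Sm A (fun ζ => ζ ^ m) τ‖ ≤ K := by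
  obtain ⟨C, T, hC, hT0, hcusp⟩ := hA.cusp
  set T1 : ℝ := T + 1 with hT1
  have hΩ : ∀ τ : ℂ, T < τ.im → τ ∈ Ω := fun τ hτ => (hcusp τ hτ).1
  obtain ⟨R, hR0, hR⟩ := hA.exists_value_bound (T1 := T1) (fun τ hτ => hΩ τ (by rw [hτ, hT1]; linarith))
  set N : ℝ := ((A (T1 * I)).ncard : ℝ) with hN
  have hmem1 : (T1 * I : ℂ) ∈ {τ : ℂ | T < τ.im} := by simp [hT1]
  have hhalf : IsPreconnected {τ : ℂ | T < τ.im} := by
    have : Convex ℝ {τ : ℂ | T < τ.im} := convex_halfSpace_im_gt T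
    exact this.isPreconnected
  have hcard : ∀ τ : ℂ, T < τ.im → ((A τ).ncard : ℝ) = N := by
    intro τ hτ
    rw [hN]
    congr 1
    exact hA.ncard_const hhalf (fun τ hτ => hΩ τ hτ) hτ hmem1
  have hN0 : 0 ≤ N := by positivity
  set K : ℝ := N * (2 * Real.pi * R * Real.exp (2 * Real.pi * R)) ^ m with hK
  have hpi := Real.pi_pos
  -- the bound for the difference quotients
  have hdq : ∀ h : ℝ, 0 < h → h ≤ 1 → h * m * C < 1 → ∀ τ : ℂ, T1 ≤ τ.im →
      ‖Sm A (dq m h) τ‖ ≤ K := by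
    intro h h0 h1 hmC
    set D : ℂ → ℂ := fun τ => if T < τ.im then Sm A (dq m h) τ else 0 with hD
    have hDeq : ∀ τ : ℂ, T < τ.im → D τ = Sm A (dq m h) τ := fun τ hτ => by simp [hD, hτ]
    have hmain : ∀ τ : ℂ, T1 ≤ τ.im → ‖D τ‖ ≤ K := by
      refine cusp_max (T := T) (a := 2 * Real.pi * (h * m * C)) (M := N * (2 / h) ^ m) ?_ ?_ ?_ ?_
        (by rw [hT1]; linarith) ?_
      · intro τ
        rw [ofReal_one]
        by_cases hτ : T < τ.im
        · have hτ' : T < (τ + 1).im := by simpa using hτ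
          rw [hDeq _ hτ, hDeq _ hτ']
          exact hA.sum_T _ (hΩ τ hτ)
        · have hτ' : ¬ T < (τ + 1).im := by simpa using hτ
          simp only [hD]
          rw [if_neg hτ, if_neg hτ']
      · intro τ hτ
        have h2 := (hA.toFam.analyticAt (hΩ τ hτ) (dq_diff m h)).differentiableAt
        refine h2.congr_of_eventuallyEq ?_
        have hcont : ContinuousAt (fun t : ℂ => t.im) τ := by fun_prop
        filter_upwards [continuousAt_const.eventually_lt hcont hτ] with t ht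
        exact hDeq t ht
      · nlinarith
      · intro τ hτ
        rw [hDeq τ hτ]
        have hτ0 : 0 ≤ τ.im := by linarith
        refine (norm_Sm_le hA (hΩ τ hτ) (fun g hg =>
          dq_growth m h0 (by positivity) ((hcusp τ hτ).2 g hg))).trans ?_
        rw [hcard τ hτ]
        have e : 2 * Real.pi * h * m * (C * τ.im) = 2 * Real.pi * (h * m * C) * τ.im := by ring
        rw [e]
        apply le_of_eq
        ring
      · intro τ hτ
        have hτT : T < τ.im := by rw [hτ, hT1]; linarith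
        rw [hDeq τ hτT]
        refine (norm_Sm_le hA (hΩ τ hτT) (fun g hg => dq_bound m h0 h1 (hR τ hτ g hg))).trans ?_
        rw [hcard τ hτT]
    intro τ hτ
    rw [← hDeq τ (by linarith)]
    exact hmain τ hτ
  -- the limit
  refine ⟨K / ‖(2 * Real.pi * I : ℂ) ^ m‖, T1, fun τ hτ => ?_⟩
  have hτT : T < τ.im := by linarith
  have hne : 0 < ‖(2 * Real.pi * I : ℂ) ^ m‖ := by
    rw [norm_pos_iff]
    exact pow_ne_zero _ (by simp [hpi.ne'])
  rw [le_div_iff₀ hne, mul_comm, ← norm_mul]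
  have e1 : (2 * Real.pi * I : ℂ) ^ m * Sm A (fun ζ => ζ ^ m) τ =
      Sm A (fun ζ => (2 * Real.pi * I * ζ) ^ m) τ := by
    unfold Sm
    rw [finsum_mem_eq_finite_toFinset_sum _ (hA.fin τ (hΩ τ hτT)),
      finsum_mem_eq_finite_toFinset_sum _ (hA.fin τ (hΩ τ hτT)), Finset.mul_sum]
    exact Finset.sum_congr rfl fun g _ => (mul_pow _ _ _).symm
  have hlim : Tendsto (fun h : ℝ => Sm A (dq m h) τ) (𝓝[>] 0)
      (𝓝 (Sm A (fun ζ => (2 * Real.pi * I * ζ) ^ m) τ)) := by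
    unfold Sm
    simp only [finsum_mem_eq_finite_toFinset_sum _ (hA.fin τ (hΩ τ hτT))]
    exact tendsto_finsetSum _ fun g _ => tendsto_dq m _
  rw [e1]
  refine le_of_tendsto hlim.norm ?_
  have ev1 : ∀ᶠ h : ℝ in 𝓝[>] 0, h ≤ 1 := by
    have : ∀ᶠ h : ℝ in 𝓝 0, h < 1 := eventually_lt_nhds one_pos
    filter_upwards [nhdsWithin_le_nhds this] with h hh
    exact hh.le
  have ev2 : ∀ᶠ h : ℝ in 𝓝[>] 0, h * m * C < 1 := by
    have hc : ContinuousAt (fun h : ℝ => h * m * C) 0 := by fun_prop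
    have : ∀ᶠ h : ℝ in 𝓝 0, h * m * C < 1 := hc.eventually_lt continuousAt_const (by simp)
    exact nhdsWithin_le_nhds this
  filter_upwards [self_mem_nhdsWithin, ev1, ev2] with h h0 h1 h2
  exact hdq h h0 h1 h2 τ hτ

end Pool.Agent.Work.MP_8da9ea_nt

end

section

/-!
# Finite families of germs of negative weight vanish: conclusion
-/

set_option autoImplicit false

namespace Pool.Agent.Work.MP_8da9ea_nt

open Complex Filter Topology Metric

variable {Ω : Set ℂ} {A : (τ : ℂ) → Set ((𝓝 τ).Germ ℂ)}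

lemma vals_zero {α : Type*} (s : Finset α) (u : α → ℂ)
    (h : ∀ m : ℕ, 1 ≤ m → ∑ g ∈ s, u g ^ m = 0) : ∀ g ∈ s, u g = 0 := by
  classical
  intro g0 hg0
  by_contra hne
  have h1 : ∀ P : Polynomial ℂ, ∑ g ∈ s, u g * P.eval (u g) = 0 := by
    intro P
    have h2 : ∀ g ∈ s, u g * P.eval (u g) =
        ∑ k ∈ Finset.range (P.natDegree + 1), P.coeff k * u g ^ (k + 1) := by
      intro g _
      rw [Polynomial.eval_eq_sum_range, Finset.mul_sum]
      exact Finset.sum_congr rfl fun k _ => by ring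
    rw [Finset.sum_congr rfl h2, Finset.sum_comm]
    refine Finset.sum_eq_zero fun k _ => ?_
    rw [← Finset.mul_sum, h (k + 1) (by omega), mul_zero]
  set P : Polynomial ℂ := ∏ w ∈ (s.image u).erase (u g0), (Polynomial.X - Polynomial.C w) with hP
  have h3 := h1 P
  have h4 : ∀ g ∈ s, u g ≠ u g0 → P.eval (u g) = 0 := by
    intro g hg hgg
    rw [hP, Polynomial.eval_prod]
    refine Finset.prod_eq_zero (i := u g) ?_ (by simp)
    exact Finset.mem_erase.2 ⟨hgg, Finset.mem_image_of_mem u hg⟩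
  have h5 : P.eval (u g0) ≠ 0 := by
    rw [hP, Polynomial.eval_prod, Finset.prod_ne_zero_iff]
    intro w hw
    have := (Finset.mem_erase.1 hw).1
    simp only [Polynomial.eval_sub, Polynomial.eval_X, Polynomial.eval_C]
    exact sub_ne_zero.2 (Ne.symm this)
  have h6 : ∑ g ∈ s, u g * P.eval (u g) =
      ((s.filter fun g => u g = u g0).card : ℂ) * (u g0 * P.eval (u g0)) := by
    rw [← nsmul_eq_mul, ← Finset.sum_const, Finset.sum_filter]
    refine Finset.sum_congr rfl fun g hg => ?_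
    split_ifs with hgg
    · rw [hgg]
    · rw [h4 g hg hgg, mul_zero]
  rw [h6] at h3
  have h7 : ((s.filter fun g => u g = u g0).card : ℂ) ≠ 0 := by
    rw [Nat.cast_ne_zero]
    refine (Finset.card_pos.2 ⟨g0, ?_⟩).ne'
    simp [hg0]
  exact mul_ne_zero h7 (mul_ne_zero hne h5) h3

lemma HH_open : IsOpen HH := isOpen_lt continuous_const Complex.continuous_im

lemma inv_mem_HH {τ : ℂ} (hτ : τ ∈ HH) : -1 / τ ∈ HH := inv_im hτ

lemma add_one_mem_HH {τ : ℂ} (hτ : τ ∈ HH) : τ + 1 ∈ HH := by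
  have h : 0 < τ.im := hτ
  change 0 < (τ + 1).im
  simpa using h

theorem WFam.zero (hA : WFam Ω A) (hpre : IsPreconnected Ω) : ∀ τ ∈ Ω, ∀ g ∈ A τ, g = 0 := by
  -- power sums vanish
  have key : ∀ m : ℕ, 1 ≤ m → ∀ τ ∈ Ω, Sm A (fun ζ => ζ ^ (2 * m)) τ = 0 := by
    intro m hm
    set F : ℂ → ℂ := Sm A (fun ζ => ζ ^ (2 * m)) with hF
    have hFd : ∀ τ ∈ Ω, DifferentiableAt ℂ F τ := fun τ hτ =>
      (hA.toFam.analyticAt hτ (by fun_prop)).differentiableAt
    set G : ℂ → ℂ := fun τ => limUnder (𝓝[≠] τ) F with hG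
    have hGF : ∀ τ ∈ Ω, G τ = F τ := by
      intro τ hτ
      have h1 : Tendsto F (𝓝[≠] τ) (𝓝 (F τ)) :=
        (hFd τ hτ).continuousAt.tendsto.mono_left nhdsWithin_le_nhds
      exact h1.limUnder_eq
    have hGd : ∀ τ ∈ HH, DifferentiableAt ℂ G τ := by
      intro τ hτ
      obtain ⟨K, hK⟩ := hA.bdd τ hτ
      have h1 := (hA.punct τ hτ).and hK
      rw [eventually_nhdsWithin_iff] at h1
      obtain ⟨s, hs, hso, hτs⟩ := _root_.eventually_nhds_iff.1 h1
      obtain ⟨r, hr, hrs⟩ := Metric.isOpen_iff.1 hso τ hτs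
      have hball : ∀ t ∈ ball τ r, t ≠ τ → t ∈ Ω ∧ ∀ g ∈ A t, ‖Germ.value g‖ ≤ K :=
        fun t ht hne => hs t (hrs ht) hne
      have hd : DifferentiableOn ℂ F (ball τ r \ {τ}) := by
        intro t ht
        exact (hFd t (hball t ht.1 ht.2).1).differentiableWithinAt
      by_cases hne : (ball τ r \ {τ}).Nonempty
      · obtain ⟨t0, ht0⟩ := hne
        have hb : BddAbove (norm ∘ F '' (ball τ r \ {τ})) := by
          refine ⟨(A t0).ncard * K ^ (2 * m), ?_⟩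
          rintro _ ⟨t, ht, rfl⟩
          obtain ⟨h2, h3⟩ := hball t ht.1 ht.2
          have h4 := norm_Sm_le hA h2 (ψ := fun ζ => ζ ^ (2 * m)) (K := K ^ (2 * m))
            (fun g hg => by
              rw [norm_pow]
              exact pow_le_pow_left₀ (norm_nonneg _) (h3 g hg) _)
          rw [hA.ncard_const hpre subset_rfl h2 (hball t0 ht0.1 ht0.2).1] at h4
          exact h4
        have h5 := Complex.differentiableOn_update_limUnder_of_bddAbove (ball_mem_nhds τ hr) hd hb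
        have h6 : DifferentiableAt ℂ (Function.update F τ (limUnder (𝓝[≠] τ) F)) τ :=
          (h5 τ (mem_ball_self hr)).differentiableAt (ball_mem_nhds τ hr)
        refine h6.congr_of_eventuallyEq ?_
        filter_upwards [ball_mem_nhds τ hr] with t ht
        by_cases htτ : t = τ
        · rw [htτ, Function.update_self]
        · rw [Function.update_of_ne htτ]
          exact hGF t (hball t ht htτ).1
      · exfalso
        apply hne
        refine ⟨τ + (r / 2 : ℝ), ?_, ?_⟩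
        · rw [mem_ball, dist_eq_norm, add_sub_cancel_left, norm_real, Real.norm_of_nonneg
            (by positivity)]
          linarith
        · simp [hr.ne']
    have hcont : ∀ τ ∈ HH, ContinuousAt G τ := fun τ hτ => (hGd τ hτ).continuousAt
    have hHHne : ∀ τ ∈ HH, ∀ {f g : ℂ → ℂ}, ContinuousAt f τ → ContinuousAt g τ →
        (∀ᶠ t in 𝓝[≠] τ, f t = g t) → f τ = g τ := by
      intro τ _ f g hf hg h
      have h1 : Tendsto f (𝓝[≠] τ) (𝓝 (f τ)) := hf.tendsto.mono_left nhdsWithin_le_nhds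
      have h2 : Tendsto g (𝓝[≠] τ) (𝓝 (g τ)) := hg.tendsto.mono_left nhdsWithin_le_nhds
      exact tendsto_nhds_unique_of_eventuallyEq h1 h2 h
    have hT : ∀ τ ∈ HH, G (τ + 1) = G τ := by
      intro τ hτ
      have hτ1 : τ + 1 ∈ HH := add_one_mem_HH hτ
      refine hHHne τ hτ (f := fun t => G (t + 1)) ?_ (hcont τ hτ) ?_
      · exact ContinuousAt.comp (f := fun t : ℂ => t + 1) (hcont _ hτ1) (by fun_prop)
      · filter_upwards [hA.punct τ hτ] with t ht
        rw [hGF _ (hA.memT t ht), hGF t ht]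
        exact hA.sum_T _ ht
    have hS : ∀ τ ∈ HH, τ ^ (2 * m) * G (-1 / τ) = G τ := by
      intro τ hτ
      have hτ0 : τ ≠ 0 := ne_zero_of_im hτ
      refine hHHne τ hτ (f := fun t => t ^ (2 * m) * G (-1 / t)) ?_ (hcont τ hτ) ?_
      · refine ContinuousAt.mul (by fun_prop) ?_
        exact ContinuousAt.comp (f := fun t : ℂ => -1 / t) (hcont _ (inv_mem_HH hτ))
          (continuousAt_const.div continuousAt_id hτ0)
      · filter_upwards [hA.punct τ hτ] with t ht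
        rw [hGF _ (hA.memS t ht), hGF t ht]
        exact hA.sum_S m ht
    have hb : ∃ K T : ℝ, ∀ τ : ℂ, T ≤ τ.im → ‖G τ‖ ≤ K := by
      obtain ⟨K, T, h⟩ := hA.pow_bounded (2 * m)
      obtain ⟨C, T', hC, hT', hcusp⟩ := hA.cusp
      refine ⟨K, max T (T' + 1), fun τ hτ => ?_⟩
      have h1 : T' < τ.im := by
        have := (le_max_right T (T' + 1)).trans hτ
        linarith
      rw [hGF τ (hcusp τ h1).1]
      exact h τ ((le_max_left _ _).trans hτ)
    have hz := neg_weight_zero (G := G) (m := 2 * m) (by omega) hGd hT hS hb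
    intro τ hτ
    rw [← hGF τ hτ]
    exact hz τ (hA.sub hτ)
  -- the values vanish
  have hval : ∀ τ ∈ Ω, ∀ g ∈ A τ, Germ.value g = 0 := by
    intro τ hτ g hg
    have h1 := vals_zero (hA.fin τ hτ).toFinset (fun g => (Germ.value g) ^ 2) (by
      intro m hm
      have h2 := key m hm τ hτ
      unfold Sm at h2
      rw [finsum_mem_eq_finite_toFinset_sum _ (hA.fin τ hτ)] at h2
      simp only [← pow_mul]
      exact h2) g ((Set.Finite.mem_toFinset _).2 hg)
    exact pow_eq_zero_iff (two_ne_zero) |>.1 h1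
  intro τ hτ g hg
  obtain ⟨r, hr, hsub, hloc⟩ := hA.loc τ hτ
  obtain ⟨φ, hφa, hφg, hφA⟩ := hloc τ (mem_ball_self hr) g hg
  rw [← hφg]
  have : φ =ᶠ[𝓝 τ] (0 : ℂ → ℂ) := by
    filter_upwards [ball_mem_nhds τ hr] with t ht
    have h1 := hval t (hsub ht) _ (hφA t ht)
    rwa [Germ.value_ofFun] at h1
  rw [germ_eq_iff.2 this]
  rfl

end Pool.Agent.Work.MP_8da9ea_nt

end
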