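import Pool.Agent.Work.MP_8da9ea_nt.K2Def

/-! Bundle of small proof modules (one section per former module). -/

section

/-!
# The dominance lemma and the absence of polynomial relations at the cusp
-/

set_option autoImplicit false

namespace Pool.Agent.Work.MP_8da9ea_nt

open Complex Filter Topology

/-- the Taylor shift of an iterated polynomial -/
lemma exists_shift {q : Polynomial (Polynomial ℂ)} (hq : q ≠ 0) (a b : ℂ) :
    ∃ p : Polynomial (Polynomial ℂ), p ≠ 0 ∧ ∀ x w : ℂ, E2 x w q = E2 (x - a) (w - b) p := by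
  set φ : Polynomial ℂ →+* Polynomial ℂ := (Polynomial.taylorAlgHom a).toRingHom with hφ
  have hφa : ∀ f, φ f = Polynomial.taylor a f := fun f => rfl
  have hinj : Function.Injective φ := fun f g h => Polynomial.taylor_injective a h
  refine ⟨Polynomial.taylor (Polynomial.C b) (q.map φ), ?_, fun x w => ?_⟩
  · intro h
    have h1 : q.map φ = 0 := by
      apply Polynomial.taylor_injective (Polynomial.C b)
      rw [h, map_zero]
    apply hq
    apply Polynomial.map_injective φ hinj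
    rw [h1, Polynomial.map_zero]
  · simp only [E2, RingHom.comp_apply, Polynomial.coe_evalRingHom]
    rw [Polynomial.taylor_eval, ← Polynomial.C_add, sub_add_cancel]
    have h2 : Polynomial.eval (Polynomial.C w) (q.map φ) =
        φ (Polynomial.eval (Polynomial.C w) q) := by
      rw [← Polynomial.eval_map_apply]
      congr 1
      rw [hφa, Polynomial.taylor_C]
    rw [h2, hφa, Polynomial.taylor_eval, sub_add_cancel]

lemma E2_eq_sum2 (q : Polynomial (Polynomial ℂ)) :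
    ∃ S : Finset (ℕ × ℕ), ∃ A : ℕ × ℕ → ℂ, (∀ p ∈ S, A p ≠ 0) ∧ (q ≠ 0 → S.Nonempty) ∧
      ∀ a b : ℂ, E2 a b q = ∑ p ∈ S, A p * a ^ p.1 * b ^ p.2 := by
  classical
  set M := (Finset.range (q.natDegree + 1)).sup (fun j => (q.coeff j).natDegree) with hM
  set A : ℕ × ℕ → ℂ := fun p => (q.coeff p.2).coeff p.1 with hA
  set S0 := (Finset.range (M + 1)) ×ˢ (Finset.range (q.natDegree + 1)) with hS0
  refine ⟨S0.filter (fun p => A p ≠ 0), A, ?_, ?_, ?_⟩
  · intro p hp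
    exact (Finset.mem_filter.1 hp).2
  · intro hq
    set j := q.natDegree with hj
    have h1 : q.coeff j ≠ 0 := by
      rw [hj]
      exact Polynomial.leadingCoeff_ne_zero.2 hq
    refine ⟨((q.coeff j).natDegree, j), ?_⟩
    rw [Finset.mem_filter, hS0, Finset.mem_product]
    refine ⟨⟨?_, ?_⟩, ?_⟩
    · rw [Finset.mem_range, Nat.lt_succ_iff, hM]
      exact Finset.le_sup (f := fun j => (q.coeff j).natDegree)
        (Finset.mem_range.2 (Nat.lt_succ_self _))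
    · exact Finset.mem_range.2 (Nat.lt_succ_self _)
    · exact Polynomial.leadingCoeff_ne_zero.2 h1
  · intro a b
    have hfil : ∑ p ∈ S0 with A p ≠ 0, A p * a ^ p.1 * b ^ p.2 =
        ∑ p ∈ S0, A p * a ^ p.1 * b ^ p.2 := by
      refine Finset.sum_filter_of_ne fun p _ h => ?_
      intro h0
      apply h
      rw [h0]
      ring
    rw [hfil, E2_eq_sum, hS0, Finset.sum_product_right]
    refine Finset.sum_congr rfl fun j hj => ?_
    rw [Polynomial.eval_eq_sum_range' (n := M + 1), Finset.sum_mul]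
    rw [Nat.lt_succ_iff, hM]
    exact Finset.le_sup (f := fun j => (q.coeff j).natDegree) hj

/-- C3a -/
theorem dominance {q : Polynomial (Polynomial ℂ)} (hq : q ≠ 0) (a b : ℂ) {κ θ : ℝ} (hκ : 0 < κ)
    (hθ : 0 < θ) (hirr : Irrational (θ / κ)) {c C : ℝ} (hc : 0 < c) :
    ∃ T : ℝ, ∀ (y : ℝ) (x w : ℂ), T ≤ y →
      c * Real.exp (-(κ * y)) ≤ ‖x - a‖ → ‖x - a‖ ≤ C * Real.exp (-(κ * y)) →
      c * Real.exp (-(θ * y)) ≤ ‖w - b‖ → ‖w - b‖ ≤ C * Real.exp (-(θ * y)) → E2 x w q ≠ 0 := by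
  classical
  obtain ⟨p, hp, hpq⟩ := exists_shift hq a b
  obtain ⟨S, A, hA, hS, hsum⟩ := E2_eq_sum2 p
  have hSne := hS hp
  set e : ℕ × ℕ → ℝ := fun s => s.1 * κ + s.2 * θ with he
  have hinj : ∀ s t : ℕ × ℕ, e s = e t → s = t := by
    intro s t hst
    simp only [he] at hst
    have h1 : ((s.2 : ℝ) - t.2) * (θ / κ) = (t.1 : ℝ) - s.1 := by
      field_simp
      linarith
    have h2 : (s.2 : ℝ) - t.2 = 0 := by
      by_contra hne
      apply hirr
      refine ⟨((t.1 : ℚ) - s.1) / ((s.2 : ℚ) - t.2), ?_⟩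
      push_cast
      rw [div_eq_iff hne]
      linarith
    rw [h2, zero_mul] at h1
    have h3 : (s.2 : ℝ) = t.2 := by linarith
    have h4 : (s.1 : ℝ) = t.1 := by linarith
    exact Prod.ext (by exact_mod_cast h4) (by exact_mod_cast h3)
  obtain ⟨s0, hs0, hmin⟩ := Finset.exists_min_image S e hSne
  set F : ℝ → ℝ := fun y => ∑ s ∈ S.erase s0,
    ‖A s‖ * C ^ (s.1 + s.2) * Real.exp (-((e s - e s0) * y)) with hF
  have hF0 : Tendsto F atTop (𝓝 0) := by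
    have : Tendsto F atTop (𝓝 (∑ s ∈ S.erase s0, ‖A s‖ * C ^ (s.1 + s.2) * 0)) := by
      refine tendsto_finsetSum _ fun s hs => ?_
      refine Tendsto.const_mul _ ?_
      have hpos : 0 < e s - e s0 := by
        have h1 := hmin s (Finset.mem_of_mem_erase hs)
        have h2 : e s ≠ e s0 := fun h => Finset.ne_of_mem_erase hs (hinj _ _ h)
        rcases lt_or_eq_of_le h1 with h | h
        · linarith
        · exact absurd h.symm h2
      refine Real.tendsto_exp_atBot.comp ?_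
      exact tendsto_neg_atTop_atBot.comp (tendsto_id.const_mul_atTop hpos)
    simpa using this
  have hpos0 : 0 < ‖A s0‖ * c ^ (s0.1 + s0.2) :=
    mul_pos (norm_pos_iff.2 (hA s0 hs0)) (pow_pos hc _)
  obtain ⟨T, hT⟩ := eventually_atTop.1 (hF0.eventually (gt_mem_nhds hpos0))
  refine ⟨T, fun y x w hy h1 h2 h3 h4 h0 => ?_⟩
  have hlt := hT y hy
  rw [hpq, hsum, ← Finset.add_sum_erase _ _ hs0] at h0
  have hkey : ‖A s0 * (x - a) ^ s0.1 * (w - b) ^ s0.2‖ =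
      ‖∑ s ∈ S.erase s0, A s * (x - a) ^ s.1 * (w - b) ^ s.2‖ := by
    rw [eq_neg_of_add_eq_zero_left h0, norm_neg]
  have hexp : ∀ s : ℕ × ℕ, Real.exp (-(κ * y)) ^ s.1 * Real.exp (-(θ * y)) ^ s.2 =
      Real.exp (-(e s * y)) := by
    intro s
    rw [← Real.exp_nat_mul, ← Real.exp_nat_mul, ← Real.exp_add]
    congr 1
    simp only [he]
    ring
  have hlow : ‖A s0‖ * c ^ (s0.1 + s0.2) * Real.exp (-(e s0 * y)) ≤
      ‖A s0 * (x - a) ^ s0.1 * (w - b) ^ s0.2‖ := by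
    rw [norm_mul, norm_mul, norm_pow, norm_pow, ← hexp s0]
    calc ‖A s0‖ * c ^ (s0.1 + s0.2) * (Real.exp (-(κ * y)) ^ s0.1 * Real.exp (-(θ * y)) ^ s0.2)
        = ‖A s0‖ * (c * Real.exp (-(κ * y))) ^ s0.1 * (c * Real.exp (-(θ * y))) ^ s0.2 := by
          rw [mul_pow, mul_pow, pow_add]; ring
      _ ≤ ‖A s0‖ * ‖x - a‖ ^ s0.1 * ‖w - b‖ ^ s0.2 := by gcongr
  have hupp : ‖∑ s ∈ S.erase s0, A s * (x - a) ^ s.1 * (w - b) ^ s.2‖ ≤
      F y * Real.exp (-(e s0 * y)) := by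
    refine (norm_sum_le _ _).trans ?_
    simp only [hF]
    rw [Finset.sum_mul]
    refine Finset.sum_le_sum fun s _ => ?_
    rw [norm_mul, norm_mul, norm_pow, norm_pow]
    calc ‖A s‖ * ‖x - a‖ ^ s.1 * ‖w - b‖ ^ s.2
        ≤ ‖A s‖ * (C * Real.exp (-(κ * y))) ^ s.1 * (C * Real.exp (-(θ * y))) ^ s.2 := by
          have : 0 ≤ C * Real.exp (-(κ * y)) := (norm_nonneg _).trans h2
          gcongr
      _ = ‖A s‖ * C ^ (s.1 + s.2) *
            (Real.exp (-(κ * y)) ^ s.1 * Real.exp (-(θ * y)) ^ s.2) := by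
          rw [mul_pow, mul_pow, pow_add]; ring
      _ = ‖A s‖ * C ^ (s.1 + s.2) * Real.exp (-((e s - e s0) * y)) *
            Real.exp (-(e s0 * y)) := by
          rw [hexp, mul_assoc, mul_assoc, mul_assoc, ← Real.exp_add]
          congr 3
          ring_nf
  have h5 : ‖A s0‖ * c ^ (s0.1 + s0.2) * Real.exp (-(e s0 * y)) ≤
      F y * Real.exp (-(e s0 * y)) := by
    rw [hkey] at hlow
    exact hlow.trans hupp
  have h6 := le_of_mul_le_mul_right h5 (Real.exp_pos _)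
  linarith

/-- the two cusp asymptotics imply the absence of polynomial relations at the cusp -/
theorem cusp_avoid_of
    (hJ : ∃ k : ℕ, 1 ≤ k ∧ ∃ c C T : ℝ, 0 < c ∧ 0 < C ∧ 0 < T ∧ ∀ τ : ℂ, T ≤ τ.im →
      gg2 τ ≠ 0 ∧ gg3 τ ≠ 0 ∧
      c * Real.exp (-(2 * Real.pi * k * τ.im)) ≤ ‖jt τ - 27‖ ∧
      ‖jt τ - 27‖ ≤ C * Real.exp (-(2 * Real.pi * k * τ.im)) ∧
      ‖gg2 τ / gg3 τ - 9 / (2 * Real.pi ^ 2)‖ ≤ C * Real.exp (-(2 * Real.pi * τ.im)))
    {β : ℝ}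
    (hW : ∃ c C T : ℝ, 0 < c ∧ 0 < C ∧ 0 < T ∧ ∀ τ : ℂ, T ≤ τ.im → ∀ α : ℝ,
      c * Real.exp (-(2 * Real.pi * β * τ.im)) ≤ ‖wp 1 τ (α + β * τ) + Real.pi ^ 2 / 3‖ ∧
      ‖wp 1 τ (α + β * τ) + Real.pi ^ 2 / 3‖ ≤ C * Real.exp (-(2 * Real.pi * β * τ.im)))
    {q : Polynomial (Polynomial ℂ)} (hq : q ≠ 0) (h0 : 0 < β)
    (h1 : β < 1 / 2) (hirr : Irrational β) : ∃ T : ℝ, 0 < T ∧ ∀ τ : ℂ, T ≤ τ.im → ∀ α : ℝ,
      gg2 τ ≠ 0 ∧ gg3 τ ≠ 0 ∧ E2 (jt τ) (xt τ (α + β * τ)) q ≠ 0 := by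
  obtain ⟨k, hk, c1, C1, T1, hc1, hC1, hT1, hJ⟩ := hJ
  obtain ⟨c2, C2, T2, hc2, hC2, hT2, hW⟩ := hW
  have hpi : 0 < Real.pi := Real.pi_pos
  set R : ℝ := 9 / (2 * Real.pi ^ 2) with hR
  have hRpos : 0 < R := by positivity
  have hRC : ((R : ℝ) : ℂ) = 9 / (2 * Real.pi ^ 2) := by
    rw [hR]; push_cast; ring
  -- large `y`
  have hlim : Tendsto (fun y : ℝ => Real.exp (-(2 * Real.pi * (1 - β) * y))) atTop (𝓝 0) := by
    refine Real.tendsto_exp_atBot.comp ?_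
    exact tendsto_neg_atTop_atBot.comp
      (tendsto_id.const_mul_atTop (mul_pos (by positivity) (by linarith)))
  have hlim2 : Tendsto (fun y : ℝ => Real.exp (-(2 * Real.pi * y))) atTop (𝓝 0) := by
    refine Real.tendsto_exp_atBot.comp ?_
    exact tendsto_neg_atTop_atBot.comp (tendsto_id.const_mul_atTop (by positivity))
  have hε : 0 < c2 * R / 4 / (Real.pi ^ 2 / 3 * C1) := by positivity
  have hε2 : 0 < R / 2 / C1 := by positivity
  obtain ⟨T3, hT3⟩ := eventually_atTop.1 (hlim.eventually (gt_mem_nhds hε))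
  obtain ⟨T4, hT4⟩ := eventually_atTop.1 (hlim2.eventually (gt_mem_nhds hε2))
  have hk0 : (0 : ℝ) < k := by exact_mod_cast hk
  have hκ : 0 < 2 * Real.pi * k := by positivity
  have hθ : 0 < 2 * Real.pi * β := by positivity
  have hirr' : Irrational (2 * Real.pi * β / (2 * Real.pi * k)) := by
    have : 2 * Real.pi * β / (2 * Real.pi * k) = β / k := by field_simp
    rw [this]
    exact hirr.div_natCast (by omega)
  set c : ℝ := min c1 (c2 * R / 4) with hc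
  have hcpos : 0 < c := lt_min hc1 (by positivity)
  set C : ℝ := max C1 (C2 * (3 * R / 2) + Real.pi ^ 2 / 3 * C1) with hC
  obtain ⟨T5, hT5⟩ := dominance hq (27 : ℂ) (-(3 / 2) : ℂ) hκ hθ hirr' (C := C) hcpos
  refine ⟨max T1 (max T2 (max T3 (max T4 T5))), lt_max_of_lt_left hT1, fun τ hτ α => ?_⟩
  simp only [max_le_iff] at hτ
  obtain ⟨hτ1, hτ2, hτ3, hτ4, hτ5⟩ := hτ
  obtain ⟨hg2, hg3, hj1, hj2, hj3⟩ := hJ τ hτ1
  obtain ⟨hw1, hw2⟩ := hW τ hτ2 α
  refine ⟨hg2, hg3, hT5 τ.im _ _ hτ5 ?_ ?_ ?_ ?_⟩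
  · refine le_trans ?_ hj1
    gcongr
    exact min_le_left _ _
  · refine hj2.trans ?_
    gcongr
    exact le_max_left _ _
  all_goals
    have h3 := hT3 τ.im hτ3
    have h4 := hT4 τ.im hτ4
    set E : ℝ := Real.exp (-(2 * Real.pi * β * τ.im)) with hE
    have hEpos : 0 < E := Real.exp_pos _
    have hEE : Real.exp (-(2 * Real.pi * τ.im)) =
        E * Real.exp (-(2 * Real.pi * (1 - β) * τ.im)) := by
      rw [hE, ← Real.exp_add]
      congr 1
      ring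
    set D : ℂ := gg2 τ / gg3 τ - R with hD
    have hDle : ‖D‖ ≤ C1 * Real.exp (-(2 * Real.pi * τ.im)) := by
      rw [hD, hRC]
      exact hj3
    set W : ℂ := wp 1 τ (α + β * τ) + Real.pi ^ 2 / 3 with hWdef
    have hx : xt τ (α + β * τ) - -(3 / 2) = W * (gg2 τ / gg3 τ) - Real.pi ^ 2 / 3 * D := by
      have hpiC : (Real.pi : ℂ) ≠ 0 := by exact_mod_cast hpi.ne'
      rw [hD, hRC, hWdef, xt]
      field_simp
      ring
    have hDR : ‖D‖ ≤ R / 2 := by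
      refine hDle.trans ?_
      have := (lt_div_iff₀' hC1).1 h4
      exact this.le
    have hDsmall : Real.pi ^ 2 / 3 * ‖D‖ ≤ c2 * R / 4 * E := by
      have h5 : Real.pi ^ 2 / 3 * C1 * Real.exp (-(2 * Real.pi * (1 - β) * τ.im)) ≤
          c2 * R / 4 := ((lt_div_iff₀' (by positivity)).1 h3).le
      calc Real.pi ^ 2 / 3 * ‖D‖
          ≤ Real.pi ^ 2 / 3 * (C1 * Real.exp (-(2 * Real.pi * τ.im))) := by gcongr
        _ = (Real.pi ^ 2 / 3 * C1 * Real.exp (-(2 * Real.pi * (1 - β) * τ.im))) * E := by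
            rw [hEE]; ring
        _ ≤ c2 * R / 4 * E := by gcongr
    have hRn : ‖((R : ℝ) : ℂ)‖ = R := by
      rw [Complex.norm_real, Real.norm_of_nonneg hRpos.le]
    have hg : gg2 τ / gg3 τ = R + D := by rw [hD]; ring
    have hglow : R / 2 ≤ ‖gg2 τ / gg3 τ‖ := by
      have := norm_sub_le (gg2 τ / gg3 τ) D
      have h6 : gg2 τ / gg3 τ - D = R := by rw [hD]; ring
      rw [h6, hRn] at this
      linarith
    have hgupp : ‖gg2 τ / gg3 τ‖ ≤ 3 * R / 2 := by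
      rw [hg]
      refine (norm_add_le _ _).trans ?_
      rw [hRn]
      linarith
    have hnD : ‖(Real.pi : ℂ) ^ 2 / 3 * D‖ = Real.pi ^ 2 / 3 * ‖D‖ := by
      rw [norm_mul]
      congr 1
      have : (Real.pi : ℂ) ^ 2 / 3 = ((Real.pi ^ 2 / 3 : ℝ) : ℂ) := by push_cast; ring
      rw [this, Complex.norm_real, Real.norm_of_nonneg (by positivity)]
    rw [hx]
  · have h7 : c2 * E * (R / 2) ≤ ‖W * (gg2 τ / gg3 τ)‖ := by
      rw [norm_mul]
      gcongr
    have h8 := norm_sub_norm_le (W * (gg2 τ / gg3 τ)) ((Real.pi : ℂ) ^ 2 / 3 * D)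
    rw [hnD] at h8
    have h9 : c * E ≤ c2 * R / 4 * E := by
      gcongr
      exact min_le_right _ _
    have h10 : c2 * E * (R / 2) = c2 * R / 4 * E + c2 * R / 4 * E := by ring
    linarith
  · refine (norm_sub_le _ _).trans ?_
    rw [hnD, norm_mul]
    have h7 : ‖W‖ * ‖gg2 τ / gg3 τ‖ ≤ C2 * E * (3 * R / 2) := by gcongr
    have h8 : Real.pi ^ 2 / 3 * ‖D‖ ≤ Real.pi ^ 2 / 3 * C1 * E := by
      have h9 : Real.exp (-(2 * Real.pi * (1 - β) * τ.im)) ≤ 1 := by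
        rw [Real.exp_le_one_iff]
        have : 0 ≤ 2 * Real.pi * (1 - β) * τ.im :=
          mul_nonneg (mul_nonneg (by positivity) (by linarith)) (by linarith)
        linarith
      calc Real.pi ^ 2 / 3 * ‖D‖
          ≤ Real.pi ^ 2 / 3 * (C1 * (E * Real.exp (-(2 * Real.pi * (1 - β) * τ.im)))) := by
            rw [← hEE]; gcongr
        _ ≤ Real.pi ^ 2 / 3 * (C1 * (E * 1)) := by gcongr
        _ = _ := by ring
    calc ‖W‖ * ‖gg2 τ / gg3 τ‖ + Real.pi ^ 2 / 3 * ‖D‖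
        ≤ C2 * E * (3 * R / 2) + Real.pi ^ 2 / 3 * C1 * E := add_le_add h7 h8
      _ = (C2 * (3 * R / 2) + Real.pi ^ 2 / 3 * C1) * E := by ring
      _ ≤ C * E := by
          gcongr
          exact le_max_right _ _

end Pool.Agent.Work.MP_8da9ea_nt

end

section

/-!
# The invariant at the cusp
-/

set_option autoImplicit false

namespace Pool.Agent.Work.MP_8da9ea_nt

open Complex Filter Topology Metric

/-- the Eisenstein sums as analytic functions of the nome -/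
lemma gk_cusp {k : ℕ} (hk : 3 ≤ k) (hk2 : Even k) : ∃ e : ℂ → ℂ, AnalyticAt ℂ e 0 ∧
    e 0 = 2 * riemannZeta k ∧ ∀ τ : ℂ, 0 < τ.im → gk k 1 τ = e (Function.Periodic.qParam 1 τ) := by
  refine ⟨fun q => 2 * riemannZeta k * UpperHalfPlane.cuspFunction 1 (ModularForm.E hk) q, ?_, ?_, ?_⟩
  · exact analyticAt_const.mul (ModularFormClass.analyticAt_cuspFunction_zero _ one_pos
      one_mem_strictPeriods_SL)
  · have h1 := EisensteinSeries.E_qExpansion_coeff_zero hk hk2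
    rw [UpperHalfPlane.qExpansion_coeff] at h1
    simp only [Nat.factorial_zero, Nat.cast_one, inv_one, iteratedDeriv_zero, one_mul] at h1
    simp only [h1, mul_one]
  · intro τ hτ
    rw [gk_eq hk hτ]
    congr 1
    exact (SlashInvariantFormClass.eq_cuspFunction (ModularForm.E hk) ⟨τ, hτ⟩
      one_mem_strictPeriods_SL one_ne_zero).symm

lemma norm_q (τ : ℂ) : ‖Function.Periodic.qParam 1 τ‖ = Real.exp (-(2 * Real.pi * τ.im)) := by
  rw [Function.Periodic.norm_qParam]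
  congr 1
  ring

theorem cusp_jt : ∃ k : ℕ, 1 ≤ k ∧ ∃ c C T : ℝ, 0 < c ∧ 0 < C ∧ 0 < T ∧ ∀ τ : ℂ, T ≤ τ.im →
    gg2 τ ≠ 0 ∧ gg3 τ ≠ 0 ∧
    c * Real.exp (-(2 * Real.pi * k * τ.im)) ≤ ‖jt τ - 27‖ ∧
    ‖jt τ - 27‖ ≤ C * Real.exp (-(2 * Real.pi * k * τ.im)) ∧
    ‖gg2 τ / gg3 τ - 9 / (2 * Real.pi ^ 2)‖ ≤ C * Real.exp (-(2 * Real.pi * τ.im)) := by
  obtain ⟨e4, a4, v4, h4⟩ := gk_cusp (k := 4) (by norm_num) (by decide)
  obtain ⟨e6, a6, v6, h6⟩ := gk_cusp (k := 6) (by norm_num) (by decide)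
  have z4 : riemannZeta (4 : ℕ) = (Real.pi : ℂ) ^ 4 / 90 := by
    exact_mod_cast riemannZeta_four
  have z6 : riemannZeta (6 : ℕ) = (Real.pi : ℂ) ^ 6 / 945 := by
    have h := riemannZeta_two_mul_nat (k := 3) (by norm_num)
    have hb : bernoulli 6 = 1 / 42 := by decide +kernel
    rw [show 2 * 3 = 6 by norm_num, hb] at h
    have h' : riemannZeta ((6 : ℕ) : ℂ) = riemannZeta (2 * ((3 : ℕ) : ℂ)) := by
      congr 1
      norm_num
    rw [h', h]
    norm_num [Nat.factorial]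
    ring
  have hpi : (Real.pi : ℂ) ≠ 0 := by exact_mod_cast Real.pi_ne_zero
  rw [z4] at v4
  rw [z6] at v6
  set Q : ℂ → ℂ := Function.Periodic.qParam 1 with hQ
  have hQ0 : ∀ τ, Q τ ≠ 0 := fun τ => Function.Periodic.qParam_ne_zero τ
  -- nonvanishing near zero
  have n4 : ∀ᶠ q in 𝓝 (0 : ℂ), e4 q ≠ 0 := by
    apply a4.continuousAt.eventually_ne
    rw [v4]
    exact mul_ne_zero two_ne_zero (div_ne_zero (pow_ne_zero 4 hpi) (by norm_num))
  have v6' : e6 0 ≠ 0 := by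
    rw [v6]
    exact mul_ne_zero two_ne_zero (div_ne_zero (pow_ne_zero 6 hpi) (by norm_num))
  have n6 : ∀ᶠ q in 𝓝 (0 : ℂ), e6 q ≠ 0 := a6.continuousAt.eventually_ne v6'
  set f : ℂ → ℂ := fun q => (60 * e4 q) ^ 3 / (140 * e6 q) ^ 2 - 27 with hf
  set r : ℂ → ℂ := fun q => (60 * e4 q) / (140 * e6 q) - 9 / (2 * Real.pi ^ 2) with hr
  have h60 : (140 * e6 0) ≠ 0 := mul_ne_zero (by norm_num) v6'
  have af : AnalyticAt ℂ f 0 := by
    refine AnalyticAt.sub (AnalyticAt.div ((analyticAt_const.mul a4).pow 3)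
      ((analyticAt_const.mul a6).pow 2) (pow_ne_zero 2 h60)) analyticAt_const
  have ar : AnalyticAt ℂ r 0 := by
    refine AnalyticAt.sub (AnalyticAt.div (analyticAt_const.mul a4)
      (analyticAt_const.mul a6) h60) analyticAt_const
  have f0 : f 0 = 0 := by
    simp only [hf, v4, v6]
    field_simp
    norm_num
  have r0 : r 0 = 0 := by
    simp only [hr, v4, v6]
    field_simp
    norm_num
  have jf : ∀ τ : ℂ, 0 < τ.im → jt τ - 27 = f (Q τ) := by
    intro τ hτ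
    rw [jt, gg2, gg3, h4 τ hτ, h6 τ hτ]
  have rf : ∀ τ : ℂ, 0 < τ.im → gg2 τ / gg3 τ - 9 / (2 * Real.pi ^ 2) = r (Q τ) := by
    intro τ hτ
    rw [gg2, gg3, h4 τ hτ, h6 τ hτ]
  -- f is not identically zero
  have hnz : ¬ ∀ᶠ q in 𝓝 (0 : ℂ), f q = 0 := by
    intro hall
    have hcomb : ∃ᶠ q in 𝓝[≠] (0 : ℂ), f q ≠ 0 := by
      apply Eventually.frequently
      have h1 : ∀ᶠ q in 𝓝[≠] (0 : ℂ), e6 q ≠ 0 := n6.filter_mono nhdsWithin_le_nhds
      have h2 : ∀ᶠ q in 𝓝[≠] (0 : ℂ), ‖q‖ < 1 := by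
        have : ∀ᶠ q in 𝓝 (0 : ℂ), ‖q‖ < 1 := by
          filter_upwards [ball_mem_nhds (0 : ℂ) one_pos] with q hq
          simpa using hq
        exact this.filter_mono nhdsWithin_le_nhds
      filter_upwards [h1, h2, self_mem_nhdsWithin] with q hq6 hq1 hq0 h0
      set τ := Function.Periodic.invQParam 1 q with hτ
      have him : 0 < τ.im := Function.Periodic.im_invQParam_pos_of_norm_lt_one one_pos hq1 hq0
      have hq : Q τ = q := Function.Periodic.qParam_right_inv one_ne_zero hq0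
      have h6' : gk 6 1 τ = e6 q := by rw [h6 τ him, hq]
      have h4' : gk 4 1 τ = e4 q := by rw [h4 τ him, hq]
      have hE4 := gk_eq (k := 4) (by norm_num) him
      have hE6 := gk_eq (k := 6) (by norm_num) him
      rw [z4] at hE4
      rw [z6] at hE6
      have hd := ModularForm.discriminant_eq_E₄_cube_sub_E₆_sq ⟨τ, him⟩
      have hd0 := ModularForm.discriminant_ne_zero ⟨τ, him⟩
      apply hd0
      rw [hd]
      have e1 : ModularForm.E₄ ⟨τ, him⟩ = ModularForm.E (k := 4) (by norm_num) ⟨τ, him⟩ := rfl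
      have e2 : ModularForm.E₆ ⟨τ, him⟩ = ModularForm.E (k := 6) (by norm_num) ⟨τ, him⟩ := rfl
      rw [e1, e2]
      rw [h4'] at hE4
      rw [h6'] at hE6
      set A : ℂ := ModularForm.E (k := 4) (by norm_num) ⟨τ, him⟩
      set B : ℂ := ModularForm.E (k := 6) (by norm_num) ⟨τ, him⟩
      have h140 : (140 * e6 q) ^ 2 ≠ 0 := pow_ne_zero 2 (mul_ne_zero (by norm_num) hq6)
      have h0' : (60 * e4 q) ^ 3 = 27 * (140 * e6 q) ^ 2 :=
        (div_eq_iff h140).1 (sub_eq_zero.1 h0)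
      rw [hE4, hE6] at h0'
      have h3 : (64 / 27 * (Real.pi : ℂ) ^ 12) * (A ^ 3 - B ^ 2) = 0 := by
        linear_combination h0'
      have h5 := (mul_eq_zero.1 h3).resolve_left
        (mul_ne_zero (by norm_num) (pow_ne_zero 12 hpi))
      rw [h5, zero_div]
    exact hcomb (hall.filter_mono nhdsWithin_le_nhds |>.mono fun q hq => not_not.2 hq)
  obtain ⟨k, h, ah, hh0, hfac⟩ := (AnalyticAt.exists_eventuallyEq_pow_smul_nonzero_iff af).2 hnz
  have hk : 1 ≤ k := by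
    rcases Nat.eq_zero_or_pos k with hk | hk
    · exfalso
      have := hfac.self_of_nhds
      rw [f0, hk, pow_zero, one_smul] at this
      exact hh0 this.symm
    · exact hk
  -- bounds for h
  have hhp : 0 < ‖h 0‖ := norm_pos_iff.2 hh0
  have hb1 : ∀ᶠ q in 𝓝 (0 : ℂ), ‖h 0‖ / 2 < ‖h q‖ :=
    ah.continuousAt.norm.eventually (lt_mem_nhds (by linarith))
  have hb2 : ∀ᶠ q in 𝓝 (0 : ℂ), ‖h q‖ < 2 * ‖h 0‖ :=
    ah.continuousAt.norm.eventually (gt_mem_nhds (by linarith))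
  -- bound for r
  obtain ⟨R, hR⟩ := (ar.differentiableAt.isBigO_sub).bound
  rw [r0] at hR
  simp only [sub_zero] at hR
  have hall := (((((n4.and n6).and hfac).and hb1).and hb2).and hR)
  obtain ⟨δ, hδ, hball⟩ := Metric.eventually_nhds_iff.1 hall
  have hlim : ∃ T : ℝ, 0 < T ∧ ∀ y, T ≤ y → Real.exp (-(2 * Real.pi * y)) < δ := by
    have h1 : Tendsto (fun y : ℝ => Real.exp (-(2 * Real.pi * y))) atTop (𝓝 0) := by
      refine Real.tendsto_exp_atBot.comp (tendsto_neg_atTop_atBot.comp ?_)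
      exact tendsto_id.const_mul_atTop (by positivity)
    obtain ⟨T, hT⟩ := eventually_atTop.1 ((h1.eventually (gt_mem_nhds hδ)).and (eventually_gt_atTop 0))
    exact ⟨max T 1, by positivity, fun y hy => (hT y ((le_max_left _ _).trans hy)).1⟩
  obtain ⟨T, hT0, hT⟩ := hlim
  refine ⟨k, hk, ‖h 0‖ / 2, max (2 * ‖h 0‖) R, T, by positivity, by positivity, hT0, ?_⟩
  intro τ hτ
  have him : 0 < τ.im := hT0.trans_le hτ
  have hnq : ‖Q τ‖ = Real.exp (-(2 * Real.pi * τ.im)) := norm_q τ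
  obtain ⟨⟨⟨⟨⟨b4, b6⟩, bf⟩, c1⟩, c2⟩, c3⟩ := hball (y := Q τ) (by
    rw [dist_zero_right, hnq]; exact hT _ hτ)
  rw [sub_zero, smul_eq_mul] at bf
  have hpow : ‖Q τ‖ ^ k = Real.exp (-(2 * Real.pi * k * τ.im)) := by
    rw [hnq, ← Real.exp_nat_mul]
    congr 1
    ring
  refine ⟨?_, ?_, ?_, ?_, ?_⟩
  · rw [gg2, h4 τ him]
    exact mul_ne_zero (by norm_num) b4
  · rw [gg3, h6 τ him]
    exact mul_ne_zero (by norm_num) b6
  · rw [jf τ him, bf, norm_mul, norm_pow, hpow, mul_comm]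
    gcongr
  · rw [jf τ him, bf, norm_mul, norm_pow, hpow, mul_comm]
    gcongr
    exact c2.le.trans (le_max_left _ _)
  · rw [rf τ him]
    refine c3.trans ?_
    rw [hnq]
    gcongr
    exact le_max_right _ _

end Pool.Agent.Work.MP_8da9ea_nt

end

section

/-!
# Asymptotics of the Weierstrass function at the cusp
-/

set_option autoImplicit false

namespace Pool.Agent.Work.MP_8da9ea_nt

open Complex Filter Topology Metric

/-- the row sum -/
noncomputable def SS (w : ℂ) : ℂ := ∑' m : ℤ, 1 / (w + m) ^ 2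

lemma SS_neg (w : ℂ) : SS (-w) = SS w := by
  unfold SS
  rw [← (Equiv.neg ℤ).tsum_eq (fun m : ℤ => 1 / (w + m) ^ 2)]
  refine tsum_congr fun m => ?_
  simp only [Equiv.neg_apply]
  push_cast
  rw [show (w + -(m : ℂ)) = -(-w + m) by ring, neg_sq]

lemma SS_eq {w : ℂ} (hw : 0 < w.im) :
    SS w = -(4 * (Real.pi : ℂ) ^ 2) * (cexp (2 * Real.pi * I * w) /
      (1 - cexp (2 * Real.pi * I * w)) ^ 2) := by
  have h := EisensteinSeries.qExpansion_identity (k := 1) le_rfl (⟨w, hw⟩ : UpperHalfPlane)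
  have h0 : ((⟨w, hw⟩ : UpperHalfPlane) : ℂ) = w := rfl
  rw [h0] at h
  have hq : ‖cexp (2 * Real.pi * I * w)‖ < 1 := by
    have := UpperHalfPlane.norm_exp_two_pi_I_lt_one (⟨w, hw⟩ : UpperHalfPlane)
    exact this
  have h2 := tsum_coe_mul_geometric_of_norm_lt_one hq
  unfold SS
  have h3 : (∑' n : ℤ, 1 / (w + n) ^ (1 + 1)) = ∑' n : ℤ, 1 / (w + n) ^ 2 := rfl
  rw [← h3, h]
  simp only [pow_one]
  rw [h2]
  have h4 : (-2 * (Real.pi : ℂ) * I) ^ (1 + 1) = -(4 * (Real.pi : ℂ) ^ 2) := by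
    rw [show (1 + 1) = 2 from rfl, mul_pow, mul_pow, I_sq]
    ring
  rw [h4]
  simp

lemma norm_qW (w : ℂ) : ‖cexp (2 * Real.pi * I * w)‖ = Real.exp (-(2 * Real.pi * w.im)) := by
  rw [Complex.norm_exp]
  congr 1
  simp

lemma SS_upper {w : ℂ} (hw : 0 < w.im) (h : Real.exp (-(2 * Real.pi * w.im)) ≤ 1 / 2) :
    ‖SS w‖ ≤ 16 * Real.pi ^ 2 * Real.exp (-(2 * Real.pi * w.im)) := by
  rw [SS_eq hw, norm_mul, norm_div, norm_neg, norm_pow]
  have hn := norm_qW w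
  set q := cexp (2 * Real.pi * I * w) with hqdef
  set r := Real.exp (-(2 * Real.pi * w.im)) with hr
  have hr0 : 0 < r := Real.exp_pos _
  have h1 : 1 / 2 ≤ ‖1 - q‖ := by
    have := norm_sub_norm_le (1 : ℂ) q
    rw [norm_one, hn] at this
    linarith
  have h2 : ‖(4 * (Real.pi : ℂ) ^ 2)‖ = 4 * Real.pi ^ 2 := by
    rw [norm_mul, norm_pow]
    simp [abs_of_pos Real.pi_pos]
  rw [h2, hn]
  have h3 : r / ‖1 - q‖ ^ 2 ≤ r / (1 / 2) ^ 2 := by
    gcongr
  calc 4 * Real.pi ^ 2 * (r / ‖1 - q‖ ^ 2) ≤ 4 * Real.pi ^ 2 * (r / (1 / 2) ^ 2) := by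
        gcongr
    _ = 16 * Real.pi ^ 2 * r := by ring

lemma SS_lower {w : ℂ} (hw : 0 < w.im) (h : Real.exp (-(2 * Real.pi * w.im)) ≤ 1 / 2) :
    16 * Real.exp (-(2 * Real.pi * w.im)) ≤ ‖SS w‖ := by
  rw [SS_eq hw, norm_mul, norm_div, norm_neg, norm_pow]
  have hn := norm_qW w
  set q := cexp (2 * Real.pi * I * w) with hqdef
  set r := Real.exp (-(2 * Real.pi * w.im)) with hr
  have hr0 : 0 < r := Real.exp_pos _
  have h0 : 1 / 2 ≤ ‖1 - q‖ := by
    have := norm_sub_norm_le (1 : ℂ) q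
    rw [norm_one, hn] at this
    linarith
  have h1 : ‖1 - q‖ ≤ 3 / 2 := by
    have := norm_sub_le (1 : ℂ) q
    rw [norm_one, hn] at this
    linarith
  have h2 : ‖(4 * (Real.pi : ℂ) ^ 2)‖ = 4 * Real.pi ^ 2 := by
    rw [norm_mul, norm_pow]
    simp [abs_of_pos Real.pi_pos]
  rw [h2, hn]
  have h3 : r / (3 / 2) ^ 2 ≤ r / ‖1 - q‖ ^ 2 := by
    gcongr
  have hpi : (9 : ℝ) ≤ Real.pi ^ 2 := by nlinarith [Real.pi_gt_three]
  calc 16 * r = 4 * 9 * (r / (3 / 2) ^ 2) := by ring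
    _ ≤ 4 * Real.pi ^ 2 * (r / ‖1 - q‖ ^ 2) := by
        gcongr

lemma tsum_inv_sq : ∑' m : ℤ, 1 / ((m : ℂ)) ^ 2 = (Real.pi : ℂ) ^ 2 / 3 := by
  have h := two_mul_riemannZeta_eq_tsum_int_inv_pow_of_even (k := 2) le_rfl (by decide)
  have h2 : riemannZeta ((2 : ℕ) : ℂ) = (Real.pi : ℂ) ^ 2 / 6 := by
    have := riemannZeta_two
    simpa using this
  rw [h2] at h
  simp only [one_div]
  rw [← h]
  ring

lemma wp_rows {τ : ℂ} (hτ : 0 < τ.im) (z : ℂ) :
    Summable (fun n : ℤ => ∑' m : ℤ, wpT 1 τ z (m, n)) ∧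
    wp 1 τ z = ∑' n : ℤ, ∑' m : ℤ, wpT 1 τ z (m, n) := by
  have hs := summable_wpT hτ z
  have hs' : Summable (fun p : ℤ × ℤ => wpT 1 τ z (p.2, p.1)) :=
    (Equiv.prodComm ℤ ℤ).summable_iff.2 hs
  refine ⟨hs'.prod, ?_⟩
  unfold wp
  rw [← (Equiv.prodComm ℤ ℤ).tsum_eq (wpT 1 τ z)]
  exact hs'.tsum_prod

lemma row_eq {τ : ℂ} (hτ : 0 < τ.im) (z : ℂ) (n : ℤ) :
    ∑' m : ℤ, wpT 1 τ z (m, n) = SS (z - n * τ) - SS (n * τ) := by
  have hs := summable_wpT hτ z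
  have hs' : Summable (fun p : ℤ × ℤ => wpT 1 τ z (p.2, p.1)) :=
    (Equiv.prodComm ℤ ℤ).summable_iff.2 hs
  have hsn : Summable (fun m : ℤ => wpT 1 τ z (m, n)) := hs'.prod_factor n
  have hrow := summable_row τ n
  have h1 : Summable (fun m : ℤ => 1 / (z - lp 1 τ (m, n)) ^ 2) := by
    refine (hsn.add hrow).congr fun m => ?_
    simp only [wpT]
    ring
  have h2 : ∑' m : ℤ, wpT 1 τ z (m, n) =
      (∑' m : ℤ, 1 / (z - lp 1 τ (m, n)) ^ 2) - ∑' m : ℤ, 1 / (lp 1 τ (m, n)) ^ 2 := by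
    rw [← h1.tsum_sub hrow]
    rfl
  rw [h2]
  congr 1
  · unfold SS
    rw [← (Equiv.neg ℤ).tsum_eq (fun m : ℤ => 1 / (z - n * τ + m) ^ 2)]
    refine tsum_congr fun m => ?_
    simp only [Equiv.neg_apply, lp_one]
    push_cast
    rw [show z - (m + n * τ) = z - n * τ + -(m : ℂ) by ring]
  · unfold SS
    refine tsum_congr fun m => ?_
    rw [lp_one, add_comm]

lemma SS_zero : SS 0 = (Real.pi : ℂ) ^ 2 / 3 := by
  rw [← tsum_inv_sq]
  unfold SS
  refine tsum_congr fun m => ?_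
  rw [zero_add]

lemma wp_rows_eq {τ : ℂ} (hτ : 0 < τ.im) (z : ℂ) :
    wp 1 τ z + (Real.pi : ℂ) ^ 2 / 3 = SS z +
      ∑' n : ℤ, (if n = 0 then 0 else (SS (z - n * τ) - SS (n * τ))) := by
  obtain ⟨h1, h2⟩ := wp_rows hτ z
  simp only [row_eq hτ] at h1 h2
  rw [h2, h1.tsum_eq_add_tsum_ite 0]
  simp only [Int.cast_zero, zero_mul, sub_zero, SS_zero]
  ring

lemma summable_half : Summable (fun n : ℤ => ((1 : ℝ) / 2) ^ n.natAbs) := by
  refine Summable.of_nat_of_neg ?_ ?_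
  · simp only [Int.natAbs_natCast]
    exact summable_geometric_of_lt_one (by norm_num) (by norm_num)
  · simp only [Int.natAbs_neg, Int.natAbs_natCast]
    exact summable_geometric_of_lt_one (by norm_num) (by norm_num)

/-- bound for the terms of the other rows -/
lemma row_bound {β : ℝ} (h0 : 0 < β) (h1 : β < 1 / 2) {τ : ℂ} (hτ : 0 < τ.im)
    (hr : Real.exp (-(2 * Real.pi * (1 - β) * τ.im)) ≤ 1 / 2) (α : ℝ) (n : ℤ) (hn : n ≠ 0) :
    ‖SS (α + β * τ - n * τ) - SS (n * τ)‖ ≤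
      (64 * Real.pi ^ 2 * Real.exp (-(2 * Real.pi * (1 - β) * τ.im))) *
        ((1 : ℝ) / 2) ^ n.natAbs := by
  set y := τ.im with hy
  -- the sum is even in the argument, reduce to positive imaginary part
  have key : ∀ w : ℂ, (n.natAbs - β) * y ≤ |w.im| →
      ‖SS w‖ ≤ 16 * Real.pi ^ 2 * Real.exp (-(2 * Real.pi * ((n.natAbs - β) * y))) := by
    have hn1 : (1 : ℝ) ≤ n.natAbs := by
      have : 1 ≤ n.natAbs := Int.natAbs_pos.mpr hn
      exact_mod_cast this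
    have hpos : 0 < (n.natAbs - β) * y := mul_pos (by linarith) hτ
    have hge : (1 - β) * y ≤ (n.natAbs - β) * y :=
      mul_le_mul_of_nonneg_right (by linarith) hτ.le
    have key' : ∀ w : ℂ, (n.natAbs - β) * y ≤ w.im →
        ‖SS w‖ ≤ 16 * Real.pi ^ 2 * Real.exp (-(2 * Real.pi * ((n.natAbs - β) * y))) := by
      intro w hw
      have hle : Real.exp (-(2 * Real.pi * w.im)) ≤
          Real.exp (-(2 * Real.pi * ((n.natAbs - β) * y))) := by
        apply Real.exp_le_exp.mpr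
        have := mul_le_mul_of_nonneg_left hw (by positivity : (0 : ℝ) ≤ 2 * Real.pi)
        linarith
      have hle2 : Real.exp (-(2 * Real.pi * ((n.natAbs - β) * y))) ≤
          Real.exp (-(2 * Real.pi * (1 - β) * y)) := by
        apply Real.exp_le_exp.mpr
        have := mul_le_mul_of_nonneg_left hge (by positivity : (0 : ℝ) ≤ 2 * Real.pi)
        linarith
      refine (SS_upper (lt_of_lt_of_le hpos hw) (hle.trans (hle2.trans hr))).trans ?_
      gcongr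
    intro w hw
    rcases le_abs.mp hw with h | h
    · exact key' w h
    · rw [← SS_neg]
      exact key' (-w) (by rw [neg_im]; exact h)
  have hnn : ((n.natAbs : ℕ) : ℝ) = |(n : ℝ)| := by
    rw [Nat.cast_natAbs, Int.cast_abs]
  have b1 : (n.natAbs - β) * y ≤ |(α + β * τ - n * τ : ℂ).im| := by
    have e1 : (α + β * τ - n * τ : ℂ).im = (β - n) * y := by
      simp [hy]; ring
    rw [e1, abs_mul, abs_of_pos hτ, hnn]
    refine mul_le_mul_of_nonneg_right ?_ hτ.le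
    have := abs_sub_abs_le_abs_sub (n : ℝ) β
    rw [abs_of_pos h0, abs_sub_comm] at this
    exact this
  have b2 : (n.natAbs - β) * y ≤ |(n * τ : ℂ).im| := by
    have e1 : (n * τ : ℂ).im = n * y := by
      simp [hy]
    rw [e1, abs_mul, abs_of_pos hτ, hnn]
    refine mul_le_mul_of_nonneg_right ?_ hτ.le
    linarith
  have h2 := (norm_sub_le (SS (α + β * τ - n * τ)) (SS (n * τ))).trans
    (add_le_add (key _ b1) (key _ b2))
  refine h2.trans ?_
  -- the geometric factor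
  obtain ⟨k, hk⟩ : ∃ k : ℕ, n.natAbs = k + 1 :=
    ⟨n.natAbs - 1, by have := Int.natAbs_pos.mpr hn; omega⟩
  rw [hk]
  have e2 : Real.exp (-(2 * Real.pi * (((k + 1 : ℕ) - β) * y))) =
      Real.exp (-(2 * Real.pi * (1 - β) * y)) * Real.exp (-(2 * Real.pi * y)) ^ k := by
    rw [← Real.exp_nat_mul, ← Real.exp_add]
    congr 1
    push_cast
    ring
  have e3 : Real.exp (-(2 * Real.pi * y)) ≤ 1 / 2 := by
    refine le_trans ?_ hr
    apply Real.exp_le_exp.mpr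
    have : 2 * Real.pi * (1 - β) * y ≤ 2 * Real.pi * y := by
      have h5 : 0 ≤ 2 * Real.pi * β * y := by positivity
      nlinarith
    linarith
  have e4 : Real.exp (-(2 * Real.pi * y)) ^ k ≤ (1 / 2) ^ k :=
    pow_le_pow_left₀ (Real.exp_pos _).le e3 k
  rw [e2]
  calc 16 * Real.pi ^ 2 * (Real.exp (-(2 * Real.pi * (1 - β) * y)) *
          Real.exp (-(2 * Real.pi * y)) ^ k) +
        16 * Real.pi ^ 2 * (Real.exp (-(2 * Real.pi * (1 - β) * y)) *
          Real.exp (-(2 * Real.pi * y)) ^ k)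
      = 32 * Real.pi ^ 2 * Real.exp (-(2 * Real.pi * (1 - β) * y)) *
          Real.exp (-(2 * Real.pi * y)) ^ k := by ring
    _ ≤ 32 * Real.pi ^ 2 * Real.exp (-(2 * Real.pi * (1 - β) * y)) * (1 / 2) ^ k := by
        gcongr
    _ = 64 * Real.pi ^ 2 * Real.exp (-(2 * Real.pi * (1 - β) * y)) * (1 / 2) ^ (k + 1) := by
        ring

lemma exp_small {a ε : ℝ} (ha : 0 < a) (hε : 0 < ε) :
    ∃ T : ℝ, 0 < T ∧ ∀ y : ℝ, T ≤ y → Real.exp (-(a * y)) ≤ ε := by
  refine ⟨max 1 (-Real.log ε / a), by positivity, fun y hy => ?_⟩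
  have h1 : -Real.log ε / a ≤ y := le_trans (le_max_right _ _) hy
  rw [div_le_iff₀ ha] at h1
  calc Real.exp (-(a * y)) ≤ Real.exp (Real.log ε) := by
        apply Real.exp_le_exp.mpr
        linarith
    _ = ε := Real.exp_log hε

theorem cusp_wp {β : ℝ} (h0 : 0 < β) (h1 : β < 1 / 2) :
    ∃ c C T : ℝ, 0 < c ∧ 0 < C ∧ 0 < T ∧ ∀ τ : ℂ, T ≤ τ.im → ∀ α : ℝ,
      c * Real.exp (-(2 * Real.pi * β * τ.im)) ≤ ‖wp 1 τ (α + β * τ) + Real.pi ^ 2 / 3‖ ∧
      ‖wp 1 τ (α + β * τ) + Real.pi ^ 2 / 3‖ ≤ C * Real.exp (-(2 * Real.pi * β * τ.im)) := by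
  set Sg : ℝ := ∑' n : ℤ, ((1 : ℝ) / 2) ^ n.natAbs with hSg
  have hSg0 : 0 ≤ Sg := tsum_nonneg fun n => by positivity
  have hpi := Real.pi_pos
  obtain ⟨T1, hT1, ht1⟩ := exp_small (a := 2 * Real.pi * β) (ε := 1 / 2) (by positivity)
    (by norm_num)
  obtain ⟨T2, hT2, ht2⟩ := exp_small (a := 2 * Real.pi * (1 - β)) (ε := 1 / 2)
    (mul_pos (by positivity) (by linarith)) (by norm_num)
  obtain ⟨T3, hT3, ht3⟩ := exp_small (a := 2 * Real.pi * (1 - 2 * β))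
    (ε := 8 / (64 * Real.pi ^ 2 * Sg + 1)) (mul_pos (by positivity) (by linarith)) (by positivity)
  refine ⟨8, 16 * Real.pi ^ 2 + 8, max T1 (max T2 T3), by norm_num, by positivity,
    lt_max_of_lt_left hT1, fun τ hT α => ?_⟩
  have hy1 : T1 ≤ τ.im := le_trans (le_max_left _ _) hT
  have hy2 : T2 ≤ τ.im := le_trans (le_trans (le_max_left _ _) (le_max_right _ _)) hT
  have hy3 : T3 ≤ τ.im := le_trans (le_trans (le_max_right _ _) (le_max_right _ _)) hT
  have hτ : 0 < τ.im := lt_of_lt_of_le hT1 hy1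
  have g1 := ht1 _ hy1
  have g2 := ht2 _ hy2
  have g3 := ht3 _ hy3
  have him : (α + β * τ : ℂ).im = β * τ.im := by simp
  have hpos : 0 < (α + β * τ : ℂ).im := by rw [him]; exact mul_pos h0 hτ
  have hexp : Real.exp (-(2 * Real.pi * (α + β * τ : ℂ).im)) =
      Real.exp (-(2 * Real.pi * β * τ.im)) := by
    rw [him]; congr 1; ring
  have hexp' : Real.exp (-(2 * Real.pi * (α + β * τ : ℂ).im)) ≤ 1 / 2 := by
    rw [hexp]; exact g1
  have u1 := SS_upper hpos hexp'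
  have u2 := SS_lower hpos hexp'
  rw [hexp] at u1 u2
  have hrest : ‖∑' n : ℤ, (if n = 0 then (0 : ℂ) else
      (SS (α + β * τ - n * τ) - SS (n * τ)))‖ ≤
      8 * Real.exp (-(2 * Real.pi * β * τ.im)) := by
    have hb := tsum_of_norm_bounded
      (f := fun n : ℤ => (if n = 0 then (0 : ℂ) else (SS (α + β * τ - n * τ) - SS (n * τ))))
      (summable_half.hasSum.mul_left
        (64 * Real.pi ^ 2 * Real.exp (-(2 * Real.pi * (1 - β) * τ.im)))) ?_
    · refine hb.trans ?_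
      rw [← hSg]
      have e1 : Real.exp (-(2 * Real.pi * (1 - β) * τ.im)) =
          Real.exp (-(2 * Real.pi * (1 - 2 * β) * τ.im)) *
            Real.exp (-(2 * Real.pi * β * τ.im)) := by
        rw [← Real.exp_add]; congr 1; ring
      rw [e1]
      have hpos2 : 0 < 64 * Real.pi ^ 2 * Sg + 1 := by positivity
      rw [le_div_iff₀ hpos2] at g3
      have e2 : 0 < Real.exp (-(2 * Real.pi * (1 - 2 * β) * τ.im)) := Real.exp_pos _
      have e3 : 64 * Real.pi ^ 2 * Real.exp (-(2 * Real.pi * (1 - 2 * β) * τ.im)) * Sg ≤ 8 := by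
        linarith
      calc 64 * Real.pi ^ 2 * (Real.exp (-(2 * Real.pi * (1 - 2 * β) * τ.im)) *
            Real.exp (-(2 * Real.pi * β * τ.im))) * Sg
          = (64 * Real.pi ^ 2 * Real.exp (-(2 * Real.pi * (1 - 2 * β) * τ.im)) * Sg) *
            Real.exp (-(2 * Real.pi * β * τ.im)) := by ring
        _ ≤ 8 * Real.exp (-(2 * Real.pi * β * τ.im)) := by
            gcongr
    · intro n
      by_cases hn : n = 0
      · simp only [hn, if_true, norm_zero]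
        positivity
      · simp only [hn, if_false]
        exact row_bound h0 h1 hτ g2 α n hn
  have hmain := wp_rows_eq hτ (α + β * τ)
  rw [hmain]
  constructor
  · have := norm_sub_norm_le (SS (α + β * τ)) (-(∑' n : ℤ, (if n = 0 then (0 : ℂ) else
      (SS (α + β * τ - n * τ) - SS (n * τ)))))
    rw [norm_neg, sub_neg_eq_add] at this
    linarith
  · refine (norm_add_le _ _).trans ?_
    calc _ ≤ 16 * Real.pi ^ 2 * Real.exp (-(2 * Real.pi * β * τ.im)) +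
          8 * Real.exp (-(2 * Real.pi * β * τ.im)) := add_le_add u1 hrest
      _ = _ := by ring

end Pool.Agent.Work.MP_8da9ea_nt

end

section

/-!
# Holomorphic implicit functions and logarithms
-/

set_option autoImplicit false

namespace Pool.Agent.Work.MP_8da9ea_nt

open Complex Filter Topology Metric

lemma lf_inr (A B : ℂ) : (lf A B) ∘L (ContinuousLinearMap.inr ℂ ℂ ℂ) =
    B • ContinuousLinearMap.id ℂ ℂ := by
  ext
  simp [lf_apply]

lemma lf_inr_inv {A B : ℂ} (hB : B ≠ 0) :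
    ((lf A B) ∘L (ContinuousLinearMap.inr ℂ ℂ ℂ)).IsInvertible := by
  rw [lf_inr]
  refine ⟨ContinuousLinearEquiv.smulLeft (Units.mk0 B hB), ?_⟩
  ext
  simp

/-- **Implicit functions**, holomorphic version in two variables. -/
theorem ift {F : ℂ × ℂ → ℂ} {A B : ℂ × ℂ → ℂ} {p₀ : ℂ × ℂ}
    (hF : ∀ᶠ p in 𝓝 p₀, HasStrictFDerivAt F (lf (A p) (B p)) p) (hB : ∀ᶠ p in 𝓝 p₀, B p ≠ 0)
    (h0 : F p₀ = 0) :
    ∃ ψ : ℂ → ℂ, AnalyticAt ℂ ψ p₀.1 ∧ ψ p₀.1 = p₀.2 ∧ ∀ᶠ p in 𝓝 p₀, (F p = 0 ↔ ψ p.1 = p.2) := by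
  have hF0 := hF.self_of_nhds
  have hI0 := lf_inr_inv (A := A p₀) hB.self_of_nhds
  set ψ := hF0.implicitFunctionOfProdDomain hI0 with hψ
  have h1 := hF0.eventually_apply_eq_iff_implicitFunctionOfProdDomain hI0
  rw [h0] at h1
  have h2 := hF0.eventually_apply_implicitFunctionOfProdDomain hI0
  rw [h0] at h2
  have h3 := hF0.tendsto_implicitFunctionOfProdDomain hI0
  have h4 : ψ p₀.1 = p₀.2 := h1.self_of_nhds.1 h0
  have h5 := hF0.hasStrictFDerivAt_implicitFunctionOfProdDomain hI0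
  obtain ⟨K, s, hs, hLip⟩ := h5.exists_lipschitzOnWith
  have hcont : ∀ᶠ x in 𝓝 p₀.1, ContinuousAt ψ x := by
    have : ∀ᶠ x in 𝓝 p₀.1, s ∈ 𝓝 x := eventually_mem_nhds_iff.2 hs
    filter_upwards [this] with x hx
    exact hLip.continuousOn.continuousAt hx
  have hpair : Tendsto (fun x => (x, ψ x)) (𝓝 p₀.1) (𝓝 p₀) := by
    have := (tendsto_id (α := ℂ) (x := 𝓝 p₀.1)).prodMk_nhds h3
    exact this
  have hdiff : ∀ᶠ x in 𝓝 p₀.1, DifferentiableAt ℂ ψ x := by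
    have e2 := eventually_eventually_nhds.2 h2
    filter_upwards [hpair.eventually hF, hpair.eventually hB, hcont, e2] with x hx hxB hxc hx2
    have hI := lf_inr_inv (A := A (x, ψ x)) hxB
    have g1 := hx.eventually_apply_eq_iff_implicitFunctionOfProdDomain hI
    have hx0 : F (x, ψ x) = 0 := hx2.self_of_nhds
    rw [hx0] at g1
    have g2 : Tendsto (fun y => (y, ψ y)) (𝓝 x) (𝓝 (x, ψ x)) :=
      (tendsto_id (α := ℂ) (x := 𝓝 x)).prodMk_nhds hxc.tendsto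
    have g3 : hx.implicitFunctionOfProdDomain hI =ᶠ[𝓝 x] ψ := by
      filter_upwards [g2.eventually g1, hx2] with y hy hy2
      exact hy.1 hy2
    have g4 := (hx.hasStrictFDerivAt_implicitFunctionOfProdDomain hI).hasFDerivAt.differentiableAt
    exact g4.congr_of_eventuallyEq g3.symm
  refine ⟨ψ, ?_, h4, h1⟩
  obtain ⟨u, hu, huo, hup⟩ := _root_.eventually_nhds_iff.1 hdiff
  have : DifferentiableOn ℂ ψ u := fun x hx => (hu x hx).differentiableWithinAt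
  exact this.analyticAt (huo.mem_nhds hup)

end Pool.Agent.Work.MP_8da9ea_nt

end

section

/-!
# The normalised invariants: transformation laws and non-constancy
-/

set_option autoImplicit false

namespace Pool.Agent.Work.MP_8da9ea_nt

open Complex Filter Topology Metric

lemma analytic_gg2 {τ : ℂ} (hτ : 0 < τ.im) : AnalyticAt ℂ gg2 τ := by
  have := analytic_gk (k := 4) (by norm_num) (τ := fun x => x) (x₀ := τ) analyticAt_id hτ
  exact analyticAt_const.mul this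

lemma analytic_gg3 {τ : ℂ} (hτ : 0 < τ.im) : AnalyticAt ℂ gg3 τ := by
  have := analytic_gk (k := 6) (by norm_num) (τ := fun x => x) (x₀ := τ) analyticAt_id hτ
  exact analyticAt_const.mul this

lemma analytic_jt {τ : ℂ} (hτ : 0 < τ.im) (h3 : gg3 τ ≠ 0) : AnalyticAt ℂ jt τ :=
  ((analytic_gg2 hτ).pow 3).div ((analytic_gg3 hτ).pow 2) (pow_ne_zero _ h3)

lemma ev_ne {f : ℂ → ℂ} (hf : AnalyticOnNhd ℂ f HH) (hx : ∃ x ∈ HH, f x ≠ 0) {τ₀ : ℂ}
    (hτ₀ : τ₀ ∈ HH) : ∀ᶠ t in 𝓝[≠] τ₀, f t ≠ 0 := by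
  rcases (hf τ₀ hτ₀).eventually_eq_zero_or_eventually_ne_zero with h | h
  · exfalso
    obtain ⟨x, hx, hne⟩ := hx
    exact hne (hf.eqOn_zero_of_preconnected_of_eventuallyEq_zero isPreconnected_HH hτ₀ h hx)
  · exact h

lemma ev_gg2 {τ₀ : ℂ} (hτ₀ : τ₀ ∈ HH) : ∀ᶠ t in 𝓝[≠] τ₀, gg2 t ≠ 0 :=
  ev_ne (fun _ h => analytic_gg2 h) ⟨I, by simp [HH], by simp [gg2, gk4_I]⟩ hτ₀

lemma ev_gg3 {τ₀ : ℂ} (hτ₀ : τ₀ ∈ HH) : ∀ᶠ t in 𝓝[≠] τ₀, gg3 t ≠ 0 :=
  ev_ne (fun _ h => analytic_gg3 h) ⟨rho, rho_im, by simp [gg3, gk6_rho]⟩ hτ₀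

/-- clearing the denominator of `D(jt)` -/
noncomputable def clr (D : Polynomial ℂ) (N : ℕ) (t : ℂ) : ℂ :=
  ∑ k ∈ Finset.range (D.natDegree + 1), D.coeff k * gg2 t ^ (3 * k) * gg3 t ^ (2 * (N - k))

lemma clr_eq (D : Polynomial ℂ) {N : ℕ} (hN : D.natDegree ≤ N) {t : ℂ} (h3 : gg3 t ≠ 0) :
    clr D N t = gg3 t ^ (2 * N) * D.eval (jt t) := by
  unfold clr jt
  rw [Polynomial.eval_eq_sum_range, Finset.mul_sum]
  refine Finset.sum_congr rfl fun k hk => ?_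
  have hk' : k ≤ N := by
    have := Finset.mem_range.1 hk
    omega
  have e : 2 * N = 2 * k + 2 * (N - k) := by omega
  rw [e, pow_add, div_pow, ← pow_mul, ← pow_mul]
  field_simp

lemma analytic_clr (D : Polynomial ℂ) (N : ℕ) {t : ℂ} (ht : 0 < t.im) :
    AnalyticAt ℂ (clr D N) t := by
  unfold clr
  refine Finset.analyticAt_fun_sum _ fun k _ => ?_
  exact (analyticAt_const.mul ((analytic_gg2 ht).pow _)).mul ((analytic_gg3 ht).pow _)

theorem exists_eval_jt {D : Polynomial ℂ} (hD : D ≠ 0) :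
    ∃ t ∈ HH, gg3 t ≠ 0 ∧ D.eval (jt t) ≠ 0 := by
  by_contra hcon
  push Not at hcon
  have h3 : gg3 rho ≠ 0 := by simp [gg3, gk6_rho]
  have hj0 : jt rho = 0 := by simp [jt, gg2, gk4_rho]
  have hfin : {x : ℂ | D.eval x = 0}.Finite := by
    refine (D.roots.toFinset.finite_toSet).subset fun x hx => ?_
    simp only [Finset.mem_coe, Multiset.mem_toFinset]
    exact (Polynomial.mem_roots hD).2 hx
  have hcl : IsClosed ({x : ℂ | D.eval x = 0} \ {0}) := (hfin.subset Set.sdiff_subset).isClosed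
  have hc : ContinuousAt jt rho := (analytic_jt rho_im h3).continuousAt
  have h1 : ∀ᶠ t in 𝓝 rho, jt t ∉ ({x : ℂ | D.eval x = 0} \ {0}) := by
    refine hc.eventually (hcl.isOpen_compl.mem_nhds ?_)
    rw [hj0]
    simp
  have h2 : ∀ᶠ t in 𝓝 rho, gg3 t ≠ 0 := (analytic_gg3 rho_im).continuousAt.eventually_ne h3
  have h4 : ∀ᶠ t in 𝓝 rho, t ∈ HH := HH_open.mem_nhds rho_im
  have h5 : gg2 =ᶠ[𝓝 rho] 0 := by
    filter_upwards [h1, h2, h4] with t t1 t2 t4
    have h6 := hcon t t4 t2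
    have h7 : jt t = 0 := by
      by_contra hne
      exact t1 ⟨h6, hne⟩
    unfold jt at h7
    rw [div_eq_zero_iff] at h7
    rcases h7 with h7 | h7
    · exact pow_eq_zero_iff (by norm_num) |>.1 h7
    · exact absurd h7 (pow_ne_zero _ t2)
  have h6 := (show AnalyticOnNhd ℂ gg2 HH from
    fun _ h => analytic_gg2 h).eqOn_zero_of_preconnected_of_eventuallyEq_zero isPreconnected_HH
    rho_im h5
  have h7 := h6 (show I ∈ HH by simp [HH])
  simp [gg2, gk4_I] at h7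

theorem clr_ne {D : Polynomial ℂ} (hD : D ≠ 0) {N : ℕ} (hN : D.natDegree ≤ N) :
    ∃ t ∈ HH, clr D N t ≠ 0 := by
  obtain ⟨t, ht, h3, h⟩ := exists_eval_jt hD
  refine ⟨t, ht, ?_⟩
  rw [clr_eq D hN h3]
  exact mul_ne_zero (pow_ne_zero _ h3) h

theorem ev_jt {D : Polynomial ℂ} (hD : D ≠ 0) {τ₀ : ℂ} (hτ₀ : τ₀ ∈ HH) :
    ∀ᶠ t in 𝓝[≠] τ₀, gg2 t ≠ 0 ∧ gg3 t ≠ 0 ∧ D.eval (jt t) ≠ 0 := by
  have h1 := ev_ne (fun _ h => analytic_clr D D.natDegree h) (clr_ne hD le_rfl) hτ₀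
  filter_upwards [ev_gg2 hτ₀, ev_gg3 hτ₀, h1] with t t2 t3 t1
  refine ⟨t2, t3, fun h => t1 ?_⟩
  rw [clr_eq D le_rfl t3, h, mul_zero]

/-! ### transformation laws -/

lemma gg2_T (τ : ℂ) : gg2 (τ + 1) = gg2 τ := by
  have h := gk_T 4 1 τ 1
  simp only [Int.cast_one, mul_one] at h
  simp only [gg2]
  rw [h]

lemma gg3_T (τ : ℂ) : gg3 (τ + 1) = gg3 τ := by
  have h := gk_T 6 1 τ 1
  simp only [Int.cast_one, mul_one] at h
  simp only [gg3]
  rw [h]

lemma wp_T1 (τ z : ℂ) : wp 1 (τ + 1) z = wp 1 τ z := by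
  have h := wp_T 1 τ z 1
  simp only [Int.cast_one, mul_one] at h
  exact h

lemma jt_T (τ : ℂ) : jt (τ + 1) = jt τ := by simp only [jt, gg2_T, gg3_T]

lemma xt_T (τ z : ℂ) : xt (τ + 1) z = xt τ z := by simp only [xt, gg2_T, gg3_T, wp_T1]

lemma gg2_S {τ : ℂ} (h : τ ≠ 0) : gg2 (-1 / τ) = τ ^ 4 * gg2 τ := by
  simp only [gg2, gk_inv 4 h]; ring

lemma gg3_S {τ : ℂ} (h : τ ≠ 0) : gg3 (-1 / τ) = τ ^ 6 * gg3 τ := by
  simp only [gg3, gk_inv 6 h]; ring

lemma jt_S {τ : ℂ} (h : τ ≠ 0) : jt (-1 / τ) = jt τ := by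
  simp only [jt, gg2_S h, gg3_S h]
  by_cases h3 : gg3 τ = 0
  · simp [h3]
  · field_simp

lemma xt_S {τ : ℂ} (h : τ ≠ 0) (z : ℂ) : xt (-1 / τ) z = xt τ (τ * z) := by
  simp only [xt, gg2_S h, gg3_S h, wp_inv h]
  by_cases h3 : gg3 τ = 0
  · simp [h3]
  · field_simp

lemma Lam_T1 {τ z : ℂ} : z ∈ Lam (τ + 1) ↔ z ∈ Lam τ := by
  simp only [mem_Lam]
  constructor
  · rintro ⟨m, n, h⟩
    exact ⟨m + n, n, by rw [h]; push_cast; ring⟩
  · rintro ⟨m, n, h⟩
    exact ⟨m - n, n, by rw [h]; push_cast; ring⟩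

lemma Lam_S1 {τ z : ℂ} (h : τ ≠ 0) : z ∈ Lam (-1 / τ) ↔ τ * z ∈ Lam τ := by
  simp only [mem_Lam]
  constructor
  · rintro ⟨m, n, h1⟩
    refine ⟨-n, m, ?_⟩
    rw [h1]
    push_cast
    field_simp
    ring
  · rintro ⟨m, n, h1⟩
    refine ⟨n, -m, ?_⟩
    have : z = (m + n * τ) / τ := by rw [← h1]; field_simp
    rw [this]
    push_cast
    field_simp
    ring

variable {q : Polynomial (Polynomial ℂ)}

lemma Sol_T {τ z : ℂ} : z ∈ Sol q (τ + 1) ↔ z ∈ Sol q τ := by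
  simp only [Sol, Set.mem_ofPred_eq, Lam_T1, jt_T, xt_T]

lemma Sol_S {τ z : ℂ} (h : τ ≠ 0) : z ∈ Sol q (-1 / τ) ↔ τ * z ∈ Sol q τ := by
  simp only [Sol, Set.mem_ofPred_eq, Lam_S1 h, jt_S h, xt_S h]

lemma Sol_add {τ z : ℂ} (hτ : 0 < τ.im) (m n : ℤ) :
    z + (m + n * τ) ∈ Sol q τ ↔ z ∈ Sol q τ := by
  simp only [Sol, Set.mem_ofPred_eq, add_mem_Lam_iff, xt]
  rw [wp_add_lp hτ z m n]

end Pool.Agent.Work.MP_8da9ea_nt

end
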