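import Pool.Agent.Work.MP_8da9ea_nt.Branch
import Pool.Agent.Work.MP_8da9ea_nt.Lim

/-! Bundle of small proof modules (one section per former module). -/

section

/-!
# Finitely many sections, extension of germs
-/

set_option autoImplicit false

namespace Pool.Agent.Work.MP_8da9ea_nt

open Complex Filter Topology Metric

variable {q : Polynomial (Polynomial ℂ)} {D : Polynomial ℂ}

lemma no_sol_lat (hq : Gd q D) {τ₀ z₀ : ℂ} (hτ : τ₀ ∈ Om D) (hz : z₀ ∈ Lam τ₀) :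
    ∀ᶠ p : ℂ × ℂ in 𝓝 (τ₀, z₀), p.2 ∉ Sol q p.1 := by
  obtain ⟨m, n, h⟩ := mem_Lam.1 hz
  have hc : ContinuousAt (fun p : ℂ × ℂ => (p.1, p.2 - (m + n * p.1))) (τ₀, z₀) := by fun_prop
  have h1 : Tendsto (fun p : ℂ × ℂ => (p.1, p.2 - (m + n * p.1))) (𝓝 (τ₀, z₀)) (𝓝 (τ₀, 0)) := by
    have h2 := hc.tendsto
    have h0 : z₀ - (m + n * τ₀) = 0 := by rw [h, sub_self]
    simp only [h0] at h2
    exact h2
  have him : ∀ᶠ p : ℂ × ℂ in 𝓝 (τ₀, z₀), 0 < p.1.im :=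
    (continuous_fst.tendsto (τ₀, z₀)).eventually (eventually_im hτ.1)
  filter_upwards [h1.eventually (no_sol_zero hq hτ), him] with p hp hpim hsol
  apply hp
  rw [← Sol_add hpim m n, sub_add_cancel]
  exact hsol

lemma local_all (hq : Gd q D) {τ₀ : ℂ} (hτ : τ₀ ∈ Om D) (z₀ : ℂ) :
    ∃ Ψ : Set (ℂ → ℂ), Ψ.Finite ∧ (∀ ψ ∈ Ψ, AnalyticAt ℂ ψ τ₀ ∧ ∀ᶠ t in 𝓝 τ₀, ψ t ∈ Sol q t) ∧
      ∀ᶠ p : ℂ × ℂ in 𝓝 (τ₀, z₀), p.2 ∈ Sol q p.1 → ∃ ψ ∈ Ψ, ψ p.1 = p.2 := by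
  by_cases hl : z₀ ∈ Lam τ₀
  · refine ⟨∅, Set.finite_empty, by simp, ?_⟩
    filter_upwards [no_sol_lat hq hτ hl] with p hp h
    exact absurd h hp
  by_cases hz : z₀ ∈ Sol q τ₀
  · obtain ⟨ψ, h1, h2, h3⟩ := local_branch hq hτ hz
    refine ⟨{ψ}, Set.finite_singleton _, ?_, ?_⟩
    · intro ψ' hψ'
      rw [Set.mem_singleton_iff.1 hψ']
      refine ⟨h1, ?_⟩
      have hc : Tendsto (fun t => (t, ψ t)) (𝓝 τ₀) (𝓝 (τ₀, z₀)) := by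
        have := h1.continuousAt.tendsto
        rw [h2] at this
        exact tendsto_id.prodMk_nhds this
      filter_upwards [hc.eventually h3] with t ht
      exact ht.2 rfl
    · filter_upwards [h3] with p hp h
      exact ⟨ψ, rfl, hp.1 h⟩
  · refine ⟨∅, Set.finite_empty, by simp, ?_⟩
    have hne : FF q (τ₀, z₀) ≠ 0 := fun h => hz ⟨hl, h⟩
    have hc := (sd_FF (p := (τ₀, z₀)) ⟨hτ.1, hl⟩ hτ.2.2.1 q).continuousAt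
    filter_upwards [hc.eventually_ne hne] with p hp h
    exact absurd h.2 hp

/-- **finitely many sections** -/
theorem sections (hq : Gd q D) {τ₀ : ℂ} (hτ : τ₀ ∈ Om D) :
    ∃ Ψ : Set (ℂ → ℂ), Ψ.Finite ∧
      (∀ᶠ t in 𝓝 τ₀, ∀ ψ ∈ Ψ, AnalyticAt ℂ ψ t ∧ ψ t ∈ Sol q t) ∧
      ∀ᶠ t in 𝓝 τ₀, ∀ z ∈ Sol q t, ∃ ψ ∈ Ψ, ∃ m n : ℤ, z = ψ t + (m + n * t) := by
  have key : ∃ Ψ : Set (ℂ → ℂ), Ψ.Finite ∧
      (∀ ψ ∈ Ψ, AnalyticAt ℂ ψ τ₀ ∧ ∀ᶠ t in 𝓝 τ₀, ψ t ∈ Sol q t) ∧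
      ∀ᶠ t in 𝓝 τ₀, ∀ ab ∈ Set.Icc (0 : ℝ) 1 ×ˢ Set.Icc (0 : ℝ) 1,
        ((ab.1 : ℂ) + ab.2 * t) ∈ Sol q t → ∃ ψ ∈ Ψ, ψ t = (ab.1 : ℂ) + ab.2 * t := by
    refine (isCompact_Icc.prod isCompact_Icc).induction_on
      (p := fun s => ∃ Ψ : Set (ℂ → ℂ), Ψ.Finite ∧
      (∀ ψ ∈ Ψ, AnalyticAt ℂ ψ τ₀ ∧ ∀ᶠ t in 𝓝 τ₀, ψ t ∈ Sol q t) ∧
      ∀ᶠ t in 𝓝 τ₀, ∀ ab : ℝ × ℝ, ab ∈ s →
        ((ab.1 : ℂ) + ab.2 * t) ∈ Sol q t → ∃ ψ ∈ Ψ, ψ t = (ab.1 : ℂ) + ab.2 * t) ?_ ?_ ?_ ?_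
    · exact ⟨∅, Set.finite_empty, by simp, by simp⟩
    · rintro s t hst ⟨Ψ, h1, h2, h3⟩
      refine ⟨Ψ, h1, h2, ?_⟩
      filter_upwards [h3] with t ht ab hab
      exact ht ab (hst hab)
    · rintro s t ⟨Ψ, h1, h2, h3⟩ ⟨Ψ', h1', h2', h3'⟩
      refine ⟨Ψ ∪ Ψ', h1.union h1', ?_, ?_⟩
      · rintro ψ (h | h)
        · exact h2 ψ h
        · exact h2' ψ h
      · filter_upwards [h3, h3'] with t ht ht' ab hab hs
        rcases hab with hab | hab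
        · obtain ⟨ψ, g1, g2⟩ := ht ab hab hs
          exact ⟨ψ, Or.inl g1, g2⟩
        · obtain ⟨ψ, g1, g2⟩ := ht' ab hab hs
          exact ⟨ψ, Or.inr g1, g2⟩
    · intro x _
      obtain ⟨Ψ, h1, h2, h3⟩ := local_all hq hτ ((x.1 : ℂ) + x.2 * τ₀)
      have hc : ContinuousAt (fun y : ℂ × (ℝ × ℝ) => (y.1, (y.2.1 : ℂ) + y.2.2 * y.1)) (τ₀, x) := by
        fun_prop
      have h4 := hc.tendsto.eventually h3
      rw [nhds_prod_eq, eventually_prod_iff] at h4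
      obtain ⟨pa, hpa, pb, hpb, h5⟩ := h4
      refine ⟨{y | pb y}, mem_nhdsWithin_of_mem_nhds hpb, Ψ, h1, h2, ?_⟩
      filter_upwards [hpa] with t ht ab hab hs
      exact h5 ht hab hs
  obtain ⟨Ψ, h1, h2, h3⟩ := key
  refine ⟨Ψ, h1, ?_, ?_⟩
  · rw [Filter.eventually_all_finite h1]
    intro ψ hψ
    exact ((h2 ψ hψ).1.eventually_analyticAt).and (h2 ψ hψ).2
  · filter_upwards [h3, eventually_im hτ.1] with t ht him z hz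
    have e1 := coord him z
    set a := xa t z
    set b := ya t z
    have hz' : ((Int.fract a : ℝ) : ℂ) + (Int.fract b : ℝ) * t ∈ Sol q t := by
      rw [← Sol_add him ⌊a⌋ ⌊b⌋]
      have e2 : ((Int.fract a : ℝ) : ℂ) + (Int.fract b : ℝ) * t + (⌊a⌋ + ⌊b⌋ * t) = z := by
        rw [e1]
        have ea : (a : ℂ) = ((⌊a⌋ : ℝ) : ℂ) + ((Int.fract a : ℝ) : ℂ) := by
          rw [← ofReal_add, Int.floor_add_fract]
        have eb : (b : ℂ) = ((⌊b⌋ : ℝ) : ℂ) + ((Int.fract b : ℝ) : ℂ) := by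
          rw [← ofReal_add, Int.floor_add_fract]
        rw [ea, eb]
        push_cast
        ring
      rw [e2]
      exact hz
    obtain ⟨ψ, g1, g2⟩ := ht (Int.fract a, Int.fract b)
      ⟨⟨Int.fract_nonneg _, (Int.fract_lt_one _).le⟩, ⟨Int.fract_nonneg _, (Int.fract_lt_one _).le⟩⟩
      hz'
    refine ⟨ψ, g1, ⌊a⌋, ⌊b⌋, ?_⟩
    rw [g2, e1]
    have ea : (a : ℂ) = ((⌊a⌋ : ℝ) : ℂ) + ((Int.fract a : ℝ) : ℂ) := by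
      rw [← ofReal_add, Int.floor_add_fract]
    have eb : (b : ℂ) = ((⌊b⌋ : ℝ) : ℂ) + ((Int.fract b : ℝ) : ℂ) := by
      rw [← ofReal_add, Int.floor_add_fract]
    rw [ea, eb]
    push_cast
    ring

/-- two continuous families of solutions which agree at a point agree near it -/
lemma germ_unique (hq : Gd q D) {τ : ℂ} (hτ : τ ∈ Om D) {φ φ' : ℂ → ℂ} (h1 : ContinuousAt φ τ)
    (h2 : ContinuousAt φ' τ) (h3 : ∀ᶠ t in 𝓝 τ, φ t ∈ Sol q t) (h4 : ∀ᶠ t in 𝓝 τ, φ' t ∈ Sol q t)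
    (h : φ τ = φ' τ) : φ =ᶠ[𝓝 τ] φ' := by
  obtain ⟨ψ, g1, g2, g3⟩ := local_branch hq hτ h3.self_of_nhds
  have c1 : Tendsto (fun t => (t, φ t)) (𝓝 τ) (𝓝 (τ, φ τ)) := tendsto_id.prodMk_nhds h1
  have c2 : Tendsto (fun t => (t, φ' t)) (𝓝 τ) (𝓝 (τ, φ τ)) := by
    rw [h]
    exact tendsto_id.prodMk_nhds h2
  filter_upwards [c1.eventually g3, c2.eventually g3, h3, h4] with t t1 t2 t3 t4
  rw [← t1.1 t3, ← t2.1 t4]

end Pool.Agent.Work.MP_8da9ea_nt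

end

section

/-!
# Existence of elliptic logarithms of analytic functions
-/

set_option autoImplicit false

namespace Pool.Agent.Work.MP_8da9ea_nt

open Complex Filter Topology Metric

/-- implicit functions from the `SD` calculus -/
theorem ift_sd {F B : ℂ × ℂ → ℂ} {p₀ : ℂ × ℂ} (hF : ∀ᶠ p in 𝓝 p₀, SD F (B p) p)
    (hB : ∀ᶠ p in 𝓝 p₀, B p ≠ 0) (h0 : F p₀ = 0) :
    ∃ ψ : ℂ → ℂ, AnalyticAt ℂ ψ p₀.1 ∧ ψ p₀.1 = p₀.2 ∧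
      ∀ᶠ p in 𝓝 p₀, (F p = 0 ↔ ψ p.1 = p.2) := by
  classical
  set A : ℂ × ℂ → ℂ := fun p => if h : ∃ A, HasStrictFDerivAt F (lf A (B p)) p then h.choose
    else 0 with hA
  have hF' : ∀ᶠ p in 𝓝 p₀, HasStrictFDerivAt F (lf (A p) (B p)) p := by
    filter_upwards [hF] with p h
    have h' : ∃ A, HasStrictFDerivAt F (lf A (B p)) p := h
    simp only [hA]
    rw [dif_pos h']
    exact h'.choose_spec
  exact ift hF' hB h0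

/-- **elliptic logarithms**: an analytic function `x` is `℘(z(τ); τ)` with `z` analytic -/
theorem exists_log {τ₁ z₁ : ℂ} (hτ : 0 < τ₁.im) (hz : z₁ ∉ Lam τ₁) (hd : wpd τ₁ z₁ ≠ 0)
    {x : ℂ → ℂ} (hx : AnalyticAt ℂ x τ₁) (h0 : wp 1 τ₁ z₁ = x τ₁) :
    ∃ z : ℂ → ℂ, AnalyticAt ℂ z τ₁ ∧ z τ₁ = z₁ ∧ ∀ᶠ τ in 𝓝 τ₁, 0 < τ.im ∧ z τ ∉ Lam τ ∧
      wpd τ (z τ) ≠ 0 ∧ wp 1 τ (z τ) = x τ := by
  have hdom : (τ₁, z₁) ∈ Dom := ⟨hτ, hz⟩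
  have hev : ∀ᶠ p : ℂ × ℂ in 𝓝 (τ₁, z₁), p ∈ Dom := Dom_open.mem_nhds hdom
  have hxe : ∀ᶠ p : ℂ × ℂ in 𝓝 (τ₁, z₁), AnalyticAt ℂ x p.1 :=
    (continuous_fst.tendsto (τ₁, z₁)).eventually hx.eventually_analyticAt
  have hF : ∀ᶠ p : ℂ × ℂ in 𝓝 (τ₁, z₁),
      SD (fun p => wp 1 p.1 p.2 + -x p.1) (wpd p.1 p.2) p := by
    filter_upwards [hev, hxe] with p h1 h2
    have h3 : SD (fun p => -x p.1) 0 p := SD.fst (g := fun t => -x t) h2.neg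
    exact ((sd_wp h1).add h3).of_eq (by ring)
  have hB : ∀ᶠ p : ℂ × ℂ in 𝓝 (τ₁, z₁), wpd p.1 p.2 ≠ 0 :=
    (hasFDerivAt_wpd hτ hz).continuousAt.eventually_ne hd
  obtain ⟨ψ, h1, h2, h3⟩ := ift_sd (B := fun p => wpd p.1 p.2) hF hB
    (by simp only [h0]; ring)
  refine ⟨ψ, h1, h2, ?_⟩
  have hc : Tendsto (fun t => (t, ψ t)) (𝓝 τ₁) (𝓝 (τ₁, z₁)) := by
    have h4 := h1.continuousAt.tendsto
    simp only at h2
    rw [h2] at h4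
    exact tendsto_id.prodMk_nhds h4
  filter_upwards [hc.eventually h3, hc.eventually hev, hc.eventually hB] with t t1 t2 t3
  refine ⟨t2.1, t2.2, t3, ?_⟩
  have := t1.2 rfl
  linear_combination this

end Pool.Agent.Work.MP_8da9ea_nt

end
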