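import Pool.Agent.Work.MP_8da9ea_nt.GermFam
import Pool.Agent.Work.MP_8da9ea_nt.Bd.B08
import Pool.Agent.Work.MP_8da9ea_nt.Bd.B02
import Pool.Agent.Work.MP_8da9ea_nt.Bd.B06
import Pool.Agent.Work.MP_8da9ea_nt.Bd.B09
import Pool.Agent.Work.MP_8da9ea_nt.Spec
import Pool.Agent.Work.MP_8da9ea_nt.Bd.B07
import Pool.Agent.Work.MP_8da9ea_nt.Stmt2

/-! Bundle of small proof modules (one section per former module). -/

section

/-!
# Windows
-/

set_option autoImplicit false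

namespace Pool.Agent.Work.MP_8da9ea_nt

open Complex Filter Topology Metric

variable {ι : Type*} [Fintype ι] {q : ι → Polynomial (Polynomial ℂ)}
  {Q : Polynomial (Polynomial ℂ)} {c : ι → ℂ} {D : Polynomial ℂ}

/-- the constants of the solutions normalised to the window `I` -/
def WW (q : ι → Polynomial (Polynomial ℂ)) (Q : Polynomial (Polynomial ℂ)) (c : ι → ℂ)
    (I : Set (ℝ × ℝ)) (t : ℂ) : Set (ℂ × ℂ) :=
  {w | ∃ Z : ι → ℂ → ℂ, LS q Q c t Z w ∧ ∀ i, (xa t (Z i t), ya t (Z i t)) ∈ I}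

lemma continuousAt_coord {t : ℂ} (ht : 0 < t.im) {Z : ℂ → ℂ} (hZ : ContinuousAt Z t) :
    ContinuousAt (fun t => (xa t (Z t), ya t (Z t))) t := by
  have h1 : ContinuousAt (fun t => ya t (Z t)) t := by
    unfold ya
    exact (continuous_im.continuousAt.comp hZ).div continuous_im.continuousAt ht.ne'
  have h2 : ContinuousAt (fun t => xa t (Z t)) t := by
    have e : (fun t => xa t (Z t)) = fun t => (Z t).re - ya t (Z t) * t.re := by
      funext t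
      rfl
    rw [e]
    exact (continuous_re.continuousAt.comp hZ).sub (h1.mul continuous_re.continuousAt)
  exact h2.prodMk h1

theorem win_const (hq : Gds q Q D) {B : Set ℂ} (hBo : IsOpen B) (hBc : IsPreconnected B)
    (hB : B ⊆ Om D) {I J : Set (ℝ × ℝ)} (hI : IsOpen I) (hJ : IsOpen J) (hIJ : Disjoint I J)
    (hav : ∀ t ∈ B, ∀ i, ∀ z ∈ Sol (q i) t, (xa t z, ya t z) ∈ I ∪ J) {t t' : ℂ} (ht : t ∈ B)
    (ht' : t' ∈ B) : WW q Q c I t = WW q Q c I t' := by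
  refine hBc.induction₂ (fun t t' => WW q Q c I t = WW q Q c I t') ?_
    (fun _ _ _ _ _ _ h h' => h.trans h') (fun _ _ _ _ h => h.symm) ht ht'
  intro t₀ ht₀
  obtain ⟨r, hr, hsub, hext⟩ := LS.ext (c := c) hq (hB ht₀)
  obtain ⟨r', hr', hsub'⟩ := Metric.isOpen_iff.1 hBo t₀ ht₀
  set s := min r r' with hs
  have hs0 : 0 < s := lt_min hr hr'
  have key : ∀ t₁ ∈ ball t₀ s, ∀ t₂ ∈ ball t₀ s, WW q Q c I t₁ ⊆ WW q Q c I t₂ := by
    rintro t₁ ht₁ t₂ ht₂ w ⟨Z, hLS, hZI⟩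
    obtain ⟨Z', h1, h2, h3⟩ := hext t₁ (ball_subset_ball (min_le_left _ _) ht₁) Z w hLS
    refine ⟨Z', h3 t₂ (ball_subset_ball (min_le_left _ _) ht₂), fun i => ?_⟩
    set P : ℂ → ℝ × ℝ := fun t => (xa t (Z' i t), ya t (Z' i t)) with hP
    have hbr : ∀ t ∈ ball t₀ s, t ∈ ball t₀ r := fun t ht => ball_subset_ball (min_le_left _ _) ht
    have hc : ContinuousOn P (ball t₀ s) := by
      intro t ht
      exact (continuousAt_coord (hsub (hbr t ht)).1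
        (h1 i t (hbr t ht)).continuousAt).continuousWithinAt
    have hpre : IsPreconnected (P '' ball t₀ s) := (convex_ball t₀ s).isPreconnected.image _ hc
    have hun : P '' ball t₀ s ⊆ I ∪ J := by
      rintro _ ⟨t, ht, rfl⟩
      exact hav t (hsub' (ball_subset_ball (min_le_right _ _) ht)) i _
        ((h3 t (hbr t ht)).sol i).self_of_nhds
    have hne : (P '' ball t₀ s ∩ I).Nonempty := by
      refine ⟨P t₁, ⟨t₁, ht₁, rfl⟩, ?_⟩
      have : Z' i t₁ = Z i t₁ := (h2 i).self_of_nhds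
      simp only [hP]
      rw [this]
      exact hZI i
    exact hpre.subset_left_of_subset_union hI hJ hIJ hun hne ⟨t₂, ht₂, rfl⟩
  have hev : ∀ᶠ t in 𝓝[B] t₀, t ∈ ball t₀ s := mem_nhdsWithin_of_mem_nhds (ball_mem_nhds t₀ hs0)
  filter_upwards [hev] with t ht
  exact Set.Subset.antisymm (key t₀ (mem_ball_self hs0) t ht) (key t ht t₀ (mem_ball_self hs0))

end Pool.Agent.Work.MP_8da9ea_nt

end

section

/-!
# Solutions avoid lines near every point of the upper half plane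
-/

set_option autoImplicit false

namespace Pool.Agent.Work.MP_8da9ea_nt

open Complex Filter Topology Metric

/-- dividing a finite family by a common power -/
lemma divide_family {M : ℕ} {a : ℕ → ℂ → ℂ} {τ₀ : ℂ} (ha : ∀ k, AnalyticAt ℂ (a k) τ₀)
    (hM : ∀ᶠ t in 𝓝[≠] τ₀, a M t ≠ 0) :
    ∃ (μ : ℕ) (b : ℕ → ℂ → ℂ), (∀ k ≤ M, AnalyticAt ℂ (b k) τ₀) ∧
      (∀ k ≤ M, ∀ᶠ t in 𝓝 τ₀, a k t = (t - τ₀) ^ μ * b k t) ∧ ∃ k ≤ M, b k τ₀ ≠ 0 := by
  obtain ⟨k₀, hk₀, hmin⟩ := Finset.exists_min_image (Finset.range (M + 1))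
    (fun k => analyticOrderAt (a k) τ₀) ⟨M, by simp⟩
  have hMtop : analyticOrderAt (a M) τ₀ ≠ ⊤ := by
    intro h
    rw [analyticOrderAt_eq_top] at h
    have h1 : ∀ᶠ t in 𝓝[≠] τ₀, a M t = 0 := nhdsWithin_le_nhds h
    obtain ⟨t, ht⟩ := (h1.and hM).exists
    exact ht.2 ht.1
  have hk₀top : analyticOrderAt (a k₀) τ₀ ≠ ⊤ := by
    intro h
    have := hmin M (by simp)
    rw [h, top_le_iff] at this
    exact hMtop this
  obtain ⟨μ, hμ⟩ := ENat.ne_top_iff_exists.1 hk₀top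
  have hb : ∀ k, ∃ b : ℂ → ℂ, k ≤ M → AnalyticAt ℂ b τ₀ ∧
      (∀ᶠ t in 𝓝 τ₀, a k t = (t - τ₀) ^ μ * b t) ∧ (k = k₀ → b τ₀ ≠ 0) := by
    intro k
    by_cases hk : k ≤ M
    · by_cases hkk : k = k₀
      · rw [hkk]
        obtain ⟨g, g1, g2, g3⟩ := (ha k₀).analyticOrderAt_eq_natCast.1 hμ.symm
        exact ⟨g, fun _ => ⟨g1, by simpa using g3, fun _ => g2⟩⟩
      · have h1 := hmin k (by simp; omega)
        rw [← hμ] at h1
        obtain ⟨g, g1, g2⟩ := (natCast_le_analyticOrderAt (ha k)).1 h1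
        exact ⟨g, fun _ => ⟨g1, by simpa using g2, fun h => absurd h hkk⟩⟩
    · exact ⟨0, fun h => absurd h hk⟩
  choose b hb using hb
  have hk₀M : k₀ ≤ M := by
    have := Finset.mem_range.1 hk₀
    omega
  exact ⟨μ, b, fun k hk => (hb k hk).1, fun k hk => (hb k hk).2.1, k₀, hk₀M, (hb k₀ hk₀M).2.2 rfl⟩

/-- zeros of a polynomial in the Weierstrass function are countable -/
lemma countable_zeros {τ : ℂ} (hτ : 0 < τ.im) {M : ℕ} {b : ℕ → ℂ} (hb : ∃ k ≤ M, b k ≠ 0) :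
    {z : ℂ | z ∉ Lam τ ∧ ∑ k ∈ Finset.range (M + 1), b k * wp 1 τ z ^ k = 0}.Countable := by
  refine zeros_countable (U := (Lam τ)ᶜ) Lam_compl_conn
    (f := fun z => ∑ k ∈ Finset.range (M + 1), b k * wp 1 τ z ^ k) ?_ ?_
  · intro z hz
    refine Finset.analyticAt_fun_sum _ fun k _ => ?_
    exact analyticAt_const.mul ((analyticOn_wp hτ z hz).pow k)
  · by_contra hcon
    push Not at hcon
    set p : Polynomial ℂ := ∑ k ∈ Finset.range (M + 1), Polynomial.C (b k) * Polynomial.X ^ k with hp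
    have hp0 : p ≠ 0 := by
      obtain ⟨k, hk, hbk⟩ := hb
      intro h0
      apply hbk
      have h1 : p.coeff k = 0 := by rw [h0, Polynomial.coeff_zero]
      rw [hp, Polynomial.finsetSum_coeff, Finset.sum_eq_single k] at h1
      · simpa using h1
      · intro j _ hj
        rw [Polynomial.coeff_C_mul_X_pow, if_neg hj.symm]
      · intro h
        exact absurd (Finset.mem_range.2 (by omega)) h
    have hev : ∀ x, p.eval x = ∑ k ∈ Finset.range (M + 1), b k * x ^ k := by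
      intro x
      rw [hp, Polynomial.eval_finsetSum]
      simp
    obtain ⟨B, hB⟩ := (p.roots.toFinset.image fun x => ‖x‖).bddAbove
    obtain ⟨w, hw, hwB⟩ := wp_unbounded hτ B
    have h1 : p.eval (wp 1 τ w) = 0 := by
      rw [hev]
      exact hcon w hw
    have h2 : wp 1 τ w ∈ p.roots.toFinset := by
      rw [Multiset.mem_toFinset]
      exact (Polynomial.mem_roots hp0).2 h1
    have h3 := hB (Finset.mem_coe.2 (Finset.mem_image_of_mem (fun x => ‖x‖) h2))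
    linarith

variable {q : Polynomial (Polynomial ℂ)}

/-- solutions avoid all lines outside a countable set of parameters -/
theorem avoid_lines (hq : q ≠ 0) {τ₀ : ℂ} (hτ₀ : 0 < τ₀.im) :
    ∃ Z : Set ℂ, Z.Countable ∧
      (∀ α : ℝ, (∀ z ∈ Z, xa τ₀ z ≠ α) → ∀ᶠ t in 𝓝[≠] τ₀, ∀ z ∈ Sol q t, ∀ m : ℤ,
        xa t z ≠ α + m) ∧
      (∀ β : ℝ, (∀ z ∈ Z, ya τ₀ z ≠ β) → ∀ᶠ t in 𝓝[≠] τ₀, ∀ z ∈ Sol q t, ∀ m : ℤ,
        ya t z ≠ β + m) := by
  classical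
  set M := q.natDegree with hM
  set N := (Finset.range (M + 1)).sup (fun k => (q.coeff k).natDegree) with hN
  have hkN : ∀ k ≤ M, (q.coeff k).natDegree ≤ N := fun k hk =>
    Finset.le_sup (f := fun k => (q.coeff k).natDegree) (Finset.mem_range.2 (by omega))
  set a : ℕ → ℂ → ℂ := fun k t => clr (q.coeff k) N t * gg2 t ^ k * gg3 t ^ (M - k) with ha
  have han : ∀ k, AnalyticAt ℂ (a k) τ₀ := fun k =>
    ((analytic_clr _ _ hτ₀).mul ((analytic_gg2 hτ₀).pow _)).mul ((analytic_gg3 hτ₀).pow _)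
  have hlead : q.coeff M ≠ 0 := Polynomial.leadingCoeff_ne_zero.2 hq
  have hMne : ∀ᶠ t in 𝓝[≠] τ₀, a M t ≠ 0 := by
    have h1 := ev_ne (fun _ h => analytic_clr (q.coeff M) N h) (clr_ne hlead (hkN M le_rfl)) hτ₀
    filter_upwards [h1, ev_gg2 hτ₀] with t t1 t2
    simp only [ha, Nat.sub_self, pow_zero, mul_one]
    exact mul_ne_zero t1 (pow_ne_zero _ t2)
  obtain ⟨μ, b, hb1, hb2, hb3⟩ := divide_family han hMne
  set G : ℂ × ℂ → ℂ := fun p => ∑ k ∈ Finset.range (M + 1), b k p.1 * wp 1 p.1 p.2 ^ k with hG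
  -- solutions are zeros of G
  have hsolG : ∀ᶠ t in 𝓝[≠] τ₀, ∀ z ∈ Sol q t, G (t, z) = 0 := by
    have h1 : ∀ᶠ t in 𝓝 τ₀, ∀ k ∈ Finset.range (M + 1), a k t = (t - τ₀) ^ μ * b k t := by
      rw [Filter.eventually_all_finset]
      intro k hk
      exact hb2 k (by have := Finset.mem_range.1 hk; omega)
    have h2 : ∀ᶠ t in 𝓝[≠] τ₀, t ≠ τ₀ := self_mem_nhdsWithin
    filter_upwards [nhdsWithin_le_nhds h1, h2, ev_gg3 hτ₀] with t t1 t2 t3 z hz
    have h3 : ∑ k ∈ Finset.range (M + 1), a k t * wp 1 t z ^ k =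
        gg3 t ^ (2 * N + M) * E2 (jt t) (xt t z) q := by
      rw [E2_eq_sum, Finset.mul_sum]
      refine Finset.sum_congr rfl fun k hk => ?_
      have hk' : k ≤ M := by have := Finset.mem_range.1 hk; omega
      simp only [ha]
      rw [clr_eq _ (hkN k hk') t3]
      have e : gg3 t ^ (2 * N + M) = gg3 t ^ (2 * N) * (gg3 t ^ (M - k) * gg3 t ^ k) := by
        rw [← pow_add, ← pow_add]
        congr 1
        omega
      rw [e]
      unfold xt
      rw [div_pow, mul_pow]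
      field_simp
    rw [hz.2, mul_zero] at h3
    have h4 : (t - τ₀) ^ μ * G (t, z) = 0 := by
      rw [← h3]
      simp only [hG]
      rw [Finset.mul_sum]
      refine Finset.sum_congr rfl fun k hk => ?_
      rw [t1 k hk]
      ring
    exact (mul_eq_zero.1 h4).resolve_left (pow_ne_zero _ (sub_ne_zero.2 t2))
  set Z : Set ℂ := Lam τ₀ ∪ {z : ℂ | z ∉ Lam τ₀ ∧
    ∑ k ∈ Finset.range (M + 1), b k τ₀ * wp 1 τ₀ z ^ k = 0} with hZ
  have hZc : Z.Countable := (Lam_countable τ₀).union (countable_zeros hτ₀ hb3)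
  -- near points outside Z the function G does not vanish
  have hGne : ∀ z₀, z₀ ∉ Z → ∀ᶠ p : ℂ × ℂ in 𝓝 (τ₀, z₀), G p ≠ 0 := by
    intro z₀ hz₀
    have hl : z₀ ∉ Lam τ₀ := fun h => hz₀ (Or.inl h)
    have hv : G (τ₀, z₀) ≠ 0 := fun h => hz₀ (Or.inr ⟨hl, h⟩)
    have hc : ContinuousAt G (τ₀, z₀) := by
      refine tendsto_finsetSum _ fun k hk => ?_
      have hk' : k ≤ M := by have := Finset.mem_range.1 hk; omega
      have c1 : ContinuousAt (fun p : ℂ × ℂ => b k p.1) (τ₀, z₀) :=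
        (SD.fst (p := (τ₀, z₀)) (hb1 k hk')).continuousAt
      have c2 : ContinuousAt (fun p : ℂ × ℂ => wp 1 p.1 p.2) (τ₀, z₀) :=
        (hasFDerivAt_wp hτ₀ hl).continuousAt
      exact c1.mul (c2.pow k)
    exact hc.eventually_ne hv
  have hfr : ∀ a : ℝ, (a : ℂ) = (((⌊a⌋ : ℤ) : ℝ) : ℂ) + ((Int.fract a : ℝ) : ℂ) := fun a => by
    rw [← ofReal_add, Int.floor_add_fract]
  refine ⟨Z, hZc, ?_, ?_⟩
  · intro α hα
    have h1 : ∀ᶠ t in 𝓝 τ₀, ∀ y ∈ Set.Icc (0 : ℝ) 1, G (t, (α : ℂ) + y * t) ≠ 0 := by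
      refine isCompact_Icc.eventually_forall_of_forall_eventually fun y _ => ?_
      have hc : ContinuousAt (fun p : ℂ × ℝ => (p.1, (α : ℂ) + p.2 * p.1)) (τ₀, y) := by fun_prop
      refine hc.tendsto.eventually (hGne _ ?_)
      intro hmem
      refine hα _ hmem ?_
      simp [xa, hτ₀.ne']
    filter_upwards [nhdsWithin_le_nhds h1, hsolG,
      nhdsWithin_le_nhds (eventually_im hτ₀)] with t t1 t2 t3 z hz m hm
    have hz' : (α : ℂ) + (Int.fract (ya t z) : ℝ) * t ∈ Sol q t := by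
      rw [← Sol_add t3 m ⌊ya t z⌋]
      have e : (α : ℂ) + (Int.fract (ya t z) : ℝ) * t + (m + ⌊ya t z⌋ * t) = z := by
        conv_rhs => rw [coord t3 z, hm, hfr (ya t z)]
        push_cast
        ring
      rw [e]
      exact hz
    exact t1 _ ⟨Int.fract_nonneg _, (Int.fract_lt_one _).le⟩ (t2 _ hz')
  · intro β hβ
    have h1 : ∀ᶠ t in 𝓝 τ₀, ∀ x ∈ Set.Icc (0 : ℝ) 1, G (t, (x : ℂ) + β * t) ≠ 0 := by
      refine isCompact_Icc.eventually_forall_of_forall_eventually fun x _ => ?_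
      have hc : ContinuousAt (fun p : ℂ × ℝ => (p.1, (p.2 : ℂ) + β * p.1)) (τ₀, x) := by fun_prop
      refine hc.tendsto.eventually (hGne _ ?_)
      intro hmem
      refine hβ _ hmem ?_
      simp [ya, hτ₀.ne']
    filter_upwards [nhdsWithin_le_nhds h1, hsolG,
      nhdsWithin_le_nhds (eventually_im hτ₀)] with t t1 t2 t3 z hz m hm
    have hz' : ((Int.fract (xa t z) : ℝ) : ℂ) + β * t ∈ Sol q t := by
      rw [← Sol_add t3 ⌊xa t z⌋ m]
      have e : ((Int.fract (xa t z) : ℝ) : ℂ) + β * t + (⌊xa t z⌋ + m * t) = z := by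
        conv_rhs => rw [coord t3 z, hm, hfr (xa t z)]
        push_cast
        ring
      rw [e]
      exact hz
    exact t1 _ ⟨Int.fract_nonneg _, (Int.fract_lt_one _).le⟩ (t2 _ hz')

end Pool.Agent.Work.MP_8da9ea_nt

end

section

/-!
# Bounds at the punctures and at the cusp
-/

set_option autoImplicit false

namespace Pool.Agent.Work.MP_8da9ea_nt

open Complex Filter Topology Metric

theorem cusp_avoid {q : Polynomial (Polynomial ℂ)} (hq : q ≠ 0) {β : ℝ} (h0 : 0 < β)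
    (h1 : β < 1 / 2) (hirr : Irrational β) : ∃ T : ℝ, 0 < T ∧ ∀ τ : ℂ, T ≤ τ.im → ∀ α : ℝ,
      gg2 τ ≠ 0 ∧ gg3 τ ≠ 0 ∧ E2 (jt τ) (xt τ (α + β * τ)) q ≠ 0 :=
  cusp_avoid_of cusp_jt (cusp_wp h0 h1) hq h0 h1 hirr

lemma punct_ball_preconnected (τ : ℂ) {r : ℝ} (hr : 0 < r) :
    IsPreconnected (ball τ r \ {τ}) := by
  have h : ball τ r \ {τ} = (fun z => τ + exp z) '' {z : ℂ | z.re < Real.log r} := by
    ext w
    constructor
    · rintro ⟨h1, h2⟩
      have hne : w - τ ≠ 0 := sub_ne_zero.2 h2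
      refine ⟨Complex.log (w - τ), ?_, ?_⟩
      · rw [mem_ball, dist_eq_norm] at h1
        change (Complex.log (w - τ)).re < Real.log r
        rw [Complex.log_re]
        exact Real.log_lt_log (norm_pos_iff.2 hne) h1
      · simp only
        rw [Complex.exp_log hne]
        ring
    · rintro ⟨z, hz, rfl⟩
      refine ⟨?_, ?_⟩
      · rw [mem_ball, dist_eq_norm, add_sub_cancel_left, norm_exp]
        have : z.re < Real.log r := hz
        calc Real.exp z.re < Real.exp (Real.log r) := Real.exp_lt_exp.2 this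
          _ = r := Real.exp_log hr
      · simp [exp_ne_zero]
  rw [h]
  have hconv : Convex ℝ {z : ℂ | z.re < Real.log r} := convex_halfSpace_re_lt _
  refine hconv.isPreconnected.image _ ?_
  fun_prop

variable {ι : Type*} [Fintype ι] {q : ι → Polynomial (Polynomial ℂ)}
  {Q : Polynomial (Polynomial ℂ)} {c : ι → ℂ} {D : Polynomial ℂ}

lemma exists_avoid (hq : Gds q Q D) {τ₀ : ℂ} (hτ₀ : 0 < τ₀.im) :
    ∃ α β : ℝ, ∀ᶠ t in 𝓝[≠] τ₀, ∀ i, ∀ z ∈ Sol (q i) t, ∀ m : ℤ,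
      xa t z ≠ α + m ∧ ya t z ≠ β + m := by
  choose Z hZ h1 h2 using fun i => avoid_lines (hq.gd i).q0 hτ₀
  have hc : (⋃ i, Z i).Countable := Set.countable_iUnion hZ
  obtain ⟨α, hα⟩ : ∃ α : ℝ, α ∉ xa τ₀ '' (⋃ i, Z i) := by
    have := ((hc.image (xa τ₀)).dense_compl ℝ).nonempty
    exact this
  obtain ⟨β, hβ⟩ : ∃ β : ℝ, β ∉ ya τ₀ '' (⋃ i, Z i) := by
    have := ((hc.image (ya τ₀)).dense_compl ℝ).nonempty
    exact this
  refine ⟨α, β, ?_⟩
  rw [eventually_all]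
  intro i
  have e1 := h1 i α (fun z hz h => hα ⟨z, Set.mem_iUnion.2 ⟨i, hz⟩, h⟩)
  have e2 := h2 i β (fun z hz h => hβ ⟨z, Set.mem_iUnion.2 ⟨i, hz⟩, h⟩)
  filter_upwards [e1, e2] with t t1 t2 z hz m
  exact ⟨t1 z hz m, t2 z hz m⟩

/-- normalisation to a window -/
lemma normalise (ρ : ℂ →ₗ[ℚ] ℚ) {t : ℂ} (ht : 0 < t.im) {Z : ι → ℂ → ℂ} {w : ℂ × ℂ}
    (h : LS q Q c t Z w) (α β : ℝ) : ∃ (Z' : ι → ℂ → ℂ) (w' : ℂ × ℂ), LS q Q c t Z' w' ∧
      vf ρ c Z' w' = vf ρ c Z w ∧ ∀ i, (α ≤ xa t (Z' i t) ∧ xa t (Z' i t) < α + 1) ∧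
        (β ≤ ya t (Z' i t) ∧ ya t (Z' i t) < β + 1) := by
  refine ⟨_, _, h.shift ht (fun i => -⌊xa t (Z i t) - α⌋) (fun i => -⌊ya t (Z i t) - β⌋),
    vf_shift ρ Z w _ _, fun i => ?_⟩
  rw [xa_add ht, ya_add ht]
  have h1 := Int.floor_le (xa t (Z i t) - α)
  have h2 := Int.lt_floor_add_one (xa t (Z i t) - α)
  have h3 := Int.floor_le (ya t (Z i t) - β)
  have h4 := Int.lt_floor_add_one (ya t (Z i t) - β)
  push_cast
  refine ⟨⟨by linarith, by linarith⟩, ⟨by linarith, by linarith⟩⟩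

/-- normalisation in the first coordinate only -/
lemma normalise_re {t : ℂ} (ht : 0 < t.im) {Z : ι → ℂ → ℂ} {w : ℂ × ℂ}
    (h : LS q Q c t Z w) : ∃ (Z' : ι → ℂ → ℂ) (w' : ℂ × ℂ), LS q Q c t Z' w' ∧
      w'.2 = w.2 ∧ ∀ i, (0 ≤ xa t (Z' i t) ∧ xa t (Z' i t) < 1) ∧
        ya t (Z' i t) = ya t (Z i t) := by
  refine ⟨_, _, h.shift ht (fun i => -⌊xa t (Z i t)⌋) (fun i => 0), ?_, fun i => ?_⟩
  · simp
  rw [xa_add ht, ya_add ht]
  have h1 := Int.floor_le (xa t (Z i t))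
  have h2 := Int.lt_floor_add_one (xa t (Z i t))
  push_cast
  refine ⟨⟨by linarith, by linarith⟩, by ring⟩

theorem AA_bdd (hq : Gds q Q D) (ρ : ℂ →ₗ[ℚ] ℚ) {τ₀ : ℂ} (hτ₀ : 0 < τ₀.im) :
    ∃ K : ℝ, ∀ᶠ t in 𝓝[≠] τ₀, ∀ g ∈ AA q Q c ρ t, ‖Germ.value g‖ ≤ K := by
  obtain ⟨α, β, hav⟩ := exists_avoid hq hτ₀
  have hOm : ∀ᶠ t in 𝓝[≠] τ₀, t ∈ Om D := by
    filter_upwards [ev_jt hq.D0 hτ₀, nhdsWithin_le_nhds (eventually_im hτ₀)] with t t1 t2
    exact ⟨t2, t1.1, t1.2.1, t1.2.2⟩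
  have h1 := hav.and hOm
  rw [eventually_nhdsWithin_iff, Metric.eventually_nhds_iff_ball] at h1
  obtain ⟨r, hr, h1⟩ := h1
  set B := ball τ₀ r \ {τ₀} with hB
  have hBo : IsOpen B := isOpen_ball.sdiff isClosed_singleton
  have hBc : IsPreconnected B := punct_ball_preconnected τ₀ hr
  have hBav : ∀ t ∈ B, ∀ i, ∀ z ∈ Sol (q i) t, ∀ m : ℤ, xa t z ≠ α + m ∧ ya t z ≠ β + m :=
    fun t ht => (h1 t ht.1 ht.2).1
  have hBO : B ⊆ Om D := fun t ht => (h1 t ht.1 ht.2).2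
  set I : Set (ℝ × ℝ) := Set.Ioo α (α + 1) ×ˢ Set.Ioo β (β + 1) with hI
  set J : Set (ℝ × ℝ) := (Set.Icc α (α + 1) ×ˢ Set.Icc β (β + 1))ᶜ with hJ
  have hIo : IsOpen I := isOpen_Ioo.prod isOpen_Ioo
  have hJo : IsOpen J := (isClosed_Icc.prod isClosed_Icc).isOpen_compl
  have hIJ : Disjoint I J := by
    rw [Set.disjoint_left]
    intro p hp hp'
    exact hp' ⟨⟨hp.1.1.le, hp.1.2.le⟩, ⟨hp.2.1.le, hp.2.2.le⟩⟩
  have hIav : ∀ t ∈ B, ∀ i, ∀ z ∈ Sol (q i) t, (xa t z, ya t z) ∈ I ∪ J := by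
    intro t ht i z hz
    by_cases hmem : (xa t z, ya t z) ∈ Set.Icc α (α + 1) ×ˢ Set.Icc β (β + 1)
    · left
      obtain ⟨⟨a1, a2⟩, ⟨a3, a4⟩⟩ := hmem
      simp only at a1 a2 a3 a4
      have b0 := hBav t ht i z hz 0
      have b1 := hBav t ht i z hz 1
      simp only [Int.cast_zero, add_zero, Int.cast_one] at b0 b1
      exact ⟨⟨lt_of_le_of_ne a1 b0.1.symm, lt_of_le_of_ne a2 b1.1⟩,
        ⟨lt_of_le_of_ne a3 b0.2.symm, lt_of_le_of_ne a4 b1.2⟩⟩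
    · right
      exact hmem
  -- a base point
  have ht₁ : τ₀ + (r / 2 : ℝ) ∈ B := by
    refine ⟨?_, ?_⟩
    · rw [mem_ball, dist_eq_norm, add_sub_cancel_left, norm_real, Real.norm_of_nonneg
        (by positivity)]
      linarith
    · simp [hr.ne']
  set t₁ : ℂ := τ₀ + (r / 2 : ℝ) with ht₁def
  have hfin : (WW q Q c I t₁).Finite := by
    obtain ⟨F, hF, h2⟩ := LS.fin (c := c) hq (hBO ht₁) (|α| + |β| + 1)
    refine (hF.image Prod.snd).subset ?_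
    rintro w ⟨Z, hLS, hZ⟩
    obtain ⟨Z', h3, -⟩ := h2 Z w hLS (by
      intro i
      obtain ⟨⟨a1, a2⟩, ⟨a3, a4⟩⟩ := hZ i
      simp only at a1 a2 a3 a4
      have e1 := neg_abs_le α
      have e2 := le_abs_self α
      have e3 := neg_abs_le β
      have e4 := le_abs_self β
      have e5 := abs_nonneg α
      have e6 := abs_nonneg β
      exact ⟨abs_le.2 ⟨by linarith, by linarith⟩, abs_le.2 ⟨by linarith, by linarith⟩⟩)
    exact ⟨(Z', w), h3, rfl⟩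
  set R : ℝ := ‖τ₀‖ + r with hR
  obtain ⟨K₁, hK₁⟩ := (hfin.image fun w : ℂ × ℂ => |(ρ w.1 : ℝ)| + |(ρ w.2 : ℝ)| * R).bddAbove
  refine ⟨∑ i, |(ρ (c i) : ℝ)| * ((|α| + 1) + (|β| + 1) * R) + K₁, ?_⟩
  rw [eventually_nhdsWithin_iff, Metric.eventually_nhds_iff_ball]
  refine ⟨r, hr, fun t htb htne => ?_⟩
  have ht : t ∈ B := ⟨htb, htne⟩
  rintro g ⟨Z, w, hLS, rfl⟩
  rw [Germ.value_ofFun]
  obtain ⟨Z', w', g1, g2, g3⟩ := normalise ρ (hBO ht).1 hLS α β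
  rw [← g2]
  have htR : ‖t‖ ≤ R := by
    have h5 : ‖t - τ₀‖ < r := by rw [← dist_eq_norm]; exact htb
    calc ‖t‖ = ‖τ₀ + (t - τ₀)‖ := by congr 1; ring
      _ ≤ ‖τ₀‖ + ‖t - τ₀‖ := norm_add_le _ _
      _ ≤ R := by rw [hR]; linarith
  have hw' : w' ∈ WW q Q c I t₁ := by
    rw [← win_const (c := c) hq hBo hBc hBO hIo hJo hIJ hIav ht ht₁]
    refine ⟨Z', g1, fun i => ?_⟩
    obtain ⟨⟨a1, a2⟩, ⟨a3, a4⟩⟩ := g3 i
    have hs := (g1.sol i).self_of_nhds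
    have b0 := hBav t ht i _ hs 0
    simp only [Int.cast_zero, add_zero] at b0
    exact ⟨⟨lt_of_le_of_ne a1 b0.1.symm, a2⟩, ⟨lt_of_le_of_ne a3 b0.2.symm, a4⟩⟩
  have hK := hK₁ ⟨w', hw', rfl⟩
  simp only at hK
  have hR0 : 0 ≤ R := (norm_nonneg _).trans htR
  have hZn : ∀ i, ‖Z' i t‖ ≤ (|α| + 1) + (|β| + 1) * R := by
    intro i
    obtain ⟨⟨a1, a2⟩, ⟨a3, a4⟩⟩ := g3 i
    rw [coord (hBO ht).1 (Z' i t)]
    have hx : |xa t (Z' i t)| ≤ |α| + 1 := by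
      have e1 := neg_abs_le α
      have e2 := le_abs_self α
      exact abs_le.2 ⟨by linarith, by linarith⟩
    have hy : |ya t (Z' i t)| ≤ |β| + 1 := by
      have e1 := neg_abs_le β
      have e2 := le_abs_self β
      exact abs_le.2 ⟨by linarith, by linarith⟩
    calc ‖(xa t (Z' i t) : ℂ) + ya t (Z' i t) * t‖ ≤ ‖(xa t (Z' i t) : ℂ)‖ +
          ‖(ya t (Z' i t) : ℂ) * t‖ := norm_add_le _ _
      _ = |xa t (Z' i t)| + |ya t (Z' i t)| * ‖t‖ := by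
          rw [norm_mul, norm_real, norm_real, Real.norm_eq_abs, Real.norm_eq_abs]
      _ ≤ _ := by gcongr
  have hn : ∀ x : ℚ, ‖(x : ℂ)‖ = |(x : ℝ)| := fun x => by
    rw [← ofReal_ratCast, norm_real, Real.norm_eq_abs]
  unfold vf
  calc ‖∑ i, (ρ (c i) : ℂ) * Z' i t - (ρ w'.1 : ℂ) - (ρ w'.2 : ℂ) * t‖
      ≤ ‖∑ i, (ρ (c i) : ℂ) * Z' i t‖ + ‖(ρ w'.1 : ℂ)‖ + ‖(ρ w'.2 : ℂ) * t‖ :=
        (norm_sub_le _ _).trans (add_le_add (norm_sub_le _ _) le_rfl)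
    _ ≤ ∑ i, |(ρ (c i) : ℝ)| * ((|α| + 1) + (|β| + 1) * R) + |(ρ w'.1 : ℝ)| +
        |(ρ w'.2 : ℝ)| * R := by
        refine add_le_add (add_le_add ?_ ?_) ?_
        · refine (norm_sum_le _ _).trans (Finset.sum_le_sum fun i _ => ?_)
          rw [norm_mul, hn]
          exact mul_le_mul_of_nonneg_left (hZn i) (abs_nonneg _)
        · rw [hn]
        · rw [norm_mul, hn]
          exact mul_le_mul_of_nonneg_left htR (abs_nonneg _)
    _ ≤ _ := by linarith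

theorem cusp_setup (hq : Gds q Q D) : ∃ T β : ℝ, 0 < T ∧ ∀ t : ℂ, T < t.im → t ∈ Om D ∧
    ∀ i, ∀ z ∈ Sol (q i) t, ∀ m : ℤ, ya t z ≠ β + m := by
  set β : ℝ := √2 / 4 with hβ
  have h2 : 0 < √2 := by positivity
  have hlt : √2 < 2 := by
    have h4 : √4 = 2 := by rw [show (4 : ℝ) = 2 ^ 2 by norm_num]; exact Real.sqrt_sq (by norm_num)
    have : √2 < √4 := Real.sqrt_lt_sqrt (by norm_num) (by norm_num)
    rwa [h4] at this
  have hirr : Irrational β := irrational_sqrt_two.div_natCast (m := 4) (by norm_num)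
  have h0 : 0 < β := by rw [hβ]; linarith
  have h1 : β < 1 / 2 := by rw [hβ]; linarith
  obtain ⟨T₀, hT₀, hD⟩ := cusp_avoid (Polynomial.C_ne_zero.2 hq.D0) h0 h1 hirr
  choose T hT hS using fun i => cusp_avoid (hq.gd i).q0 h0 h1 hirr
  obtain ⟨T', hT'⟩ := (Set.finite_range T).bddAbove
  refine ⟨max T₀ T', β, lt_max_of_lt_left hT₀, fun t ht => ?_⟩
  have t1 : T₀ ≤ t.im := (le_max_left _ _).trans ht.le
  have t2 : ∀ i, T i ≤ t.im := fun i => (hT' ⟨i, rfl⟩).trans ((le_max_right _ _).trans ht.le)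
  have t0 : 0 < t.im := hT₀.trans_le t1
  obtain ⟨a2, a3, a1⟩ := hD t t1 0
  rw [E2_C] at a1
  refine ⟨⟨t0, a2, a3, a1⟩, fun i z hz m hm => ?_⟩
  have hz' : ((xa t z : ℝ) : ℂ) + β * t ∈ Sol (q i) t := by
    rw [← Sol_add t0 0 m]
    have e : ((xa t z : ℝ) : ℂ) + β * t + ((0 : ℤ) + m * t) = z := by
      conv_rhs => rw [coord t0 z, hm]
      push_cast
      ring
    rw [e]
    exact hz
  exact (hS i t (t2 i) (xa t z)).2.2 hz'.2

theorem AA_cusp (hq : Gds q Q D) (ρ : ℂ →ₗ[ℚ] ℚ) :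
    ∃ C T : ℝ, 0 ≤ C ∧ 0 ≤ T ∧ ∀ τ : ℂ, T < τ.im → τ ∈ Om D ∧
      ∀ g ∈ AA q Q c ρ τ, |(Germ.value g).im| ≤ C * τ.im := by
  obtain ⟨T, β, hT, hsetup⟩ := cusp_setup hq
  set B : Set ℂ := {t : ℂ | T < t.im} with hB
  have hBo : IsOpen B := isOpen_lt continuous_const Complex.continuous_im
  have hBc : IsPreconnected B := by
    have : Convex ℝ B := convex_halfSpace_im_gt T
    exact this.isPreconnected
  have hBav : ∀ t ∈ B, ∀ i, ∀ z ∈ Sol (q i) t, ∀ m : ℤ, ya t z ≠ β + m :=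
    fun t ht => (hsetup t ht).2
  have hBO : B ⊆ Om D := fun t ht => (hsetup t ht).1
  set I : Set (ℝ × ℝ) := Set.univ ×ˢ Set.Ioo β (β + 1) with hI
  set J : Set (ℝ × ℝ) := (Set.univ ×ˢ Set.Icc β (β + 1))ᶜ with hJ
  have hIo : IsOpen I := isOpen_univ.prod isOpen_Ioo
  have hJo : IsOpen J := (isClosed_univ.prod isClosed_Icc).isOpen_compl
  have hIJ : Disjoint I J := by
    rw [Set.disjoint_left]
    intro p hp hp'
    exact hp' ⟨trivial, ⟨hp.2.1.le, hp.2.2.le⟩⟩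
  have hIav : ∀ t ∈ B, ∀ i, ∀ z ∈ Sol (q i) t, (xa t z, ya t z) ∈ I ∪ J := by
    intro t ht i z hz
    by_cases hmem : (xa t z, ya t z) ∈ Set.univ ×ˢ Set.Icc β (β + 1)
    · left
      obtain ⟨-, ⟨a3, a4⟩⟩ := hmem
      simp only at a3 a4
      have b0 := hBav t ht i z hz 0
      have b1 := hBav t ht i z hz 1
      simp only [Int.cast_zero, add_zero, Int.cast_one] at b0 b1
      exact ⟨trivial, ⟨lt_of_le_of_ne a3 b0.symm, lt_of_le_of_ne a4 b1⟩⟩
    · right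
      exact hmem
  have ht₁ : ((T + 1 : ℝ) : ℂ) * Complex.I ∈ B := by
    change T < _
    simp
  set t₁ : ℂ := ((T + 1 : ℝ) : ℂ) * Complex.I with ht₁def
  have hfin : (Prod.snd '' WW q Q c I t₁).Finite := by
    obtain ⟨F, hF, h2⟩ := LS.fin (c := c) hq (hBO ht₁) (|β| + 1)
    refine ((hF.image Prod.snd).image Prod.snd).subset ?_
    rintro _ ⟨w, ⟨Z, hLS, hZ⟩, rfl⟩
    obtain ⟨Z₁, w₁, g1, g2, g3⟩ := normalise_re (hBO ht₁).1 hLS
    obtain ⟨Z', h3, -⟩ := h2 Z₁ w₁ g1 (by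
      intro i
      obtain ⟨-, ⟨a3, a4⟩⟩ := hZ i
      simp only at a3 a4
      obtain ⟨⟨b1, b2⟩, b3⟩ := g3 i
      have e3 := neg_abs_le β
      have e4 := le_abs_self β
      have e6 := abs_nonneg β
      rw [b3]
      exact ⟨abs_le.2 ⟨by linarith, by linarith⟩, abs_le.2 ⟨by linarith, by linarith⟩⟩)
    exact ⟨w₁, ⟨(Z', w₁), h3, rfl⟩, g2⟩
  obtain ⟨K₁, hK₁⟩ := (hfin.image fun w : ℂ => |(ρ w : ℝ)|).bddAbove
  set C : ℝ := ∑ i, |(ρ (c i) : ℝ)| * (|β| + 1) + K₁ with hC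
  refine ⟨max C 0, T, le_max_right _ _, hT.le, fun t ht => ⟨hBO ht, ?_⟩⟩
  rintro g ⟨Z, w, hLS, rfl⟩
  rw [Germ.value_ofFun]
  obtain ⟨Z', w', g1, g2, g3⟩ := normalise ρ (hBO ht).1 hLS 0 β
  rw [← g2]
  have hw' : w' ∈ WW q Q c I t₁ := by
    rw [← win_const (c := c) hq hBo hBc hBO hIo hJo hIJ hIav ht ht₁]
    refine ⟨Z', g1, fun i => ?_⟩
    obtain ⟨-, ⟨a3, a4⟩⟩ := g3 i
    have hs := (g1.sol i).self_of_nhds
    have b0 := hBav t ht i _ hs 0
    simp only [Int.cast_zero, add_zero] at b0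
    exact ⟨trivial, ⟨lt_of_le_of_ne a3 b0.symm, a4⟩⟩
  have hK := hK₁ ⟨w'.2, ⟨w', hw', rfl⟩, rfl⟩
  simp only at hK
  have him : 0 < t.im := (hBO ht).1
  have e : (vf ρ c Z' w' t).im = (∑ i, (ρ (c i) : ℝ) * ya t (Z' i t) - (ρ w'.2 : ℝ)) * t.im := by
    unfold vf
    rw [sub_im, sub_im, im_sum]
    have e1 : ∀ i, ((ρ (c i) : ℂ) * Z' i t).im = (ρ (c i) : ℝ) * ya t (Z' i t) * t.im := by
      intro i
      conv_lhs => rw [coord him (Z' i t), ← ofReal_ratCast]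
      simp only [mul_im, add_im, ofReal_im, ofReal_re, mul_re, add_re]
      ring
    have e2 : ((ρ w'.1 : ℂ)).im = 0 := by rw [← ofReal_ratCast, ofReal_im]
    have e3 : ((ρ w'.2 : ℂ) * t).im = (ρ w'.2 : ℝ) * t.im := by
      rw [← ofReal_ratCast, im_ofReal_mul]
    simp only [e1, e2, e3]
    rw [← Finset.sum_mul]
    ring
  rw [e, abs_mul, abs_of_pos him]
  refine mul_le_mul_of_nonneg_right ?_ him.le
  refine le_trans ?_ (le_max_left _ _)
  calc |∑ i, (ρ (c i) : ℝ) * ya t (Z' i t) - (ρ w'.2 : ℝ)|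
      ≤ |∑ i, (ρ (c i) : ℝ) * ya t (Z' i t)| + |(ρ w'.2 : ℝ)| := abs_sub _ _
    _ ≤ ∑ i, |(ρ (c i) : ℝ)| * (|β| + 1) + |(ρ w'.2 : ℝ)| := by
        refine add_le_add ?_ le_rfl
        refine (Finset.abs_sum_le_sum_abs _ _).trans (Finset.sum_le_sum fun i _ => ?_)
        rw [abs_mul]
        refine mul_le_mul_of_nonneg_left ?_ (abs_nonneg _)
        obtain ⟨-, ⟨a3, a4⟩⟩ := g3 i
        have e1 := neg_abs_le β
        have e2 := le_abs_self β
        exact abs_le.2 ⟨by linarith, by linarith⟩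
    _ ≤ C := by rw [hC]; linarith

end Pool.Agent.Work.MP_8da9ea_nt

end

section

/-!
# Elliptic logarithms of algebraic functions of the modular invariant

A linear relation between elliptic logarithms of functions algebraic over the field of modular
functions, up to an algebraic function and up to periods, splits into rational relations.
-/

set_option autoImplicit false

namespace Pool.Agent.Work.MP_8da9ea_nt

open Complex Filter Topology Metric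

variable {ι : Type*} [Fintype ι] {q : ι → Polynomial (Polynomial ℂ)}
  {Q : Polynomial (Polynomial ℂ)} {c : ι → ℂ} {D : Polynomial ℂ}

lemma Om_preconnected (hD : D ≠ 0) : IsPreconnected (Om D) := by
  set S : Set ℂ := {τ | τ ∈ HH ∧ gg2 τ = 0} ∪ {τ | τ ∈ HH ∧ gg3 τ = 0} ∪
    {τ | τ ∈ HH ∧ clr D D.natDegree τ = 0} with hS
  have h2 : {τ | τ ∈ HH ∧ gg2 τ = 0}.Countable :=
    zeros_countable isPreconnected_HH (fun _ h => analytic_gg2 h)
      ⟨I, by simp [HH], by simp [gg2, gk4_I]⟩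
  have h3 : {τ | τ ∈ HH ∧ gg3 τ = 0}.Countable :=
    zeros_countable isPreconnected_HH (fun _ h => analytic_gg3 h)
      ⟨rho, rho_im, by simp [gg3, gk6_rho]⟩
  have h1 : {τ | τ ∈ HH ∧ clr D D.natDegree τ = 0}.Countable :=
    zeros_countable isPreconnected_HH (fun _ h => analytic_clr _ _ h) (clr_ne hD le_rfl)
  have hSc : S.Countable := (h2.union h3).union h1
  have h := preconnected_half hSc
  have e : Om D = {τ : ℂ | 0 < τ.im ∧ τ ∉ S} := by
    ext τ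
    constructor
    · rintro ⟨a0, a2, a3, a1⟩
      refine ⟨a0, ?_⟩
      rintro ((h | h) | h)
      · exact a2 h.2
      · exact a3 h.2
      · have := h.2
        rw [clr_eq D le_rfl a3] at this
        exact mul_ne_zero (pow_ne_zero _ a3) a1 this
    · rintro ⟨a0, a1⟩
      have b2 : gg2 τ ≠ 0 := fun h => a1 (Or.inl (Or.inl ⟨a0, h⟩))
      have b3 : gg3 τ ≠ 0 := fun h => a1 (Or.inl (Or.inr ⟨a0, h⟩))
      refine ⟨a0, b2, b3, fun h => a1 (Or.inr ⟨a0, ?_⟩)⟩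
      rw [clr_eq D le_rfl b3, h, mul_zero]
  rw [e]
  exact h

lemma ev_Om (hD : D ≠ 0) {τ : ℂ} (hτ : 0 < τ.im) : ∀ᶠ t in 𝓝[≠] τ, t ∈ Om D := by
  filter_upwards [ev_jt hD hτ, nhdsWithin_le_nhds (eventually_im hτ)] with t t1 t2
  exact ⟨t2, t1.1, t1.2.1, t1.2.2⟩

theorem AA_wfam (hq : Gds q Q D) (ρ : ℂ →ₗ[ℚ] ℚ) : WFam (Om D) (AA q Q c ρ) :=
  { toFam := AA_fam hq ρ
    sub := Om_sub
    punct := fun τ hτ => ev_Om hq.D0 hτ
    memT := by
      rintro τ ⟨a0, a2, a3, a1⟩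
      exact ⟨by simpa using a0, by rwa [gg2_T], by rwa [gg3_T], by rwa [jt_T]⟩
    memT' := by
      rintro τ ⟨a0, a2, a3, a1⟩
      refine ⟨by simpa using a0, ?_, ?_, ?_⟩
      · rwa [← gg2_T, sub_add_cancel]
      · rwa [← gg3_T, sub_add_cancel]
      · rwa [← jt_T, sub_add_cancel]
    memS := by
      rintro τ ⟨a0, a2, a3, a1⟩
      have h0 : τ ≠ 0 := ne_zero_of_im a0
      refine ⟨inv_im a0, ?_, ?_, ?_⟩
      · rw [gg2_S h0]
        exact mul_ne_zero (pow_ne_zero _ h0) a2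
      · rw [gg3_S h0]
        exact mul_ne_zero (pow_ne_zero _ h0) a3
      · rwa [jt_S h0]
    T := fun τ _ τ' hτ' φ h => AA_T ρ τ τ' hτ' φ h
    T' := fun τ _ τ' hτ' φ h => AA_T' ρ τ τ' hτ' φ h
    S := fun τ hτ τ' hτ' φ h => AA_S ρ τ hτ.1 τ' hτ' φ h
    bdd := fun τ hτ => AA_bdd hq ρ hτ
    cusp := AA_cusp hq ρ }

/-- the vanishing theorem for local solutions -/
theorem vanish (hq : Gds q Q D) (ρ : ℂ →ₗ[ℚ] ℚ) {τ : ℂ} (hτ : τ ∈ Om D) {Z : ι → ℂ → ℂ}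
    {w : ℂ × ℂ} (h : LS q Q c τ Z w) : vf ρ c Z w =ᶠ[𝓝 τ] 0 := by
  have h1 := (AA_wfam (c := c) hq ρ).zero (Om_preconnected hq.D0) τ hτ _ ⟨Z, w, h, rfl⟩
  exact germ_eq_iff.1 h1

lemma Phi_ne_zero {P : MvPolynomial (Fin 2) ℂ} (hP : P ≠ 0) : Phi P ≠ 0 := by
  intro h
  apply hP
  apply MvPolynomial.funext
  intro x
  have h1 := E2_Phi P (x 0) (x 1)
  rw [h, map_zero] at h1
  have h2 : x = ![x 0, x 1] := by
    funext i
    fin_cases i <;> rfl
  rw [h2, map_zero]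
  exact h1.symm

theorem K2 {ι : Type*} [Fintype ι] {U : Set ℂ} (hUo : IsOpen U) (hUc : IsPreconnected U)
    (hUn : U.Nonempty) (hU : ∀ τ ∈ U, 0 < τ.im ∧ gg2 τ ≠ 0 ∧ gg3 τ ≠ 0) (z : ι → ℂ → ℂ)
    (hz : ∀ i, AnalyticOnNhd ℂ (z i) U)
    (hzL : ∀ i, ∀ τ ∈ U, z i τ ∉ Lam τ ∧ wpd τ (z i τ) ≠ 0) (f : ℂ → ℂ)
    (P : ι → MvPolynomial (Fin 2) ℂ) (hP0 : ∀ i, P i ≠ 0)
    (hP : ∀ i, ∀ τ ∈ U, MvPolynomial.eval
      ![gg2 τ ^ 3 / gg3 τ ^ 2, wp 1 τ (z i τ) * gg2 τ / gg3 τ] (P i) = 0)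
    (Q : MvPolynomial (Fin 2) ℂ) (hQ0 : Q ≠ 0)
    (hQ : ∀ τ ∈ U, MvPolynomial.eval
      ![gg2 τ ^ 3 / gg3 τ ^ 2, f τ ^ 2 * gg3 τ / gg2 τ] Q = 0)
    (c : ι → ℂ) (w₁ w₂ : ℂ) (hrel : ∀ τ ∈ U, ∑ i, c i * z i τ - f τ = w₁ + w₂ * τ)
    (ρ : ℂ →ₗ[ℚ] ℚ) : ∃ r s : ℚ, ∀ τ ∈ U, ∑ i, (ρ (c i) : ℂ) * z i τ = r + s * τ := by
  classical
  have hJ : AnalyticOnNhd ℂ jt U := fun τ hτ => analytic_jt (hU τ hτ).1 (hU τ hτ).2.2
  have hX : ∀ i, AnalyticOnNhd ℂ (fun τ => xt τ (z i τ)) U := by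
    intro i τ hτ
    unfold xt
    obtain ⟨h0, h2, h3⟩ := hU τ hτ
    have h1 : AnalyticAt ℂ (fun τ => wp 1 τ (z i τ)) τ :=
      analytic_wp (z := z i) (τ := fun x => x) (hz i τ hτ) analyticAt_id h0
        (notMem_Lam_iff.1 (hzL i τ hτ).1)
    exact (h1.mul (analytic_gg2 h0)).div (analytic_gg3 h0) h3
  have hpt : ∀ D : Polynomial ℂ, D ≠ 0 → ∃ τ ∈ U, τ ∈ Om D := by
    intro D hD
    obtain ⟨τ₁, hτ₁⟩ := hUn
    have h1 := ev_Om hD (hU τ₁ hτ₁).1
    have h2 : ∀ᶠ t in 𝓝[≠] τ₁, t ∈ U := nhdsWithin_le_nhds (hUo.mem_nhds hτ₁)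
    obtain ⟨t, ht1, ht2⟩ := (h1.and h2).exists
    exact ⟨t, ht2, ht1⟩
  have hJn : ∀ D : Polynomial ℂ, D ≠ 0 → ∃ τ ∈ U, D.eval (jt τ) ≠ 0 := by
    intro D hD
    obtain ⟨τ, h1, h2⟩ := hpt D hD
    exact ⟨τ, h1, h2.2.2.2⟩
  have hrels : ∀ i, ∀ τ ∈ U, E2 (jt τ) (xt τ (z i τ)) (Phi (P i)) = 0 := by
    intro i τ hτ
    rw [E2_Phi]
    exact hP i τ hτ
  have hR : ∀ i, ∃ τ ∈ U, E2 (jt τ) (xt τ (z i τ)) cub ≠ 0 := by
    intro i
    obtain ⟨τ, hτ⟩ := hUn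
    refine ⟨τ, hτ, fun h => ?_⟩
    obtain ⟨h0, h2, h3⟩ := hU τ hτ
    obtain ⟨h4, h5⟩ := hzL i τ hτ
    have h6 := wpd_cub h0 h4 h2 h3
    rw [h, mul_zero] at h6
    exact h5 (pow_eq_zero_iff (two_ne_zero) |>.1 h6)
  choose q hq0 hqU D hD0 hqD using fun i =>
    exists_good hUc hUn hJ (hX i) hJn (Phi_ne_zero (hP0 i)) (hrels i) (hR i)
  set DD : Polynomial ℂ := (∏ i, D i) * (Phi Q).leadingCoeff with hDD
  have hDD0 : DD ≠ 0 := mul_ne_zero (Finset.prod_ne_zero_iff.2 fun i _ => hD0 i)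
    (Polynomial.leadingCoeff_ne_zero.2 (Phi_ne_zero hQ0))
  have hDi : ∀ γ, DD.eval γ ≠ 0 → ∀ i, (D i).eval γ ≠ 0 := by
    intro γ hγ i h
    apply hγ
    rw [hDD, Polynomial.eval_mul, Polynomial.eval_prod, Finset.prod_eq_zero (Finset.mem_univ i) h,
      zero_mul]
  have hgds : Gds q (Phi Q) DD := by
    refine ⟨fun i => ⟨hq0 i, fun γ hγ => (hqD i γ (hDi γ hγ i)).1, fun γ x hγ hx =>
      (hqD i γ (hDi γ hγ i)).2 x hx⟩, hDD0, fun γ hγ h => hγ ?_⟩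
    rw [hDD, Polynomial.eval_mul, h, mul_zero]
  obtain ⟨τ, hτU, hτO⟩ := hpt DD hDD0
  have hLS : LS q (Phi Q) c τ z (w₁, w₂) := by
    refine ⟨fun i => hz i τ hτU, fun i => ?_, ?_⟩
    · filter_upwards [hUo.mem_nhds hτU] with t ht
      exact ⟨(hzL i t ht).1, hqU i t ht⟩
    · filter_upwards [hUo.mem_nhds hτU] with t ht
      unfold RF
      have e : ∑ i, c i * z i t - (w₁, w₂).1 - (w₁, w₂).2 * t = f t := by
        have := hrel t ht
        simp only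
        linear_combination this
      rw [e, E2_Phi]
      exact hQ t ht
  have hv := vanish hgds ρ hτO hLS
  have hva : AnalyticOnNhd ℂ (vf ρ c z (w₁, w₂)) U := fun t ht => analyticAt_vf fun i => hz i t ht
  have hv0 := hva.eqOn_zero_of_preconnected_of_eventuallyEq_zero hUc hτU hv
  refine ⟨ρ w₁, ρ w₂, fun t ht => ?_⟩
  have h1 := hv0 ht
  unfold vf at h1
  simp only [Pi.zero_apply] at h1
  linear_combination h1

end Pool.Agent.Work.MP_8da9ea_nt

end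

section

/-!
# K1, local part: the special curve at a point
-/

set_option autoImplicit false

namespace Pool.Agent.Work.MP_8da9ea_nt

open Complex Filter Topology Matrix

variable {τ₁ : ℂ}

/-- evaluation of polynomials at germs of analytic functions -/
lemma aeval_gmC {σ : Type*} (f : σ → ℂ → ℂ) (hf : ∀ s, AnalyticAt ℂ (f s) τ₁)
    (P : MvPolynomial σ ℂ) :
    AnalyticAt ℂ (fun τ => MvPolynomial.eval (fun s => f s τ) P) τ₁ ∧
    MvPolynomial.aeval (fun s => gm τ₁ (f s)) P =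
      gm τ₁ (fun τ => MvPolynomial.eval (fun s => f s τ) P) := by
  induction P using MvPolynomial.induction_on with
  | C a =>
    refine ⟨by simpa using analyticAt_const, ?_⟩
    simp only [MvPolynomial.aeval_C, MvPolynomial.eval_C]
    exact (gm_const a).symm
  | add p q hp hq =>
    simp only [map_add]
    refine ⟨hp.1.add hq.1, ?_⟩
    rw [hp.2, hq.2, gm_add hp.1.meromorphicAt hq.1.meromorphicAt]
  | mul_X p s hp =>
    simp only [map_mul, MvPolynomial.aeval_X, MvPolynomial.eval_X]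
    refine ⟨hp.1.mul (hf s), ?_⟩
    rw [hp.2, gm_mul hp.1.meromorphicAt (hf s).meromorphicAt]

/-- algebraic germs satisfy a polynomial relation -/
lemma exists_poly_of_alg {J V : ℂ → ℂ} (hJ : AnalyticAt ℂ J τ₁) (hV : AnalyticAt ℂ V τ₁)
    (h : IsAlgebraic (IntermediateField.adjoin ℂ {gm τ₁ J}) (gm τ₁ V)) :
    ∃ P : MvPolynomial (Fin 2) ℂ, P ≠ 0 ∧
      ∀ᶠ τ in 𝓝 τ₁, MvPolynomial.eval ![J τ, V τ] P = 0 := by
  have hdep : ¬ AlgebraicIndependent ℂ ![gm τ₁ J, gm τ₁ V] := by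
    intro hai
    let e : Option Unit → Fin 2 := fun o => o.elim 1 (fun _ => 0)
    have he : Function.Injective e := by
      rintro (_ | a) (_ | b) h
      · rfl
      · exact absurd h (by simp [e])
      · exact absurd h (by simp [e])
      · rfl
    have h1 := hai.comp e he
    have h2 : (![gm τ₁ J, gm τ₁ V] ∘ e) =
        (fun o : Option Unit => o.elim (gm τ₁ V) (fun _ => gm τ₁ J)) := by
      funext o
      rcases o with _ | a <;> rfl
    rw [h2, AlgebraicIndependent.option_iff] at h1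
    apply h1.2
    rw [Set.range_const]
    exact IntermediateField.isAlgebraic_adjoin_iff.1 h
  rw [algebraicIndependent_iff] at hdep
  push Not at hdep
  obtain ⟨P, hP, hP0⟩ := hdep
  refine ⟨P, hP0, ?_⟩
  have hfam : ∀ s : Fin 2, AnalyticAt ℂ (![J, V] s) τ₁ := by
    intro s
    fin_cases s
    · exact hJ
    · exact hV
  obtain ⟨h1, h2⟩ := aeval_gmC ![J, V] hfam P
  have h3 : (fun s => gm τ₁ (![J, V] s)) = ![gm τ₁ J, gm τ₁ V] := by
    funext s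
    fin_cases s <;> rfl
  rw [h3, hP, ← map_zero (algebraMap ℂ (MG τ₁)), ← gm_const] at h2
  have h4 := (gm_eq_iff analyticAt_const h1).1 h2
  filter_upwards [h4] with τ hτ
  have h5 : (fun s => ![J, V] s τ) = ![J τ, V τ] := by
    funext s
    fin_cases s <;> rfl
  rw [← h5]
  exact hτ.symm

/-! ### the change of weight -/

lemma IsAn.rep {m : MG τ₁} {a : ℂ} (h : SpecAux.IsAn m a) :
    ∃ f : ℂ → ℂ, AnalyticAt ℂ f τ₁ ∧ m = gm τ₁ f ∧ f τ₁ = a := by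
  obtain ⟨f, hf, h1, h2⟩ := h
  exact ⟨f, hf, by rw [gm_mk hf.meromorphicAt]; exact h1, h2⟩

/-- an analytic square root with value one -/
lemma exists_sqrt {u : ℂ → ℂ} (hu : AnalyticAt ℂ u τ₁) (h1 : u τ₁ = 1) :
    ∃ l : ℂ → ℂ, AnalyticAt ℂ l τ₁ ∧ l τ₁ = 1 ∧ ∀ᶠ τ in 𝓝 τ₁, l τ ^ 2 = u τ := by
  refine ⟨fun τ => exp (log (u τ) / 2), ?_, ?_, ?_⟩
  · have h2 : AnalyticAt ℂ (fun τ => log (u τ)) τ₁ := by
      refine hu.clog ?_
      rw [h1]
      exact one_mem_slitPlane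
    exact (h2.div_const).cexp
  · simp [h1]
  · have h3 : ∀ᶠ τ in 𝓝 τ₁, u τ ≠ 0 := hu.continuousAt.eventually_ne (by rw [h1]; exact one_ne_zero)
    filter_upwards [h3] with τ h
    rw [← exp_nat_mul]
    have : ((2 : ℕ) : ℂ) * (log (u τ) / 2) = log (u τ) := by push_cast; ring
    rw [this, exp_log h]

lemma gdisc_ne (hτ : 0 < τ₁.im) : gm τ₁ gg2 ^ 3 - 27 * gm τ₁ gg3 ^ 2 ≠ 0 := by
  intro h
  have a2 := analyticAt_gg2 hτ
  have a3 := analyticAt_gg3 hτ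
  have m2 := a2.meromorphicAt
  have m3 := a3.meromorphicAt
  rw [gm_ofNat] at h
  simp (disch := fun_prop) only [gm_mul, gm_pow, gm_sub] at h
  rw [← map_zero (algebraMap ℂ (MG τ₁)), ← gm_const, gm_eq_iff (by fun_prop) analyticAt_const] at h
  have hD : (Polynomial.X - Polynomial.C 27 : Polynomial ℂ) ≠ 0 := Polynomial.X_sub_C_ne_zero _
  have h4 := ev_jt hD (show τ₁ ∈ HH from hτ)
  obtain ⟨t, ⟨t1, t2, t3⟩, t4⟩ := (h4.and (h.filter_mono nhdsWithin_le_nhds)).exists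
  apply t3
  simp only [Polynomial.eval_sub, Polynomial.eval_X, Polynomial.eval_C, jt]
  have h5 : gg3 t ^ 2 ≠ 0 := pow_ne_zero _ t2
  rw [div_sub' h5, div_eq_zero_iff]
  left
  linear_combination t4

theorem K1loc {ι : Type} [Fintype ι] (hτ : 0 < τ₁.im) (h2 : gg2 τ₁ ≠ 0) (h3 : gg3 τ₁ ≠ 0)
    (z₁ : ι → ℂ) (hzL : ∀ i, z₁ i ∉ Lam τ₁ ∧ wpd τ₁ (z₁ i) ≠ 0)
    (G2 G3 : MG τ₁) (X Y : ι → MG τ₁) (F : Fin 2 → MG τ₁)
    (hG2 : G2 = gm τ₁ (fun τ => (gg3 τ₁ / gg2 τ₁) ^ 2 * jt τ))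
    (hG3 : G3 = algebraMap ℂ (MG τ₁) (gg3 τ₁ / gg2 τ₁) * G2)
    (hX : ∀ i, SpecAux.IsAn (X i) (wp 1 τ₁ (z₁ i)))
    (hY : ∀ i, SpecAux.IsAn (Y i) (wpd τ₁ (z₁ i)))
    (a : Fin 2 → ℂ) (hF : ∀ k, SpecAux.IsAn (F k) (a k))
    (hXY : ∀ i, Y i ^ 2 = 4 * X i ^ 3 - G2 * X i - G3)
    (c : ι → ℂ)
    (hD : (fun k => MG.DD (F k)) = cM G2 G3 MG.DD *ᵥ F +
      ∑ i, algebraMap ℂ (MG τ₁) (c i) • bV G2 G3 (X i) (Y i) MG.DD)
    (hXa : ∀ i, IsAlgebraic (IntermediateField.adjoin ℂ {gm τ₁ jt}) (X i))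
    (hFa : IsAlgebraic (IntermediateField.adjoin ℂ {gm τ₁ jt}) (F 0))
    (ρ : ℂ →ₗ[ℚ] ℚ) : ∃ r s : ℚ, ∑ i, (ρ (c i) : ℂ) * z₁ i = r + s * τ₁ := by
  have hkap := kap_ne_zero
  have a2 := analyticAt_gg2 hτ
  have a3 := analyticAt_gg3 hτ
  have ae := analyticAt_et hτ
  have aj : AnalyticAt ℂ jt τ₁ := analytic_jt hτ h3
  have m2 := a2.meromorphicAt
  have m3 := a3.meromorphicAt
  have me := ae.meromorphicAt
  have mj := aj.meromorphicAt
  set k : ℂ := gg3 τ₁ / gg2 τ₁ with hk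
  have hk0 : k ≠ 0 := div_ne_zero h3 h2
  have hkk : k * gg2 τ₁ = gg3 τ₁ := by rw [hk]; field_simp
  have ev2 : ∀ᶠ τ in 𝓝 τ₁, gg2 τ ≠ 0 := a2.continuousAt.eventually_ne h2
  have ev3 : ∀ᶠ τ in 𝓝 τ₁, gg3 τ ≠ 0 := a3.continuousAt.eventually_ne h3
  obtain ⟨l, al, l1, lsq⟩ := exists_sqrt (u := fun τ => gg3 τ / (k * gg2 τ))
    (a3.div (analyticAt_const.mul a2) (mul_ne_zero hk0 h2))
    (by simp only [hkk]; exact div_self h3)
  have ml := al.meromorphicAt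
  have evl : ∀ᶠ τ in 𝓝 τ₁, l τ ≠ 0 := al.continuousAt.eventually_ne (by rw [l1]; exact one_ne_zero)
  set lam : MG τ₁ := gm τ₁ l with hlam
  have hl0 : lam ≠ 0 := gmz_ne al (by rw [l1]; exact one_ne_zero)
  have e2 : gm τ₁ gg2 = lam ^ 4 * G2 := by
    rw [hG2, hlam]
    simp (disch := fun_prop) only [gm_mul, gm_pow]
    refine gm_eq_of a2 ?_
    filter_upwards [lsq, ev2, ev3] with τ t1 t2 t3
    have e : l τ ^ 4 = (l τ ^ 2) ^ 2 := by ring
    rw [e, t1]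
    unfold jt
    field_simp
  have e3 : gm τ₁ gg3 = lam ^ 6 * G3 := by
    rw [hG3, hG2, hlam, ← gm_const]
    simp (disch := fun_prop) only [gm_mul, gm_pow]
    refine gm_eq_of a3 ?_
    filter_upwards [lsq, ev2, ev3] with τ t1 t2 t3
    have e : l τ ^ 6 = (l τ ^ 2) ^ 3 := by ring
    rw [e, t1]
    unfold jt
    field_simp
  choose Xf aX eX vX using fun i => IsAn.rep (hX i)
  choose Yf aY eY vY using fun i => IsAn.rep (hY i)
  choose Ff aF eF vF using fun i => IsAn.rep (hF i)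
  have mX := fun i => (aX i).meromorphicAt
  have mY := fun i => (aY i).meromorphicAt
  have mF := fun i => (aF i).meromorphicAt
  -- the logarithms
  choose zz az vz evz using fun i => exists_log (τ₁ := τ₁) (z₁ := z₁ i) hτ (hzL i).1 (hzL i).2
    (x := fun τ => l τ ^ 2 * Xf i τ) ((al.pow 2).mul (aX i)) (by rw [l1, vX]; ring)
  have zL : ∀ i, zz i τ₁ ∉ Lam τ₁ := fun i => by rw [vz]; exact (hzL i).1
  have zL' : ∀ i, wpd τ₁ (zz i τ₁) ≠ 0 := fun i => by rw [vz]; exact (hzL i).2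
  have mz := fun i => (az i).meromorphicAt
  have awp := fun i => analyticAt_wp_arc (az i) hτ (zL i)
  have awd := fun i => analyticAt_wpd_arc (az i) hτ (zL i)
  have azt := fun i => analyticAt_zt_arc (az i) hτ (zL i)
  have mwp := fun i => (awp i).meromorphicAt
  have mwd := fun i => (awd i).meromorphicAt
  have mzt := fun i => (azt i).meromorphicAt
  have ex : ∀ i, gm τ₁ (fun τ => wp 1 τ (zz i τ)) = lam ^ 2 * X i := by
    intro i
    rw [hlam, eX i, gm_pow ml, gm_mul (ml.fun_pow 2) (mX i)]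
    refine gm_eq_of (awp i) ?_
    filter_upwards [evz i] with τ t
    exact t.2.2.2
  have ey : ∀ i, gm τ₁ (fun τ => wpd τ (zz i τ)) = lam ^ 3 * Y i := by
    intro i
    have s1 := g_wpd_sq (az i) hτ (zL i)
    have s2 : (lam ^ 3 * Y i) ^ 2 = gm τ₁ (fun τ => wpd τ (zz i τ)) ^ 2 := by
      rw [s1, ex i, e2, e3, mul_pow, hXY i]
      ring
    rcases sq_eq_sq_iff_eq_or_eq_neg.1 s2 with s3 | s3
    · exact s3.symm
    · exfalso
      rw [hlam, eY i, gm_pow ml, gm_mul (ml.fun_pow 3) (mY i), gm_neg (mwd i)] at s3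
      have s4 := (gm_eq_iff ((al.pow 3).mul (aY i)) (awd i).neg).1 s3
      have s5 : l τ₁ ^ 3 * Yf i τ₁ = -wpd τ₁ (zz i τ₁) := s4.self_of_nhds
      rw [l1, vY, vz] at s5
      apply (hzL i).2
      linear_combination s5 / 2
  -- the equation for the logarithms
  have hΔ := gdisc_ne (τ₁ := τ₁) hτ
  have hκ : algebraMap ℂ (MG τ₁) kap ≠ 0 := by rwa [Ne, map_eq_zero]
  have hyg : ∀ i, gm τ₁ (fun τ => wpd τ (zz i τ)) ≠ 0 := fun i => gmz_ne (awd i) (zL' i)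
  have hTh : ThL ℂ (algebraMap ℂ (MG τ₁) kap) (gm τ₁ fun τ => τ) (gm τ₁ et) (gm τ₁ gg2)
      (gm τ₁ gg3) MG.DD = 0 :=
    ThL_D hκ hΔ MG.DD (MG.DD.map_algebraMap kap) gD_tau (gD_et hτ) (gD_gg2 hτ) (gD_gg3 hτ)
  have hvL : ∀ i, vL ℂ (algebraMap ℂ (MG τ₁) kap) (gm τ₁ fun τ => τ) (gm τ₁ et) (gm τ₁ gg2)
      (gm τ₁ gg3) (gm τ₁ (zz i)) (gm τ₁ fun τ => wp 1 τ (zz i τ))
      (gm τ₁ fun τ => wpd τ (zz i τ)) (gm τ₁ fun τ => zt 1 τ (zz i τ)) MG.DD = 0 := fun i =>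
    vL_D hκ hΔ (hyg i) MG.DD (gD_gg2 hτ) (gD_gg3 hτ) (gD_x (az i) hτ (zL i))
      (gD_zt (az i) hτ (zL i))
  have hP := P0_ThL (C := ℂ) (g2 := gm τ₁ gg2) (g3 := gm τ₁ gg3) (τ := gm τ₁ fun τ => τ)
    (e := gm τ₁ et) hκ MG.DD
  rw [hTh, mul_zero, eq_comm, sub_eq_zero] at hP
  have hV : ∀ i, (fun k => MG.DD (![gm τ₁ (zz i), gm τ₁ fun τ => zt 1 τ (zz i τ)] k)) =
      cM (gm τ₁ gg2) (gm τ₁ gg3) MG.DD *ᵥ ![gm τ₁ (zz i), gm τ₁ fun τ => zt 1 τ (zz i τ)] +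
      bV (gm τ₁ gg2) (gm τ₁ gg3) (gm τ₁ fun τ => wp 1 τ (zz i τ))
        (gm τ₁ fun τ => wpd τ (zz i τ)) MG.DD := by
    intro i
    have h := P0_vL (C := ℂ) (g2 := gm τ₁ gg2) (g3 := gm τ₁ gg3) (τ := gm τ₁ fun τ => τ)
      (e := gm τ₁ et) hκ (gm τ₁ (zz i)) (gm τ₁ fun τ => wp 1 τ (zz i τ))
      (gm τ₁ fun τ => wpd τ (zz i τ)) (gm τ₁ fun τ => zt 1 τ (zz i τ)) MG.DD
    rw [hvL i, Matrix.mulVec_zero] at h
    rw [← sub_eq_iff_eq_add', ← sub_eq_zero, ← h]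
  -- the gauge change of `F`
  have hl0' : lam⁻¹ ≠ 0 := inv_ne_zero hl0
  have e2' : G2 = lam⁻¹ ^ 4 * gm τ₁ gg2 := by rw [e2]; field_simp
  have e3' : G3 = lam⁻¹ ^ 6 * gm τ₁ gg3 := by rw [e3]; field_simp
  have hFg := gauge_sol hl0' e2' e3' hΔ MG.DD F _ hD
  have hYne : ∀ i, Y i ≠ 0 := by
    intro i h
    apply hyg i
    rw [ey i, h, mul_zero]
  have hbg : ∀ i, bV (gm τ₁ gg2) (gm τ₁ gg3) (gm τ₁ fun τ => wp 1 τ (zz i τ))
      (gm τ₁ fun τ => wpd τ (zz i τ)) MG.DD = Lm lam⁻¹ *ᵥ bV G2 G3 (X i) (Y i) MG.DD := fun i =>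
    gauge_bV hl0' e2' e3' hΔ MG.DD (hYne i) (by rw [ex i]; field_simp) (by rw [ey i]; field_simp)
  rw [Matrix.mulVec_sum] at hFg
  simp only [Matrix.mulVec_smul, ← hbg] at hFg
  set V : Fin 2 → MG τ₁ := ∑ i, algebraMap ℂ (MG τ₁) (c i) •
    ![gm τ₁ (zz i), gm τ₁ fun τ => zt 1 τ (zz i τ)] - Lm lam⁻¹ *ᵥ F with hVdef
  have hVD : (fun k => MG.DD (V k)) = cM (gm τ₁ gg2) (gm τ₁ gg3) MG.DD *ᵥ V := by
    have s1 : (fun k => MG.DD (V k)) = ∑ i, algebraMap ℂ (MG τ₁) (c i) •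
        (fun k => MG.DD (![gm τ₁ (zz i), gm τ₁ fun τ => zt 1 τ (zz i τ)] k)) -
        (fun k => MG.DD ((Lm lam⁻¹ *ᵥ F) k)) := by
      funext k
      simp only [hVdef, Pi.sub_apply, Finset.sum_apply, Pi.smul_apply, smul_eq_mul, map_sub,
        map_sum]
      congr 1
      refine Finset.sum_congr rfl fun i _ => ?_
      rw [Derivation.leibniz, MG.DD.map_algebraMap, smul_zero, add_zero, smul_eq_mul]
    rw [s1, hFg, hVdef, Matrix.mulVec_sub, Matrix.mulVec_sum]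
    simp only [hV, Matrix.mulVec_smul, smul_add, Finset.sum_add_distrib]
    abel
  obtain ⟨w, hw⟩ := const_comb MG.DD MG.DD_ker _ _ _ hP (P0_mul_P1 hκ) (P1_mul_P0 hκ) V hVD
  have hw0 := congrFun hw 0
  have hrel : ∀ᶠ τ in 𝓝 τ₁, ∑ i, c i * zz i τ - Ff 0 τ / l τ = w 0 + w 1 * τ := by
    have s1 : V 0 = gm τ₁ (fun τ => ∑ i, c i * zz i τ - Ff 0 τ / l τ) := by
      have s2 : ∑ i, algebraMap ℂ (MG τ₁) (c i) * gm τ₁ (zz i) =
          gm τ₁ (fun τ => ∑ i, c i * zz i τ) := by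
        have s3 := aeval_gmC (τ₁ := τ₁) zz az (∑ i, MvPolynomial.C (c i) * MvPolynomial.X i)
        simpa using s3.2
      rw [hVdef]
      simp only [Pi.sub_apply, Finset.sum_apply, Pi.smul_apply, smul_eq_mul,
        Matrix.cons_val_zero, s2]
      have s4 : (Lm lam⁻¹ *ᵥ F) 0 = gm τ₁ (fun τ => Ff 0 τ / l τ) := by
        rw [← gm_div (mF 0) ml, ← eF 0, ← hlam, div_eq_mul_inv]
        simp [Lm, Matrix.mulVec, dotProduct, Fin.sum_univ_two, mul_comm]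
      rw [s4, gm_sub]
      · exact (Finset.analyticAt_fun_sum _ fun i _ => analyticAt_const.mul (az i)).meromorphicAt
      · exact (mF 0).div ml
    have s5 : (P0 (algebraMap ℂ (MG τ₁) kap) (gm τ₁ fun τ => τ) (gm τ₁ et) *ᵥ
        (fun k => algebraMap ℂ (MG τ₁) (w k))) 0 = gm τ₁ (fun τ => w 0 + w 1 * τ) := by
      have mid : MeromorphicAt (fun τ : ℂ => τ) τ₁ := analyticAt_id.meromorphicAt
      have s6 : gm τ₁ (fun τ => w 0 + w 1 * τ) = algebraMap ℂ (MG τ₁) (w 0) +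
          algebraMap ℂ (MG τ₁) (w 1) * gm τ₁ (fun τ => τ) := by
        rw [← gm_const, ← gm_const, gm_mul (MeromorphicAt.const _ _) mid,
          gm_add (MeromorphicAt.const _ _) ((MeromorphicAt.const _ _).fun_mul mid)]
      rw [s6]
      simp [P0, Matrix.mulVec, dotProduct, Fin.sum_univ_two, mul_comm]
    rw [s1, s5] at hw0
    refine (gm_eq_iff ?_ ?_).1 hw0
    · exact (Finset.analyticAt_fun_sum _ fun i _ => analyticAt_const.mul (az i)).sub
        ((aF 0).div al (by rw [l1]; exact one_ne_zero))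
    · exact analyticAt_const.add (analyticAt_const.mul analyticAt_id)
  -- the algebraic relations
  have hPX : ∀ i, ∃ P : MvPolynomial (Fin 2) ℂ, P ≠ 0 ∧
      ∀ᶠ τ in 𝓝 τ₁, MvPolynomial.eval ![jt τ, Xf i τ / k] P = 0 := by
    intro i
    refine exists_poly_of_alg aj ((aX i).div_const) ?_
    have s1 : gm τ₁ (fun τ => Xf i τ / k) = X i * algebraMap ℂ (MG τ₁) k⁻¹ := by
      rw [eX i, ← gm_const, gm_mul (mX i) (MeromorphicAt.const _ _)]
      rfl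
    rw [s1]
    exact (hXa i).mul (isAlgebraic_algebraMap (R := IntermediateField.adjoin ℂ {gm τ₁ jt})
      (algebraMap ℂ _ k⁻¹))
  have hQF : ∃ Q : MvPolynomial (Fin 2) ℂ, Q ≠ 0 ∧
      ∀ᶠ τ in 𝓝 τ₁, MvPolynomial.eval ![jt τ, Ff 0 τ ^ 2 * k] Q = 0 := by
    refine exists_poly_of_alg aj (((aF 0).pow 2).mul analyticAt_const) ?_
    have s1 : gm τ₁ (fun τ => Ff 0 τ ^ 2 * k) = F 0 ^ 2 * algebraMap ℂ (MG τ₁) k := by
      rw [eF 0, ← gm_const, gm_pow (mF 0), gm_mul ((mF 0).fun_pow 2) (MeromorphicAt.const _ _)]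
    rw [s1]
    exact (hFa.pow 2).mul (isAlgebraic_algebraMap (R := IntermediateField.adjoin ℂ {gm τ₁ jt})
      (algebraMap ℂ _ k))
  choose P hP0 hPe using hPX
  obtain ⟨Q, hQ0, hQe⟩ := hQF
  -- a small ball
  have hall : ∀ᶠ τ in 𝓝 τ₁, (0 < τ.im ∧ gg2 τ ≠ 0 ∧ gg3 τ ≠ 0 ∧ l τ ≠ 0 ∧
      l τ ^ 2 = gg3 τ / (k * gg2 τ)) ∧ (∀ i, AnalyticAt ℂ (zz i) τ ∧ zz i τ ∉ Lam τ ∧
      wpd τ (zz i τ) ≠ 0 ∧ wp 1 τ (zz i τ) = l τ ^ 2 * Xf i τ ∧
      MvPolynomial.eval ![jt τ, Xf i τ / k] (P i) = 0) ∧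
      MvPolynomial.eval ![jt τ, Ff 0 τ ^ 2 * k] Q = 0 ∧
      ∑ i, c i * zz i τ - Ff 0 τ / l τ = w 0 + w 1 * τ := by
    have s1 : ∀ᶠ τ in 𝓝 τ₁, ∀ i, AnalyticAt ℂ (zz i) τ ∧ zz i τ ∉ Lam τ ∧
      wpd τ (zz i τ) ≠ 0 ∧ wp 1 τ (zz i τ) = l τ ^ 2 * Xf i τ ∧
      MvPolynomial.eval ![jt τ, Xf i τ / k] (P i) = 0 := by
      rw [Filter.eventually_all]
      intro i
      filter_upwards [(az i).eventually_analyticAt, evz i, hPe i] with τ t1 t2 t3
      exact ⟨t1, t2.2.1, t2.2.2.1, t2.2.2.2, t3⟩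
    filter_upwards [ev_im hτ, ev2, ev3, evl, lsq, s1, hQe, hrel] with τ t1 t2 t3 t4 t5 t6 t7 t8
    exact ⟨⟨t1, t2, t3, t4, t5⟩, t6, t7, t8⟩
  obtain ⟨r, hr, hball⟩ := Metric.eventually_nhds_iff_ball.1 hall
  obtain ⟨rr, ss, hrs⟩ := K2 (U := Metric.ball τ₁ r) Metric.isOpen_ball
    (convex_ball τ₁ r).isPreconnected ⟨τ₁, Metric.mem_ball_self hr⟩
    (fun τ h => ⟨(hball τ h).1.1, (hball τ h).1.2.1, (hball τ h).1.2.2.1⟩) zz
    (fun i τ h => ((hball τ h).2.1 i).1)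
    (fun i τ h => ⟨((hball τ h).2.1 i).2.1, ((hball τ h).2.1 i).2.2.1⟩)
    (fun τ => Ff 0 τ / l τ) P hP0
    (fun i τ h => by
      obtain ⟨⟨t1, t2, t3, t4, t5⟩, t6, t7, t8⟩ := hball τ h
      obtain ⟨u1, u2, u3, u4, u5⟩ := t6 i
      have e : wp 1 τ (zz i τ) * gg2 τ / gg3 τ = Xf i τ / k := by
        rw [u4, t5]
        field_simp
      rw [e]
      exact u5) Q hQ0
    (fun τ h => by
      obtain ⟨⟨t1, t2, t3, t4, t5⟩, t6, t7, t8⟩ := hball τ h
      have e : (Ff 0 τ / l τ) ^ 2 * gg3 τ / gg2 τ = Ff 0 τ ^ 2 * k := by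
        rw [div_pow, t5]
        field_simp
      rw [e]
      exact t7) c (w 0) (w 1) (fun τ h => (hball τ h).2.2.2) ρ
  refine ⟨rr, ss, ?_⟩
  have := hrs τ₁ (Metric.mem_ball_self hr)
  simp only [vz] at this
  exact this

end Pool.Agent.Work.MP_8da9ea_nt

end

section

/-!
# K1: linear relations between the forms attached to the points
-/

set_option autoImplicit false

namespace Pool.Agent.Work.MP_8da9ea_nt

open Complex Filter Topology Matrix Pool.Agent.ED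

section prep

variable {ι : Type} [Fintype ι]

/-- the functions generating the field -/
noncomputable def fK (z : ι → ℂ → ℂ) (c : ι → ℂ) (w : Fin 2 → ℂ) :
    Fin 2 ⊕ (ι ⊕ (ι ⊕ Fin 2)) → ℂ → ℂ
  | Sum.inl 0 => fun τ => gg3 τ / gg2 τ
  | Sum.inl 1 => gg2
  | Sum.inr (Sum.inl i) => fun τ => wp 1 τ (z i τ)
  | Sum.inr (Sum.inr (Sum.inl i)) => fun τ => wpd τ (z i τ)
  | Sum.inr (Sum.inr (Sum.inr 0)) => fun τ => ∑ i, c i * z i τ - (w 0 + τ * w 1)
  | Sum.inr (Sum.inr (Sum.inr 1)) => fun τ =>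
      ∑ i, c i * zt 1 τ (z i τ) - (et τ * w 0 + (τ * et τ - kap) * w 1)

lemma analyticAt_fK (z : ι → ℂ → ℂ) (c : ι → ℂ) (w : Fin 2 → ℂ) {τ : ℂ} (hτ : 0 < τ.im)
    (h2 : gg2 τ ≠ 0) (hz : ∀ i, AnalyticAt ℂ (z i) τ) (hzL : ∀ i, z i τ ∉ Lam τ)
    (t : Fin 2 ⊕ (ι ⊕ (ι ⊕ Fin 2))) : AnalyticAt ℂ (fK z c w t) τ := by
  have a2 := analyticAt_gg2 hτ
  have a3 := analyticAt_gg3 hτ
  have ae := analyticAt_et hτ
  rcases t with k | i | i | k
  · fin_cases k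
    · exact a3.div a2 h2
    · exact a2
  · exact analyticAt_wp_arc (hz i) hτ (hzL i)
  · exact analyticAt_wpd_arc (hz i) hτ (hzL i)
  · fin_cases k
    · refine (Finset.analyticAt_fun_sum _ fun i _ => analyticAt_const.mul (hz i)).sub ?_
      exact analyticAt_const.add (analyticAt_id.mul analyticAt_const)
    · refine (Finset.analyticAt_fun_sum _ fun i _ =>
        analyticAt_const.mul (analyticAt_zt_arc (hz i) hτ (hzL i))).sub ?_
      exact (ae.mul analyticAt_const).add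
        (((analyticAt_id.mul ae).sub analyticAt_const).mul analyticAt_const)

lemma gm_sum_mul {τ₀ : ℂ} (c : ι → ℂ) (z : ι → ℂ → ℂ) (hz : ∀ i, AnalyticAt ℂ (z i) τ₀) :
    ∑ i, algebraMap ℂ (MG τ₀) (c i) * gm τ₀ (z i) = gm τ₀ (fun τ => ∑ i, c i * z i τ) := by
  have s3 := aeval_gmC (τ₁ := τ₀) z hz (∑ i, MvPolynomial.C (c i) * MvPolynomial.X i)
  simpa using s3.2

/-- the combination of sections as germs -/
lemma FV_eq {τ₀ : ℂ} (hτ : 0 < τ₀.im) (z : ι → ℂ → ℂ) (c : ι → ℂ) (w : Fin 2 → ℂ)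
    (hz : ∀ i, AnalyticAt ℂ (z i) τ₀) (hzL : ∀ i, z i τ₀ ∉ Lam τ₀) (k : Fin 2) :
    FV (algebraMap ℂ (MG τ₀) kap) (gm τ₀ fun τ => τ) (gm τ₀ et) (fun i => gm τ₀ (z i))
      (fun i => gm τ₀ fun τ => zt 1 τ (z i τ)) c w k =
      gm τ₀ (fK z c w (Sum.inr (Sum.inr (Sum.inr k)))) := by
  have ae := analyticAt_et hτ
  have me := ae.meromorphicAt
  have mid : MeromorphicAt (fun τ : ℂ => τ) τ₀ := analyticAt_id.meromorphicAt
  fin_cases k
  · have s1 := gm_sum_mul c z hz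
    simp only [FV, Fin.zero_eta, Pi.sub_apply, Finset.sum_apply, Pi.smul_apply, smul_eq_mul,
      Matrix.cons_val_zero, s1]
    change _ = gm τ₀ (fun τ => ∑ i, c i * z i τ - (w 0 + τ * w 1))
    have ms : MeromorphicAt (fun τ => ∑ i, c i * z i τ) τ₀ :=
      (Finset.analyticAt_fun_sum _ fun i _ => analyticAt_const.mul (hz i)).meromorphicAt
    have m1 : MeromorphicAt (fun τ => τ * w 1) τ₀ := mid.fun_mul (MeromorphicAt.const (w 1) τ₀)
    have m2 : MeromorphicAt (fun τ => w 0 + τ * w 1) τ₀ :=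
      (MeromorphicAt.const (w 0) τ₀).fun_add m1
    rw [← gm_sub ms m2]
    congr 1
    rw [← gm_add (MeromorphicAt.const _ _) m1, ← gm_mul mid (MeromorphicAt.const _ _), gm_const,
      gm_const]
    simp [P0, Matrix.mulVec, dotProduct, Fin.sum_univ_two]
  · have s1 := gm_sum_mul c (fun i τ => zt 1 τ (z i τ))
      (fun i => analyticAt_zt_arc (hz i) hτ (hzL i))
    simp only [FV, Fin.mk_one, Pi.sub_apply, Finset.sum_apply, Pi.smul_apply, smul_eq_mul,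
      Matrix.cons_val_one, Matrix.cons_val_fin_one, s1]
    change _ = gm τ₀ (fun τ =>
      ∑ i, c i * zt 1 τ (z i τ) - (et τ * w 0 + (τ * et τ - kap) * w 1))
    have ms : MeromorphicAt (fun τ => ∑ i, c i * zt 1 τ (z i τ)) τ₀ :=
      (Finset.analyticAt_fun_sum _ fun i _ =>
        analyticAt_const.mul (analyticAt_zt_arc (hz i) hτ (hzL i))).meromorphicAt
    have m1 := me.fun_mul (MeromorphicAt.const (w 0) τ₀)
    have m3 := mid.fun_mul me
    have m4 := m3.fun_sub (MeromorphicAt.const kap τ₀)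
    have m2 := m4.fun_mul (MeromorphicAt.const (w 1) τ₀)
    rw [← gm_sub ms (m1.fun_add m2)]
    congr 1
    rw [← gm_add m1 m2, ← gm_mul me (MeromorphicAt.const _ _),
      ← gm_mul m4 (MeromorphicAt.const _ _), ← gm_sub m3 (MeromorphicAt.const _ _),
      ← gm_mul mid me, gm_const, gm_const, gm_const]
    simp [P0, Matrix.mulVec, dotProduct, Fin.sum_univ_two]

end prep

/-! ### the transport of the equation -/

section transp

variable {C L C' M : Type*} [Field C] [Field L] [Algebra C L] [Field C'] [Field M] [Algebra C' M]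
  {ι : Type*} [Fintype ι]

/-- the equation for the combination of sections under a ring homomorphism -/
lemma eq_transport (Φ : L →+* M) (X : Derivation C L L) (D : Derivation C' M M) (h : M)
    (g2 g3 : L) (x y : ι → L) (F : Fin 2 → L) (cL : ι → L)
    (h2 : D (Φ g2) = h * Φ (X g2)) (h3 : D (Φ g3) = h * Φ (X g3))
    (hx : ∀ i, D (Φ (x i)) = h * Φ (X (x i))) (k : Fin 2) :
    (cM (Φ g2) (Φ g3) D *ᵥ (fun k => Φ (F k)) +
      ∑ i, Φ (cL i) • bV (Φ g2) (Φ g3) (Φ (x i)) (Φ (y i)) D) k =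
    h * Φ ((cM g2 g3 X *ᵥ F + ∑ i, cL i • bV g2 g3 (x i) (y i) X) k) := by
  simp only [Pi.add_apply, Finset.sum_apply, Pi.smul_apply, smul_eq_mul, map_add, map_sum,
    map_mul]
  rw [cM_transport Φ X D h h2 h3 F k, mul_add, Finset.mul_sum]
  congr 1
  refine Finset.sum_congr rfl fun i _ => ?_
  rw [bV_transport Φ X D h h2 h3 (hx i) k]
  ring

end transp

section main

variable {ι : Type} [Fintype ι] {τ₀ : ℂ}

/-- the first part of the proof: a countable field of definition and a transcendence basis -/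
theorem K1' (hind : AlgebraicIndependent ℂ ![gm τ₀ (fun τ => τ), gm τ₀ et, gm τ₀ gg2, gm τ₀ gg3])
    (hτ₀ : 0 < τ₀.im) (h2 : gg2 τ₀ ≠ 0) (h3 : gg3 τ₀ ≠ 0)
    (z : ι → ℂ → ℂ) (hz : ∀ i, AnalyticAt ℂ (z i) τ₀)
    (hzL : ∀ i, z i τ₀ ∉ Lam τ₀ ∧ wpd τ₀ (z i τ₀) ≠ 0)
    (c : ι → ℂ) (w : Fin 2 → ℂ)
    (H : ∀ X : Derivation ℂ (MG τ₀) (MG τ₀),
      ∑ i, algebraMap ℂ (MG τ₀) (c i) • vL ℂ (algebraMap ℂ (MG τ₀) kap) (gm τ₀ fun τ => τ)
        (gm τ₀ et) (gm τ₀ gg2) (gm τ₀ gg3) (gm τ₀ (z i)) (gm τ₀ fun τ => wp 1 τ (z i τ))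
        (gm τ₀ fun τ => wpd τ (z i τ)) (gm τ₀ fun τ => zt 1 τ (z i τ)) X =
      ThL ℂ (algebraMap ℂ (MG τ₀) kap) (gm τ₀ fun τ => τ) (gm τ₀ et) (gm τ₀ gg2) (gm τ₀ gg3) X *ᵥ
        (fun k => algebraMap ℂ (MG τ₀) (w k)))
    (ρ : ℂ →ₗ[ℚ] ℚ) : ∃ r s : ℚ, ∀ᶠ τ in 𝓝 τ₀, ∑ i, (ρ (c i) : ℂ) * z i τ = r + s * τ := by
  classical
  have hkap := kap_ne_zero
  have a2 := analyticAt_gg2 hτ₀
  have a3 := analyticAt_gg3 hτ₀
  have m2 := a2.meromorphicAt
  have m3 := a3.meromorphicAt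
  -- a ball where everything is analytic
  have hall : ∀ᶠ τ in 𝓝 τ₀, (0 < τ.im ∧ gg2 τ ≠ 0 ∧ gg3 τ ≠ 0) ∧ ∀ i, AnalyticAt ℂ (z i) τ ∧
      z i τ ∉ Lam τ ∧ wpd τ (z i τ) ≠ 0 := by
    have s1 : ∀ᶠ τ in 𝓝 τ₀, ∀ i, AnalyticAt ℂ (z i) τ ∧ z i τ ∉ Lam τ ∧ wpd τ (z i τ) ≠ 0 := by
      rw [Filter.eventually_all]
      intro i
      filter_upwards [(hz i).eventually_analyticAt, eventually_Dom (hz i) hτ₀ (hzL i).1,
        (analyticAt_wpd_arc (hz i) hτ₀ (hzL i).1).continuousAt.eventually_ne (hzL i).2]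
        with τ t1 t2 t3
      exact ⟨t1, t2.2, t3⟩
    filter_upwards [ev_im hτ₀, a2.continuousAt.eventually_ne h2, a3.continuousAt.eventually_ne h3,
      s1] with τ t1 t2 t3 t4
    exact ⟨⟨t1, t2, t3⟩, t4⟩
  obtain ⟨r, hr, hball⟩ := Metric.eventually_nhds_iff_ball.1 hall
  set U := Metric.ball τ₀ r with hU
  have hUo : IsOpen U := Metric.isOpen_ball
  have hUc : IsPreconnected U := (convex_ball τ₀ r).isPreconnected
  have hU0 : τ₀ ∈ U := Metric.mem_ball_self hr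
  set f := fK z c w with hf
  have hfan : ∀ t, AnalyticOnNhd ℂ (f t) U := fun t τ hτ =>
    analyticAt_fK z c w (hball τ hτ).1.1 (hball τ hτ).1.2.1 (fun i => ((hball τ hτ).2 i).1)
      (fun i => ((hball τ hτ).2 i).2.1) t
  have zL : ∀ i, z i τ₀ ∉ Lam τ₀ := fun i => (hzL i).1
  -- elements of the big field
  set κ : MG τ₀ := algebraMap ℂ (MG τ₀) kap with hκ
  have hκ0 : κ ≠ 0 := by rwa [hκ, Ne, map_eq_zero]
  set g2 := gm τ₀ gg2 with hg2
  set g3 := gm τ₀ gg3 with hg3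
  have hg20 : g2 ≠ 0 := gmz_ne a2 h2
  have hg30 : g3 ≠ 0 := gmz_ne a3 h3
  set x : ι → MG τ₀ := fun i => gm τ₀ fun τ => wp 1 τ (z i τ) with hx
  set y : ι → MG τ₀ := fun i => gm τ₀ fun τ => wpd τ (z i τ) with hy
  set ζ : ι → MG τ₀ := fun i => gm τ₀ fun τ => zt 1 τ (z i τ) with hζ
  set Fv := FV κ (gm τ₀ fun τ => τ) (gm τ₀ et) (fun i => gm τ₀ (z i)) ζ c w with hFv
  have hFvk : ∀ k, Fv k = gm τ₀ (f (Sum.inr (Sum.inr (Sum.inr k)))) := fun k =>
    FV_eq hτ₀ z c w hz zL k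
  have hratio : gm τ₀ (f (Sum.inl 0)) = g3 / g2 := (gm_div m3 m2).symm
  have hyy : ∀ i, y i ^ 2 = 4 * x i ^ 3 - g2 * x i - g3 := fun i => g_wpd_sq (hz i) hτ₀ (zL i)
  have hy0 : ∀ i, y i ≠ 0 := fun i => gmz_ne (analyticAt_wpd_arc (hz i) hτ₀ (zL i)) (hzL i).2
  -- the transcendence basis
  have hind2 : AlgebraicIndependent ℂ ![g2, g3] := by
    have h1 := hind.comp ![2, 3] (by
      intro i j
      fin_cases i <;> fin_cases j <;> simp)
    have h4 : (![gm τ₀ (fun τ => τ), gm τ₀ et, gm τ₀ gg2, gm τ₀ gg3] ∘ ![2, 3]) =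
        ![g2, g3] := by
      funext i
      fin_cases i <;> rfl
    rwa [h4] at h1
  have hindr := indep_ratio hind2
  set Fσ : Fin 2 ⊕ ι → MG τ₀ := Sum.elim ![g3 / g2, g2] x with hFσ
  set s0 : Finset (Fin 2 ⊕ ι) := {Sum.inl 0, Sum.inl 1} with hs0
  have hind0 : AlgebraicIndependent ℂ (fun i : s0 => Fσ i) := by
    let e : s0 → Fin 2 := fun i => Sum.elim id (fun _ => 0) i.1
    have hs0' : ∀ i : s0, i.1 = Sum.inl (e i) := by
      rintro ⟨i, hi⟩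
      simp only [hs0, Finset.mem_insert, Finset.mem_singleton] at hi
      rcases hi with rfl | rfl <;> rfl
    have he : Function.Injective e := by
      intro i j hij
      apply Subtype.ext
      rw [hs0' i, hs0' j, hij]
    have h1 := hindr.comp e he
    have h4 : (fun i : s0 => Fσ i) = ![g3 / g2, g2] ∘ e := by
      funext i
      rw [hs0' i]
      rfl
    rw [h4]
    exact h1
  obtain ⟨s, hs0s, hs, halg⟩ := exists_max_indep Fσ s0 hind0
  set b : s → MG τ₀ := fun i => Fσ i with hb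
  have hm0 : Sum.inl 0 ∈ s := hs0s (by simp [hs0])
  have hm1 : Sum.inl 1 ∈ s := hs0s (by simp [hs0])
  -- everything is algebraic
  have hkill : ∀ X : Derivation ℂ (MG τ₀) (MG τ₀), (∀ u ∈ Set.range b, X u = 0) →
      X g2 = 0 ∧ X g3 = 0 ∧ ∀ i, X (x i) = 0 := by
    intro X hX
    have h4 : ∀ j, X (Fσ j) = 0 := fun j =>
      der_zero_alg _ X (der_zero_adjoin _ X hX) _ (halg j)
    have h5 : X (g3 / g2) = 0 := h4 (Sum.inl 0)
    have h6 : X g2 = 0 := h4 (Sum.inl 1)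
    refine ⟨h6, ?_, fun i => h4 (Sum.inr i)⟩
    have h7 : g3 = g3 / g2 * g2 := by rw [div_mul_cancel₀ _ hg20]
    rw [h7, Derivation.leibniz, h5, h6, smul_zero, smul_zero, add_zero]
  have hv : ∀ t, IsAlgebraic (IntermediateField.adjoin ℂ (Set.range b)) (gm τ₀ (f t)) := by
    rintro (k | i | i | k)
    · fin_cases k
      · have h4 := halg (Sum.inl 0)
        have h5 : Fσ (Sum.inl 0) = gm τ₀ (f (Sum.inl 0)) := hratio.symm
        rw [h5] at h4
        exact h4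
      · exact halg (Sum.inl 1)
    · exact halg (Sum.inr i)
    · apply isAlgebraic_of_derivation
      intro X hX
      obtain ⟨t1, t2, t3⟩ := hkill X hX
      have h4 := congrArg X (hyy i)
      have h5 : X (4 : MG τ₀) = 0 := by
        have := X.map_natCast 4
        simpa using this
      simp only [Derivation.leibniz_pow, map_sub, Derivation.leibniz, t1, t2, t3, h5, smul_zero,
        add_zero, sub_zero, smul_eq_mul, mul_zero, nsmul_eq_mul] at h4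
      have h6 : y i * X (y i) = 0 := by
        have h7 : (2 : MG τ₀) * (y i * X (y i)) = 0 := by
          simpa using h4
        exact (mul_eq_zero.1 h7).resolve_left two_ne_zero
      exact (mul_eq_zero.1 h6).resolve_left (hy0 i)
    · apply isAlgebraic_of_derivation
      intro X hX
      obtain ⟨t1, t2, t3⟩ := hkill X hX
      rw [← hFvk k]
      exact FV_der_zero hκ0 _ x y ζ c w X (H X) t1 t2 t3 k
  obtain ⟨C0, hC0c, hcC0, hdep⟩ := exists_countable_field (b := b) (fun t => gm τ₀ (f t)) hv c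
  have hbC0 : AlgebraicIndependent C0 b := hs.restrictScalars (algebraMap C0 ℂ).injective
  -- the field generated by the germs over the countable field
  have hmemL : ∀ t, gm τ₀ (f t) ∈
      IntermediateField.adjoin C0 (Set.range fun t => gm τ₀ (f t)) := fun t =>
    IntermediateField.subset_adjoin C0 _ ⟨t, rfl⟩
  have hσ : ∀ j : Fin 2 ⊕ ι, ∃ t, Fσ j = gm τ₀ (f t) := by
    rintro (k | i)
    · fin_cases k
      · exact ⟨Sum.inl 0, hratio.symm⟩
      · exact ⟨Sum.inl 1, rfl⟩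
    · exact ⟨Sum.inr (Sum.inl i), rfl⟩
  have hbL : ∀ i : s, b i ∈ IntermediateField.adjoin C0 (Set.range fun t => gm τ₀ (f t)) := by
    intro i
    obtain ⟨t, ht⟩ := hσ i
    change Fσ i ∈ _
    rw [ht]
    exact hmemL t
  obtain ⟨hb', hfd⟩ := fin_setup hbC0 (fun t => gm τ₀ (f t)) hdep hbL
  obtain ⟨E, hE, hev⟩ := exists_ev C0 hUo hUc hU0 f hfan
  set L := IntermediateField.adjoin C0 (Set.range fun t => gm τ₀ (f t)) with hL
  set b' : s → L := fun i => ⟨b i, hbL i⟩ with hb'def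
  set κL : L := ⟨gm τ₀ (f (Sum.inl 0)), hmemL _⟩ with hκL
  set g2L : L := ⟨gm τ₀ (f (Sum.inl 1)), hmemL _⟩ with hg2L
  set xL : ι → L := fun i => ⟨gm τ₀ (f (Sum.inr (Sum.inl i))), hmemL _⟩ with hxL
  set yL : ι → L := fun i => ⟨gm τ₀ (f (Sum.inr (Sum.inr (Sum.inl i)))), hmemL _⟩ with hyL
  set FL : Fin 2 → L := fun k => ⟨gm τ₀ (f (Sum.inr (Sum.inr (Sum.inr k)))), hmemL _⟩ with hFL
  set cL : ι → L := fun i => algebraMap C0 L ⟨c i, hcC0 i⟩ with hcL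
  have hb0 : b' ⟨Sum.inl 0, hm0⟩ = κL := Subtype.ext hratio.symm
  have hb1 : b' ⟨Sum.inl 1, hm1⟩ = g2L := rfl
  have hc3 : ((κL * g2L : L) : MG τ₀) = g3 := by
    change gm τ₀ (f (Sum.inl 0)) * g2 = g3
    rw [hratio, div_mul_cancel₀ _ hg20]
  -- the derivation
  obtain ⟨Xt, hXt⟩ := exists_derivation hs
    (fun i : s => if i.1 = Sum.inl 1 then (1 : MG τ₀) else 0)
  obtain ⟨X', hX'b, hX'⟩ := der_restrict L b' hb' (Xt.restrictScalars C0)
    (fun i : s => if i.1 = Sum.inl 1 then (1 : L) else 0) (by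
      intro i
      change Xt (b i) = _
      rw [hXt i]
      split_ifs <;> rfl)
  have hXtL : ∀ u : L, Xt (u : MG τ₀) = (X' u : MG τ₀) := fun u => hX' u
  -- the equations in the small field
  have hyyL : ∀ i, yL i ^ 2 = 4 * xL i ^ 3 - g2L * xL i - κL * g2L := by
    intro i
    apply Subtype.ext
    have h4 := hyy i
    rw [← hc3] at h4
    exact h4
  have hDL : ∀ k, X' (FL k) = (cM g2L (κL * g2L) X' *ᵥ FL +
      ∑ i, cL i • bV g2L (κL * g2L) (xL i) (yL i) X') k := by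
    intro k
    have h4 := congrFun (FV_der hκ0 (fun i => gm τ₀ (z i)) x y ζ c w Xt (H Xt)) k
    have h5 := eq_transport L.val.toRingHom X' Xt 1 g2L (κL * g2L) xL yL FL cL
      (by rw [one_mul]; exact hXtL g2L) (by rw [one_mul]; exact hXtL (κL * g2L))
      (fun i => by rw [one_mul]; exact hXtL (xL i)) k
    apply Subtype.ext
    rw [← hXtL]
    have h6 : ((FL k : L) : MG τ₀) = Fv k := (hFvk k).symm
    rw [h6]
    refine Eq.trans h4 ?_
    rw [one_mul] at h5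
    refine Eq.trans ?_ h5
    have h7 : (fun k => L.val.toRingHom (FL k)) = Fv := by
      funext k
      exact (hFvk k).symm
    have h8 : L.val.toRingHom (κL * g2L) = g3 := hc3
    rw [h7, h8]
    rfl
  have hX'0 : X' κL = 0 := by
    rw [← hb0, hX'b]
    simp
  have hX'1 : X' g2L = 1 := by
    rw [← hb1, hX'b]
    simp
  -- the pointwise statement
  have key : ∀ τ₁ ∈ U, τ₁ ∉ E → ∃ r s : ℚ, ∑ i, (ρ (c i) : ℂ) * z i τ₁ = r + s * τ₁ := by
    intro τ₁ hτU hτE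
    obtain ⟨⟨t1, t2, t3⟩, t4⟩ := hball τ₁ hτU
    obtain ⟨ev, hev1⟩ := hev τ₁ hτU hτE
    set k : ℂ := gg3 τ₁ / gg2 τ₁ with hk
    set G' : Fin 2 ⊕ ι → ℂ → ℂ := Sum.elim ![fun _ => k, fun τ => k ^ 2 * jt τ]
      (fun i _ => wp 1 τ₁ (z i τ₁)) with hG'
    have aj : AnalyticAt ℂ jt τ₁ := analytic_jt t1 t3
    have hG : ∀ i : s, AnalyticAt ℂ (G' i.1) τ₁ := by
      rintro ⟨(k | i), hi⟩
      · fin_cases k
        · exact analyticAt_const
        · exact analyticAt_const.mul aj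
      · exact analyticAt_const
    have hG1 : ∀ i : s, G' i.1 τ₁ = ev (b' i) := by
      rintro ⟨(k | i), hi⟩
      · fin_cases k
        · have e1 : b' ⟨Sum.inl 0, hi⟩ = κL := hb0
          change k = ev (b' ⟨Sum.inl 0, hi⟩)
          rw [e1, hκL, hev1]
          rfl
        · have e1 : b' ⟨Sum.inl 1, hi⟩ = g2L := hb1
          change k ^ 2 * jt τ₁ = ev (b' ⟨Sum.inl 1, hi⟩)
          rw [e1, hg2L, hev1]
          change k ^ 2 * jt τ₁ = gg2 τ₁
          rw [hk, jt]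
          field_simp
      · change wp 1 τ₁ (z i τ₁) = ev (xL i)
        rw [hxL, hev1]
        rfl
    obtain ⟨Φ, hΦC, hΦb, hΦan, hΦD⟩ := SP b' hb' ev τ₁ (fun i : s => G' i.1) hG hG1
    have hΦκ : Φ κL = algebraMap ℂ (MG τ₁) k := by
      rw [← hb0, hΦb]
      exact (MG.algebraMap_eq k).symm
    have hΦg : Φ g2L = gm τ₁ (fun τ => k ^ 2 * jt τ) := by
      have m1 : MeromorphicAt (fun τ => k ^ 2 * jt τ) τ₁ :=
        (MeromorphicAt.const _ _).fun_mul aj.meromorphicAt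
      rw [← hb1, hΦb, gm_mk m1]
      rfl
    have hDΦ := hΦD X' (MG.DD (Φ g2L)) (by
      rintro ⟨(j | i), hi⟩
      · fin_cases j
        · change MG.DD (Φ (b' ⟨Sum.inl 0, hm0⟩)) = _ * Φ (X' (b' ⟨Sum.inl 0, hm0⟩))
          rw [hb0, hΦκ, hX'0, map_zero, mul_zero]
          exact MG.DD.map_algebraMap k
        · change MG.DD (Φ (b' ⟨Sum.inl 1, hm1⟩)) = _ * Φ (X' (b' ⟨Sum.inl 1, hm1⟩))
          rw [hb1, hX'1, map_one, mul_one]
      · rw [hX'b, if_neg (by simp), map_zero, mul_zero, hΦb]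
        exact MG.DD.map_algebraMap (wp 1 τ₁ (z i τ₁)))
    have hIs : ∀ u, SpecAux.IsAn (Φ u) (ev u) := hΦan
    have hint : ∀ u ∈ IntermediateField.adjoin C0 (Set.range b'),
        Φ u ∈ IntermediateField.adjoin ℂ {gm τ₁ jt} := by
      intro u hu
      induction hu using IntermediateField.adjoin_induction with
      | mem u hu =>
        obtain ⟨⟨(j | i), hi⟩, rfl⟩ := hu
        · fin_cases j
          · have e1 : Φ (b' ⟨Sum.inl 0, hi⟩) = algebraMap ℂ (MG τ₁) k := by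
              have e2 : b' ⟨Sum.inl 0, hi⟩ = κL := hb0
              rw [e2, hΦκ]
            change Φ (b' ⟨Sum.inl 0, hi⟩) ∈ _
            rw [e1]
            exact IntermediateField.algebraMap_mem _ _
          · have e1 : Φ (b' ⟨Sum.inl 1, hi⟩) = algebraMap ℂ (MG τ₁) (k ^ 2) * gm τ₁ jt := by
              have e2 : b' ⟨Sum.inl 1, hi⟩ = g2L := hb1
              rw [e2, hΦg, ← gm_const, gm_mul (MeromorphicAt.const _ _) aj.meromorphicAt]
            change Φ (b' ⟨Sum.inl 1, hi⟩) ∈ _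
            rw [e1]
            exact mul_mem (IntermediateField.algebraMap_mem _ _)
              (IntermediateField.mem_adjoin_simple_self ℂ _)
        · have e1 : Φ (b' ⟨Sum.inr i, hi⟩) = algebraMap ℂ (MG τ₁) (wp 1 τ₁ (z i τ₁)) := by
            rw [hΦb]
            exact (MG.algebraMap_eq _).symm
          rw [e1]
          exact IntermediateField.algebraMap_mem _ _
      | algebraMap a =>
        rw [hΦC]
        exact IntermediateField.algebraMap_mem _ _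
      | add u v _ _ h1 h2 => rw [map_add]; exact add_mem h1 h2
      | inv u _ h => rw [map_inv₀]; exact inv_mem h
      | mul u v _ _ h1 h2 => rw [map_mul]; exact mul_mem h1 h2
    have halgΦ : ∀ u : L, IsAlgebraic (IntermediateField.adjoin ℂ {gm τ₁ jt}) (Φ u) := fun u =>
      alg_image (IntermediateField.adjoin C0 (Set.range b')) Φ _ hint u
    have hg3Φ : Φ (κL * g2L) = algebraMap ℂ (MG τ₁) k * Φ g2L := by
      rw [map_mul, hΦκ]
    have hcΦ : ∀ i, Φ (cL i) = algebraMap ℂ (MG τ₁) (c i) := fun i => hΦC _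
    have hfinD : (fun k => MG.DD (Φ (FL k))) = cM (Φ g2L) (Φ (κL * g2L)) MG.DD *ᵥ
        (fun k => Φ (FL k)) + ∑ i, algebraMap ℂ (MG τ₁) (c i) •
          bV (Φ g2L) (Φ (κL * g2L)) (Φ (xL i)) (Φ (yL i)) MG.DD := by
      funext k
      have h5 := eq_transport Φ X' MG.DD (MG.DD (Φ g2L)) g2L (κL * g2L) xL yL FL cL
        (hDΦ _) (hDΦ _) (fun i => hDΦ _) k
      rw [hDΦ, hDL k, ← h5]
      simp only [hcΦ]
    refine K1loc t1 t2 t3 (fun i => z i τ₁) (fun i => (t4 i).2) (Φ g2L) (Φ (κL * g2L))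
      (fun i => Φ (xL i)) (fun i => Φ (yL i)) (fun k => Φ (FL k)) hΦg hg3Φ ?_ ?_
      (fun k => ev (FL k)) (fun k => hIs (FL k)) ?_ c hfinD (fun i => halgΦ (xL i))
      (halgΦ (FL 0)) ρ
    · intro i
      have h5 := hIs (xL i)
      have h6 : ev (xL i) = wp 1 τ₁ (z i τ₁) := by
        rw [hxL, hev1]
        rfl
      rwa [h6] at h5
    · intro i
      have h5 := hIs (yL i)
      have h6 : ev (yL i) = wpd τ₁ (z i τ₁) := by
        rw [hyL, hev1]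
        rfl
      rwa [h6] at h5
    · intro i
      have h5 := congrArg Φ (hyyL i)
      simpa only [map_pow, map_sub, map_mul, map_ofNat] using h5
  -- the countability argument
  by_contra hcon
  push Not at hcon
  set gf : ℚ × ℚ → ℂ → ℂ := fun q τ => ∑ i, (ρ (c i) : ℂ) * z i τ - (q.1 + q.2 * τ) with hgf
  have hga : ∀ q, AnalyticOnNhd ℂ (gf q) U := fun q τ hτ =>
    (Finset.analyticAt_fun_sum _ fun i _ => analyticAt_const.mul ((hball τ hτ).2 i).1).sub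
      (analyticAt_const.add (analyticAt_const.mul analyticAt_id))
  have hgz : ∀ q, {τ | τ ∈ U ∧ gf q τ = 0}.Countable := by
    intro q
    refine zeros_countable hUc (hga q) ?_
    by_contra hz0
    push Not at hz0
    apply hcon q.1 q.2
    filter_upwards [hUo.mem_nhds hU0] with τ hτ h
    exact h (sub_eq_zero.1 (hz0 τ hτ))
  have hcount : (E ∪ ⋃ q : ℚ × ℚ, {τ | τ ∈ U ∧ gf q τ = 0}).Countable :=
    hE.union (Set.countable_iUnion hgz)
  obtain ⟨τ, hτU, hτ⟩ := (hcount.dense_compl ℝ).inter_open_nonempty U hUo ⟨τ₀, hU0⟩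
  apply hτ
  by_cases hτE : τ ∈ E
  · exact Or.inl hτE
  · obtain ⟨r', s', hrs⟩ := key τ hτU hτE
    exact Or.inr (Set.mem_iUnion.2 ⟨(r', s'), hτU, sub_eq_zero.2 hrs⟩)

end main

end Pool.Agent.Work.MP_8da9ea_nt

end

section

/-!
# The normalised theorem
-/

set_option autoImplicit false

namespace Pool.Agent.Work.MP_8da9ea_nt

open Complex Filter Topology MvPolynomial

/-- the functions along an arc -/
noncomputable def GG {ι κ' : Type} (z : ι → ℂ → ℂ) (t : κ' → ℂ → ℂ) : SSa ι κ' → ℂ → ℂ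
  | Sum.inl k => ![fun τ => τ, et, gg2, gg3] k
  | Sum.inr (Sum.inl (k, i)) => ![z i, fun τ => wp 1 τ (z i τ), fun τ => wpd τ (z i τ),
      fun τ => zt 1 τ (z i τ)] k
  | Sum.inr (Sum.inr (k, l)) => ![t l, fun τ => exp (t l τ)] k

/-- the index of a function -/
def asIdx {ι κ' : Type} (J : Finset κ') : Fin 4 ⊕ ((Fin 3 × ι) ⊕ (Fin 2 × J)) → SSa ι κ'
  | Sum.inl k => Sum.inl k
  | Sum.inr (Sum.inl (k, i)) => Sum.inr (Sum.inl (![0, 1, 3] k, i))
  | Sum.inr (Sum.inr (k, l)) => Sum.inr (Sum.inr (k, l))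

lemma notMem_of_indep {n : ℕ} {τ : ℂ} (z : Fin n → ℂ)
    (hzi : ∀ (m : Fin n → ℤ) (a b : ℤ), ∑ i, (m i : ℂ) * z i = a + b * τ → m = 0) (i : Fin n)
    (N : ℤ) (hN : N ≠ 0) : (N : ℂ) * z i ∉ Lam τ := by
  rintro ⟨q, hq⟩
  have h1 := hzi (Pi.single i N) q.1 q.2 (by
    rw [Finset.sum_eq_single i]
    · rw [Pi.single_eq_same, ← hq, lp]
      ring
    · intro j _ hj
      rw [Pi.single_eq_of_ne hj]
      simp
    · intro h
      exact absurd (Finset.mem_univ i) h)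
  have h2 := congrFun h1 i
  rw [Pi.single_eq_same] at h2
  exact hN h2

lemma gg_zeros : ({τ : ℂ | 0 < τ.im ∧ (gg2 τ = 0 ∨ gg3 τ = 0)}).Countable := by
  have hU : IsPreconnected {τ : ℂ | 0 < τ.im} := by
    have := preconnected_half (S := ∅) Set.countable_empty
    simpa using this
  have hne : ∀ f : ℂ → ℂ, (∀ τ, 0 < τ.im → AnalyticAt ℂ f τ) → gm I f ≠ 0 →
      {τ : ℂ | 0 < τ.im ∧ f τ = 0}.Countable := by
    intro f hf h0
    have h1 := zeros_countable hU (f := f) (fun τ hτ => hf τ hτ) (by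
      by_contra hcon
      push Not at hcon
      apply h0
      have h2 : gm I f = gm I (fun _ => 0) := by
        have hI : (0 : ℝ) < (I : ℂ).im := by simp
        refine gm_eq_of (hf I hI) ?_
        filter_upwards [eventually_im hI] with τ hτ
        exact hcon τ hτ
      rw [h2, gm_const, map_zero])
    exact h1
  have hI : (0 : ℝ) < (I : ℂ).im := by simp
  have hind := hindep hI
  have h2 : gm I gg2 ≠ 0 := hind.ne_zero 2
  have h3 : gm I gg3 ≠ 0 := hind.ne_zero 3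
  refine ((hne gg2 (fun τ h => analyticAt_gg2 h) h2).union
    (hne gg3 (fun τ h => analyticAt_gg3 h) h3)).mono ?_
  rintro τ ⟨h, h' | h'⟩
  · exact Or.inl ⟨h, h'⟩
  · exact Or.inr ⟨h, h'⟩

/-- **The normalised theorem.** -/
theorem norm_case (n s : ℕ) : ∃ E : Set ℂ, E.Countable ∧ ∀ τ : ℂ, 0 < τ.im → τ ∉ E →
    ∀ z : Fin n → ℂ,
      (∀ (m : Fin n → ℤ) (a b : ℤ), ∑ i, (m i : ℂ) * z i = a + b * τ → m = 0) →
    ∀ t : Fin s → ℂ, ∃ (J : Finset (Fin s)) (N : Fin s → ℤ) (m : Fin s → J → ℤ),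
      (∀ l, N l ≠ 0) ∧ ∃ S : Finset (Fin 4 ⊕ ((Fin 3 × Fin n) ⊕ (Fin 2 × J))),
        AlgebraicIndependent (IntermediateField.adjoin ℚ ({kap} ∪
          Set.range (fun l => (N l : ℂ) * t l - ∑ j, (m l j : ℂ) * t j) ∪
          Set.range (fun l => exp ((N l : ℂ) * t l - ∑ j, (m l j : ℂ) * t j))))
          (fun i : S => asF τ (et τ) (gg2 τ) (gg3 τ) z (fun i => wp 1 τ (z i))
            (fun i => zt 1 τ (z i)) (fun j : J => t j) (fun j : J => exp (t j)) i) ∧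
        4 + 2 * n + J.card ≤ S.card := by
  classical
  obtain ⟨E, hE, harc⟩ := exists_arcs_FF (Fin n) (Fin s)
  refine ⟨E ∪ {τ : ℂ | 0 < τ.im ∧ (gg2 τ = 0 ∨ gg3 τ = 0)}, hE.union gg_zeros, ?_⟩
  intro τ₀ hτ₀ hτE z hzi t
  have hτE1 : τ₀ ∉ E := fun h => hτE (Or.inl h)
  have hg2 : gg2 τ₀ ≠ 0 := fun h => hτE (Or.inr ⟨hτ₀, Or.inl h⟩)
  have hg3 : gg3 τ₀ ≠ 0 := fun h => hτE (Or.inr ⟨hτ₀, Or.inr h⟩)
  set x : NN (Fin n) (Fin s) → ℂ := fun o => o.elim τ₀ (Sum.elim z t) with hx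
  have hxD : x ∈ DD' (Fin n) (Fin s) := by
    refine ⟨hτ₀, fun i => ?_⟩
    have := notMem_of_indep z hzi i 1 one_ne_zero
    rw [Int.cast_one, one_mul] at this
    exact this
  obtain ⟨γ, hγ, hγ0, hγτ, hγP⟩ := harc x hxD hτE1
  have hxn : x none = τ₀ := rfl
  rw [hxn] at hγ hγ0 hγτ hγP
  set zc : Fin n → ℂ → ℂ := fun i τ => γ τ (some (Sum.inl i)) with hzc
  set tc : Fin s → ℂ → ℂ := fun l τ => γ τ (some (Sum.inr l)) with htc
  have hγa : ∀ o, AnalyticAt ℂ (fun τ => γ τ o) τ₀ := fun o =>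
    (ContinuousLinearMap.proj (R := ℂ) (φ := fun _ : NN (Fin n) (Fin s) => ℂ) o).analyticAt _
      |>.fun_comp hγ
  have hzca : ∀ i, AnalyticAt ℂ (zc i) τ₀ := fun i => hγa _
  have htca : ∀ l, AnalyticAt ℂ (tc l) τ₀ := fun l => hγa _
  have hzc0 : ∀ i, zc i τ₀ = z i := by
    intro i
    simp only [hzc, hγ0]
    rfl
  have htc0 : ∀ l, tc l τ₀ = t l := by
    intro l
    simp only [htc, hγ0]
    rfl
  have hzL : ∀ i, zc i τ₀ ∉ Lam τ₀ ∧ wpd τ₀ (zc i τ₀) ≠ 0 := by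
    intro i
    rw [hzc0]
    refine ⟨hxD.2 i, fun h => ?_⟩
    have h1 := wpd_zero hτ₀ (hxD.2 i) h
    have h2 := notMem_of_indep z hzi i 2 two_ne_zero
    exact h2 (by push_cast; exact h1)
  -- the germs
  set G : SSa (Fin n) (Fin s) → ℂ → ℂ := GG zc tc with hG
  have hGa : ∀ s, AnalyticAt ℂ (G s) τ₀ := by
    rintro (k | ⟨k, i⟩ | ⟨k, l⟩)
    · fin_cases k
      · exact analyticAt_id
      · exact analyticAt_et hτ₀
      · exact analyticAt_gg2 hτ₀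
      · exact analyticAt_gg3 hτ₀
    · fin_cases k
      · exact hzca i
      · exact analyticAt_wp_arc (hzca i) hτ₀ (hzL i).1
      · exact analyticAt_wpd_arc (hzca i) hτ₀ (hzL i).1
      · exact analyticAt_zt_arc (hzca i) hτ₀ (hzL i).1
    · fin_cases k
      · exact htca l
      · exact (htca l).cexp
  have hGγ : ∀ᶠ τ in 𝓝 τ₀, FFa (γ τ) = fun s => G s τ := by
    filter_upwards [hγτ] with τ hτ
    funext s
    rcases s with k | ⟨k, i⟩ | ⟨k, l⟩
    · fin_cases k <;> simp [FFa, hG, GG, hτ]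
    · fin_cases k <;> simp [FFa, hG, GG, hτ, hzc]
    · fin_cases k <;> simp [FFa, hG, GG, htc]
  have hG0 : FFa x = fun s => G s τ₀ := by
    have := hGγ.self_of_nhds
    rwa [hγ0] at this
  have hrel : ∀ P : MvPolynomial (SSa (Fin n) (Fin s)) kF,
      aeval (FFa x) P = 0 ↔ aeval (fun s => gm τ₀ (G s)) P = 0 := by
    intro P
    obtain ⟨h1, h2⟩ := gm_aeval G hGa P
    rw [h2]
    constructor
    · intro h
      have h3 := hγP P h
      have h4 : (fun τ => aeval (fun s => G s τ) P) =ᶠ[𝓝 τ₀] fun _ => (0 : ℂ) := by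
        filter_upwards [h3, hGγ] with τ h5 h6
        rw [← h6]
        exact h5
      rw [gm_eq_of h1 h4, gm_const, map_zero]
    · intro h
      have h3 : gm τ₀ (fun τ => aeval (fun s => G s τ) P) = gm τ₀ (fun _ => 0) := by
        rw [h, gm_const, map_zero]
      have h4 := (gm_eq_iff h1 analyticAt_const).1 h3
      rw [hG0]
      exact h4.self_of_nhds
  have hmem : ∀ s, FFa x s ∈ IntermediateField.adjoin kF (Set.range (FFa x)) :=
    fun s => IntermediateField.subset_adjoin _ _ ⟨s, rfl⟩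
  obtain ⟨Kx, hmem, φ, hφ⟩ : ∃ (Kx : IntermediateField kF ℂ) (_ : ∀ s, FFa x s ∈ Kx)
      (φ : Kx →ₐ[kF] MG τ₀), ∀ s (hs : FFa x s ∈ Kx), φ ⟨FFa x s, hs⟩ = gm τ₀ (G s) :=
    ⟨_, hmem, exists_phi (FFa x) (fun s => gm τ₀ (G s)) hrel⟩
  obtain ⟨J, hJ, hJ'⟩ := select tc htca
  choose N m c hN hm using hJ'
  have hc : ∀ l, c l = (N l : ℂ) * t l - ∑ j, (m l j : ℂ) * t j := by
    intro l
    have := (hm l).self_of_nhds
    simp only [htc0] at this
    exact this.symm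
  refine ⟨J, N, m, hN, ?_⟩
  obtain ⟨S, hS, hScard⟩ := core_arc hτ₀ zc hzca hzL (by
    intro m a b h
    refine hzi m a b ?_
    simpa only [hzc0] using h) (fun j : J => tc j) (fun j => htca j) hJ
    (fun c w H ρ => K1' (hindep hτ₀) hτ₀ hg2 hg3 zc hzca hzL c w H ρ)
  refine ⟨S, ?_, by simpa using hScard⟩
  -- elements of the field and their images
  have ht_mem : ∀ l, t l ∈ Kx := fun l => hmem (Sum.inr (Sum.inr (0, l)))
  have he_mem : ∀ l, exp (t l) ∈ Kx := fun l => hmem (Sum.inr (Sum.inr (1, l)))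
  have hφt : ∀ l, φ ⟨t l, ht_mem l⟩ = gm τ₀ (tc l) := fun l => hφ (Sum.inr (Sum.inr (0, l))) _
  have hφe : ∀ l, φ ⟨exp (t l), he_mem l⟩ = gm τ₀ (fun τ => exp (tc l τ)) :=
    fun l => hφ (Sum.inr (Sum.inr (1, l))) _
  have hint_mem : ∀ k : ℤ, (k : ℂ) ∈ Kx := fun k => intCast_mem Kx k
  have hsum_mem : ∀ l, ∑ j : J, (m l j : ℂ) * t j ∈ Kx := fun l =>
    sum_mem fun j _ => mul_mem (hint_mem _) (ht_mem _)
  have htm : ∀ l, (N l : ℂ) * t l - ∑ j, (m l j : ℂ) * t j ∈ Kx := fun l =>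
    sub_mem (mul_mem (hint_mem _) (ht_mem _)) (hsum_mem l)
  have hexp_eq : ∀ (l : Fin s) (u : Fin s → ℂ), exp ((N l : ℂ) * u l - ∑ j : J, (m l j : ℂ) * u j) =
      exp (u l) ^ N l * ∏ j : J, exp (u j) ^ (-m l j) := by
    intro l u
    rw [sub_eq_add_neg, Complex.exp_add, ← Finset.sum_neg_distrib, Complex.exp_sum,
      Complex.exp_int_mul]
    congr 1
    refine Finset.prod_congr rfl fun j _ => ?_
    rw [← Complex.exp_int_mul]
    push_cast
    ring_nf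
  have hexpm : ∀ l, exp ((N l : ℂ) * t l - ∑ j, (m l j : ℂ) * t j) ∈ Kx := by
    intro l
    rw [hexp_eq l t]
    exact mul_mem (zpow_mem (he_mem _) _) (prod_mem fun j _ => zpow_mem (he_mem _) _)
  refine transfer Kx (φ : Kx →+* MG τ₀) _ ?_ _ (fun i => ?_) _ (fun i => ?_) hS
  · refine fixed_adjoin Kx (φ : Kx →+* MG τ₀) _ ?_
    rintro u ((hu | ⟨l, rfl⟩) | ⟨l, rfl⟩)
    · rw [Set.mem_singleton_iff] at hu
      subst hu
      have h1 : kap ∈ Kx := Kx.algebraMap_mem ⟨kap, kap_mem_kF⟩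
      refine ⟨h1, ?_⟩
      exact φ.commutes ⟨kap, kap_mem_kF⟩
    · refine ⟨htm l, ?_⟩
      have h1 : (⟨(N l : ℂ) * t l - ∑ j, (m l j : ℂ) * t j, htm l⟩ : Kx) =
          (N l : Kx) * ⟨t l, ht_mem l⟩ - ∑ j : J, (m l j : Kx) * ⟨t j, ht_mem j⟩ := by
        apply Subtype.ext
        push_cast
        rfl
      simp only
      rw [h1]
      change φ _ = _
      rw [map_sub, map_mul, map_sum, map_intCast, hφt]
      have h2 : ∀ j : J, φ ((m l j : Kx) * ⟨t j, ht_mem j⟩) = (m l j : MG τ₀) * gm τ₀ (tc j) := by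
        intro j
        rw [map_mul, map_intCast, hφt]
      simp only [h2]
      have hmer : ∀ l, MeromorphicAt (tc l) τ₀ := fun l => (htca l).meromorphicAt
      have hA : AnalyticAt ℂ (fun τ => ((N l : ℤ) : ℂ) * tc l τ - ∑ j : J, (m l j : ℂ) * tc j τ) τ₀ := by
        refine (analyticAt_const.mul (htca l)).sub ?_
        exact Finset.analyticAt_fun_sum _ fun j _ => analyticAt_const.mul (htca j)
      have hS' : MeromorphicAt (fun τ => ∑ j : J, (m l j : ℂ) * tc j τ) τ₀ :=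
        (Finset.analyticAt_fun_sum _ fun (j : J) _ => analyticAt_const.mul (htca j)).meromorphicAt
      rw [gm_comb Finset.univ (m l) (fun j : J => tc j) (fun j => hmer j), gm_intCast,
        gm_mul (MeromorphicAt.const _ _) (hmer l),
        gm_sub ((MeromorphicAt.const _ _).fun_mul (hmer l)) hS', ← gm_const, ← hc l]
      exact gm_eq_of hA (hm l)
    · refine ⟨hexpm l, ?_⟩
      have h0 : ∀ j : J, exp (t j) ^ (-m l j) ∈ Kx := fun j => zpow_mem (he_mem _) _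
      have h1 : (⟨exp ((N l : ℂ) * t l - ∑ j, (m l j : ℂ) * t j), hexpm l⟩ : Kx) =
          (⟨exp (t l), he_mem l⟩ : Kx) ^ N l * ∏ j : J, (⟨exp (t j), he_mem j⟩ : Kx) ^ (-m l j) := by
        apply Subtype.ext
        change exp ((N l : ℂ) * t l - ∑ j, (m l j : ℂ) * t j) =
          Kx.val ((⟨exp (t l), he_mem l⟩ : Kx) ^ N l *
            ∏ j : J, (⟨exp (t j), he_mem j⟩ : Kx) ^ (-m l j))
        rw [map_mul, map_zpow₀, map_prod, hexp_eq l t]
        congr 1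
      simp only
      rw [h1]
      change φ _ = _
      rw [map_mul, map_zpow₀, map_prod, hφe]
      have h2 : ∀ j : J, φ ((⟨exp (t j), he_mem j⟩ : Kx) ^ (-m l j)) =
          gm τ₀ (fun τ => exp (tc j τ) ^ (-m l j)) := by
        intro j
        rw [map_zpow₀, hφe, gm_zpow (f := fun τ => exp (tc j τ)) ((htca j).cexp.meromorphicAt)]
      simp only [h2]
      have hmer : ∀ j : J, MeromorphicAt (fun τ => exp (tc j τ) ^ (-m l j)) τ₀ := fun j =>
        ((htca j).cexp.meromorphicAt).fun_zpow _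
      obtain ⟨h3, h4⟩ := gm_prod Finset.univ (fun (j : J) τ => exp (tc j τ) ^ (-m l j)) hmer
      have h5 : MeromorphicAt (fun τ => exp (tc l τ)) τ₀ := (htca l).cexp.meromorphicAt
      rw [h4, gm_zpow h5, gm_mul (h5.fun_zpow _) h3, ← gm_const]
      have hA : AnalyticAt ℂ (fun _ : ℂ => exp ((N l : ℂ) * t l - ∑ j, (m l j : ℂ) * t j)) τ₀ :=
        analyticAt_const
      refine (gm_eq_of hA ?_).symm
      filter_upwards [hm l] with τ hτ
      rw [← hexp_eq l (fun l => tc l τ), hτ, hc l]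
  · rcases i with ⟨k | ⟨k, i⟩ | ⟨k, l⟩, hi⟩
    · fin_cases k
      · exact hmem (Sum.inl 0)
      · exact hmem (Sum.inl 1)
      · exact hmem (Sum.inl 2)
      · exact hmem (Sum.inl 3)
    · fin_cases k
      · exact hmem (Sum.inr (Sum.inl (0, i)))
      · exact hmem (Sum.inr (Sum.inl (1, i)))
      · exact hmem (Sum.inr (Sum.inl (3, i)))
    · fin_cases k
      · exact hmem (Sum.inr (Sum.inr (0, l)))
      · exact hmem (Sum.inr (Sum.inr (1, l)))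
  · rcases i with ⟨k | ⟨k, i⟩ | ⟨k, l⟩, hi⟩
    · fin_cases k
      · exact hφ (Sum.inl 0) _
      · exact hφ (Sum.inl 1) _
      · exact hφ (Sum.inl 2) _
      · exact hφ (Sum.inl 3) _
    · fin_cases k
      · exact hφ (Sum.inr (Sum.inl (0, i))) _
      · exact hφ (Sum.inr (Sum.inl (1, i))) _
      · exact hφ (Sum.inr (Sum.inl (3, i))) _
    · fin_cases k
      · exact hφ (Sum.inr (Sum.inr (0, l))) _
      · exact hφ (Sum.inr (Sum.inr (1, l))) _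

end Pool.Agent.Work.MP_8da9ea_nt

end

section

/-!
# The theorem for all points
-/

set_option autoImplicit false

namespace Pool.Agent.Work.MP_8da9ea_nt

open Complex Filter Topology Submodule

lemma HasTrdeg.mono {K L : IntermediateField ℚ ℂ} (h : K ≤ L) {d e : ℕ} (hde : e ≤ d)
    (hK : HasTrdeg K d) : HasTrdeg L e := by
  obtain ⟨x, hx, hxi⟩ := hK
  exact ⟨fun j => x (Fin.castLE hde j), fun j => h (hx _), hxi.comp _ (Fin.castLE_injective hde)⟩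

/-- lower bound for the toric part -/
lemma tbound2 {s : ℕ} (t : Fin s → ℂ) (ht : (∀ l, IsAlgebraic ℚ (t l)) ∨ tDim t ≤ 1) :
    HasTrdeg (expField t) (tDim t) := by
  obtain ⟨u, hu, hui⟩ := tbound (2 * (Real.pi : ℂ) * Complex.I) t (Fin.elim0) ht
  refine ⟨u, fun j => ?_, hui⟩
  have h1 : constField (2 * (Real.pi : ℂ) * Complex.I) t (Fin.elim0) ≤ expField t := by
    unfold constField
    rw [IntermediateField.adjoin_le_iff]
    rintro x ((((rfl | rfl) | ⟨l, rfl⟩) | ⟨l, rfl⟩) | ⟨i, rfl⟩)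
    · exact IntermediateField.subset_adjoin _ _ (by simp)
    · exact IntermediateField.subset_adjoin _ _ (by simp)
    · exact IntermediateField.subset_adjoin _ _ (by simp)
    · exact IntermediateField.subset_adjoin _ _ (by simp)
    · exact i.elim0
  exact h1 (hu j)

lemma finrank_sup_le {s k : ℕ} (t : Fin s → ℂ) (J : Finset (Fin s)) (t' : Fin k → ℂ)
    (h : ∀ l, t l ∈ span ℚ (Set.range (fun j : J => t j) ∪ Set.range t')) :
    tDim t ≤ J.card + tDim t' := by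
  have h1 : span ℚ (Set.range t ∪ {2 * (Real.pi : ℂ) * Complex.I}) ≤
      span ℚ (Set.range (fun j : J => t j)) ⊔
        span ℚ (Set.range t' ∪ {2 * (Real.pi : ℂ) * Complex.I}) := by
    rw [span_le]
    rintro x (⟨l, rfl⟩ | hx)
    · rw [← span_union]
      refine span_mono ?_ (h l)
      rintro y (hy | hy)
      · exact Or.inl hy
      · exact Or.inr (Or.inl hy)
    · exact mem_sup_right (subset_span (Or.inr hx))
  have hfd1 : FiniteDimensional ℚ (span ℚ (Set.range (fun j : J => t j))) :=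
    FiniteDimensional.span_of_finite ℚ (Set.finite_range _)
  have hfd2 : FiniteDimensional ℚ (span ℚ (Set.range t' ∪ {2 * (Real.pi : ℂ) * Complex.I})) :=
    FiniteDimensional.span_of_finite ℚ ((Set.finite_range _).union (Set.finite_singleton _))
  have h2 := Submodule.finrank_mono h1
  have h3 := Submodule.finrank_sup_add_finrank_inf_eq (span ℚ (Set.range (fun j : J => t j)))
    (span ℚ (Set.range t' ∪ {2 * (Real.pi : ℂ) * Complex.I}))
  have h4 : Module.finrank ℚ (span ℚ (Set.range (fun j : J => t j))) ≤ J.card := by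
    have := finrank_range_le_card (R := ℚ) (fun j : J => t j)
    rwa [Fintype.card_coe] at this
  unfold tDim
  omega

/-- the theorem in the upper half plane -/
theorem big_upper : ∃ E : Set ℂ, E.Countable ∧ ∀ τ : ℂ, 0 < τ.im → τ ∉ E → ∀ ω₁ : ℂ, ω₁ ≠ 0 →
    ∀ (s n : ℕ) (t : Fin s → ℂ) (p : Fin n → ℂ), ∃ t' : Fin s → ℂ,
      (∀ l, t' l ∈ span ℚ (Set.range t)) ∧
      ∀ d, HasTrdeg (expField t') d →
        HasTrdeg (bigField ω₁ (ω₁ * τ) t p)
          (d + (tDim t - tDim t') + 4 + 2 * pDim ω₁ (ω₁ * τ) p) := by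
  classical
  choose E hE hEc using norm_case
  refine ⟨⋃ n, ⋃ s, E n s, Set.countable_iUnion fun n => Set.countable_iUnion fun s => hE n s, ?_⟩
  intro τ hτ hτE ω₁ h1 s n t p
  simp only [Set.mem_iUnion, not_exists] at hτE
  have ha : LinearIndependent ℚ ![ω₁, ω₁ * τ] := by
    rw [LinearIndependent.pair_iff]
    intro a b hab
    have h2 : (a : ℂ) + b * τ = 0 := by
      have h3 : ω₁ * ((a : ℂ) + b * τ) = 0 := by
        simp only [Rat.smul_def] at hab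
        linear_combination hab
      exact (mul_eq_zero.1 h3).resolve_left h1
    have h3 := congrArg Complex.im h2
    simp only [Complex.add_im, Complex.ratCast_im, Complex.mul_im, Complex.ratCast_re, zero_mul,
      add_zero, Complex.zero_im, zero_add] at h3
    have hb : (b : ℝ) = 0 := (mul_eq_zero.1 h3).resolve_right hτ.ne'
    have hb' : b = 0 := by exact_mod_cast hb
    rw [hb'] at h2
    refine ⟨?_, hb'⟩
    have : (a : ℂ) = 0 := by simpa using h2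
    exact_mod_cast this
  obtain ⟨Jp, hJp, hJpc⟩ := exists_rel_basis ![ω₁, ω₁ * τ] ha p
  have hr1 : Set.range ![ω₁, ω₁ * τ] = {ω₁, ω₁ * τ} := by
    simp [Matrix.range_cons, Set.pair_comm]
  rw [hr1] at hJpc
  set n' := Jp.card with hn'
  let e : Fin n' ≃ Jp := Jp.equivFin.symm
  set z : Fin n' → ℂ := fun i => p (e i) / ω₁ with hz
  have hzi : ∀ (m : Fin n' → ℤ) (a b : ℤ), ∑ i, (m i : ℂ) * z i = a + b * τ → m = 0 := by
    intro m a b hml
    rw [Fintype.linearIndependent_iff] at hJp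
    have h2 := hJp (Sum.elim ![-(a : ℚ), -(b : ℚ)] (fun j => (m (e.symm j) : ℚ))) (by
      rw [Fintype.sum_sum_type]
      simp only [Sum.elim_inl, Sum.elim_inr, Fin.sum_univ_two, Matrix.cons_val_zero,
        Matrix.cons_val_one, Rat.smul_def]
      push_cast
      have h3 : ∑ j : Jp, (m (e.symm j) : ℂ) * p j = (a + b * τ) * ω₁ := by
        rw [← hml, Finset.sum_mul, ← e.sum_comp]
        refine Finset.sum_congr rfl fun i _ => ?_
        simp only [hz, Equiv.symm_apply_apply]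
        field_simp
      rw [h3]
      ring)
    funext i
    have h3 := h2 (Sum.inr (e i))
    simp only [Sum.elim_inr, Equiv.symm_apply_apply] at h3
    exact_mod_cast h3
  obtain ⟨J, N, m, hN, S, hS, hScard⟩ := hEc n' s τ hτ (hτE n' s) z hzi t
  set t' : Fin s → ℂ := fun l => (N l : ℂ) * t l - ∑ j, (m l j : ℂ) * t j with ht'
  have hspan : ∀ l, t' l ∈ span ℚ (Set.range t) := by
    intro l
    have h2 : ∀ (k : ℤ) (l : Fin s), (k : ℂ) * t l ∈ span ℚ (Set.range t) := by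
      intro k l
      have h3 : (k : ℂ) * t l = (k : ℚ) • t l := by
        rw [Rat.smul_def]; push_cast; rfl
      rw [h3]
      exact smul_mem _ _ (subset_span ⟨l, rfl⟩)
    exact sub_mem (h2 _ _) (sum_mem fun j _ => h2 _ _)
  refine ⟨t', hspan, ?_⟩
  rintro d ⟨u, hu, hui⟩
  have hK : expField t' = IntermediateField.adjoin ℚ ({kap} ∪ Set.range t' ∪
      Set.range (fun l => exp (t' l))) := rfl
  have hpiB : kap ∈ bigField ω₁ (ω₁ * τ) t p := big_pi t p h1 hτ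
  have ht'B : ∀ l, t' l ∈ bigField ω₁ (ω₁ * τ) t p := fun l =>
    sub_mem (mul_mem (intCast_mem _ _) (big_t _ _ _ _ _))
      (sum_mem fun j _ => mul_mem (intCast_mem _ _) (big_t _ _ _ _ _))
  have he'B : ∀ l, exp (t' l) ∈ bigField ω₁ (ω₁ * τ) t p := by
    intro l
    have h2 : exp (t' l) = exp (t l) ^ N l * ∏ j : J, exp (t j) ^ (-m l j) := by
      simp only [ht']
      rw [sub_eq_add_neg, Complex.exp_add, ← Finset.sum_neg_distrib, Complex.exp_sum,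
        Complex.exp_int_mul]
      congr 1
      refine Finset.prod_congr rfl fun j _ => ?_
      rw [← Complex.exp_int_mul]
      push_cast
      ring_nf
    rw [h2]
    exact mul_mem (zpow_mem (big_exp _ _ _ _ _) _) (prod_mem fun j _ => zpow_mem (big_exp _ _ _ _ _) _)
  have hle : expField t' ≤ bigField ω₁ (ω₁ * τ) t p := by
    rw [hK, IntermediateField.adjoin_le_iff]
    rintro x ((hx | ⟨l, rfl⟩) | ⟨l, rfl⟩)
    · rw [Set.mem_singleton_iff] at hx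
      rw [hx]
      exact hpiB
    · exact ht'B l
    · exact he'B l
  have h60 : gg2 τ ∈ bigField ω₁ (ω₁ * τ) t p :=
    mul_mem (ofNat_mem (bigField ω₁ (ω₁ * τ) t p) 60) (big_gk4 t p h1)
  have h140 : gg3 τ ∈ bigField ω₁ (ω₁ * τ) t p :=
    mul_mem (ofNat_mem (bigField ω₁ (ω₁ * τ) t p) 140) (big_gk6 t p h1)
  obtain ⟨x, hx, hxi⟩ := exists_indep_of_tower (expField t') _ hS u hu hui
    (bigField ω₁ (ω₁ * τ) t p) hle (by
      rintro ⟨k | ⟨k, i⟩ | ⟨k, l⟩, hi⟩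
      · fin_cases k
        · exact big_tau t p h1
        · exact big_et t p h1
        · exact h60
        · exact h140
      · fin_cases k
        · exact div_mem (big_p _ _ _ _ _) (big_o1 _ _ _ _)
        · exact big_wp' t p h1 _
        · exact big_zt' t p h1 _
      · fin_cases k
        · exact big_t _ _ _ _ _
        · exact big_exp _ _ _ _ _)
  have hT : HasTrdeg (bigField ω₁ (ω₁ * τ) t p) (d + Fintype.card S) := ⟨x, hx, hxi⟩
  refine hT.mono le_rfl ?_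
  have hJt : tDim t ≤ J.card + tDim t' := by
    refine finrank_sup_le t J t' fun l => ?_
    have h2 : t l = (N l : ℚ)⁻¹ • (t' l + ∑ j : J, (m l j : ℚ) • t j) := by
      simp only [Rat.smul_def, ht']
      push_cast
      have h3 : (N l : ℂ) ≠ 0 := by exact_mod_cast hN l
      field_simp
      ring
    rw [h2]
    refine smul_mem _ _ (add_mem (subset_span (Or.inr ⟨l, rfl⟩)) (sum_mem fun j _ =>
      smul_mem _ _ (subset_span (Or.inl ⟨j, rfl⟩))))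
  have hpd : pDim ω₁ (ω₁ * τ) p = n' := by
    unfold pDim
    rw [← hJpc]
    omega
  rw [hpd, Fintype.card_coe]
  omega

lemma jInv_smul {ω₁ : ℂ} (h1 : ω₁ ≠ 0) (τ : ℂ) : jInv ω₁ (ω₁ * τ) = jInv 1 τ := by
  have h4 : gk 4 1 τ = ω₁ ^ 4 * gk 4 ω₁ (ω₁ * τ) := gk_norm h1 4
  have h6 : gk 6 1 τ = ω₁ ^ 6 * gk 6 ω₁ (ω₁ * τ) := gk_norm h1 6
  change 1728 * (60 * gk 4 ω₁ (ω₁ * τ)) ^ 3 / ((60 * gk 4 ω₁ (ω₁ * τ)) ^ 3 -
    27 * (140 * gk 6 ω₁ (ω₁ * τ)) ^ 2) = 1728 * (60 * gk 4 1 τ) ^ 3 / ((60 * gk 4 1 τ) ^ 3 -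
    27 * (140 * gk 6 1 τ) ^ 2)
  rw [h4, h6]
  have e1 : 1728 * (60 * (ω₁ ^ 4 * gk 4 ω₁ (ω₁ * τ))) ^ 3 =
    ω₁ ^ 12 * (1728 * (60 * gk 4 ω₁ (ω₁ * τ)) ^ 3) := by ring
  have e2 : (60 * (ω₁ ^ 4 * gk 4 ω₁ (ω₁ * τ))) ^ 3 - 27 * (140 * (ω₁ ^ 6 * gk 6 ω₁ (ω₁ * τ))) ^ 2 =
    ω₁ ^ 12 * ((60 * gk 4 ω₁ (ω₁ * τ)) ^ 3 - 27 * (140 * gk 6 ω₁ (ω₁ * τ)) ^ 2) := by ring
  rw [e1, e2, mul_div_mul_left _ _ (pow_ne_zero 12 h1)]

lemma jInv_neg (a b : ℂ) : jInv a (-b) = jInv a b := by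
  change 1728 * (60 * gk 4 a (-b)) ^ 3 / ((60 * gk 4 a (-b)) ^ 3 -
    27 * (140 * gk 6 a (-b)) ^ 2) = 1728 * (60 * gk 4 a b) ^ 3 / ((60 * gk 4 a b) ^ 3 -
    27 * (140 * gk 6 a b) ^ 2)
  rw [gk_N, gk_N]

lemma pDim_neg (ω₁ ω₂ : ℂ) {n : ℕ} (p : Fin n → ℂ) : pDim ω₁ (-ω₂) p = pDim ω₁ ω₂ p := by
  have hs : (Submodule.span ℚ (Set.range p ∪ {ω₁, -ω₂})) =
      Submodule.span ℚ (Set.range p ∪ {ω₁, ω₂}) := by
    apply le_antisymm
    · rw [Submodule.span_le]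
      rintro y (⟨i, rfl⟩ | rfl | rfl)
      · exact Submodule.subset_span (Or.inl ⟨i, rfl⟩)
      · exact Submodule.subset_span (Or.inr (Or.inl rfl))
      · exact neg_mem (Submodule.subset_span (Or.inr (Or.inr rfl)))
    · rw [Submodule.span_le]
      rintro y (⟨i, rfl⟩ | rfl | rfl)
      · exact Submodule.subset_span (Or.inl ⟨i, rfl⟩)
      · exact Submodule.subset_span (Or.inr (Or.inl rfl))
      · have := Submodule.neg_mem _ (Submodule.subset_span (R := ℚ)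
          (s := Set.range p ∪ {ω₁, -y}) (Or.inr (Or.inr rfl)))
        rwa [neg_neg] at this
  unfold pDim
  rw [hs]

lemma not_CM_of {ω₁ ω₂ : ℂ} (h : ¬ IsAlgebraic ℚ (ω₂ / ω₁)) : ¬ IsCM ω₁ ω₂ := by
  rintro ⟨a, b, c, ha, habc⟩
  apply h
  refine ⟨Polynomial.C (a : ℚ) * Polynomial.X ^ 2 + Polynomial.C (b : ℚ) * Polynomial.X +
    Polynomial.C (c : ℚ), ?_, ?_⟩
  · intro h0
    have h9 := congrArg (fun q : Polynomial ℚ => q.coeff 2) h0
    simp only [Polynomial.coeff_add, Polynomial.coeff_C_mul, Polynomial.coeff_X_pow,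
      Polynomial.coeff_X, Polynomial.coeff_C, Polynomial.coeff_zero] at h9
    norm_num at h9
    exact ha h9
  · simpa using habc

lemma alg_of_span {s : ℕ} {t : Fin s → ℂ} (ht : ∀ l, IsAlgebraic ℚ (t l)) {x : ℂ}
    (hx : x ∈ span ℚ (Set.range t)) : IsAlgebraic ℚ x := by
  induction hx using Submodule.span_induction with
  | mem x hx => obtain ⟨l, rfl⟩ := hx; exact ht l
  | zero => exact isAlgebraic_zero
  | add x y _ _ hx hy => exact hx.add hy
  | smul a x _ hx => exact hx.smul a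

lemma tDim_le {s k : ℕ} {t : Fin s → ℂ} {t' : Fin k → ℂ}
    (h : ∀ l, t' l ∈ span ℚ (Set.range t)) : tDim t' ≤ tDim t := by
  have hfd : FiniteDimensional ℚ (span ℚ (Set.range t ∪ {2 * (Real.pi : ℂ) * Complex.I})) :=
    FiniteDimensional.span_of_finite ℚ ((Set.finite_range _).union (Set.finite_singleton _))
  have h1 : span ℚ (Set.range t' ∪ {2 * (Real.pi : ℂ) * Complex.I}) ≤
      span ℚ (Set.range t ∪ {2 * (Real.pi : ℂ) * Complex.I}) := by
    rw [span_le]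
    rintro x (⟨l, rfl⟩ | hx)
    · exact span_mono Set.subset_union_left (h l)
    · exact subset_span (Or.inr hx)
  have := Submodule.finrank_mono h1
  unfold tDim
  omega

/-- **The theorem for elliptic curves with generic invariant.** -/
theorem big_final : ∃ J₀ : Set ℂ, J₀.Countable ∧ ∀ ω₁ ω₂ : ℂ, (ω₂ / ω₁).im ≠ 0 →
    jInv ω₁ ω₂ ∉ J₀ → ¬ IsCM ω₁ ω₂ ∧ ∀ (s n : ℕ) (t : Fin s → ℂ) (p : Fin n → ℂ),
      (∃ t' : Fin s → ℂ, (∀ l, t' l ∈ span ℚ (Set.range t)) ∧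
        ∀ d, HasTrdeg (expField t') d →
          HasTrdeg (bigField ω₁ ω₂ t p) (d + (tDim t - tDim t') + 4 + 2 * pDim ω₁ ω₂ p)) ∧
      ((∀ l, IsAlgebraic ℚ (t l)) ∨ tDim t ≤ 1 →
        HasTrdeg (bigField ω₁ ω₂ t p) (tDim t + 4 + 2 * pDim ω₁ ω₂ p)) := by
  obtain ⟨E, hE, h⟩ := big_upper
  have hA : {τ : ℂ | IsAlgebraic ℚ τ}.Countable := Algebraic.countable ℚ ℂ
  refine ⟨jInv 1 '' (E ∪ {τ : ℂ | IsAlgebraic ℚ τ}), (hE.union hA).image _, ?_⟩
  -- the first assertion for a modulus in the upper half plane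
  have key : ∀ ω₁ τ : ℂ, ω₁ ≠ 0 → 0 < τ.im →
      jInv ω₁ (ω₁ * τ) ∉ jInv 1 '' (E ∪ {τ : ℂ | IsAlgebraic ℚ τ}) →
      ¬ IsCM ω₁ (ω₁ * τ) ∧ ∀ (s n : ℕ) (t : Fin s → ℂ) (p : Fin n → ℂ),
        ∃ t' : Fin s → ℂ, (∀ l, t' l ∈ span ℚ (Set.range t)) ∧
        ∀ d, HasTrdeg (expField t') d →
          HasTrdeg (bigField ω₁ (ω₁ * τ) t p)
            (d + (tDim t - tDim t') + 4 + 2 * pDim ω₁ (ω₁ * τ) p) := by
    intro ω₁ τ h1 hτ hj
    rw [jInv_smul h1] at hj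
    have hj1 : τ ∉ E := fun hh => hj ⟨τ, Or.inl hh, rfl⟩
    have hj2 : ¬ IsAlgebraic ℚ τ := fun hh => hj ⟨τ, Or.inr hh, rfl⟩
    refine ⟨not_CM_of ?_, fun s n t p => h τ hτ hj1 ω₁ h1 s n t p⟩
    rwa [mul_div_cancel_left₀ _ h1]
  intro ω₁ ω₂ him hj
  have h1 : ω₁ ≠ 0 := by
    rintro rfl
    simp at him
  have hω : ω₂ = ω₁ * (ω₂ / ω₁) := by field_simp
  have main : ¬ IsCM ω₁ ω₂ ∧ ∀ (s n : ℕ) (t : Fin s → ℂ) (p : Fin n → ℂ),
        ∃ t' : Fin s → ℂ, (∀ l, t' l ∈ span ℚ (Set.range t)) ∧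
        ∀ d, HasTrdeg (expField t') d →
          HasTrdeg (bigField ω₁ ω₂ t p)
            (d + (tDim t - tDim t') + 4 + 2 * pDim ω₁ ω₂ p) := by
    rcases lt_or_gt_of_ne him with hlt | hgt
    · have h2 : -ω₂ = ω₁ * (-(ω₂ / ω₁)) := by field_simp
      have h3 := key ω₁ (-(ω₂ / ω₁)) h1 (by simpa using hlt) (by
        rw [← h2, jInv_neg]
        exact hj)
      rw [← h2] at h3
      obtain ⟨h4, h5⟩ := h3
      refine ⟨?_, ?_⟩
      · rintro ⟨a, b, c, ha, habc⟩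
        exact h4 ⟨a, -b, c, ha, by push_cast; rw [neg_div]; linear_combination habc⟩
      · intro s n t p
        have h6 := h5 s n t p
        rw [bigField_neg, pDim_neg] at h6
        exact h6
    · have h3 := key ω₁ (ω₂ / ω₁) h1 hgt (by rw [← hω]; exact hj)
      rw [← hω] at h3
      exact h3
  refine ⟨main.1, fun s n t p => ⟨main.2 s n t p, fun ht => ?_⟩⟩
  obtain ⟨t', ht', h2⟩ := main.2 s n t p
  have h3 : (∀ l, IsAlgebraic ℚ (t' l)) ∨ tDim t' ≤ 1 := by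
    rcases ht with ht | ht
    · exact Or.inl fun l => alg_of_span ht (ht' l)
    · exact Or.inr ((tDim_le ht').trans ht)
  have h4 := h2 _ (tbound2 t' h3)
  have h5 := tDim_le ht'
  exact h4.mono le_rfl (by omega)

end Pool.Agent.Work.MP_8da9ea_nt

end

section

/-!
# The normalised theorem over a countable field
-/

set_option autoImplicit false

namespace Pool.Agent.Work.MP_8da9ea_nt

open Complex Filter Topology MvPolynomial

/-- algebraic independence passes from a family to one with fewer relations -/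
lemma indep_of_rel {k M σ S : Type*} [Field k] [Algebra k ℂ] [Field M] [Algebra ℂ M] [Algebra k M]
    [IsScalarTower k ℂ M] (a : σ → ℂ) (b : σ → M)
    (h : ∀ P : MvPolynomial σ k, aeval a P = 0 → aeval b P = 0) (f : S → σ)
    (hind : AlgebraicIndependent ℂ (fun i => b (f i))) :
    AlgebraicIndependent k (fun i => a (f i)) := by
  rw [algebraicIndependent_iff]
  intro P hP
  have h1 : aeval a (rename f P) = 0 := by
    rw [aeval_rename]
    exact hP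
  have h2 := h _ h1
  rw [aeval_rename] at h2
  have h3 : aeval (fun i => b (f i)) (MvPolynomial.map (algebraMap k ℂ) P) = 0 := by
    rw [aeval_map_algebraMap]
    exact h2
  have h4 := (algebraicIndependent_iff.1 hind) _ h3
  exact (map_eq_zero_iff _ (MvPolynomial.map_injective _ (algebraMap k ℂ).injective)).1 h4

/-- the index of a function -/
def asIx {ι κ' : Type} : Fin 4 ⊕ ((Fin 3 × ι) ⊕ (Fin 2 × κ')) → SSa ι κ'
  | Sum.inl k => Sum.inl k
  | Sum.inr (Sum.inl (k, i)) => Sum.inr (Sum.inl (![0, 1, 3] k, i))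
  | Sum.inr (Sum.inr (k, l)) => Sum.inr (Sum.inr (k, l))

/-- **The normalised theorem.** -/
theorem mov_case (k : IntermediateField ℚ ℂ) [Countable k] (hk : kap ∈ k) (n s : ℕ) :
    ∃ E : Set ℂ, E.Countable ∧ ∀ τ : ℂ, 0 < τ.im → τ ∉ E →
    ∀ z : Fin n → ℂ,
      (∀ (m : Fin n → ℤ) (a b : ℤ), ∑ i, (m i : ℂ) * z i = a + b * τ → m = 0) →
    ∀ t : Fin s → ℂ, (∀ m : Fin s → ℤ, ∑ l, (m l : ℂ) * t l ∈ E → m = 0) →
      ∃ S : Finset (Fin 4 ⊕ ((Fin 3 × Fin n) ⊕ (Fin 2 × Fin s))),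
        AlgebraicIndependent k
          (fun i : S => asF τ (et τ) (gg2 τ) (gg3 τ) z (fun i => wp 1 τ (z i))
            (fun i => zt 1 τ (z i)) t (fun j => exp (t j)) i) ∧
        4 + 2 * n + s ≤ S.card := by
  classical
  obtain ⟨E, hE, harc⟩ := exists_arcs_mov k hk (Fin n) (Fin s)
  refine ⟨E ∪ {τ : ℂ | 0 < τ.im ∧ (gg2 τ = 0 ∨ gg3 τ = 0)}, hE.union gg_zeros, ?_⟩
  intro τ₀ hτ₀ hτE z hzi t hti
  have hτE1 : τ₀ ∉ E := fun h => hτE (Or.inl h)
  have hg2 : gg2 τ₀ ≠ 0 := fun h => hτE (Or.inr ⟨hτ₀, Or.inl h⟩)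
  have hg3 : gg3 τ₀ ≠ 0 := fun h => hτE (Or.inr ⟨hτ₀, Or.inr h⟩)
  set x : NN (Fin n) (Fin s) → ℂ := fun o => o.elim τ₀ (Sum.elim z t) with hx
  have hxD : x ∈ DD' (Fin n) (Fin s) := by
    refine ⟨hτ₀, fun i => ?_⟩
    have := notMem_of_indep z hzi i 1 one_ne_zero
    rw [Int.cast_one, one_mul] at this
    exact this
  obtain ⟨γ, hγ, hγ0, hγτ, hγP, hγl⟩ := harc x hxD hτE1
  have hxn : x none = τ₀ := rfl
  rw [hxn] at hγ hγ0 hγτ hγP hγl
  set zc : Fin n → ℂ → ℂ := fun i τ => γ τ (some (Sum.inl i)) with hzc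
  set tc : Fin s → ℂ → ℂ := fun l τ => γ τ (some (Sum.inr l)) with htc
  have hγa : ∀ o, AnalyticAt ℂ (fun τ => γ τ o) τ₀ := fun o =>
    (ContinuousLinearMap.proj (R := ℂ) (φ := fun _ : NN (Fin n) (Fin s) => ℂ) o).analyticAt _
      |>.fun_comp hγ
  have hzca : ∀ i, AnalyticAt ℂ (zc i) τ₀ := fun i => hγa _
  have htca : ∀ l, AnalyticAt ℂ (tc l) τ₀ := fun l => hγa _
  have hzc0 : ∀ i, zc i τ₀ = z i := by
    intro i
    simp only [hzc, hγ0]
    rfl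
  have htc0 : ∀ l, tc l τ₀ = t l := by
    intro l
    simp only [htc, hγ0]
    rfl
  have hzL : ∀ i, zc i τ₀ ∉ Lam τ₀ ∧ wpd τ₀ (zc i τ₀) ≠ 0 := by
    intro i
    rw [hzc0]
    refine ⟨hxD.2 i, fun h => ?_⟩
    have h1 := wpd_zero hτ₀ (hxD.2 i) h
    have h2 := notMem_of_indep z hzi i 2 two_ne_zero
    exact h2 (by push_cast; exact h1)
  -- the germs
  set G : SSa (Fin n) (Fin s) → ℂ → ℂ := GG zc tc with hG
  have hGa : ∀ s, AnalyticAt ℂ (G s) τ₀ := by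
    rintro (k | ⟨k, i⟩ | ⟨k, l⟩)
    · fin_cases k
      · exact analyticAt_id
      · exact analyticAt_et hτ₀
      · exact analyticAt_gg2 hτ₀
      · exact analyticAt_gg3 hτ₀
    · fin_cases k
      · exact hzca i
      · exact analyticAt_wp_arc (hzca i) hτ₀ (hzL i).1
      · exact analyticAt_wpd_arc (hzca i) hτ₀ (hzL i).1
      · exact analyticAt_zt_arc (hzca i) hτ₀ (hzL i).1
    · fin_cases k
      · exact htca l
      · exact (htca l).cexp
  have hGγ : ∀ᶠ τ in 𝓝 τ₀, FFa (γ τ) = fun s => G s τ := by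
    filter_upwards [hγτ] with τ hτ
    funext s
    rcases s with k | ⟨k, i⟩ | ⟨k, l⟩
    · fin_cases k <;> simp [FFa, hG, GG, hτ]
    · fin_cases k <;> simp [FFa, hG, GG, hτ, hzc]
    · fin_cases k <;> simp [FFa, hG, GG, htc]
  have hrel : ∀ P : MvPolynomial (SSa (Fin n) (Fin s)) k,
      aeval (FFa x) P = 0 → aeval (fun s => gm τ₀ (G s)) P = 0 := by
    intro P h
    obtain ⟨h1, h2⟩ := gm_aeval G hGa P
    rw [h2]
    have h3 := hγP P h
    have h4 : (fun τ => aeval (fun s => G s τ) P) =ᶠ[𝓝 τ₀] fun _ => (0 : ℂ) := by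
      filter_upwards [h3, hGγ] with τ h5 h6
      rw [← h6]
      exact h5
    rw [gm_eq_of h1 h4, gm_const, map_zero]
  -- the exponents have no constant combination
  have htic : ∀ (m : Fin s → ℤ) (c : ℂ),
      (∀ᶠ τ in 𝓝 τ₀, ∑ l, (m l : ℂ) * tc l τ = c) → m = 0 := by
    intro m c hc
    by_contra hm
    have hm' : ∑ l, (m l : ℂ) * t l ∉ E := fun h => hm (hti m (Or.inl h))
    have hsum : ∀ y : NN (Fin n) (Fin s) → ℂ,
        ∑ a, (((fun o => o.elim 0 (Sum.elim (fun _ => 0) (fun l => ((m l : ℤ) : k))) :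
          NN (Fin n) (Fin s) → k) a : k) : ℂ) * y a = ∑ l, (m l : ℂ) * y (some (Sum.inr l)) := by
      intro y
      rw [Fintype.sum_option, Fintype.sum_sum_type]
      simp
    refine hγl (fun o => o.elim 0 (Sum.elim (fun _ => 0) (fun l => ((m l : ℤ) : k)))) ?_ c ?_
    · rw [hsum]
      exact hm'
    · filter_upwards [hc] with τ hτ
      rw [hsum]
      exact hτ
  obtain ⟨S, hS, hScard⟩ := core_arc hτ₀ zc hzca hzL (by
    intro m a b h
    refine hzi m a b ?_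
    simpa only [hzc0] using h) tc htca htic
    (fun c w H ρ => K1' (hindep hτ₀) hτ₀ hg2 hg3 zc hzca hzL c w H ρ)
  refine ⟨S, ?_, by simpa using hScard⟩
  have hb : (fun i : S => asF (gm τ₀ fun τ => τ) (gm τ₀ et) (gm τ₀ gg2)
        (gm τ₀ gg3) (fun i => gm τ₀ (zc i)) (fun i => gm τ₀ fun τ => wp 1 τ (zc i τ))
        (fun i => gm τ₀ fun τ => zt 1 τ (zc i τ)) (fun l => gm τ₀ (tc l))
        (fun l => gm τ₀ fun τ => exp (tc l τ)) i) =
      fun i : S => (fun s => gm τ₀ (G s)) (asIx (i : Fin 4 ⊕ ((Fin 3 × Fin n) ⊕ (Fin 2 × Fin s)))) := by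
    funext i
    rcases i with ⟨k | ⟨k, i⟩ | ⟨k, l⟩, hi⟩
    · fin_cases k <;> rfl
    · fin_cases k <;> rfl
    · fin_cases k <;> rfl
  have ha : (fun i : S => asF τ₀ (et τ₀) (gg2 τ₀) (gg3 τ₀) z (fun i => wp 1 τ₀ (z i))
            (fun i => zt 1 τ₀ (z i)) t (fun j => exp (t j)) i) =
      fun i : S => FFa x (asIx (i : Fin 4 ⊕ ((Fin 3 × Fin n) ⊕ (Fin 2 × Fin s)))) := by
    funext i
    rcases i with ⟨k | ⟨k, i⟩ | ⟨k, l⟩, hi⟩
    · fin_cases k <;> rfl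
    · fin_cases k <;> rfl
    · fin_cases k <;> rfl
  rw [ha]
  rw [hb] at hS
  exact indep_of_rel (FFa x) (fun s => gm τ₀ (G s)) hrel _ hS

end Pool.Agent.Work.MP_8da9ea_nt

end
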