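import Pool.Agent.Work.MP_8da9ea_nt.Bd.B01
import Pool.Agent.Work.MP_8da9ea_nt.Bd.B10
import Pool.Agent.Work.MP_8da9ea_nt.Bd.B06
import Pool.Agent.Work.MP_8da9ea_nt.MovFinal
import Pool.Agent.Work.MP_8da9ea_nt.Stmt4

/-! Bundle of small proof modules (one section per former module). -/

section

/-!
# Logarithms along a special curve
-/

set_option autoImplicit false

namespace Pool.Agent.Work.MP_8da9ea_nt.Fx

open Complex Filter Topology

theorem local_inv {F X : ℂ → ℂ} {z₁ s : ℂ} (hF : AnalyticAt ℂ F z₁) (hd : deriv F z₁ ≠ 0)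
    (hX : AnalyticAt ℂ X s) (h0 : X s = F z₁) :
    ∃ zz : ℂ → ℂ, AnalyticAt ℂ zz s ∧ zz s = z₁ ∧ ∀ᶠ u in 𝓝 s, F (zz u) = X u := by
  have h1 : HasStrictDerivAt F (deriv F z₁) z₁ := hF.hasStrictDerivAt
  have h2 := h1.hasStrictFDerivAt_equiv hd
  set f := h2.toOpenPartialHomeomorph F with hf
  have hcoe : (f : ℂ → ℂ) = F := h2.toOpenPartialHomeomorph_coe
  have hmem : z₁ ∈ f.source := h2.mem_toOpenPartialHomeomorph_source
  have h3 : AnalyticAt ℂ f.symm (f z₁) := by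
    refine f.analyticAt_symm' (i := ContinuousLinearEquiv.unitsEquivAut ℂ (Units.mk0 _ hd)) hmem
      (by rw [hcoe]; exact hF) ?_
    rw [hcoe]
    exact h2.hasFDerivAt.fderiv
  rw [hcoe, ← h0] at h3
  refine ⟨fun u => f.symm (X u), AnalyticAt.fun_comp h3 hX, ?_, ?_⟩
  · beta_reduce
    rw [h0, ← hcoe]
    exact f.left_inv hmem
  · have h4 : ∀ᶠ y in 𝓝 (X s), y ∈ f.target := by
      refine f.open_target.mem_nhds ?_
      rw [h0, ← hcoe]
      exact f.map_source hmem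
    filter_upwards [hX.continuousAt.eventually h4] with u hu
    rw [← hcoe]
    exact f.right_inv hu

variable {τ s₁ : ℂ}

/-- the logarithm of one coordinate -/
theorem loc_one (hτ : 0 < τ.im) (t : Bool) (X Y : MG s₁) (z₁ : ℂ) (hz₁ : z₁ ∉ pol τ t)
    (hd : df τ t z₁ ≠ 0) (hX : SpecAux.IsAn X (ef τ t z₁)) (hY : SpecAux.IsAn Y (df τ t z₁))
    (hXY : if t then Y ^ 2 = 4 * X ^ 3 - algebraMap ℂ (MG s₁) (gg2 τ) * X -
      algebraMap ℂ (MG s₁) (gg3 τ) else Y = X) :
    ∃ zz : ℂ → ℂ, AnalyticAt ℂ zz s₁ ∧ zz s₁ = z₁ ∧ gm s₁ (fun s => ef τ t (zz s)) = X ∧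
      gm s₁ (fun s => df τ t (zz s)) = Y ∧ MG.DD (gm s₁ zz) = MG.DD X / Y ∧
      MG.DD (gm s₁ fun s => zf τ t (zz s)) = -(if t then X else 0) * (MG.DD X / Y) := by
  obtain ⟨Xf, aX, eX, vX⟩ := IsAn.rep hX
  obtain ⟨Yf, aY, eY, vY⟩ := IsAn.rep hY
  have hder : deriv (ef τ t) z₁ = df τ t z₁ := (hasDerivAt_ef hτ t hz₁).deriv
  obtain ⟨zz, az, vz, ez⟩ := local_inv (F := ef τ t) (X := Xf) (s := s₁) (analyticAt_ef hτ t hz₁)
    (by rw [hder]; exact hd) aX vX
  have hzp : zz s₁ ∉ pol τ t := by rw [vz]; exact hz₁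
  have azp : ∀ᶠ s in 𝓝 s₁, zz s ∉ pol τ t := az.continuousAt.eventually (notMem_pol_ev hτ t hzp)
  have ae : AnalyticAt ℂ (fun s => ef τ t (zz s)) s₁ :=
    AnalyticAt.fun_comp (analyticAt_ef hτ t hzp) az
  have ad : AnalyticAt ℂ (fun s => df τ t (zz s)) s₁ :=
    AnalyticAt.fun_comp (analyticAt_df hτ t hzp) az
  have azf : AnalyticAt ℂ (fun s => zf τ t (zz s)) s₁ :=
    AnalyticAt.fun_comp (analyticAt_zf hτ t hzp) az
  have eX' : gm s₁ (fun s => ef τ t (zz s)) = X := by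
    rw [eX]
    exact gm_eq_of ae ez
  have eY' : gm s₁ (fun s => df τ t (zz s)) = Y := by
    cases t
    · have h1 : Y = X := by simpa using hXY
      rw [h1]
      exact eX'
    · have h1 : Y ^ 2 = 4 * X ^ 3 - algebraMap ℂ (MG s₁) (gg2 τ) * X -
        algebraMap ℂ (MG s₁) (gg3 τ) := by simpa using hXY
      have h2 : (gm s₁ (fun s => df τ true (zz s))) ^ 2 = Y ^ 2 := by
        rw [h1, ← eX', gm_pow ad.meromorphicAt, gm_pow ae.meromorphicAt, ← gm_const, ← gm_const,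
          gm_ofNat, gm_mul (MeromorphicAt.const _ _) (ae.meromorphicAt.fun_pow 3),
          gm_mul (MeromorphicAt.const _ _) ae.meromorphicAt,
          gm_sub ((MeromorphicAt.const _ _).fun_mul (ae.meromorphicAt.fun_pow 3))
            ((MeromorphicAt.const _ _).fun_mul ae.meromorphicAt),
          gm_sub (((MeromorphicAt.const _ _).fun_mul (ae.meromorphicAt.fun_pow 3)).fun_sub
            ((MeromorphicAt.const _ _).fun_mul ae.meromorphicAt)) (MeromorphicAt.const _ _)]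
        refine gm_eq_of (ad.pow 2) ?_
        filter_upwards [azp] with s hs
        exact wpd_sq hτ hs
      rcases sq_eq_sq_iff_eq_or_eq_neg.1 h2 with h3 | h3
      · exact h3
      · exfalso
        rw [eY, gm_neg aY.meromorphicAt] at h3
        have s4 := ((gm_eq_iff ad aY.neg).1 h3).self_of_nhds
        simp only [Pi.neg_apply] at s4
        have s5 : df τ true (zz s₁) = -Yf s₁ := s4
        rw [vz, vY] at s5
        apply hd
        linear_combination s5 / 2
  have hY0 : Y ≠ 0 := by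
    rw [← eY']
    refine gmz_ne ad ?_
    rw [vz]
    exact hd
  have hzz : MG.DD (gm s₁ zz) = MG.DD X / Y := by
    rw [eq_div_iff hY0, ← eY', ← eX', DD_gm az.meromorphicAt, DD_gm ae.meromorphicAt,
      gm_mul az.deriv.meromorphicAt ad.meromorphicAt]
    refine gm_eq_of (az.deriv.mul ad) ?_
    filter_upwards [azp, az.eventually_analyticAt] with s h1 h2
    have h3 := (hasDerivAt_ef hτ t h1).comp s h2.differentiableAt.hasDerivAt
    have h4 : deriv (fun s => ef τ t (zz s)) s = df τ t (zz s) * deriv zz s := h3.deriv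
    rw [h4]
    ring
  refine ⟨zz, az, vz, eX', eY', hzz, ?_⟩
  rw [← hzz, DD_gm azf.meromorphicAt, DD_gm az.meromorphicAt]
  cases t
  · simp only [Bool.false_eq_true, if_false, neg_zero, zero_mul]
    rw [← map_zero (algebraMap ℂ (MG s₁)), ← gm_const]
    refine gm_eq_of azf.deriv (Eventually.of_forall fun s => ?_)
    change deriv (fun _ : ℂ => (0 : ℂ)) s = 0
    simp
  · simp only [if_true]
    rw [← eX', gm_neg ae.meromorphicAt, gm_mul ae.meromorphicAt.fun_neg az.deriv.meromorphicAt]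
    refine gm_eq_of azf.deriv ?_
    filter_upwards [azp, az.eventually_analyticAt] with s h1 h2
    have h3 := (hasDerivAt_zf hτ true h1).comp s h2.differentiableAt.hasDerivAt
    have h4 : deriv (fun s => zf τ true (zz s)) s = -wp 1 τ (zz s) * deriv zz s := by
      have h5 : HasDerivAt (fun s => zf τ true (zz s)) (-wp 1 τ (zz s) * deriv zz s) s := h3
      exact h5.deriv
    exact h4

lemma alg1_of_gm {f : ℂ → ℂ} (hf : AnalyticAt ℂ f s₁)
    (h : IsAlgebraic (IntermediateField.adjoin ℂ {gm s₁ (fun s => s)}) (gm s₁ f)) :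
    Alg1 s₁ f := ⟨hf, exists_poly_of_alg analyticAt_id hf h⟩

end Pool.Agent.Work.MP_8da9ea_nt.Fx

end

section

/-!
# The functions along one special curve
-/

set_option autoImplicit false

namespace Pool.Agent.Work.MP_8da9ea_nt.Fx

open Complex Filter Topology

/-- the germ of the point -/
noncomputable def gx (τ u₀ : ℂ) (t : Bool) (w : ℂ → ℂ) : MG u₀ := gm u₀ fun v => ef τ t (w v)

/-- the germ of the derivative -/
noncomputable def gy (τ u₀ : ℂ) (t : Bool) (w : ℂ → ℂ) : MG u₀ := gm u₀ fun v => df τ t (w v)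

variable {τ : ℂ} {J : Type} [Fintype J]

lemma gm_sum_lin {s₁ : ℂ} (c : J → ℂ) (z : J → ℂ → ℂ) (hz : ∀ i, AnalyticAt ℂ (z i) s₁) :
    ∑ i, algebraMap ℂ (MG s₁) (c i) * gm s₁ (z i) = gm s₁ (fun s => ∑ i, c i * z i s) := by
  have s3 := aeval_gmC (τ₁ := s₁) z hz (∑ i, MvPolynomial.C (c i) * MvPolynomial.X i)
  simpa using s3.2

/-- the functions along a special curve -/
theorem curve_at (hτ : 0 < τ.im) (t : J → Bool) {C0 : IntermediateField ℚ ℂ} {L : Type} [Field L]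
    [Algebra C0 L] (D : Derivation C0 L L) {s₁ : ℂ} (Φ : L →+* MG s₁) (ev : L →ₐ[C0] ℂ)
    (hC : ∀ a : C0, Φ (algebraMap C0 _ a) = algebraMap ℂ (MG s₁) (a : ℂ))
    (hev : ∀ u, SpecAux.IsAn (Φ u) (ev u)) (hD : ∀ u, MG.DD (Φ u) = Φ (D u))
    (halg : ∀ u, IsAlgebraic (IntermediateField.adjoin ℂ {gm s₁ (fun s => s)}) (Φ u))
    (x y : J → L) (h : L) (z₁ : J → ℂ) (hz₁ : ∀ j, z₁ j ∉ pol τ (t j) ∧ df τ (t j) (z₁ j) ≠ 0)
    (hx : ∀ j, ev (x j) = ef τ (t j) (z₁ j)) (hy : ∀ j, ev (y j) = df τ (t j) (z₁ j))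
    (g2 g3 : C0) (hg2 : (g2 : ℂ) = gg2 τ) (hg3 : (g3 : ℂ) = gg3 τ)
    (hxy : ∀ j, if t j then y j ^ 2 = 4 * x j ^ 3 - algebraMap C0 L g2 * x j - algebraMap C0 L g3
      else y j = x j)
    (c d u : J → C0)
    (RA : ∑ j, (algebraMap C0 L (c j) + algebraMap C0 L (d j) * (if t j then x j else 0)) *
      (D (x j) / y j) = D h)
    (RB : ∑ j, algebraMap C0 L (u j) * (D (x j) / y j) = 0) :
    ∃ zz : J → ℂ → ℂ, (∀ j, AnalyticAt ℂ (zz j) s₁) ∧ (∀ j, zz j s₁ ∉ pol τ (t j)) ∧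
      (∀ j, Alg1 s₁ (fun s => ef τ (t j) (zz j s))) ∧
      (∀ j, deriv (zz j) s₁ = ev (D (x j) / y j)) ∧
      Alg1 s₁ (fun s => ∑ j, ((c j : ℂ) * zz j s - (d j : ℂ) * zf τ (t j) (zz j s))) ∧
      ∃ k : ℂ, ∀ᶠ s in 𝓝 s₁, ∑ j, (u j : ℂ) * zz j s = k := by
  have hloc : ∀ j, ∃ zz : ℂ → ℂ, AnalyticAt ℂ zz s₁ ∧ zz s₁ = z₁ j ∧
      gm s₁ (fun s => ef τ (t j) (zz s)) = Φ (x j) ∧
      gm s₁ (fun s => df τ (t j) (zz s)) = Φ (y j) ∧ MG.DD (gm s₁ zz) = MG.DD (Φ (x j)) / Φ (y j) ∧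
      MG.DD (gm s₁ fun s => zf τ (t j) (zz s)) =
        -(if t j then Φ (x j) else 0) * (MG.DD (Φ (x j)) / Φ (y j)) := by
    intro j
    refine loc_one hτ (t j) (Φ (x j)) (Φ (y j)) (z₁ j) (hz₁ j).1 (hz₁ j).2
      (by rw [← hx]; exact hev _) (by rw [← hy]; exact hev _) ?_
    have h1 := hxy j
    cases htj : t j
    · rw [htj] at h1
      simp only [Bool.false_eq_true, if_false] at h1 ⊢
      rw [h1]
    · rw [htj] at h1
      simp only [if_true] at h1 ⊢
      have h2 := congrArg Φ h1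
      simp only [map_pow, map_sub, map_mul, map_ofNat, hC, hg2, hg3] at h2
      exact h2
  choose zz az vz ex ey ez ezf using hloc
  have hzp : ∀ j, zz j s₁ ∉ pol τ (t j) := fun j => by rw [vz]; exact (hz₁ j).1
  have aef : ∀ j, AnalyticAt ℂ (fun s => ef τ (t j) (zz j s)) s₁ := fun j =>
    AnalyticAt.fun_comp (analyticAt_ef hτ (t j) (hzp j)) (az j)
  have azf : ∀ j, AnalyticAt ℂ (fun s => zf τ (t j) (zz j s)) s₁ := fun j =>
    AnalyticAt.fun_comp (analyticAt_zf hτ (t j) (hzp j)) (az j)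
  have hDD : ∀ j, MG.DD (gm s₁ (zz j)) = Φ (D (x j) / y j) := by
    intro j
    rw [ez j, hD, map_div₀]
  refine ⟨zz, az, hzp, fun j => alg1_of_gm (aef j) (by rw [ex j]; exact halg _), ?_, ?_, ?_⟩
  · intro j
    obtain ⟨f', hf', e', v'⟩ := IsAn.rep (hev (D (x j) / y j))
    have h1 := hDD j
    rw [e', DD_gm (az j).meromorphicAt] at h1
    have h2 := ((gm_eq_iff (az j).deriv hf').1 h1).self_of_nhds
    rw [h2, v']
  · have hsum1 : AnalyticAt ℂ (fun s => ∑ j, (c j : ℂ) * zz j s) s₁ :=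
      Finset.analyticAt_fun_sum _ fun j _ => analyticAt_const.mul (az j)
    have hsum2 : AnalyticAt ℂ (fun s => ∑ j, (d j : ℂ) * zf τ (t j) (zz j s)) s₁ :=
      Finset.analyticAt_fun_sum _ fun j _ => analyticAt_const.mul (azf j)
    have e0 : (fun s => ∑ j, ((c j : ℂ) * zz j s - (d j : ℂ) * zf τ (t j) (zz j s))) =
        fun s => ∑ j, (c j : ℂ) * zz j s - ∑ j, (d j : ℂ) * zf τ (t j) (zz j s) := by
      funext s
      rw [Finset.sum_sub_distrib]
    rw [e0]
    refine alg1_of_gm (hsum1.sub hsum2) ?_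
    have e1 : gm s₁ (fun s => ∑ j, (c j : ℂ) * zz j s - ∑ j, (d j : ℂ) * zf τ (t j) (zz j s)) =
        ∑ j, algebraMap ℂ (MG s₁) (c j) * gm s₁ (zz j) -
        ∑ j, algebraMap ℂ (MG s₁) (d j) * gm s₁ (fun s => zf τ (t j) (zz j s)) := by
      rw [gm_sum_lin _ zz az, gm_sum_lin _ (fun j s => zf τ (t j) (zz j s)) azf,
        gm_sub hsum1.meromorphicAt hsum2.meromorphicAt]
    have e2 : MG.DD (gm s₁ (fun s => ∑ j, (c j : ℂ) * zz j s -
        ∑ j, (d j : ℂ) * zf τ (t j) (zz j s)) - Φ h) = 0 := by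
      rw [map_sub, e1, map_sub, map_sum, map_sum, hD, ← RA, map_sum, sub_eq_zero,
        ← Finset.sum_sub_distrib]
      refine Finset.sum_congr rfl fun j _ => ?_
      rw [Derivation.leibniz, Derivation.leibniz, MG.DD.map_algebraMap, MG.DD.map_algebraMap,
        ezf j, ez j, hD, map_mul, map_add, map_mul, hC, hC, map_div₀]
      simp only [smul_zero, add_zero, smul_eq_mul]
      cases t j <;> simp <;> ring
    obtain ⟨k, hk⟩ := MG.DD_ker _ e2
    have e3 : gm s₁ (fun s => ∑ j, (c j : ℂ) * zz j s -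
        ∑ j, (d j : ℂ) * zf τ (t j) (zz j s)) = Φ h + algebraMap ℂ (MG s₁) k := by
      rw [hk]
      ring
    rw [e3]
    exact (halg h).add (isAlgebraic_algebraMap
      (R := IntermediateField.adjoin ℂ {gm s₁ (fun s => s)}) (algebraMap ℂ _ k))
  · have hsum1 : AnalyticAt ℂ (fun s => ∑ j, (u j : ℂ) * zz j s) s₁ :=
      Finset.analyticAt_fun_sum _ fun j _ => analyticAt_const.mul (az j)
    have e2 : MG.DD (gm s₁ (fun s => ∑ j, (u j : ℂ) * zz j s)) = 0 := by
      rw [← gm_sum_lin _ zz az, map_sum, ← map_zero Φ, ← RB, map_sum]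
      refine Finset.sum_congr rfl fun j _ => ?_
      rw [Derivation.leibniz, MG.DD.map_algebraMap, hDD j, map_mul, hC]
      simp
    obtain ⟨k, hk⟩ := MG.DD_ker _ e2
    refine ⟨k, ?_⟩
    rw [← gm_const] at hk
    exact (gm_eq_iff hsum1 analyticAt_const).1 hk.symm

end Pool.Agent.Work.MP_8da9ea_nt.Fx

end

section

/-!
# Choice of independent special curves
-/

set_option autoImplicit false

namespace Pool.Agent.Work.MP_8da9ea_nt.Fx

open Complex Filter Topology Module Pool.Agent.ED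

/-- rows spanning the space contain a nonsingular matrix -/
theorem exists_det_ne_zero {ν R : Type} [Fintype ν] [DecidableEq ν] (row : R → ν → ℂ)
    (h : ∀ β : ν → ℂ, (∀ r, ∑ k, β k * row r k = 0) → β = 0) :
    ∃ ρ : ν → R, (Matrix.of fun k a => row (ρ a) k).det ≠ 0 := by
  classical
  have hspan : Submodule.span ℂ (Set.range row) = ⊤ := by
    by_contra hne
    obtain ⟨f, hf0, hf⟩ := Submodule.exists_le_ker_of_lt_top _ (lt_top_iff_ne_top.2 hne)
    have h1 : (fun k => f (Pi.single k 1)) = 0 := by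
      apply h
      intro r
      have h2 : f (row r) = 0 := hf (Submodule.subset_span ⟨r, rfl⟩)
      rw [← h2]
      conv_rhs => rw [← Finset.univ_sum_single (row r)]
      rw [map_sum]
      refine Finset.sum_congr rfl fun k _ => ?_
      have h3 : (Pi.single k (row r k) : ν → ℂ) = row r k • Pi.single k 1 := by
        rw [← Pi.single_smul, smul_eq_mul, mul_one]
      rw [h3, map_smul, smul_eq_mul, mul_comm]
    apply hf0
    apply LinearMap.pi_ext'
    intro k
    ext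
    simpa using congrFun h1 k
  obtain ⟨b, hb, hbs, hbl⟩ := exists_linearIndependent ℂ (Set.range row)
  rw [hspan] at hbs
  set B := Basis.mk hbl (by rw [Subtype.range_coe]; exact hbs.ge) with hB
  have hfin : Finite b := B.linearIndependent.finite
  have : Fintype b := Fintype.ofFinite b
  have hcard : Fintype.card ν = Fintype.card b := by
    have h1 := Module.finrank_eq_card_basis B
    rw [Module.finrank_fintype_fun_eq_card] at h1
    exact h1
  let e : ν ≃ b := Fintype.equivOfCardEq hcard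
  choose ρ hρ using fun a : b => hb a.2
  refine ⟨fun a => ρ (e a), ?_⟩
  have hli : LinearIndependent ℂ (fun a : ν => row (ρ (e a))) := by
    have h1 := hbl.comp e e.injective
    have e1 : (fun a : ν => row (ρ (e a))) = (Subtype.val ∘ e) := funext fun a => hρ (e a)
    rw [e1]
    exact h1
  have h2 : (Matrix.of fun k a => row (ρ (e a)) k) =
      (Matrix.of fun a k => row (ρ (e a)) k).transpose := rfl
  rw [h2, Matrix.det_transpose]
  have h3 : IsUnit (Matrix.of fun a k => row (ρ (e a)) k) :=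
    Matrix.linearIndependent_rows_iff_isUnit.1 hli
  exact ((Matrix.isUnit_iff_isUnit_det _).1 h3).ne_zero

/-- elements of the field of germs as meromorphic functions compatible with the evaluations -/
theorem exists_rep_ev {T : Type} {C0 : IntermediateField ℚ ℂ} {u₀ : ℂ} (f : T → ℂ → ℂ)
    (hf : ∀ t, AnalyticAt ℂ (f t) u₀)
    (g : T → IntermediateField.adjoin C0 (Set.range fun t => gm u₀ (f t)))
    (hg : ∀ t, (g t : MG u₀) = gm u₀ (f t))
    (m : IntermediateField.adjoin C0 (Set.range fun t => gm u₀ (f t))) :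
    ∃ F : ℂ → ℂ, MeromorphicAt F u₀ ∧ (m : MG u₀) = gm u₀ F ∧
      ∀ (u₁ : ℂ) (ev : IntermediateField.adjoin C0 (Set.range fun t => gm u₀ (f t)) →ₐ[C0] ℂ),
        (∀ t, ev (g t) = f t u₁) → ev m = F u₁ := by
  obtain ⟨x, hx⟩ := m
  have key : ∃ F : ℂ → ℂ, MeromorphicAt F u₀ ∧ x = gm u₀ F ∧
      ∀ (u₁ : ℂ) (ev : IntermediateField.adjoin C0 (Set.range fun t => gm u₀ (f t)) →ₐ[C0] ℂ),
        (∀ t, ev (g t) = f t u₁) → ∀ hx : x ∈ IntermediateField.adjoin C0
          (Set.range fun t => gm u₀ (f t)), ev ⟨x, hx⟩ = F u₁ := by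
    induction hx using IntermediateField.adjoin_induction with
    | mem x hx =>
      obtain ⟨t, rfl⟩ := hx
      refine ⟨f t, (hf t).meromorphicAt, rfl, fun u₁ ev hev hx => ?_⟩
      rw [← hev t]
      congr 1
      exact Subtype.ext (hg t).symm
    | algebraMap a =>
      refine ⟨fun _ => (a : ℂ), MeromorphicAt.const _ _, ?_, fun u₁ ev hev hx => ?_⟩
      · rw [gm_const]
        rfl
      · exact ev.commutes a
    | add x y hx hy h1 h2 =>
      obtain ⟨F1, m1, e1, v1⟩ := h1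
      obtain ⟨F2, m2, e2, v2⟩ := h2
      refine ⟨fun u => F1 u + F2 u, m1.fun_add m2, ?_, fun u₁ ev hev h => ?_⟩
      · rw [e1, e2, gm_add m1 m2]
      · beta_reduce
        rw [← v1 u₁ ev hev hx, ← v2 u₁ ev hev hy, ← map_add]
        rfl
    | inv x hx h =>
      obtain ⟨F1, m1, e1, v1⟩ := h
      refine ⟨fun u => (F1 u)⁻¹, m1.fun_inv, ?_, fun u₁ ev hev h => ?_⟩
      · rw [e1, gm_inv m1]
      · beta_reduce
        rw [← v1 u₁ ev hev hx, ← map_inv₀]
        rfl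
    | mul x y hx hy h1 h2 =>
      obtain ⟨F1, m1, e1, v1⟩ := h1
      obtain ⟨F2, m2, e2, v2⟩ := h2
      refine ⟨fun u => F1 u * F2 u, m1.fun_mul m2, ?_, fun u₁ ev hev h => ?_⟩
      · rw [e1, e2, gm_mul m1 m2]
      · beta_reduce
        rw [← v1 u₁ ev hev hx, ← v2 u₁ ev hev hy, ← map_mul]
        rfl
  obtain ⟨F, h1, h2, h3⟩ := key
  exact ⟨F, h1, h2, fun u₁ ev hev => h3 u₁ ev hev hx⟩

/-- a meromorphic germ vanishing on the complement of a countable set vanishes -/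
lemma gm_zero_of_countable {u₀ : ℂ} {F : ℂ → ℂ} (hF : MeromorphicAt F u₀) {ρ : ℝ} (hρ : 0 < ρ)
    {E : Set ℂ} (hE : E.Countable) (h : ∀ u ∈ Metric.ball u₀ ρ, u ∉ E → F u = 0) :
    gm u₀ F = 0 := by
  rcases hF.eventually_eq_zero_or_eventually_ne_zero with h1 | h1
  · rw [gm_mk hF, MG.mk_zero, MG.mk_eq_iff]
    exact h1
  · exfalso
    have h2 : ∀ᶠ u in 𝓝[≠] u₀, u ∈ Metric.ball u₀ ρ ∧ F u ≠ 0 := by
      filter_upwards [h1, nhdsWithin_le_nhds (Metric.ball_mem_nhds u₀ hρ)] with u k1 k2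
      exact ⟨k2, k1⟩
    rw [eventually_nhdsWithin_iff] at h2
    have h3 := (hE.union (Set.countable_singleton u₀)).dense_compl ℂ
    obtain ⟨u, hu1, hu2⟩ := mem_closure_iff_nhds.1 (h3 u₀) _ h2
    have h4 : u ≠ u₀ := fun h => hu2 (Or.inr h)
    exact (hu1 h4).2 (h u (hu1 h4).1 fun h => hu2 (Or.inl h))

end Pool.Agent.Work.MP_8da9ea_nt.Fx

end

section

/-!
# The theorem for a fixed curve over a countable field
-/

set_option autoImplicit false

namespace Pool.Agent.Work.MP_8da9ea_nt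

open Complex Filter Topology MvPolynomial

section arcs

variable {ι κ' : Type}

/-- the functions -/
abbrev SSb (ι κ' : Type) := (Fin 4 × ι) ⊕ (Fin 2 × κ')

/-- the values of the functions -/
noncomputable def FFb (τ : ℂ) (y : ι ⊕ κ' → ℂ) : SSb ι κ' → ℂ
  | Sum.inl (k, i) => ![y (Sum.inl i), wp 1 τ (y (Sum.inl i)), wpd τ (y (Sum.inl i)),
      zt 1 τ (y (Sum.inl i))] k
  | Sum.inr (k, l) => ![y (Sum.inr l), exp (y (Sum.inr l))] k

variable [DecidableEq ι] [DecidableEq κ'] {k : Type} [Field k] (g : k)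

/-- the partial derivatives as polynomials in the functions -/
noncomputable def PPb : ι ⊕ κ' → SSb ι κ' → MvPolynomial (SSb ι κ') k
  | Sum.inl j, Sum.inl (k, i) =>
      if j = i then ![1, X (Sum.inl (2, i)), 6 * X (Sum.inl (1, i)) ^ 2 - C (1 / 2) * C g,
        -X (Sum.inl (1, i))] k else 0
  | Sum.inr j, Sum.inr (k, l) => if j = l then ![1, X (Sum.inr (1, l))] k else 0
  | _, _ => 0

/-- the domain -/
def DDb (τ : ℂ) (ι κ' : Type) : Set (ι ⊕ κ' → ℂ) := {y | ∀ i : ι, y (Sum.inl i) ∉ Lam τ}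

omit [DecidableEq ι] [DecidableEq κ'] in
lemma DDb_open [Finite ι] {τ : ℂ} (hτ : 0 < τ.im) : IsOpen (DDb τ ι κ') := by
  have h : DDb τ ι κ' = ⋂ i : ι, {y | (τ, y (Sum.inl i)) ∈ Dom} := by
    ext y
    simp only [DDb, Dom, Set.mem_ofPred_eq, Set.mem_iInter]
    exact ⟨fun h i => ⟨hτ, h i⟩, fun h i => (h i).2⟩
  rw [h]
  exact isOpen_iInter_of_finite fun i =>
    Dom_open.preimage (continuous_const.prodMk (continuous_apply (Sum.inl i)))

lemma hasFDerivAt_coord {N : Type} [Fintype N] [DecidableEq N] {y : N → ℂ} (a : N) {H : ℂ → ℂ}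
    {A : ℂ} (hH : HasDerivAt H A (y a)) (c : N → ℂ) (hc : ∀ b, c b = if b = a then A else 0) :
    HasFDerivAt (fun y : N → ℂ => H (y a))
      (∑ b, c b • ContinuousLinearMap.proj (R := ℂ) (φ := fun _ : N => ℂ) b) y := by
  have h2 := hH.hasFDerivAt.comp y
    (ContinuousLinearMap.proj (R := ℂ) (φ := fun _ : N => ℂ) a).hasFDerivAt
  refine h2.congr_fderiv ?_
  ext v
  rw [sum_apply, Finset.sum_eq_single a]
  · simp [hc, mul_comm]
  · intro b _ hb
    simp [hc, hb]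
  · intro h
    exact absurd (Finset.mem_univ a) h

theorem hasFDerivAt_FFb [Fintype ι] [Fintype κ'] [Algebra k ℂ] [CharZero k] {τ : ℂ}
    (hτ : 0 < τ.im) (hg : algebraMap k ℂ g = gg2 τ) {y : ι ⊕ κ' → ℂ} (hy : y ∈ DDb τ ι κ')
    (s : SSb ι κ') :
    HasFDerivAt (fun y => FFb τ y s) (∑ a, aeval (FFb τ y) (PPb g a s) •
      ContinuousLinearMap.proj (R := ℂ) (φ := fun _ : ι ⊕ κ' => ℂ) a) y := by
  have h20 : algebraMap k ℂ 2 = 2 := map_ofNat (algebraMap k ℂ) 2
  rcases s with ⟨k, i⟩ | ⟨k, l⟩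
  · have hz := hy i
    have key : ∀ (H : ℂ → ℂ) (A : ℂ), HasDerivAt H A (y (Sum.inl i)) →
        (∀ y' : ι ⊕ κ' → ℂ, FFb τ y' (Sum.inl (k, i)) = H (y' (Sum.inl i))) →
        aeval (FFb τ y) (PPb g (Sum.inl i) (Sum.inl (k, i)) : MvPolynomial (SSb ι κ') _) = A →
        HasFDerivAt (fun y : ι ⊕ κ' → ℂ => FFb τ y (Sum.inl (k, i)))
          (∑ a, aeval (FFb τ y) (PPb g a (Sum.inl (k, i))) •
            ContinuousLinearMap.proj (R := ℂ) (φ := fun _ : ι ⊕ κ' => ℂ) a) y := by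
      intro H A h1 h2 h3
      simp only [h2]
      refine hasFDerivAt_coord _ h1 _ ?_
      rintro (j | j)
      · by_cases hj : j = i
        · subst hj; simp [h3]
        · simp [PPb, hj]
      · simp [PPb]
    fin_cases k
    · exact key (fun z => z) 1 (hasDerivAt_id _) (fun _ => rfl) (by simp [PPb])
    · exact key (wp 1 τ) _ (hasDerivAt_wp_z hτ hz) (fun _ => rfl) (by simp [PPb, FFb])
    · refine key (wpd τ) _ (hasDerivAt_wpd_z hτ hz) (fun _ => rfl) ?_
      rw [wpdd_eq hτ hz]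
      simp [PPb, FFb, hg]
      rw [h20]
      ring
    · exact key (zt 1 τ) _ (hasDerivAt_zt_z hτ hz) (fun _ => rfl) (by simp [PPb, FFb])
  · have key : ∀ (H : ℂ → ℂ) (A : ℂ), HasDerivAt H A (y (Sum.inr l)) →
        (∀ y' : ι ⊕ κ' → ℂ, FFb τ y' (Sum.inr (k, l)) = H (y' (Sum.inr l))) →
        aeval (FFb τ y) (PPb g (Sum.inr l) (Sum.inr (k, l)) : MvPolynomial (SSb ι κ') _) = A →
        HasFDerivAt (fun y : ι ⊕ κ' → ℂ => FFb τ y (Sum.inr (k, l)))
          (∑ a, aeval (FFb τ y) (PPb g a (Sum.inr (k, l))) •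
            ContinuousLinearMap.proj (R := ℂ) (φ := fun _ : ι ⊕ κ' => ℂ) a) y := by
      intro H A h1 h2 h3
      simp only [h2]
      refine hasFDerivAt_coord _ h1 _ ?_
      rintro (j | j)
      · simp [PPb]
      · by_cases hj : j = l
        · subst hj; simp [h3]
        · simp [PPb, hj]
    fin_cases k
    · exact key (fun z => z) 1 (hasDerivAt_id _) (fun _ => rfl) (by simp [PPb])
    · exact key exp _ (Complex.hasDerivAt_exp _) (fun _ => rfl) (by simp [PPb, FFb])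

end arcs

/-- the index of a function -/
def fxIx {ι κ' : Type} : (Fin 3 × ι) ⊕ (Fin 2 × κ') → SSb ι κ'
  | Sum.inl (k, i) => Sum.inl (![0, 1, 3] k, i)
  | Sum.inr (k, l) => Sum.inr (k, l)

/-- the functions along an arc -/
noncomputable def GGb {ι κ' : Type} (τ : ℂ) (z : ι → ℂ → ℂ) (t : κ' → ℂ → ℂ) : SSb ι κ' → ℂ → ℂ
  | Sum.inl (k, i) => ![z i, fun u => wp 1 τ (z i u), fun u => wpd τ (z i u),
      fun u => zt 1 τ (z i u)] k
  | Sum.inr (k, l) => ![t l, fun u => exp (t l u)] k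

/-- elements of the endomorphism field lie in `ℚ(τ)` -/
lemma isEnd_mem {k : IntermediateField ℚ ℂ} {τ g : ℂ} (hτ : τ ∈ k) (hg : IsEnd τ g) : g ∈ k := by
  obtain ⟨N, hN, ⟨q, hq⟩, -⟩ := hg
  have h1 : (N : ℂ) ≠ 0 := by exact_mod_cast hN
  have h2 : g = (N : ℂ)⁻¹ * ((q.1 : ℂ) * 1 + (q.2 : ℂ) * τ) := by
    have h3 : (q.1 : ℂ) * 1 + (q.2 : ℂ) * τ = N * g := hq
    rw [h3]
    field_simp
  rw [h2]
  exact mul_mem (inv_mem (intCast_mem _ _)) (add_mem (mul_mem (intCast_mem _ _) (one_mem _))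
    (mul_mem (intCast_mem _ _) hτ))

/-- **The theorem for a fixed curve, normalised.** -/
theorem fix_case (FX : FXprop) (k : IntermediateField ℚ ℂ) [Countable k] {τ : ℂ} (hτ : 0 < τ.im)
    (hτk : τ ∈ k) (hgk : gg2 τ ∈ k) (n s : ℕ) :
    ∃ E : Set ℂ, E.Countable ∧ ∀ (z : Fin n → ℂ) (t : Fin s → ℂ), 0 < n + s →
      (∀ g : Fin n → ℂ, (∀ i, IsEnd τ (g i)) → ∑ i, g i * z i ∈ E → g = 0) →
      (∀ m : Fin s → ℤ, ∑ l, (m l : ℂ) * t l ∈ E → m = 0) →
      ∃ S : Finset ((Fin 3 × Fin n) ⊕ (Fin 2 × Fin s)),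
        AlgebraicIndependent k
          (fun i : S => fxF z (fun i => wp 1 τ (z i)) (fun i => zt 1 τ (z i)) t
            (fun j => exp (t j)) i) ∧
        2 * n + s + 1 ≤ S.card := by
  classical
  obtain ⟨E, hE, harc⟩ := exists_arcs_dir (k := k) (N := Fin n ⊕ Fin s)
    (σ := SSb (Fin n) (Fin s)) (DDb τ (Fin n) (Fin s)) (DDb_open hτ) (FFb τ)
    (PPb (⟨gg2 τ, hgk⟩ : k)) (fun x hx s => hasFDerivAt_FFb _ hτ rfl hx s)
  have hL : (Lam τ).Countable := Set.countable_range _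
  refine ⟨E ∪ (Lam τ ∪ (fun w => w / 2) '' Lam τ), hE.union (hL.union (hL.image _)), ?_⟩
  intro z t hns hzi hti
  have hsing : ∀ i, ∑ j, (Pi.single i (1 : ℂ) : Fin n → ℂ) j * z j = z i := by
    intro i
    rw [Finset.sum_eq_single i]
    · rw [Pi.single_eq_same, one_mul]
    · intro j _ hj
      rw [Pi.single_eq_of_ne hj, zero_mul]
    · intro h
      exact absurd (Finset.mem_univ i) h
  have hsE : ∀ i j, IsEnd τ ((Pi.single i (1 : ℂ) : Fin n → ℂ) j) := by
    intro i j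
    by_cases hj : j = i
    · subst hj
      rw [Pi.single_eq_same]
      exact isEnd_one τ
    · rw [Pi.single_eq_of_ne hj]
      exact isEnd_zero τ
  have hs0 : ∀ i : Fin n, (Pi.single i (1 : ℂ) : Fin n → ℂ) ≠ 0 := by
    intro i
    simp
  have hzL : ∀ i, z i ∉ Lam τ ∧ wpd τ (z i) ≠ 0 := by
    intro i
    have h1 : z i ∉ Lam τ := fun h => hs0 i (hzi _ (hsE i) (by
      rw [hsing]
      exact Or.inr (Or.inl h)))
    refine ⟨h1, fun h => hs0 i (hzi _ (hsE i) (by
      rw [hsing]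
      exact Or.inr (Or.inr ⟨2 * z i, wpd_zero hτ h1 h, by simp⟩)))⟩
  set x : Fin n ⊕ Fin s → ℂ := Sum.elim z t with hx
  have hxD : x ∈ DDb τ (Fin n) (Fin s) := fun i => (hzL i).1
  obtain ⟨γ, hγ, hγ0, hγP, hγl⟩ := harc x hxD
  set zc : Fin n → ℂ → ℂ := fun i u => γ u (Sum.inl i) with hzc
  set tc : Fin s → ℂ → ℂ := fun l u => γ u (Sum.inr l) with htc
  have hγa : ∀ o, AnalyticAt ℂ (fun u => γ u o) 0 := fun o =>
    (ContinuousLinearMap.proj (R := ℂ) (φ := fun _ : Fin n ⊕ Fin s => ℂ) o).analyticAt _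
      |>.fun_comp hγ
  have hzca : ∀ i, AnalyticAt ℂ (zc i) 0 := fun i => hγa _
  have htca : ∀ l, AnalyticAt ℂ (tc l) 0 := fun l => hγa _
  have hzc0 : ∀ i, zc i 0 = z i := by
    intro i
    simp only [hzc, hγ0]
    rfl
  have hzL' : ∀ i, zc i 0 ∉ Lam τ ∧ wpd τ (zc i 0) ≠ 0 := by
    intro i
    rw [hzc0]
    exact hzL i
  -- the germs
  set G : SSb (Fin n) (Fin s) → ℂ → ℂ := GGb τ zc tc with hG
  have hGa : ∀ s, AnalyticAt ℂ (G s) 0 := by
    rintro (⟨k, i⟩ | ⟨k, l⟩)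
    · fin_cases k
      · exact hzca i
      · exact fx_wp (hzca i) hτ (hzL' i).1
      · exact fx_wpd (hzca i) hτ (hzL' i).1
      · exact fx_zt (hzca i) hτ (hzL' i).1
    · fin_cases k
      · exact htca l
      · exact (htca l).cexp
  have hGγ : ∀ u, FFb τ (γ u) = fun s => G s u := by
    intro u
    funext s
    rcases s with ⟨k, i⟩ | ⟨k, l⟩
    · fin_cases k <;> simp [FFb, hG, GGb, hzc]
    · fin_cases k <;> simp [FFb, hG, GGb, htc]
  have hrel : ∀ P : MvPolynomial (SSb (Fin n) (Fin s)) k,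
      aeval (FFb τ x) P = 0 → aeval (fun s => gm 0 (G s)) P = 0 := by
    intro P h
    obtain ⟨h1, h2⟩ := gm_aeval G hGa P
    rw [h2]
    have h3 := hγP P h
    have h4 : (fun u => aeval (fun s => G s u) P) =ᶠ[𝓝 0] fun _ => (0 : ℂ) := by
      filter_upwards [h3] with u h5
      rw [← hGγ]
      exact h5
    rw [gm_eq_of h1 h4, gm_const, map_zero]
  obtain ⟨S, hS, hScard⟩ := core_fix FX hτ zc hzca hzL' tc htca (by
      intro g hgE hg0 C hC
      have hgk' : ∀ i, g i ∈ k := fun i => isEnd_mem hτk (hgE i)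
      have hsum : ∀ y : Fin n ⊕ Fin s → ℂ,
          ∑ a, algebraMap k ℂ ((Sum.elim (fun i => (⟨g i, hgk' i⟩ : k)) (fun _ => 0) :
            Fin n ⊕ Fin s → k) a) * y a = ∑ i, g i * y (Sum.inl i) := by
        intro y
        rw [Fintype.sum_sum_type]
        simp only [Sum.elim_inl, Sum.elim_inr, map_zero, zero_mul, Finset.sum_const_zero, add_zero]
        rfl
      refine hγl (Sum.elim (fun i => (⟨g i, hgk' i⟩ : k)) (fun _ => 0)) ?_ C ?_
      · rw [hsum]
        exact fun h => hg0 (hzi g hgE (Or.inl h))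
      · filter_upwards [hC] with u hu
        rw [hsum]
        exact hu) (by
      intro m hm0 C hC
      have hsum : ∀ y : Fin n ⊕ Fin s → ℂ,
          ∑ a, algebraMap k ℂ ((Sum.elim (fun _ => 0) (fun l => ((m l : ℤ) : k)) :
            Fin n ⊕ Fin s → k) a) * y a = ∑ l, (m l : ℂ) * y (Sum.inr l) := by
        intro y
        rw [Fintype.sum_sum_type]
        simp
      refine hγl (Sum.elim (fun _ => 0) (fun l => ((m l : ℤ) : k))) ?_ C ?_
      · rw [hsum]
        exact fun h => hm0 (hti m (Or.inl h))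
      · filter_upwards [hC] with u hu
        rw [hsum]
        exact hu) (by
      rcases Nat.eq_zero_or_pos n with h | h
      · exact ⟨Sum.inr ⟨0, by omega⟩⟩
      · exact ⟨Sum.inl ⟨0, h⟩⟩)
  refine ⟨S, ?_, by simpa using hScard⟩
  have hb : (fun i : S => fxF (fun i => gm 0 (zc i)) (fun i => gm 0 fun u => wp 1 τ (zc i u))
        (fun i => gm 0 fun u => zt 1 τ (zc i u)) (fun l => gm 0 (tc l))
        (fun l => gm 0 fun u => exp (tc l u)) i) =
      fun i : S => (fun s => gm 0 (G s)) (fxIx (i : (Fin 3 × Fin n) ⊕ (Fin 2 × Fin s))) := by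
    funext i
    rcases i with ⟨⟨k, i⟩ | ⟨k, l⟩, hi⟩
    · fin_cases k <;> rfl
    · fin_cases k <;> rfl
  have ha : (fun i : S => fxF z (fun i => wp 1 τ (z i)) (fun i => zt 1 τ (z i)) t
            (fun j => exp (t j)) i) =
      fun i : S => FFb τ x (fxIx (i : (Fin 3 × Fin n) ⊕ (Fin 2 × Fin s))) := by
    funext i
    rcases i with ⟨⟨k, i⟩ | ⟨k, l⟩, hi⟩
    · fin_cases k <;> rfl
    · fin_cases k <;> rfl
  rw [ha]
  rw [hb] at hS
  exact indep_of_rel (FFb τ x) (fun s => gm 0 (G s)) hrel _ hS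

end Pool.Agent.Work.MP_8da9ea_nt

end

section

/-!
# Families of independent special curves through an arc
-/

set_option autoImplicit false

namespace Pool.Agent.Work.MP_8da9ea_nt.Fx

open Complex Filter Topology Module Pool.Agent.ED

/-- the functions generating the field -/
noncomputable def fF {J : Type} [Fintype J] (τ : ℂ) (t : J → Bool) (w : J → ℂ → ℂ) (h : ℂ → ℂ) :
    (J ⊕ J) ⊕ Unit → ℂ → ℂ
  | Sum.inl (Sum.inl j) => fun v => ef τ (t j) (w j v)
  | Sum.inl (Sum.inr j) => fun v => df τ (t j) (w j v)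
  | Sum.inr _ => h

/-- **Independent special curves.** -/
theorem curves {J ν : Type} [Fintype J] [DecidableEq J] [Fintype ν] [DecidableEq ν] {τ u₀ : ℂ}
    (hτ : 0 < τ.im) (t : J → Bool) (w : J → ℂ → ℂ) (hw : ∀ j, AnalyticAt ℂ (w j) u₀)
    (hwL : ∀ j, w j u₀ ∉ pol τ (t j) ∧ df τ (t j) (w j u₀) ≠ 0)
    (c d u : J → ℂ) (h : ℂ → ℂ) (hh : AnalyticAt ℂ h u₀)
    (HA : ∀ X : Derivation ℂ (MG u₀) (MG u₀),
      ∑ j, (algebraMap ℂ (MG u₀) (c j) + algebraMap ℂ (MG u₀) (d j) *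
        (if t j then gx τ u₀ (t j) (w j) else 0)) *
        (X (gx τ u₀ (t j) (w j)) / gy τ u₀ (t j) (w j)) = X (gm u₀ h))
    (HB : ∀ X : Derivation ℂ (MG u₀) (MG u₀), ∑ j, algebraMap ℂ (MG u₀) (u j) *
        (X (gx τ u₀ (t j) (w j)) / gy τ u₀ (t j) (w j)) = 0)
    (σ : ν → J)
    (hS : ∀ β : ν → ℂ, (∀ X : Derivation ℂ (MG u₀) (MG u₀), ∑ k, algebraMap ℂ (MG u₀) (β k) *
        (X (gx τ u₀ (t (σ k)) (w (σ k))) / gy τ u₀ (t (σ k)) (w (σ k))) = 0) → β = 0) :
    ∃ (s₀ : ν → ℂ) (ww : J → ν → ℂ → ℂ), (∀ j a, AnalyticAt ℂ (ww j a) (s₀ a)) ∧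
      (∀ j a, ww j a (s₀ a) ∉ pol τ (t j)) ∧
      (∀ j a, Alg1 (s₀ a) (fun s => ef τ (t j) (ww j a s))) ∧
      (Matrix.of fun k a => deriv (ww (σ k) a) (s₀ a)).det ≠ 0 ∧
      (∀ a, Alg1 (s₀ a) (fun s => ∑ j, (c j * ww j a s - d j * zf τ (t j) (ww j a s)))) ∧
      ∀ a, ∃ k : ℂ, ∀ᶠ s in 𝓝 (s₀ a), ∑ j, u j * ww j a s = k := by
  classical
  have hp : ∀ j, ∀ᶠ v in 𝓝 u₀, w j v ∉ pol τ (t j) := fun j =>
    (hw j).continuousAt.eventually (notMem_pol_ev hτ (t j) (hwL j).1)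
  have aef : ∀ j, AnalyticAt ℂ (fun v => ef τ (t j) (w j v)) u₀ := fun j =>
    AnalyticAt.fun_comp (analyticAt_ef hτ (t j) (hwL j).1) (hw j)
  have adf : ∀ j, AnalyticAt ℂ (fun v => df τ (t j) (w j v)) u₀ := fun j =>
    AnalyticAt.fun_comp (analyticAt_df hτ (t j) (hwL j).1) (hw j)
  set f := fF τ t w h with hf
  have hfan : ∀ i, AnalyticAt ℂ (f i) u₀ := by
    rintro ((j | j) | j)
    · exact aef j
    · exact adf j
    · exact hh
  set cc : (J ⊕ J) ⊕ (J ⊕ Bool) → ℂ := Sum.elim (Sum.elim c d)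
    (Sum.elim u fun b => if b then gg2 τ else gg3 τ) with hcc
  obtain ⟨C0, hC0, hcC0, s, hs, hrest⟩ := special_curves f hfan cc
  set L := IntermediateField.adjoin C0 (Set.range fun t => gm u₀ (f t)) with hL
  obtain ⟨D, g, hg, hDg, hX, r, hr, hfr, E, hE, hpt⟩ := hrest
  -- constants in the countable field
  set cL : J → C0 := fun j => ⟨c j, hcC0 (Sum.inl (Sum.inl j))⟩ with hcL
  set dL : J → C0 := fun j => ⟨d j, hcC0 (Sum.inl (Sum.inr j))⟩ with hdL
  set uL : J → C0 := fun j => ⟨u j, hcC0 (Sum.inr (Sum.inl j))⟩ with huL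
  set g2 : C0 := ⟨gg2 τ, hcC0 (Sum.inr (Sum.inr true))⟩ with hg2
  set g3 : C0 := ⟨gg3 τ, hcC0 (Sum.inr (Sum.inr false))⟩ with hg3
  set x : J → L := fun j => g (Sum.inl (Sum.inl j)) with hx
  set y : J → L := fun j => g (Sum.inl (Sum.inr j)) with hy
  set hh' : L := g (Sum.inr ()) with hhh
  have ex : ∀ j, (x j : MG u₀) = gx τ u₀ (t j) (w j) := fun j => hg _
  have ey : ∀ j, (y j : MG u₀) = gy τ u₀ (t j) (w j) := fun j => hg _
  have eh : (hh' : MG u₀) = gm u₀ h := hg _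
  have hy0 : ∀ j, gy τ u₀ (t j) (w j) ≠ 0 := fun j => gmz_ne (adf j) (hwL j).2
  -- derivations in the big field
  have hDX : ∀ j₀ : s, ∃ X : Derivation ℂ (MG u₀) (MG u₀), ∀ m : L, X m = (D j₀ m : MG u₀) := by
    intro j₀
    obtain ⟨X, hX1⟩ := exists_derivation hs (fun i : s => if j₀ = i then (1 : MG u₀) else 0)
    refine ⟨X, fun m => ?_⟩
    rw [hX X m]
    have h1 : ∀ j : s, X (gm u₀ (f j)) = if j₀ = j then (1 : MG u₀) else 0 := hX1
    simp only [h1, ite_mul, one_mul, zero_mul, Finset.sum_ite_eq, Finset.mem_univ, if_true]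
  have RA : ∀ j₀ : s, ∑ j, (algebraMap C0 L (cL j) + algebraMap C0 L (dL j) *
      (if t j then x j else 0)) * (D j₀ (x j) / y j) = D j₀ hh' := by
    intro j₀
    obtain ⟨X, hX1⟩ := hDX j₀
    have h1 := HA X
    apply Subtype.ext
    rw [← hX1 hh', eh, ← h1]
    push_cast
    refine Finset.sum_congr rfl fun j _ => ?_
    rw [← ex j, ← ey j, hX1 (x j)]
    congr 1
    congr 1
    split_ifs <;> rfl
  have RB : ∀ j₀ : s, ∑ j, algebraMap C0 L (uL j) * (D j₀ (x j) / y j) = 0 := by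
    intro j₀
    obtain ⟨X, hX1⟩ := hDX j₀
    have h1 := HB X
    apply Subtype.ext
    refine Eq.trans ?_ h1
    push_cast
    refine Finset.sum_congr rfl fun j _ => ?_
    rw [← ex j, ← ey j, hX1 (x j)]
    rfl
  have hxy : ∀ j, if t j then y j ^ 2 = 4 * x j ^ 3 - algebraMap C0 L g2 * x j -
      algebraMap C0 L g3 else y j = x j := by
    intro j
    cases htj : t j
    · simp only [Bool.false_eq_true, if_false]
      apply Subtype.ext
      rw [ex, ey, htj]
      rfl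
    · simp only [if_true]
      apply Subtype.ext
      push_cast
      rw [ex, ey]
      have m1 := (aef j).meromorphicAt
      have m2 := (adf j).meromorphicAt
      have c2 : (algebraMap C0 (MG u₀) g2) = gm u₀ (fun _ => gg2 τ) := by
        rw [gm_const]
        rfl
      have c3 : (algebraMap C0 (MG u₀) g3) = gm u₀ (fun _ => gg3 τ) := by
        rw [gm_const]
        rfl
      change gy τ u₀ (t j) (w j) ^ 2 = 4 * gx τ u₀ (t j) (w j) ^ 3 - algebraMap C0 (MG u₀) g2 *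
        gx τ u₀ (t j) (w j) - algebraMap C0 (MG u₀) g3
      rw [c2, c3, gx, gy, gm_pow m2, gm_pow m1, gm_ofNat,
        gm_mul (MeromorphicAt.const _ _) (m1.fun_pow 3), gm_mul (MeromorphicAt.const _ _) m1,
        gm_sub ((MeromorphicAt.const _ _).fun_mul (m1.fun_pow 3))
          ((MeromorphicAt.const _ _).fun_mul m1),
        gm_sub (((MeromorphicAt.const _ _).fun_mul (m1.fun_pow 3)).fun_sub
          ((MeromorphicAt.const _ _).fun_mul m1)) (MeromorphicAt.const _ _)]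
      refine gm_eq_of ((adf j).pow 2) ?_
      filter_upwards [hp j] with v hv
      rw [htj] at hv ⊢
      exact wpd_sq hτ hv
  -- a small ball
  have hall : ∀ᶠ v in 𝓝 u₀, v ∈ Metric.ball u₀ r ∧
      ∀ j, w j v ∉ pol τ (t j) ∧ df τ (t j) (w j v) ≠ 0 := by
    have h1 : ∀ᶠ v in 𝓝 u₀, ∀ j, w j v ∉ pol τ (t j) ∧ df τ (t j) (w j v) ≠ 0 := by
      rw [Filter.eventually_all]
      intro j
      exact (hp j).and ((adf j).continuousAt.eventually_ne (hwL j).2)
    filter_upwards [h1, Metric.ball_mem_nhds u₀ hr] with v k1 k2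
    exact ⟨k2, k1⟩
  obtain ⟨ρ, hρ, hball⟩ := Metric.eventually_nhds_iff_ball.1 hall
  -- the rows
  have hev := fun (p : {v // v ∈ Metric.ball u₀ ρ ∧ v ∉ E}) =>
    hpt p.1 (hball p.1 p.2.1).1 p.2.2
  choose ev hev1 hev2 using hev
  obtain ⟨ρρ, hdet⟩ := exists_det_ne_zero (ν := ν)
    (R := {v // v ∈ Metric.ball u₀ ρ ∧ v ∉ E} × s)
    (fun q k => ev q.1 (D q.2 (x (σ k)) / y (σ k))) (by
      intro β hβ
      apply hS
      -- the combination vanishes in the field of germs for every direction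
      have hz : ∀ j₀ : s, ∑ k, algebraMap ℂ (MG u₀) (β k) *
          ((D j₀ (x (σ k)) / y (σ k) : L) : MG u₀) = 0 := by
        intro j₀
        choose F hF1 hF2 hF3 using fun k : ν =>
          exists_rep_ev f hfan g hg (D j₀ (x (σ k)) / y (σ k))
        have hFm : MeromorphicAt (fun v => ∑ k, β k * F k v) u₀ := by
          have : MeromorphicAt (∑ k, fun v => β k * F k v) u₀ :=
            MeromorphicAt.sum fun k _ => (MeromorphicAt.const _ _).fun_mul (hF1 k)
          convert this using 1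
          funext v
          simp
        have e1 : ∑ k, algebraMap ℂ (MG u₀) (β k) *
            ((D j₀ (x (σ k)) / y (σ k) : L) : MG u₀) = gm u₀ (fun v => ∑ k, β k * F k v) := by
          have e2 : ∀ S : Finset ν, MeromorphicAt (fun v => ∑ k ∈ S, β k * F k v) u₀ ∧
              ∑ k ∈ S, algebraMap ℂ (MG u₀) (β k) *
              ((D j₀ (x (σ k)) / y (σ k) : L) : MG u₀) = gm u₀ (fun v => ∑ k ∈ S, β k * F k v) := by
            intro S
            induction S using Finset.induction_on with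
            | empty =>
              simp only [Finset.sum_empty]
              refine ⟨MeromorphicAt.const _ _, ?_⟩
              rw [gm_const, map_zero]
            | insert k S hk ih =>
              simp only [Finset.sum_insert hk]
              have m1 := (MeromorphicAt.const (β k) u₀).fun_mul (hF1 k)
              refine ⟨m1.fun_add ih.1, ?_⟩
              rw [ih.2, hF2 k, ← gm_const, gm_mul (MeromorphicAt.const _ _) (hF1 k),
                gm_add m1 ih.1]
          exact (e2 Finset.univ).2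
        rw [e1]
        refine gm_zero_of_countable hFm hρ hE ?_
        intro v hv hvE
        have h1 := hβ (⟨v, hv, hvE⟩, j₀)
        rw [← h1]
        refine Finset.sum_congr rfl fun k _ => ?_
        rw [hF3 k v (ev ⟨v, hv, hvE⟩) (hev1 ⟨v, hv, hvE⟩)]
      intro X
      have e1 : ∀ k, X (gx τ u₀ (t (σ k)) (w (σ k))) / gy τ u₀ (t (σ k)) (w (σ k)) =
          ∑ j : s, X (gm u₀ (f j)) * ((D j (x (σ k)) / y (σ k) : L) : MG u₀) := by
        intro k
        rw [← ex, ← ey, hX X (x (σ k)), Finset.sum_div]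
        refine Finset.sum_congr rfl fun j _ => ?_
        push_cast
        rw [mul_div_assoc]
      simp only [e1, Finset.mul_sum]
      rw [Finset.sum_comm]
      refine Finset.sum_eq_zero fun j _ => ?_
      have e2 := hz j
      calc _ = X (gm u₀ (f j)) * ∑ k, algebraMap ℂ (MG u₀) (β k) *
            ((D j (x (σ k)) / y (σ k) : L) : MG u₀) := by
            rw [Finset.mul_sum]
            refine Finset.sum_congr rfl fun k _ => ?_
            ring
        _ = 0 := by rw [e2, mul_zero])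
  -- the curves
  have hcur : ∀ a : ν, ∃ zz : J → ℂ → ℂ,
      (∀ j, AnalyticAt ℂ (zz j) (f (ρρ a).2 (ρρ a).1)) ∧
      (∀ j, zz j (f (ρρ a).2 (ρρ a).1) ∉ pol τ (t j)) ∧
      (∀ j, Alg1 (f (ρρ a).2 (ρρ a).1) (fun s => ef τ (t j) (zz j s))) ∧
      (∀ j, deriv (zz j) (f (ρρ a).2 (ρρ a).1) = ev (ρρ a).1 (D (ρρ a).2 (x j) / y j)) ∧
      Alg1 (f (ρρ a).2 (ρρ a).1)
        (fun s => ∑ j, ((cL j : ℂ) * zz j s - (dL j : ℂ) * zf τ (t j) (zz j s))) ∧
      ∃ k : ℂ, ∀ᶠ s in 𝓝 (f (ρρ a).2 (ρρ a).1), ∑ j, (uL j : ℂ) * zz j s = k := by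
    intro a
    obtain ⟨Φ, hΦC, -, -, hΦan, hΦD, hΦalg⟩ := hev2 (ρρ a).1 (ρρ a).2
    exact curve_at hτ t (D (ρρ a).2) Φ (ev (ρρ a).1) hΦC hΦan hΦD hΦalg x y hh'
      (fun j => w j (ρρ a).1) (fun j => (hball _ (ρρ a).1.2.1).2 j)
      (fun j => hev1 (ρρ a).1 (Sum.inl (Sum.inl j))) (fun j => hev1 (ρρ a).1 (Sum.inl (Sum.inr j)))
      g2 g3 rfl rfl hxy cL dL uL (RA _) (RB _)
  choose zz k1 k2 k3 k4 k5 k6 using hcur
  refine ⟨fun a => f (ρρ a).2 (ρρ a).1, fun j a => zz a j, fun j a => k1 a j, fun j a => k2 a j,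
    fun j a => k3 a j, ?_, fun a => k5 a, fun a => k6 a⟩
  have e1 : (Matrix.of fun (k a : ν) => deriv (zz a (σ k)) (f (ρρ a).2 (ρρ a).1)) =
      Matrix.of fun k a => ev (ρρ a).1 (D (ρρ a).2 (x (σ k)) / y (σ k)) := by
    ext k a
    exact k4 a (σ k)
  rw [e1]
  exact hdet

end Pool.Agent.Work.MP_8da9ea_nt.Fx

end

section

/-!
# Relations between the forms attached to the points of a fixed elliptic curve
-/

set_option autoImplicit false

namespace Pool.Agent.Work.MP_8da9ea_nt.Fx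

open Complex Filter Topology

section germs

variable {τ u₀ : ℂ}

lemma DD_gx (hτ : 0 < τ.im) (t : Bool) {w : ℂ → ℂ} (hw : AnalyticAt ℂ w u₀)
    (hwL : w u₀ ∉ pol τ t ∧ df τ t (w u₀) ≠ 0) :
    MG.DD (gx τ u₀ t w) / gy τ u₀ t w = MG.DD (gm u₀ w) := by
  have hp : ∀ᶠ v in 𝓝 u₀, w v ∉ pol τ t := hw.continuousAt.eventually (notMem_pol_ev hτ t hwL.1)
  have ae : AnalyticAt ℂ (fun v => ef τ t (w v)) u₀ :=
    AnalyticAt.fun_comp (analyticAt_ef hτ t hwL.1) hw
  have ad : AnalyticAt ℂ (fun v => df τ t (w v)) u₀ :=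
    AnalyticAt.fun_comp (analyticAt_df hτ t hwL.1) hw
  have hy : gy τ u₀ t w ≠ 0 := gmz_ne ad hwL.2
  rw [div_eq_iff hy, gx, gy, DD_gm ae.meromorphicAt, DD_gm hw.meromorphicAt,
    gm_mul hw.deriv.meromorphicAt ad.meromorphicAt]
  refine gm_eq_of ae.deriv ?_
  filter_upwards [hp, hw.eventually_analyticAt] with v h1 h2
  have h3 : HasDerivAt (fun v => ef τ t (w v)) (df τ t (w v) * deriv w v) v :=
    (hasDerivAt_ef hτ t h1).comp v h2.differentiableAt.hasDerivAt
  rw [h3.deriv]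
  ring

lemma DD_zf (hτ : 0 < τ.im) (t : Bool) {w : ℂ → ℂ} (hw : AnalyticAt ℂ w u₀)
    (hwp : w u₀ ∉ pol τ t) :
    MG.DD (gm u₀ fun v => zf τ t (w v)) =
      -((if t then gx τ u₀ t w else 0) * MG.DD (gm u₀ w)) := by
  have hp : ∀ᶠ v in 𝓝 u₀, w v ∉ pol τ t := hw.continuousAt.eventually (notMem_pol_ev hτ t hwp)
  have ae : AnalyticAt ℂ (fun v => ef τ t (w v)) u₀ :=
    AnalyticAt.fun_comp (analyticAt_ef hτ t hwp) hw
  have az : AnalyticAt ℂ (fun v => zf τ t (w v)) u₀ :=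
    AnalyticAt.fun_comp (analyticAt_zf hτ t hwp) hw
  rw [DD_gm az.meromorphicAt, DD_gm hw.meromorphicAt]
  cases t
  · simp only [Bool.false_eq_true, if_false, zero_mul, neg_zero]
    rw [← map_zero (algebraMap ℂ (MG u₀)), ← gm_const]
    refine gm_eq_of az.deriv (Eventually.of_forall fun s => ?_)
    change deriv (fun _ : ℂ => (0 : ℂ)) s = 0
    simp
  · simp only [if_true]
    rw [gx, gm_mul ae.meromorphicAt hw.deriv.meromorphicAt,
      gm_neg (ae.meromorphicAt.fun_mul hw.deriv.meromorphicAt)]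
    refine gm_eq_of az.deriv ?_
    filter_upwards [hp, hw.eventually_analyticAt] with v h1 h2
    have h5 : HasDerivAt (fun v => zf τ true (w v)) (-wp 1 τ (w v) * deriv w v) v :=
      (hasDerivAt_zf hτ true h1).comp v h2.differentiableAt.hasDerivAt
    rw [h5.deriv]
    change -wp 1 τ (w v) * deriv w v = -(wp 1 τ (w v) * deriv w v)
    ring

/-- a linear relation between the forms gives a constant linear combination -/
lemma const_of_rel {J : Type} [Fintype J] (hτ : 0 < τ.im) (t : J → Bool) (w : J → ℂ → ℂ)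
    (hw : ∀ j, AnalyticAt ℂ (w j) u₀)
    (hwL : ∀ j, w j u₀ ∉ pol τ (t j) ∧ df τ (t j) (w j u₀) ≠ 0) (u : J → ℂ)
    (HB : ∑ j, algebraMap ℂ (MG u₀) (u j) *
        (MG.DD (gx τ u₀ (t j) (w j)) / gy τ u₀ (t j) (w j)) = 0) :
    ∃ k : ℂ, ∀ᶠ v in 𝓝 u₀, ∑ j, u j * w j v = k := by
  have hsum1 : AnalyticAt ℂ (fun s => ∑ j, u j * w j s) u₀ :=
    Finset.analyticAt_fun_sum _ fun j _ => analyticAt_const.mul (hw j)
  have e2 : MG.DD (gm u₀ (fun s => ∑ j, u j * w j s)) = 0 := by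
    rw [← gm_sum_lin _ w hw, map_sum, ← HB]
    refine Finset.sum_congr rfl fun j _ => ?_
    rw [Derivation.leibniz, MG.DD.map_algebraMap, DD_gx hτ (t j) (hw j) (hwL j)]
    simp
  obtain ⟨k, hk⟩ := MG.DD_ker _ e2
  refine ⟨k, ?_⟩
  rw [← gm_const] at hk
  exact (gm_eq_iff hsum1 analyticAt_const).1 hk.symm

end germs

/-- the form of the theorem for a single family -/
theorem FX_core {J : Type} [Fintype J] [DecidableEq J] {τ u₀ : ℂ}
    (hτ : 0 < τ.im) (t : J → Bool) (w : J → ℂ → ℂ) (hw : ∀ j, AnalyticAt ℂ (w j) u₀)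
    (hwL : ∀ j, w j u₀ ∉ pol τ (t j) ∧ df τ (t j) (w j u₀) ≠ 0)
    (c d : J → ℂ) (hne : ¬ ((∀ j, c j = 0) ∧ ∀ j, t j = true → d j = 0)) (T : MG u₀)
    (HA : ∀ X : Derivation ℂ (MG u₀) (MG u₀),
      ∑ j, (algebraMap ℂ (MG u₀) (c j) + algebraMap ℂ (MG u₀) (d j) *
        (if t j then gx τ u₀ (t j) (w j) else 0)) *
        (X (gx τ u₀ (t j) (w j)) / gy τ u₀ (t j) (w j)) = X T) :
    ∃ u : J → ℂ, u ≠ 0 ∧ (∃ k : ℂ, ∀ᶠ v in 𝓝 u₀, ∑ j, u j * w j v = k) ∧
      ((∀ j, (t j = true ∧ IsEnd τ (u j)) ∨ u j = 0) ∨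
        ∀ j, (t j = false ∧ ∃ q : ℚ, u j = q) ∨ u j = 0) := by
  classical
  by_cases hW : ∀ β : J → ℂ, (∀ X : Derivation ℂ (MG u₀) (MG u₀),
      ∑ k, algebraMap ℂ (MG u₀) (β k) *
        (X (gx τ u₀ (t k) (w k)) / gy τ u₀ (t k) (w k)) = 0) → β = 0
  · -- first case
    exfalso
    apply hne
    set h : ℂ → ℂ := fun v => ∑ j, c j * w j v - ∑ j, d j * zf τ (t j) (w j v) with hh
    have azf : ∀ j, AnalyticAt ℂ (fun v => zf τ (t j) (w j v)) u₀ := fun j =>
      AnalyticAt.fun_comp (analyticAt_zf hτ (t j) (hwL j).1) (hw j)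
    have hsum1 : AnalyticAt ℂ (fun s => ∑ j, c j * w j s) u₀ :=
      Finset.analyticAt_fun_sum _ fun j _ => analyticAt_const.mul (hw j)
    have hsum2 : AnalyticAt ℂ (fun s => ∑ j, d j * zf τ (t j) (w j s)) u₀ :=
      Finset.analyticAt_fun_sum _ fun j _ => analyticAt_const.mul (azf j)
    have hha : AnalyticAt ℂ h u₀ := hsum1.sub hsum2
    have e1 : gm u₀ h = ∑ j, algebraMap ℂ (MG u₀) (c j) * gm u₀ (w j) -
        ∑ j, algebraMap ℂ (MG u₀) (d j) * gm u₀ (fun s => zf τ (t j) (w j s)) := by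
      rw [gm_sum_lin _ w hw, gm_sum_lin _ (fun j s => zf τ (t j) (w j s)) azf,
        gm_sub hsum1.meromorphicAt hsum2.meromorphicAt]
    have e2 : MG.DD (T - gm u₀ h) = 0 := by
      rw [map_sub, ← HA MG.DD, e1, map_sub, map_sum, map_sum, sub_eq_zero,
        ← Finset.sum_sub_distrib]
      refine Finset.sum_congr rfl fun j _ => ?_
      rw [Derivation.leibniz, Derivation.leibniz, MG.DD.map_algebraMap, MG.DD.map_algebraMap,
        DD_gx hτ (t j) (hw j) (hwL j), DD_zf hτ (t j) (hw j) (hwL j).1]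
      simp only [smul_zero, add_zero, smul_eq_mul]
      ring
    obtain ⟨K, hK⟩ := MG.DD_ker _ e2
    have HA' : ∀ X : Derivation ℂ (MG u₀) (MG u₀),
      ∑ j, (algebraMap ℂ (MG u₀) (c j) + algebraMap ℂ (MG u₀) (d j) *
        (if t j then gx τ u₀ (t j) (w j) else 0)) *
        (X (gx τ u₀ (t j) (w j)) / gy τ u₀ (t j) (w j)) = X (gm u₀ h) := by
      intro X
      rw [HA X]
      have e3 : T = gm u₀ h + algebraMap ℂ (MG u₀) K := by
        rw [hK]
        ring
      rw [e3, map_add, X.map_algebraMap, add_zero]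
    obtain ⟨s₀, ww, k1, k2, k3, k4, k5, -⟩ := curves (ν := J) hτ t w hw hwL c d 0 h hha HA'
      (fun X => by simp) id hW
    exact caseA hτ t ww k1 k2 k3 k4 c d k5
  · -- second case
    push Not at hW
    obtain ⟨β₀, hβ₀, hβ₀0⟩ := hW
    -- a relation of minimal support
    set R : Set (J → ℂ) := {β | β ≠ 0 ∧ ∀ X : Derivation ℂ (MG u₀) (MG u₀),
      ∑ k, algebraMap ℂ (MG u₀) (β k) *
        (X (gx τ u₀ (t k) (w k)) / gy τ u₀ (t k) (w k)) = 0} with hR
    obtain ⟨β, hβR, hmin⟩ : ∃ β ∈ R, ∀ β' ∈ R,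
        (Finset.univ.filter fun j => β j ≠ 0).card ≤ (Finset.univ.filter fun j => β' j ≠ 0).card := by
      have hne' : R.Nonempty := ⟨β₀, hβ₀0, hβ₀⟩
      have h1 := (measure fun β : J → ℂ => (Finset.univ.filter fun j => β j ≠ 0).card).wf
      refine ⟨h1.min R hne', h1.min_mem R hne', fun β' hβ' => ?_⟩
      exact not_lt.1 (h1.not_lt_min R (x := β') hβ')
    obtain ⟨hβ0, hβX⟩ := hβR
    -- the distinguished index
    obtain ⟨i₀, hi₀, hi₀t⟩ : ∃ i₀, β i₀ ≠ 0 ∧ (t i₀ = true → ∀ j, β j ≠ 0 → t j = true) := by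
      by_cases hex : ∃ j, β j ≠ 0 ∧ t j = false
      · obtain ⟨j, h1, h2⟩ := hex
        exact ⟨j, h1, fun h3 => absurd (h2.symm.trans h3) (by simp)⟩
      · obtain ⟨j, hj⟩ := Function.ne_iff.1 hβ0
        refine ⟨j, hj, fun _ i hi => ?_⟩
        by_contra hti
        exact hex ⟨i, hi, by simpa using hti⟩
    set u : J → ℂ := fun j => β j / β i₀ with hu
    have hui₀ : u i₀ = 1 := div_self hi₀
    have huβ : ∀ j, u j ≠ 0 ↔ β j ≠ 0 := by
      intro j
      simp [hu, hi₀]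
    have huX : ∀ X : Derivation ℂ (MG u₀) (MG u₀), ∑ k, algebraMap ℂ (MG u₀) (u k) *
        (X (gx τ u₀ (t k) (w k)) / gy τ u₀ (t k) (w k)) = 0 := by
      intro X
      have h1 := hβX X
      have h2 : ∑ k, algebraMap ℂ (MG u₀) (u k) *
        (X (gx τ u₀ (t k) (w k)) / gy τ u₀ (t k) (w k)) = algebraMap ℂ (MG u₀) (β i₀)⁻¹ *
        ∑ k, algebraMap ℂ (MG u₀) (β k) *
        (X (gx τ u₀ (t k) (w k)) / gy τ u₀ (t k) (w k)) := by
        rw [Finset.mul_sum]
        refine Finset.sum_congr rfl fun k _ => ?_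
        simp only [hu, div_eq_mul_inv, map_mul]
        ring
      rw [h2, h1, mul_zero]
    set ν := {j : J // β j ≠ 0 ∧ j ≠ i₀} with hν
    have hS : ∀ γ : ν → ℂ, (∀ X : Derivation ℂ (MG u₀) (MG u₀), ∑ k : ν,
        algebraMap ℂ (MG u₀) (γ k) *
        (X (gx τ u₀ (t k.1) (w k.1)) / gy τ u₀ (t k.1) (w k.1)) = 0) → γ = 0 := by
      intro γ hγ
      by_contra hγ0
      set γ' : J → ℂ := fun j => if h : β j ≠ 0 ∧ j ≠ i₀ then γ ⟨j, h⟩ else 0 with hγ'
      have hγ'ν : ∀ k : ν, γ' k.1 = γ k := by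
        intro k
        simp only [hγ']
        rw [dif_pos k.2]
      have hmem : γ' ∈ R := by
        refine ⟨?_, ?_⟩
        · obtain ⟨k, hk⟩ := Function.ne_iff.1 hγ0
          intro h
          apply hk
          rw [← hγ'ν k, h]
          rfl
        · intro X
          rw [← hγ X]
          symm
          refine Finset.sum_bij_ne_zero (fun k _ _ => k.1) (fun _ _ _ => Finset.mem_univ _)
            (fun a _ _ b _ _ hab => Subtype.ext hab) ?_ ?_
          · intro j _ hj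
            by_cases h : β j ≠ 0 ∧ j ≠ i₀
            · refine ⟨⟨j, h⟩, Finset.mem_univ _, ?_, rfl⟩
              rw [← hγ'ν ⟨j, h⟩]
              exact hj
            · exfalso
              apply hj
              simp only [hγ']
              rw [dif_neg h, map_zero, zero_mul]
          · intro k _ _
            rw [hγ'ν k]
      have h1 := hmin γ' hmem
      have h2 : (Finset.univ.filter fun j => γ' j ≠ 0) ⊂ (Finset.univ.filter fun j => β j ≠ 0) := by
        rw [Finset.ssubset_iff_of_subset]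
        · refine ⟨i₀, by simp [hi₀], ?_⟩
          simp [hγ']
        · intro j hj
          simp only [Finset.mem_filter, Finset.mem_univ, true_and, hγ'] at hj ⊢
          by_contra h
          apply hj
          rw [dif_neg]
          intro h'
          exact h'.1 h
      have h3 := Finset.card_lt_card h2
      omega
    obtain ⟨s₀, ww, k1, k2, k3, k4, -, k6⟩ := curves (ν := ν) hτ t w hw hwL 0 0 u (fun _ => 0)
      analyticAt_const (fun X => by
        rw [gm_const, map_zero, map_zero]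
        simp) huX Subtype.val hS
    choose k hk using k6
    have hB := fun (i : ν) (l : ℂ) (hl : l ∈ per τ (t i.1)) =>
      caseB hτ (fun i : ν => t i.1) (fun (i : ν) a => ww i.1 a) (fun i a => k1 i.1 a)
      (fun i a => k2 i.1 a) (fun i a => k3 i.1 a) k4 (t i₀) (fun a => ww i₀ a) (fun a => k1 i₀ a)
      (fun a => k2 i₀ a) (fun a => k3 i₀ a) (fun i : ν => u i.1) k (by
        intro a
        filter_upwards [hk a] with s hs
        rw [← hs, ← Finset.add_sum_erase _ _ (Finset.mem_univ i₀), hui₀, one_mul]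
        have e1 : ∑ j : ν, u j.1 * ww j.1 a s = ∑ j ∈ Finset.univ.erase i₀, u j * ww j a s := by
          refine Finset.sum_bij_ne_zero (fun k _ _ => k.1)
            (fun k _ _ => Finset.mem_erase.2 ⟨k.2.2, Finset.mem_univ _⟩)
            (fun a _ _ b _ _ hab => Subtype.ext hab) ?_ (fun _ _ _ => rfl)
          intro j hj hj0
          have h1 : u j ≠ 0 := fun h => hj0 (by rw [h, zero_mul])
          exact ⟨⟨j, (huβ j).1 h1, Finset.ne_of_mem_erase hj⟩, Finset.mem_univ _, hj0, rfl⟩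
        rw [e1]
        ring) i hl
    refine ⟨u, fun h => one_ne_zero (hui₀.symm.trans (congrFun h i₀)),
      const_of_rel hτ t w hw hwL u (huX MG.DD), ?_⟩
    have hcases : ∀ j, u j = 0 ∨ j = i₀ ∨ (β j ≠ 0 ∧ j ≠ i₀) := by
      intro j
      by_cases h1 : u j = 0
      · exact Or.inl h1
      · by_cases h2 : j = i₀
        · exact Or.inr (Or.inl h2)
        · exact Or.inr (Or.inr ⟨(huβ j).1 h1, h2⟩)
    cases hti : t i₀
    · -- exponential
      right
      intro j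
      rcases hcases j with h1 | h1 | h1
      · exact Or.inr h1
      · left
        rw [h1, hui₀]
        exact ⟨hti, 1, by simp⟩
      · left
        have huj : u j ≠ 0 := (huβ j).2 h1.1
        cases htj : t j
        · refine ⟨rfl, ?_⟩
          obtain ⟨n, hn0, hn⟩ := hB ⟨j, h1⟩ kap (by
            rw [htj]
            exact ⟨1, by simp⟩)
          rw [hti] at hn
          obtain ⟨m, hm⟩ := hn
          have h2 : (n : ℂ) * u j = m := by
            have h3 : ((n : ℂ) * u j - m) * kap = 0 := by linear_combination hm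
            exact sub_eq_zero.1 ((mul_eq_zero.1 h3).resolve_right kap_ne_zero)
          refine ⟨(m : ℚ) / n, ?_⟩
          have hn0' : (n : ℂ) ≠ 0 := by exact_mod_cast hn0
          push_cast
          rw [eq_div_iff hn0']
          linear_combination h2
        · exfalso
          obtain ⟨n1, hn10, hn1⟩ := hB ⟨j, h1⟩ 1 (by
            rw [htj]
            exact mem_Lam.2 ⟨1, 0, by simp⟩)
          obtain ⟨n2, hn20, hn2⟩ := hB ⟨j, h1⟩ τ (by
            rw [htj]
            exact mem_Lam.2 ⟨0, 1, by simp⟩)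
          rw [hti] at hn1 hn2
          obtain ⟨m1, hm1⟩ := hn1
          obtain ⟨m2, hm2⟩ := hn2
          simp only at hm1 hm2
          rw [mul_one] at hm1
          have hn10' : (n1 : ℂ) ≠ 0 := by exact_mod_cast hn10
          have hn20' : (n2 : ℂ) ≠ 0 := by exact_mod_cast hn20
          have hm10 : (m1 : ℂ) ≠ 0 := by
            intro h
            rw [h, zero_mul] at hm1
            exact (mul_ne_zero hn10' huj) hm1
          have h2 : ((n2 : ℂ) * m1 * τ - m2 * n1) * kap = 0 := by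
            linear_combination (n1 : ℂ) * hm2 - (n2 : ℂ) * τ * hm1
          have h3 : (n2 : ℂ) * m1 * τ = m2 * n1 :=
            sub_eq_zero.1 ((mul_eq_zero.1 h2).resolve_right kap_ne_zero)
          have h4 := congrArg Complex.im h3
          have h5 : ((n2 : ℂ) * m1 * τ).im = (n2 * m1 : ℝ) * τ.im := by
            have : ((n2 : ℂ) * m1 * τ) = ((n2 * m1 : ℝ) : ℂ) * τ := by push_cast; ring
            rw [this, Complex.im_ofReal_mul]
          have h6 : ((m2 : ℂ) * n1).im = 0 := by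
            have : ((m2 : ℂ) * n1) = ((m2 * n1 : ℝ) : ℂ) := by push_cast; ring
            rw [this, Complex.ofReal_im]
          rw [h5, h6] at h4
          have h7 : (n2 * m1 : ℝ) ≠ 0 := by
            have h8 : (m1 : ℝ) ≠ 0 := by
              intro h
              apply hm10
              exact_mod_cast h
            exact mul_ne_zero (by exact_mod_cast hn20) h8
          exact (mul_ne_zero h7 hτ.ne') h4
    · -- elliptic
      left
      intro j
      rcases hcases j with h1 | h1 | h1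
      · exact Or.inr h1
      · left
        rw [h1, hui₀]
        exact ⟨hti, 1, one_ne_zero, mem_Lam.2 ⟨1, 0, by simp⟩, mem_Lam.2 ⟨0, 1, by simp⟩⟩
      · left
        have htj : t j = true := hi₀t hti j h1.1
        refine ⟨htj, ?_⟩
        obtain ⟨n1, hn10, hn1⟩ := hB ⟨j, h1⟩ 1 (by
          rw [htj]
          exact mem_Lam.2 ⟨1, 0, by simp⟩)
        obtain ⟨n2, hn20, hn2⟩ := hB ⟨j, h1⟩ τ (by
          rw [htj]
          exact mem_Lam.2 ⟨0, 1, by simp⟩)
        rw [hti] at hn1 hn2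
        obtain ⟨a1, b1, h1'⟩ := mem_Lam.1 hn1
        obtain ⟨a2, b2, h2'⟩ := mem_Lam.1 hn2
        simp only at h1' h2'
        refine ⟨n1 * n2, mul_ne_zero hn10 hn20, mem_Lam.2 ⟨n2 * a1, n2 * b1, ?_⟩,
          mem_Lam.2 ⟨n1 * a2, n1 * b2, ?_⟩⟩
        · push_cast
          linear_combination (n2 : ℂ) * h1'
        · push_cast
          linear_combination (n1 : ℂ) * h2'

end Pool.Agent.Work.MP_8da9ea_nt.Fx

namespace Pool.Agent.Work.MP_8da9ea_nt
open Complex Filter Topology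

/-- **FX.** A relation between the forms of the first and second kind attached to points of a
fixed elliptic curve and the logarithmic differentials of exponentials forces a linear relation
between the logarithms. -/
theorem FX {ι κ' : Type} [Fintype ι] [Fintype κ'] {τ u₀ : ℂ} (hτ : 0 < τ.im)
    (z : ι → ℂ → ℂ) (hz : ∀ i, AnalyticAt ℂ (z i) u₀)
    (hzL : ∀ i, z i u₀ ∉ Lam τ ∧ wpd τ (z i u₀) ≠ 0)
    (t : κ' → ℂ → ℂ) (ht : ∀ l, AnalyticAt ℂ (t l) u₀)
    (c d : ι → ℂ) (e : κ' → ℂ) (hne : ¬ (c = 0 ∧ d = 0 ∧ e = 0)) (T : MG u₀)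
    (H : ∀ X : Derivation ℂ (MG u₀) (MG u₀),
      ∑ i, (algebraMap ℂ (MG u₀) (c i) + algebraMap ℂ (MG u₀) (d i) *
          gm u₀ (fun u => wp 1 τ (z i u))) * (X (gm u₀ fun u => wp 1 τ (z i u)) /
          gm u₀ (fun u => wpd τ (z i u))) +
      ∑ l, algebraMap ℂ (MG u₀) (e l) * (X (gm u₀ fun u => exp (t l u)) /
          gm u₀ (fun u => exp (t l u))) = X T) :
    (∃ g : ι → ℂ, g ≠ 0 ∧ (∀ i, IsEnd τ (g i)) ∧ ∃ C : ℂ, ∀ᶠ u in 𝓝 u₀, ∑ i, g i * z i u = C) ∨
    (∃ m : κ' → ℤ, m ≠ 0 ∧ ∃ C : ℂ, ∀ᶠ u in 𝓝 u₀, ∑ l, (m l : ℂ) * t l u = C) := by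
  classical
  obtain ⟨u, hu0, ⟨k, hk⟩, hu⟩ := Fx.FX_core (J := ι ⊕ κ') (u₀ := u₀) hτ
    (Sum.elim (fun _ => true) (fun _ => false)) (Sum.elim z t)
    (by
      rintro (i | l)
      · exact hz i
      · exact ht l)
    (by
      rintro (i | l)
      · exact hzL i
      · exact ⟨fun h => h, Complex.exp_ne_zero _⟩)
    (Sum.elim c e) (Sum.elim d 0) (by
      rintro ⟨h1, h2⟩
      apply hne
      refine ⟨funext fun i => h1 (Sum.inl i), funext fun i => h2 (Sum.inl i) rfl,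
        funext fun l => h1 (Sum.inr l)⟩) T (by
      intro X
      rw [← H X, Fintype.sum_sum_type]
      congr 1
      refine Finset.sum_congr rfl fun l _ => ?_
      simp only [Sum.elim_inr, Pi.zero_apply, map_zero, zero_mul, add_zero]
      rfl)
  rw [show (fun v => ∑ j, u j * (Sum.elim z t : ι ⊕ κ' → ℂ → ℂ) j v = k) = fun v =>
    ∑ i, u (Sum.inl i) * z i v + ∑ l, u (Sum.inr l) * t l v = k from
    funext fun v => by rw [Fintype.sum_sum_type]; rfl] at hk
  have hEnd0 : IsEnd τ 0 := ⟨1, one_ne_zero, mem_Lam.2 ⟨0, 0, by simp⟩, mem_Lam.2 ⟨0, 0, by simp⟩⟩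
  rcases hu with hu | hu
  · left
    have h2 : ∀ l, u (Sum.inr l) = 0 := by
      intro l
      rcases hu (Sum.inr l) with h | h
      · exact absurd h.1 (by simp)
      · exact h
    refine ⟨fun i => u (Sum.inl i), ?_, ?_, k, ?_⟩
    · intro h
      apply hu0
      funext j
      rcases j with i | l
      · exact congrFun h i
      · exact h2 l
    · intro i
      rcases hu (Sum.inl i) with h | h
      · exact h.2
      · change IsEnd τ (u (Sum.inl i))
        rw [h]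
        exact hEnd0
    · filter_upwards [hk] with v hv
      rw [← hv]
      simp [h2]
  · right
    have h2 : ∀ i, u (Sum.inl i) = 0 := by
      intro i
      rcases hu (Sum.inl i) with h | h
      · exact absurd h.1 (by simp)
      · exact h
    have h3 : ∀ l, ∃ q : ℚ, u (Sum.inr l) = q := by
      intro l
      rcases hu (Sum.inr l) with h | h
      · exact h.2
      · exact ⟨0, by rw [h]; simp⟩
    choose q hq using h3
    obtain ⟨N, m, hN, hm⟩ : ∃ (N : ℤ) (m : κ' → ℤ), N ≠ 0 ∧ ∀ l, (m l : ℚ) = N * q l := by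
      have hex : ∀ l, ∃ a : ℤ, (a : ℚ) = ((∏ l, (q l).den : ℕ) : ℤ) * q l := by
        intro l
        obtain ⟨d', hd'⟩ := Finset.dvd_prod_of_mem (fun j => (q j).den) (Finset.mem_univ l)
        have h1 : ((q l).den : ℚ) * q l = (q l).num := Rat.den_mul_eq_num _
        refine ⟨(q l).num * d', ?_⟩
        rw [hd']
        push_cast
        linear_combination (-(d' : ℚ)) * h1
      choose m hm using hex
      refine ⟨((∏ l, (q l).den : ℕ) : ℤ), m, ?_, fun l => ?_⟩
      · exact_mod_cast Finset.prod_ne_zero_iff.2 fun l _ => (q l).den_nz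
      · exact_mod_cast hm l
    refine ⟨m, ?_, N * k, ?_⟩
    · intro h
      apply hu0
      funext j
      rcases j with i | l
      · exact h2 i
      · have h4 := hm l
        rw [h, Pi.zero_apply, Int.cast_zero] at h4
        have h5 : q l = 0 := by
          rcases mul_eq_zero.1 h4.symm with h6 | h6
          · exact absurd (by exact_mod_cast h6) hN
          · exact h6
        change u (Sum.inr l) = 0
        rw [hq l, h5]
        simp
    · filter_upwards [hk] with v hv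
      rw [← hv]
      simp only [h2, zero_mul, Finset.sum_const_zero, zero_add, Finset.mul_sum]
      refine Finset.sum_congr rfl fun l _ => ?_
      have h4 : (m l : ℂ) = N * (q l : ℂ) := by
        have := hm l
        exact_mod_cast congrArg (fun x : ℚ => (x : ℂ)) this
      rw [h4, hq l]
      ring

end Pool.Agent.Work.MP_8da9ea_nt

end

section

/-!
# Linear algebra over the endomorphism field
-/

set_option autoImplicit false

namespace Pool.Agent.Work.MP_8da9ea_nt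

open Complex Filter Topology Submodule

section endo

variable {τ : ℂ}

lemma isEnd_rat {g : ℂ} (h : IsEnd τ g) : ∃ a b : ℚ, g = a + b * τ := by
  obtain ⟨N, hN, ⟨q, hq⟩, -⟩ := h
  have h1 : (N : ℂ) ≠ 0 := by exact_mod_cast hN
  have h3 : (q.1 : ℂ) * 1 + (q.2 : ℂ) * τ = N * g := hq
  refine ⟨q.1 / N, q.2 / N, ?_⟩
  push_cast
  field_simp
  linear_combination -h3

lemma isEnd_ratCast (q : ℚ) : IsEnd τ q := by
  refine ⟨q.den, by exact_mod_cast q.den_nz, ⟨(q.num, 0), ?_⟩, ⟨(0, q.num), ?_⟩⟩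
  · have h : ((q.den : ℤ) : ℂ) * q = q.num := by
      have := q.den_mul_eq_num
      exact_mod_cast this
    simp only [lp]
    rw [h]
    simp
  · have h : ((q.den : ℤ) : ℂ) * q = q.num := by
      have := q.den_mul_eq_num
      exact_mod_cast this
    simp only [lp]
    rw [h]
    simp

/-- without complex multiplication the endomorphism field is `ℚ` -/
lemma isEnd_nonCM (hτ : τ.im ≠ 0) (hCM : ¬ IsCM 1 τ) {g : ℂ} (h : IsEnd τ g) : ∃ a : ℚ, g = a := by
  obtain ⟨N, hN, ⟨q, hq⟩, ⟨r, hr⟩⟩ := h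
  have h1 : (N : ℂ) ≠ 0 := by exact_mod_cast hN
  have h3 : (q.1 : ℂ) * 1 + (q.2 : ℂ) * τ = N * g := hq
  have h4 : (r.1 : ℂ) * 1 + (r.2 : ℂ) * τ = N * g * τ := hr
  by_cases h0 : q.2 = 0
  · refine ⟨q.1 / N, ?_⟩
    rw [h0] at h3
    push_cast
    field_simp
    push_cast at h3
    linear_combination -h3
  · exfalso
    apply hCM
    refine ⟨q.2, q.1 - r.2, -r.1, h0, ?_⟩
    rw [div_one]
    push_cast
    linear_combination τ * h3 - h4

/-- with complex multiplication `τ` is quadratic -/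
lemma CM_quad (hCM : IsCM 1 τ) : ∃ P Q : ℚ, τ ^ 2 = P * τ + Q := by
  obtain ⟨a, b, c, ha, habc⟩ := hCM
  rw [div_one] at habc
  have h1 : (a : ℂ) ≠ 0 := by exact_mod_cast ha
  refine ⟨-b / a, -c / a, ?_⟩
  push_cast
  field_simp
  linear_combination habc

lemma lin_ne (hτ : τ.im ≠ 0) {a b : ℚ} (h : (a : ℂ) + b * τ = 0) : a = 0 ∧ b = 0 := by
  have h3 := congrArg Complex.im h
  simp only [Complex.add_im, Complex.ratCast_im, Complex.mul_im, Complex.ratCast_re, zero_mul,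
    add_zero, Complex.zero_im, zero_add] at h3
  have hb : (b : ℝ) = 0 := (mul_eq_zero.1 h3).resolve_right hτ
  have hb' : b = 0 := by exact_mod_cast hb
  rw [hb'] at h
  refine ⟨?_, hb'⟩
  have : (a : ℂ) = 0 := by simpa using h
  exact_mod_cast this

/-- inverses in `ℚ(τ)` -/
lemma CM_inv (hτ : τ.im ≠ 0) {P Q : ℚ} (hPQ : τ ^ 2 = P * τ + Q) {a b : ℚ}
    (h : (a : ℂ) + b * τ ≠ 0) : ∃ a' b' : ℚ, ((a' : ℂ) + b' * τ) * (a + b * τ) = 1 := by
  set D : ℚ := a ^ 2 + a * b * P - b ^ 2 * Q with hD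
  have h1 : ((a + b * P : ℚ) + ((-b : ℚ) : ℂ) * τ) * (a + b * τ) = D := by
    rw [hD]
    push_cast
    linear_combination (-(b : ℂ) ^ 2) * hPQ
  have hD0 : D ≠ 0 := by
    intro h0
    rw [h0, Rat.cast_zero] at h1
    have h2 := (mul_eq_zero.1 h1).resolve_right h
    obtain ⟨h3, h4⟩ := lin_ne hτ h2
    have h5 : b = 0 := by simpa using h4
    rw [h5] at h3
    apply h
    rw [h5]
    have h6 : a = 0 := by simpa using h3
    rw [h6]
    simp
  refine ⟨(a + b * P) / D, -b / D, ?_⟩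
  have hD1 : (D : ℂ) ≠ 0 := by exact_mod_cast hD0
  push_cast at h1 ⊢
  field_simp
  linear_combination h1

end endo

/-- a maximal subfamily that is independent over the endomorphism field modulo `K` -/
lemma exists_max_end (K : IntermediateField ℚ ℂ) (τ : ℂ) {n : ℕ} (z : Fin n → ℂ) :
    ∃ J : Finset (Fin n), (∀ g : J → ℂ, (∀ j, IsEnd τ (g j)) → ∑ j, g j * z j ∈ K → g = 0) ∧
      ∀ i, ∃ g : J → ℂ, ∃ a : ℂ, (∀ j, IsEnd τ (g j)) ∧ IsEnd τ a ∧ a ≠ 0 ∧
        a * z i + ∑ j, g j * z j ∈ K := by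
  classical
  set P : Finset (Fin n) → Prop := fun J =>
    ∀ g : J → ℂ, (∀ j, IsEnd τ (g j)) → ∑ j, g j * z j ∈ K → g = 0 with hP
  obtain ⟨J, hJ, hmax⟩ : ∃ J, P J ∧ ∀ J', P J' → J'.card ≤ J.card := by
    have hne : ((Finset.univ : Finset (Finset (Fin n))).filter P).Nonempty := by
      refine ⟨∅, ?_⟩
      rw [Finset.mem_filter]
      refine ⟨Finset.mem_univ _, fun g _ _ => ?_⟩
      funext j
      exact absurd j.2 (Finset.notMem_empty _)
    obtain ⟨J, hJ, hm⟩ := Finset.exists_max_image _ Finset.card hne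
    rw [Finset.mem_filter] at hJ
    exact ⟨J, hJ.2, fun t ht => hm t (by rw [Finset.mem_filter]; exact ⟨Finset.mem_univ _, ht⟩)⟩
  refine ⟨J, hJ, ?_⟩
  intro i
  by_cases hi : i ∈ J
  · refine ⟨fun j => if (j : Fin n) = i then -1 else 0, 1, ?_, isEnd_one τ, one_ne_zero, ?_⟩
    · intro j
      by_cases hj : (j : Fin n) = i
      · simp only [hj, if_true]
        have := isEnd_ratCast (τ := τ) (-1)
        simpa using this
      · simp only [hj, if_false]
        exact isEnd_zero τ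
    · have h1 : ∑ j : J, (if (j : Fin n) = i then (-1 : ℂ) else 0) * z j = -z i := by
        rw [Finset.sum_eq_single (⟨i, hi⟩ : J)]
        · simp
        · intro j _ hj
          have : (j : Fin n) ≠ i := fun h => hj (Subtype.ext h)
          simp [this]
        · intro h
          exact absurd (Finset.mem_univ _) h
      rw [h1]
      simp
  · have h1 : ¬ P (insert i J) := by
      intro h
      have := hmax _ h
      rw [Finset.card_insert_of_notMem hi] at this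
      omega
    simp only [hP, not_forall] at h1
    obtain ⟨g, hgE, hgK, hg0⟩ := h1
    have hsum : ∑ j : (insert i J : Finset (Fin n)), g j * z j =
        g ⟨i, Finset.mem_insert_self i J⟩ * z i +
          ∑ j : J, g ⟨j, Finset.mem_insert_of_mem j.2⟩ * z j := by
      rw [← Finset.attach_eq_univ, ← Finset.attach_eq_univ]
      have h2 := Finset.sum_attach (insert i J)
        (fun j => (if h : j ∈ insert i J then g ⟨j, h⟩ else 0) * z j)
      have h3 := Finset.sum_attach J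
        (fun j => (if h : j ∈ insert i J then g ⟨j, h⟩ else 0) * z j)
      have h4 : ∑ j ∈ (insert i J).attach, g j * z j =
          ∑ j ∈ (insert i J).attach, (if h : (j : Fin n) ∈ insert i J then g ⟨j, h⟩ else 0) * z j := by
        refine Finset.sum_congr rfl fun j _ => ?_
        rw [dif_pos j.2]
      have h5 : ∑ j ∈ J.attach, g ⟨j, Finset.mem_insert_of_mem j.2⟩ * z j =
          ∑ j ∈ J.attach, (if h : (j : Fin n) ∈ insert i J then g ⟨j, h⟩ else 0) * z j := by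
        refine Finset.sum_congr rfl fun j _ => ?_
        rw [dif_pos (Finset.mem_insert_of_mem j.2)]
      rw [h4, h5, h2, h3, Finset.sum_insert hi, dif_pos (Finset.mem_insert_self i J)]
    rw [hsum] at hgK
    refine ⟨fun j => g ⟨j, Finset.mem_insert_of_mem j.2⟩, g ⟨i, Finset.mem_insert_self i J⟩,
      fun j => hgE _, hgE _, ?_, hgK⟩
    intro h0
    rw [h0, zero_mul, zero_add] at hgK
    have h6 := hJ _ (fun j => hgE _) hgK
    apply hg0
    funext j
    rcases Finset.mem_insert.1 j.2 with h7 | h7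
    · have : j = ⟨i, Finset.mem_insert_self i J⟩ := Subtype.ext h7
      rw [this]
      exact h0
    · exact congrFun h6 ⟨j, h7⟩

/-- the dimension over the endomorphism field -/
lemma modDim2_le (K : IntermediateField ℚ ℂ) {ω₁ ω₂ : ℂ} (him : (ω₂ / ω₁).im ≠ 0)
    (hK : ω₂ / ω₁ ∈ K) {n : ℕ}
    (p : Fin n → ℂ) : ∃ J : Finset (Fin n), modDim2 K ω₁ ω₂ p ≤ 2 * J.card ∧
      ∀ g : J → ℂ, (∀ j, IsEnd (ω₂ / ω₁) (g j)) → ∑ j, g j * (p j / ω₁) ∈ K → g = 0 := by
  classical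
  set τ := ω₂ / ω₁ with hτ
  obtain ⟨J, hJ, hJm⟩ := exists_max_end K τ (fun i => p i / ω₁)
  refine ⟨J, ?_, hJ⟩
  have hCMiff : IsCM ω₁ ω₂ ↔ IsCM 1 τ := by
    unfold IsCM
    rw [div_one]
  set KK := Subalgebra.toSubmodule K.toSubalgebra with hKK
  set cl : ℂ → ℂ ⧸ KK := fun x => Submodule.Quotient.mk x with hcl
  have cl_add : ∀ x y, cl (x + y) = cl x + cl y := fun x y => rfl
  have cl_rat : ∀ (q : ℚ) (x : ℂ), cl (q * x) = q • cl x := by
    intro q x
    have : (q : ℂ) * x = q • x := (Rat.smul_def q x).symm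
    rw [this]
    rfl
  have cl_mem : ∀ x, x ∈ K → cl x = 0 := fun x hx => (Submodule.Quotient.mk_eq_zero KK).2 hx
  unfold modDim2
  by_cases hCM : IsCM ω₁ ω₂
  · rw [if_pos hCM]
    obtain ⟨P, Q, hPQ⟩ := CM_quad (hCMiff.1 hCM)
    set V : Submodule ℚ (ℂ ⧸ KK) := span ℚ (Set.range (fun b : J × Bool =>
      cl (if b.2 then τ * (p b.1 / ω₁) else p b.1 / ω₁))) with hV
    have hVm : ∀ (j : J) (a b : ℚ), cl ((a + b * τ) * (p j / ω₁)) ∈ V := by
      intro j a b
      have h1 : ((a : ℂ) + b * τ) * (p j / ω₁) = a * (p j / ω₁) + b * (τ * (p j / ω₁)) := by ring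
      rw [h1, cl_add, cl_rat, cl_rat]
      refine add_mem (smul_mem _ _ (subset_span ⟨(j, false), rfl⟩))
        (smul_mem _ _ (subset_span ⟨(j, true), rfl⟩))
    have hz : ∀ i (c d : ℚ), cl ((c + d * τ) * (p i / ω₁)) ∈ V := by
      intro i c d
      obtain ⟨g, a, hg, ha, ha0, hmem⟩ := hJm i
      obtain ⟨a1, a2, rfl⟩ := isEnd_rat ha
      obtain ⟨a', b', hab⟩ := CM_inv him hPQ ha0
      -- multiply the relation by `(c + d τ) (a' + b' τ)`
      obtain ⟨e, f, hef⟩ : ∃ e f : ℚ, ((c : ℂ) + d * τ) * (a' + b' * τ) = e + f * τ := by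
        refine ⟨c * a' + d * b' * Q, c * b' + d * a' + d * b' * P, ?_⟩
        push_cast
        linear_combination (d : ℂ) * b' * hPQ
      have h1 : ((c : ℂ) + d * τ) * (p i / ω₁) =
          ((e : ℂ) + f * τ) * ((a1 + a2 * τ) * (p i / ω₁) + ∑ j : J, g j * (p j / ω₁)) +
            ∑ j : J, (-((e : ℂ) + f * τ) * g j) * (p j / ω₁) := by
        rw [mul_add, add_assoc, Finset.mul_sum, ← Finset.sum_add_distrib]
        have h2 : ∑ j : J, (((e : ℂ) + f * τ) * (g j * (p j / ω₁)) +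
            (-((e : ℂ) + f * τ) * g j) * (p j / ω₁)) = 0 :=
          Finset.sum_eq_zero fun j _ => by ring
        rw [h2, add_zero, ← hef]
        linear_combination (-((c : ℂ) + d * τ) * (p i / ω₁)) * hab
      rw [h1, cl_add, cl_mem, zero_add]
      · have h3 : cl (∑ j : J, (-((e : ℂ) + f * τ) * g j) * (p j / ω₁)) =
            ∑ j : J, cl ((-((e : ℂ) + f * τ) * g j) * (p j / ω₁)) := by
          have : ∀ s : Finset J, cl (∑ j ∈ s, (-((e : ℂ) + f * τ) * g j) * (p j / ω₁)) =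
            ∑ j ∈ s, cl ((-((e : ℂ) + f * τ) * g j) * (p j / ω₁)) := by
            intro s
            induction s using Finset.induction_on with
            | empty => rw [Finset.sum_empty, Finset.sum_empty]; rfl
            | insert b s hb ih => rw [Finset.sum_insert hb, Finset.sum_insert hb, cl_add, ih]
          exact this _
        rw [h3]
        refine sum_mem fun j _ => ?_
        obtain ⟨g1, g2, hg12⟩ := isEnd_rat (hg j)
        obtain ⟨u, v, huv⟩ : ∃ u v : ℚ, -((e : ℂ) + f * τ) * g j = u + v * τ := by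
          refine ⟨-(e * g1 + f * g2 * Q), -(e * g2 + f * g1 + f * g2 * P), ?_⟩
          rw [hg12]
          push_cast
          linear_combination (-(f : ℂ) * g2) * hPQ
        rw [huv]
        exact hVm j u v
      · have h4 : (e : ℂ) + f * τ ∈ K :=
          add_mem (SubfieldClass.ratCast_mem K e) (mul_mem (SubfieldClass.ratCast_mem K f) hK)
        exact mul_mem h4 hmem
    have hle : span ℚ (Set.range (fun i => (Submodule.Quotient.mk (p i / ω₁) : ℂ ⧸ KK)) ∪
        Set.range (fun i => (Submodule.Quotient.mk (τ * (p i / ω₁)) : ℂ ⧸ KK))) ≤ V := by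
      rw [span_le]
      rintro x (⟨i, rfl⟩ | ⟨i, rfl⟩)
      · have := hz i 1 0
        simpa using this
      · have := hz i 0 1
        simpa using this
    have hfd : FiniteDimensional ℚ V := FiniteDimensional.span_of_finite ℚ (Set.finite_range _)
    refine (Submodule.finrank_mono hle).trans ?_
    have := finrank_range_le_card (R := ℚ) (fun b : J × Bool =>
      cl (if b.2 then τ * (p b.1 / ω₁) else p b.1 / ω₁))
    rw [Fintype.card_prod, Fintype.card_coe, Fintype.card_bool] at this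
    change Module.finrank ℚ V ≤ _ at this
    omega
  · rw [if_neg hCM]
    have hCM1 : ¬ IsCM 1 τ := fun h => hCM (hCMiff.2 h)
    set V : Submodule ℚ (ℂ ⧸ KK) := span ℚ (Set.range (fun j : J => cl (p j / ω₁))) with hV
    have hle : span ℚ (Set.range (fun i => (Submodule.Quotient.mk (p i / ω₁) : ℂ ⧸ KK))) ≤ V := by
      rw [span_le]
      rintro x ⟨i, rfl⟩
      obtain ⟨g, a, hg, ha, ha0, hmem⟩ := hJm i
      obtain ⟨a1, rfl⟩ := isEnd_nonCM him hCM1 ha
      have hg' : ∀ j, ∃ q : ℚ, g j = q := fun j => isEnd_nonCM him hCM1 (hg j)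
      choose q hq using hg'
      have h1 := cl_mem _ hmem
      have ha1 : a1 ≠ 0 := by
        rintro rfl
        simp at ha0
      rw [cl_add, cl_rat] at h1
      have h3 : ∀ s : Finset J, cl (∑ j ∈ s, g j * (p j / ω₁)) ∈ V := by
        intro s
        induction s using Finset.induction_on with
        | empty => rw [Finset.sum_empty]; exact V.zero_mem
        | insert b s hb ih =>
          rw [Finset.sum_insert hb, cl_add, hq b, cl_rat]
          exact add_mem (smul_mem _ _ (subset_span ⟨b, rfl⟩)) ih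
      have h4 : a1 • cl (p i / ω₁) ∈ V := by
        rw [eq_neg_of_add_eq_zero_left h1]
        exact neg_mem (h3 _)
      have h5 := V.smul_mem a1⁻¹ h4
      rwa [smul_smul, inv_mul_cancel₀ ha1, one_smul] at h5
    have hfd : FiniteDimensional ℚ V := FiniteDimensional.span_of_finite ℚ (Set.finite_range _)
    refine Nat.mul_le_mul_left 2 ((Submodule.finrank_mono hle).trans ?_)
    have := finrank_range_le_card (R := ℚ) (fun j : J => cl (p j / ω₁))
    rwa [Fintype.card_coe] at this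

end Pool.Agent.Work.MP_8da9ea_nt

end

section

/-!
# The theorem for curves over the field of constants
-/

set_option autoImplicit false

namespace Pool.Agent.Work.MP_8da9ea_nt

open Complex Filter Topology Submodule

/-- the exceptional values for the base field `k` and the curves over it -/
noncomputable def Efx (FX : FXprop) (k : IntermediateField ℚ ℂ) : Set ℂ :=
  open Classical in
  ⋃ τ ∈ (k : Set ℂ), ⋃ n : ℕ, ⋃ s : ℕ, if h : Countable k ∧ 0 < τ.im ∧ τ ∈ k ∧ gg2 τ ∈ k then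
    (@fix_case FX k h.1 τ h.2.1 h.2.2.1 h.2.2.2 n s).choose else ∅

/-- values of the lattice functions -/
noncomputable def Elat (k : IntermediateField ℚ ℂ) : Set ℂ :=
  (fun p : ℂ × ℂ => gk 4 p.1 p.2) '' ((k : Set ℂ) ×ˢ (k : Set ℂ)) ∪
  (fun p : ℂ × ℂ => gk 6 p.1 p.2) '' ((k : Set ℂ) ×ˢ (k : Set ℂ)) ∪
  (fun p : ℂ × ℂ × ℂ => wp p.1 p.2.1 p.2.2) '' ((k : Set ℂ) ×ˢ (k : Set ℂ) ×ˢ (k : Set ℂ)) ∪
  (fun p : ℂ × ℂ × ℂ => zt p.1 p.2.1 p.2.2) '' ((k : Set ℂ) ×ˢ (k : Set ℂ) ×ˢ (k : Set ℂ))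

/-- the operation under which the field of constants is closed -/
noncomputable def Eop2 (FX : FXprop) (k : IntermediateField ℚ ℂ) : Set ℂ :=
  Eop k ∪ (Efx FX k ∪ Elat k)

lemma Eop2_countable (FX : FXprop) (k : IntermediateField ℚ ℂ) (hk : Countable k) :
    (Eop2 FX k).Countable := by
  classical
  have hk' : ((k : IntermediateField ℚ ℂ) : Set ℂ).Countable := Set.to_countable _
  refine (Eop_countable k hk).union (Set.Countable.union ?_ ?_)
  · unfold Efx
    refine hk'.biUnion fun τ _ => Set.countable_iUnion fun n => Set.countable_iUnion fun s => ?_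
    split_ifs with h
    · exact (@fix_case FX k h.1 τ h.2.1 h.2.2.1 h.2.2.2 n s).choose_spec.1
    · exact Set.countable_empty
  · exact ((((hk'.prod hk').image _).union ((hk'.prod hk').image _)).union
      ((hk'.prod (hk'.prod hk')).image _)).union ((hk'.prod (hk'.prod hk')).image _)

section union

variable {FX : FXprop} {S₀ : Set ℂ}

lemma fix_chain (k : IntermediateField ℚ ℂ) [Countable k] {τ : ℂ} (hτ : 0 < τ.im)
    (hτk : τ ∈ k) (hgk : gg2 τ ∈ k) (n s : ℕ) (z : Fin n → ℂ) (t : Fin s → ℂ) (hns : 0 < n + s)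
    (hz : ∀ g : Fin n → ℂ, (∀ i, IsEnd τ (g i)) → ∑ i, g i * z i ∈ Eop2 FX k → g = 0)
    (ht : ∀ m : Fin s → ℤ, ∑ l, (m l : ℂ) * t l ∈ Eop2 FX k → m = 0) :
      ∃ S : Finset ((Fin 3 × Fin n) ⊕ (Fin 2 × Fin s)),
        AlgebraicIndependent k
          (fun i : S => fxF z (fun i => wp 1 τ (z i)) (fun i => zt 1 τ (z i)) t
            (fun j => exp (t j)) i) ∧
        2 * n + s + 1 ≤ S.card := by
  classical
  have hE : (@fix_case FX k ‹_› τ hτ hτk hgk n s).choose ⊆ Eop2 FX k := by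
    intro x hx
    refine Or.inr (Or.inl ?_)
    unfold Efx
    rw [Set.mem_iUnion₂]
    refine ⟨τ, hτk, ?_⟩
    rw [Set.mem_iUnion]
    refine ⟨n, ?_⟩
    rw [Set.mem_iUnion]
    refine ⟨s, ?_⟩
    rw [dif_pos ⟨‹_›, hτ, hτk, hgk⟩]
    exact hx
  exact (@fix_case FX k ‹_› τ hτ hτk hgk n s).choose_spec.2 z t hns
    (fun g hg hm => hz g hg (hE hm)) (fun m hm => ht m (hE hm))

/-- independence over the union of the chain -/
lemma fix_union (hS₀ : S₀.Countable) (n s : ℕ)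
    (τ : ℂ) (hτ : 0 < τ.im) (hτK : τ ∈ unionF (Eop2 FX) S₀) (hgK : gg2 τ ∈ unionF (Eop2 FX) S₀)
    (z : Fin n → ℂ) (t : Fin s → ℂ) (hns : 0 < n + s)
    (hz : ∀ g : Fin n → ℂ, (∀ i, IsEnd τ (g i)) → ∑ i, g i * z i ∈ unionF (Eop2 FX) S₀ → g = 0)
    (ht : ∀ m : Fin s → ℤ, ∑ l, (m l : ℂ) * t l ∈ unionF (Eop2 FX) S₀ → m = 0) :
      ∃ S : Finset ((Fin 3 × Fin n) ⊕ (Fin 2 × Fin s)),
        AlgebraicIndependent (unionF (Eop2 FX) S₀)
          (fun i : S => fxF z (fun i => wp 1 τ (z i)) (fun i => zt 1 τ (z i)) t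
            (fun j => exp (t j)) i) ∧
        2 * n + s + 1 ≤ S.card := by
  classical
  have hsub : ∀ j, Eop2 FX (chainF (Eop2 FX) S₀ j) ⊆ unionF (Eop2 FX) S₀ := fun j x hx =>
    mem_unionF.2 ⟨j + 1, chainF_E j hx⟩
  obtain ⟨j1, hj1⟩ := mem_unionF.1 hτK
  obtain ⟨j2, hj2⟩ := mem_unionF.1 hgK
  have h1 : ∀ j, ∃ S : Finset ((Fin 3 × Fin n) ⊕ (Fin 2 × Fin s)),
        AlgebraicIndependent (chainF (Eop2 FX) S₀ (j + (j1 + j2)))
          (fun i : S => fxF z (fun i => wp 1 τ (z i)) (fun i => zt 1 τ (z i)) t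
            (fun j => exp (t j)) i) ∧
        2 * n + s + 1 ≤ S.card := by
    intro j
    have hc := chainF_countable (E := Eop2 FX) (S := S₀) (Eop2_countable FX) hS₀ (j + (j1 + j2))
    exact fix_chain _ hτ (chainF_mono (by omega) hj1) (chainF_mono (by omega) hj2) n s z t hns
      (fun g hg hm => hz g hg (hsub _ hm)) (fun m hm => ht m (hsub _ hm))
  obtain ⟨S, hS⟩ := exists_of_finite _ h1
  refine ⟨S, indep_unionF _ fun i => ?_, ?_⟩
  · obtain ⟨j, hij, hj⟩ := hS i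
    exact ⟨j + (j1 + j2), by omega, hj.1⟩
  · obtain ⟨j, _, hj⟩ := hS 0
    exact hj.2

/-- the theorem in the upper half plane -/
theorem fix_upper (hS₀ : S₀.Countable) (τ : ℂ) (hτ : 0 < τ.im)
    (hτK : τ ∈ unionF (Eop2 FX) S₀) (hgK : gg2 τ ∈ unionF (Eop2 FX) S₀) (ω₁ : ℂ) (h1 : ω₁ ≠ 0)
    (s n : ℕ) (t : Fin s → ℂ) (p : Fin n → ℂ) (d : ℕ)
    (hd : HasTrdeg (bigField ω₁ (ω₁ * τ) t p ⊓ unionF (Eop2 FX) S₀) d) :
    HasTrdeg (bigField ω₁ (ω₁ * τ) t p)
      (d + (modDim (unionF (Eop2 FX) S₀) t + modDim2 (unionF (Eop2 FX) S₀) ω₁ (ω₁ * τ) p) +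
        min 1 (modDim (unionF (Eop2 FX) S₀) t +
          modDim2 (unionF (Eop2 FX) S₀) ω₁ (ω₁ * τ) p)) := by
  classical
  set K := unionF (Eop2 FX) S₀ with hK
  have hdiv : ω₁ * τ / ω₁ = τ := mul_div_cancel_left₀ _ h1
  obtain ⟨Jp, hJpc, hJp⟩ := modDim2_le K (ω₁ := ω₁) (ω₂ := ω₁ * τ) (by rw [hdiv]; exact hτ.ne')
    (by rw [hdiv]; exact hτK) p
  rw [hdiv] at hJp
  obtain ⟨J, hJc, hJ⟩ := exists_mod_basis K t
  rcases Nat.eq_zero_or_pos (Jp.card + J.card) with h0 | hpos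
  · have e1 : modDim K t = 0 := by omega
    have e2 : modDim2 K ω₁ (ω₁ * τ) p = 0 := by omega
    rw [e1, e2]
    exact hd.mono inf_le_left (by simp)
  · let e : Fin Jp.card ≃ Jp := Jp.equivFin.symm
    set z : Fin Jp.card → ℂ := fun i => p (e i) / ω₁ with hz
    have hzi : ∀ g : Fin Jp.card → ℂ, (∀ i, IsEnd τ (g i)) → ∑ i, g i * z i ∈ K → g = 0 := by
      intro g hg hm
      have h2 := hJp (fun j => g (e.symm j)) (fun j => hg _) (by
        rw [← e.sum_comp]
        simpa [hz] using hm)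
      funext i
      have h3 := congrFun h2 (e i)
      simpa using h3
    let e' : Fin J.card ≃ J := J.equivFin.symm
    set t' : Fin J.card → ℂ := fun l => t (e' l) with ht'
    have hti : ∀ m : Fin J.card → ℤ, ∑ l, (m l : ℂ) * t' l ∈ K → m = 0 := by
      intro m hm
      have h2 := hJ (fun j => m (e'.symm j)) (by
        rw [← e'.sum_comp]
        simpa [ht'] using hm)
      funext l
      have h3 := congrFun h2 (e' l)
      simpa using h3
    obtain ⟨S, hS, hScard⟩ := fix_union hS₀ Jp.card J.card τ hτ hτK hgK z t' hpos hzi hti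
    obtain ⟨u, hu, hui⟩ := hd
    set L := bigField ω₁ (ω₁ * τ) t p ⊓ K with hL
    have hS' := indep_mono (k := L) inf_le_right hS
    obtain ⟨x, hx, hxi⟩ := exists_indep_of_tower L _ hS' u hu hui
      (bigField ω₁ (ω₁ * τ) t p) (fun y hy => hy.1) (by
        rintro ⟨⟨k, i⟩ | ⟨k, l⟩, hi⟩
        · fin_cases k
          · exact div_mem (big_p _ _ _ _ _) (big_o1 _ _ _ _)
          · exact big_wp' t p h1 _
          · exact big_zt' t p h1 _
        · fin_cases k
          · exact big_t _ _ _ _ _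
          · exact big_exp _ _ _ _ _)
    have hT : HasTrdeg (bigField ω₁ (ω₁ * τ) t p) (d + Fintype.card S) := ⟨x, hx, hxi⟩
    refine hT.mono le_rfl ?_
    rw [Fintype.card_coe, ← hJc]
    omega

end union

lemma modDim2_neg (K : IntermediateField ℚ ℂ) (ω₁ ω₂ : ℂ) {n : ℕ} (p : Fin n → ℂ) :
    modDim2 K ω₁ (-ω₂) p = modDim2 K ω₁ ω₂ p := by
  classical
  have hCM : IsCM ω₁ (-ω₂) ↔ IsCM ω₁ ω₂ := by
    constructor
    · rintro ⟨a, b, c, ha, h⟩
      exact ⟨a, -b, c, ha, by push_cast; rw [neg_div] at h; linear_combination h⟩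
    · rintro ⟨a, b, c, ha, h⟩
      exact ⟨a, -b, c, ha, by push_cast; rw [neg_div]; linear_combination h⟩
  unfold modDim2
  by_cases h : IsCM ω₁ ω₂
  · rw [if_pos h, if_pos (hCM.2 h)]
    have h1 : ∀ x : ℂ, (Submodule.Quotient.mk (-ω₂ / ω₁ * x) :
        ℂ ⧸ Subalgebra.toSubmodule K.toSubalgebra) = -Submodule.Quotient.mk (ω₂ / ω₁ * x) := by
      intro x
      rw [neg_div, neg_mul]
      rfl
    have h2 : span ℚ (Set.range (fun i => (Submodule.Quotient.mk (p i / ω₁) :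
          ℂ ⧸ Subalgebra.toSubmodule K.toSubalgebra)) ∪
        Set.range (fun i => (Submodule.Quotient.mk (-ω₂ / ω₁ * (p i / ω₁)) :
          ℂ ⧸ Subalgebra.toSubmodule K.toSubalgebra))) =
      span ℚ (Set.range (fun i => (Submodule.Quotient.mk (p i / ω₁) :
          ℂ ⧸ Subalgebra.toSubmodule K.toSubalgebra)) ∪
        Set.range (fun i => (Submodule.Quotient.mk (ω₂ / ω₁ * (p i / ω₁)) :
          ℂ ⧸ Subalgebra.toSubmodule K.toSubalgebra))) := by
      simp only [h1]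
      apply le_antisymm
      · rw [span_le]
        rintro x (⟨i, rfl⟩ | ⟨i, rfl⟩)
        · exact subset_span (Or.inl ⟨i, rfl⟩)
        · exact neg_mem (subset_span (Or.inr ⟨i, rfl⟩))
      · rw [span_le]
        rintro x (⟨i, rfl⟩ | ⟨i, rfl⟩)
        · exact subset_span (Or.inl ⟨i, rfl⟩)
        · have : (Submodule.Quotient.mk (ω₂ / ω₁ * (p i / ω₁)) :
              ℂ ⧸ Subalgebra.toSubmodule K.toSubalgebra) =
              - -Submodule.Quotient.mk (ω₂ / ω₁ * (p i / ω₁)) := (neg_neg _).symm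
          simp only
          rw [this]
          exact neg_mem (subset_span (Or.inr ⟨i, rfl⟩))
    rw [h2]
  · rw [if_neg h, if_neg (fun h' => h (hCM.1 h'))]

lemma IsCM_neg (ω₁ ω₂ : ℂ) : IsCM ω₁ (-ω₂) ↔ IsCM ω₁ ω₂ := by
  constructor
  · rintro ⟨a, b, c, ha, h⟩
    exact ⟨a, -b, c, ha, by push_cast; rw [neg_div] at h; linear_combination h⟩
  · rintro ⟨a, b, c, ha, h⟩
    exact ⟨a, -b, c, ha, by push_cast; rw [neg_div]; linear_combination h⟩

/-- the field of periods of the normalised lattice -/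
lemma big_base {s n : ℕ} {ω₁ τ : ℂ} (h1 : ω₁ ≠ 0) (t : Fin s → ℂ) (p : Fin n → ℂ) :
    bigField 1 τ (![] : Fin 0 → ℂ) (![] : Fin 0 → ℂ) ≤ bigField ω₁ (ω₁ * τ) t p := by
  refine big_le 1 τ _ _ (fun l => l.elim0) (fun l => l.elim0) ?_ ?_ (fun l => l.elim0)
    (fun l => l.elim0) (fun l => l.elim0) (one_mem _) (big_tau t p h1) (big_et t p h1) ?_
  · exact mul_mem (ofNat_mem (bigField ω₁ (ω₁ * τ) t p) 60) (big_gk4 t p h1)
  · exact mul_mem (ofNat_mem (bigField ω₁ (ω₁ * τ) t p) 140) (big_gk6 t p h1)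
  · have h3 := zt_norm (τ := τ) h1 (ω₁ * τ / 2)
    rw [show ω₁ * τ / 2 / ω₁ = τ / 2 by field_simp] at h3
    rw [h3, mul_left_comm]
    exact mul_mem (big_o1 _ _ _ _) (big_e2 _ _ _ _)

lemma big_base' {s n : ℕ} {ω₁ ω₂ : ℂ} (him : (ω₂ / ω₁).im ≠ 0) (t : Fin s → ℂ) (p : Fin n → ℂ) :
    bigField 1 (ω₂ / ω₁) (![] : Fin 0 → ℂ) (![] : Fin 0 → ℂ) ≤ bigField ω₁ ω₂ t p := by
  have h1 : ω₁ ≠ 0 := by
    rintro rfl
    simp at him
  have h := big_base (τ := ω₂ / ω₁) h1 t p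
  rwa [mul_div_cancel₀ _ h1] at h

lemma big_pi' {s n : ℕ} {ω₁ ω₂ : ℂ} (him : (ω₂ / ω₁).im ≠ 0) (t : Fin s → ℂ) (p : Fin n → ℂ) :
    kap ∈ bigField ω₁ ω₂ t p := by
  have h1 : ω₁ ≠ 0 := by
    rintro rfl
    simp at him
  rcases lt_or_gt_of_ne him with hlt | hgt
  · have h2 : -ω₂ = ω₁ * (-(ω₂ / ω₁)) := by field_simp
    rw [← bigField_neg, h2]
    exact big_pi t p h1 (by simpa using hlt)
  · have hω : ω₂ = ω₁ * (ω₂ / ω₁) := by field_simp
    rw [hω]
    exact big_pi t p h1 hgt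

/-- **The theorem for curves over the field of constants.** -/
theorem fix_final (FX : FXprop) (S₀ : Set ℂ) (hS₀ : S₀.Countable) :
    ∃ K : IntermediateField ℚ ℂ, (K : Set ℂ).Countable ∧ S₀ ⊆ K ∧
      (∀ x : ℂ, IsAlgebraic K x → x ∈ K) ∧
      (∀ ω₁ ∈ K, ∀ ω₂ ∈ K, ∀ (s n : ℕ) (t : Fin s → ℂ) (p : Fin n → ℂ),
        (∀ l, t l ∈ K) → (∀ i, p i ∈ K) → bigField ω₁ ω₂ t p ≤ K) ∧
      (∀ ω₁ ω₂ : ℂ, (ω₂ / ω₁).im ≠ 0 → (jInv ω₁ ω₂ ∈ K ↔ ω₂ / ω₁ ∈ K)) ∧
      ∀ ω₁ ω₂ : ℂ, (ω₂ / ω₁).im ≠ 0 → jInv ω₁ ω₂ ∈ K →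
        ∀ (s n : ℕ) (t : Fin s → ℂ) (p : Fin n → ℂ),
        (∀ d, HasTrdeg (bigField ω₁ ω₂ t p ⊓ K) d →
          HasTrdeg (bigField ω₁ ω₂ t p) (d + (modDim K t + modDim2 K ω₁ ω₂ p) +
            min 1 (modDim K t + modDim2 K ω₁ ω₂ p))) ∧
        (tDim t ≤ modDim K t → kDim2 ω₁ ω₂ p ≤ modDim2 K ω₁ ω₂ p →
          0 < tDim t + kDim2 ω₁ ω₂ p →
          (∀ m, HasTrdeg (bigField 1 (ω₂ / ω₁) (![] : Fin 0 → ℂ) (![] : Fin 0 → ℂ)) m →
            HasTrdeg (bigField ω₁ ω₂ t p) (m + 1 + tDim t + kDim2 ω₁ ω₂ p)) ∧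
          (IsCM ω₁ ω₂ → HasTrdeg (bigField ω₁ ω₂ t p) (tDim t + 2 + kDim2 ω₁ ω₂ p))) := by
  classical
  set T := S₀ ∪ {kap} with hT
  have hTc : T.Countable := hS₀.union (Set.countable_singleton _)
  have hkT : kap ∈ T := Or.inr rfl
  set K := unionF (Eop2 FX) T with hK
  have hKc : Countable K := unionF_countable (Eop2_countable FX) hTc
  have hKalg : ∀ x : ℂ, IsAlgebraic K x → x ∈ K := fun x hx => unionF_alg hx
  have hEK : ∀ j, Eop2 FX (chainF (Eop2 FX) T j) ⊆ K :=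
    fun j x hx => mem_unionF.2 ⟨j + 1, chainF_E j hx⟩
  have hKexp : ∀ x ∈ K, exp x ∈ K := by
    intro x hx
    obtain ⟨j, hj⟩ := mem_unionF.1 hx
    exact hEK j (Or.inl (Or.inl (Or.inl (Or.inr ⟨x, hj, rfl⟩))))
  have hKj : ∀ x ∈ K, jInv 1 x ∈ K := by
    intro x hx
    obtain ⟨j, hj⟩ := mem_unionF.1 hx
    exact hEK j (Or.inl (Or.inl (Or.inr ⟨x, hj, rfl⟩)))
  have hKf : ∀ τ : ℂ, 0 < τ.im → jInv 1 τ ∈ K → τ ∈ K := by
    intro τ hτ hx
    obtain ⟨j, hj⟩ := mem_unionF.1 hx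
    refine hEK j (Or.inl (Or.inr ?_))
    rw [Set.mem_iUnion₂]
    exact ⟨jInv 1 τ, hj, hτ, rfl⟩
  have hKiff : ∀ ω₁ ω₂ : ℂ, (ω₂ / ω₁).im ≠ 0 → (jInv ω₁ ω₂ ∈ K ↔ ω₂ / ω₁ ∈ K) := by
    intro ω₁ ω₂ him
    have h1 : ω₁ ≠ 0 := by
      rintro rfl
      simp at him
    have hω : ω₂ = ω₁ * (ω₂ / ω₁) := by field_simp
    rcases lt_or_gt_of_ne him with hlt | hgt
    · have h2 : jInv ω₁ ω₂ = jInv 1 (-(ω₂ / ω₁)) := by
        rw [jInv_neg, ← jInv_smul h1, ← hω]
      rw [h2]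
      constructor
      · intro h
        have h3 := hKf _ (by simpa using hlt) h
        have h4 := neg_mem h3
        rwa [neg_neg] at h4
      · intro h
        exact hKj _ (neg_mem h)
    · have h2 : jInv ω₁ ω₂ = jInv 1 (ω₂ / ω₁) := by
        rw [← jInv_smul h1, ← hω]
      rw [h2]
      exact ⟨hKf _ hgt, hKj _⟩
  have hkapK : kap ∈ K := subset_unionF hkT
  have hKg4 : ∀ a ∈ K, ∀ b ∈ K, gk 4 a b ∈ K := by
    intro a ha b hb
    obtain ⟨i, hi⟩ := mem_unionF.1 ha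
    obtain ⟨j, hj⟩ := mem_unionF.1 hb
    have hi' := chainF_mono (E := Eop2 FX) (S := T) (le_max_left i j) hi
    have hj' := chainF_mono (E := Eop2 FX) (S := T) (le_max_right i j) hj
    exact hEK (max i j) (Or.inr (Or.inr (Or.inl (Or.inl (Or.inl ⟨(a, b), ⟨hi', hj'⟩, rfl⟩)))))
  have hKg6 : ∀ a ∈ K, ∀ b ∈ K, gk 6 a b ∈ K := by
    intro a ha b hb
    obtain ⟨i, hi⟩ := mem_unionF.1 ha
    obtain ⟨j, hj⟩ := mem_unionF.1 hb
    have hi' := chainF_mono (E := Eop2 FX) (S := T) (le_max_left i j) hi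
    have hj' := chainF_mono (E := Eop2 FX) (S := T) (le_max_right i j) hj
    exact hEK (max i j) (Or.inr (Or.inr (Or.inl (Or.inl (Or.inr ⟨(a, b), ⟨hi', hj'⟩, rfl⟩)))))
  have h3 : ∀ a ∈ K, ∀ b ∈ K, ∀ c ∈ K, ∃ j, a ∈ chainF (Eop2 FX) T j ∧ b ∈ chainF (Eop2 FX) T j ∧
      c ∈ chainF (Eop2 FX) T j := by
    intro a ha b hb c hc
    obtain ⟨i, hi⟩ := mem_unionF.1 ha
    obtain ⟨j, hj⟩ := mem_unionF.1 hb
    obtain ⟨l, hl⟩ := mem_unionF.1 hc
    refine ⟨max i (max j l), chainF_mono (le_max_left _ _) hi,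
      chainF_mono ((le_max_left _ _).trans (le_max_right _ _)) hj,
      chainF_mono ((le_max_right _ _).trans (le_max_right _ _)) hl⟩
  have hKwp : ∀ a ∈ K, ∀ b ∈ K, ∀ c ∈ K, wp a b c ∈ K := by
    intro a ha b hb c hc
    obtain ⟨j, h1, h2, h4⟩ := h3 a ha b hb c hc
    exact hEK j (Or.inr (Or.inr (Or.inl (Or.inr ⟨(a, b, c), ⟨h1, h2, h4⟩, rfl⟩))))
  have hKzt : ∀ a ∈ K, ∀ b ∈ K, ∀ c ∈ K, zt a b c ∈ K := by
    intro a ha b hb c hc
    obtain ⟨j, h1, h2, h4⟩ := h3 a ha b hb c hc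
    exact hEK j (Or.inr (Or.inr (Or.inr ⟨(a, b, c), ⟨h1, h2, h4⟩, rfl⟩)))
  have h2K : (2 : ℂ) ∈ K := ofNat_mem K 2
  have hKbig : ∀ ω₁ ∈ K, ∀ ω₂ ∈ K, ∀ (s n : ℕ) (t : Fin s → ℂ) (p : Fin n → ℂ),
        (∀ l, t l ∈ K) → (∀ i, p i ∈ K) → bigField ω₁ ω₂ t p ≤ K := by
    intro ω₁ h1 ω₂ h2 s n t p ht hp
    refine big_le ω₁ ω₂ t p ht (fun l => hKexp _ (ht l)) (mul_mem (ofNat_mem K 60) (hKg4 _ h1 _ h2))
      (mul_mem (ofNat_mem K 140) (hKg6 _ h1 _ h2)) hp (fun i => hKwp _ h1 _ h2 _ (hp i))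
      (fun i => hKzt _ h1 _ h2 _ (hp i)) h1 h2 ?_ ?_
    · exact mul_mem h2K (hKzt _ h1 _ h2 _ (div_mem h1 h2K))
    · exact mul_mem h2K (hKzt _ h1 _ h2 _ (div_mem h2 h2K))
  refine ⟨K, Set.countable_coe_iff.1 hKc, fun x hx => subset_unionF (Or.inl hx), hKalg, hKbig,
    hKiff, ?_⟩
  intro ω₁ ω₂ him hj s n t p
  have h1 : ω₁ ≠ 0 := by
    rintro rfl
    simp at him
  have hω : ω₂ = ω₁ * (ω₂ / ω₁) := by field_simp
  have hτK : ω₂ / ω₁ ∈ K := (hKiff ω₁ ω₂ him).1 hj
  have main : ∀ d, HasTrdeg (bigField ω₁ ω₂ t p ⊓ K) d →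
          HasTrdeg (bigField ω₁ ω₂ t p) (d + (modDim K t + modDim2 K ω₁ ω₂ p) +
            min 1 (modDim K t + modDim2 K ω₁ ω₂ p)) := by
    intro d hd
    rcases lt_or_gt_of_ne him with hlt | hgt
    · have h2 : -ω₂ = ω₁ * (-(ω₂ / ω₁)) := by field_simp
      have hτ' : (0 : ℝ) < (-(ω₂ / ω₁)).im := by simpa using hlt
      have h4 := fix_upper (FX := FX) hTc (-(ω₂ / ω₁)) hτ' (neg_mem hτK)
        (mul_mem (ofNat_mem K 60) (hKg4 _ (one_mem K) _ (neg_mem hτK))) ω₁ h1 s n t p d (by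
          rw [← h2, bigField_neg]
          exact hd)
      rw [← h2, bigField_neg, modDim2_neg] at h4
      exact h4
    · have h4 := fix_upper (FX := FX) hTc (ω₂ / ω₁) hgt hτK
        (mul_mem (ofNat_mem K 60) (hKg4 _ (one_mem K) _ hτK)) ω₁ h1 s n t p d (by
          rw [← hω]
          exact hd)
      rw [← hω] at h4
      exact h4
  refine ⟨main, fun ht hp hpos => ?_⟩
  have hgen : ∀ m, HasTrdeg (bigField 1 (ω₂ / ω₁) (![] : Fin 0 → ℂ) (![] : Fin 0 → ℂ)) m →
            HasTrdeg (bigField ω₁ ω₂ t p) (m + 1 + tDim t + kDim2 ω₁ ω₂ p) := by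
    intro m hm
    have hle : bigField 1 (ω₂ / ω₁) (![] : Fin 0 → ℂ) (![] : Fin 0 → ℂ) ≤
        bigField ω₁ ω₂ t p ⊓ K :=
      le_inf (big_base' him t p) (hKbig 1 (one_mem K) _ hτK 0 0 _ _ (fun l => l.elim0)
        (fun l => l.elim0))
    exact (main m (hm.mono hle le_rfl)).mono le_rfl (by omega)
  refine ⟨hgen, fun _ => ?_⟩
  have hpi : HasTrdeg (bigField 1 (ω₂ / ω₁) (![] : Fin 0 → ℂ) (![] : Fin 0 → ℂ)) 1 :=
    ⟨fun _ => kap, fun _ => big_pi' (by rwa [div_one]) _ _, algInd_pi⟩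
  exact (hgen 1 hpi).mono le_rfl (by omega)

end Pool.Agent.Work.MP_8da9ea_nt

end
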