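import Mathlib
import Pool.Agent.Work.MP_8da9ea_nt.S.Stmts
import Pool.Agent.Work.MP_327059_nt.Bd.B11
import Pool.Agent.Work.MP_327059_nt.GL.T_TIe
import Pool.Agent.Work.MP_8da9ea_nt.Bd.B04
import Pool.Agent.Work.MP_8da9ea_nt.S.Defs
import Pool.Agent.Work.MP_327059_nt.Bd.B10
import Pool.Agent.Work.MP_327059_nt.Bd.B09
import Pool.Agent.Work.MP_327059_nt.Bd.B04
import Pool.Agent.Work.MP_8da9ea_nt.Stmt4
import Pool.Agent.Work.MP_8da9ea_nt.Bd.B02

/-! Bundle of small proof modules (one section per former module). -/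

section

/-!
# X08: multiplicative relations close to the true point are impossible
-/

set_option autoImplicit false

namespace Pool.Agent.Work.MP_8da9ea_nt.S

open MvPolynomial Pool.Agent.Work.MP_327059_nt.GL

theorem NoRelYX_num1 (q c T κ : ℕ) (hκ : 2 ≤ κ) (B : ℝ) (hB : 1 ≤ B) (hBT : B ≤ T)
    (h : 2 ^ (c + 1) ≤ T) (h' : q * c + 3 ≤ T) :
    2 * (B * ((T * (2 * T ^ q) ^ c : ℕ) : ℝ) * Real.exp (-(T : ℝ) ^ κ)) ≤ 1 := by
  have hT : (1 : ℝ) ≤ T := hB.trans hBT
  have h1 := NoRelY_2W q c T h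
  have h2 := NoRelY_powexp T (q * c + 3)
  have h3 : ((q * c + 3 : ℕ) : ℝ) ≤ T := by exact_mod_cast h'
  have h4 : Real.exp (((q * c + 3 : ℕ) : ℝ) * T) * Real.exp (-(T : ℝ) ^ κ) ≤ 1 := by
    rw [← Real.exp_add]
    rw [Real.exp_le_one_iff]
    have h5 : (T : ℝ) ^ 2 ≤ (T : ℝ) ^ κ := pow_le_pow_right₀ hT hκ
    nlinarith [mul_le_mul_of_nonneg_right h3 (by linarith : (0 : ℝ) ≤ T)]
  calc 2 * (B * ((T * (2 * T ^ q) ^ c : ℕ) : ℝ) * Real.exp (-(T : ℝ) ^ κ))
      = (B * T) * (2 * (((2 * T ^ q) ^ c : ℕ) : ℝ)) * Real.exp (-(T : ℝ) ^ κ) := by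
        push_cast; ring
    _ ≤ (T * T) * (T : ℝ) ^ (q * c + 1) * Real.exp (-(T : ℝ) ^ κ) := by
        apply mul_le_mul_of_nonneg_right _ (Real.exp_pos _).le
        apply mul_le_mul _ h1 (by positivity) (by positivity)
        exact mul_le_mul_of_nonneg_right hBT (by positivity)
    _ = (T : ℝ) ^ (q * c + 3) * Real.exp (-(T : ℝ) ^ κ) := by ring
    _ ≤ Real.exp (((q * c + 3 : ℕ) : ℝ) * T) * Real.exp (-(T : ℝ) ^ κ) :=
        mul_le_mul_of_nonneg_right h2 (Real.exp_pos _).le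
    _ ≤ 1 := h4

theorem NoRelYX_num2 (q c T Q ρ : ℕ) (B BL : ℝ) (hB : 1 ≤ B) (hBT : B ≤ T)
    (h : 2 ^ (c + 1) ≤ T) (hρ : ρ ≤ T) (hN : q * c + 7 ≤ T)
    (hBL : BL * (ρ : ℝ) ^ Q + 1 ≤ T) :
    Real.exp (T : ℝ) *
      (((ρ : ℝ) * T) * (2 * (B * ((T * (2 * T ^ q) ^ c : ℕ) : ℝ) *
        Real.exp (-(T : ℝ) ^ (2 * Q + 2))))) <
      Real.exp (-(BL * ((ρ : ℝ) * (T : ℝ) ^ 2) ^ Q)) := by
  have hT : (1 : ℝ) ≤ T := hB.trans hBT
  have h1 := NoRelY_2W q c T h
  obtain ⟨U, hU⟩ : ∃ U : ℝ, U = 2 * (((2 * T ^ q) ^ c : ℕ) : ℝ) := ⟨_, rfl⟩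
  have hU0 : 0 ≤ U := by rw [hU]; positivity
  have h2 := NoRelY_powexp T (q * c + 5)
  have hρ' : (ρ : ℝ) ≤ T := by exact_mod_cast hρ
  have hN' : ((q * c + 5 : ℕ) : ℝ) + 2 ≤ T := by exact_mod_cast hN
  obtain ⟨N, hNN⟩ : ∃ N : ℕ, N = q * c + 5 := ⟨_, rfl⟩
  rw [← hNN] at h2 hN'
  have h4 : (T : ℝ) + (N : ℝ) * T + -(T : ℝ) ^ (2 * Q + 2) <
      -(BL * ((ρ : ℝ) * (T : ℝ) ^ 2) ^ Q) := by
    have e0 : (1 : ℝ) ≤ ((T : ℝ) ^ 2) ^ Q := one_le_pow₀ (by nlinarith)
    obtain ⟨V, hV⟩ : ∃ V : ℝ, V = ((T : ℝ) ^ 2) ^ Q := ⟨_, rfl⟩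
    have e1 : (T : ℝ) ^ (2 * Q + 2) = V * (T : ℝ) ^ 2 := by
      rw [hV, pow_add, pow_mul]
    have e2 : BL * ((ρ : ℝ) * (T : ℝ) ^ 2) ^ Q = (BL * (ρ : ℝ) ^ Q) * V := by
      rw [hV, mul_pow]; ring
    rw [e1, e2]
    rw [← hV] at e0
    have e3 : (BL * (ρ : ℝ) ^ Q) * V ≤ (T - 1) * V :=
      mul_le_mul_of_nonneg_right (by linarith) (by linarith)
    have e4 : (T : ℝ) + (N : ℝ) * T ≤ (T - 1) * T := by nlinarith
    have e5 : (T - 1) * (T : ℝ) ≤ ((T - 1) * (T : ℝ)) * V :=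
      le_mul_of_one_le_right (by nlinarith) e0
    nlinarith
  calc Real.exp (T : ℝ) *
      (((ρ : ℝ) * T) * (2 * (B * ((T * (2 * T ^ q) ^ c : ℕ) : ℝ) *
        Real.exp (-(T : ℝ) ^ (2 * Q + 2)))))
      = Real.exp (T : ℝ) * ((U * (ρ * T * B * T)) * Real.exp (-(T : ℝ) ^ (2 * Q + 2))) := by
        rw [hU]; push_cast; ring
    _ ≤ Real.exp (T : ℝ) * (((T : ℝ) ^ (q * c + 1) * (T * T * T * T)) *
          Real.exp (-(T : ℝ) ^ (2 * Q + 2))) := by
        apply mul_le_mul_of_nonneg_left _ (Real.exp_pos _).le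
        apply mul_le_mul_of_nonneg_right _ (Real.exp_pos _).le
        apply mul_le_mul _ _ (by positivity) (by positivity)
        · rw [hU]; exact h1
        · apply mul_le_mul_of_nonneg_right _ (by linarith)
          apply mul_le_mul _ hBT (by linarith) (by positivity)
          exact mul_le_mul_of_nonneg_right hρ' (by linarith)
    _ = Real.exp (T : ℝ) * ((T : ℝ) ^ N * Real.exp (-(T : ℝ) ^ (2 * Q + 2))) := by
        rw [hNN]; ring
    _ ≤ Real.exp (T : ℝ) * (Real.exp ((N : ℝ) * T) * Real.exp (-(T : ℝ) ^ (2 * Q + 2))) := by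
        apply mul_le_mul_of_nonneg_left _ (Real.exp_pos _).le
        exact mul_le_mul_of_nonneg_right h2 (Real.exp_pos _).le
    _ = Real.exp ((T : ℝ) + (N : ℝ) * T + -(T : ℝ) ^ (2 * Q + 2)) := by
        rw [← Real.exp_add, ← Real.exp_add, add_assoc]
    _ < Real.exp (-(BL * ((ρ : ℝ) * (T : ℝ) ^ 2) ^ Q)) := Real.exp_lt_exp.2 h4

theorem NoRelYX_W (q c T : ℕ) (h : 2 ^ c ≤ T) : (2 * T ^ q) ^ c ≤ T ^ (q * c + 1) := by
  rw [NoRelY_W]
  calc 2 ^ c * T ^ (q * c) ≤ T * T ^ (q * c) := Nat.mul_le_mul h le_rfl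
    _ = T ^ (q * c + 1) := by ring

theorem pr_NoRelYX (h1 : S_ManyInd) (h4 : S_Sieg) (h5 : S_Pert) (h6 : S_NearLog) :
    S_NoRelYX := by
  intro m q c Q
  refine ⟨2 * (q * c) + 4, ?_⟩
  intro b hb n hn l hMS
  obtain ⟨BL, hBL1, hBL⟩ := hMS
  obtain ⟨Tb, hTb⟩ := hb (q * c + 1)
  obtain ⟨B, hB1, hB⟩ := h5 (Fin n × Fin m) (fun p => Complex.exp (b p.2 * l p.1))
    (fun p => Complex.exp_ne_zero _)
  obtain ⟨β, hβ⟩ : ∃ β : ℝ, β = ∑ j, ‖b j‖ := ⟨_, rfl⟩
  obtain ⟨lam, hlam⟩ : ∃ lam : ℝ, lam = ∑ i, ‖l i‖ := ⟨_, rfl⟩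
  have hβ0 : 0 ≤ β := by rw [hβ]; exact Finset.sum_nonneg (fun _ _ => norm_nonneg _)
  have hlam0 : 0 ≤ lam := by rw [hlam]; exact Finset.sum_nonneg (fun _ _ => norm_nonneg _)
  obtain ⟨K, hK⟩ : ∃ K : ℕ, β * lam + 1 ≤ K := ⟨_, Nat.le_ceil _⟩
  obtain ⟨Bc, hBc⟩ : ∃ Bc : ℕ, B ≤ Bc := ⟨_, Nat.le_ceil _⟩
  obtain ⟨Lc, hLc⟩ : ∃ Lc : ℕ, BL * ((q * c + 4 : ℕ) : ℝ) ^ Q + 1 ≤ Lc := ⟨_, Nat.le_ceil _⟩
  refine ⟨2 ^ (c + (q * c + 3)) + (2 * (q * c + 4) * K * 2 ^ c + 1) + 2 ^ (c + 1) +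
    (q * c + 7) + Tb + Bc + Lc, ?_⟩
  intro T hT y' hy w hw0 hw
  by_contra hcon
  rw [not_lt] at hcon
  obtain ⟨hT1, hT2, hT3, hT4, hT5, hT6, hT7⟩ := NoRelY_split _ _ _ _ _ _ _ _ hT
  have hBT : B ≤ T := hBc.trans (by exact_mod_cast hT6)
  have hLT : BL * ((q * c + 4 : ℕ) : ℝ) ^ Q + 1 ≤ T := hLc.trans (by exact_mod_cast hT7)
  have hTpos : 1 ≤ T := by omega
  obtain ⟨W, hW⟩ : ∃ W : ℕ, W = (2 * T ^ q) ^ c := ⟨_, rfl⟩
  have hWpos : 1 ≤ W := by
    rw [hW]
    exact Nat.one_le_pow _ _ (by have := Nat.one_le_pow q T hTpos; omega)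
  -- many independent relations
  have hcnt : (2 * T + 1) ^ (q * c + 3) < cntY T y' w := by
    by_contra hle
    rw [not_lt] at hle
    have h7 := NoRelY_pow1 q c n T hn hT1
    have h8 : (2 * T ^ q) ^ c * cntY T y' w ≤ (2 * T ^ q) ^ c * (2 * T + 1) ^ (q * c + 3) :=
      Nat.mul_le_mul_left _ hle
    omega
  obtain ⟨t, htL, htb, hti⟩ := h1 n T (q * c + 3)
    {s : Fin n → ℤ | ∏ i, ∏ j, y' i j ^ (s i * w j) = 1} hcnt
  have hnum1 := NoRelYX_num1 q c T (2 * Q + 2) (by omega) B hB1 hBT hT3 (by omega)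
  have hk : ∀ r, ∃ k : ℤ, ‖(∑ j, (w j : ℂ) * b j) * (∑ i, (t r i : ℂ) * l i) -
      2 * Real.pi * Complex.I * k‖ ≤
      2 * (B * ((T * (2 * T ^ q) ^ c : ℕ) : ℝ) * Real.exp (-(T : ℝ) ^ (2 * Q + 2))) := fun r =>
    NoRelY_near b l B hB1 hB h6 T ((2 * T ^ q) ^ c) hTpos (by rw [← hW]; exact hWpos)
      (Real.exp (-(T : ℝ) ^ (2 * Q + 2))) (Real.exp_pos _).le hnum1 y' hy w
      (by exact_mod_cast hw) (t r) (htb r) (htL r)
  choose k hk using hk
  have hwr : ∀ j, |(w j : ℝ)| ≤ (W : ℝ) := by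
    intro j
    have e : ((|w j| : ℤ) : ℝ) ≤ ((((2 * T ^ q) ^ c : ℕ) : ℤ) : ℝ) := by exact_mod_cast hw j
    rw [Int.cast_abs] at e
    rw [hW]
    exact_mod_cast e
  have htr : ∀ r i, |(t r i : ℝ)| ≤ (T : ℝ) := by
    intro r i
    have e : ((|t r i| : ℤ) : ℝ) ≤ ((T : ℤ) : ℝ) := by exact_mod_cast htb r i
    rw [Int.cast_abs] at e
    exact_mod_cast e
  have hkb : ∀ r, |k r| ≤ ((T * W * K : ℕ) : ℤ) := by
    intro r
    have e1 : ‖(∑ j, (w j : ℂ) * b j) * (∑ i, (t r i : ℂ) * l i)‖ ≤ (W * β) * (T * lam) := by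
      rw [norm_mul, hβ, hlam]
      apply mul_le_mul (NoRelY_norm b w W hwr) (NoRelY_norm l (t r) T (htr r)) (norm_nonneg _)
      positivity
    have e2 := NoRelY_kbd _ (k r) _ e1 ((hk r).trans hnum1)
    have e3 : (W * β) * (T * lam) + 1 ≤ ((T * W * K : ℕ) : ℝ) := by
      have f1 : (1 : ℝ) ≤ (T : ℝ) * W := by exact_mod_cast Nat.mul_pos hTpos hWpos
      have f2 : (T : ℝ) * W * (β * lam + 1) ≤ (T : ℝ) * W * K :=
        mul_le_mul_of_nonneg_left hK (by positivity)
      push_cast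
      nlinarith
    have e4 : ((|k r| : ℤ) : ℝ) ≤ (((T * W * K : ℕ) : ℤ) : ℝ) := by
      rw [Int.cast_abs]
      exact_mod_cast e2.trans e3
    exact_mod_cast e4
  have hpow2 := NoRelY_pow2 q c T K hT2
  obtain ⟨cc, hcc0, hccT, hcck⟩ := h4 (q * c + 3 + 1) (T * W * K) T k hkb (by
    rw [hW]; exact hpow2)
  have hsne := NoRelY_ne t hti cc hcc0
  have hsbd := NoRelY_sbd t htb cc hccT
  have hS1 : (1 : ℝ) ≤ ((q * c + 3 + 1 : ℕ) : ℝ) * (T : ℝ) ^ 2 := by
    have f1 : (1 : ℝ) ≤ ((q * c + 3 + 1 : ℕ) : ℝ) := by exact_mod_cast (by omega)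
    have f2 : (1 : ℝ) ≤ (T : ℝ) ^ 2 := one_le_pow₀ (by exact_mod_cast hTpos)
    nlinarith
  have hlow := hBL _ hsne _ hS1 hsbd
  have hlowb := hTb T hT5 w hw0 (fun j => (hw j).trans (by
    exact_mod_cast NoRelYX_W q c T (le_trans (Nat.pow_le_pow_right (by norm_num) (by omega)) hT3)))
  have hcomb := NoRelY_comb l (∑ j, (w j : ℂ) * b j) t k cc hcck
  have hup : ‖(∑ j, (w j : ℂ) * b j) * ∑ i, ((∑ r, cc r * t r i : ℤ) : ℂ) * l i‖ ≤
      (((q * c + 3 + 1 : ℕ) : ℝ) * T) *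
        (2 * (B * ((T * (2 * T ^ q) ^ c : ℕ) : ℝ) * Real.exp (-(T : ℝ) ^ (2 * Q + 2)))) := by
    rw [hcomb]
    refine (norm_sum_le _ _).trans ?_
    calc ∑ r, ‖(cc r : ℂ) * ((∑ j, (w j : ℂ) * b j) * (∑ i, (t r i : ℂ) * l i) -
          2 * Real.pi * Complex.I * k r)‖
        ≤ ∑ _r : Fin (q * c + 3 + 1), (T : ℝ) *
          (2 * (B * ((T * (2 * T ^ q) ^ c : ℕ) : ℝ) * Real.exp (-(T : ℝ) ^ (2 * Q + 2)))) := by
          refine Finset.sum_le_sum (fun r _ => ?_)
          rw [norm_mul, Complex.norm_intCast]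
          have e : ((|cc r| : ℤ) : ℝ) ≤ ((T : ℤ) : ℝ) := by exact_mod_cast hccT r
          rw [Int.cast_abs] at e
          exact mul_le_mul (by exact_mod_cast e) (hk r) (norm_nonneg _) (by positivity)
      _ = _ := by
          rw [Finset.sum_const, Finset.card_univ, Fintype.card_fin, nsmul_eq_mul]
          ring
  have hnum2 := NoRelYX_num2 q c T Q (q * c + 3 + 1) B BL hB1 hBT hT3 (by omega) hT4 hLT
  have hE0 : 0 < Real.exp (T : ℝ) := Real.exp_pos _
  have hfin : Real.exp (-(BL * (((q * c + 3 + 1 : ℕ) : ℝ) * (T : ℝ) ^ 2) ^ Q)) ≤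
      Real.exp (T : ℝ) * ((((q * c + 3 + 1 : ℕ) : ℝ) * T) *
        (2 * (B * ((T * (2 * T ^ q) ^ c : ℕ) : ℝ) * Real.exp (-(T : ℝ) ^ (2 * Q + 2))))) := by
    calc Real.exp (-(BL * (((q * c + 3 + 1 : ℕ) : ℝ) * (T : ℝ) ^ 2) ^ Q))
        ≤ ‖∑ i, ((∑ r, cc r * t r i : ℤ) : ℂ) * l i‖ := hlow
      _ = Real.exp (T : ℝ) * (Real.exp (-(T : ℝ)) *
            ‖∑ i, ((∑ r, cc r * t r i : ℤ) : ℂ) * l i‖) := by
          rw [← mul_assoc, ← Real.exp_add, add_neg_cancel, Real.exp_zero, one_mul]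
      _ ≤ Real.exp (T : ℝ) * (‖∑ j, (w j : ℂ) * b j‖ *
            ‖∑ i, ((∑ r, cc r * t r i : ℤ) : ℂ) * l i‖) := by
          apply mul_le_mul_of_nonneg_left _ hE0.le
          exact mul_le_mul_of_nonneg_right hlowb (norm_nonneg _)
      _ ≤ _ := by
          apply mul_le_mul_of_nonneg_left _ hE0.le
          rw [← norm_mul]
          exact hup
  exact absurd hnum2 (not_lt.2 hfin)

end Pool.Agent.Work.MP_8da9ea_nt.S

end

section

/-!
# X11: the auxiliary function, general `q`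
-/

set_option autoImplicit false

namespace Pool.Agent.Work.MP_8da9ea_nt.S

open MvPolynomial Pool.Agent.Work.MP_327059_nt.GL

theorem PsiX_arith (M q T : ℕ) (hM : 2 ≤ M) (hq : (M + 2) ^ 2 ≤ q) (hT : 4 ≤ T) :
    4 * (T ^ ((q + 1) * (M - 1) + 2)) ^ (M + 1 + 1) ≤
      T ^ (q + 1) * (T ^ (q * M)) ^ (M + 1) := by
  obtain ⟨k, rfl⟩ : ∃ k, M = k + 2 := ⟨M - 2, by omega⟩
  obtain ⟨r, rfl⟩ : ∃ r, q = (k + 2 + 2) ^ 2 + r := ⟨q - (k + 2 + 2) ^ 2, by omega⟩
  have h1 : k + 2 - 1 = k + 1 := by omega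
  rw [h1, ← pow_mul, ← pow_mul, ← pow_add]
  calc 4 * T ^ ((((k + 2 + 2) ^ 2 + r + 1) * (k + 1) + 2) * (k + 2 + 1 + 1))
      ≤ T * T ^ ((((k + 2 + 2) ^ 2 + r + 1) * (k + 1) + 2) * (k + 2 + 1 + 1)) :=
        Nat.mul_le_mul_right _ hT
    _ = T ^ ((((k + 2 + 2) ^ 2 + r + 1) * (k + 1) + 2) * (k + 2 + 1 + 1) + 1) := by
        rw [pow_succ]; ring
    _ ≤ T ^ ((k + 2 + 2) ^ 2 + r + 1 + ((k + 2 + 2) ^ 2 + r) * (k + 2) * (k + 2 + 1)) := by
        refine Nat.pow_le_pow_right (by omega) ?_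
        nlinarith [Nat.zero_le k, Nat.zero_le (k ^ 2), Nat.zero_le (k ^ 3), Nat.zero_le r,
          Nat.zero_le (k * r), Nat.zero_le (k ^ 2 * r)]

theorem pr_PsiX (h1 : S_PLm) (h2 : S_Tay) : S_PsiX := by
  intro m e q he hM hq b R0 hR0
  have hβ0 : 0 ≤ ∑ j, ‖b j‖ := Finset.sum_nonneg fun j _ => norm_nonneg _
  obtain ⟨T₀, hT₀⟩ := exists_nat_ge
    (4 * ((4 + ((m + e + 1 : ℕ) : ℝ) * 4 ^ (m + e + 1)) +
      (((q + 1) * (m + e - 1) + 2 : ℕ) : ℝ) * ((m + e + 1 : ℕ) : ℝ) +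
      ((q * e + q * m : ℕ) : ℝ) * ((m + e + 1 : ℕ) : ℝ) + 1 +
      (2 * R0 + 2 * R0 * ∑ j, ‖b j‖) * ((m + e + 1 : ℕ) : ℝ)))
  refine ⟨T₀ + 4, fun T hT => ?_⟩
  have hT4 : 4 ≤ T := by omega
  have hT1 : 1 ≤ T := by omega
  have hTr : (1 : ℝ) ≤ T := by exact_mod_cast hT1
  have hTT : (T₀ : ℝ) ≤ T := by exact_mod_cast (by omega : T₀ ≤ T)
  have hR1 : 1 ≤ R0 * T := one_le_mul_of_one_le_of_one_le hR0 hTr
  have hbw : ∀ x : Ix m (T ^ (q * e)) (T ^ (q)),
      ‖bw b x‖ ≤ ((T ^ (q) : ℕ) : ℝ) * ∑ j, ‖b j‖ := by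
    intro x
    unfold bw
    rw [Finset.mul_sum]
    refine (norm_sum_le _ _).trans (Finset.sum_le_sum fun j _ => ?_)
    rw [norm_mul, Complex.norm_natCast]
    refine mul_le_mul_of_nonneg_right ?_ (norm_nonneg _)
    exact_mod_cast (x.2 j).2.le
  choose c hc1 hc2 using fun x : Ix m (T ^ (q * e)) (T ^ (q)) =>
    h2 (x.1 : ℕ) (T ^ (q * e)) (bw b x) (R0 * T)
      (((T ^ (q) : ℕ) : ℝ) * ∑ j, ‖b j‖) hR1 x.1.2.le (hbw x)
  have hcard : Fintype.card (Ix m (T ^ (q * e)) (T ^ (q))) =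
      T ^ (q * e) * (T ^ (q)) ^ m := by
    simp [Ix, Fintype.card_prod, Fintype.card_fin]
  have hA1 : (1 : ℝ) ≤ (2 * (R0 * T)) ^ (T ^ (q * e)) *
      Real.exp (2 * (R0 * T) * (((T ^ (q) : ℕ) : ℝ) * ∑ j, ‖b j‖)) := by
    refine one_le_mul_of_one_le_of_one_le (one_le_pow₀ (by linarith)) (Real.one_le_exp ?_)
    have : 0 ≤ R0 * T := by linarith
    positivity
  have hK1 : 1 ≤ T ^ ((q + 1) * (m + e - 1) + 2) := Nat.one_le_pow _ _ hT1
  obtain ⟨p, hp0, hp, hz⟩ := h1 (Ix m (T ^ (q * e)) (T ^ (q)))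
    (m + e + 1) (T ^ ((q + 1) * (m + e - 1) + 2)) (T ^ (q + 1))
    c (R0 * T) _ (by linarith) hA1 hK1 (by omega) hc2 (by
      rw [hcard]
      have h3 : T ^ (q * e) * (T ^ (q)) ^ m =
          T ^ (q * (m + e)) := by
        rw [← pow_mul, ← pow_add]
        congr 1
        ring
      rw [h3]
      exact PsiX_arith (m + e) q T hM hq hT4)
  refine ⟨p, hp0, hp, fun z hz' => ?_⟩
  have h3 := hz z hz'
  have h4 : ∀ x : Fin (m + e + 1) → Ix m (T ^ (q * e)) (T ^ (q)),
      ∀ i, ∑' k, c (x i) k * z i ^ k =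
        z i ^ ((x i).1 : ℕ) * Complex.exp (bw b (x i) * z i) := fun x i =>
    (hc1 (x i) (z i)).tsum_eq
  simp only [h4] at h3
  refine h3.trans ?_
  rw [hcard]
  refine Psi_est (m + e + 1) _ q m e R0 (∑ j, ‖b j‖) hR0 hβ0 he ?_ T hT1
    (hT₀.trans hTT)
  obtain ⟨k, hk⟩ : ∃ k, m + e = k + 2 := ⟨m + e - 2, by omega⟩
  rw [hk]
  have h5 : k + 2 - 1 = k + 1 := by omega
  rw [h5]
  nlinarith [Nat.zero_le k, Nat.zero_le (k ^ 2)]

end Pool.Agent.Work.MP_8da9ea_nt.S

end

section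

/-!
# X12: large transcendence degree for arbitrary points
-/

set_option autoImplicit false

namespace Pool.Agent.Work.MP_8da9ea_nt.S

open MvPolynomial Pool.Agent.Work.MP_327059_nt.GL

theorem TIeX_core (h1 : S_Crit) (h3 : S_Val) (h4 : S_Tensor) (m M q e κ : ℕ) (hM : 2 ≤ M)
    (hq : 1 ≤ q) (hκ : κ + 1 ≤ q + 3)
    (he : e ≤ 1) (n : ℕ) (hn : 1 ≤ n) (b : Fin m → ℂ) (l : Fin n → ℂ)
    (hPsi : ∀ R0 : ℝ, 1 ≤ R0 → ∃ T₀ : ℕ, ∀ T : ℕ, T₀ ≤ T →
      ∃ p : (Fin (M + 1) → Ix m (T ^ (q * e)) (T ^ q)) → ℤ,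
        p ≠ 0 ∧ (∀ x, |p x| ≤ (2 : ℤ) ^ (T ^ (q + 1))) ∧
        ∀ z : Fin (M + 1) → ℂ, (∀ i, ‖z i‖ ≤ R0 * T) →
          ‖∑ x, (p x : ℂ) * ∏ i, (z i ^ ((x i).1 : ℕ) * Complex.exp (bw b (x i) * z i))‖ ≤
            Real.exp (-((T : ℝ) ^ ((q + 1) * (M - 1) + 2) / 4)))
    (hNZ : ∃ T₀ : ℕ, ∀ T : ℕ, T₀ ≤ T → ∀ (l' : Fin n → ℂ) (y' : Fin n → Fin m → ℂ),
      (∀ i, ‖l' i - l i‖ ≤ Real.exp (-(T : ℝ) ^ κ)) →
      (∀ i j, ‖y' i j - Complex.exp (b j * l i)‖ ≤ Real.exp (-(T : ℝ) ^ κ)) →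
      ∀ P : MvPolynomial (Fin (m + 1)) ℂ, (∀ i, P.degreeOf i ≤ T ^ q) →
        (∀ s : Fin n → ℕ, (∀ i, s i ≤ 2 ^ m * T) → eval (pt l' y' s) P = 0) → P = 0)
    (σ : Type) [Fintype σ] (θ : σ → ℂ) (ι : σ → Fin n ⊕ Fin n × Fin m)
    (hι : Function.Injective ι) (hθ : θ = cd b l ∘ ι)
    (hren : ∀ (T : ℕ) (p : (Fin (M + 1) → Ix m (T ^ (q * e)) (T ^ q)) → ℤ)
      (s : Fin (M + 1) → Fin n → ℕ), ∃ P' : MvPolynomial σ ℤ, rename ι P' = PS p s)
    (hTr : TrLe (M - 2) θ) : False := by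
  obtain ⟨C, hC1, hCrit⟩ := h1 σ (M - 2) θ hTr
  set R0 : ℝ := 1 + 2 ^ m * ∑ i, ‖l i‖ with hR0
  have hsl : 0 ≤ ∑ i, ‖l i‖ := Finset.sum_nonneg (fun _ _ => norm_nonneg _)
  have hR01 : 1 ≤ R0 := by
    have : 0 ≤ (2 : ℝ) ^ m * ∑ i, ‖l i‖ := by positivity
    linarith
  obtain ⟨T1, hT1⟩ := hPsi R0 hR01
  obtain ⟨T2, hT2⟩ := hNZ
  set C2 : ℕ := (M + 1) * (1 + 2 ^ m * n * m) + (M + 1) * (q + q * m) + 1 +
    (M + 1) * (n * 2 ^ m) with hC2
  have hC2pos : 1 ≤ C2 := by omega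
  set K : ℝ := 4 * C * (C2 : ℝ) ^ (M - 1) with hK
  set T : ℕ := max (max T1 T2) (⌈K⌉₊ + 1) with hT
  have hTT1 : T1 ≤ T := le_trans (le_max_left _ _) (le_max_left _ _)
  have hTT2 : T2 ≤ T := le_trans (le_max_right _ _) (le_max_left _ _)
  have hT1' : 1 ≤ T := le_trans (Nat.le_add_left 1 _) (le_max_right _ _)
  have hTK : K ≤ T := by
    have h5 : ⌈K⌉₊ ≤ T := le_trans (Nat.le_succ _) (le_max_right _ _)
    exact (Nat.le_ceil K).trans (by exact_mod_cast h5)
  clear_value T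
  have hTr1 : (1 : ℝ) ≤ T := by exact_mod_cast hT1'
  obtain ⟨p, hp0, hpb, hpz⟩ := hT1 T hTT1
  set X : ℕ := C2 * T ^ (q + 1) with hX
  set V : ℝ := (T : ℝ) ^ ((q + 1) * (M - 1) + 2) / 4 with hV
  have hX1 : 1 ≤ X := Nat.mul_pos hC2pos (Nat.pos_of_ne_zero (by positivity))
  have hXr : (X : ℝ) = (C2 : ℝ) * (T : ℝ) ^ (q + 1) := by rw [hX]; push_cast; ring
  have hM2 : M - 2 + 1 = M - 1 := by omega
  have hVX : C * (X : ℝ) ^ (M - 2 + 1) ≤ V := by
    rw [hM2, hXr, hV, mul_pow, ← pow_mul, pow_add]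
    have h6 : 4 * C * (C2 : ℝ) ^ (M - 1) ≤ (T : ℝ) ^ 2 := by
      calc 4 * C * (C2 : ℝ) ^ (M - 1) = K := rfl
        _ ≤ T := hTK
        _ ≤ (T : ℝ) ^ 2 := by nlinarith
    have h7 : (0 : ℝ) ≤ (T : ℝ) ^ ((q + 1) * (M - 1)) := by positivity
    nlinarith [mul_le_mul_of_nonneg_left h6 h7]
  let PP : Set (MvPolynomial σ ℤ) :=
    {P | ∃ s : Fin (M + 1) → Fin n → ℕ, (∀ r i, s r i ≤ 2 ^ m * T) ∧ rename ι P = PS p s}
  have hAq : T ^ (q * e) ≤ T ^ q := Nat.pow_le_pow_right hT1' (by nlinarith)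
  have hSpos : 1 ≤ 2 ^ m * T := Nat.mul_pos (by positivity) hT1'
  have hTq1 : T ^ q * T = T ^ (q + 1) := by rw [pow_succ]
  have hTq2 : T ^ q ≤ T ^ (q + 1) := Nat.pow_le_pow_right hT1' (by omega)
  have hTq3 : T ≤ T ^ (q + 1) := by
    calc T = T ^ 1 := (pow_one T).symm
      _ ≤ T ^ (q + 1) := Nat.pow_le_pow_right hT1' (by omega)
  have hPP : ∀ P ∈ PP, P.totalDegree ≤ X ∧ len P ≤ Real.exp X ∧ ‖aeval θ P‖ ≤ Real.exp (-V) := by
    rintro P ⟨s, hs, hPs⟩
    obtain ⟨_, hv2, hv3, hv4⟩ := h3 n m (T ^ (q * e)) (T ^ q) (M + 1) p s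
    refine ⟨?_, ?_, ?_⟩
    · refine (TIe.totalDegree_le_rename hι P).trans ?_
      rw [hPs]
      refine (hv3 _ hs).trans ?_
      calc (M + 1) * (T ^ (q * e) + T ^ q * (2 ^ m * T) * n * m)
          ≤ (M + 1) * (T ^ (q + 1) + T ^ q * (2 ^ m * T) * n * m) := by
            apply Nat.mul_le_mul_left
            apply Nat.add_le_add_right
            exact hAq.trans hTq2
        _ = (M + 1) * (1 + 2 ^ m * n * m) * T ^ (q + 1) := by rw [← hTq1]; ring
        _ ≤ C2 * T ^ (q + 1) := by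
            apply Nat.mul_le_mul_right
            omega
    · rw [← TIe.len_rename hι P, hPs]
      have hpH : ∀ x, |(p x : ℝ)| ≤ (2 : ℝ) ^ (T ^ (q + 1)) := by
        intro x
        have := hpb x
        exact_mod_cast this
      refine (hv4 (2 ^ m * T) ((2 : ℝ) ^ (T ^ (q + 1))) hSpos hn hs hpH).trans ?_
      have f1 : ((((T ^ (q * e) : ℕ) : ℝ)) * ((T ^ q : ℕ) : ℝ) ^ m) ^ (M + 1) ≤
          Real.exp (((M + 1) * (q + q * m) : ℕ) * ((T : ℝ) ^ (q + 1))) := by
        have g1 : (((T ^ (q * e) : ℕ) : ℝ)) * ((T ^ q : ℕ) : ℝ) ^ m ≤ (T : ℝ) ^ (q + q * m) := by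
          have : T ^ (q * e) * (T ^ q) ^ m ≤ T ^ (q + q * m) := by
            rw [pow_add, pow_mul T q m]
            exact Nat.mul_le_mul_right _ hAq
          exact_mod_cast this
        calc ((((T ^ (q * e) : ℕ) : ℝ)) * ((T ^ q : ℕ) : ℝ) ^ m) ^ (M + 1)
            ≤ ((T : ℝ) ^ (q + q * m)) ^ (M + 1) := pow_le_pow_left₀ (by positivity) g1 _
          _ = (T : ℝ) ^ ((M + 1) * (q + q * m)) := by rw [← pow_mul]; ring_nf
          _ ≤ Real.exp ((T : ℝ) * ((M + 1) * (q + q * m) : ℕ)) := TIe.pow_le_exp _ (by positivity) _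
          _ ≤ _ := by
            apply Real.exp_le_exp.2
            rw [mul_comm]
            apply mul_le_mul_of_nonneg_left _ (by positivity)
            exact_mod_cast hTq3
      have f2 : (2 : ℝ) ^ (T ^ (q + 1)) ≤ Real.exp ((T : ℝ) ^ (q + 1)) := by
        have g1 : (2 : ℝ) ≤ Real.exp 1 := by have := Real.add_one_le_exp (1 : ℝ); linarith
        calc (2 : ℝ) ^ (T ^ (q + 1)) ≤ (Real.exp 1) ^ (T ^ (q + 1)) :=
              pow_le_pow_left₀ (by norm_num) g1 _
          _ = Real.exp ((T : ℝ) ^ (q + 1)) := by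
              rw [← Real.exp_nat_mul]; push_cast; ring_nf
      have f3 : ((n : ℝ) * ((2 ^ m * T : ℕ) : ℝ)) ^ (T ^ (q * e) * (M + 1)) ≤
          Real.exp (((M + 1) * (n * 2 ^ m) : ℕ) * ((T : ℝ) ^ (q + 1))) := by
        refine (TIe.pow_le_exp _ (by positivity) _).trans ?_
        apply Real.exp_le_exp.2
        have : n * (2 ^ m * T) * (T ^ (q * e) * (M + 1)) ≤ (M + 1) * (n * 2 ^ m) * T ^ (q + 1) := by
          calc n * (2 ^ m * T) * (T ^ (q * e) * (M + 1))
              ≤ n * (2 ^ m * T) * (T ^ q * (M + 1)) := by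
                apply Nat.mul_le_mul_left
                exact Nat.mul_le_mul_right _ hAq
            _ = (M + 1) * (n * 2 ^ m) * T ^ (q + 1) := by rw [← hTq1]; ring
        exact_mod_cast this
      calc ((((T ^ (q * e) : ℕ) : ℝ)) * ((T ^ q : ℕ) : ℝ) ^ m) ^ (M + 1) *
            (2 : ℝ) ^ (T ^ (q + 1)) * ((n : ℝ) * ((2 ^ m * T : ℕ) : ℝ)) ^ (T ^ (q * e) * (M + 1))
          ≤ Real.exp (((M + 1) * (q + q * m) : ℕ) * ((T : ℝ) ^ (q + 1))) *
            Real.exp ((T : ℝ) ^ (q + 1)) *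
            Real.exp (((M + 1) * (n * 2 ^ m) : ℕ) * ((T : ℝ) ^ (q + 1))) := by gcongr
        _ = Real.exp ((((M + 1) * (q + q * m) : ℕ) + 1 + ((M + 1) * (n * 2 ^ m) : ℕ)) *
              ((T : ℝ) ^ (q + 1))) := by
            rw [← Real.exp_add, ← Real.exp_add]; ring_nf
        _ ≤ Real.exp X := by
            apply Real.exp_le_exp.2
            rw [hXr]
            apply mul_le_mul_of_nonneg_right _ (by positivity)
            have : (M + 1) * (q + q * m) + 1 + (M + 1) * (n * 2 ^ m) ≤ C2 := by omega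
            exact_mod_cast this
    · have g1 : aeval θ P = aeval (cd b l) (PS p s) := by
        rw [← hPs, aeval_rename, hθ]
      rw [g1, hv2]
      refine hpz (fun r => ∑ i, (s r i : ℂ) * l i) (fun r => ?_)
      calc ‖∑ i, (s r i : ℂ) * l i‖ ≤ ∑ i, ‖(s r i : ℂ) * l i‖ := norm_sum_le _ _
        _ ≤ ∑ i, ((2 : ℝ) ^ m * T) * ‖l i‖ := by
            refine Finset.sum_le_sum (fun i _ => ?_)
            rw [norm_mul]
            apply mul_le_mul_of_nonneg_right _ (norm_nonneg _)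
            rw [Complex.norm_natCast]
            exact_mod_cast hs r i
        _ = (2 ^ m * ∑ i, ‖l i‖) * T := by rw [← Finset.mul_sum]; ring
        _ ≤ R0 * T := by
            apply mul_le_mul_of_nonneg_right _ (by positivity)
            linarith
  obtain ⟨θ', hz, hclose⟩ := hCrit X V hX1 hVX PP hPP
  have hexp : Real.exp (-V / (C * (X : ℝ) ^ (M - 2))) ≤ Real.exp (-(T : ℝ) ^ κ) := by
    apply Real.exp_le_exp.2
    have hpos : 0 < C * (X : ℝ) ^ (M - 2) := by
      have : (0 : ℝ) < X := by exact_mod_cast hX1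
      positivity
    rw [neg_div, neg_le_neg_iff, le_div_iff₀ hpos, hXr, hV, mul_pow, ← pow_mul]
    have e1 : (q + 1) * (M - 1) + 2 = (q + 1) * (M - 2) + (q + 3) := by
      have : M - 1 = M - 2 + 1 := by omega
      rw [this]; ring
    rw [e1, pow_add (T : ℝ) ((q + 1) * (M - 2))]
    have h6 : 4 * (C * (C2 : ℝ) ^ (M - 2)) ≤ (T : ℝ) := by
      calc 4 * (C * (C2 : ℝ) ^ (M - 2)) ≤ 4 * (C * (C2 : ℝ) ^ (M - 1)) := by
            have : (C2 : ℝ) ^ (M - 2) ≤ (C2 : ℝ) ^ (M - 1) :=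
              pow_le_pow_right₀ (by exact_mod_cast hC2pos) (by omega)
            have hC0 : 0 ≤ C := by linarith
            nlinarith [mul_le_mul_of_nonneg_left this hC0]
        _ = K := by rw [hK]; ring
        _ ≤ T := hTK
    have h8 : (T : ℝ) ^ κ * T ≤ (T : ℝ) ^ (q + 3) := by
      rw [← pow_succ]
      exact pow_le_pow_right₀ hTr1 hκ
    obtain ⟨P1, hP1⟩ : ∃ P1 : ℝ, P1 = (T : ℝ) ^ ((q + 1) * (M - 2)) := ⟨_, rfl⟩
    have hP10 : 0 ≤ P1 := by rw [hP1]; positivity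
    obtain ⟨P2, hP2⟩ : ∃ P2 : ℝ, P2 = (T : ℝ) ^ κ := ⟨_, rfl⟩
    have hP20 : 0 ≤ P2 := by rw [hP2]; positivity
    rw [← hP1]
    rw [← hP2] at h8 ⊢
    have h9 : 4 * (C * (C2 : ℝ) ^ (M - 2)) * (P1 * P2) ≤ T * (P1 * P2) :=
      mul_le_mul_of_nonneg_right h6 (by positivity)
    have h10 : P1 * (P2 * T) ≤ P1 * (T : ℝ) ^ (q + 3) := mul_le_mul_of_nonneg_left h8 hP10
    nlinarith
  -- the extended point
  set θ'' : Fin n ⊕ Fin n × Fin m → ℂ := Function.extend ι θ' (cd b l) with hθ''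
  have hclose'' : ∀ k, ‖θ'' k - cd b l k‖ ≤ Real.exp (-(T : ℝ) ^ κ) := by
    intro k
    by_cases hk : ∃ i, ι i = k
    · obtain ⟨i, rfl⟩ := hk
      rw [hθ'', hι.extend_apply]
      have := (hclose i).trans hexp
      rw [hθ] at this
      exact this
    · rw [hθ'', Function.extend_apply' _ _ _ hk, sub_self, norm_zero]
      exact (Real.exp_pos _).le
  have hcomp : θ'' ∘ ι = θ' := by
    funext i
    rw [Function.comp_apply, hθ'', hι.extend_apply]
  let l' : Fin n → ℂ := fun i => θ'' (Sum.inl i)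
  let y' : Fin n → Fin m → ℂ := fun i j => θ'' (Sum.inr (i, j))
  have hel : Sum.elim l' (fun q : Fin n × Fin m => y' q.1 q.2) = θ'' := by
    funext k
    rcases k with i | ⟨i, j⟩ <;> rfl
  have hzero : ∀ s : Fin (M + 1) → Fin n → ℕ, (∀ r i, s r i ≤ 2 ^ m * T) →
      ∑ x, (p x : ℂ) * ∏ r, (pt l' y' (s r) (Fin.last m) ^ ((x r).1 : ℕ) *
        ∏ j : Fin m, pt l' y' (s r) j.castSucc ^ ((x r).2 j : ℕ)) = 0 := by
    intro s hs
    obtain ⟨hv1, _⟩ := h3 n m (T ^ (q * e)) (T ^ q) (M + 1) p s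
    rw [← hv1 l' y', hel]
    obtain ⟨P', hP'⟩ := hren T p s
    rw [← hP', aeval_rename, hcomp]
    exact hz P' ⟨s, hs, hP'⟩
  have hpC : (fun x => (p x : ℂ)) ≠ 0 := by
    intro h0
    apply hp0
    funext x
    have := congrFun h0 x
    simpa using this
  obtain ⟨r, hr0, hr⟩ := h4 (Ix m (T ^ (q * e)) (T ^ q)) {s : Fin n → ℕ // ∀ i, s i ≤ 2 ^ m * T}
    (M + 1) (fun x s => pt l' y' s.1 (Fin.last m) ^ (x.1 : ℕ) *
        ∏ j : Fin m, pt l' y' s.1 j.castSucc ^ (x.2 j : ℕ)) (fun x => (p x : ℂ)) hpC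
    (fun x => hzero (fun r => (x r).1) (fun r i => (x r).2 i))
  obtain ⟨Q, hQ0, hQd, hQz⟩ := TIe.noQ (B := T ^ q) hAq le_rfl r hr0
    {v | ∃ s : Fin n → ℕ, (∀ i, s i ≤ 2 ^ m * T) ∧ v = pt l' y' s} (by
      rintro v ⟨s, hs, rfl⟩
      exact hr ⟨s, hs⟩)
  apply hQ0
  apply hT2 T hTT2 l' y' _ _ Q hQd
  · intro s hs
    exact hQz _ ⟨s, hs, rfl⟩
  · intro i
    have := hclose'' (Sum.inl i)
    simpa [cd, l'] using this
  · intro i j
    have := hclose'' (Sum.inr (i, j))
    simpa [cd, y'] using this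

theorem pr_TIeX (h1 : S_Crit) (h2 : S_PsiX) (h3 : S_Val) (h4 : S_Tensor) (h5 : S_NoZeroX)
    (h6 : S_Meas) (h7 : S_FTLM) : S_TIeX := by
  intro Qb m e he hM
  obtain ⟨Q, hQ⟩ := h6 Qb m e he hM
  obtain ⟨q, hqdef⟩ : ∃ q : ℕ, q = (m + e + 2) ^ 2 + 2 * Q := ⟨_, rfl⟩
  obtain ⟨n₀, hn₀⟩ := h5 m q Q
  refine ⟨max 1 n₀, ?_⟩
  intro b hb hbl n hn l hl
  have hn1 : 1 ≤ n := (le_max_left _ _).trans hn
  have hq2 : (m + e + 2) ^ 2 ≤ q := by omega
  have hq : 1 ≤ q := le_trans (Nat.one_le_pow _ _ (by omega)) hq2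
  have hκ : (2 * Q + 2) + 1 ≤ q + 3 := by
    have : 1 ≤ (m + e + 2) ^ 2 := Nat.one_le_pow _ _ (by omega)
    omega
  have hLM := h7 Qb m b hb hbl
  obtain ⟨hM1, hM0⟩ := hQ b hb hbl n l hl
  constructor
  · intro he1 hTr
    have hNZ := hn₀ b hLM n ((le_max_right _ _).trans hn) l (hM1 he1 hTr)
    exact TIeX_core h1 h3 h4 m (m + e) q e (2 * Q + 2) hM hq hκ he n hn1 b l
      (fun R0 hR0 => h2 m e q he hM hq2 b R0 hR0) hNZ (Fin n ⊕ Fin n × Fin m) (cd b l) id
      Function.injective_id rfl (fun T p s => ⟨PS p s, by rw [rename_id]; rfl⟩) hTr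
  · intro he0 hTr
    have hNZ := hn₀ b hLM n ((le_max_right _ _).trans hn) l (hM0 he0 hTr)
    subst he0
    exact TIeX_core h1 h3 h4 m (m + 0) q 0 (2 * Q + 2) hM hq hκ he n hn1 b l
      (fun R0 hR0 => h2 m 0 q he hM hq2 b R0 hR0) hNZ (Fin n × Fin m)
      (ce b l) Sum.inr
      Sum.inr_injective rfl (fun T p s => TIe.ren0 (by simp) p s) hTr

end Pool.Agent.Work.MP_8da9ea_nt.S

end

section

/-!
# Theorem S, item X05: a zero close to the origin makes the first coefficient small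
-/

set_option autoImplicit false

namespace Pool.Agent.Work.MP_8da9ea_nt.S

open MvPolynomial Pool.Agent.Work.MP_327059_nt.GL

theorem TayLow_hasSum (a : ℕ) (β z : ℂ) :
    HasSum (fun k => tc a β k * z ^ k) (z ^ a * Complex.exp (β * z)) := by
  have h1 : HasSum (fun j : ℕ => (β * z) ^ j / (j.factorial : ℂ)) (Complex.exp (β * z)) := by
    rw [Complex.exp_eq_exp_ℂ]
    exact NormedSpace.expSeries_div_hasSum_exp (β * z)
  have h2 := h1.mul_left (z ^ a)
  have hinj : Function.Injective (fun j : ℕ => j + a) := fun i j h => Nat.add_right_cancel h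
  rw [← hinj.hasSum_iff (f := fun k => tc a β k * z ^ k)]
  · refine h2.congr_fun ?_
    intro j
    simp only [Function.comp, tc]
    rw [if_pos (Nat.le_add_left a j), Nat.add_sub_cancel, mul_pow, pow_add]
    ring
  · intro k hk
    have hka : ¬ a ≤ k := by
      intro h
      exact hk ⟨k - a, by simp only; omega⟩
    simp only [tc]
    rw [if_neg hka, zero_mul]

theorem TayLow_norm (a : ℕ) (β : ℂ) (k : ℕ) : ‖tc a β k‖ ≤ Real.exp ‖β‖ := by
  rw [tc]
  split_ifs
  · rw [norm_div, norm_pow, Complex.norm_natCast]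
    exact Real.pow_div_factorial_le_exp _ (norm_nonneg _) _
  · rw [norm_zero]; exact (Real.exp_pos _).le

theorem pr_TayLow : S_TayLow := by
  intro m A W b p N z hz hz2 h0 hN
  set F : ℕ → ℂ := fun k => ∑ x, p x * tc (x.1 : ℕ) (bw b x) k with hF
  set M : ℝ := ∑ x, ‖p x‖ * Real.exp ‖bw b x‖ with hM
  have hM0 : 0 ≤ M := Finset.sum_nonneg fun x _ => mul_nonneg (norm_nonneg _) (Real.exp_pos _).le
  have hFM : ∀ k, ‖F k‖ ≤ M := by
    intro k
    refine (norm_sum_le _ _).trans (Finset.sum_le_sum fun x _ => ?_)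
    rw [norm_mul]
    exact mul_le_mul_of_nonneg_left (TayLow_norm _ _ _) (norm_nonneg _)
  have hsum : HasSum (fun k => F k * z ^ k) 0 := by
    have h1 : ∀ x ∈ (Finset.univ : Finset (Ix m A W)),
        HasSum (fun k => p x * (tc (x.1 : ℕ) (bw b x) k * z ^ k))
          (p x * (z ^ (x.1 : ℕ) * Complex.exp (bw b x * z))) :=
      fun x _ => (TayLow_hasSum _ _ _).mul_left _
    have h2 := hasSum_sum h1
    rw [h0] at h2
    refine h2.congr_fun ?_
    intro k
    simp only [hF, Finset.sum_mul]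
    exact Finset.sum_congr rfl fun x _ => by ring
  have hs2 := (hasSum_nat_add_iff' (f := fun k => F k * z ^ k) (g := (0 : ℂ)) (N + 1)).mpr hsum
  have hfin : ∑ i ∈ Finset.range (N + 1), F i * z ^ i = F N * z ^ N := by
    rw [Finset.sum_range_succ, Finset.sum_eq_zero, zero_add]
    intro k hk
    have : F k = 0 := hN k (Finset.mem_range.mp hk)
    rw [this, zero_mul]
  rw [hfin, zero_sub] at hs2
  have hzn : 0 < ‖z‖ := norm_pos_iff.mpr hz
  have hgeo : HasSum (fun k : ℕ => M * (‖z‖ ^ (N + 1) * ‖z‖ ^ k))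
      (M * (‖z‖ ^ (N + 1) * (1 - ‖z‖)⁻¹)) :=
    ((hasSum_geometric_of_lt_one (norm_nonneg z) (by linarith)).mul_left _).mul_left _
  have hb : ‖-(F N * z ^ N)‖ ≤ M * (‖z‖ ^ (N + 1) * (1 - ‖z‖)⁻¹) := by
    rw [← hs2.tsum_eq]
    refine tsum_of_norm_bounded hgeo fun k => ?_
    rw [norm_mul, norm_pow]
    calc ‖F (k + (N + 1))‖ * ‖z‖ ^ (k + (N + 1)) ≤ M * ‖z‖ ^ (k + (N + 1)) :=
          mul_le_mul_of_nonneg_right (hFM _) (by positivity)
      _ = M * (‖z‖ ^ (N + 1) * ‖z‖ ^ k) := by rw [pow_add ‖z‖ k]; ring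
  rw [norm_neg, norm_mul, norm_pow] at hb
  have hinv : (1 - ‖z‖)⁻¹ ≤ 2 := by
    rw [inv_le_comm₀ (by linarith) (by norm_num)]
    linarith
  have hb2 : ‖F N‖ * ‖z‖ ^ N ≤ (2 * M * ‖z‖) * ‖z‖ ^ N := by
    refine hb.trans ?_
    calc M * (‖z‖ ^ (N + 1) * (1 - ‖z‖)⁻¹) ≤ M * (‖z‖ ^ (N + 1) * 2) :=
          mul_le_mul_of_nonneg_left (mul_le_mul_of_nonneg_left hinv (by positivity)) hM0
      _ = (2 * M * ‖z‖) * ‖z‖ ^ N := by rw [pow_succ]; ring
  exact le_of_mul_le_mul_right hb2 (by positivity)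

end Pool.Agent.Work.MP_8da9ea_nt.S

end

section

/-!
# Relative version of Schanuel's inequality on a line: independence over fields of finite
transcendence degree
-/

set_option autoImplicit false

namespace Pool.Agent.Work.MP_8da9ea_nt.TG

open Pool.Agent.Work.MP_327059_nt.GL Pool.Agent.ED Pool.Agent.Work.MP_8da9ea_nt.S

/-- the logarithmic forms of `z`, `exp (b j * z)` on a derivation -/
noncomputable def lam {m : ℕ} (b : Fin m → ℂ) (z : ℂ) (δ : Derivation ℚ ℂ ℂ) :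
    Option (Fin m) → ℂ :=
  fun o => o.elim (δ z) (fun j => δ (Complex.exp (b j * z)) / Complex.exp (b j * z))

/-- many derivations with independent logarithmic forms -/
theorem rank_lemma {m : ℕ} (b : Fin m → ℂ) (z : ℂ) (hS : Sch b z) (κ : ℕ) (hκ : TrLe κ b)
    (N : ℕ) (θ : Fin N → ℂ) (R : ℕ) (hR : R + N + κ ≤ m) :
    ∃ δ : Fin R → Derivation ℚ ℂ ℂ, (∀ s, (∀ i, δ s (θ i) = 0) ∧ ∀ j, δ s (b j) = 0) ∧
      LinearIndependent ℂ (fun s => lam b z (δ s)) := by
  classical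
  obtain ⟨s, hs⟩ := hS
  obtain ⟨r', sb, hind, halg⟩ := pr_TrBasis (Fin m) b
  have hr' : r' ≤ κ := by
    by_contra hc
    push Not at hc
    exact hκ (fun i => sb (Fin.castLE hc i))
      (hind.comp (Fin.castLE hc) (Fin.castLE_injective hc))
  set w : Fin m → ℂ := fun i =>
    Sum.elim (fun j => b j * z) (fun j => Complex.exp (b j * z)) (s i) with hw
  obtain ⟨δ, hδ, hδi⟩ := lin_ker (⊤ : Submodule ℂ (Derivation ℚ ℂ ℂ)) (evDer w)
    (evDer (Sum.elim θ (fun i => b (sb i)))) R (by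
      have h1 : (⊤ : Submodule ℂ (Derivation ℚ ℂ ℂ)).map (evDer (K := ℚ) (M := ℂ) w) = ⊤ := by
        rw [eq_top_iff]
        intro u _
        obtain ⟨X, hX⟩ := exists_derivation hs u
        exact ⟨X, trivial, funext hX⟩
      rw [h1, finrank_top, Module.finrank_fintype_fun_eq_card, Module.finrank_fintype_fun_eq_card,
        Fintype.card_sum, Fintype.card_fin, Fintype.card_fin, Fintype.card_fin]
      omega)
  have hθ : ∀ s' i, δ s' (θ i) = 0 := fun s' i => congrFun (hδ s').2 (Sum.inl i)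
  have hb0 : ∀ s' i, δ s' (b (sb i)) = 0 := fun s' i => congrFun (hδ s').2 (Sum.inr i)
  have hb : ∀ s' j, δ s' (b j) = 0 := by
    intro s' j
    refine der_zero_alg (IntermediateField.adjoin ℚ (Set.range fun i => b (sb i))) (δ s') ?_ (b j)
      (halg j)
    refine der_zero_adjoin _ (δ s') ?_
    rintro _ ⟨i, rfl⟩
    exact hb0 s' i
  refine ⟨δ, fun s' => ⟨hθ s', hb s'⟩, ?_⟩
  rw [Fintype.linearIndependent_iff] at hδi ⊢
  intro q hq
  apply hδi q
  funext i
  rw [Finset.sum_apply]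
  have hval : ∀ s' : Fin R, evDer w (δ s') i = Sum.elim (fun j => b j * lam b z (δ s') none)
      (fun j => Complex.exp (b j * z) * lam b z (δ s') (some j)) (s i) := by
    intro s'
    show δ s' (w i) = _
    simp only [hw]
    cases s i with
    | inl j =>
      simp only [Sum.elim_inl, lam, Option.elim_none]
      rw [Derivation.leibniz, hb s' j, smul_zero, add_zero, smul_eq_mul]
    | inr j =>
      simp only [Sum.elim_inr, lam, Option.elim_some]
      rw [mul_div_cancel₀ _ (Complex.exp_ne_zero _)]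
  simp only [Pi.smul_apply, hval, Pi.zero_apply, smul_eq_mul]
  cases s i with
  | inl j =>
    have h2 := congrFun hq none
    simp only [Finset.sum_apply, Pi.smul_apply, smul_eq_mul, Pi.zero_apply] at h2
    simp only [Sum.elim_inl]
    calc ∑ x, q x * (b j * lam b z (δ x) none) = b j * ∑ x, q x * lam b z (δ x) none := by
          rw [Finset.mul_sum]
          exact Finset.sum_congr rfl fun x _ => by ring
      _ = 0 := by rw [h2, mul_zero]
  | inr j =>
    have h2 := congrFun hq (some j)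
    simp only [Finset.sum_apply, Pi.smul_apply, smul_eq_mul, Pi.zero_apply] at h2
    simp only [Sum.elim_inr]
    calc ∑ x, q x * (Complex.exp (b j * z) * lam b z (δ x) (some j)) =
          Complex.exp (b j * z) * ∑ x, q x * lam b z (δ x) (some j) := by
          rw [Finset.mul_sum]
          exact Finset.sum_congr rfl fun x _ => by ring
      _ = 0 := by rw [h2, mul_zero]

theorem detHom {σ τ' : Type} [Fintype σ] [DecidableEq σ]
    (A : Matrix σ σ (MvPolynomial τ' ℂ)) (hA : ∀ i j, (A i j).IsHomogeneous 1) :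
    A.det.IsHomogeneous (Fintype.card σ) := by
  rw [Matrix.det_apply']
  apply MvPolynomial.IsHomogeneous.sum
  intro τ _
  have h1 : (∏ i, A (τ i) i).IsHomogeneous (∑ _i : σ, 1) :=
    MvPolynomial.IsHomogeneous.prod _ _ _ (fun i _ => hA _ _)
  have h2 : ((Equiv.Perm.sign τ : ℤ) : MvPolynomial τ' ℂ) =
      MvPolynomial.C ((Equiv.Perm.sign τ : ℤ) : ℂ) := by
    rw [map_intCast]
  rw [h2]
  have h3 := (MvPolynomial.isHomogeneous_C τ' ((Equiv.Perm.sign τ : ℤ) : ℂ)).mul h1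
  simpa using h3

/-- **Relative version.** Generic rational combinations give exponentials which are algebraically
independent over a field of transcendence degree at most `N`. -/
theorem rel_indep {m : ℕ} (b : Fin m → ℂ) (z : ℂ) (hS : Sch b z) (κ : ℕ) (hκ : TrLe κ b)
    (r N : ℕ) (hm : r + N + κ + 1 ≤ m) (K : IntermediateField ℚ ℂ) (θ : Fin N → ℂ)
    (hθ : ∀ x ∈ K, IsAlgebraic (IntermediateField.adjoin ℚ (Set.range θ)) x) :
    ∃ P : MvPolynomial (Fin r × Fin m) ℂ, P ≠ 0 ∧ P.IsHomogeneous r ∧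
      ∀ c : Fin r → Fin m → ℚ, MvPolynomial.eval (fun q => (c q.1 q.2 : ℂ)) P ≠ 0 →
        AlgebraicIndependent K (fun i : Fin r => Complex.exp ((∑ j, (c i j : ℂ) * b j) * z)) := by
  classical
  obtain ⟨δ, hδ, hδi⟩ := rank_lemma b z hS κ hκ (N + 1) (Fin.cons z θ) r (by omega)
  have hδz : ∀ s, δ s z = 0 := fun s => (hδ s).1 0
  have hδθ : ∀ s i, δ s (θ i) = 0 := fun s i => (hδ s).1 i.succ
  have hδK : ∀ s, ∀ x ∈ K, δ s x = 0 := by
    intro s x hx
    refine der_zero_alg (IntermediateField.adjoin ℚ (Set.range θ)) (δ s) ?_ x (hθ x hx)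
    refine der_zero_adjoin (Set.range θ) (δ s) ?_
    rintro _ ⟨i, rfl⟩
    exact hδθ s i
  let a : Fin r → Fin m → ℂ := fun s j => lam b z (δ s) (some j)
  have ha : LinearIndependent ℂ a := by
    rw [Fintype.linearIndependent_iff] at hδi ⊢
    intro q hq
    apply hδi q
    funext o
    cases o with
    | none =>
      have h0 : ∀ s, lam b z (δ s) none = 0 := fun s => hδz s
      simp only [Finset.sum_apply, Pi.smul_apply, h0, smul_zero, Finset.sum_const_zero,
        Pi.zero_apply]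
    | some j =>
      have := congrFun hq j
      simpa [a] using this
  obtain ⟨c0, hc0⟩ : ∃ c0 : Fin r → Fin m → ℂ, ∀ s i, ∑ j, c0 i j * a s j =
      if s = i then 1 else 0 := by
    have hinj : LinearMap.ker (Fintype.linearCombination ℂ a) = ⊥ := by
      rw [LinearMap.ker_eq_bot]
      exact linearIndependent_iff_injective_fintypeLinearCombination.1 ha
    obtain ⟨G, hG⟩ := LinearMap.exists_leftInverse_of_injective _ hinj
    refine ⟨fun i j => G (Pi.single j 1) i, fun s i => ?_⟩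
    have h6 : G (a s) = Pi.single s 1 := by
      have h7 := congrArg (fun φ => φ (Pi.single s (1 : ℂ))) hG
      simpa [Fintype.linearCombination_apply] using h7
    have h8 : a s = ∑ j, a s j • (Pi.single j (1 : ℂ) : Fin m → ℂ) := by
      funext j
      simp [Finset.sum_apply, Pi.single_apply]
    have h9 : G (a s) i = ∑ j, G (Pi.single j 1) i * a s j := by
      conv_lhs => rw [h8]
      rw [map_sum, Finset.sum_apply]
      refine Finset.sum_congr rfl fun j _ => ?_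
      rw [map_smul, Pi.smul_apply, smul_eq_mul, mul_comm]
    rw [← h9, h6, Pi.single_apply]
    simp only [eq_comm]
  let p : Fin r → Fin r → MvPolynomial (Fin r × Fin m) ℂ := fun s i =>
    ∑ j, MvPolynomial.C (a s j) * MvPolynomial.X (i, j)
  have hPev : ∀ c : Fin r → Fin m → ℂ,
      MvPolynomial.eval (fun q : Fin r × Fin m => c q.1 q.2) (Matrix.of p).det =
        (Matrix.of fun s i => ∑ j, c i j * a s j).det := by
    intro c
    rw [RingHom.map_det]
    congr 1
    ext s i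
    show MvPolynomial.eval _ (p s i) = _
    simp only [p, map_sum, map_mul, MvPolynomial.eval_X, MvPolynomial.eval_C, Matrix.of_apply]
    exact Finset.sum_congr rfl fun j _ => by ring
  refine ⟨(Matrix.of p).det, ?_, ?_, ?_⟩
  · intro h0
    have h6 := hPev c0
    rw [h0, map_zero] at h6
    have h7 : (Matrix.of fun s i => ∑ j, c0 i j * a s j) = (1 : Matrix (Fin r) (Fin r) ℂ) := by
      ext s i
      rw [Matrix.of_apply, Matrix.one_apply]
      exact hc0 s i
    rw [h7, Matrix.det_one] at h6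
    exact zero_ne_one h6
  · have h1 := detHom (Matrix.of p) (fun s i => by
      rw [Matrix.of_apply]
      exact MvPolynomial.IsHomogeneous.sum _ _ _ fun j _ =>
        MvPolynomial.isHomogeneous_C_mul_X _ _)
    rw [Fintype.card_fin] at h1
    exact h1
  · intro c hc
    rw [hPev (fun i j => (c i j : ℂ))] at hc
    let y : Fin r → ℂ := fun i => Complex.exp ((∑ j, (c i j : ℂ) * b j) * z)
    have hy : ∀ s i, δ s (y i) = (∑ j, (c i j : ℂ) * a s j) * y i := by
      intro s i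
      have hy0 : y i ≠ 0 := Complex.exp_ne_zero _
      have h6 := GP_dlog b z (c i) (δ s)
      have h7 : δ s (y i) / y i = ∑ j, (c i j : ℂ) * a s j := by
        simp only [y]
        rw [mul_comm _ z, h6]
        refine Finset.sum_congr rfl fun j _ => ?_
        simp only [a, lam, Option.elim_some]
        rw [mul_comm z]
      rw [← h7, div_mul_cancel₀ _ hy0]
    have hdet : (Matrix.of fun s i => δ s (y i)).det ≠ 0 := by
      have h6 : (Matrix.of fun s i => δ s (y i)) =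
          (Matrix.of fun s i => ∑ j, (c i j : ℂ) * a s j) * Matrix.diagonal y := by
        ext s i
        rw [Matrix.mul_diagonal]
        exact hy s i
      rw [h6, Matrix.det_mul, Matrix.det_diagonal]
      exact mul_ne_zero hc (Finset.prod_ne_zero_iff.2 fun o _ => Complex.exp_ne_zero _)
    exact rel_jac K y δ hδK hdet

end Pool.Agent.Work.MP_8da9ea_nt.TG

end

section

/-!
# Theorem S, item X04: order of vanishing at the origin
-/

set_option autoImplicit false

namespace Pool.Agent.Work.MP_8da9ea_nt.S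

open Pool.Agent.Work.MP_327059_nt.GL

theorem Ord_inj {m W : ℕ} (b : Fin m → ℂ) (hb : LinearIndependent ℚ b) :
    Function.Injective (fun w : Fin m → Fin W => ∑ j, ((w j : ℕ) : ℂ) * b j) := by
  intro w w' h
  simp only at h
  have h1 : ∑ j, (((w j : ℕ) : ℚ) - ((w' j : ℕ) : ℚ)) • b j = 0 := by
    have : ∀ j, (((w j : ℕ) : ℚ) - ((w' j : ℕ) : ℚ)) • b j =
        ((w j : ℕ) : ℂ) * b j - ((w' j : ℕ) : ℂ) * b j := by
      intro j
      rw [Algebra.smul_def]
      simp only [map_sub, map_natCast]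
      ring
    simp only [this, Finset.sum_sub_distrib, h, sub_self]
  have h2 := (Fintype.linearIndependent_iff.mp hb) _ h1
  funext j
  have h3 := h2 j
  have h4 : ((w j : ℕ) : ℚ) = ((w' j : ℕ) : ℚ) := by linarith
  exact Fin.ext (by exact_mod_cast h4)

theorem Ord_bound {m A W : ℕ} (b : Fin m → ℂ) (p : Ix m A W → ℂ) (N : ℕ)
    (hN : ∀ k ≤ N, ∑ x, p x * tc (x.1 : ℕ) (bw b x) k = 0) (z : ℂ) (hz2 : ‖z‖ ≤ 1 / 2) :
    ‖∑ x, p x * (z ^ (x.1 : ℕ) * Complex.exp (bw b x * z))‖ ≤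
      2 * (∑ x, ‖p x‖ * Real.exp ‖bw b x‖) * ‖z‖ ^ (N + 1) := by
  set F : ℕ → ℂ := fun k => ∑ x, p x * tc (x.1 : ℕ) (bw b x) k with hF
  set M : ℝ := ∑ x, ‖p x‖ * Real.exp ‖bw b x‖ with hM
  have hM0 : 0 ≤ M := Finset.sum_nonneg fun x _ => mul_nonneg (norm_nonneg _) (Real.exp_pos _).le
  have hFM : ∀ k, ‖F k‖ ≤ M := by
    intro k
    refine (norm_sum_le _ _).trans (Finset.sum_le_sum fun x _ => ?_)
    rw [norm_mul]
    exact mul_le_mul_of_nonneg_left (TayLow_norm _ _ _) (norm_nonneg _)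
  set S : ℂ := ∑ x, p x * (z ^ (x.1 : ℕ) * Complex.exp (bw b x * z)) with hS
  have hsum : HasSum (fun k => F k * z ^ k) S := by
    have h1 : ∀ x ∈ (Finset.univ : Finset (Ix m A W)),
        HasSum (fun k => p x * (tc (x.1 : ℕ) (bw b x) k * z ^ k))
          (p x * (z ^ (x.1 : ℕ) * Complex.exp (bw b x * z))) :=
      fun x _ => (TayLow_hasSum _ _ _).mul_left _
    have h2 := hasSum_sum h1
    refine h2.congr_fun ?_
    intro k
    simp only [hF, Finset.sum_mul]
    exact Finset.sum_congr rfl fun x _ => by ring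
  have hs2 := (hasSum_nat_add_iff' (f := fun k => F k * z ^ k) (g := S) (N + 1)).mpr hsum
  have hfin : ∑ i ∈ Finset.range (N + 1), F i * z ^ i = 0 := by
    refine Finset.sum_eq_zero fun k hk => ?_
    have : F k = 0 := hN k (Nat.lt_succ_iff.mp (Finset.mem_range.mp hk))
    rw [this, zero_mul]
  rw [hfin, sub_zero] at hs2
  have hgeo : HasSum (fun k : ℕ => M * (‖z‖ ^ (N + 1) * ‖z‖ ^ k))
      (M * (‖z‖ ^ (N + 1) * (1 - ‖z‖)⁻¹)) :=
    ((hasSum_geometric_of_lt_one (norm_nonneg z) (by linarith)).mul_left _).mul_left _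
  have hb : ‖S‖ ≤ M * (‖z‖ ^ (N + 1) * (1 - ‖z‖)⁻¹) := by
    rw [← hs2.tsum_eq]
    refine tsum_of_norm_bounded hgeo fun k => ?_
    rw [norm_mul, norm_pow]
    calc ‖F (k + (N + 1))‖ * ‖z‖ ^ (k + (N + 1)) ≤ M * ‖z‖ ^ (k + (N + 1)) :=
          mul_le_mul_of_nonneg_right (hFM _) (by positivity)
      _ = M * (‖z‖ ^ (N + 1) * ‖z‖ ^ k) := by rw [pow_add ‖z‖ k]; ring
  have hinv : (1 - ‖z‖)⁻¹ ≤ 2 := by
    rw [inv_le_comm₀ (by linarith) (by norm_num)]
    linarith
  refine hb.trans ?_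
  calc M * (‖z‖ ^ (N + 1) * (1 - ‖z‖)⁻¹) ≤ M * (‖z‖ ^ (N + 1) * 2) :=
        mul_le_mul_of_nonneg_left (mul_le_mul_of_nonneg_left hinv (by positivity)) hM0
    _ = 2 * M * ‖z‖ ^ (N + 1) := by ring

theorem pr_Ord : S_Ord := by
  intro m A W b hb p hp
  by_contra hcon
  push Not at hcon
  set ω : (Fin m → Fin W) → ℂ := fun w => ∑ j, ((w j : ℕ) : ℂ) * b j with hω
  set P : (Fin m → Fin W) → Polynomial ℂ :=
    fun w => ∑ a : Fin A, Polynomial.C (p (a, w)) * Polynomial.X ^ (a : ℕ) with hP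
  have hep : ∀ z, Pool.Agent.Work.MP_327059_nt.AA.ep ω P z =
      ∑ x : Ix m A W, p x * (z ^ (x.1 : ℕ) * Complex.exp (bw b x * z)) := by
    intro z
    rw [Pool.Agent.Work.MP_327059_nt.AA.ep, Fintype.sum_prod_type, Finset.sum_comm]
    refine Finset.sum_congr rfl fun w _ => ?_
    simp only [hP, Polynomial.eval_finsetSum, Polynomial.eval_mul, Polynomial.eval_C,
      Polynomial.eval_pow, Polynomial.eval_X, Finset.sum_mul]
    refine Finset.sum_congr rfl fun a _ => ?_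
    simp only [hω, bw]
    ring
  have hdeg : ∀ w, (P w).degree < A := by
    intro w
    rw [Polynomial.degree_lt_iff_coeff_zero]
    intro k hk
    simp only [hP, Polynomial.finsetSum_coeff, Polynomial.coeff_C_mul, Polynomial.coeff_X_pow]
    refine Finset.sum_eq_zero fun a _ => ?_
    rw [if_neg, mul_zero]
    have := a.2
    omega
  have hzero : ∀ z, Pool.Agent.Work.MP_327059_nt.AA.ep ω P z = 0 := by
    intro z
    set Ω : ℝ := ∑ w, ‖ω w‖ with hΩ
    have hΩ1 : ∀ w, ‖ω w‖ ≤ Ω := fun w =>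
      Finset.single_le_sum (f := fun w => ‖ω w‖) (fun i _ => norm_nonneg _) (Finset.mem_univ w)
    have hΩ0 : 0 ≤ Ω := Finset.sum_nonneg fun w _ => norm_nonneg _
    set M : ℝ := ∑ x, ‖p x‖ * Real.exp ‖bw b x‖ with hM
    have hM0 : 0 ≤ M :=
      Finset.sum_nonneg fun x _ => mul_nonneg (norm_nonneg _) (Real.exp_pos _).le
    set R : ℝ := ‖z‖ + 1 with hR
    have hR1 : 1 ≤ R := by rw [hR]; linarith [norm_nonneg z]
    set N : ℕ := A * W ^ m with hN
    have hcard : Fintype.card (Fin m → Fin W) * A = N := by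
      simp [hN, mul_comm]
    set K : ℝ := 2 * M * Real.exp ((R + 1) * Ω) * (N : ℝ) * R ^ N with hK
    have hK0 : 0 ≤ K := by positivity
    have hmain : ∀ r : ℝ, 0 < r → r ≤ 1 / 2 →
        ‖Pool.Agent.Work.MP_327059_nt.AA.ep ω P z‖ ≤ K * r := by
      intro r hr hr2
      have h1 := Pool.Agent.Work.MP_327059_nt.AA.pr_Grow (Fin m → Fin W) A ω P Ω r R
        (2 * M * r ^ (N + 1)) hΩ1 hdeg hr (by linarith) (by
          intro u hu
          rw [hep]
          refine (Ord_bound b p N (fun k hk => hcon k hk) u (hu.trans hr2)).trans ?_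
          gcongr) z (by rw [hR]; linarith)
      rw [hcard] at h1
      refine h1.trans ?_
      have h2 : Real.exp ((R + r) * Ω) ≤ Real.exp ((R + 1) * Ω) := by
        apply Real.exp_le_exp.mpr
        apply mul_le_mul_of_nonneg_right _ hΩ0
        linarith
      calc 2 * M * r ^ (N + 1) * Real.exp ((R + r) * Ω) * (N : ℝ) * (R / r) ^ N
          ≤ 2 * M * r ^ (N + 1) * Real.exp ((R + 1) * Ω) * (N : ℝ) * (R / r) ^ N := by
            gcongr
        _ = K * r := by
            rw [hK, div_pow, pow_succ]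
            field_simp
    by_contra hne
    have hpos : 0 < ‖Pool.Agent.Work.MP_327059_nt.AA.ep ω P z‖ := norm_pos_iff.mpr hne
    set e : ℝ := ‖Pool.Agent.Work.MP_327059_nt.AA.ep ω P z‖ with he
    have h3 := hmain (min (1 / 2) (e / (2 * (K + 1)))) (by positivity) (min_le_left _ _)
    have h4 : K * min (1 / 2) (e / (2 * (K + 1))) ≤ K * (e / (2 * (K + 1))) :=
      mul_le_mul_of_nonneg_left (min_le_right _ _) hK0
    have h5 : K * (e / (2 * (K + 1))) ≤ e / 2 := by
      rw [mul_div_assoc', div_le_div_iff₀ (by positivity) (by norm_num)]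
      nlinarith
    linarith
  have hall := Pool.Agent.Work.MP_327059_nt.AA.pr_Indep _ ω P (Ord_inj b hb) hzero
  apply hp
  funext x
  obtain ⟨a, w⟩ := x
  have h1 := congrArg (fun Q => Polynomial.coeff Q (a : ℕ)) (hall w)
  simp only [hP, Polynomial.finsetSum_coeff, Polynomial.coeff_C_mul, Polynomial.coeff_X_pow,
    Polynomial.coeff_zero] at h1
  rw [Finset.sum_eq_single a] at h1
  · simpa using h1
  · intro a' _ ha'
    rw [if_neg, mul_zero]
    intro h
    exact ha' (Fin.ext h.symm)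
  · intro h
    exact absurd (Finset.mem_univ a) h

end Pool.Agent.Work.MP_8da9ea_nt.S

end

section

/-!
# Schanuel's inequality for the subspaces, in the case of algebraic multipliers
-/

set_option autoImplicit false

namespace Pool.Agent.Work.MP_8da9ea_nt.TG

open Pool.Agent.Work.MP_327059_nt.GL Pool.Agent.ED Pool.Agent.Work.MP_8da9ea_nt.S

/-- the linear map on the forms given by `k` rational combinations -/
noncomputable def LL {k m : ℕ} (c : Fin k → Fin m → ℚ) :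
    (Option (Fin m) → ℂ) →ₗ[ℂ] (Option (Fin k) → ℂ) where
  toFun v := fun o => o.elim (v none) (fun i => ∑ j, (c i j : ℂ) * v (some j))
  map_add' v v' := by
    funext o
    cases o with
    | none => rfl
    | some i =>
      show ∑ j, (c i j : ℂ) * (v (some j) + v' (some j)) = _
      simp only [mul_add, Finset.sum_add_distrib]
      rfl
  map_smul' a v := by
    funext o
    cases o with
    | none => rfl
    | some i =>
      show ∑ j, (c i j : ℂ) * (a * v (some j)) = a * ∑ j, (c i j : ℂ) * v (some j)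
      rw [Finset.mul_sum]
      exact Finset.sum_congr rfl fun j _ => by ring

theorem LL_none {k m : ℕ} (c : Fin k → Fin m → ℚ) (v : Option (Fin m) → ℂ) :
    LL c v none = v none := rfl

theorem LL_some {k m : ℕ} (c : Fin k → Fin m → ℚ) (v : Option (Fin m) → ℂ) (i : Fin k) :
    LL c v (some i) = ∑ j, (c i j : ℂ) * v (some j) := rfl

theorem LL_surj {k m : ℕ} (c : Fin k → Fin m → ℚ) (hc : LinearIndependent ℚ c) :
    Function.Surjective (LL c) := by
  classical
  have h1 : LinearIndependent ℂ (fun i => (algebraMap ℚ ℂ) ∘ c i) :=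
    linearIndependent_algebraMap_comp_iff.2 hc
  have h2 : (Matrix.of fun (i : Fin k) (j : Fin m) => (c i j : ℂ)).rank = k := by
    have h := LinearIndependent.rank_matrix
      (M := Matrix.of fun (i : Fin k) (j : Fin m) => (c i j : ℂ)) h1
    rw [h, Fintype.card_fin]
  have h3 : LinearMap.range (Matrix.of fun (i : Fin k) (j : Fin m) => (c i j : ℂ)).mulVecLin = ⊤ := by
    apply Submodule.eq_top_of_finrank_eq
    rw [Module.finrank_fintype_fun_eq_card, Fintype.card_fin]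
    exact h2
  intro u
  have h4 : (fun i => u (some i)) ∈
      LinearMap.range (Matrix.of fun (i : Fin k) (j : Fin m) => (c i j : ℂ)).mulVecLin := by
    rw [h3]
    trivial
  obtain ⟨v, hv⟩ := h4
  refine ⟨fun o => o.elim (u none) v, ?_⟩
  funext o
  cases o with
  | none => rfl
  | some i =>
    have h5 := congrFun hv i
    rw [LL_some]
    simp only [Option.elim_some]
    rw [← h5]
    rfl

theorem LL_map {k m : ℕ} (c : Fin k → Fin m → ℚ) (hc : LinearIndependent ℚ c)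
    (V : Submodule ℂ (Option (Fin m) → ℂ)) (hV : m ≤ Module.finrank ℂ V) :
    k ≤ Module.finrank ℂ (V.map (LL c)) := by
  classical
  have h1 := LinearMap.finrank_range_add_finrank_ker (LL c)
  rw [LinearMap.range_eq_top.2 (LL_surj c hc), finrank_top, Module.finrank_fintype_fun_eq_card,
    Module.finrank_fintype_fun_eq_card, Fintype.card_option, Fintype.card_option, Fintype.card_fin,
    Fintype.card_fin] at h1
  have h2 := LinearMap.finrank_range_add_finrank_ker ((LL c).domRestrict V)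
  have h3 : LinearMap.range ((LL c).domRestrict V) = V.map (LL c) := by
    ext u
    constructor
    · rintro ⟨v, rfl⟩
      exact ⟨v, v.2, rfl⟩
    · rintro ⟨v, hv, rfl⟩
      exact ⟨⟨v, hv⟩, rfl⟩
  have h4 : Module.finrank ℂ (LinearMap.ker ((LL c).domRestrict V)) ≤
      Module.finrank ℂ (LinearMap.ker (LL c)) := by
    let f : LinearMap.ker ((LL c).domRestrict V) →ₗ[ℂ] LinearMap.ker (LL c) :=
      { toFun := fun v => ⟨v.1.1, v.2⟩
        map_add' := fun _ _ => rfl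
        map_smul' := fun _ _ => rfl }
    refine LinearMap.finrank_le_finrank_of_injective (f := f) ?_
    intro v v' h
    apply Subtype.ext
    apply Subtype.ext
    exact congrArg (fun x : LinearMap.ker (LL c) => x.1) h
  rw [h3] at h2
  omega

/-- Schanuel's inequality for a subspace. -/
theorem sub_sch {m : ℕ} (b : Fin m → ℂ) (z : ℂ) (hS : Sch b z) (halg : ∀ j, IsAlgebraic ℚ (b j))
    (hb : LinearIndependent ℚ b) (k : ℕ) (c : Fin k → Fin m → ℚ) (hc : LinearIndependent ℚ c) :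
    ∃ s : Fin k → Fin k ⊕ Fin k, AlgebraicIndependent ℚ (fun i =>
      Sum.elim (fun i => (∑ j, (c i j : ℂ) * b j) * z)
        (fun i => Complex.exp ((∑ j, (c i j : ℂ) * b j) * z)) (s i)) := by
  classical
  rcases Nat.eq_zero_or_pos k with hk | hk
  · subst hk
    refine ⟨fun i => i.elim0, ?_⟩
    exact algebraicIndependent_empty_type_iff.2 (algebraMap ℚ ℂ).injective
  have hκ : TrLe 0 b := by
    intro s hs
    exact hs.transcendental 0 (halg _)
  obtain ⟨δ, hδ, hδi⟩ := rank_lemma b z hS 0 hκ 0 (fun i : Fin 0 => i.elim0) m (by omega)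
  set V : Submodule ℂ (Option (Fin m) → ℂ) := Submodule.span ℂ (Set.range fun s => lam b z (δ s))
    with hV
  have hVf : m ≤ Module.finrank ℂ V := by
    rw [hV, finrank_span_eq_card hδi, Fintype.card_fin]
  have h1 := LL_map c hc V hVf
  set u : Fin k → ℂ := fun i => ∑ j, (c i j : ℂ) * b j with hu
  set x : Fin k ⊕ Fin k → ℂ := Sum.elim (fun i => u i * z) (fun i => Complex.exp (u i * z)) with hx
  obtain ⟨s, hs, hcard⟩ := exists_finset_rank (K := ℚ) x
  let i0 : Fin k := ⟨0, hk⟩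
  have hu0 : u i0 ≠ 0 := by
    intro h0
    have h2 : c i0 = 0 := by
      have h3 := Fintype.linearIndependent_iff.1 hb (c i0) (by
        simpa [hu, Rat.smul_def] using h0)
      funext j
      exact h3 j
    exact hc.ne_zero i0 h2
  let M : (Fin k ⊕ Fin k → ℂ) →ₗ[ℂ] (Option (Fin k) → ℂ) :=
    { toFun := fun v o => o.elim (v (Sum.inl i0) / u i0)
        (fun i => v (Sum.inr i) / Complex.exp (u i * z))
      map_add' := by
        intro v v'
        funext o
        cases o with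
        | none => exact add_div _ _ _
        | some i => exact add_div _ _ _
      map_smul' := by
        intro a v
        funext o
        cases o with
        | none => exact mul_div_assoc _ _ _
        | some i => exact mul_div_assoc _ _ _ }
  have h2 : V.map (LL c) ≤ (Submodule.span ℂ
      (Set.range fun X : Derivation ℚ ℂ ℂ => fun i => X (x i))).map M := by
    rw [hV, Submodule.map_span, Submodule.span_le]
    rintro _ ⟨_, ⟨s', rfl⟩, rfl⟩
    refine ⟨fun i => δ s' (x i), Submodule.subset_span ⟨δ s', rfl⟩, ?_⟩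
    funext o
    cases o with
    | none =>
      show δ s' (u i0 * z) / u i0 = LL c (lam b z (δ s')) none
      rw [LL_none, Derivation.leibniz]
      have h3 : δ s' (u i0) = 0 := by
        simp only [hu]
        rw [map_sum]
        refine Finset.sum_eq_zero fun j _ => ?_
        rw [Derivation.leibniz, (hδ s').2 j, smul_zero, zero_add]
        have h4 : δ s' ((c i0 j : ℂ)) = 0 := by
          have h5 := (δ s').map_algebraMap (c i0 j)
          exact h5
        rw [h4, smul_zero]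
      rw [h3, smul_zero, add_zero, smul_eq_mul, mul_div_cancel_left₀ _ hu0]
      rfl
    | some i =>
      show δ s' (Complex.exp (u i * z)) / Complex.exp (u i * z) = LL c (lam b z (δ s')) (some i)
      rw [LL_some]
      have h6 := GP_dlog b z (c i) (δ s')
      have h7 : u i * z = z * ∑ j, (c i j : ℂ) * b j := mul_comm _ _
      rw [h7, h6]
      refine Finset.sum_congr rfl fun j _ => ?_
      simp only [lam, Option.elim_some]
      rw [mul_comm z]
  have h3 := (Submodule.finrank_mono h2).trans (Submodule.finrank_map_le M _)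
  rw [hcard] at h3
  have h4 : k ≤ Fintype.card s := by
    rw [Fintype.card_coe]
    omega
  obtain ⟨f⟩ : Nonempty (Fin k ↪ s) := Function.Embedding.nonempty_of_card_le (by simpa using h4)
  exact ⟨fun i => (f i : Fin k ⊕ Fin k), hs.comp _ f.injective⟩

end Pool.Agent.Work.MP_8da9ea_nt.TG

end

section

/-!
# Adding points to the field of the problem
-/

set_option autoImplicit false

namespace Pool.Agent.Work.MP_8da9ea_nt.TG

open Pool.Agent.Work.MP_8da9ea_nt Submodule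

/-- a field of transcendence degree at most `N` is algebraic over `N` numbers -/
theorem exists_theta (K : IntermediateField ℚ ℂ) (N : ℕ) (h : ¬ HasTrdeg K (N + 1)) :
    ∃ θ : Fin N → ℂ, ∀ x ∈ K, IsAlgebraic (IntermediateField.adjoin ℚ (Set.range θ)) x := by
  classical
  set d := Nat.findGreatest (HasTrdeg K) N with hd
  have h0 : HasTrdeg K 0 :=
    ⟨fun i => i.elim0, fun i => i.elim0, algebraicIndependent_empty_type_iff.2
      (algebraMap ℚ ℂ).injective⟩
  have hdN : d ≤ N := Nat.findGreatest_le N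
  have hd1 : HasTrdeg K d := Nat.findGreatest_spec (P := HasTrdeg K) (Nat.zero_le N) h0
  have hd2 : ¬ HasTrdeg K (d + 1) := by
    rcases Nat.lt_or_ge d N with hlt | hge
    · exact Nat.findGreatest_is_greatest (P := HasTrdeg K) (Nat.lt_succ_self d) hlt
    · have : d = N := le_antisymm hdN hge
      rw [this]
      exact h
  obtain ⟨θ₀, hθ, hind⟩ := hd1
  have hsub : IntermediateField.adjoin ℚ (Set.range θ₀) ≤ IntermediateField.adjoin ℚ
      (Set.range fun i : Fin N => if h : (i : ℕ) < d then θ₀ ⟨i, h⟩ else 0) := by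
    rw [IntermediateField.adjoin_le_iff]
    rintro _ ⟨i, rfl⟩
    refine IntermediateField.subset_adjoin _ _ ⟨⟨i, lt_of_lt_of_le i.2 hdN⟩, ?_⟩
    have : (i : ℕ) < d := i.2
    simp [this]
  refine ⟨fun i => if h : (i : ℕ) < d then θ₀ ⟨i, h⟩ else 0, fun x hx => ?_⟩
  by_contra hc
  have hc' : Transcendental (IntermediateField.adjoin ℚ (Set.range θ₀)) x := by
    intro ha
    apply hc
    let _ : Algebra (IntermediateField.adjoin ℚ (Set.range θ₀)) (IntermediateField.adjoin ℚ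
      (Set.range fun i : Fin N => if h : (i : ℕ) < d then θ₀ ⟨i, h⟩ else 0)) :=
      (IntermediateField.inclusion hsub).toAlgebra
    have : IsScalarTower (IntermediateField.adjoin ℚ (Set.range θ₀)) (IntermediateField.adjoin ℚ
      (Set.range fun i : Fin N => if h : (i : ℕ) < d then θ₀ ⟨i, h⟩ else 0)) ℂ :=
      IsScalarTower.of_algebraMap_eq fun _ => rfl
    exact ha.extendScalars (IntermediateField.inclusion hsub).injective
  have hai : AlgebraicIndependent (IntermediateField.adjoin ℚ (Set.range θ₀))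
      (fun _ : Fin 1 => x) := by
    rw [algebraicIndependent_unique_type_iff]
    exact hc'
  have h1 := hind.sumElim_of_tower (S := IntermediateField.adjoin ℚ (Set.range θ₀))
    (by
      rintro _ ⟨i, rfl⟩
      exact ⟨⟨θ₀ i, IntermediateField.subset_adjoin _ _ ⟨i, rfl⟩⟩, rfl⟩) hai
  apply hd2
  refine ⟨fun i => Sum.elim (fun _ : Fin 1 => x) θ₀
    ((finSumFinEquiv (m := 1) (n := d)).symm (Fin.cast (Nat.add_comm d 1) i)), ?_, ?_⟩
  · have key : ∀ v : Fin 1 ⊕ Fin d, Sum.elim (fun _ : Fin 1 => x) θ₀ v ∈ K := by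
      rintro (a | a)
      · exact hx
      · exact hθ a
    exact fun i => key _
  · exact h1.comp _ ((Equiv.injective _).comp (Fin.cast_injective _))

/-- the field of the problem contains the fields of the sub-tuples -/
theorem bigField_append (ω₁ ω₂ : ℂ) {s n r : ℕ} (t : Fin s → ℂ) (p : Fin n → ℂ)
    (t' : Fin r → ℂ) : bigField ω₁ ω₂ t p ≤ bigField ω₁ ω₂ (Fin.append t t') p := by
  unfold bigField
  refine IntermediateField.adjoin.mono _ _ _ ?_
  have h1 : Set.range t ⊆ Set.range (Fin.append t t') := by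
    rintro _ ⟨i, rfl⟩
    exact ⟨Fin.castAdd r i, Fin.append_left t t' i⟩
  have h2 : Set.range (fun l => Complex.exp (t l)) ⊆
      Set.range (fun l => Complex.exp (Fin.append t t' l)) := by
    rintro _ ⟨i, rfl⟩
    exact ⟨Fin.castAdd r i, by simp only [Fin.append_left]⟩
  gcongr

theorem bigField_exp (ω₁ ω₂ : ℂ) {s n : ℕ} (t : Fin s → ℂ) (p : Fin n → ℂ) (l : Fin s) :
    Complex.exp (t l) ∈ bigField ω₁ ω₂ t p :=
  IntermediateField.subset_adjoin _ _
    (Or.inl (Or.inl (Or.inl (Or.inl (Or.inl (Or.inr ⟨l, rfl⟩))))))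

/-- adding points whose exponentials are independent over the field -/
theorem bigField_add (ω₁ ω₂ : ℂ) {s n r : ℕ} (t : Fin s → ℂ) (p : Fin n → ℂ) (t' : Fin r → ℂ)
    (h : AlgebraicIndependent (bigField ω₁ ω₂ t p) (fun i => Complex.exp (t' i))) (d : ℕ)
    (hd : HasTrdeg (bigField ω₁ ω₂ t p) d) :
    HasTrdeg (bigField ω₁ ω₂ (Fin.append t t') p) (d + r) := by
  obtain ⟨x, hx, hind⟩ := hd
  have h1 := hind.sumElim_of_tower (S := bigField ω₁ ω₂ t p)
    (by
      rintro _ ⟨i, rfl⟩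
      exact ⟨⟨x i, hx i⟩, rfl⟩) h
  refine ⟨fun i => Sum.elim (fun i => Complex.exp (t' i)) x
    ((finSumFinEquiv (m := r) (n := d)).symm (Fin.cast (Nat.add_comm d r) i)), ?_, ?_⟩
  · have key : ∀ v : Fin r ⊕ Fin d, Sum.elim (fun i => Complex.exp (t' i)) x v ∈
        bigField ω₁ ω₂ (Fin.append t t') p := by
      rintro (a | a)
      · have h2 := bigField_exp ω₁ ω₂ (Fin.append t t') p (Fin.natAdd s a)
        rw [Fin.append_right] at h2
        exact h2
      · exact bigField_append ω₁ ω₂ t p t' (hx a)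
    exact fun i => key _
  · exact h1.comp _ ((Equiv.injective _).comp (Fin.cast_injective _))

theorem tDim_append {s r : ℕ} (t : Fin s → ℂ) (t' : Fin r → ℂ) :
    tDim (Fin.append t t') ≤ tDim t + r := by
  unfold tDim
  have h1 : span ℚ (Set.range (Fin.append t t') ∪ {2 * (Real.pi : ℂ) * Complex.I}) ≤
      span ℚ (Set.range t ∪ {2 * (Real.pi : ℂ) * Complex.I}) ⊔ span ℚ (Set.range t') := by
    rw [span_le]
    rintro x (⟨l, rfl⟩ | hx)
    · refine Fin.addCases (fun i => ?_) (fun i => ?_) l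
      · rw [Fin.append_left]
        exact mem_sup_left (subset_span (Or.inl ⟨i, rfl⟩))
      · rw [Fin.append_right]
        exact mem_sup_right (subset_span ⟨i, rfl⟩)
    · exact mem_sup_left (subset_span (Or.inr hx))
  have hfd1 : FiniteDimensional ℚ (span ℚ (Set.range t')) :=
    FiniteDimensional.span_of_finite ℚ (Set.finite_range _)
  have hfd2 : FiniteDimensional ℚ (span ℚ (Set.range t ∪ {2 * (Real.pi : ℂ) * Complex.I})) :=
    FiniteDimensional.span_of_finite ℚ ((Set.finite_range _).union (Set.finite_singleton _))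
  have h2 := Submodule.finrank_mono h1
  have h3 := Submodule.finrank_sup_add_finrank_inf_eq
    (span ℚ (Set.range t ∪ {2 * (Real.pi : ℂ) * Complex.I})) (span ℚ (Set.range t'))
  have h4 : Module.finrank ℚ (span ℚ (Set.range t')) ≤ r := by
    have := finrank_range_le_card (R := ℚ) t'
    rwa [Fintype.card_fin] at this
  have h5 : 0 < Module.finrank ℚ (span ℚ (Set.range t ∪ {2 * (Real.pi : ℂ) * Complex.I})) := by
    rw [Module.finrank_pos_iff]
    refine ⟨⟨⟨2 * (Real.pi : ℂ) * Complex.I, subset_span (Or.inr rfl)⟩, 0, ?_⟩⟩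
    intro h
    have := congrArg Subtype.val h
    exact Complex.two_pi_I_ne_zero this
  omega

end Pool.Agent.Work.MP_8da9ea_nt.TG

end

section

/-!
# Schanuel's inequality for tuples in `span(b) z + 2 π i ℚ`
-/

set_option autoImplicit false

namespace Pool.Agent.Work.MP_8da9ea_nt.TG

open Pool.Agent.Work.MP_8da9ea_nt Submodule Pool.Agent.Work.MP_8da9ea_nt.S

/-- a common multiple of the denominators -/
theorem exists_den {k : ℕ} (q : Fin k → ℚ) : ∃ (D : ℕ) (e : Fin k → ℤ), D ≠ 0 ∧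
    ∀ l, (D : ℚ) * q l = e l := by
  have hex : ∀ l, ∃ e : ℤ, ((∏ l, (q l).den : ℕ) : ℚ) * q l = e := by
    intro l
    obtain ⟨d, hd⟩ : (q l).den ∣ ∏ l, (q l).den := Finset.dvd_prod_of_mem _ (Finset.mem_univ l)
    refine ⟨d * (q l).num, ?_⟩
    have h1 : ((q l).den : ℚ) * q l = (q l).num := Rat.den_mul_eq_num _
    rw [hd]
    push_cast
    rw [← h1]
    ring
  choose e he using hex
  exact ⟨_, e, Finset.prod_ne_zero_iff.2 fun i _ => (q i).den_nz, he⟩

theorem exp_den {D : ℕ} {e : ℤ} {q : ℚ} (h : (D : ℚ) * q = e) (x t : ℂ)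
    (ht : t = x + (q : ℂ) * (2 * (Real.pi : ℂ) * Complex.I)) :
    (D : ℂ) * x = D * t - e * (2 * (Real.pi : ℂ) * Complex.I) ∧
      Complex.exp ((D : ℂ) * x) = Complex.exp t ^ D := by
  have h1 : (D : ℂ) * q = e := by exact_mod_cast congrArg (fun r : ℚ => (r : ℂ)) h
  have h2 : (D : ℂ) * x = D * t - e * (2 * (Real.pi : ℂ) * Complex.I) := by
    rw [ht, ← h1]
    ring
  refine ⟨h2, ?_⟩
  rw [h2, Complex.exp_sub, Complex.exp_int_mul_two_pi_mul_I, div_one, ← Complex.exp_nat_mul]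

/-- Schanuel's inequality for tuples in `span(b) z + 2 π i ℚ`, algebraic multipliers. -/
theorem sch_expField {m : ℕ} (b : Fin m → ℂ) (z : ℂ) (hS : Sch b z)
    (halg : ∀ j, IsAlgebraic ℚ (b j)) (hb : LinearIndependent ℚ b) {k : ℕ} (t : Fin k → ℂ)
    (h : ∀ l, ∃ (c : Fin m → ℚ) (q : ℚ), t l = (∑ j, (c j : ℂ) * b j) * z +
      (q : ℂ) * (2 * (Real.pi : ℂ) * Complex.I)) : HasTrdeg (expField t) (tDim t) := by
  classical
  choose c q hcq using h
  obtain ⟨D, e, hD, he⟩ := exists_den q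
  set C : Fin k → Fin m → ℚ := fun l j => D * c l j with hC
  obtain ⟨J, hJ, hJc⟩ := exists_rel_basis (V := Fin m → ℚ) (k := 0) ![]
    (linearIndependent_empty_type) C
  have hJ' : LinearIndependent ℚ (fun j : J => C j) := hJ.comp Sum.inr Sum.inr_injective
  rw [show Set.range C ∪ Set.range (![] : Fin 0 → Fin m → ℚ) = Set.range C by simp, add_zero] at hJc
  let f : Fin J.card ≃ J := J.equivFin.symm
  obtain ⟨s, hs⟩ := sub_sch b z hS halg hb J.card (fun i => C (f i)) (hJ'.comp f f.injective)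
  have hmem : ∀ l, ∑ j, (C l j : ℂ) * b j = D * ∑ j, (c l j : ℂ) * b j := by
    intro l
    simp only [hC]
    push_cast
    rw [Finset.mul_sum]
    exact Finset.sum_congr rfl fun j _ => by ring
  have ht : ∀ l, t l ∈ expField t := fun l =>
    IntermediateField.subset_adjoin _ _ (Or.inl (Or.inr ⟨l, rfl⟩))
  have hte : ∀ l, Complex.exp (t l) ∈ expField t := fun l =>
    IntermediateField.subset_adjoin _ _ (Or.inr ⟨l, rfl⟩)
  have hpi : 2 * (Real.pi : ℂ) * Complex.I ∈ expField t :=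
    IntermediateField.subset_adjoin _ _ (Or.inl (Or.inl rfl))
  have key : ∀ v : Fin J.card ⊕ Fin J.card,
      Sum.elim (fun i => (∑ j, (C (f i) j : ℂ) * b j) * z)
        (fun i => Complex.exp ((∑ j, (C (f i) j : ℂ) * b j) * z)) v ∈ expField t := by
    have h1 : ∀ l, (∑ j, (C l j : ℂ) * b j) * z = D * ((∑ j, (c l j : ℂ) * b j) * z) := by
      intro l
      rw [hmem]
      ring
    rintro (i | i)
    · simp only [Sum.elim_inl]
      rw [h1, (exp_den (he (f i)) _ _ (hcq (f i))).1]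
      exact sub_mem (mul_mem (natCast_mem _ D) (ht _)) (mul_mem (intCast_mem _ _) hpi)
    · simp only [Sum.elim_inr]
      rw [h1, (exp_den (he (f i)) _ _ (hcq (f i))).2]
      exact pow_mem (hte _) D
  have hT : HasTrdeg (expField t) J.card := ⟨_, fun i => key (s i), hs⟩
  have hle : tDim t ≤ J.card := by
    unfold tDim
    let F : (Fin m → ℚ) →ₗ[ℚ] ℂ :=
      { toFun := fun v => (∑ j, (v j : ℂ) * b j) * z
        map_add' := by
          intro v w
          simp only [Pi.add_apply]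
          push_cast
          rw [← add_mul, ← Finset.sum_add_distrib]
          congr 1
          exact Finset.sum_congr rfl fun j _ => by ring
        map_smul' := by
          intro a v
          simp only [Pi.smul_apply, smul_eq_mul, RingHom.id_apply, Rat.smul_def]
          push_cast
          rw [← mul_assoc, Finset.mul_sum]
          congr 1
          exact Finset.sum_congr rfl fun j _ => by ring }
    have h1 : span ℚ (Set.range t ∪ {2 * (Real.pi : ℂ) * Complex.I}) ≤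
        (span ℚ (Set.range C)).map F ⊔ span ℚ {2 * (Real.pi : ℂ) * Complex.I} := by
      rw [span_le]
      rintro x (⟨l, rfl⟩ | hx)
      · have h2 : t l = (D : ℚ)⁻¹ • F (C l) + (q l) • (2 * (Real.pi : ℂ) * Complex.I) := by
          have h3 : F (C l) = D * ((∑ j, (c l j : ℂ) * b j) * z) := by
            show (∑ j, (C l j : ℂ) * b j) * z = _
            rw [hmem]
            ring
          rw [h3, Rat.smul_def, Rat.smul_def, hcq l]
          have h4 : (D : ℂ) ≠ 0 := by exact_mod_cast hD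
          push_cast
          field_simp
        rw [h2]
        exact add_mem (mem_sup_left (smul_mem _ _ ⟨C l, subset_span ⟨l, rfl⟩, rfl⟩))
          (mem_sup_right (smul_mem _ _ (subset_span rfl)))
      · exact mem_sup_right (subset_span hx)
    have hfd1 : FiniteDimensional ℚ (span ℚ (Set.range C)) :=
      FiniteDimensional.span_of_finite ℚ (Set.finite_range _)
    have hfd2 : FiniteDimensional ℚ ((span ℚ (Set.range C)).map F) := inferInstance
    have hfd3 : FiniteDimensional ℚ (span ℚ {2 * (Real.pi : ℂ) * Complex.I}) :=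
      FiniteDimensional.span_of_finite ℚ (Set.finite_singleton _)
    have h2 := Submodule.finrank_mono h1
    have h3 := Submodule.finrank_sup_add_finrank_inf_eq ((span ℚ (Set.range C)).map F)
      (span ℚ {2 * (Real.pi : ℂ) * Complex.I})
    have h4 := Submodule.finrank_map_le F (span ℚ (Set.range C))
    have h5 : Module.finrank ℚ (span ℚ {2 * (Real.pi : ℂ) * Complex.I}) ≤ 1 := by
      have := finrank_span_singleton (K := ℚ) Complex.two_pi_I_ne_zero
      exact this.le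
    omega
  obtain ⟨x, hx, hxi⟩ := hT
  exact ⟨fun j => x (Fin.castLE hle j), fun j => hx _, hxi.comp _ (Fin.castLE_injective hle)⟩

end Pool.Agent.Work.MP_8da9ea_nt.TG

end

section

/-!
# Combinations of points whose exponentials are independent over `ℚ(2πi)`
-/

set_option autoImplicit false

namespace Pool.Agent.Work.MP_8da9ea_nt.TG

open Pool.Agent.Work.MP_8da9ea_nt Submodule Pool.Agent.ED Pool.Agent.Work.MP_327059_nt.GL

/-- monomials with independent exponents -/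
theorem mono_indep {r k : ℕ} (K : IntermediateField ℚ ℂ) (g : Fin r → ℂ)
    (h : AlgebraicIndependent K (fun i => Complex.exp (g i))) (A : Fin k → Fin r → ℚ)
    (hA : LinearIndependent ℚ A) :
    AlgebraicIndependent K (fun l => Complex.exp (∑ i, (A l i : ℂ) * g i)) := by
  classical
  set Y : Fin k → ℂ := fun l => Complex.exp (∑ i, (A l i : ℂ) * g i) with hY
  obtain ⟨s, hs, hcard⟩ := exists_finset_rank (K := K) Y
  have htop : Submodule.span ℂ (Set.range fun X : Derivation K ℂ ℂ => fun i => X (Y i)) = ⊤ := by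
    rw [eq_top_iff]
    intro v _
    obtain ⟨u, hu⟩ := LL_surj A hA (fun o => o.elim 0 (fun l => v l / Y l))
    obtain ⟨X, hX⟩ := exists_derivation h (fun i => Complex.exp (g i) * u (some i))
    refine Submodule.subset_span ⟨X, ?_⟩
    funext l
    have h1 := GP_dlog g 1 (A l) (X.restrictScalars ℚ)
    simp only [one_mul] at h1
    have h2 : ∀ i, (X.restrictScalars ℚ) (Complex.exp (g i)) / Complex.exp (g i) = u (some i) := by
      intro i
      show X (Complex.exp (g i)) / Complex.exp (g i) = u (some i)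
      rw [hX i, mul_div_cancel_left₀ _ (Complex.exp_ne_zero _)]
    simp only [h2] at h1
    have h3 := congrFun hu (some l)
    rw [LL_some] at h3
    simp only [Option.elim_some] at h3
    rw [h3] at h1
    have h4 : X (Y l) / Y l = v l / Y l := h1
    have h5 : Y l ≠ 0 := Complex.exp_ne_zero _
    show X (Y l) = v l
    exact (div_left_inj' h5).1 h4
  rw [htop, finrank_top, Module.finrank_fintype_fun_eq_card, Fintype.card_fin] at hcard
  have hsu : s = Finset.univ := by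
    apply Finset.eq_univ_of_card
    rw [Fintype.card_fin]
    exact hcard.symm
  subst hsu
  exact hs.comp (fun o => (⟨o, Finset.mem_univ o⟩ : (Finset.univ : Finset (Fin k))))
    (fun a b hab => congrArg Subtype.val hab)

/-- Schanuel's inequality, with `2πi`, for rational combinations of points whose exponentials are
independent over `ℚ(2πi)`. -/
theorem sch_comb {r : ℕ} (g : Fin r → ℂ) (h : AlgebraicIndependent
      (IntermediateField.adjoin ℚ {2 * (Real.pi : ℂ) * Complex.I}) (fun i => Complex.exp (g i)))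
    {k : ℕ} (t : Fin k → ℂ)
    (ht : ∀ l, ∃ (a : Fin r → ℚ) (q : ℚ), t l = (∑ i, (a i : ℂ) * g i) +
      (q : ℂ) * (2 * (Real.pi : ℂ) * Complex.I)) : HasTrdeg (expField t) (tDim t + 1) := by
  classical
  choose c q hcq using ht
  obtain ⟨D, e, hD, he⟩ := exists_den q
  set C : Fin k → Fin r → ℚ := fun l j => D * c l j with hC
  obtain ⟨J, hJ, hJc⟩ := exists_rel_basis (V := Fin r → ℚ) (k := 0) ![]
    (linearIndependent_empty_type) C
  have hJ' : LinearIndependent ℚ (fun j : J => C j) := hJ.comp Sum.inr Sum.inr_injective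
  rw [show Set.range C ∪ Set.range (![] : Fin 0 → Fin r → ℚ) = Set.range C by simp, add_zero] at hJc
  let f : Fin J.card ≃ J := J.equivFin.symm
  have hs := mono_indep _ g h (fun i => C (f i)) (hJ'.comp f f.injective)
  have hmem : ∀ l, ∑ j, (C l j : ℂ) * g j = D * ∑ j, (c l j : ℂ) * g j := by
    intro l
    simp only [hC]
    push_cast
    rw [Finset.mul_sum]
    exact Finset.sum_congr rfl fun j _ => by ring
  have hte : ∀ l, Complex.exp (t l) ∈ expField t := fun l =>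
    IntermediateField.subset_adjoin _ _ (Or.inr ⟨l, rfl⟩)
  have hpi : 2 * (Real.pi : ℂ) * Complex.I ∈ expField t :=
    IntermediateField.subset_adjoin _ _ (Or.inl (Or.inl rfl))
  have h1 := algInd_pi.sumElim_of_tower
    (S := IntermediateField.adjoin ℚ {2 * (Real.pi : ℂ) * Complex.I})
    (by
      rintro _ ⟨i, rfl⟩
      exact ⟨⟨_, IntermediateField.subset_adjoin _ _ rfl⟩, rfl⟩) hs
  have key : ∀ v : Fin J.card ⊕ Fin 1,
      Sum.elim (fun i => Complex.exp (∑ j, (C (f i) j : ℂ) * g j))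
        (fun _ => 2 * (Real.pi : ℂ) * Complex.I) v ∈ expField t := by
    rintro (i | i)
    · simp only [Sum.elim_inl]
      rw [hmem, (exp_den (he (f i)) _ _ (hcq (f i))).2]
      exact pow_mem (hte _) D
    · exact hpi
  have hT : HasTrdeg (expField t) (J.card + 1) :=
    ⟨_, fun i => key ((finSumFinEquiv (m := J.card) (n := 1)).symm i),
      h1.comp _ (Equiv.injective _)⟩
  have hle : tDim t ≤ J.card := by
    unfold tDim
    let F : (Fin r → ℚ) →ₗ[ℚ] ℂ :=
      { toFun := fun v => ∑ j, (v j : ℂ) * g j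
        map_add' := by
          intro v w
          simp only [Pi.add_apply]
          push_cast
          rw [← Finset.sum_add_distrib]
          exact Finset.sum_congr rfl fun j _ => by ring
        map_smul' := by
          intro a v
          simp only [Pi.smul_apply, smul_eq_mul, RingHom.id_apply, Rat.smul_def]
          push_cast
          rw [Finset.mul_sum]
          exact Finset.sum_congr rfl fun j _ => by ring }
    have h1 : span ℚ (Set.range t ∪ {2 * (Real.pi : ℂ) * Complex.I}) ≤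
        (span ℚ (Set.range C)).map F ⊔ span ℚ {2 * (Real.pi : ℂ) * Complex.I} := by
      rw [span_le]
      rintro x (⟨l, rfl⟩ | hx)
      · have h2 : t l = (D : ℚ)⁻¹ • F (C l) + (q l) • (2 * (Real.pi : ℂ) * Complex.I) := by
          have h3 : F (C l) = D * ∑ j, (c l j : ℂ) * g j := hmem l
          rw [h3, Rat.smul_def, Rat.smul_def, hcq l]
          have h4 : (D : ℂ) ≠ 0 := by exact_mod_cast hD
          push_cast
          field_simp
        rw [h2]
        exact add_mem (mem_sup_left (smul_mem _ _ ⟨C l, subset_span ⟨l, rfl⟩, rfl⟩))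
          (mem_sup_right (smul_mem _ _ (subset_span rfl)))
      · exact mem_sup_right (subset_span hx)
    have hfd1 : FiniteDimensional ℚ (span ℚ (Set.range C)) :=
      FiniteDimensional.span_of_finite ℚ (Set.finite_range _)
    have hfd2 : FiniteDimensional ℚ ((span ℚ (Set.range C)).map F) := inferInstance
    have hfd3 : FiniteDimensional ℚ (span ℚ {2 * (Real.pi : ℂ) * Complex.I}) :=
      FiniteDimensional.span_of_finite ℚ (Set.finite_singleton _)
    have h2 := Submodule.finrank_mono h1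
    have h3 := Submodule.finrank_sup_add_finrank_inf_eq ((span ℚ (Set.range C)).map F)
      (span ℚ {2 * (Real.pi : ℂ) * Complex.I})
    have h4 := Submodule.finrank_map_le F (span ℚ (Set.range C))
    have h5 : Module.finrank ℚ (span ℚ {2 * (Real.pi : ℂ) * Complex.I}) ≤ 1 := by
      have := finrank_span_singleton (K := ℚ) Complex.two_pi_I_ne_zero
      exact this.le
    omega
  obtain ⟨x, hx, hxi⟩ := hT
  have hle' : tDim t + 1 ≤ J.card + 1 := by omega
  exact ⟨fun j => x (Fin.castLE hle' j), fun j => hx _, hxi.comp _ (Fin.castLE_injective hle')⟩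

end Pool.Agent.Work.MP_8da9ea_nt.TG

end
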